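import Pool.Agent.W_a4f561_E.Fin8
import Pool.Agent.W_a4f561_h26.Def

/-!
MP_a4f561_co: adding the bottom and the top vertex to a system of bars.
-/

set_option autoImplicit false

namespace Pool.Agent.W_a4f561_E

open Sum Pool.Agent.W_a4f561_h25 Pool.Agent.W_a4f561_h26

section

variable {V : Type} [Fintype V] [LinearOrder V]

/-- The rank of a vertex. -/
def rk (v : V) : ℕ := (Finset.univ.filter fun u => u < v).card

theorem rk_lt {u v : V} (h : u < v) : rk u < rk v := by
  unfold rk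
  refine Finset.card_lt_card ?_
  rw [Finset.ssubset_iff_of_subset]
  · exact ⟨u, by simpa using h, by simp⟩
  · intro w hw
    simp only [Finset.mem_filter, Finset.mem_univ, true_and] at hw ⊢
    exact hw.trans h

theorem rk_lt_iff {u v : V} : rk u < rk v ↔ u < v := by
  refine ⟨fun h => ?_, rk_lt⟩
  rcases lt_trichotomy u v with h1 | h1 | h1
  · exact h1
  · rw [h1] at h
    exact absurd h (lt_irrefl _)
  · exact absurd (rk_lt h1) (by omega)

theorem rk_inj {u v : V} (h : rk u = rk v) : u = v := by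
  rcases lt_trichotomy u v with h1 | h1 | h1
  · exact absurd (rk_lt h1) (by omega)
  · exact h1
  · exact absurd (rk_lt h1) (by omega)

theorem rk_lt_card (v : V) : rk v < Fintype.card V := by
  unfold rk
  rw [← Finset.card_univ]
  refine Finset.card_lt_card ?_
  rw [Finset.ssubset_iff_of_subset (Finset.filter_subset _ _)]
  exact ⟨v, Finset.mem_univ v, by simp⟩

variable (b t : V → ℕ)

/-- Heights. -/
def rX : V ⊕ Bool → ℕ
  | inl v => rk v + 1
  | inr false => 0
  | inr true => Fintype.card V + 1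

/-- Births. -/
def bX : V ⊕ Bool → ℕ
  | inl v => b v + 1
  | inr _ => 0

/-- Deaths. -/
def tX : V ⊕ Bool → ℕ
  | inl v => t v + 1
  | inr false => 4 * Fintype.card V + 2
  | inr true => 4 * Fintype.card V + 3

/-- The bars with bottom and top. -/
def mkBars (h1 : ∀ v, b v ≤ t v) (h2 : ∀ v, t v < 4 * Fintype.card V) (h3 : Function.Injective t)
    (h4 : ∀ u v, b u ≠ t v + 1) : Bars (V ⊕ Bool) where
  r := rX
  b := bX b
  t := tX t
  M := Fintype.card V + 1
  N := 4 * Fintype.card V + 1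
  bot := inr false
  top := inr true
  fl := false
  r_inj := by
    rintro (u | (_ | _)) (v | (_ | _)) h
    · rw [rk_inj (show rk u = rk v by simpa [rX] using h)]
    · simp [rX] at h
    · have := rk_lt_card u
      simp only [rX] at h
      omega
    · simp [rX] at h
    · rfl
    · simp [rX] at h
    · have := rk_lt_card v
      simp only [rX] at h
      omega
    · simp [rX] at h
    · rfl
  t_inj := by
    rintro (u | (_ | _)) (v | (_ | _)) h
    · rw [h3 (show t u = t v by simpa [tX] using h)]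
    · have := h2 u
      simp only [tX] at h
      omega
    · have := h2 u
      simp only [tX] at h
      omega
    · have := h2 v
      simp only [tX] at h
      omega
    · rfl
    · simp only [tX] at h
      omega
    · have := h2 v
      simp only [tX] at h
      omega
    · simp only [tX] at h
      omega
    · rfl
  r_le := by
    rintro (u | (_ | _))
    · have := rk_lt_card u
      simp only [rX]
      omega
    · simp only [rX]
      omega
    · simp only [rX]
      omega
  r_bot := by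
    rintro (u | (_ | _)) h
    · simp [rX]
    · exact absurd rfl h
    · simp [rX]
  r_top := by
    rintro (u | (_ | _)) h
    · have := rk_lt_card u
      simp only [rX]
      omega
    · simp [rX]
    · exact absurd rfl h
  ne := by simp
  bt := by
    rintro (u | (_ | _))
    · have := h1 u
      simp only [bX, tX]
      omega
    · simp [bX]
    · simp [bX]
  b_bot := rfl
  b_top := rfl
  t_bot := by simp [tX]
  t_top := by simp [tX]
  t_bot' := by simp [tX]
  t_top' := by simp [tX]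
  b_in := by
    rintro (u | (_ | _)) h h'
    · simp [bX]
    · exact absurd rfl h
    · exact absurd rfl h'
  t_in := by
    rintro (u | (_ | _)) h h'
    · have := h2 u
      simp only [tX]
      omega
    · exact absurd rfl h
    · exact absurd rfl h'
  nb := by
    rintro (u | (_ | _)) (v | (_ | _)) h h'
    · have := h4 u v
      simp only [bX, tX]
      omega
    · exact absurd rfl h
    · exact absurd rfl h'
    · simp [bX]
    · exact absurd rfl h
    · exact absurd rfl h'
    · simp [bX]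
    · exact absurd rfl h
    · exact absurd rfl h'

variable {b t}

theorem mkBars_vis (h1 : ∀ v, b v ≤ t v) (h2 : ∀ v, t v < 4 * Fintype.card V) (h3 : Function.Injective t)
    (h4 : ∀ u v, b u ≠ t v + 1) {x y : V} {τ : ℕ} (hτ : τ ≤ 4 * Fintype.card V) (h : Cons b t τ x y) :
    (mkBars b t h1 h2 h3 h4).vis (inl x) (inl y) := by
  obtain ⟨k1, k2, k3, k4⟩ := h
  refine ⟨τ + 1, ?_, ?_, ?_, ?_, ?_⟩
  · show τ + 1 ≤ 4 * Fintype.card V + 1
    omega
  · show b x + 1 ≤ τ + 1 ∧ τ + 1 ≤ t x + 1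
    omega
  · show b y + 1 ≤ τ + 1 ∧ τ + 1 ≤ t y + 1
    omega
  · show rk x + 1 < rk y + 1
    have := rk_lt k1
    omega
  · rintro (u | (_ | _)) hu ⟨hu1, hu2⟩
    · have hu' : b u + 1 ≤ τ + 1 ∧ τ + 1 ≤ t u + 1 := hu
      have hu1' : rk x + 1 < rk u + 1 := hu1
      have hu2' : rk u + 1 < rk y + 1 := hu2
      exact k4 u (rk_lt_iff.1 (by omega)) (rk_lt_iff.1 (by omega)) (by omega) (by omega)
    · have hu1' : rk x + 1 < 0 := hu1
      omega
    · have hu2' : Fintype.card V + 1 < rk y + 1 := hu2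
      have := rk_lt_card y
      omega

end

/-- Every bars structure has an order that agrees with the bars on visible pairs, all of whose twists have at most
`K (card V)` edges. -/
def BarsTwist' (K : ℕ → ℝ) : Prop :=
  ∀ (V : Type) [Fintype V] [DecidableEq V] (G : Bars V), G.fl = false → G.N + 7 = 4 * Fintype.card V →
    ∃ ρ : V → V → Prop, (∀ x, ¬ ρ x x) ∧ (∀ x y z, ρ x y → ρ y z → ρ x z) ∧ (∀ x y, x ≠ y → ρ x y ∨ ρ y x) ∧
      (∀ x y, G.vis x y → ρ x y) ∧
      ∀ F : Finset (V × V), (∀ e ∈ F, G.vis e.1 e.2) →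
        IsTwist Prod.fst Prod.snd ρ F → (F.card : ℝ) ≤ K (Fintype.card V)

/-- From bars with bottom and top to bars without. -/
theorem barsTwist_of {K : ℕ → ℝ} (h : BarsTwist' K) : BarsTwist (fun m => K (m + 2)) := by
  intro V _ _ b t h1 h2 h3 h4
  have hcard : Fintype.card (V ⊕ Bool) = Fintype.card V + 2 := by simp
  obtain ⟨ρ, r1, r2, r3, r4, r5⟩ := h (V ⊕ Bool) (mkBars b t h1 h2 h3 h4) rfl (by
    rw [hcard]
    show 4 * Fintype.card V + 1 + 7 = _
    ring)
  refine ⟨fun x y => ρ (inl x) (inl y), fun x => r1 _, fun x y z => r2 _ _ _,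
    fun x y hxy => r3 _ _ (fun hh => hxy (Sum.inl_injective hh)),
    fun x y τ hτ hc => r4 _ _ (mkBars_vis h1 h2 h3 h4 hτ hc), ?_⟩
  intro F hF hT
  have hinj : Function.Injective (fun e : V × V => ((inl e.1 : V ⊕ Bool), (inl e.2 : V ⊕ Bool))) := by
    intro e e' hh
    simp only [Prod.mk.injEq] at hh
    exact Prod.ext (Sum.inl_injective hh.1) (Sum.inl_injective hh.2)
  have h5 := r5 (F.map ⟨_, hinj⟩) (by
    intro e he
    obtain ⟨g, hg, rfl⟩ := Finset.mem_map.1 he
    obtain ⟨τ, hτ, hc⟩ := hF g hg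
    exact mkBars_vis h1 h2 h3 h4 hτ hc) (by
    intro e he e' he' hne
    obtain ⟨g, hg, rfl⟩ := Finset.mem_map.1 he
    obtain ⟨g', hg', rfl⟩ := Finset.mem_map.1 he'
    exact hT g hg g' hg' (fun hh => hne (by rw [hh])))
  rw [Finset.card_map, hcard] at h5
  exact h5

/-- Pages for upward planar digraphs from twists of bars. -/
theorem final' (H : ∀ ε : ℝ, 0 < ε → ∃ C : ℝ, BarsTwist' (fun m => C * (m:ℝ) ^ ε)) (ε : ℝ) (hε : 0 < ε) :
    ∃ C : ℝ, ∀ (n : ℕ) (G : Digraph (Fin n)) (f : Fin n → ℝ × ℝ) (_ : Function.Injective f)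
    (γ : Fin n → Fin n → ℝ → ℝ × ℝ)
    (_ : ∀ u v, G.Adj u v →
      ContinuousOn (γ u v) (Set.Icc (0:ℝ) 1) ∧
      γ u v 0 = f u ∧ γ u v 1 = f v ∧
      StrictMonoOn (fun t => (γ u v t).2) (Set.Icc (0:ℝ) 1) ∧
      (∀ w, ∀ s ∈ Set.Ioo (0:ℝ) 1, γ u v s ≠ f w))
    (_ : ∀ u v u' v', G.Adj u v → G.Adj u' v' → (u, v) ≠ (u', v') →
      ∀ s ∈ Set.Ioo (0:ℝ) 1, ∀ t ∈ Set.Icc (0:ℝ) 1, γ u v s ≠ γ u' v' t),
    ∃ (σ : Fin n ≃ Fin n) (k : ℕ) (p : Fin n → Fin n → Fin k), (k:ℝ) ≤ C * (n:ℝ) ^ ε ∧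
      (∀ u v, G.Adj u v → σ u < σ v) ∧
      (∀ a b c d, G.Adj a b → G.Adj c d → p a b = p c d → ¬ (σ a < σ c ∧ σ c < σ b ∧ σ b < σ d)) := by
  refine final (fun ε hε => ?_) ε hε
  obtain ⟨C, hC⟩ := H ε hε
  refine ⟨|C| * 3 ^ ε, ?_⟩
  intro V _ _ b t h1 h2 h3 h4
  obtain ⟨ρ, r1, r2, r3, r4, r5⟩ := barsTwist_of hC V b t h1 h2 h3 h4
  refine ⟨ρ, r1, r2, r3, r4, fun F hF hT => ?_⟩
  rcases Nat.eq_zero_or_pos (Fintype.card V) with h0 | h0
  · have : IsEmpty V := Fintype.card_eq_zero_iff.1 h0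
    have hF0 : F = ∅ := Finset.eq_empty_of_isEmpty F
    rw [hF0, Finset.card_empty, Nat.cast_zero]
    positivity
  · refine (r5 F hF hT).trans ?_
    have h0' : (1:ℝ) ≤ (Fintype.card V : ℝ) := by exact_mod_cast h0
    have h6 : (((Fintype.card V + 2 : ℕ) : ℝ)) ^ ε ≤ 3 ^ ε * (Fintype.card V : ℝ) ^ ε := by
      rw [← Real.mul_rpow (by norm_num) (by positivity)]
      refine Real.rpow_le_rpow (by positivity) ?_ hε.le
      push_cast
      linarith
    calc C * (((Fintype.card V + 2 : ℕ) : ℝ)) ^ ε ≤ |C| * (((Fintype.card V + 2 : ℕ) : ℝ)) ^ ε :=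
          mul_le_mul_of_nonneg_right (le_abs_self C) (by positivity)
      _ ≤ |C| * (3 ^ ε * (Fintype.card V : ℝ) ^ ε) := mul_le_mul_of_nonneg_left h6 (abs_nonneg C)
      _ = _ := by ring

end Pool.Agent.W_a4f561_E
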