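import Pool.Agent.W_a4f561_h26.Evt1

/-!
MP_a4f561_co (EpsPages): satisfied events stay satisfied; all events in the order of the deadlines.
`sat_mono` needs `Inv G σk` (closure of `S` under `pi`).
-/

set_option autoImplicit false

namespace Pool.Agent.W_a4f561_E.AllEv98

open Pool.Agent.W_a4f561_h26

variable {V : Type} [Fintype V] [DecidableEq V] {G : Bars V}
  {σ σ1 σk : St V} {m0 : V × Bool → Option Bool} {ω : V × Bool → Bool} {z : V} {K Tm T C m B : ℕ} {E : Set V}

omit [Fintype V] [DecidableEq V] in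
theorem le_refl' (σ : St V) : Le σ σ :=
  ⟨fun _ h => h, fun _ h => h, fun _ _ => rfl, fun _ h => h, fun _ h => h⟩

omit [Fintype V] [DecidableEq V] in
theorem le_mir {σ σ' : St V} (h : Le σ σ') : Le σ.mir σ'.mir :=
  ⟨h.S, h.Dec, h.pi, h.RU, h.RD⟩

omit [Fintype V] [DecidableEq V] in
/-- A route inside the closed set `S` is the same in the extension. -/
theorem orb_le {σ σ' : St V} (hle : Le σ σ') (hcl : ∀ v ∈ σ.S, σ.pi v ∈ σ.S) {u v : V} (hu : u ∈ σ.S)
    (h : Orb σ.pi u v) : Orb σ'.pi u v := by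
  obtain ⟨k, hk⟩ := h
  refine ⟨k, ?_⟩
  have key : ∀ n : ℕ, σ'.pi^[n] u = σ.pi^[n] u ∧ σ.pi^[n] u ∈ σ.S := by
    intro n
    induction n with
    | zero => exact ⟨rfl, hu⟩
    | succ n ih =>
      rw [Function.iterate_succ_apply', Function.iterate_succ_apply', ih.1]
      exact ⟨hle.pi _ (Or.inl ih.2), hcl _ ih.2⟩
  rw [(key k).1, hk]

omit [Fintype V] [DecidableEq V] in
theorem satA_mono {G : Bars V} {σ σk σk' : St V} {ω : V × Bool → Bool} {z : V} (hle : Le σk σk')
    (hcl : ∀ v ∈ σk.S, σk.pi v ∈ σk.S) {v w : V} (hs : SatA G σ ω z σk v w) : SatA G σ ω z σk' v w := by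
  obtain ⟨h1, u, h2, h3, h4⟩ := hs
  exact ⟨hle.S h1, u, h2, h3, orb_le hle hcl h1 h4⟩

omit [Fintype V] [DecidableEq V] in
theorem fin_le {G : Bars V} {σ σ' : St V} (hle : Le σ σ') {π : V → V} (h : Fin' G σ' π) : Fin' G σ π := by
  refine ⟨h.1, fun v hv => ?_⟩
  rw [h.2 v (hv.elim (fun h' => Or.inl (hle.S h')) (fun h' => Or.inr (hle.Dec h'))), hle.pi v hv]

omit [Fintype V] [DecidableEq V] in
theorem satB_mono {G : Bars V} {σ σk σk' : St V} {ω : V × Bool → Bool} {z : V} (hle : Le σk σk')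
    {v w : V} (hs : SatB G σ ω z σk v w) : SatB G σ ω z σk' v w :=
  fun π hπ τ h1 h2 => hs π (fin_le hle hπ) τ h1 h2

omit [Fintype V] [DecidableEq V] in
/-- Satisfied events stay satisfied. -/
theorem sat_mono {σk' : St V} (hI : Inv G σk) (hle : Le σk σk') {e : Bool × Bool × V} {w : V}
    (hs : Sat G σ ω z σk e w) : Sat G σ ω z σk' e w := by
  match e, hs with
  | (false, false, v), hs => exact satA_mono hle hI.cl hs
  | (false, true, v), hs => exact satB_mono hle hs
  | (true, false, v), hs => exact satA_mono (le_mir hle) hI.cl hs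
  | (true, true, v), hs => exact satB_mono (le_mir hle) hs

/-- The deadline is unique. -/
theorem dlA_unique {G : Bars V} {σ : St V} {m0 : V × Bool → Option Bool} {ω : V × Bool → Bool} {z : V} {δ : ℝ}
    {v w w' : V} (h : dlA G σ m0 ω z δ v w) (h' : dlA G σ m0 ω z δ v w') : w = w' := by
  obtain ⟨-, h2, h3, h4, h5⟩ := h
  obtain ⟨-, h2', h3', h4', h5'⟩ := h'
  apply G.t_inj
  rcases lt_trichotomy (G.t w) (G.t w') with hlt | heq | hlt
  · exact absurd h4 (not_le.mpr (h5' w h2 h3 hlt))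
  · exact heq
  · exact absurd h4' (not_le.mpr (h5 w' h2' h3' hlt))

theorem dlB_unique {G : Bars V} {σ : St V} {m0 : V × Bool → Option Bool} {ω : V × Bool → Bool} {z : V} {δ : ℝ}
    {v w w' : V} (h : dlB G σ m0 ω z δ v w) (h' : dlB G σ m0 ω z δ v w') : w = w' := by
  obtain ⟨-, h2, h3, h4, h5⟩ := h
  obtain ⟨-, h2', h3', h4', h5'⟩ := h'
  apply G.t_inj
  rcases lt_trichotomy (G.t w) (G.t w') with hlt | heq | hlt
  · exact absurd h4 (not_le.mpr (h5' w h2 h3 hlt))
  · exact heq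
  · exact absurd h4' (not_le.mpr (h5 w' h2' h3' hlt))

theorem ev_unique {δ : ℝ} {e : Bool × Bool × V} {w w' : V} (h : Ev G σ m0 ω z δ e w)
    (h' : Ev G σ m0 ω z δ e w') : w = w' := by
  match e, h, h' with
  | (false, false, v), h, h' => exact dlA_unique h h'
  | (false, true, v), h, h' => exact dlB_unique h h'
  | (true, false, v), h, h' => exact dlA_unique h h'
  | (true, true, v), h, h' => exact dlB_unique h h'

omit [Fintype V] [DecidableEq V] in
theorem onB_mir (hI : Inv G σ) {w : V} : OnB G.mir σ.mir ω z w ↔ OnB G σ ω z w := by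
  unfold OnB
  rw [lam_mir hI.bot_mem hI.top_mem]
  exact Iff.rfl

theorem ev_onB (hI : Inv G σ) {δ : ℝ} {e : Bool × Bool × V} {w : V} (h : Ev G σ m0 ω z δ e w) :
    OnB G σ ω z w := by
  match e, h with
  | (false, false, v), h => exact h.2.1
  | (false, true, v), h => exact h.2.1
  | (true, false, v), h => exact (onB_mir hI).mp h.2.1
  | (true, true, v), h => exact (onB_mir hI).mp h.2.1

omit [Fintype V] [DecidableEq V] in
theorem lam_mem {v : V} (hv : v ∈ σ.S) : lam G σ ω v = σ.pi v := by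
  unfold lam
  exact if_pos (Or.inl hv)

/-- A vertex of the drawn path dies before `Tm`. -/
theorem onB_Tm (h : Ctx G σ m0 ω z K Tm E) {w : V} (hw : OnB G σ ω z w) : G.t w ≤ Tm := by
  obtain ⟨e, heE, heS, hze, hmin⟩ := h.suc
  refine le_trans ?_ (h.tE e heE)
  by_contra hlt
  have hlt' : G.t e ≤ G.t w := le_of_lt (not_le.mp hlt)
  have hew : Orb (lam G σ ω) e w := orb_comp (ch_lam h.inv ω) hze hw.1 hlt'
  obtain ⟨k, hk⟩ := hew
  have key : ∀ n : ℕ, (lam G σ ω)^[n] e ∈ σ.S := by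
    intro n
    induction n with
    | zero => exact heS
    | succ n ih =>
      rw [Function.iterate_succ_apply']
      rw [lam_mem ih]
      exact h.inv.cl _ ih
  exact hw.2 (hk ▸ key k)

theorem tr_mono {T' : ℕ} {δ : ℝ} {idx : V → ℕ} {q : ℕ} {ev : ℕ → Bool × Bool × V} {dt : ℕ → V}
    (hT : Tr G σ m0 ω z δ σ1 σk C T idx q ev dt) (h : T ≤ T') : Tr G σ m0 ω z δ σ1 σk C T' idx q ev dt :=
  { hT with
    stg := stg_mono hT.stg h
    dT := fun i hi => le_trans (hT.dT i hi) h }

/-- No trees. -/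
theorem tr_zero {δ : ℝ} (hd : Dr G σ ω z σ1) :
    Tr G σ m0 ω z δ σ1 σ1 C 0 (fun _ => 0) 0 (fun _ => (false, false, z)) (fun _ => z) where
  stg :=
    { le := le_refl' _
      inv := hd.inv
      lat := hd.lat
      recD := fun _ h1 h2 => absurd h1 h2
      recU := fun _ h1 h2 => absurd h1 h2
      hit := fun _ hu => absurd hu.1 hu.2 }
  lt := fun _ hu => absurd hu.1 hu.2
  nxt := fun _ hu => absurd hu.1 hu.2
  tm := fun _ hu => absurd hu.1 hu.2
  mono := fun _ _ _ hj => absurd hj (Nat.not_lt_zero _)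
  dT := fun _ hi => absurd hi (Nat.not_lt_zero _)
  same := fun _ _ _ hj => absurd hj (Nat.not_lt_zero _)
  cost := fun _ hi => absurd hi (Nat.not_lt_zero _)
  isev := fun _ hi => absurd hi (Nat.not_lt_zero _)

/-- Processing one event of either kind and side. -/
theorem ev_step (hE : EXT G B (dl K) (m + 2 * (K + 1)) C) (h : Ctx G σ m0 ω z K Tm E)
    (hm : Set.ncard {c | m0 c ≠ none} ≤ m) (hd : Dr G σ ω z σ1) {idx : V → ℕ} {q : ℕ}
    {ev : ℕ → Bool × Bool × V} {dt : ℕ → V} (hT : Tr G σ m0 ω z (dl K) σ1 σk C T idx q ev dt)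
    {e : Bool × Bool × V} {w : V} (he : Ev G σ m0 ω z (dl K) e w) (hb : blk B (G.t e.2.2) (G.t w))
    (hTw : T ≤ G.t w) (hn : ∀ i, i < q → ev i ≠ e) :
    ∃ σk' idx' q' ev', ∃ dt' : ℕ → V, Le σk σk' ∧ Tr G σ m0 ω z (dl K) σ1 σk' C (G.t w) idx' q' ev' dt' ∧
      (∀ i, i < q' → (∃ j, j < q ∧ ev' i = ev j) ∨ ev' i = e) ∧ Sat G σ ω z σk' e w := by
  match e, he, hb, hn with
  | (false, false, v), he, hb, hn => exact evA hE h hm hd hT he hb hTw hn
  | (false, true, v), he, hb, hn => exact evB hE h hm hd hT he hb hTw hn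
  | (true, k, v), he, hb, hn =>
    have hE' := ext_mir hE
    have h' := ctx_mir h
    have hd' := dr_mir h.inv hd
    have hT' := tr_mir h hT
    have hback : ∀ {σk'' : St V} {idx' : V → ℕ} {q' : ℕ} {ev' : ℕ → Bool × Bool × V} {dt' : ℕ → V},
        Tr G.mir σ.mir m0 ω z (dl K) σ1.mir σk'' C (G.mir.t w) idx' q' ev' dt' →
        Tr G σ m0 ω z (dl K) σ1 σk''.mir C (G.t w) idx' q' (fun i => (!(ev' i).1, (ev' i).2)) dt' := by
      intro σk'' idx' q' ev' dt' hq
      have := tr_mir h' hq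
      rw [mir_mir] at this
      exact this
    have hev : ∀ {q' : ℕ} {ev' : ℕ → Bool × Bool × V} {k : Bool},
        (∀ i, i < q' → (∃ j, j < q ∧ ev' i = (!(ev j).1, (ev j).2)) ∨ ev' i = (false, k, v)) →
        ∀ i, i < q' → (∃ j, j < q ∧ (!(ev' i).1, (ev' i).2) = ev j) ∨ (!(ev' i).1, (ev' i).2) = (true, k, v) := by
      intro q' ev' k hq i hi
      rcases hq i hi with ⟨j, hj, hij⟩ | hij
      · left
        refine ⟨j, hj, ?_⟩
        rw [hij]
        simp
      · right
        rw [hij]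
        rfl
    match k, he, hn with
    | false, he, hn =>
      obtain ⟨σk'', idx', q', ev', dt', a1, a2, a3, a4⟩ := evA hE' h' hm hd' hT' he hb hTw
        (by
          intro i hi hc
          apply hn i hi
          have h1 : (!(ev i).1) = false := congrArg Prod.fst hc
          have h2 : (ev i).2 = (false, v) := congrArg Prod.snd hc
          have h3 : (ev i).1 = true := by simpa using h1
          exact Prod.ext h3 h2)
      exact ⟨σk''.mir, idx', q', _, dt', le_mir a1, hback a2, hev a3, a4⟩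
    | true, he, hn =>
      obtain ⟨σk'', idx', q', ev', dt', a1, a2, a3, a4⟩ := evB hE' h' hm hd' hT' he hb hTw
        (by
          intro i hi hc
          apply hn i hi
          have h1 : (!(ev i).1) = false := congrArg Prod.fst hc
          have h2 : (ev i).2 = (true, v) := congrArg Prod.snd hc
          have h3 : (ev i).1 = true := by simpa using h1
          exact Prod.ext h3 h2)
      exact ⟨σk''.mir, idx', q', _, dt', le_mir a1, hback a2, hev a3, a4⟩

/-- ALL EVENTS inside blocks of length `B`, in the order of the deadlines. -/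
theorem all_events (hE : EXT G B (dl K) (m + 2 * (K + 1)) C) (h : Ctx G σ m0 ω z K Tm E)
    (hm : Set.ncard {c | m0 c ≠ none} ≤ m) (hd : Dr G σ ω z σ1) :
    ∃ σk idx q ev, ∃ dt : ℕ → V, Tr G σ m0 ω z (dl K) σ1 σk C Tm idx q ev dt ∧
      ∀ e w, Ev G σ m0 ω z (dl K) e w → blk B (G.t e.2.2) (G.t w) → Sat G σ ω z σk e w := by
  classical
  have main : ∀ s : Finset ((Bool × Bool × V) × V),
      (∀ x ∈ s, Ev G σ m0 ω z (dl K) x.1 x.2 ∧ blk B (G.t x.1.2.2) (G.t x.2)) →
      ∃ σk idx q ev, ∃ dt : ℕ → V, ∃ T : ℕ, (T = 0 ∨ ∃ x ∈ s, T = G.t x.2) ∧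
        Tr G σ m0 ω z (dl K) σ1 σk C T idx q ev dt ∧ (∀ i, i < q → ∃ x ∈ s, ev i = x.1) ∧
        ∀ x ∈ s, Sat G σ ω z σk x.1 x.2 := by
    intro s
    refine Finset.induction_on_max_value (fun x : (Bool × Bool × V) × V => G.t x.2) s ?_ ?_
    · intro _
      exact ⟨σ1, _, 0, _, _, 0, Or.inl rfl, tr_zero hd, fun i hi => absurd hi (Nat.not_lt_zero _),
        fun x hx => absurd hx (Finset.notMem_empty _)⟩
    · intro a s has hmax ih hs
      obtain ⟨σk, idx, q, ev, dt, T, hT0, hT, hevs, hsat⟩ :=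
        ih (fun x hx => hs x (Finset.mem_insert_of_mem hx))
      have ha := hs a (Finset.mem_insert_self _ _)
      have hTw : T ≤ G.t a.2 := by
        rcases hT0 with h0 | ⟨x, hx, hxT⟩
        · rw [h0]; exact Nat.zero_le _
        · rw [hxT]; exact hmax x hx
      have hn : ∀ i, i < q → ev i ≠ a.1 := by
        intro i hi hc
        obtain ⟨x, hx, hxi⟩ := hevs i hi
        have hx1 : x.1 = a.1 := hxi.symm.trans hc
        have hxe := (hs x (Finset.mem_insert_of_mem hx)).1
        rw [hx1] at hxe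
        have hx2 : x.2 = a.2 := ev_unique hxe ha.1
        have : x = a := Prod.ext hx1 hx2
        exact has (this ▸ hx)
      obtain ⟨σk', idx', q', ev', dt', b1, b2, b3, b4⟩ := ev_step hE h hm hd hT ha.1 ha.2 hTw hn
      refine ⟨σk', idx', q', ev', dt', G.t a.2, Or.inr ⟨a, Finset.mem_insert_self _ _, rfl⟩, b2, ?_, ?_⟩
      · intro i hi
        rcases b3 i hi with ⟨j, hj, hij⟩ | hij
        · obtain ⟨x, hx, hxj⟩ := hevs j hj
          exact ⟨x, Finset.mem_insert_of_mem hx, hij.trans hxj⟩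
        · exact ⟨a, Finset.mem_insert_self _ _, hij⟩
      · intro x hx
        rcases Finset.mem_insert.mp hx with hxa | hxs
        · rw [hxa]; exact b4
        · exact sat_mono hT.stg.inv b1 (hsat x hxs)
  obtain ⟨σk, idx, q, ev, dt, T, hT0, hT, -, hsat⟩ := main
    (Finset.univ.filter (fun x => Ev G σ m0 ω z (dl K) x.1 x.2 ∧ blk B (G.t x.1.2.2) (G.t x.2)))
    (fun x hx => (Finset.mem_filter.mp hx).2)
  have hTm : T ≤ Tm := by
    rcases hT0 with h0 | ⟨x, hx, hxT⟩
    · rw [h0]; exact Nat.zero_le _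
    · rw [hxT]
      exact onB_Tm h (ev_onB h.inv (Finset.mem_filter.mp hx).2.1)
  refine ⟨σk, idx, q, ev, dt, tr_mono hT hTm, fun e w he hb => ?_⟩
  exact hsat (e, w) (Finset.mem_filter.mpr ⟨Finset.mem_univ _, he, hb⟩)

end Pool.Agent.W_a4f561_E.AllEv98
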