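import Mathlib

/-!
MP_a4f561_co (EpsPages): the arithmetic at the end (helper97). With `R = ⌈(log (n + 2)) ^ (1 / 3)⌉` the bound
`2 ^ (a R ^ 2) (log2 (n + b) + 1) ^ (R + b) Λ`, `Λ = ⌈(8 (n + b) + 2) ^ (1 / R)⌉`, is at most
`exp (C (log (n + 2)) ^ (2 / 3))`, and this is at most `D n ^ ε` for every `ε > 0`.
-/

set_option autoImplicit false

namespace Pool.Agent.W_a4f561_Ar97

theorem log_two_le (n : ℕ) : (1 / 2 : ℝ) ≤ Real.log ((n : ℝ) + 2) := by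
  have h1 : Real.log 2 ≤ Real.log ((n : ℝ) + 2) :=
    Real.log_le_log (by norm_num) (by have := Nat.cast_nonneg (α := ℝ) n; linarith)
  linarith [Real.log_two_gt_d9]

/-- **The arithmetic at the end.** -/
theorem ar (a b : ℕ) : ∃ C : ℝ, 0 ≤ C ∧ ∀ n : ℕ, ∃ R Λ : ℕ, 1 ≤ R ∧ 1 ≤ Λ ∧ 8 * (n + b) + 2 ≤ Λ ^ R ∧
    ((2 ^ (a * R ^ 2) * (Nat.log 2 (n + b) + 1) ^ (R + b) * Λ : ℕ) : ℝ) ≤
      Real.exp (C * Real.log ((n : ℝ) + 2) ^ (2 / 3 : ℝ)) := by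
  obtain ⟨c₁, hc₁⟩ : ∃ c₁ : ℝ, c₁ = 2 * Real.log (8 * (b : ℝ) + 10) + 1 := ⟨_, rfl⟩
  have hb0 : (0 : ℝ) ≤ b := Nat.cast_nonneg b
  have hlb : 0 ≤ Real.log (8 * (b : ℝ) + 10) := Real.log_nonneg (by linarith)
  have hc1 : 1 ≤ c₁ := by rw [hc₁]; linarith
  obtain ⟨c₂, hc₂⟩ : ∃ c₂ : ℝ, c₂ = 2 * Real.log (4 * c₁) + 3 := ⟨_, rfl⟩
  have hl4 : 0 ≤ Real.log (4 * c₁) := Real.log_nonneg (by linarith)
  have hc20 : 0 ≤ c₂ := by rw [hc₂]; positivity
  refine ⟨9 * a + c₂ * (3 + 2 * b) + (4 + c₁), by positivity, fun n => ?_⟩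
  have hn0 : (0 : ℝ) ≤ n := Nat.cast_nonneg n
  obtain ⟨l, hl⟩ : ∃ l : ℝ, l = Real.log ((n : ℝ) + 2) := ⟨_, rfl⟩
  have hl2 : 1 / 2 ≤ l := by rw [hl]; exact log_two_le n
  obtain ⟨u, hu⟩ : ∃ u : ℝ, u = l ^ (1 / 3 : ℝ) := ⟨_, rfl⟩
  have hu0 : 0 < u := by rw [hu]; positivity
  have hu3 : u ^ 3 = l := by
    rw [hu, ← Real.rpow_natCast, ← Real.rpow_mul (by linarith)]
    norm_num
  have hu2 : l ^ (2 / 3 : ℝ) = u ^ 2 := by
    rw [hu, ← Real.rpow_natCast, ← Real.rpow_mul (by linarith)]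
    norm_num
  have huh : 1 / 2 ≤ u := by
    by_contra h
    rw [not_le] at h
    have : u ^ 3 < (1 / 2) ^ 3 := pow_lt_pow_left₀ h hu0.le (by norm_num)
    rw [hu3] at this
    norm_num at this
    linarith
  rw [← hl, hu2]
  obtain ⟨R, hR⟩ : ∃ R : ℕ, R = ⌈u⌉₊ := ⟨_, rfl⟩
  have hR1 : 1 ≤ R := by rw [hR]; exact Nat.one_le_ceil_iff.2 hu0
  have hRu : u ≤ R := by rw [hR]; exact Nat.le_ceil u
  have hRu' : (R : ℝ) ≤ 3 * u := by
    have : (R : ℝ) < u + 1 := by rw [hR]; exact Nat.ceil_lt_add_one hu0.le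
    linarith
  have hR0 : (0 : ℝ) < R := by linarith
  have hlog : Real.log (8 * ((n : ℝ) + b) + 2) ≤ c₁ * l := by
    have h1 : 8 * ((n : ℝ) + b) + 2 ≤ (8 * (b : ℝ) + 10) * ((n : ℝ) + 2) := by
      have h0 := mul_nonneg hb0 hn0
      have h2 : (8 * (b : ℝ) + 10) * ((n : ℝ) + 2) = 8 * (b * n) + 16 * b + 10 * n + 20 := by ring
      linarith
    have h2 := Real.log_le_log (by positivity) h1
    rw [Real.log_mul (by positivity) (by positivity), ← hl] at h2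
    rw [hc₁]
    have h3 : Real.log (8 * (b : ℝ) + 10) * 1 ≤ Real.log (8 * (b : ℝ) + 10) * (2 * l) :=
      mul_le_mul_of_nonneg_left (by linarith) hlb
    have h4 : (2 * Real.log (8 * (b : ℝ) + 10) + 1) * l = Real.log (8 * (b : ℝ) + 10) * (2 * l) + l := by ring
    linarith
  obtain ⟨x, hx⟩ : ∃ x : ℝ, x = Real.exp (Real.log (8 * ((n : ℝ) + b) + 2) / R) := ⟨_, rfl⟩
  have hlog0 : 0 ≤ Real.log (8 * ((n : ℝ) + b) + 2) := Real.log_nonneg (by linarith)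
  have hx1 : 1 ≤ x := by
    rw [hx]
    exact Real.one_le_exp (by positivity)
  have hxR : x ^ R = 8 * ((n : ℝ) + b) + 2 := by
    rw [hx, ← Real.exp_nat_mul, mul_div_cancel₀ _ hR0.ne', Real.exp_log (by positivity)]
  refine ⟨R, ⌈x⌉₊, hR1, Nat.one_le_ceil_iff.2 (by linarith), ?_, ?_⟩
  · have h1 : x ^ R ≤ (⌈x⌉₊ : ℝ) ^ R := pow_le_pow_left₀ (by linarith) (Nat.le_ceil x) R
    rw [hxR] at h1
    exact_mod_cast h1
  have hL : (⌈x⌉₊ : ℝ) ≤ Real.exp ((4 + c₁) * u ^ 2) := by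
    have h1 : (⌈x⌉₊ : ℝ) < x + 1 := Nat.ceil_lt_add_one (by linarith)
    have h2 : x ≤ Real.exp (c₁ * u ^ 2) := by
      rw [hx]
      refine Real.exp_le_exp.2 ?_
      rw [div_le_iff₀ hR0]
      calc Real.log (8 * ((n : ℝ) + b) + 2) ≤ c₁ * l := hlog
        _ = c₁ * u ^ 2 * u := by rw [← hu3]; ring
        _ ≤ c₁ * u ^ 2 * R := mul_le_mul_of_nonneg_left hRu (by positivity)
    have h3 : (2 : ℝ) ≤ Real.exp 1 := by
      have := Real.add_one_le_exp (1 : ℝ)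
      linarith
    have h4 : Real.exp 1 * Real.exp (c₁ * u ^ 2) ≤ Real.exp ((4 + c₁) * u ^ 2) := by
      rw [← Real.exp_add]
      refine Real.exp_le_exp.2 ?_
      have h7 : (1 / 2 : ℝ) ^ 2 ≤ u ^ 2 := pow_le_pow_left₀ (by norm_num) huh 2
      have h8 : (4 + c₁) * u ^ 2 = 4 * u ^ 2 + c₁ * u ^ 2 := by ring
      norm_num at h7
      linarith
    have h5 : (0 : ℝ) < Real.exp (c₁ * u ^ 2) := Real.exp_pos _
    have h6 : (1 : ℝ) ≤ Real.exp (c₁ * u ^ 2) := Real.one_le_exp (by positivity)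
    have h7 : 2 * Real.exp (c₁ * u ^ 2) ≤ Real.exp 1 * Real.exp (c₁ * u ^ 2) := mul_le_mul_of_nonneg_right h3 h5.le
    linarith
  have hy : ((Nat.log 2 (n + b) + 1 : ℕ) : ℝ) ≤ Real.exp (c₂ * u) := by
    have h1 : (Nat.log 2 (n + b) : ℝ) ≤ 2 * (c₁ * l) := by
      rcases Nat.eq_zero_or_pos (n + b) with h | h
      · rw [h]
        simp only [Nat.log_zero_right, Nat.cast_zero]
        positivity
      · have h2 : (2 : ℕ) ^ Nat.log 2 (n + b) ≤ n + b := Nat.pow_log_le_self 2 (by omega)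
        have h3 : (2 : ℝ) ^ Nat.log 2 (n + b) ≤ (n : ℝ) + b := by exact_mod_cast h2
        have h4 := Real.log_le_log (by positivity) h3
        rw [Real.log_pow] at h4
        have h5 : Real.log ((n : ℝ) + b) ≤ Real.log (8 * ((n : ℝ) + b) + 2) :=
          Real.log_le_log (lt_of_lt_of_le (by positivity) h3) (by linarith)
        have h6 : (1 / 2 : ℝ) < Real.log 2 := by linarith [Real.log_two_gt_d9]
        have h7 : (0 : ℝ) ≤ (Nat.log 2 (n + b) : ℝ) := Nat.cast_nonneg _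
        have h8 : (Nat.log 2 (n + b) : ℝ) * (1 / 2) ≤ Nat.log 2 (n + b) * Real.log 2 := mul_le_mul_of_nonneg_left h6.le h7
        linarith
    push_cast
    have h2 : (Nat.log 2 (n + b) : ℝ) + 1 ≤ 4 * c₁ * u ^ 3 := by
      rw [hu3]
      have h2 : (1 : ℝ) * (1 / 2) ≤ c₁ * l := mul_le_mul hc1 hl2 (by norm_num) (by linarith)
      have h3 : 4 * c₁ * l = 4 * (c₁ * l) := by ring
      linarith
    have h3 : u ≤ Real.exp u := by
      have := Real.add_one_le_exp u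
      linarith
    have h4 : u ^ 3 ≤ Real.exp (3 * u) := by
      calc u ^ 3 ≤ (Real.exp u) ^ 3 := pow_le_pow_left₀ hu0.le h3 3
        _ = Real.exp (3 * u) := by rw [← Real.exp_nat_mul]; norm_num
    calc (Nat.log 2 (n + b) : ℝ) + 1 ≤ 4 * c₁ * u ^ 3 := h2
      _ ≤ 4 * c₁ * Real.exp (3 * u) := mul_le_mul_of_nonneg_left h4 (by positivity)
      _ = Real.exp (Real.log (4 * c₁) + 3 * u) := by rw [Real.exp_add, Real.exp_log (by positivity)]
      _ ≤ Real.exp (c₂ * u) := by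
          refine Real.exp_le_exp.2 ?_
          rw [hc₂]
          have h5 : Real.log (4 * c₁) * 1 ≤ Real.log (4 * c₁) * (2 * u) := mul_le_mul_of_nonneg_left (by linarith) hl4
          have h6 : (2 * Real.log (4 * c₁) + 3) * u = Real.log (4 * c₁) * (2 * u) + 3 * u := by ring
          linarith
  have hyp : ((Nat.log 2 (n + b) + 1 : ℕ) : ℝ) ^ (R + b) ≤ Real.exp (c₂ * (3 + 2 * b) * u ^ 2) := by
    calc ((Nat.log 2 (n + b) + 1 : ℕ) : ℝ) ^ (R + b) ≤ (Real.exp (c₂ * u)) ^ (R + b) :=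
          pow_le_pow_left₀ (Nat.cast_nonneg _) hy _
      _ = Real.exp (((R + b : ℕ) : ℝ) * (c₂ * u)) := by rw [← Real.exp_nat_mul]
      _ ≤ Real.exp (c₂ * (3 + 2 * b) * u ^ 2) := by
          refine Real.exp_le_exp.2 ?_
          push_cast
          have h0 : (b : ℝ) * 1 ≤ b * (2 * u) := mul_le_mul_of_nonneg_left (by linarith) hb0
          have h1 : (R : ℝ) + b ≤ (3 + 2 * b) * u := by
            have h2 : (3 + 2 * (b : ℝ)) * u = 3 * u + b * (2 * u) := by ring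
            linarith
          calc ((R : ℝ) + b) * (c₂ * u) ≤ ((3 + 2 * b) * u) * (c₂ * u) :=
                mul_le_mul_of_nonneg_right h1 (by positivity)
            _ = _ := by ring
  have h2p : ((2 : ℝ)) ^ (a * R ^ 2) ≤ Real.exp (9 * a * u ^ 2) := by
    have h1 : (2 : ℝ) ≤ Real.exp 1 := by
      have := Real.add_one_le_exp (1 : ℝ)
      linarith
    calc (2 : ℝ) ^ (a * R ^ 2) ≤ (Real.exp 1) ^ (a * R ^ 2) := pow_le_pow_left₀ (by norm_num) h1 _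
      _ = Real.exp (((a * R ^ 2 : ℕ) : ℝ) * 1) := by rw [← Real.exp_nat_mul]
      _ ≤ Real.exp (9 * a * u ^ 2) := by
          refine Real.exp_le_exp.2 ?_
          push_cast
          have h2 : (R : ℝ) ^ 2 ≤ (3 * u) ^ 2 := pow_le_pow_left₀ hR0.le hRu' 2
          have h3 : (0 : ℝ) ≤ a := Nat.cast_nonneg a
          have h4 := mul_le_mul_of_nonneg_left h2 h3
          have h5 : (a : ℝ) * (3 * u) ^ 2 = 9 * a * u ^ 2 := by ring
          linarith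
  have h3 : ((2 ^ (a * R ^ 2) * (Nat.log 2 (n + b) + 1) ^ (R + b) * ⌈x⌉₊ : ℕ) : ℝ) =
      (2 : ℝ) ^ (a * R ^ 2) * ((Nat.log 2 (n + b) + 1 : ℕ) : ℝ) ^ (R + b) * (⌈x⌉₊ : ℝ) := by
    push_cast
    ring
  rw [h3]
  calc (2 : ℝ) ^ (a * R ^ 2) * ((Nat.log 2 (n + b) + 1 : ℕ) : ℝ) ^ (R + b) * (⌈x⌉₊ : ℝ)
      ≤ Real.exp (9 * a * u ^ 2) * Real.exp (c₂ * (3 + 2 * b) * u ^ 2) * Real.exp ((4 + c₁) * u ^ 2) :=
        mul_le_mul (mul_le_mul h2p hyp (by positivity) (by positivity)) hL (by positivity) (by positivity)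
    _ = Real.exp ((9 * a + c₂ * (3 + 2 * b) + (4 + c₁)) * u ^ 2) := by
        rw [← Real.exp_add, ← Real.exp_add]
        congr 1
        ring

/-- The bound is at most `D n ^ ε` for every `ε > 0`. -/
theorem exp_le_rpow {C ε : ℝ} (hC : 0 ≤ C) (hε : 0 < ε) : ∃ D : ℝ, 0 < D ∧ ∀ n : ℕ, 1 ≤ n →
    Real.exp (C * Real.log ((n : ℝ) + 2) ^ (2 / 3 : ℝ)) ≤ D * (n : ℝ) ^ ε := by
  refine ⟨Real.exp (C * (C / ε) ^ 2) * 3 ^ ε, by positivity, fun n hn => ?_⟩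
  have hnR : (1 : ℝ) ≤ n := by exact_mod_cast hn
  obtain ⟨l, hl⟩ : ∃ l : ℝ, l = Real.log ((n : ℝ) + 2) := ⟨_, rfl⟩
  have hl2 : 1 / 2 ≤ l := by rw [hl]; exact log_two_le n
  obtain ⟨u, hu⟩ : ∃ u : ℝ, u = l ^ (1 / 3 : ℝ) := ⟨_, rfl⟩
  have hu0 : 0 < u := by rw [hu]; positivity
  have hu3 : u ^ 3 = l := by
    rw [hu, ← Real.rpow_natCast, ← Real.rpow_mul (by linarith)]
    norm_num
  have hu2 : l ^ (2 / 3 : ℝ) = u ^ 2 := by
    rw [hu, ← Real.rpow_natCast, ← Real.rpow_mul (by linarith)]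
    norm_num
  rw [← hl, hu2]
  have hCe : 0 ≤ C / ε := by positivity
  have h1 : C * u ^ 2 ≤ ε * l + C * (C / ε) ^ 2 := by
    rw [← hu3]
    rcases le_total (C / ε) u with h | h
    · have h2 : C ≤ ε * u := by
        rw [div_le_iff₀ hε] at h
        linarith
      have h3 : C * u ^ 2 ≤ ε * u * u ^ 2 := mul_le_mul_of_nonneg_right h2 (by positivity)
      have h4 : 0 ≤ C * (C / ε) ^ 2 := by positivity
      have h5 : ε * u * u ^ 2 = ε * u ^ 3 := by ring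
      linarith
    · have h2 : u ^ 2 ≤ (C / ε) ^ 2 := pow_le_pow_left₀ hu0.le h 2
      have h3 : C * u ^ 2 ≤ C * (C / ε) ^ 2 := mul_le_mul_of_nonneg_left h2 hC
      have h4 : 0 ≤ ε * u ^ 3 := by positivity
      linarith
  calc Real.exp (C * u ^ 2) ≤ Real.exp (ε * l + C * (C / ε) ^ 2) := Real.exp_le_exp.2 h1
    _ = Real.exp (C * (C / ε) ^ 2) * ((n : ℝ) + 2) ^ ε := by
        rw [Real.exp_add, hl, Real.rpow_def_of_pos (by linarith), mul_comm ε, mul_comm]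
    _ ≤ Real.exp (C * (C / ε) ^ 2) * (3 * (n : ℝ)) ^ ε := by
        refine mul_le_mul_of_nonneg_left ?_ (Real.exp_pos _).le
        exact Real.rpow_le_rpow (by positivity) (by linarith) hε.le
    _ = Real.exp (C * (C / ε) ^ 2) * 3 ^ ε * (n : ℝ) ^ ε := by
        rw [Real.mul_rpow (by norm_num) (by positivity), mul_assoc]

end Pool.Agent.W_a4f561_Ar97
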