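import Pool.Agent.W_a4f561_E.Bridge25
import Pool.Agent.W_a4f561_h25.Asm

/-!
MP_a4f561_co, the ends of the `n^ε` theorem: drawing, bars, twist bound for bars, pages.
-/

set_option autoImplicit false

namespace Pool.Agent.W_a4f561_E

open Sum Pool.Agent.W_a4f561_h25 Pool.Agent.W_a4f561_h73

/-- `x < y` are alive and consecutive among the vertices alive at the time `τ`. -/
def Cons {V : Type} [LinearOrder V] (b t : V → ℕ) (τ : ℕ) (x y : V) : Prop :=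
  x < y ∧ (b x ≤ τ ∧ τ ≤ t x) ∧ (b y ≤ τ ∧ τ ≤ t y) ∧ ∀ z, x < z → z < y → b z ≤ τ → τ ≤ t z → False

/-- Every system of bars with `m` vertices has an order that agrees with the bars on consecutive pairs, all of whose
twists have at most `K m` edges. -/
def BarsTwist (K : ℕ → ℝ) : Prop :=
  ∀ (V : Type) [Fintype V] [LinearOrder V] (b t : V → ℕ), (∀ v, b v ≤ t v) →
    (∀ v, t v < 4 * Fintype.card V) → Function.Injective t → (∀ u v, b u ≠ t v + 1) →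
    ∃ ρ : V → V → Prop, (∀ x, ¬ ρ x x) ∧ (∀ x y z, ρ x y → ρ y z → ρ x z) ∧ (∀ x y, x ≠ y → ρ x y ∨ ρ y x) ∧
      (∀ x y τ, τ ≤ 4 * Fintype.card V → Cons b t τ x y → ρ x y) ∧
      ∀ F : Finset (V × V), (∀ e ∈ F, ∃ τ, τ ≤ 4 * Fintype.card V ∧ Cons b t τ e.1 e.2) →
        IsTwist Prod.fst Prod.snd ρ F → (F.card : ℝ) ≤ K (Fintype.card V)

/-- From bars to planar st-structures. -/
theorem pl_of_bars {K : ℕ → ℝ} (hK : BarsTwist K) {V E : Type} [Fintype V] [Fintype E] (P : Pl V E) :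
    ∃ ρ : V → V → Prop, (∀ x, ¬ ρ x x) ∧ (∀ x y z, ρ x y → ρ y z → ρ x z) ∧ (∀ x y, x ≠ y → ρ x y ∨ ρ y x) ∧
      (∀ e, ρ (P.tl e) (P.hd e)) ∧
      ∀ F : Finset (V × V), (∀ e ∈ F, ∃ f, e = (P.tl f, P.hd f)) →
        IsTwist Prod.fst Prod.snd ρ F → (F.card : ℝ) ≤ K (Fintype.card V) := by
  classical
  obtain ⟨b, t, T, h1, h2, h3, h4, h5, h6, h7, h8⟩ := exists_bars P
  have : IsStrictTotalOrder V (fun x y => P.lo (inl x) (inl y)) :=
    { trichotomous := by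
        intro x y hxy hyx
        by_contra hne
        rcases P.lo_tot (inl x) (inl y) (fun h => hne (Sum.inl_injective h)) with h | h
        · exact hxy h
        · exact hyx h
      irrefl := fun x => P.lo_irr _
      trans := fun x y z => P.lo_tr _ _ _ }
  let _ : LinearOrder V := linearOrderOfSTO (fun x y => P.lo (inl x) (inl y))
  have hlt : ∀ x y : V, x < y ↔ P.lo (inl x) (inl y) := fun x y => Iff.rfl
  obtain ⟨ρ, r1, r2, r3, r4, r5⟩ := hK V b t h1 h2 h3 h4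
  have hc : ∀ e, Cons b t (T e) (P.tl e) (P.hd e) := by
    intro e
    refine ⟨(hlt _ _).2 (P.lo_tr _ _ _ (P.tl_lo e) (P.hd_lo e)), h6 e, h7 e, ?_⟩
    intro z hz1 hz2 hz3 hz4
    exact h8 e z ((hlt _ _).1 hz1) ((hlt _ _).1 hz2) hz3 hz4
  refine ⟨ρ, r1, r2, r3, fun e => r4 _ _ _ (h5 e) (hc e), ?_⟩
  intro F hF hT
  refine r5 F (fun e he => ?_) hT
  obtain ⟨f, rfl⟩ := hF e he
  exact ⟨T f, h5 f, hc f⟩

/-- From planar st-structures to drawings. -/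
theorem drw_of_bars {K : ℕ → ℝ} (hK : BarsTwist K) (n : ℕ) (G : Digraph (Fin n)) (f : Fin n → ℝ × ℝ)
    (hf : Function.Injective f) (γ : Fin n → Fin n → ℝ → ℝ × ℝ)
    (h1 : ∀ u v, G.Adj u v →
      ContinuousOn (γ u v) (Set.Icc (0:ℝ) 1) ∧
      γ u v 0 = f u ∧ γ u v 1 = f v ∧
      StrictMonoOn (fun t => (γ u v t).2) (Set.Icc (0:ℝ) 1) ∧
      (∀ w, ∀ s ∈ Set.Ioo (0:ℝ) 1, γ u v s ≠ f w))
    (h2 : ∀ u v u' v', G.Adj u v → G.Adj u' v' → (u, v) ≠ (u', v') →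
      ∀ s ∈ Set.Ioo (0:ℝ) 1, ∀ t ∈ Set.Icc (0:ℝ) 1, γ u v s ≠ γ u' v' t) :
    ∃ c, c ≤ n + 2 ∧ ∃ σ : Fin n ≃ Fin n, (∀ u v, G.Adj u v → σ u < σ v) ∧
      ∀ F : Finset (Fin n × Fin n), (∀ e ∈ F, G.Adj e.1 e.2) →
        IsTwist Prod.fst Prod.snd (fun x y => σ x < σ y) F → (F.card : ℝ) ≤ K c := by
  classical
  obtain ⟨D, _⟩ := exists_drw_y f hf γ h1 h2
  obtain ⟨V2, E, iV, iE, P, i, j, hi, hj, hc⟩ := goalB (Fin n) G.Adj D
  obtain ⟨ρ, r1, r2, r3, r4, r5⟩ := pl_of_bars hK P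
  rw [Fintype.card_fin] at hc
  obtain ⟨σ, hσ⟩ := exists_perm (fun a b => ρ (i a) (i b)) (fun a => r1 _)
    (fun a b c => r2 _ _ _) (fun a b hab => r3 _ _ (fun h => hab (hi h)))
  refine ⟨Fintype.card V2, hc, σ, ?_, ?_⟩
  · intro u v huv
    rw [hσ]
    have h3 := r4 (j ⟨(u, v), huv⟩)
    rw [(hj ⟨(u, v), huv⟩).1, (hj ⟨(u, v), huv⟩).2] at h3
    exact h3
  · intro F hF hT
    have hinj : Function.Injective (fun e : Fin n × Fin n => (i e.1, i e.2)) := by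
      intro e e' h
      simp only [Prod.mk.injEq] at h
      exact Prod.ext (hi h.1) (hi h.2)
    have h3 := r5 (F.map ⟨_, hinj⟩) (by
      intro e he
      obtain ⟨g, hg, rfl⟩ := Finset.mem_map.1 he
      refine ⟨j ⟨g, hF g hg⟩, ?_⟩
      rw [(hj ⟨g, hF g hg⟩).1, (hj ⟨g, hF g hg⟩).2]
      rfl) (by
      intro e he e' he' hne
      obtain ⟨g, hg, rfl⟩ := Finset.mem_map.1 he
      obtain ⟨g', hg', rfl⟩ := Finset.mem_map.1 he'
      have hgg : g ≠ g' := fun h => hne (by rw [h])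
      have h4 := hT g hg g' hg' hgg
      simp only [hσ] at h4
      exact h4)
    rwa [Finset.card_map] at h3

end Pool.Agent.W_a4f561_E
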