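import Pool.Agent.W_a4f561_h26.Def

/-!
Basic facts on bars (helper31): neighbours, mirror, hosts, order principle, squeezing.
-/

set_option autoImplicit false

namespace Pool.Agent.W_a4f561_B31

open Pool.Agent.W_a4f561_h26

variable {V : Type}

/-! ### mirror -/

@[simp] theorem mir_r (G : Bars V) (v : V) : G.mir.r v = G.M - G.r v := rfl
@[simp] theorem mir_b (G : Bars V) (v : V) : G.mir.b v = G.b v := rfl
@[simp] theorem mir_t (G : Bars V) (v : V) : G.mir.t v = G.t v := rfl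
@[simp] theorem mir_N (G : Bars V) : G.mir.N = G.N := rfl
@[simp] theorem mir_M (G : Bars V) : G.mir.M = G.M := rfl
@[simp] theorem mir_bot (G : Bars V) : G.mir.bot = G.top := rfl
@[simp] theorem mir_top (G : Bars V) : G.mir.top = G.bot := rfl
@[simp] theorem mir_fl (G : Bars V) : G.mir.fl = !G.fl := rfl

@[simp] theorem mir_mir (G : Bars V) : G.mir.mir = G := by
  have hr : G.mir.mir.r = G.r := by
    funext v
    have := G.r_le v
    simp only [mir_r, mir_M]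
    omega
  have hf : G.mir.mir.fl = G.fl := by simp
  cases G
  simp only [Bars.mir] at *
  congr 1

theorem mir_r_lt (G : Bars V) (u v : V) : G.mir.r u < G.mir.r v ↔ G.r v < G.r u := by
  have h1 := G.r_le u
  have h2 := G.r_le v
  simp only [mir_r]
  omega

theorem mir_r_le (G : Bars V) (u v : V) : G.mir.r u ≤ G.mir.r v ↔ G.r v ≤ G.r u := by
  have h1 := G.r_le u
  have h2 := G.r_le v
  simp only [mir_r]
  omega

@[simp] theorem mir_al (G : Bars V) (v : V) (τ : ℕ) : G.mir.al v τ ↔ G.al v τ := Iff.rfl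

theorem mir_inn (G : Bars V) (v : V) : G.mir.inn v ↔ G.inn v := by
  unfold Bars.inn
  simp only [mir_bot, mir_top]
  exact and_comm

theorem mir_ub (G : Bars V) (x : V) (τ : ℕ) : G.mir.ub x τ = G.lb x τ := rfl
theorem mir_lb (G : Bars V) (x : V) (τ : ℕ) : G.mir.lb x τ = G.ub x τ := by
  unfold Bars.lb; rw [mir_mir]
theorem mir_up (G : Bars V) (v : V) : G.mir.up v = G.lo v := rfl
theorem mir_lo (G : Bars V) (v : V) : G.mir.lo v = G.up v := by
  unfold Bars.lo Bars.up; rw [mir_lb]; rfl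

@[simp] theorem St_mir_S (σ : St V) : σ.mir.S = σ.S := rfl
@[simp] theorem St_mir_Dec (σ : St V) : σ.mir.Dec = σ.Dec := rfl
@[simp] theorem St_mir_Lat (σ : St V) : σ.mir.Lat = σ.Lat := rfl
@[simp] theorem St_mir_pi (σ : St V) : σ.mir.pi = σ.pi := rfl
@[simp] theorem St_mir_RD (σ : St V) : σ.mir.RD = σ.RU := rfl
@[simp] theorem St_mir_RU (σ : St V) : σ.mir.RU = σ.RD := rfl
@[simp] theorem St_mir_mir (σ : St V) : σ.mir.mir = σ := rfl

/-! ### basic facts -/

theorem r_ne (G : Bars V) {u v : V} (h : u ≠ v) : G.r u < G.r v ∨ G.r v < G.r u := by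
  rcases lt_trichotomy (G.r u) (G.r v) with h1 | h1 | h1
  · exact Or.inl h1
  · exact absurd (G.r_inj h1) h
  · exact Or.inr h1

theorem al_bot (G : Bars V) {τ : ℕ} (h : τ ≤ G.N + 1) : G.al G.bot τ := by
  refine ⟨by rw [G.b_bot]; omega, ?_⟩
  have := G.t_bot
  omega

theorem al_top (G : Bars V) {τ : ℕ} (h : τ ≤ G.N + 1) : G.al G.top τ := by
  refine ⟨by rw [G.b_top]; omega, ?_⟩
  have := G.t_top
  omega

theorem inn_of_t (G : Bars V) {v : V} (h : G.t v ≤ G.N) : G.inn v := by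
  refine ⟨fun e => ?_, fun e => ?_⟩
  · have := G.t_bot; rw [e] at h; omega
  · have := G.t_top; rw [e] at h; omega

theorem t_lt_of_inn (G : Bars V) {v : V} (h : G.inn v) : G.t v < G.N := G.t_in v h.1 h.2

theorem r_bot_le (G : Bars V) (v : V) : G.r G.bot ≤ G.r v := by
  by_cases h : v = G.bot
  · rw [h]
  · exact (G.r_bot v h).le

theorem r_le_top (G : Bars V) (v : V) : G.r v ≤ G.r G.top := by
  by_cases h : v = G.top
  · rw [h]
  · exact (G.r_top v h).le

theorem lt_top_of_lt (G : Bars V) {u v : V} (h : G.r u < G.r v) : G.r u < G.r G.top :=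
  h.trans_le (r_le_top G v)

theorem bot_lt_of_lt (G : Bars V) {u v : V} (h : G.r u < G.r v) : G.r G.bot < G.r v :=
  (r_bot_le G u).trans_lt h

/-- specification of the upper neighbour -/
theorem ub_spec (G : Bars V) {x : V} {τ : ℕ} (hx : G.r x < G.r G.top) (hτ : τ ≤ G.N + 1) :
    G.al (G.ub x τ) τ ∧ G.r x < G.r (G.ub x τ) ∧
      ∀ u', G.al u' τ → G.r x < G.r u' → G.r (G.ub x τ) ≤ G.r u' := by
  classical
  have hex : ∃ u, G.al u τ ∧ G.r x < G.r u ∧ ∀ u', G.al u' τ → G.r x < G.r u' → G.r u ≤ G.r u' := by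
    have h0 : ∃ n : ℕ, ∃ u, G.r u = n ∧ G.al u τ ∧ G.r x < G.r u :=
      ⟨G.r G.top, G.top, rfl, al_top G hτ, hx⟩
    obtain ⟨u, h1, h2, h3⟩ := Nat.find_spec h0
    refine ⟨u, h2, h3, fun u' h4 h5 => ?_⟩
    rw [h1]
    exact Nat.find_min' h0 ⟨u', rfl, h4, h5⟩
  unfold Bars.ub
  rw [dif_pos hex]
  exact hex.choose_spec

theorem ub_al (G : Bars V) {x : V} {τ : ℕ} (hx : G.r x < G.r G.top) (hτ : τ ≤ G.N + 1) :
    G.al (G.ub x τ) τ := (ub_spec G hx hτ).1

theorem lt_ub (G : Bars V) {x : V} {τ : ℕ} (hx : G.r x < G.r G.top) (hτ : τ ≤ G.N + 1) :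
    G.r x < G.r (G.ub x τ) := (ub_spec G hx hτ).2.1

theorem ub_le (G : Bars V) {x u : V} {τ : ℕ} (hu : G.al u τ) (hxu : G.r x < G.r u)
    (hτ : τ ≤ G.N + 1) : G.r (G.ub x τ) ≤ G.r u :=
  (ub_spec G (lt_top_of_lt G hxu) hτ).2.2 u hu hxu

theorem ub_eq (G : Bars V) {x y : V} {τ : ℕ} (hτ : τ ≤ G.N + 1) (hy : G.al y τ)
    (hxy : G.r x < G.r y) (hno : ∀ u, G.al u τ → ¬ (G.r x < G.r u ∧ G.r u < G.r y)) :
    G.ub x τ = y := by
  obtain ⟨h1, h2, h3⟩ := ub_spec G (lt_top_of_lt G hxy) hτ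
  apply G.r_inj
  have h4 := h3 y hy hxy
  have h5 := hno _ h1
  by_contra hne
  exact h5 ⟨h2, by omega⟩

theorem lb_spec (G : Bars V) {x : V} {τ : ℕ} (hx : G.r G.bot < G.r x) (hτ : τ ≤ G.N + 1) :
    G.al (G.lb x τ) τ ∧ G.r (G.lb x τ) < G.r x ∧
      ∀ u', G.al u' τ → G.r u' < G.r x → G.r u' ≤ G.r (G.lb x τ) := by
  have h := ub_spec G.mir (x := x) (τ := τ) (by rw [mir_top, mir_r_lt]; exact hx) hτ
  rw [mir_ub] at h
  refine ⟨h.1, (mir_r_lt G _ _).1 h.2.1, fun u' h1 h2 => ?_⟩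
  exact (mir_r_le G _ _).1 (h.2.2 u' h1 ((mir_r_lt G _ _).2 h2))

theorem lb_al (G : Bars V) {x : V} {τ : ℕ} (hx : G.r G.bot < G.r x) (hτ : τ ≤ G.N + 1) :
    G.al (G.lb x τ) τ := (lb_spec G hx hτ).1

theorem lb_lt (G : Bars V) {x : V} {τ : ℕ} (hx : G.r G.bot < G.r x) (hτ : τ ≤ G.N + 1) :
    G.r (G.lb x τ) < G.r x := (lb_spec G hx hτ).2.1

theorem le_lb (G : Bars V) {x u : V} {τ : ℕ} (hu : G.al u τ) (hxu : G.r u < G.r x)
    (hτ : τ ≤ G.N + 1) : G.r u ≤ G.r (G.lb x τ) :=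
  (lb_spec G (bot_lt_of_lt G hxu) hτ).2.2 u hu hxu

theorem lb_eq (G : Bars V) {x y : V} {τ : ℕ} (hτ : τ ≤ G.N + 1) (hx : G.al x τ)
    (hxy : G.r x < G.r y) (hno : ∀ u, G.al u τ → ¬ (G.r x < G.r u ∧ G.r u < G.r y)) :
    G.lb y τ = x := by
  apply ub_eq G.mir (by simpa using hτ) hx ((mir_r_lt G _ _).2 hxy)
  rintro u hu ⟨h1, h2⟩
  exact hno u hu ⟨(mir_r_lt G _ _).1 h2, (mir_r_lt G _ _).1 h1⟩

/-- the lower neighbour of the upper neighbour -/
theorem lb_ub (G : Bars V) {x : V} {τ : ℕ} (hx : G.al x τ) (hxt : G.r x < G.r G.top)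
    (hτ : τ ≤ G.N + 1) : G.lb (G.ub x τ) τ = x := by
  obtain ⟨h1, h2, h3⟩ := ub_spec G hxt hτ
  apply lb_eq G hτ hx h2
  rintro u hu ⟨h4, h5⟩
  have := h3 u hu h4
  omega

theorem ub_lb (G : Bars V) {x : V} {τ : ℕ} (hx : G.al x τ) (hxt : G.r G.bot < G.r x)
    (hτ : τ ≤ G.N + 1) : G.ub (G.lb x τ) τ = x := by
  obtain ⟨h1, h2, h3⟩ := lb_spec G hxt hτ
  apply ub_eq G hτ hx h2
  rintro u hu ⟨h4, h5⟩
  have := h3 u hu h5
  omega

/-- nobody alive is strictly between `x` and its upper neighbour -/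
theorem not_between_ub (G : Bars V) {x u : V} {τ : ℕ} (hτ : τ ≤ G.N + 1) (hu : G.al u τ)
    (h1 : G.r x < G.r u) (h2 : G.r u < G.r (G.ub x τ)) : False := by
  have := ub_le G hu h1 hτ
  omega

theorem not_between_lb (G : Bars V) {x u : V} {τ : ℕ} (hτ : τ ≤ G.N + 1) (hu : G.al u τ)
    (h1 : G.r u < G.r x) (h2 : G.r (G.lb x τ) < G.r u) : False := by
  have := le_lb G hu h1 hτ
  omega

/-! ### neighbours at the death -/

theorem al_self_t (G : Bars V) (v : V) : G.al v (G.t v) := ⟨G.bt v, le_rfl⟩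
theorem al_self_b (G : Bars V) (v : V) : G.al v (G.b v) := ⟨le_rfl, G.bt v⟩

theorem inn_lt_top (G : Bars V) {v : V} (h : G.inn v) : G.r v < G.r G.top := G.r_top v h.2
theorem bot_lt_inn (G : Bars V) {v : V} (h : G.inn v) : G.r G.bot < G.r v := G.r_bot v h.1

theorem up_spec (G : Bars V) {v : V} (h : G.inn v) :
    G.al (G.up v) (G.t v) ∧ G.r v < G.r (G.up v) ∧
      ∀ u', G.al u' (G.t v) → G.r v < G.r u' → G.r (G.up v) ≤ G.r u' :=
  ub_spec G (inn_lt_top G h) (by have := t_lt_of_inn G h; omega)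

theorem lo_spec (G : Bars V) {v : V} (h : G.inn v) :
    G.al (G.lo v) (G.t v) ∧ G.r (G.lo v) < G.r v ∧
      ∀ u', G.al u' (G.t v) → G.r u' < G.r v → G.r u' ≤ G.r (G.lo v) :=
  lb_spec G (bot_lt_inn G h) (by have := t_lt_of_inn G h; omega)

theorem lt_up (G : Bars V) {v : V} (h : G.inn v) : G.r v < G.r (G.up v) := (up_spec G h).2.1
theorem lo_lt (G : Bars V) {v : V} (h : G.inn v) : G.r (G.lo v) < G.r v := (lo_spec G h).2.1
theorem lo_lt_up (G : Bars V) {v : V} (h : G.inn v) : G.r (G.lo v) < G.r (G.up v) :=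
  (lo_lt G h).trans (lt_up G h)

theorem lo_ne_up (G : Bars V) {v : V} (h : G.inn v) : G.lo v ≠ G.up v := by
  intro e
  have := lo_lt_up G h
  rw [e] at this
  exact lt_irrefl _ this

theorem t_lt_up (G : Bars V) {v : V} (h : G.inn v) : G.t v < G.t (G.up v) := by
  have h1 := (up_spec G h).1.2
  have h2 := lt_up G h
  rcases h1.lt_or_eq with h3 | h3
  · exact h3
  · rw [← G.t_inj h3] at h2; exact absurd h2 (lt_irrefl _)

theorem t_lt_lo (G : Bars V) {v : V} (h : G.inn v) : G.t v < G.t (G.lo v) := by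
  have h1 := (lo_spec G h).1.2
  have h2 := lo_lt G h
  rcases h1.lt_or_eq with h3 | h3
  · exact h3
  · rw [← G.t_inj h3] at h2; exact absurd h2 (lt_irrefl _)

theorem al_up_succ (G : Bars V) {v : V} (h : G.inn v) : G.al (G.up v) (G.t v + 1) :=
  ⟨(up_spec G h).1.1.trans (Nat.le_succ _), t_lt_up G h⟩

theorem al_lo_succ (G : Bars V) {v : V} (h : G.inn v) : G.al (G.lo v) (G.t v + 1) :=
  ⟨(lo_spec G h).1.1.trans (Nat.le_succ _), t_lt_lo G h⟩

/-- nobody is born right after a death, so whoever is alive at `t v + 1` was alive at `t v` -/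
theorem al_pred (G : Bars V) {u v : V} (h : G.inn v) (hu : G.al u (G.t v + 1)) :
    G.al u (G.t v) := by
  refine ⟨?_, by have := hu.2; omega⟩
  have h1 := G.nb u v h.1 h.2
  have h2 := hu.1
  omega

theorem ne_of_al_succ (G : Bars V) {u v : V} (hu : G.al u (G.t v + 1)) : u ≠ v := by
  rintro rfl
  have := hu.2
  omega

/-- at `t v + 1` the two neighbours of `v` are consecutive -/
theorem ub_lo_succ (G : Bars V) {v : V} (h : G.inn v) : G.ub (G.lo v) (G.t v + 1) = G.up v := by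
  apply ub_eq G (by have := t_lt_of_inn G h; omega) (al_up_succ G h) (lo_lt_up G h)
  rintro u hu ⟨h1, h2⟩
  have h3 := al_pred G h hu
  rcases r_ne G (ne_of_al_succ G hu) with h4 | h4
  · have := (lo_spec G h).2.2 u h3 h4
    omega
  · have := (up_spec G h).2.2 u h3 h4
    omega

theorem lb_up_succ (G : Bars V) {v : V} (h : G.inn v) : G.lb (G.up v) (G.t v + 1) = G.lo v := by
  have := ub_lo_succ G.mir (v := v) ((mir_inn G v).2 h)
  rw [mir_lo, mir_up, mir_ub] at this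
  exact this

theorem ub_self_t (G : Bars V) (v : V) : G.ub v (G.t v) = G.up v := rfl

theorem ub_lo_t (G : Bars V) {v : V} (h : G.inn v) : G.ub (G.lo v) (G.t v) = v :=
  ub_lb G (al_self_t G v) (bot_lt_inn G h) (by have := t_lt_of_inn G h; omega)

theorem lb_up_t (G : Bars V) {v : V} (h : G.inn v) : G.lb (G.up v) (G.t v) = v :=
  lb_ub G (al_self_t G v) (inn_lt_top G h) (by have := t_lt_of_inn G h; omega)

/-- The upper neighbour of `x` is the same at `τ` and `τ + 1` unless it dies at `τ` or somebody is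
born between at `τ + 1`. -/
theorem ub_succ (G : Bars V) {x : V} {τ : ℕ} (hx : G.al x τ) (_ : G.al x (τ + 1))
    (hxt : G.r x < G.r G.top) (hτ : τ < G.N + 1) :
    G.ub x (τ + 1) = G.ub x τ ∨
    (G.t (G.ub x τ) = τ ∧ G.inn (G.ub x τ) ∧ G.lo (G.ub x τ) = x ∧ G.ub x (τ + 1) = G.up (G.ub x τ)) ∨
    (G.b (G.ub x (τ + 1)) = τ + 1 ∧ G.r (G.ub x (τ + 1)) < G.r (G.ub x τ)) := by
  obtain ⟨h1, h2, h3⟩ := ub_spec G hxt (τ := τ) (by omega)
  obtain ⟨k1, k2, k3⟩ := ub_spec G hxt (τ := τ + 1) (by omega)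
  by_cases hd : G.t (G.ub x τ) = τ
  · right; left
    have hin : G.inn (G.ub x τ) := inn_of_t G (by omega)
    have hlo : G.lo (G.ub x τ) = x := by
      unfold Bars.lo
      rw [hd]
      exact lb_ub G hx hxt (by omega)
    refine ⟨hd, hin, hlo, ?_⟩
    have := ub_lo_succ G hin
    rw [hlo, hd] at this
    exact this
  · have hal : G.al (G.ub x τ) (τ + 1) := ⟨h1.1.trans (Nat.le_succ _), by
      have := h1.2; omega⟩
    have h4 := k3 _ hal h2
    rcases Nat.lt_or_ge (G.r (G.ub x (τ + 1))) (G.r (G.ub x τ)) with h5 | h5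
    · right; right
      refine ⟨?_, h5⟩
      by_contra hb
      have h6 : G.al (G.ub x (τ + 1)) τ := ⟨by have := k1.1; omega, by have := k1.2; omega⟩
      have := h3 _ h6 k2
      omega
    · left
      exact G.r_inj (le_antisymm h4 h5)

end Pool.Agent.W_a4f561_B31
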