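import Pool.Agent.W_a4f561_E.B31a

/-!
Hosts, orbits, tracks, order principle, squeezing (helper31).
-/

set_option autoImplicit false

namespace Pool.Agent.W_a4f561_B31

open Pool.Agent.W_a4f561_h26

variable {V : Type}

/-! ### choice functions -/

theorem ch_mir {G : Bars V} {π : V → V} (h : Ch G π) : Ch G.mir π := by
  refine ⟨h.2.1, h.1, fun v hv => ?_⟩
  rw [mir_lo, mir_up]
  exact (h.2.2 v ((mir_inn G v).1 hv)).symm

theorem ch_t_lt {G : Bars V} {π : V → V} (h : Ch G π) {v : V} (hv : G.inn v) :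
    G.t v < G.t (π v) := by
  rcases h.2.2 v hv with e | e <;> rw [e]
  · exact t_lt_lo G hv
  · exact t_lt_up G hv

theorem ch_al {G : Bars V} {π : V → V} (h : Ch G π) {v : V} (hv : G.inn v) :
    G.al (π v) (G.t v) := by
  rcases h.2.2 v hv with e | e <;> rw [e]
  · exact (lo_spec G hv).1
  · exact (up_spec G hv).1

theorem ch_b_le {G : Bars V} {π : V → V} (h : Ch G π) {v : V} (hv : G.inn v) :
    G.b (π v) ≤ G.t v := (ch_al h hv).1

theorem ch_ne {G : Bars V} {π : V → V} (h : Ch G π) {v : V} (hv : G.inn v) : π v ≠ v := by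
  intro e
  have := ch_t_lt h hv
  rw [e] at this
  exact lt_irrefl _ this

theorem ch_t_le {G : Bars V} {π : V → V} (h : Ch G π) (v : V) : G.t v ≤ G.t (π v) := by
  by_cases hb : v = G.bot
  · rw [hb, h.1]
  by_cases ht : v = G.top
  · rw [ht, h.2.1]
  exact (ch_t_lt h ⟨hb, ht⟩).le

/-- induction along routes up to time `τ` -/
theorem ch_ind {G : Bars V} {π : V → V} (h : Ch G π) {τ : ℕ} (hτ : τ ≤ G.N + 1)
    {P : V → Prop} (h0 : ∀ u, τ ≤ G.t u → P u) (h1 : ∀ u, G.inn u → G.t u < τ → P (π u) → P u) :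
    ∀ u, P u := by
  have key : ∀ n u, τ ≤ G.t u + n → P u := by
    intro n
    induction n with
    | zero => intro u hu; exact h0 u (by omega)
    | succ n ih =>
      intro u hu
      by_cases hh : τ ≤ G.t u
      · exact h0 u hh
      · have hin : G.inn u := inn_of_t G (by omega)
        refine h1 u hin (by omega) (ih (π u) ?_)
        have := ch_t_lt h hin
        omega
  intro u
  exact key τ u (by omega)

/-! ### orbits -/

theorem orb_refl (π : V → V) (u : V) : Orb π u u := ⟨0, rfl⟩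

theorem orb_one (π : V → V) (u : V) : Orb π u (π u) := ⟨1, rfl⟩

theorem orb_trans {π : V → V} {u v w : V} (h1 : Orb π u v) (h2 : Orb π v w) : Orb π u w := by
  obtain ⟨k, rfl⟩ := h1
  obtain ⟨l, rfl⟩ := h2
  exact ⟨l + k, by rw [Function.iterate_add_apply]⟩

theorem orb_step {π : V → V} {u v : V} (h : Orb π u v) : Orb π u (π v) := orb_trans h (orb_one π v)

theorem orb_head {π : V → V} {u v : V} (h : Orb π (π u) v) : Orb π u v := orb_trans (orb_one π u) h

/-- `v` is `u` or on the route of `π u` -/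
theorem orb_cases_head {π : V → V} {u v : V} (h : Orb π u v) : v = u ∨ Orb π (π u) v := by
  obtain ⟨k, rfl⟩ := h
  cases k with
  | zero => exact Or.inl rfl
  | succ k => exact Or.inr ⟨k, by rw [Function.iterate_succ_apply]⟩

/-- `v = u` or `v = π w` with `w` on the route -/
theorem orb_cases_tail {π : V → V} {u v : V} (h : Orb π u v) : v = u ∨ ∃ w, Orb π u w ∧ π w = v := by
  obtain ⟨k, rfl⟩ := h
  cases k with
  | zero => exact Or.inl rfl
  | succ k => exact Or.inr ⟨π^[k] u, ⟨k, rfl⟩, by rw [Function.iterate_succ_apply']⟩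

theorem orb_total {π : V → V} {u v w : V} (h1 : Orb π u v) (h2 : Orb π u w) :
    Orb π v w ∨ Orb π w v := by
  obtain ⟨k, rfl⟩ := h1
  obtain ⟨l, rfl⟩ := h2
  rcases Nat.le_total k l with h | h
  · left
    exact ⟨l - k, by rw [← Function.iterate_add_apply]; congr 1; omega⟩
  · right
    exact ⟨k - l, by rw [← Function.iterate_add_apply]; congr 1; omega⟩

theorem orb_t_le {G : Bars V} {π : V → V} (h : Ch G π) {u v : V} (ho : Orb π u v) :
    G.t u ≤ G.t v := by
  obtain ⟨k, rfl⟩ := ho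
  induction k with
  | zero => exact le_rfl
  | succ k ih =>
    rw [Function.iterate_succ_apply']
    exact ih.trans (ch_t_le h _)

theorem orb_t_lt {G : Bars V} {π : V → V} (h : Ch G π) {u v : V} (ho : Orb π u v) (hne : v ≠ u) :
    G.t u < G.t v := by
  rcases (orb_t_le h ho).lt_or_eq with h1 | h1
  · exact h1
  · exact absurd (G.t_inj h1).symm hne

/-- on a route the time decides the order -/
theorem orb_of_t_le {G : Bars V} {π : V → V} (h : Ch G π) {u v w : V} (h1 : Orb π u v)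
    (h2 : Orb π u w) (ht : G.t v ≤ G.t w) : Orb π v w := by
  rcases orb_total h1 h2 with h3 | h3
  · exact h3
  · have := orb_t_le h h3
    have := G.t_inj (le_antisymm ht this)
    rw [this]; exact orb_refl _ _

theorem orb_mem_of_closed {π : V → V} {S : Set V} (hS : ∀ v ∈ S, π v ∈ S) {u v : V} (hu : u ∈ S)
    (ho : Orb π u v) : v ∈ S := by
  obtain ⟨k, rfl⟩ := ho
  induction k with
  | zero => exact hu
  | succ k ih => rw [Function.iterate_succ_apply']; exact hS _ ih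

/-- two choice functions which agree on a closed set have the same routes there -/
theorem orb_congr_of_closed {π ρ : V → V} {S : Set V} (hS : ∀ v ∈ S, π v ∈ S)
    (he : ∀ v ∈ S, ρ v = π v) {u v : V} (hu : u ∈ S) (ho : Orb π u v) : Orb ρ u v := by
  obtain ⟨k, rfl⟩ := ho
  refine ⟨k, ?_⟩
  have key : ∀ k, ρ^[k] u = π^[k] u ∧ π^[k] u ∈ S := by
    intro k
    induction k with
    | zero => exact ⟨rfl, hu⟩
    | succ k ih =>
      rw [Function.iterate_succ_apply', Function.iterate_succ_apply', ih.1, he _ ih.2]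
      exact ⟨rfl, hS _ ih.2⟩
  exact (key k).1

/-! ### hosts -/

section host

variable {G : Bars V} {π : V → V}

theorem host_of_le {u : V} {τ : ℕ} (h : τ ≤ G.t u) : host G π u τ = u := by
  unfold host
  have : ∀ n, (fun w => if G.t w < τ then π w else w)^[n] u = u := by
    intro n
    induction n with
    | zero => rfl
    | succ n ih =>
      rw [Function.iterate_succ_apply', ih]
      simp only [not_lt.mpr h, if_false]
  exact this τ

@[simp] theorem host_self_t (u : V) : host G π u (G.t u) = u := host_of_le le_rfl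

theorem host_aux (hπ : Ch G π) {τ : ℕ} (hτ : τ ≤ G.N + 1) (n : ℕ) (w : V) (h : τ ≤ G.t w + n) :
    τ ≤ G.t ((fun w => if G.t w < τ then π w else w)^[n] w) := by
  induction n generalizing w with
  | zero => simpa using h
  | succ n ih =>
    rw [Function.iterate_succ_apply]
    apply ih
    by_cases hw : G.t w < τ
    · simp only [hw, if_true]
      have hin : G.inn w := inn_of_t G (by omega)
      have := ch_t_lt hπ hin
      omega
    · simp only [hw, if_false]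
      omega

/-- unfolding of the host -/
theorem host_of_lt (hπ : Ch G π) {u : V} {τ : ℕ} (hτ : τ ≤ G.N + 1) (h : G.t u < τ) :
    host G π u τ = host G π (π u) τ := by
  have hin : G.inn u := inn_of_t G (by omega)
  have ht := ch_t_lt hπ hin
  unfold host
  obtain ⟨n, rfl⟩ : ∃ n, τ = n + 1 := ⟨τ - 1, by omega⟩
  have h1 := host_aux hπ hτ n (π u) (by omega)
  rw [Function.iterate_succ_apply, Function.iterate_succ_apply']
  simp only [h, if_true]
  rw [if_neg (not_lt.mpr h1)]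

theorem le_t_host (hπ : Ch G π) {τ : ℕ} (hτ : τ ≤ G.N + 1) (u : V) : τ ≤ G.t (host G π u τ) := by
  refine ch_ind hπ hτ (P := fun u => τ ≤ G.t (host G π u τ)) (fun u hu => ?_) (fun u _ h1 h2 => ?_) u
  · rw [host_of_le hu]; exact hu
  · rw [host_of_lt hπ hτ h1]; exact h2

theorem orb_host (hπ : Ch G π) {τ : ℕ} (hτ : τ ≤ G.N + 1) (u : V) : Orb π u (host G π u τ) := by
  refine ch_ind hπ hτ (P := fun u => Orb π u (host G π u τ)) (fun u hu => ?_) (fun u _ h1 h2 => ?_) u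
  · rw [host_of_le hu]; exact orb_refl _ _
  · rw [host_of_lt hπ hτ h1]; exact orb_head h2

theorem b_host_le (hπ : Ch G π) {τ : ℕ} (hτ : τ ≤ G.N + 1) (u : V) (hu : G.b u ≤ τ) :
    G.b (host G π u τ) ≤ τ := by
  refine ch_ind hπ hτ (P := fun u => G.b u ≤ τ → G.b (host G π u τ) ≤ τ) (fun u hu hb => ?_)
    (fun u hi h1 h2 hb => ?_) u hu
  · rw [host_of_le hu]; exact hb
  · rw [host_of_lt hπ hτ h1]; exact h2 ((ch_b_le hπ hi).trans h1.le)

theorem host_al (hπ : Ch G π) {τ : ℕ} (hτ : τ ≤ G.N + 1) {u : V} (hu : G.b u ≤ τ) :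
    G.al (host G π u τ) τ := ⟨b_host_le hπ hτ u hu, le_t_host hπ hτ u⟩

theorem host_host (hπ : Ch G π) {τ τ' : ℕ} (h : τ ≤ τ') (hτ' : τ' ≤ G.N + 1) (u : V) :
    host G π (host G π u τ) τ' = host G π u τ' := by
  refine ch_ind hπ (h.trans hτ') (P := fun u => host G π (host G π u τ) τ' = host G π u τ')
    (fun u hu => ?_) (fun u _ h1 h2 => ?_) u
  · rw [host_of_le hu]
  · have e1 := host_of_lt hπ (h.trans hτ') h1
    have e2 := host_of_lt (u := u) hπ hτ' (by omega)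
    rw [e1, h2, e2]

theorem host_succ_of_lt (hπ : Ch G π) {τ : ℕ} (hτ : τ ≤ G.N) (u : V)
    (h : τ < G.t (host G π u τ)) : host G π u (τ + 1) = host G π u τ := by
  rw [← host_host hπ (Nat.le_succ τ) (by omega) u]
  exact host_of_le h

theorem host_succ_of_eq (hπ : Ch G π) {τ : ℕ} (hτ : τ ≤ G.N) (u : V)
    (h : G.t (host G π u τ) = τ) : host G π u (τ + 1) = π (host G π u τ) := by
  have hin : G.inn (host G π u τ) := inn_of_t G (by omega)
  rw [← host_host hπ (Nat.le_succ τ) (by omega) u, host_of_lt hπ (by omega) (by omega)]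
  apply host_of_le
  have := ch_t_lt hπ hin
  omega

theorem host_succ (hπ : Ch G π) {τ : ℕ} (hτ : τ ≤ G.N) (u : V) :
    (τ < G.t (host G π u τ) ∧ host G π u (τ + 1) = host G π u τ) ∨
    (G.t (host G π u τ) = τ ∧ host G π u (τ + 1) = π (host G π u τ)) := by
  rcases (le_t_host hπ (by omega : τ ≤ G.N + 1) u).lt_or_eq with h | h
  · exact Or.inl ⟨h, host_succ_of_lt hπ hτ u h⟩
  · exact Or.inr ⟨h.symm, host_succ_of_eq hπ hτ u h.symm⟩

/-- a vertex of the route is the host at its death -/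
theorem host_of_orb (hπ : Ch G π) {u v : V} (ho : Orb π u v) (hv : G.t v ≤ G.N + 1) :
    host G π u (G.t v) = v := by
  have h1 := orb_host hπ hv u
  have h2 := le_t_host hπ hv u
  have h3 : Orb π v (host G π u (G.t v)) := orb_of_t_le hπ ho h1 h2
  obtain ⟨k, hk⟩ := ho
  -- the host is the first vertex with `t ≥ t v`
  refine ch_ind hπ hv (P := fun u => Orb π u v → host G π u (G.t v) = v) (fun u hu hov => ?_)
    (fun u _ h1 h2 hov => ?_) u ⟨k, hk⟩
  · rw [host_of_le hu]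
    by_contra hne
    have := orb_t_lt hπ hov (Ne.symm hne)
    omega
  · rw [host_of_lt hπ hv h1]
    rcases orb_cases_head hov with e | e
    · rw [e] at h1; exact absurd h1 (lt_irrefl _)
    · exact h2 e

/-- hosts between: if `v` is on the route of `u` and is host at `τ`, and alive till `τ'` -/
theorem host_stay (hπ : Ch G π) {u : V} {τ τ' : ℕ} (h : τ ≤ τ') (hτ' : τ' ≤ G.N + 1)
    (ht : τ' ≤ G.t (host G π u τ)) : host G π u τ' = host G π u τ := by
  rw [← host_host hπ h hτ' u]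
  exact host_of_le ht

/-- later hosts are on the route of earlier hosts -/
theorem orb_host_host (hπ : Ch G π) {u : V} {τ τ' : ℕ} (h : τ ≤ τ') (hτ' : τ' ≤ G.N + 1) :
    Orb π (host G π u τ) (host G π u τ') := by
  rw [← host_host hπ h hτ' u]
  exact orb_host hπ hτ' _

theorem host_mem_of_closed (hπ : Ch G π) {S : Set V} (hS : ∀ v ∈ S, π v ∈ S) {u : V} (hu : u ∈ S)
    {τ : ℕ} (hτ : τ ≤ G.N + 1) : host G π u τ ∈ S := orb_mem_of_closed hS hu (orb_host hπ hτ u)

/-- after the death of `v` (on the route of `u`) the host is the host of `π v` -/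
theorem host_succ_t (hπ : Ch G π) {u v : V} (ho : Orb π u v) (hv : G.t v ≤ G.N) :
    host G π u (G.t v + 1) = π v := by
  have h := host_of_orb hπ ho (by omega)
  rw [host_succ_of_eq hπ hv u (by rw [h]), h]

theorem mir_host (u : V) (τ : ℕ) : host G.mir π u τ = host G π u τ := rfl

end host

/-! ### tracks -/

/-- A track on `[s, e]`: alive, changes only by a death, to one of the two neighbours. -/
structure Trk (G : Bars V) (q : ℕ → V) (s e : ℕ) : Prop where
  al : ∀ τ, s ≤ τ → τ ≤ e → G.al (q τ) τ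
  st : ∀ τ, s ≤ τ → τ < e → q (τ + 1) = q τ ∨
    (G.t (q τ) = τ ∧ (q (τ + 1) = G.lo (q τ) ∨ q (τ + 1) = G.up (q τ)))

section trk

variable {G : Bars V} {p q r : ℕ → V} {s e : ℕ}

theorem Trk.mono {s' e' : ℕ} (h : Trk G q s e) (hs : s ≤ s') (he : e' ≤ e) : Trk G q s' e' :=
  ⟨fun τ h1 h2 => h.al τ (by omega) (by omega), fun τ h1 h2 => h.st τ (by omega) (by omega)⟩

theorem Trk.mir (h : Trk G q s e) : Trk G.mir q s e := by
  refine ⟨h.al, fun τ h1 h2 => ?_⟩
  rcases h.st τ h1 h2 with h3 | ⟨h3, h4⟩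
  · exact Or.inl h3
  · right
    refine ⟨h3, ?_⟩
    rw [mir_lo, mir_up]
    exact h4.symm

/-- an alive vertex is a track -/
theorem Trk.const (G : Bars V) {u : V} (hs : G.b u ≤ s) (he : e ≤ G.t u) :
    Trk G (fun _ => u) s e :=
  ⟨fun τ h1 h2 => ⟨by omega, by omega⟩, fun τ h1 h2 => Or.inl rfl⟩

/-- the host of a choice function is a track -/
theorem Trk.host {π : V → V} (hπ : Ch G π) {u : V} (hs : G.b u ≤ s) (he : e ≤ G.N + 1) :
    Trk G (host G π u) s e := by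
  refine ⟨fun τ h1 h2 => host_al hπ (by omega) (by omega), fun τ h1 h2 => ?_⟩
  rcases host_succ hπ (by omega : τ ≤ G.N) u with ⟨_, h4⟩ | ⟨h3, h4⟩
  · exact Or.inl h4
  · right
    have hin : G.inn (Pool.Agent.W_a4f561_h26.host G π u τ) := inn_of_t G (by rw [h3]; omega)
    refine ⟨h3, ?_⟩
    rw [h4]
    exact hπ.2.2 _ hin

/-- one step of the order principle -/
theorem Trk.step_le (hq : Trk G q s e) (hr : Trk G r s e) (he : e ≤ G.N + 1) {τ : ℕ}
    (h1 : s ≤ τ) (h2 : τ < e) (hlt : G.r (q τ) < G.r (r τ)) :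
    G.r (q (τ + 1)) ≤ G.r (r (τ + 1)) := by
  have qa := hq.al τ h1 h2.le
  have ra := hr.al τ h1 h2.le
  rcases hq.st τ h1 h2 with hq1 | ⟨hq0, hq1⟩ <;> rcases hr.st τ h1 h2 with hr1 | ⟨hr0, hr1⟩
  · rw [hq1, hr1]; exact hlt.le
  · rw [hq1]
    have hin : G.inn (r τ) := inn_of_t G (by omega)
    rcases hr1 with hr1 | hr1 <;> rw [hr1]
    · exact (lo_spec G hin).2.2 _ (by rw [hr0]; exact qa) hlt
    · exact (hlt.trans (lt_up G hin)).le
  · rw [hr1]
    have hin : G.inn (q τ) := inn_of_t G (by omega)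
    rcases hq1 with hq1 | hq1 <;> rw [hq1]
    · exact ((lo_lt G hin).trans hlt).le
    · exact (up_spec G hin).2.2 _ (by rw [hq0]; exact ra) hlt
  · exfalso
    have := G.t_inj (hq0.trans hr0.symm)
    rw [this] at hlt
    exact lt_irrefl _ hlt

theorem Trk.lt_of_not_meet (hq : Trk G q s e) (hr : Trk G r s e) (he : e ≤ G.N + 1)
    {τ0 τ1 : ℕ} (h0 : s ≤ τ0) (h01 : τ0 ≤ τ1) (h1 : τ1 ≤ e) (hlt : G.r (q τ0) < G.r (r τ0))
    (hne : ∀ τ, τ0 < τ → τ ≤ τ1 → q τ ≠ r τ) : G.r (q τ1) < G.r (r τ1) := by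
  induction τ1, h01 using Nat.le_induction with
  | base => exact hlt
  | succ n hn ih =>
    have ih' := ih (by omega) (fun τ a c => hne τ a (by omega))
    have := hq.step_le hr he (by omega) (by omega) ih'
    refine lt_of_le_of_ne this (fun h => hne (n + 1) (by omega) le_rfl (G.r_inj h))

/-- ORDER PRINCIPLE (O) -/
theorem Trk.meet (hq : Trk G q s e) (hr : Trk G r s e) (he : e ≤ G.N + 1)
    {τ0 τ1 : ℕ} (h0 : s ≤ τ0) (h01 : τ0 ≤ τ1) (h1 : τ1 ≤ e) (hlt : G.r (q τ0) < G.r (r τ0))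
    (hge : G.r (r τ1) ≤ G.r (q τ1)) : ∃ τ, τ0 < τ ∧ τ ≤ τ1 ∧ q τ = r τ := by
  by_contra hcon
  push Not at hcon
  exact absurd (hq.lt_of_not_meet hr he h0 h01 h1 hlt hcon) (not_lt.mpr hge)

theorem Trk.meet' (hq : Trk G q s e) (hr : Trk G r s e) (he : e ≤ G.N + 1)
    {τ0 τ1 : ℕ} (h0 : s ≤ τ0) (h01 : τ0 ≤ τ1) (h1 : τ1 ≤ e) (hle : G.r (q τ0) ≤ G.r (r τ0))
    (hge : G.r (r τ1) ≤ G.r (q τ1)) : ∃ τ, τ0 ≤ τ ∧ τ ≤ τ1 ∧ q τ = r τ := by
  rcases hle.eq_or_lt with h | h
  · exact ⟨τ0, le_rfl, h01, G.r_inj h⟩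
  · obtain ⟨τ, a, c, d⟩ := hq.meet hr he h0 h01 h1 h hge
    exact ⟨τ, a.le, c, d⟩

/-- SQUEEZE -/
theorem Trk.squeeze (hp : Trk G p s e) (hq : Trk G q s e) (hr : Trk G r s e) (he : e ≤ G.N + 1)
    {τ0 τ1 : ℕ} (h0 : s ≤ τ0) (h01 : τ0 ≤ τ1) (h1 : τ1 ≤ e) (hpq : G.r (p τ0) ≤ G.r (q τ0))
    (hqr : G.r (q τ0) ≤ G.r (r τ0)) (hpr : p τ1 = r τ1) :
    ∃ τ, τ0 ≤ τ ∧ τ ≤ τ1 ∧ (q τ = p τ ∨ q τ = r τ) := by
  rcases Nat.le_total (G.r (q τ1)) (G.r (p τ1)) with h | h
  · obtain ⟨τ, a, c, d⟩ := hp.meet' hq he h0 h01 h1 hpq h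
    exact ⟨τ, a, c, Or.inl d.symm⟩
  · obtain ⟨τ, a, c, d⟩ := hq.meet' hr he h0 h01 h1 hqr (by rw [← hpr]; exact h)
    exact ⟨τ, a, c, Or.inr d⟩

/-- once on `u` a track stays till the death of `u` -/
theorem Trk.stay (hq : Trk G q s e) {τ0 τ1 : ℕ} (h0 : s ≤ τ0) (h01 : τ0 ≤ τ1) (h1 : τ1 ≤ e)
    (ht : τ1 ≤ G.t (q τ0)) : q τ1 = q τ0 := by
  induction τ1, h01 using Nat.le_induction with
  | base => rfl
  | succ n hn ih =>
    have ih' := ih (by omega) (by omega)
    rcases hq.st n (by omega) (by omega) with h | ⟨h, _⟩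
    · rw [h, ih']
    · rw [ih'] at h; omega

/-- a track never passes an alive vertex without standing on it (from below) -/
theorem Trk.lt_const (hq : Trk G q s e) (he : e ≤ G.N + 1) {y : V} {τ0 τ1 : ℕ} (h0 : s ≤ τ0)
    (h01 : τ0 ≤ τ1) (h1 : τ1 ≤ e) (hb : G.b y ≤ τ0) (ht : τ1 ≤ G.t y) (hlt : G.r (q τ0) < G.r y)
    (hne : ∀ τ, τ0 < τ → τ ≤ τ1 → q τ ≠ y) : G.r (q τ1) < G.r y :=
  (hq.mono h0 h1).lt_of_not_meet (Trk.const G (u := y) hb ht) (by omega) le_rfl h01 le_rfl hlt hne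

/-- a track never passes an alive vertex without standing on it (from above) -/
theorem Trk.const_lt (hq : Trk G q s e) (he : e ≤ G.N + 1) {x : V} {τ0 τ1 : ℕ} (h0 : s ≤ τ0)
    (h01 : τ0 ≤ τ1) (h1 : τ1 ≤ e) (hb : G.b x ≤ τ0) (ht : τ1 ≤ G.t x) (hlt : G.r x < G.r (q τ0))
    (hne : ∀ τ, τ0 < τ → τ ≤ τ1 → q τ ≠ x) : G.r x < G.r (q τ1) :=
  (Trk.const G (u := x) hb ht).lt_of_not_meet (hq.mono h0 h1) (by omega) le_rfl h01 le_rfl hlt
    (fun τ a c => (hne τ a c).symm)

/-- a track at or above an alive vertex stays at or above it -/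
theorem Trk.const_le (hq : Trk G q s e) (he : e ≤ G.N + 1) {x : V} {τ0 τ1 : ℕ} (h0 : s ≤ τ0)
    (h01 : τ0 ≤ τ1) (h1 : τ1 ≤ e) (hb : G.b x ≤ τ0) (ht : τ1 ≤ G.t x)
    (hle : G.r x ≤ G.r (q τ0)) : G.r x ≤ G.r (q τ1) := by
  by_contra hcon
  push Not at hcon
  obtain ⟨τ, a, c, d⟩ := (Trk.const G (u := x) hb ht).meet' (hq.mono h0 h1) (by omega) le_rfl h01
    le_rfl hle hcon.le
  have := hq.stay (τ0 := τ) (τ1 := τ1) (by omega) c h1 (by rw [← d]; exact ht)
  rw [this, ← d] at hcon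
  exact lt_irrefl _ hcon

theorem Trk.le_const (hq : Trk G q s e) (he : e ≤ G.N + 1) {y : V} {τ0 τ1 : ℕ} (h0 : s ≤ τ0)
    (h01 : τ0 ≤ τ1) (h1 : τ1 ≤ e) (hb : G.b y ≤ τ0) (ht : τ1 ≤ G.t y)
    (hle : G.r (q τ0) ≤ G.r y) : G.r (q τ1) ≤ G.r y := by
  have := hq.mir.const_le (by simpa using he) h0 h01 h1 (x := y) hb ht
    ((mir_r_le G _ _).2 hle)
  exact (mir_r_le G _ _).1 this

/-- how a track comes to `u` -/
theorem Trk.enter (hq : Trk G q s e) {u : V} {τ0 τ1 : ℕ} (h0 : s ≤ τ0) (h01 : τ0 ≤ τ1)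
    (h1 : τ1 ≤ e) (hn : q τ0 ≠ u) (hu : q τ1 = u) :
    ∃ τ, τ0 ≤ τ ∧ τ < τ1 ∧ q τ ≠ u ∧ q (τ + 1) = u ∧ G.t (q τ) = τ ∧
      (G.lo (q τ) = u ∨ G.up (q τ) = u) := by
  induction τ1, h01 using Nat.le_induction with
  | base => exact absurd hu hn
  | succ n hn' ih =>
    by_cases hqn : q n = u
    · obtain ⟨τ, a, c, d⟩ := ih (by omega) hqn
      exact ⟨τ, a, by omega, d⟩
    · rcases hq.st n (by omega) (by omega) with h | ⟨h, h'⟩
      · exact absurd (h.symm.trans hu) hqn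
      · rw [hu] at h'
        exact ⟨n, hn', by omega, hqn, hu, h, h'.imp Eq.symm Eq.symm⟩

end trk

end Pool.Agent.W_a4f561_B31
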