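import Pool.Agent.W_a4f561_h25.Def

/-!
MP_a4f561_co, the bridge from the two orders of a planar st-structure to bars (life times of the vertices).

The order of the bars is the left-first order `lo`, the time axis is `lo` too: a vertex is alive at the positions between the
last element on its left and the first element on its right.
-/

set_option autoImplicit false

namespace Pool.Agent.W_a4f561_E

open Sum Pool.Agent.W_a4f561_h25

/-! ### Times from positions (pure counting) -/

section Times

variable {V : Type} [Fintype V] (q p r : V → ℕ)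

open Classical in
/-- Twice the number of events up to the position `k`. -/
noncomputable def TT (k : ℕ) : ℕ :=
  2 * ((Finset.univ.filter fun u => p u ≤ k).card + (Finset.univ.filter fun u => q u ≤ k).card)

open Classical in
/-- The time of the death of `v`. -/
noncomputable def td (v : V) : ℕ :=
  2 * ((Finset.univ.filter fun u => p u < p v ∨ (p u = p v ∧ r u < r v)).card +
    (Finset.univ.filter fun u => q u + 1 ≤ p v).card)

theorem TT_mono {k l : ℕ} (h : k ≤ l) : TT q p k ≤ TT q p l := by
  unfold TT
  refine Nat.mul_le_mul_left 2 (Nat.add_le_add (Finset.card_le_card ?_) (Finset.card_le_card ?_))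
  · intro u hu
    simp only [Finset.mem_filter, Finset.mem_univ, true_and] at hu ⊢
    omega
  · intro u hu
    simp only [Finset.mem_filter, Finset.mem_univ, true_and] at hu ⊢
    omega

variable {q p r}

theorem TT_le_td {k : ℕ} {v : V} (h : k < p v) : TT q p k ≤ td q p r v := by
  unfold TT td
  refine Nat.mul_le_mul_left 2 (Nat.add_le_add (Finset.card_le_card ?_) (Finset.card_le_card ?_))
  · intro u hu
    simp only [Finset.mem_filter, Finset.mem_univ, true_and] at hu ⊢
    omega
  · intro u hu
    simp only [Finset.mem_filter, Finset.mem_univ, true_and] at hu ⊢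
    omega

theorem td_lt_TT {k : ℕ} {v : V} (h : p v ≤ k) : td q p r v + 2 ≤ TT q p k := by
  classical
  unfold TT td
  have h1 : (Finset.univ.filter fun u => p u < p v ∨ (p u = p v ∧ r u < r v)).card + 1 ≤
      (Finset.univ.filter fun u => p u ≤ k).card := by
    refine Finset.card_lt_card ?_
    refine Finset.ssubset_iff_subset_ne.2 ⟨?_, ?_⟩
    · intro u hu
      simp only [Finset.mem_filter, Finset.mem_univ, true_and] at hu ⊢
      omega
    · intro heq
      have : v ∈ (Finset.univ.filter fun u => p u < p v ∨ (p u = p v ∧ r u < r v)) := by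
        rw [heq]
        simpa using h
      simp at this
  have h2 : (Finset.univ.filter fun u => q u + 1 ≤ p v).card ≤ (Finset.univ.filter fun u => q u ≤ k).card := by
    refine Finset.card_le_card ?_
    intro u hu
    simp only [Finset.mem_filter, Finset.mem_univ, true_and] at hu ⊢
    omega
  omega

theorem TT_lt {k l : ℕ} {v : V} (h : k < q v) (h' : q v ≤ l) : TT q p k < TT q p l := by
  classical
  unfold TT
  have h1 : (Finset.univ.filter fun u => q u ≤ k).card < (Finset.univ.filter fun u => q u ≤ l).card := by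
    refine Finset.card_lt_card ?_
    refine Finset.ssubset_iff_subset_ne.2 ⟨?_, ?_⟩
    · intro u hu
      simp only [Finset.mem_filter, Finset.mem_univ, true_and] at hu ⊢
      omega
    · intro heq
      have : v ∈ (Finset.univ.filter fun u => q u ≤ k) := by
        rw [heq]
        simpa using h'
      simp at this
      omega
  have h2 : (Finset.univ.filter fun u => p u ≤ k).card ≤ (Finset.univ.filter fun u => p u ≤ l).card := by
    refine Finset.card_le_card ?_
    intro u hu
    simp only [Finset.mem_filter, Finset.mem_univ, true_and] at hu ⊢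
    omega
  omega

/-- Alive at the time of the position `k`. -/
theorem alive_iff (k : ℕ) (v : V) : (TT q p (q v) ≤ TT q p k ∧ TT q p k ≤ td q p r v) ↔ (q v ≤ k ∧ k < p v) := by
  constructor
  · rintro ⟨h1, h2⟩
    refine ⟨?_, ?_⟩
    · by_contra h
      have := TT_lt (q := q) (p := p) (v := v) (not_le.1 h) le_rfl
      omega
    · by_contra h
      have := td_lt_TT (q := q) (p := p) (r := r) (not_lt.1 h)
      omega
  · rintro ⟨h1, h2⟩
    exact ⟨TT_mono q p h1, TT_le_td h2⟩

theorem birth_le_death {v : V} (h : q v < p v) : TT q p (q v) ≤ td q p r v := TT_le_td h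

theorem td_lex {u v : V} (h : p u < p v ∨ (p u = p v ∧ r u < r v)) : td q p r u < td q p r v := by
  classical
  unfold td
  have h1 : (Finset.univ.filter fun w => p w < p u ∨ (p w = p u ∧ r w < r u)).card <
      (Finset.univ.filter fun w => p w < p v ∨ (p w = p v ∧ r w < r v)).card := by
    refine Finset.card_lt_card ?_
    refine Finset.ssubset_iff_subset_ne.2 ⟨?_, ?_⟩
    · intro w hw
      simp only [Finset.mem_filter, Finset.mem_univ, true_and] at hw ⊢
      omega
    · intro heq
      have : u ∈ (Finset.univ.filter fun w => p w < p u ∨ (p w = p u ∧ r w < r u)) := by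
        rw [heq]
        simpa using h
      simp at this
  have h2 : (Finset.univ.filter fun w => q w + 1 ≤ p u).card ≤ (Finset.univ.filter fun w => q w + 1 ≤ p v).card := by
    refine Finset.card_le_card ?_
    intro w hw
    simp only [Finset.mem_filter, Finset.mem_univ, true_and] at hw ⊢
    omega
  omega

theorem td_inj (hr : Function.Injective r) : Function.Injective (td q p r) := by
  intro u v h
  by_contra hne
  have hru : r u ≠ r v := fun h => hne (hr h)
  rcases lt_trichotomy (p u) (p v) with h1 | h1 | h1
  · exact absurd h (td_lex (Or.inl h1)).ne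
  · rcases lt_or_gt_of_ne hru with h2 | h2
    · exact absurd h (td_lex (Or.inr ⟨h1, h2⟩)).ne
    · exact absurd h (td_lex (Or.inr ⟨h1.symm, h2⟩)).ne'
  · exact absurd h (td_lex (Or.inl h1)).ne'

theorem TT_le_card (k : ℕ) : TT q p k ≤ 4 * Fintype.card V := by
  classical
  unfold TT
  have h1 := Finset.card_le_univ (Finset.univ.filter fun u => p u ≤ k)
  have h2 := Finset.card_le_univ (Finset.univ.filter fun u => q u ≤ k)
  omega

theorem td_lt_card (v : V) : td q p r v < 4 * Fintype.card V := by
  have h1 := td_lt_TT (q := q) (p := p) (r := r) (le_refl (p v))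
  have h2 := TT_le_card (q := q) (p := p) (p v)
  omega

end Times

/-! ### Positions -/

section Pos

variable {V E : Type} [Fintype V] [Fintype E] (A : Pl V E)

open Classical in
/-- The position in the order `lo`. -/
noncomputable def pos (x : V ⊕ E) : ℕ := (Finset.univ.filter fun y => A.lo y x).card

theorem pos_lt {x y : V ⊕ E} (h : A.lo x y) : pos A x < pos A y := by
  classical
  unfold pos
  refine Finset.card_lt_card ?_
  refine Finset.ssubset_iff_subset_ne.2 ⟨?_, ?_⟩
  · intro z hz
    simp only [Finset.mem_filter, Finset.mem_univ, true_and] at hz ⊢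
    exact A.lo_tr z x y hz h
  · intro heq
    have : x ∈ (Finset.univ.filter fun z => A.lo z x) := by
      rw [heq]
      simpa using h
    simp only [Finset.mem_filter, Finset.mem_univ, true_and] at this
    exact A.lo_irr x this

theorem pos_lt_iff {x y : V ⊕ E} : pos A x < pos A y ↔ A.lo x y := by
  refine ⟨fun h => ?_, pos_lt A⟩
  by_contra hn
  by_cases hxy : x = y
  · subst hxy
    exact lt_irrefl _ h
  · rcases A.lo_tot x y hxy with h1 | h1
    · exact hn h1
    · exact absurd (pos_lt A h1) (not_lt.2 h.le)

theorem pos_inj : Function.Injective (pos A) := by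
  intro x y h
  by_contra hne
  rcases A.lo_tot x y hne with h1 | h1
  · exact absurd h (pos_lt A h1).ne
  · exact absurd h (pos_lt A h1).ne'

open Classical in
/-- The first position where `v` is alive: after the last element on the left. -/
noncomputable def qp (v : V) : ℕ := (Finset.univ.filter fun y => A.L y (inl v)).sup fun y => pos A y + 1

open Classical in
/-- The first position where `v` is dead: the first element on the right. -/
noncomputable def pp (v : V) : ℕ :=
  if h : (Finset.univ.filter fun y => A.L (inl v) y).Nonempty then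
    (Finset.univ.filter fun y => A.L (inl v) y).inf' h fun y => pos A y
  else Fintype.card (V ⊕ E) + 1

theorem qp_le {v : V} {k : ℕ} : qp A v ≤ k ↔ ∀ y, A.L y (inl v) → pos A y < k := by
  classical
  unfold qp
  rw [Finset.sup_le_iff]
  simp only [Finset.mem_filter, Finset.mem_univ, true_and]
  rfl

theorem pos_le_card (x : V ⊕ E) : pos A x ≤ Fintype.card (V ⊕ E) := by
  classical
  exact Finset.card_le_univ _

theorem lt_pp {v : V} {k : ℕ} (hk : k ≤ Fintype.card (V ⊕ E)) : k < pp A v ↔ ∀ y, A.L (inl v) y → k < pos A y := by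
  classical
  unfold pp
  split_ifs with h
  · rw [Finset.lt_inf'_iff]
    simp only [Finset.mem_filter, Finset.mem_univ, true_and]
  · rw [Finset.not_nonempty_iff_eq_empty] at h
    refine ⟨fun _ y hy => ?_, fun _ => by omega⟩
    have : y ∈ (Finset.univ.filter fun y => A.L (inl v) y) := by simpa using hy
    rw [h] at this
    simp at this

theorem qp_le_pos (v : V) : qp A v ≤ pos A (inl v) := (qp_le A).2 fun _ hy => pos_lt A hy.1

theorem pos_lt_pp (v : V) : pos A (inl v) < pp A v := (lt_pp A (pos_le_card A _)).2 fun _ hy => pos_lt A hy.1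

theorem qp_lt_pp (v : V) : qp A v < pp A v := (qp_le_pos A v).trans_lt (pos_lt_pp A v)

/-- The tail of an edge is alive at the position of the edge. -/
theorem tl_alive (e : E) : qp A (A.tl e) ≤ pos A (inr e) ∧ pos A (inr e) < pp A (A.tl e) := by
  refine ⟨(qp_le_pos A _).trans (pos_lt A (A.tl_lo e)).le, (lt_pp A (pos_le_card A _)).2 fun y hy => ?_⟩
  rw [pos_lt_iff]
  by_contra hn
  have hye : y ≠ inr e := by
    rintro rfl
    exact A.ro_irr _ (A.ro_tr _ _ _ hy.2 (A.tl_ro e))
  have h1 : A.lo y (inr e) := (A.lo_tot y (inr e) hye).resolve_right hn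
  rcases A.ro_tot y (inr e) hye with h2 | h2
  · rcases A.dn_e y e h1 h2 with h3 | h3
    · rw [h3] at hy
      exact A.lo_irr _ hy.1
    · exact A.lo_irr _ (A.lo_tr _ _ _ hy.1 h3.1)
  · exact A.ro_irr _ (A.ro_tr _ _ _ (A.ro_tr _ _ _ (A.tl_ro e) h2) hy.2)

/-- The head of an edge is alive at the position of the edge. -/
theorem hd_alive (e : E) : qp A (A.hd e) ≤ pos A (inr e) ∧ pos A (inr e) < pp A (A.hd e) := by
  refine ⟨(qp_le A).2 fun y hy => ?_, (pos_lt A (A.hd_lo e)).trans (pos_lt_pp A _)⟩
  rw [pos_lt_iff]
  by_contra hn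
  have hye : y ≠ inr e := by
    rintro rfl
    exact A.ro_irr _ (A.ro_tr _ _ _ hy.2 (A.hd_ro e))
  have h1 : A.lo (inr e) y := (A.lo_tot y (inr e) hye).resolve_left hn
  rcases A.ro_tot y (inr e) hye with h2 | h2
  · exact A.ro_irr _ (A.ro_tr _ _ _ (A.ro_tr _ _ _ h2 (A.hd_ro e)) hy.2)
  · rcases A.up_e y e h1 h2 with h3 | h3
    · rw [h3] at hy
      exact A.lo_irr _ hy.1
    · exact A.lo_irr _ (A.lo_tr _ _ _ hy.1 h3.1)

/-- The ends of an edge are consecutive at its position. -/
theorem no_between (e : E) {z : V} (h1 : A.lo (inl (A.tl e)) (inl z)) (h2 : A.lo (inl z) (inl (A.hd e)))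
    (h3 : qp A z ≤ pos A (inr e)) (h4 : pos A (inr e) < pp A z) : False := by
  rcases A.lo_tot (inl z) (inr e) (by simp) with h5 | h5
  · rcases A.ro_tot (inl z) (inr e) (by simp) with h6 | h6
    · rcases A.dn_e _ e h5 h6 with h7 | h7
      · rw [h7] at h1
        exact A.lo_irr _ h1
      · exact A.lo_irr _ (A.lo_tr _ _ _ h1 h7.1)
    · exact lt_irrefl _ ((lt_pp A (pos_le_card A _)).1 h4 (inr e) ⟨h5, h6⟩)
  · rcases A.ro_tot (inl z) (inr e) (by simp) with h6 | h6
    · exact lt_irrefl _ ((qp_le A).1 h3 (inr e) ⟨h5, h6⟩)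
    · rcases A.up_e _ e h5 h6 with h7 | h7
      · rw [h7] at h2
        exact A.lo_irr _ h2
      · exact A.lo_irr _ (A.lo_tr _ _ _ h7.1 h2)

/-- The bars of a planar st-structure. -/
theorem exists_bars : ∃ (b t : V → ℕ) (T : E → ℕ),
    (∀ v, b v ≤ t v) ∧ (∀ v, t v < 4 * Fintype.card V) ∧ Function.Injective t ∧ (∀ u v, b u ≠ t v + 1) ∧
    (∀ e, T e ≤ 4 * Fintype.card V) ∧
    (∀ e, b (A.tl e) ≤ T e ∧ T e ≤ t (A.tl e)) ∧ (∀ e, b (A.hd e) ≤ T e ∧ T e ≤ t (A.hd e)) ∧
    (∀ e z, A.lo (inl (A.tl e)) (inl z) → A.lo (inl z) (inl (A.hd e)) → b z ≤ T e → T e ≤ t z → False) := by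
  have hr : Function.Injective (fun v : V => pos A (inl v)) := (pos_inj A).comp Sum.inl_injective
  refine ⟨fun v => TT (qp A) (pp A) (qp A v), td (qp A) (pp A) (fun v => pos A (inl v)),
    fun e => TT (qp A) (pp A) (pos A (inr e)), fun v => birth_le_death (qp_lt_pp A v), fun v => td_lt_card v,
    td_inj hr, ?_, fun e => TT_le_card _, ?_, ?_, ?_⟩
  · intro u v h
    simp only [TT, td] at h
    omega
  · intro e
    exact (alive_iff _ _).2 (tl_alive A e)
  · intro e
    exact (alive_iff _ _).2 (hd_alive A e)
  · intro e z h1 h2 h3 h4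
    have h5 := (alive_iff (q := qp A) (p := pp A) (r := fun v => pos A (inl v)) (pos A (inr e)) z).1 ⟨h3, h4⟩
    exact no_between A e h1 h2 h5.1 h5.2

end Pos

end Pool.Agent.W_a4f561_E
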