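import Pool.Agent.W_a4f561_h26.Cnt

/-!
MP_a4f561_co (EpsPages): chain length: a token visits at most `4 K + 4` trees (helper28).
-/

set_option autoImplicit false

namespace Pool.Agent.W_a4f561_E.Chn28

open Pool.Agent.W_a4f561_h26

section Pure

variable {V : Type}

/-- Iterates of a vertex of a closed set stay in it. -/
theorem iter_mem {f : V → V} {S : Set V} (h : ∀ v ∈ S, f v ∈ S) {u : V} (hu : u ∈ S) (k : ℕ) :
    f^[k] u ∈ S := by
  induction k with
  | zero => exact hu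
  | succ k ih => rw [Function.iterate_succ_apply']; exact h _ ih

/-- The index does not grow along a route. -/
theorem idx_le {f : V → V} {S S1 : Set V} {idx : V → ℕ} (hS : ∀ v ∈ S, f v ∈ S) (hS1 : ∀ v ∈ S1, f v ∈ S1)
    (hn : ∀ u ∈ S \ S1, f u ∈ S \ S1 → idx (f u) ≤ idx u) (k : ℕ) :
    ∀ u ∈ S \ S1, f^[k] u ∈ S \ S1 → idx (f^[k] u) ≤ idx u := by
  induction k with
  | zero => intro u _ _; exact le_refl _
  | succ k ih =>
    intro u hu hk
    rw [Function.iterate_succ_apply] at hk ⊢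
    have h1 : f u ∈ S := hS u hu.1
    by_cases h2 : f u ∈ S1
    · exact absurd (iter_mem hS1 h2 k) hk.2
    · exact le_trans (ih (f u) ⟨h1, h2⟩ hk) (hn u hu ⟨h1, h2⟩)

/-- The cost of a family of sets, only finitely many of which are met. -/
theorem cb_fam {G : Bars V} {π : V → V} {A : Set V} {C N : ℕ} (idx : V → ℕ)
    (hc : ∀ i, (∃ v ∈ A, idx v = i) → CB G π {u | u ∈ A ∧ idx u = i} C)
    (hN : ∀ p : V, ∃ I : Finset ℕ, I.card ≤ N ∧ ∀ v ∈ A, Orb π p v → idx v ∈ I) :
    CB G π A (N * C) := by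
  classical
  intro p T P hT hP h1 h2
  obtain ⟨I, hI, hmem⟩ := hN p
  have key : P ⊆ I.biUnion (fun i => P.filter (fun q => DPr G π {u | u ∈ A ∧ idx u = i} p T q)) := by
    intro q hq
    obtain ⟨v, hv, hvA, hrest⟩ := hP q hq
    rw [Finset.mem_biUnion]
    refine ⟨idx v, hmem v hvA hv, ?_⟩
    rw [Finset.mem_filter]
    exact ⟨hq, v, hv, ⟨hvA, rfl⟩, hrest⟩
  refine le_trans (Finset.card_le_card key) ?_
  refine le_trans (Finset.card_biUnion_le_card_mul I _ C ?_) (Nat.mul_le_mul_right _ hI)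
  intro i _
  by_cases hi : ∃ v ∈ A, idx v = i
  · refine hc i hi p T _ hT ?_ ?_ ?_
    · intro q hq
      exact (Finset.mem_filter.1 hq).2
    · intro q hq q' hq'
      exact h1 q (Finset.mem_filter.1 hq).1 q' (Finset.mem_filter.1 hq').1
    · intro q hq q' hq'
      exact h2 q (Finset.mem_filter.1 hq).1 q' (Finset.mem_filter.1 hq').1
  · have : P.filter (fun q => DPr G π {u | u ∈ A ∧ idx u = i} p T q) = ∅ := by
      rw [Finset.filter_eq_empty_iff]
      intro q _ hq
      obtain ⟨v, _, hvA, _⟩ := hq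
      exact hi ⟨v, hvA.1, hvA.2⟩
    rw [this]
    exact Nat.zero_le _

end Pure

variable {V : Type} [Fintype V] [DecidableEq V] {G : Bars V}
  {σ σ1 σk : St V} {m0 : V × Bool → Option Bool} {ω : V × Bool → Bool} {z : V} {K Tm T C : ℕ} {E : Set V}

/-- Events which are open at time `τ`. -/
def OpE (G : Bars V) (σ : St V) (m0 : V × Bool → Option Bool) (ω : V × Bool → Bool) (z : V) (K τ : ℕ) :
    Set (Bool × Bool × V) :=
  {e | ∃ w, Ev G σ m0 ω z (dl K) e w ∧ G.t e.2.2 < τ ∧ τ < G.t w}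

theorem open_events (h : Ctx G σ m0 ω z K Tm E) (τ : ℕ) :
    (OpE G σ m0 ω z K τ).ncard ≤ 4 * K + 4 := by
  classical
  have h1 := open_card h τ
  have h2 := open_card (ctx_mir h) τ
  set SD := {v | ∃ w, (dlA G σ m0 ω z (dl K) v w ∨ dlB G σ m0 ω z (dl K) v w) ∧ G.t v < τ ∧ τ < G.t w}
    with hSD
  set SU := {v | ∃ w, (dlA G.mir σ.mir m0 ω z (dl K) v w ∨ dlB G.mir σ.mir m0 ω z (dl K) v w) ∧
    G.mir.t v < τ ∧ τ < G.mir.t w} with hSU
  have hsub : OpE G σ m0 ω z K τ ⊆
      ((fun v => ((false, false, v) : Bool × Bool × V)) '' SD ∪ (fun v => ((false, true, v) : Bool × Bool × V)) '' SD) ∪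
      ((fun v => ((true, false, v) : Bool × Bool × V)) '' SU ∪ (fun v => ((true, true, v) : Bool × Bool × V)) '' SU) := by
    rintro ⟨a, b, v⟩ ⟨w, hw, ht1, ht2⟩
    cases a <;> cases b
    · left; left; exact ⟨v, ⟨w, Or.inl hw, ht1, ht2⟩, rfl⟩
    · left; right; exact ⟨v, ⟨w, Or.inr hw, ht1, ht2⟩, rfl⟩
    · right; left; exact ⟨v, ⟨w, Or.inl hw, ht1, ht2⟩, rfl⟩
    · right; right; exact ⟨v, ⟨w, Or.inr hw, ht1, ht2⟩, rfl⟩
  have hc := Set.ncard_le_ncard hsub (Set.toFinite _)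
  have hu1 := Set.ncard_union_le
    ((fun v => ((false, false, v) : Bool × Bool × V)) '' SD ∪ (fun v => ((false, true, v) : Bool × Bool × V)) '' SD)
    ((fun v => ((true, false, v) : Bool × Bool × V)) '' SU ∪ (fun v => ((true, true, v) : Bool × Bool × V)) '' SU)
  have hu2 := Set.ncard_union_le
    ((fun v => ((false, false, v) : Bool × Bool × V)) '' SD) ((fun v => ((false, true, v) : Bool × Bool × V)) '' SD)
  have hu3 := Set.ncard_union_le
    ((fun v => ((true, false, v) : Bool × Bool × V)) '' SU) ((fun v => ((true, true, v) : Bool × Bool × V)) '' SU)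
  have i1 := Set.ncard_image_le (f := fun v => ((false, false, v) : Bool × Bool × V)) (Set.toFinite SD)
  have i2 := Set.ncard_image_le (f := fun v => ((false, true, v) : Bool × Bool × V)) (Set.toFinite SD)
  have i3 := Set.ncard_image_le (f := fun v => ((true, false, v) : Bool × Bool × V)) (Set.toFinite SU)
  have i4 := Set.ncard_image_le (f := fun v => ((true, true, v) : Bool × Bool × V)) (Set.toFinite SU)
  omega

/-- The trees visited by a route. -/
theorem visited (h : Ctx G σ m0 ω z K Tm E) {idx : V → ℕ} {q : ℕ}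
    {ev : ℕ → Bool × Bool × V} {dt : ℕ → V} (hT : Tr G σ m0 ω z (dl K) σ1 σk C T idx q ev dt)
    (hd : Dr G σ ω z σ1) {π : V → V} (hπ : Fin' G σk π) (p : V) :
    ∃ I : Finset ℕ, I.card ≤ 4 * K + 4 ∧ ∀ v ∈ σk.S \ σ1.S, Orb π p v → idx v ∈ I := by
  classical
  set A := σk.S \ σ1.S with hA
  have hS : ∀ v ∈ σk.S, π v ∈ σk.S := by
    intro v hv
    rw [hπ.2 v (Or.inl hv)]
    exact hT.stg.inv.cl v hv
  have hS1 : ∀ v ∈ σ1.S, π v ∈ σ1.S := by
    intro v hv
    rw [hπ.2 v (Or.inl (hT.stg.le.S hv)), hT.stg.le.pi v (Or.inl hv)]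
    exact hd.inv.cl v hv
  have hn : ∀ u ∈ σk.S \ σ1.S, π u ∈ σk.S \ σ1.S → idx (π u) ≤ idx u := by
    intro u hu hu'
    have e : π u = σk.pi u := hπ.2 u (Or.inl hu.1)
    rw [e] at hu' ⊢
    exact hT.nxt u hu hu'
  -- monotone along the route
  have hmono : ∀ v ∈ A, ∀ v' ∈ A, Orb π p v → Orb π p v' → G.t v ≤ G.t v' → idx v' ≤ idx v := by
    intro v hv v' hv' hpv hpv' ht
    obtain ⟨k, hk⟩ := orb_comp hπ.1 hpv hpv' ht
    have := idx_le hS hS1 hn k v hv (by rw [hk]; exact hv')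
    rw [hk] at this
    exact this
  -- visited set
  let W : Finset V := (Set.toFinite {v : V | v ∈ A ∧ Orb π p v}).toFinset
  have hW : ∀ v, v ∈ W ↔ v ∈ A ∧ Orb π p v := by
    intro v
    simp [W]
  refine ⟨W.image idx, ?_, fun v hv hp => Finset.mem_image.2 ⟨v, (hW v).2 ⟨hv, hp⟩, rfl⟩⟩
  by_cases hne : W.Nonempty
  · obtain ⟨u, huW, humax⟩ := Finset.exists_max_image W G.t hne
    have huA := (hW u).1 huW
    refine le_trans ?_ (open_events h (G.t u))
    have hinj : (W.image idx).card ≤ ((W.image idx).image ev).card := by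
      apply le_of_eq
      symm
      apply Finset.card_image_of_injOn
      intro i hi j hj hij
      obtain ⟨a, ha, hai⟩ := Finset.mem_image.1 (Finset.mem_coe.1 hi)
      obtain ⟨b, hb, hbj⟩ := Finset.mem_image.1 (Finset.mem_coe.1 hj)
      have haA := (hW a).1 ha
      have hbA := (hW b).1 hb
      have hiq : i < q := hai ▸ hT.lt a haA.1
      have hjq : j < q := hbj ▸ hT.lt b hbA.1
      rcases lt_trichotomy i j with hlt | heq | hgt
      · have h1 := hT.same i j hlt hjq hij a haA.1 b hbA.1 hai hbj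
        have h2 := hmono a haA.1 b hbA.1 haA.2 hbA.2 (le_of_lt h1)
        omega
      · exact heq
      · have h1 := hT.same j i hgt hiq hij.symm b hbA.1 a haA.1 hbj hai
        have h2 := hmono b hbA.1 a haA.1 hbA.2 haA.2 (le_of_lt h1)
        omega
    refine le_trans hinj ?_
    rw [← Set.ncard_coe_finset]
    apply Set.ncard_le_ncard _ (Set.toFinite _)
    intro e he
    obtain ⟨i, hi, hie⟩ := Finset.mem_image.1 (Finset.mem_coe.1 he)
    obtain ⟨a, ha, hai⟩ := Finset.mem_image.1 hi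
    have haA := (hW a).1 ha
    have hiq : i < q := hai ▸ hT.lt a haA.1
    have hau := humax a ha
    have h1 := hmono a haA.1 u huA.1 haA.2 huA.2 hau
    have h2 := hT.mono (idx u) (idx a) h1 (hT.lt a haA.1)
    have h3 := hT.tm a haA.1
    have h4 := hT.tm u huA.1
    subst hie
    refine ⟨dt i, hT.isev i hiq, ?_, ?_⟩
    · rw [← hai]; omega
    · rw [← hai]; omega
  · rw [Finset.not_nonempty_iff_eq_empty] at hne
    rw [hne]
    simp

/-- CHAIN LENGTH and cost of all trees. -/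
theorem chain (h : Ctx G σ m0 ω z K Tm E) (hd : Dr G σ ω z σ1) {idx : V → ℕ} {q : ℕ}
    {ev : ℕ → Bool × Bool × V} {dt : ℕ → V} (hT : Tr G σ m0 ω z (dl K) σ1 σk C T idx q ev dt) :
    ∀ π, Fin' G σk π → CB G π (σk.S \ σ1.S) ((4 * K + 5) * C) ∧ CB G.mir π (σk.S \ σ1.S) ((4 * K + 5) * C) := by
  intro π hπ
  have hv : ∀ p : V, ∃ I : Finset ℕ, I.card ≤ 4 * K + 5 ∧ ∀ v ∈ σk.S \ σ1.S, Orb π p v → idx v ∈ I := by
    intro p
    obtain ⟨I, hI, hm⟩ := visited h hT hd hπ p
    exact ⟨I, by omega, hm⟩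
  constructor
  · refine cb_fam idx ?_ hv
    rintro i ⟨v, hv, rfl⟩
    exact (hT.cost (idx v) (hT.lt v hv) π hπ).1
  · refine cb_fam (G := G.mir) idx ?_ hv
    rintro i ⟨v, hv, rfl⟩
    exact (hT.cost (idx v) (hT.lt v hv) π hπ).2

end Pool.Agent.W_a4f561_E.Chn28
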