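import Pool.Agent.W_a4f561_E.Det70

/-!
MP_a4f561_co (EpsPages): closability of the first long head and of the exposed short heads (helper31).
-/

set_option autoImplicit false

namespace Pool.Agent.W_a4f561_C31

open Pool.Agent.W_a4f561_h26
open Pool.Agent

variable {V : Type} {G : Bars V}

/-- Squeezing: the route of `y` between the path of `z` and the route of `a`, which both come to `w`. -/
theorem sq {π ρ : V → V} (hπ : Ch G π) (hρ : Ch G ρ) {z a w y : V} {s : ℕ} (hz : G.b z ≤ s) (ha : G.b a ≤ s)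
    (hy : G.b y ≤ s) (hsw : s ≤ G.t w) (hw : G.inn w) (hzw : Orb π z w) (haw : Orb ρ a w)
    (h1 : G.r (host G π z s) ≤ G.r (host G ρ y s)) (h2 : G.r (host G ρ y s) ≤ G.r (host G ρ a s)) :
    ∃ u, Orb π z u ∧ G.t u ≤ G.t w ∧ Orb ρ y u := by
  have hN : G.t w < G.N := G.t_in w hw.1 hw.2
  have e1 : host G π z (G.t w) = w := host_t hπ hzw hw
  have e2 : host G ρ a (G.t w) = w := host_t hρ haw hw
  obtain ⟨τ, k1, k2, k3⟩ := (W_a4f561_B31.Trk.host hπ hz (by omega : G.t w ≤ G.N + 1)).squeeze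
    (W_a4f561_B31.Trk.host hρ hy (by omega)) (W_a4f561_B31.Trk.host hρ ha (by omega)) (by omega) le_rfl hsw
    le_rfl h1 h2 (e1.trans e2.symm)
  rcases k3 with k3 | k3
  · refine ⟨host G π z τ, host_orb G π z τ, ?_, ?_⟩
    · have h3 := W_a4f561_B31.orb_host_host hπ (u := z) k2 (by omega : G.t w ≤ G.N + 1)
      rw [e1] at h3
      exact orb_t hπ h3
    · rw [← k3]
      exact host_orb G ρ y τ
  · refine ⟨w, hzw, le_rfl, ?_⟩
    have h3 := W_a4f561_B31.orb_host_host hρ (u := a) k2 (by omega : G.t w ≤ G.N + 1)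
    rw [e2, ← k3] at h3
    exact orb_trans (host_orb G ρ y τ) h3

/-- The next vertex of the route is before `w`. -/
theorem next_le {π : V → V} (hπ : Ch G π) {z v w : V} (hv : Orb π z v) (hw : Orb π z w) (hvw : G.t v < G.t w) :
    Orb π (π v) w := by
  rcases W_a4f561_B31.orb_cases_head (orb_comp hπ hv hw hvw.le) with h | h
  · rw [h] at hvw
    exact absurd hvw (lt_irrefl _)
  · exact h

/-- The route of `up v` stays weakly above `x = lo v`. -/
theorem above {ρ : V → V} (hρ : Ch G ρ) {v : V} (hv : G.inn v) {s : ℕ} (h1 : G.t v < s) (h2 : s ≤ G.t (G.lo v))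
    (h3 : s ≤ G.N) : G.r (G.lo v) ≤ G.r (host G ρ (G.up v) s) := by
  have e : host G ρ (G.up v) (G.t v + 1) = G.up v := host_self hρ (t_up G hv)
  have hlt : G.r (G.lo v) < G.r (G.up v) := (r_lo G hv).trans (r_up G hv)
  exact (order_bar hρ (u := G.up v) (y := G.lo v) (τ1 := G.t v + 1) (τ2 := s) (al_up G hv).2.1
    (al_lo G hv).2.1 h1 h3 h2).2.1 (by rw [e]; exact hlt)

/-- The head `ub x s` of the D-step `v → x` of the path is squeezed between the path and the route of `up v`. -/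
theorem sq_up {π ρ : V → V} (hπ : Ch G π) (hρ : Ch G ρ) {z v w : V} (hzv : Orb π z v) (hv : G.inn v)
    (hx : G.inn (G.lo v)) (hpv : π v = G.lo v) (hzw : Orb π z w) (hw : G.inn w) (hvw : G.t v < G.t w)
    (haw : Orb ρ (G.up v) w) {s : ℕ} (h1 : G.t v < s) (h2 : s ≤ G.t (G.lo v))
    (hne : host G ρ (G.up v) s ≠ G.lo v) : ∃ u, Orb π z u ∧ G.t u ≤ G.t w ∧ Orb ρ (G.ub (G.lo v) s) u := by
  have hxN : G.t (G.lo v) < G.N := G.t_in _ hx.1 hx.2
  have hsN : s ≤ G.N := by omega
  have hxw := next_le hπ hzv hzw hvw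
  rw [hpv] at hxw
  have hxw' := orb_t hπ hxw
  have hbz : G.b z ≤ s := ((G.bt z).trans (orb_t hπ hzv)).trans h1.le
  have hba : G.b (G.up v) ≤ s := (al_up G hv).1.1.trans h1.le
  have hub := ub_spec G (x := G.lo v) (τ := s) hsN hx.2
  have e1 : host G π z s = G.lo v := by
    rw [← hpv]
    exact host_btw hπ hzv h1 (by rw [hpv]; exact h2) hsN
  have e2 : host G ρ (G.ub (G.lo v) s) s = G.ub (G.lo v) s := host_self hρ hub.1.2
  refine sq hπ hρ hbz hba hub.1.1 (h2.trans hxw') hw hzw haw (by rw [e1, e2]; exact hub.2.1.le) ?_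
  rw [e2]
  have h4 := above hρ hv h1 h2 hsN
  refine hub.2.2 _ (host_al hρ hba hsN) (lt_of_le_of_ne h4 fun h => hne (G.r_inj h).symm)

/-- Changing the coin `κ` to `accept` leads only to new steps onto `κ.1`. -/
theorem coin_mono {σ : St V} {P : V → Prop} {κ : V × Bool} {ω1 ω2 : V × Bool → Bool}
    (h12 : ∀ c, c ≠ κ → ω2 c = ω1 c) (h2 : ω2 κ = true) (hx : P κ.1) {y u : V} (hu : P u)
    (h : Orb (lam G σ ω1) y u) : ∃ u, P u ∧ Orb (lam G σ ω2) y u := by
  obtain ⟨k, hk⟩ := h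
  induction k generalizing y with
  | zero => exact ⟨u, hu, 0, hk⟩
  | succ k ih =>
    rw [Function.iterate_succ_apply] at hk
    by_cases he : lam G σ ω2 y = lam G σ ω1 y
    · obtain ⟨u', k1, k2⟩ := ih hk
      rw [← he] at k2
      exact ⟨u', k1, W_a4f561_B31.orb_head k2⟩
    · have hc : G.coin y = κ ∧ lam G σ ω2 y = G.zz y := by
        unfold lam at he ⊢
        by_cases c1 : y ∈ σ.S ∪ σ.Dec
        · rw [if_pos c1, if_pos c1] at he
          exact absurd rfl he
        · by_cases c2 : G.zz y ∈ σ.S \ σ.Lat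
          · rw [if_neg c1, if_neg c1, if_pos c2, if_pos c2] at he
            exact absurd rfl he
          · rw [if_neg c1, if_neg c1, if_neg c2, if_neg c2] at he
            rw [if_neg c1, if_neg c2]
            by_cases c3 : G.coin y = κ
            · refine ⟨c3, ?_⟩
              rw [if_pos (by rw [c3]; exact h2)]
            · rw [h12 _ c3] at he
              exact absurd rfl he
      refine ⟨κ.1, hx, 1, ?_⟩
      show lam G σ ω2 y = κ.1
      rw [hc.2, ← hc.1]
      rfl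

variable [Fintype V] [DecidableEq V]

/-- Pointwise comparison of probabilities. -/
theorem pr_le {m m' : V × Bool → Option Bool} {A A' : (V × Bool → Bool) → Prop}
    (h : ∀ ω, A (ov m ω) → A' (ov m' ω)) : pr m A ≤ pr m' A' := by
  classical
  unfold pr
  have h0 : (0 : ℝ) < (2 : ℝ) ^ (Fintype.card (V × Bool)) := by positivity
  apply (div_le_div_iff_of_pos_right h0).2
  norm_cast
  apply Finset.card_le_card
  intro ω hω
  rw [Finset.mem_filter] at hω ⊢
  exact ⟨hω.1, h ω hω.2⟩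

/-- Closability of the first long head (squeezing between the path and the branch, in the same `ω'`). -/
theorem clA {σ : St V} {m0 : V × Bool → Option Bool} {ω : V × Bool → Bool} {z : V} {K Tm : ℕ} {E : Set V}
    (h : Ctx G σ m0 ω z K Tm E) {v w : V} (ha : obA G σ m0 ω z v) (hw : OnB G σ ω z w) (hvw : G.t v < G.t w)
    (_ : 0 < pra G σ m0 ω z v w) :
    pra G σ m0 ω z v w ≤ pr (mem G σ m0 ω z v)
      (fun ω' => ∃ u, OnB G σ ω z u ∧ G.t u ≤ G.t w ∧ Orb (lam G σ ω') (G.flh v) u) := by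
  have hI := h.inv
  obtain ⟨⟨⟨hzv, hvS⟩, hlv, hxS⟩, _⟩ := ha
  have hv : G.inn v := W_a4f561_E.D70.inn_of hI hvS
  have hx : G.inn (G.lo v) := W_a4f561_E.D70.inn_of hI hxS
  have hwi : G.inn w := W_a4f561_E.D70.inn_of hI hw.2
  have hπ := ch_lam hI ω
  have hcl := W_a4f561_E.D70.lam_cl hI ω
  have hon : ∀ u, Orb (lam G σ ω) z u → G.t u ≤ G.t w → OnB G σ ω z u := fun u k1 k2 =>
    ⟨k1, fun k3 => hw.2 (W_a4f561_E.D70.orb_cl hcl (orb_comp hπ k1 hw.1 k2) k3)⟩
  obtain ⟨t1, t2, t3, t4, t5, t6⟩ := tau1_spec G hv hx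
  unfold pra
  by_cases hz : G.zz v = G.up v
  · rw [if_pos hz]
    have hf : G.flh v = G.up v := by
      have hlong : G.t (G.lo v) < G.t (G.up v) := by
        rcases zz_cases G hv with ⟨_, _, k⟩ | ⟨k, _⟩
        · exact k
        · rw [hz] at k
          exact absurd k.symm (W_a4f561_B31.lo_ne_up G hv)
      have e : G.tau1 v = G.t v + 1 := by
        by_contra hne
        have := t5 (G.t v + 1) (by omega) (by omega)
        rw [ub_lo G hv] at this
        omega
      unfold Bars.flh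
      rw [e, ub_lo G hv]
    rw [hf]
    exact pr_le fun ω' k => ⟨w, hw, le_rfl, k⟩
  · rw [if_neg hz]
    refine pr_le fun ω' k => ?_
    have hzz : G.zz v = G.lo v := by
      rcases zz_cases G hv with ⟨k, _⟩ | ⟨k, _⟩
      · exact absurd k hz
      · exact k
    have hρ := ch_lam hI (ov (memc G σ m0 ω z v false) ω')
    obtain ⟨u, u1, u2, u3⟩ := sq_up hπ hρ hzv hv hx hlv hw.1 hwi hvw k.1 t1 t2
      (fun k2 => k.2 (k2 ▸ host_orb G _ (G.up v) (G.tau1 v)))
    have hoff : ∀ c, c ≠ G.coin v →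
        ov (mem G σ m0 ω z v) ω' c = ov (memc G σ m0 ω z v false) ω' c := by
      intro c hc
      simp only [ov, memc, if_neg hc]
    have hcf : ov (memc G σ m0 ω z v false) ω' (G.coin v) = false := by
      simp [ov, memc]
    have hxw := next_le hπ hzv hw.1 hvw
    rw [hlv] at hxw
    have hPx : OnB G σ ω z (G.coin v).1 ∧ G.t (G.coin v).1 ≤ G.t w := by
      show OnB G σ ω z (G.zz v) ∧ G.t (G.zz v) ≤ G.t w
      rw [hzz]
      have k1 := orb_step hzv
      rw [hlv] at k1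
      exact ⟨hon _ k1 (orb_t hπ hxw), orb_t hπ hxw⟩
    cases hc : ov (mem G σ m0 ω z v) ω' (G.coin v) with
    | false =>
      have e : ov (mem G σ m0 ω z v) ω' = ov (memc G σ m0 ω z v false) ω' := by
        funext c
        by_cases hcc : c = G.coin v
        · rw [hcc, hc, hcf]
        · exact hoff c hcc
      rw [e]
      exact ⟨u, hon u u1 u2, u2, u3⟩
    | true =>
      obtain ⟨u', k1, k2⟩ := coin_mono (G := G) (σ := σ) (P := fun u => OnB G σ ω z u ∧ G.t u ≤ G.t w)
        hoff hc hPx ⟨hon u u1 u2, u2⟩ u3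
      exact ⟨u', k1.1, k1.2, k2⟩

/-- Closability of the exposed short heads. -/
theorem clB {σ : St V} {m0 : V × Bool → Option Bool} {ω : V × Bool → Bool} {z : V} {K Tm : ℕ} {E : Set V}
    (h : Ctx G σ m0 ω z K Tm E) {v w v' : V} (hb : obB G σ ω z v) (hw : OnB G σ ω z w) (hvw : G.t v < G.t w)
    (hv' : G.inn v') (h1 : G.lo v' = G.lo v) (h2 : G.t v ≤ G.t v') (h3 : G.t v' + 1 < G.tau1 v)
    (_ : 0 < prb G σ m0 ω z v w) :
    prb G σ m0 ω z v w ≤ pr (memc G σ m0 ω z v true)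
      (fun ω' => ∃ u, OnB G σ ω z u ∧ G.t u ≤ G.t w ∧ Orb (lam G σ ω') (G.up v') u) := by
  have hI := h.inv
  obtain ⟨⟨⟨hzv, hvS⟩, hlv, hxS⟩, hask, hzz⟩ := hb
  have hv : G.inn v := W_a4f561_E.D70.inn_of hI hvS
  have hx : G.inn (G.lo v) := W_a4f561_E.D70.inn_of hI hxS
  have hwi : G.inn w := W_a4f561_E.D70.inn_of hI hw.2
  have hπ := ch_lam hI ω
  have hcl := W_a4f561_E.D70.lam_cl hI ω
  have hon : ∀ u, Orb (lam G σ ω) z u → G.t u ≤ G.t w → OnB G σ ω z u := fun u k1 k2 =>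
    ⟨k1, fun k3 => hw.2 (W_a4f561_E.D70.orb_cl hcl (orb_comp hπ k1 hw.1 k2) k3)⟩
  obtain ⟨t1, t2, t3, t4, t5, t6⟩ := tau1_spec G hv hx
  have hxN : G.t (G.lo v) < G.N := G.t_in _ hx.1 hx.2
  unfold prb
  refine pr_le fun ω' k => ?_
  have hρ := ch_lam hI (ov (memc G σ m0 ω z v false) ω')
  have hcf : ov (memc G σ m0 ω z v false) ω' (G.coin v) = false := by
    simp [ov, memc]
  have hct : ov (memc G σ m0 ω z v true) ω' (G.coin v) = true := by
    simp [ov, memc]
  have hoff : ∀ c, c ≠ G.coin v →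
      ov (memc G σ m0 ω z v true) ω' c = ov (memc G σ m0 ω z v false) ω' c := by
    intro c hc
    simp only [ov, memc, if_neg hc]
  -- the branch does not step on `x` before the first long head
  have hne : host G (lam G σ (ov (memc G σ m0 ω z v false) ω')) (G.up v) (G.t v' + 1) ≠ G.lo v := by
    intro hh
    have hne0 : host G (lam G σ (ov (memc G σ m0 ω z v false) ω')) (G.up v) (G.t v' + 1) ≠ G.up v := by
      rw [hh]
      exact W_a4f561_B31.lo_ne_up G hv
    obtain ⟨u, k1, k2, k3, k4⟩ := host_pred hρ (by omega) hne0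
    rw [hh] at k2
    have huS : u ∉ σ.S := fun k5 => hxS (by
      have := W_a4f561_E.D70.lam_cl hI (ov (memc G σ m0 ω z v false) ω') u k5
      rw [k2] at this
      exact this)
    have hut : G.t v < G.t u := (t_up G hv).trans_le (orb_t hρ k1)
    have hab := above hρ hv (s := G.t u) hut (by omega) (by have := G.t_in u k4.1 k4.2; omega)
    rw [host_t hρ k1 k4] at hab
    have hlo : G.lo u = G.lo v := by
      rcases hρ.2.2 u k4 with k5 | k5
      · rw [← k5, k2]
      · have k6 := r_up G k4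
        rw [← k5, k2] at k6
        exact absurd hab (not_le.2 k6)
    have hsh : G.t (G.up u) < G.t (G.lo u) := by
      have k5 := t5 (G.t u + 1) (by omega) (by omega)
      rw [← hlo, ub_lo G k4] at k5
      exact k5
    have hzu : G.zz u = G.lo u ∧ G.oo u = G.up u := by
      rcases zz_cases G k4 with ⟨_, _, k5⟩ | ⟨k5, k6, _⟩
      · exact absurd k5 (by omega)
      · exact ⟨k5, k6⟩
    have hcoin : G.coin u = G.coin v := by
      rw [W_a4f561_E.D70.coin_lo G k4 hzu.1, W_a4f561_E.D70.coin_lo G hv hzz, hlo]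
    have huD : u ∉ σ.Dec := by
      intro k5
      have k6 : σ.pi u = G.lo u := by
        rw [← W_a4f561_E.D70.lam_Dec G σ (ov (memc G σ m0 ω z v false) ω') k5, k2, hlo]
      have k7 := W_a4f561_E.D70.h1_dec hI k5 huS k6 (by rw [hlo]; exact hxS)
      omega
    have hau : ask G σ u := ⟨huS, huD, fun k5 => hxS (by rw [← hlo, ← hzu.1]; exact k5.1)⟩
    have k8 := W_a4f561_E.D70.lam_false G σ (ω := ov (memc G σ m0 ω z v false) ω') hau
      (by rw [hcoin]; exact hcf)
    rw [k2, hzu.2, ← hlo] at k8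
    exact W_a4f561_B31.lo_ne_up G k4 k8
  have hub : G.ub (G.lo v) (G.t v' + 1) = G.up v' := by
    rw [← h1]
    exact ub_lo G hv'
  obtain ⟨u, u1, u2, u3⟩ := sq_up hπ hρ hzv hv hx hlv hw.1 hwi hvw k (s := G.t v' + 1) (by omega)
    (by omega) hne
  rw [hub] at u3
  have hxw := next_le hπ hzv hw.1 hvw
  rw [hlv] at hxw
  have hPx : OnB G σ ω z (G.coin v).1 ∧ G.t (G.coin v).1 ≤ G.t w := by
    show OnB G σ ω z (G.zz v) ∧ G.t (G.zz v) ≤ G.t w
    rw [hzz]
    have k1 := orb_step hzv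
    rw [hlv] at k1
    exact ⟨hon _ k1 (orb_t hπ hxw), orb_t hπ hxw⟩
  obtain ⟨u', k1, k2⟩ := coin_mono (G := G) (σ := σ) (P := fun u => OnB G σ ω z u ∧ G.t u ≤ G.t w)
    hoff hct hPx ⟨hon u u1 u2, u2⟩ u3
  exact ⟨u', k1.1, k1.2, k2⟩

end Pool.Agent.W_a4f561_C31
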