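import Pool.Agent.W_a4f561_E.Leg66

/-!
MP_a4f561_co (EpsPages): closability of the exposed short heads (`clB` of `W_a4f561_h26/Trk.lean`). helper66.
-/

set_option autoImplicit false
set_option linter.unusedSectionVars false

namespace Pool.Agent.W_a4f561_h26

section Pure66

variable {V : Type}

/-- Two choice functions which differ only by steps to `x`. -/
theorem orb_switch66 {π ρ : V → V} {x : V} (h : ∀ a, ρ a = π a ∨ ρ a = x) {u v : V} (hv : Orb π u v) :
    Orb ρ u v ∨ Orb ρ u x := by
  obtain ⟨k, hk⟩ := hv
  have key : ∀ k : ℕ, ρ^[k] u = π^[k] u ∨ Orb ρ u x := by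
    intro k
    induction k with
    | zero => exact Or.inl rfl
    | succ k ih =>
      rcases ih with ih | ih
      · rcases h (π^[k] u) with h1 | h1
        · left
          rw [Function.iterate_succ_apply', Function.iterate_succ_apply', ih, h1]
        · right
          exact ⟨k + 1, by rw [Function.iterate_succ_apply', ih, h1]⟩
      · exact Or.inr ih
  rcases key k with h1 | h1
  · exact Or.inl ⟨k, by rw [h1, hk]⟩
  · exact Or.inr h1

variable {G : Bars V} {σ : St V}

theorem inn_of_notMem66 (hI : Inv G σ) {v : V} (hv : v ∉ σ.S) : G.inn v := by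
  constructor
  · rintro rfl
    exact hv hI.bot_mem
  · rintro rfl
    exact hv hI.top_mem

theorem inn_of_t66 {a : V} (h : G.t a ≤ G.N) : G.inn a := by
  constructor
  · rintro rfl
    have := G.t_bot
    omega
  · rintro rfl
    have := G.t_top
    omega

/-- If the coin of `v` (with `zz v = lo v = x`) is rejected, the route of `up v` stays above `x` before `tau1 v`. -/
theorem above66 (hI : Inv G σ)
    (hD : ∀ u ∈ σ.Dec, u ∉ σ.S → σ.pi u = G.lo u → G.lo u ∉ σ.S → G.t (G.lo u) < G.t (G.up u))
    {v : V} (hv : G.inn v) (hx : G.lo v ∉ σ.S) (hz : G.zz v = G.lo v) {ω0 : V × Bool → Bool}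
    (h0 : ω0 (G.coin v) = false) : ∀ τ, G.t v + 1 ≤ τ → τ < G.tau1 v →
      G.r (G.lo v) < G.r (host G (lam G σ ω0) (G.up v) τ) := by
  have hch := ch_lam hI ω0
  have hxi := inn_of_notMem66 hI hx
  obtain ⟨s1, s2, _, _, s5, _⟩ := tau1_spec G hv hxi
  have hxN : G.t (G.lo v) < G.N := G.t_in _ hxi.1 hxi.2
  have hal := al_lo G hv
  have hau := al_up G hv
  intro τ h1
  induction τ, h1 using Nat.le_induction with
  | base =>
    intro _
    rw [host_self hch hau.2.2]
    exact (r_lo G hv).trans (r_up G hv)
  | succ τ h1 ih =>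
    intro h2
    have ih' := ih (by omega)
    rcases host_step hch (u := G.up v) (τ := τ) (hau.2.1.trans h1) (by omega) with h3 | h3
    · rw [h3.1]
      exact ih'
    · rw [h3.1]
      obtain ⟨a, ha⟩ : ∃ a, a = host G (lam G σ ω0) (G.up v) τ := ⟨_, rfl⟩
      rw [← ha] at h3 ih' ⊢
      have hai : G.inn a := inn_of_t66 (by omega)
      rcases hch.2.2 a hai with h4 | h4
      · rw [h4]
        have h5 : G.r (G.lo v) ≤ G.r (G.lo a) := by
          have h6 := (lb_spec G (x := a) (τ := G.t a) (by omega) hai.1).2.2 (G.lo v) ⟨by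
            have := hal.1.1
            omega, by omega⟩ ih'
          exact h6
        rcases h5.lt_or_eq with h6 | h6
        · exact h6
        · exfalso
          have h7 : G.lo a = G.lo v := G.r_inj h6.symm
          -- the upper neighbour is short lived
          have h8 : G.t (G.up a) < G.t (G.lo v) := by
            have h9 := s5 (G.t a + 1) (by omega) (by omega)
            rw [← h7, ub_lo G hai, h7] at h9
            exact h9
          have h10 : G.zz a = G.lo v := by
            rcases zz_cases G hai with h11 | h11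
            · have := h11.2.2
              rw [h7] at this
              omega
            · rw [h11.1, h7]
          have h11 : G.coin a = G.coin v := by
            unfold Bars.coin
            rw [h10, hz]
            have e1 : decide (G.r (G.lo v) < G.r a) = true := decide_eq_true ih'
            have e2 : decide (G.r (G.lo v) < G.r v) = true := decide_eq_true (r_lo G hv)
            rw [e1, e2]
          have h12 : lam G σ ω0 a = G.lo v := h4.trans h7
          by_cases h13 : a ∈ σ.S
          · apply hx
            rw [← h12]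
            exact lam_cl66 hI ω0 a h13
          · by_cases h14 : a ∈ σ.Dec
            · have h15 : σ.pi a = G.lo a := by
                have h16 : lam G σ ω0 a = σ.pi a := by
                  unfold lam
                  rw [if_pos (show a ∈ σ.S ∪ σ.Dec from Or.inr h14)]
                rw [← h16]
                exact h4
              have h17 := hD a h14 h13 h15 (by rw [h7]; exact hx)
              rw [h7] at h17
              omega
            · have h16 : lam G σ ω0 a = G.oo a := by
                unfold lam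
                rw [if_neg (show a ∉ σ.S ∪ σ.Dec from fun h17 => h17.elim h13 h14),
                  if_neg (show G.zz a ∉ σ.S \ σ.Lat from fun h17 => hx (by rw [← h10]; exact h17.1)), h11, h0]
                simp
              rcases zz_cases G hai with h17 | h17
              · have := h17.2.2
                rw [h7] at this
                omega
              · rw [h17.2.1] at h16
                rw [h16] at h12
                have h18 := r_up G hai
                rw [h12] at h18
                omega
      · rw [h4]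
        exact ih'.trans (r_up G hai)

end Pure66

variable {V : Type} [Fintype V] [DecidableEq V] {G : Bars V}

theorem pr_le66 {m m' : V × Bool → Option Bool} {A B : (V × Bool → Bool) → Prop}
    (h : ∀ ω', A (ov m ω') → B (ov m' ω')) : pr m A ≤ pr m' B := by
  classical
  unfold pr
  refine div_le_div_of_nonneg_right ?_ (by positivity)
  refine Nat.cast_le.2 (Finset.card_le_card fun ω' hω' => ?_)
  rw [Finset.mem_filter] at hω' ⊢
  exact ⟨hω'.1, h ω' hω'.2⟩

/-- Closability of the exposed short heads; `hD` is `inv_hD h.inv`. -/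
theorem clB66 {σ : St V} {m0 : V × Bool → Option Bool} {ω : V × Bool → Bool} {z : V} {K Tm : ℕ} {E : Set V}
    (h : Ctx G σ m0 ω z K Tm E)
    (hD : ∀ u ∈ σ.Dec, u ∉ σ.S → σ.pi u = G.lo u → G.lo u ∉ σ.S → G.t (G.lo u) < G.t (G.up u))
    {v w v' : V} (hb : obB G σ ω z v) (hw : OnB G σ ω z w) (hvw : G.t v < G.t w)
    (hv' : G.inn v') (h1 : G.lo v' = G.lo v) (h2 : G.t v ≤ G.t v') (h3 : G.t v' + 1 < G.tau1 v) :
    prb G σ m0 ω z v w ≤ pr (memc G σ m0 ω z v true)
      (fun ω' => ∃ u, OnB G σ ω z u ∧ G.t u ≤ G.t w ∧ Orb (lam G σ ω') (G.up v') u) := by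
  classical
  obtain ⟨⟨hvB, hlam, hloS⟩, hask, hzz⟩ := hb
  have hI := h.inv
  have hvi := inn_of_notMem66 hI hvB.2
  have hxi := inn_of_notMem66 hI hloS
  have hwi := inn_of_notMem66 hI hw.2
  have hwN : G.t w < G.N := G.t_in _ hwi.1 hwi.2
  obtain ⟨s1, s2, _, _, _, _⟩ := tau1_spec G hvi hxi
  have hπ := ch_lam hI ω
  have hxw : G.t (G.lo v) ≤ G.t w := by
    rw [← hlam]
    exact onB_next66 hI hvB hw hvw
  have hxB : OnB G σ ω z (G.lo v) := ⟨by rw [← hlam]; exact orb_step hvB.1, hloS⟩
  refine pr_le66 fun ω' hA => ?_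
  obtain ⟨ω0, hω0⟩ : ∃ ω0, ω0 = ov (memc G σ m0 ω z v false) ω' := ⟨_, rfl⟩
  obtain ⟨ω1, hω1⟩ : ∃ ω1, ω1 = ov (memc G σ m0 ω z v true) ω' := ⟨_, rfl⟩
  rw [← hω0] at hA
  rw [← hω1]
  have c0 : ω0 (G.coin v) = false := by
    rw [hω0]
    unfold ov memc
    rw [if_pos rfl]
    rfl
  have hρ := ch_lam hI ω0
  -- the order at the time `τ'`
  obtain ⟨τ', hτ'⟩ : ∃ τ', τ' = G.t v' + 1 := ⟨_, rfl⟩
  rw [← hτ'] at h3
  have habove := above66 hI hD hvi hloS hzz c0 τ' (by omega) h3
  have hau := al_up G hvi
  have hau' := al_up G hv'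
  have halh := host_al hρ (u := G.up v) (τ := τ') (by have := hau.2.1; omega) (by omega)
  have hy1 : G.ub (G.lo v) τ' = G.up v' := by
    rw [hτ', ← h1]
    exact ub_lo G hv'
  have hy2 : G.r (G.up v') ≤ G.r (host G (lam G σ ω0) (G.up v) τ') := by
    rw [← hy1]
    exact (ub_spec G (by omega) hxi.2).2.2 _ halh habove
  have hy3 : host G (lam G σ ω0) (G.up v') τ' = G.up v' := host_self hρ (by
    have := hau'.2.2
    omega)
  have hx1 : host G (lam G σ ω) z τ' = G.lo v := by
    rw [← hlam]
    refine host_btw hπ hvB.1 (by omega) ?_ (by omega)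
    rw [hlam]
    omega
  have hzb : G.b z ≤ τ' := by
    have e1 := orb_t hπ hvB.1
    have e2 := G.bt z
    omega
  have hyb : G.b (G.up v') ≤ τ' := by
    have := hau'.2.1
    omega
  -- the order at the death of `w`
  have hw1 : host G (lam G σ ω) z (G.t w) = w := host_t hπ hw.1 hwi
  have hw2 : host G (lam G σ ω0) (G.up v) (G.t w) = w := host_t hρ hA hwi
  have hle := order_one hρ (u := G.up v') (v := G.up v) (τ1 := τ') (τ2 := G.t w) hyb
    (by have := hau.2.1; omega) (by omega) hwN.le (by rw [hy3]; exact hy2)
  rw [hw2] at hle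
  obtain ⟨τ, ht1, ht2, ht3⟩ := order hπ hρ (u := z) (v := G.up v') (τ1 := τ') (τ2 := G.t w) hzb hyb (by omega)
    hwN.le (by
      rw [hx1, hy3, ← h1]
      exact (r_lo G hv').trans (r_up G hv')) (by rw [hw1]; exact hle)
  obtain ⟨u, hu⟩ : ∃ u, u = host G (lam G σ ω) z τ := ⟨_, rfl⟩
  have hu1 : Orb (lam G σ ω) z u := by
    rw [hu]
    exact host_orb G _ z τ
  have hual : G.al u τ := by
    rw [hu]
    exact host_al hπ (by omega) (by omega)
  have hu2 : Orb (lam G σ ω) u w := by
    rw [← hw1, ← host_add hπ (u := z) (τ := τ) (τ' := G.t w) (by omega) ht2 hwN.le, ← hu]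
    exact host_orb G _ u _
  have huB : OnB G σ ω z u := ⟨hu1, fun h5 => hw.2 (orb_cl66 (lam_cl66 hI ω) h5 hu2)⟩
  have hut : G.t u ≤ G.t w := orb_t hπ hu2
  have hu3 : Orb (lam G σ ω0) (G.up v') u := by
    rw [hu, ht3]
    exact host_orb G _ _ τ
  -- switching the coin
  have hsw : ∀ a, lam G σ ω1 a = lam G σ ω0 a ∨ lam G σ ω1 a = G.lo v := by
    intro a
    by_cases h5 : a ∈ σ.S ∪ σ.Dec
    · left
      unfold lam
      rw [if_pos h5, if_pos h5]
    · by_cases h6 : G.zz a ∈ σ.S \ σ.Lat
      · left
        unfold lam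
        rw [if_neg h5, if_neg h5, if_pos h6, if_pos h6]
      · by_cases h7 : G.coin a = G.coin v
        · right
          have c1 : ω1 (G.coin v) = true := by
            rw [hω1]
            unfold ov memc
            rw [if_pos rfl]
            rfl
          unfold lam
          rw [if_neg h5, if_neg h6, h7, if_pos c1, ← hzz]
          exact congrArg Prod.fst h7
        · left
          have c2 : ω1 (G.coin a) = ω0 (G.coin a) := by
            rw [hω1, hω0]
            unfold ov memc
            rw [if_neg h7, if_neg h7]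
          unfold lam
          rw [if_neg h5, if_neg h5, if_neg h6, if_neg h6, c2]
  rcases orb_switch66 hsw hu3 with h5 | h5
  · exact ⟨u, huB, hut, h5⟩
  · exact ⟨_, hxB, hxw, h5⟩

end Pool.Agent.W_a4f561_h26
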