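import Pool.Agent.W_a4f561_h26.Bas

/-!
MP_a4f561_co (EpsPages): open events, mirror of `Ctx` and `Dr`, additivity of `CB` (helper28).
-/

set_option autoImplicit false

namespace Pool.Agent.W_a4f561_E.Cnt28

open Pool.Agent.W_a4f561_h26

section Pure

variable {V : Type}

theorem cb_union {G : Bars V} {π : V → V} {A A' : Set V} {C C' : ℕ} (h : CB G π A C) (h' : CB G π A' C') :
    CB G π (A ∪ A') (C + C') := by
  classical
  intro p T P hT hP h1 h2
  have key : P ⊆ P.filter (fun q => DPr G π A p T q) ∪ P.filter (fun q => DPr G π A' p T q) := by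
    intro q hq
    obtain ⟨v, hv, hvA, hrest⟩ := hP q hq
    rw [Finset.mem_union, Finset.mem_filter, Finset.mem_filter]
    rcases hvA with hvA | hvA
    · exact Or.inl ⟨hq, v, hv, hvA, hrest⟩
    · exact Or.inr ⟨hq, v, hv, hvA, hrest⟩
  refine le_trans (Finset.card_le_card key) (le_trans (Finset.card_union_le _ _) (Nat.add_le_add ?_ ?_))
  · refine h p T _ hT ?_ ?_ ?_
    · intro q hq
      exact (Finset.mem_filter.1 hq).2
    · intro q hq q' hq'
      exact h1 q (Finset.mem_filter.1 hq).1 q' (Finset.mem_filter.1 hq').1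
    · intro q hq q' hq'
      exact h2 q (Finset.mem_filter.1 hq).1 q' (Finset.mem_filter.1 hq').1
  · refine h' p T _ hT ?_ ?_ ?_
    · intro q hq
      exact (Finset.mem_filter.1 hq).2
    · intro q hq q' hq'
      exact h1 q (Finset.mem_filter.1 hq).1 q' (Finset.mem_filter.1 hq').1
    · intro q hq q' hq'
      exact h2 q (Finset.mem_filter.1 hq).1 q' (Finset.mem_filter.1 hq').1

theorem cb_mono {G : Bars V} {π : V → V} {A A' : Set V} {C C' : ℕ} (h : CB G π A' C') (hA : A ⊆ A')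
    (hC : C' ≤ C) : CB G π A C := by
  intro p T P hT hP h1 h2
  refine le_trans (h p T P hT ?_ h1 h2) hC
  intro q hq
  obtain ⟨v, hv, hvA, hrest⟩ := hP q hq
  exact ⟨v, hv, hA hvA, hrest⟩

theorem st_mir_mir (σ : St V) : σ.mir.mir = σ := rfl

theorem le_mir {σ σ' : St V} (h : Le σ σ') : Le σ.mir σ'.mir := ⟨h.S, h.Dec, h.pi, h.RU, h.RD⟩

theorem onB_mir {G : Bars V} {σ : St V} (hI : Inv G σ) (ω : V × Bool → Bool) (z v : V) :
    OnB G.mir σ.mir ω z v ↔ OnB G σ ω z v := by
  unfold OnB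
  rw [lam_mir hI.bot_mem hI.top_mem ω]
  exact Iff.rfl

end Pure

variable {V : Type} [Fintype V] [DecidableEq V] {G : Bars V}
  {σ σ1 σk : St V} {m0 : V × Bool → Option Bool} {ω : V × Bool → Bool} {z : V} {K Tm T : ℕ} {E : Set V}

/-- D-steps with an event which is open at time `τ`: `≤ K + 1`. (Apply also to `G.mir`.) -/
theorem open_card (h : Ctx G σ m0 ω z K Tm E) (τ : ℕ) :
    Set.ncard {v | ∃ w, (dlA G σ m0 ω z (dl K) v w ∨ dlB G σ m0 ω z (dl K) v w) ∧ G.t v < τ ∧ τ < G.t w} ≤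
      K + 1 := by
  classical
  set X := {v | ∃ w, (dlA G σ m0 ω z (dl K) v w ∨ dlB G σ m0 ω z (dl K) v w) ∧ G.t v < τ ∧ τ < G.t w}
    with hX
  have hXB : ∀ v ∈ X, OnB G σ ω z v := by
    rintro v ⟨w, hw | hw, _, _⟩
    · exact hw.1.1.1
    · exact hw.1.1.1
  let W : Finset V := (Set.toFinite {v : V | OnB G σ ω z v ∧ G.t v < τ}).toFinset
  have hW : ∀ v, v ∈ W ↔ OnB G σ ω z v ∧ G.t v < τ := by
    intro v
    simp [W]
  by_cases hne : W.Nonempty
  · obtain ⟨u, huW, humax⟩ := Finset.exists_max_image W G.t hne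
    have huA := (hW u).1 huW
    have hsub : X ⊆ insert u {v | G.t v < G.t u ∧ hrm G σ m0 ω z (dl K) u v} := by
      intro v hv
      by_cases hvu : v = u
      · left; exact hvu
      · right
        have hvB := hXB v hv
        obtain ⟨w, hw, h1, h2⟩ := hv
        have hvW : v ∈ W := (hW v).2 ⟨hvB, h1⟩
        have hle := humax v hvW
        have hlt : G.t v < G.t u := lt_of_le_of_ne hle (fun e => hvu (G.t_inj e))
        refine ⟨hlt, ?_⟩
        have huw : G.t u < G.t w := lt_trans huA.2 h2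
        rcases hw with hw | hw
        · right; right
          exact ⟨hw.1, hw.2.2.2.2 u huA.1 hlt huw⟩
        · left
          exact ⟨hw.1, hw.2.2.2.2 u huA.1 hlt huw⟩
    refine le_trans (Set.ncard_le_ncard hsub (Set.toFinite _)) ?_
    refine le_trans (Set.ncard_insert_le _ _) ?_
    have := h.nD u huA.1
    unfold cnt at this
    omega
  · have : X = ∅ := by
      rw [Set.eq_empty_iff_forall_notMem]
      intro v hv
      have hvB := hXB v hv
      obtain ⟨w, _, h1, _⟩ := hv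
      exact hne ⟨v, (hW v).2 ⟨hvB, h1⟩⟩
    rw [this]
    simp

theorem ctx_mir (h : Ctx G σ m0 ω z K Tm E) : Ctx G.mir σ.mir m0 ω z K Tm E where
  inv := inv_mir h.inv
  lt := h.lt
  zS := h.zS
  ES := h.ES
  tE := h.tE
  m0t := h.m0t
  ext := h.ext
  suc := by
    have e := lam_mir h.inv.bot_mem h.inv.top_mem ω
    obtain ⟨e0, he0, he1, he2, he3⟩ := h.suc
    refine ⟨e0, he0, he1, ?_, ?_⟩
    · rw [e]; exact he2
    · rw [e]; exact he3
  nD := by
    intro w hw
    rw [onB_mir h.inv] at hw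
    exact h.nU w hw
  nU := by
    intro w hw
    rw [onB_mir h.inv] at hw
    rw [mir_mir, st_mir_mir]
    exact h.nD w hw

theorem dr_mir (h : Inv G σ) (hd : Dr G σ ω z σ1) : Dr G.mir σ.mir ω z σ1.mir := by
  have hO : ∀ v, OnB G.mir σ.mir ω z v ↔ OnB G σ ω z v := onB_mir h ω z
  refine ⟨le_mir hd.le, inv_mir hd.inv, hd.lat, ?_, ?_, ?_, ?_, ?_, ?_⟩
  · show σ1.S = σ.S ∪ {v | OnB G.mir σ.mir ω z v}
    rw [hd.S]
    congr 1
    ext v
    exact (hO v).symm
  · intro v hv
    rw [lam_mir h.bot_mem h.top_mem ω]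
    exact hd.pi v ((hO v).1 hv)
  · intro R hR hR'
    exact hd.newU R hR hR'
  · intro R hR hR'
    rw [mir_mir, st_mir_mir]
    exact hd.newD R hR hR'
  · intro y hy a c hac ha hc
    exact hd.exU y hy a c hac ha hc
  · intro y hy a c hac ha hc
    rw [mir_mir, st_mir_mir] at ha hc
    exact hd.exD y hy a c hac ha hc

theorem fin_mir {π : V → V} (h : Fin' G σ π) : Fin' G.mir σ.mir π := ⟨ch_mir.2 h.1, h.2⟩

end Pool.Agent.W_a4f561_E.Cnt28
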