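import Mathlib

/-!
MP_a4f561_co, n^eps: finite products of fair coins with partial assignments (helper70).
-/

set_option autoImplicit false

namespace Pool.Agent.W_a4f561_E

open Finset

variable {C : Type} [Fintype C] [DecidableEq C]

/-- The coins `om` overridden by the partial assignment `p`. -/
def ovr (p : C → Option Bool) (om : C → Bool) : C → Bool := fun q => (p q).getD (om q)

/-- One more coin is assigned. -/
def asg (p : C → Option Bool) (q : C) (b : Bool) : C → Option Bool := fun r => if r = q then some b else p r

/-- The expectation of `X` under fair coins overridden by `p`. -/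
noncomputable def Ex (p : C → Option Bool) (X : (C → Bool) → ℝ) : ℝ :=
  (∑ om : C → Bool, X (ovr p om)) / 2 ^ Fintype.card C

open Classical in
/-- The probability of `A` under fair coins overridden by `p`. -/
noncomputable def Pr (p : C → Option Bool) (A : (C → Bool) → Prop) : ℝ := Ex p fun om => if A om then 1 else 0

/-- The union of two assignments (the first one wins). -/
def uni (p g : C → Option Bool) : C → Option Bool := fun q => (p q).orElse fun _ => g q

omit [Fintype C] [DecidableEq C] in
theorem ovr_of_some {p : C → Option Bool} {q : C} {b : Bool} (h : p q = some b) (om : C → Bool) : ovr p om q = b := by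
  simp [ovr, h]

omit [Fintype C] [DecidableEq C] in
theorem ovr_of_none {p : C → Option Bool} {q : C} (h : p q = none) (om : C → Bool) : ovr p om q = om q := by
  simp [ovr, h]

omit [Fintype C] in
theorem asg_same (p : C → Option Bool) (q : C) (b : Bool) : asg p q b q = some b := by simp [asg]

omit [Fintype C] in
theorem asg_ne (p : C → Option Bool) {q r : C} (b : Bool) (h : r ≠ q) : asg p q b r = p r := by simp [asg, h]

omit [Fintype C] in
theorem asg_comm (p : C → Option Bool) {q r : C} (b b' : Bool) (h : q ≠ r) :
    asg (asg p q b) r b' = asg (asg p r b') q b := by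
  funext s
  unfold asg
  by_cases h1 : s = r
  · subst h1
    simp [h.symm]
  · simp [h1]

omit [Fintype C] in
/-- An assigned coin does not change anything when it is assigned again with its value. -/
theorem asg_eq_self {p : C → Option Bool} {q : C} {b : Bool} (h : p q = some b) : asg p q b = p := by
  funext s
  unfold asg
  by_cases h1 : s = q
  · subst h1
    simp [h]
  · simp [h1]

omit [Fintype C] in
theorem uni_asg_left (p g : C → Option Bool) (q : C) (b : Bool) : uni (asg p q b) g = asg (uni p g) q b := by
  funext s
  unfold uni asg
  by_cases h1 : s = q <;> simp [h1]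

omit [Fintype C] in
theorem uni_asg_right {p : C → Option Bool} (g : C → Option Bool) {q : C} (b : Bool) (h : p q = none) :
    uni p (asg g q b) = asg (uni p g) q b := by
  funext s
  unfold uni asg
  by_cases h1 : s = q
  · subst h1
    simp [h]
  · simp [h1]

omit [Fintype C] [DecidableEq C] in
theorem uni_eq_none {p g : C → Option Bool} {q : C} : uni p g q = none ↔ p q = none ∧ g q = none := by
  unfold uni
  cases hp : p q <;> simp

omit [Fintype C] [DecidableEq C] in
theorem uni_of_some {p : C → Option Bool} (g : C → Option Bool) {q : C} {b : Bool} (h : p q = some b) :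
    uni p g q = some b := by
  unfold uni
  simp [h]

omit [Fintype C] [DecidableEq C] in
theorem uni_of_none {p : C → Option Bool} (g : C → Option Bool) {q : C} (h : p q = none) :
    uni p g q = g q := by
  unfold uni
  simp [h]

omit [Fintype C] in
/-- The overridden coins with one more assigned coin. -/
theorem ovr_asg (p : C → Option Bool) (q : C) (b : Bool) (om : C → Bool) :
    ovr (asg p q b) om = Function.update (ovr p om) q b := by
  funext r
  unfold ovr asg
  by_cases h : r = q
  · subst h
    simp
  · simp [h, Function.update_of_ne]

theorem Ex_mono (p : C → Option Bool) {X Y : (C → Bool) → ℝ} (h : ∀ om, (∀ q b, p q = some b → om q = b) → X om ≤ Y om) :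
    Ex p X ≤ Ex p Y := by
  unfold Ex
  have h2 : (0 : ℝ) ≤ 2 ^ Fintype.card C := by positivity
  refine div_le_div_of_nonneg_right (Finset.sum_le_sum fun om _ => h _ ?_) h2
  intro q b hq
  exact ovr_of_some hq om

theorem Ex_congr (p : C → Option Bool) {X Y : (C → Bool) → ℝ} (h : ∀ om, (∀ q b, p q = some b → om q = b) → X om = Y om) :
    Ex p X = Ex p Y :=
  le_antisymm (Ex_mono p fun om ho => (h om ho).le) (Ex_mono p fun om ho => (h om ho).ge)

theorem Ex_add (p : C → Option Bool) (X Y : (C → Bool) → ℝ) : Ex p (fun om => X om + Y om) = Ex p X + Ex p Y := by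
  unfold Ex
  rw [Finset.sum_add_distrib, add_div]

theorem Ex_const (p : C → Option Bool) (c : ℝ) : Ex p (fun _ => c) = c := by
  unfold Ex
  rw [Finset.sum_const, Finset.card_univ, Fintype.card_fun, Fintype.card_bool, nsmul_eq_mul]
  push_cast
  field_simp

theorem Ex_nonneg (p : C → Option Bool) {X : (C → Bool) → ℝ} (h : ∀ om, 0 ≤ X om) : 0 ≤ Ex p X := by
  have h1 := Ex_mono p (X := fun _ => 0) (Y := X) fun om _ => h om
  rwa [Ex_const] at h1

theorem Ex_sum (p : C → Option Bool) {ι : Type} (s : Finset ι) (X : ι → (C → Bool) → ℝ) :
    Ex p (fun om => ∑ i ∈ s, X i om) = ∑ i ∈ s, Ex p (X i) := by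
  unfold Ex
  rw [← Finset.sum_div, Finset.sum_comm]

/-- The mean over the values of one coin. -/
theorem sum_split (q : C) (X : (C → Bool) → ℝ) :
    2 * ∑ om : C → Bool, X om = ∑ om : C → Bool, X (Function.update om q true) + ∑ om : C → Bool, X (Function.update om q false) := by
  classical
  have key : ∀ b : Bool, ∑ om : C → Bool, X (Function.update om q b) =
      2 * ∑ om ∈ univ.filter (fun om : C → Bool => om q = b), X om := by
    intro b
    rw [← Finset.sum_filter_add_sum_filter_not univ (fun om : C → Bool => om q = b)]
    have h1 : ∑ om ∈ univ.filter (fun om : C → Bool => om q = b), X (Function.update om q b) =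
        ∑ om ∈ univ.filter (fun om : C → Bool => om q = b), X om := by
      refine Finset.sum_congr rfl fun om hom => ?_
      rw [Finset.mem_filter] at hom
      rw [← hom.2, Function.update_eq_self]
    have h2 : ∑ om ∈ univ.filter (fun om : C → Bool => ¬ om q = b), X (Function.update om q b) =
        ∑ om ∈ univ.filter (fun om : C → Bool => om q = b), X om := by
      refine Finset.sum_bij' (fun om _ => Function.update om q b) (fun om _ => Function.update om q (!b)) ?_ ?_ ?_ ?_ ?_
      · intro om hom
        simp
      · intro om hom
        simp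
      · intro om hom
        rw [Finset.mem_filter] at hom
        funext r
        by_cases hr : r = q
        · subst hr
          have := hom.2
          simp only [Function.update_self]
          cases hb : b <;> cases ho : om r <;> simp_all
        · simp [Function.update_of_ne hr]
      · intro om hom
        rw [Finset.mem_filter] at hom
        funext r
        by_cases hr : r = q
        · subst hr
          simp [hom.2]
        · simp [Function.update_of_ne hr]
      · intro om hom
        rfl
    rw [h1, h2]
    ring
  rw [key true, key false, ← mul_add]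
  congr 1
  rw [← Finset.sum_filter_add_sum_filter_not univ (fun om : C → Bool => om q = true)]
  congr 1
  refine Finset.sum_congr ?_ fun _ _ => rfl
  ext om
  simp

/-- The mean over the values of one unassigned coin. -/
theorem Ex_split {p : C → Option Bool} {q : C} (h : p q = none) (X : (C → Bool) → ℝ) :
    Ex p X = (Ex (asg p q true) X + Ex (asg p q false) X) / 2 := by
  unfold Ex
  have h1 := sum_split q fun om => X (ovr p om)
  have h2 : ∀ b : Bool, ∀ om : C → Bool, ovr p (Function.update om q b) = ovr (asg p q b) om := by
    intro b om
    rw [ovr_asg]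
    funext r
    by_cases hr : r = q
    · subst hr
      rw [ovr_of_none h, Function.update_self, Function.update_self]
    · rw [Function.update_of_ne hr]
      unfold ovr
      rw [Function.update_of_ne hr]
  simp only [h2] at h1
  field_simp
  linarith

/-- `X` does not depend on the coin `q`. -/
def Ind (q : C) (X : (C → Bool) → ℝ) : Prop := ∀ om b, X (Function.update om q b) = X om

/-- A coin which is not asked may be assigned. -/
theorem Ex_ind (p : C → Option Bool) {q : C} {X : (C → Bool) → ℝ} (h : Ind q X) (b : Bool) : Ex (asg p q b) X = Ex p X := by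
  unfold Ex
  congr 1
  refine Finset.sum_congr rfl fun om _ => ?_
  rw [ovr_asg, h]

/-- `k` more assigned coins cost at most a factor `2 ^ k`. -/
theorem Ex_uni_le (p g : C → Option Bool) {X : (C → Bool) → ℝ} (hX : ∀ om, 0 ≤ X om) :
    Ex (uni p g) X ≤ 2 ^ (univ.filter fun q => g q ≠ none).card * Ex p X := by
  classical
  induction hn : (univ.filter fun q => g q ≠ none).card generalizing g with
  | zero =>
    rw [Finset.card_eq_zero, Finset.filter_eq_empty_iff] at hn
    have : uni p g = p := by
      funext q
      have h1 : g q = none := by
        have := hn (Finset.mem_univ q)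
        simpa using this
      unfold uni
      rw [h1]
      cases p q <;> rfl
    rw [this, pow_zero, one_mul]
  | succ n ih =>
    obtain ⟨q, hq⟩ : (univ.filter fun q => g q ≠ none).Nonempty := by
      rw [← Finset.card_pos]
      omega
    rw [Finset.mem_filter] at hq
    obtain ⟨b, hb⟩ : ∃ b, g q = some b := Option.ne_none_iff_exists'.1 hq.2
    have hc : (univ.filter fun r => (fun r => if r = q then none else g r) r ≠ none).card = n := by
      have h1 : (univ.filter fun r => (fun r => if r = q then none else g r) r ≠ none) =
          (univ.filter fun r => g r ≠ none).erase q := by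
        ext r
        simp only [Finset.mem_filter, Finset.mem_univ, true_and, Finset.mem_erase]
        by_cases hr : r = q <;> simp [hr]
      rw [h1, Finset.card_erase_of_mem (by simp [hb]), hn]
      rfl
    have h2 := ih (fun r => if r = q then none else g r) hc
    by_cases hp : p q = none
    · have h3 : uni p g = asg (uni p fun r => if r = q then none else g r) q b := by
        funext r
        unfold uni asg
        by_cases hr : r = q
        · subst hr
          simp [hp, hb]
        · simp [hr]
      have h4 : (uni p fun r => if r = q then none else g r) q = none := by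
        rw [uni_eq_none]
        simp [hp]
      have h5 := Ex_split h4 X
      have h6 : Ex (uni p g) X ≤ 2 * Ex (uni p fun r => if r = q then none else g r) X := by
        rw [h3]
        have h7 : ∀ b, 0 ≤ Ex (asg (uni p fun r => if r = q then none else g r) q b) X := fun b => Ex_nonneg _ hX
        have h8 := h7 true
        have h9 := h7 false
        cases b <;> linarith
      calc Ex (uni p g) X ≤ 2 * Ex (uni p fun r => if r = q then none else g r) X := h6
        _ ≤ 2 * (2 ^ n * Ex p X) := by linarith
        _ = 2 ^ (n + 1) * Ex p X := by ring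
    · obtain ⟨b', hb'⟩ := Option.ne_none_iff_exists'.1 hp
      have h3 : uni p g = uni p fun r => if r = q then none else g r := by
        funext r
        unfold uni
        by_cases hr : r = q
        · subst hr
          simp [hb']
        · simp [hr]
      rw [h3]
      have h4 : 0 ≤ Ex p X := Ex_nonneg _ hX
      have h5 : (0 : ℝ) ≤ 2 ^ n := by positivity
      calc _ ≤ 2 ^ n * Ex p X := h2
        _ ≤ 2 ^ (n + 1) * Ex p X := by
          rw [pow_succ]
          nlinarith

theorem Pr_nonneg (p : C → Option Bool) (A : (C → Bool) → Prop) : 0 ≤ Pr p A := by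
  classical
  exact Ex_nonneg _ fun om => by split_ifs <;> norm_num

theorem Pr_mono (p : C → Option Bool) {A B : (C → Bool) → Prop}
    (h : ∀ om, (∀ q b, p q = some b → om q = b) → A om → B om) : Pr p A ≤ Pr p B := by
  classical
  unfold Pr
  refine Ex_mono p fun om ho => ?_
  split_ifs with h1 h2
  · exact le_rfl
  · exact absurd (h om ho h1) h2
  · norm_num
  · exact le_rfl

theorem Pr_congr (p : C → Option Bool) {A B : (C → Bool) → Prop}
    (h : ∀ om, (∀ q b, p q = some b → om q = b) → (A om ↔ B om)) : Pr p A = Pr p B :=
  le_antisymm (Pr_mono p fun om ho h1 => (h om ho).1 h1) (Pr_mono p fun om ho h1 => (h om ho).2 h1)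

theorem Pr_le_one (p : C → Option Bool) (A : (C → Bool) → Prop) : Pr p A ≤ 1 := by
  classical
  unfold Pr
  calc _ ≤ Ex p (fun _ => 1) := Ex_mono p fun om _ => by split_ifs <;> norm_num
    _ = 1 := Ex_const p 1

theorem Pr_true (p : C → Option Bool) {A : (C → Bool) → Prop}
    (h : ∀ om, (∀ q b, p q = some b → om q = b) → A om) : Pr p A = 1 := by
  classical
  unfold Pr
  rw [Ex_congr p (Y := fun _ => 1) fun om ho => by rw [if_pos (h om ho)], Ex_const]

theorem Pr_false (p : C → Option Bool) {A : (C → Bool) → Prop}
    (h : ∀ om, (∀ q b, p q = some b → om q = b) → ¬ A om) : Pr p A = 0 := by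
  classical
  unfold Pr
  rw [Ex_congr p (Y := fun _ => 0) fun om ho => by rw [if_neg (h om ho)], Ex_const]

theorem Pr_or_le (p : C → Option Bool) (A B : (C → Bool) → Prop) : Pr p (fun om => A om ∨ B om) ≤ Pr p A + Pr p B := by
  classical
  unfold Pr
  rw [← Ex_add]
  refine Ex_mono p fun om _ => ?_
  by_cases h1 : A om <;> by_cases h2 : B om <;> simp [h1, h2]

theorem Pr_exists_le (p : C → Option Bool) {ι : Type} (s : Finset ι) (A : ι → (C → Bool) → Prop) :
    Pr p (fun om => ∃ i ∈ s, A i om) ≤ ∑ i ∈ s, Pr p (A i) := by
  classical
  unfold Pr
  rw [← Ex_sum]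
  refine Ex_mono p fun om _ => ?_
  split_ifs with h
  · obtain ⟨i, hi, h1⟩ := h
    calc (1 : ℝ) = (if A i om then 1 else 0) := by rw [if_pos h1]
      _ ≤ ∑ i ∈ s, (if A i om then (1 : ℝ) else 0) :=
        Finset.single_le_sum (f := fun i => if A i om then (1 : ℝ) else 0) (fun j _ => by split_ifs <;> norm_num) hi
  · exact Finset.sum_nonneg fun j _ => by split_ifs <;> norm_num

theorem Pr_split {p : C → Option Bool} {q : C} (h : p q = none) (A : (C → Bool) → Prop) :
    Pr p A = (Pr (asg p q true) A + Pr (asg p q false) A) / 2 := Ex_split h _

/-- `A` does not depend on the coin `q`. -/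
def IndP (q : C) (A : (C → Bool) → Prop) : Prop := ∀ om b, A (Function.update om q b) ↔ A om

theorem Pr_ind (p : C → Option Bool) {q : C} {A : (C → Bool) → Prop} (h : IndP q A) (b : Bool) :
    Pr (asg p q b) A = Pr p A := by
  classical
  unfold Pr
  refine Ex_ind p (fun om b' => ?_) b
  simp only [h om b']

theorem Pr_uni_le (p g : C → Option Bool) (A : (C → Bool) → Prop) :
    Pr (uni p g) A ≤ 2 ^ (univ.filter fun q => g q ≠ none).card * Pr p A := by
  classical
  exact Ex_uni_le p g fun om => by split_ifs <;> norm_num

/-- Some outcome is good and avoids all the bad events. -/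
theorem exists_good (p : C → Option Bool) {ι : Type} (s : Finset ι) (A : ι → (C → Bool) → Prop) (G : (C → Bool) → Prop)
    (h : ∑ i ∈ s, Pr p (A i) < Pr p G) :
    ∃ om : C → Bool, (∀ q b, p q = some b → om q = b) ∧ G om ∧ ∀ i ∈ s, ¬ A i om := by
  by_contra hn
  push Not at hn
  have h1 : Pr p G ≤ Pr p (fun om => ∃ i ∈ s, A i om) := Pr_mono p fun om ho hg => hn om ho hg
  linarith [Pr_exists_le p s A]

end Pool.Agent.W_a4f561_E
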