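import Pool.Agent.W_a4f561_h26.Bas

/-!
MP_a4f561_co, the n^eps theorem: the deterministic facts of the harm lemma (helper70). Declared D-steps, the alternative branch
comes to `lo v` only from the exposure of the first long head, squeezing, independence.
-/

set_option autoImplicit false

namespace Pool.Agent.W_a4f561_E.D70

open Pool.Agent.W_a4f561_h26

variable {V : Type}

/-- The vertex before `x` on a route. -/
theorem orb_pred {π : V → V} {u x : V} (h : Orb π u x) (hne : u ≠ x) : ∃ w, Orb π u w ∧ w ≠ x ∧ π w = x := by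
  classical
  have hex : ∃ k, π^[k] u = x := h
  have h1 := Nat.find_spec hex
  set k := Nat.find hex with hk
  have h2 : k ≠ 0 := by
    intro h0
    rw [h0] at h1
    exact hne h1
  refine ⟨π^[k - 1] u, ⟨k - 1, rfl⟩, fun h3 => ?_, ?_⟩
  · exact Nat.find_min hex (m := k - 1) (by omega) h3
  · have e : k = (k - 1) + 1 := by omega
    rw [e, Function.iterate_succ_apply'] at h1
    exact h1

variable {G : Bars V} {σ : St V}

theorem lo_ne_up (G : Bars V) {v : V} (hv : G.inn v) : G.lo v ≠ G.up v := by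
  intro e
  have h1 := r_lo G hv
  have h2 := r_up G hv
  rw [e] at h1
  omega

theorem t_lt {π : V → V} (h : Ch G π) {v : V} (hv : G.inn v) : G.t v < G.t (π v) := by
  rcases h.2.2 v hv with h1 | h1
  · rw [h1]
    exact t_lo G hv
  · rw [h1]
    exact t_up G hv

theorem inn_of (hI : Inv G σ) {v : V} (hv : v ∉ σ.S) : G.inn v :=
  ⟨fun e => hv (e ▸ hI.bot_mem), fun e => hv (e ▸ hI.top_mem)⟩

theorem tN {v : V} (hv : G.inn v) : G.t v < G.N := G.t_in v hv.1 hv.2

theorem lam_S (G : Bars V) (σ : St V) (ω : V × Bool → Bool) {v : V} (h : v ∈ σ.S) : lam G σ ω v = σ.pi v := by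
  unfold lam
  rw [if_pos (show v ∈ σ.S ∪ σ.Dec from Or.inl h)]

theorem lam_Dec (G : Bars V) (σ : St V) (ω : V × Bool → Bool) {v : V} (h : v ∈ σ.Dec) : lam G σ ω v = σ.pi v := by
  unfold lam
  rw [if_pos (show v ∈ σ.S ∪ σ.Dec from Or.inr h)]

theorem lam_Fr (G : Bars V) (σ : St V) (ω : V × Bool → Bool) {v : V} (h : v ∉ σ.S) (h' : v ∉ σ.Dec)
    (hz : G.zz v ∈ σ.S \ σ.Lat) : lam G σ ω v = G.zz v := by
  unfold lam
  rw [if_neg (by simp [h, h']), if_pos hz]

theorem lam_true (G : Bars V) (σ : St V) {ω : V × Bool → Bool} {v : V} (h : ask G σ v) (hc : ω (G.coin v) = true) :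
    lam G σ ω v = G.zz v := by
  obtain ⟨h1, h2, h3⟩ := h
  unfold lam
  rw [if_neg (by simp [h1, h2]), if_neg h3, if_pos hc]

theorem lam_false (G : Bars V) (σ : St V) {ω : V × Bool → Bool} {v : V} (h : ask G σ v) (hc : ω (G.coin v) = false) :
    lam G σ ω v = G.oo v := by
  obtain ⟨h1, h2, h3⟩ := h
  unfold lam
  rw [if_neg (by simp [h1, h2]), if_neg h3, if_neg (by simp [hc])]

/-- Every vertex outside of `S` is declared, glues surely to a fresh host, or asks. -/
theorem lam_cases (G : Bars V) (σ : St V) {v : V} (h : v ∉ σ.S) :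
    v ∈ σ.Dec ∨ (v ∉ σ.Dec ∧ G.zz v ∈ σ.S \ σ.Lat) ∨ ask G σ v := by
  by_cases h1 : v ∈ σ.Dec
  · exact Or.inl h1
  · by_cases h2 : G.zz v ∈ σ.S \ σ.Lat
    · exact Or.inr (Or.inl ⟨h1, h2⟩)
    · exact Or.inr (Or.inr ⟨h, h1, h2⟩)

theorem lam_cl (hI : Inv G σ) (ω : V × Bool → Bool) : ∀ v ∈ σ.S, lam G σ ω v ∈ σ.S := fun v hv => by
  rw [lam_S G σ ω hv]
  exact hI.cl v hv

theorem orb_cl {π : V → V} {S : Set V} (hS : ∀ v ∈ S, π v ∈ S) {u v : V} (h : Orb π u v) (hu : u ∈ S) : v ∈ S := by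
  obtain ⟨k, rfl⟩ := h
  induction k with
  | zero => exact hu
  | succ k ih =>
    rw [Function.iterate_succ_apply']
    exact hS _ ih

/-- The coin of a vertex which looks at its lower neighbour. -/
theorem coin_lo (G : Bars V) {v : V} (hv : G.inn v) (h : G.zz v = G.lo v) : G.coin v = (G.lo v, !G.fl) := by
  unfold Bars.coin
  rw [h, decide_eq_true (r_lo G hv), Bool.xor_true]

/-- An alive vertex above `x` is not below the upper neighbour of `x`. -/
theorem ub_le (G : Bars V) {x u : V} {τ : ℕ} (hu : G.al u τ) (hxu : G.r x < G.r u) (hτ : τ ≤ G.N) :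
    G.r (G.ub x τ) ≤ G.r u := by
  refine (ub_spec G hτ (x := x) fun e => ?_).2.2 u hu hxu
  by_cases h : u = G.top
  · rw [e, h] at hxu
    exact lt_irrefl _ hxu
  · have := G.r_top u h
    rw [e] at hxu
    omega

/-- `v` is the upper neighbour of `lo v` at the death of `v`. -/
theorem ub_lo_t (G : Bars V) {v : V} (hv : G.inn v) : G.ub (G.lo v) (G.t v) = v := by
  refine ub_eq G ⟨G.bt v, le_rfl⟩ (r_lo G hv) fun u hu h1 => ?_
  by_contra h2
  rw [not_le] at h2
  have h3 := (lb_spec G (x := v) (τ := G.t v) (tN hv).le hv.1).2.2 u hu h2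
  exact absurd h1 (not_lt.2 h3)

/-- (H1): the barrier of a declared D-step outlives the lower neighbour. -/
theorem h1_dec (hI : Inv G σ) {v : V} (hD : v ∈ σ.Dec) (hS : v ∉ σ.S) (hp : σ.pi v = G.lo v) (hx : G.lo v ∉ σ.S) :
    G.t (G.lo v) < G.t (G.up v) := by
  have hv := inn_of hI hS
  rcases hI.decl v hD hS with ⟨R, hR, h1, h2, h3, h4, _⟩ | ⟨R, hR, h1, h2, h3, h4, h5⟩
  · have hr := hI.recD R hR
    have hal : ∀ τ, R.a ≤ τ → τ ≤ R.c → G.al (host G σ.pi R.q τ) τ := fun τ h6 h7 =>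
      host_al hI.ch (hr.b_le.trans h6) (h7.trans hr.cN)
    have hhS : ∀ τ, host G σ.pi R.q τ ∈ σ.S := fun τ => orb_cl hI.cl (host_orb G σ.pi R.q τ) hr.q_mem
    have hlo := lb_spec G (x := v) (τ := G.t v) (tN hv).le hv.1
    have h6 : G.r (host G σ.pi R.q (G.t v)) ≤ G.r (G.lo v) := hlo.2.2 _ (hal _ h1.le h2.le) h3
    have hne : ∀ τ, host G σ.pi R.q τ ≠ G.lo v := fun τ e => hx (e ▸ hhS τ)
    have h7 : G.r (host G σ.pi R.q (G.t v)) < G.r (G.lo v) :=
      lt_of_le_of_ne h6 fun e => hne _ (G.r_inj e)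
    rw [h4]
    refine lt_of_lt_of_le ?_ hr.y_t.le
    by_contra hcon
    rw [not_lt] at hcon
    have h8 : G.r (host G σ.pi R.q R.c) < G.r (G.lo v) :=
      lt_of_le_of_ne ((order_bar hI.ch (hr.b_le.trans h1.le) (al_lo G hv).1.1 h2.le hr.cN hcon).1 h7)
        fun e => hne _ (G.r_inj e)
    have h9 := ub_le G (x := host G σ.pi R.q R.c) (u := G.lo v) (τ := R.c) ⟨(al_lo G hv).1.1.trans h2.le, hcon⟩ h8
      hr.cN
    rw [hr.tc, ← h4] at h9
    have h10 := r_lo G hv
    have h11 := r_up G hv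
    omega
  · have h6 : G.mir.lo v = G.up v := by
      show G.mir.mir.ub v (G.t v) = G.ub v (G.t v)
      rw [mir_mir]
    rw [hp, h6] at h5
    exact absurd h5 (lo_ne_up G hv)

/-- The route of `u` does not ask the coins of hosts which do not outlive `u`. -/
theorem orb_indep (hI : Inv G σ) [DecidableEq V] {u : V} {κ : V × Bool} (hκ : G.t κ.1 ≤ G.t u) (ω : V × Bool → Bool)
    (b : Bool) (w : V) : Orb (lam G σ (Function.update ω κ b)) u w ↔ Orb (lam G σ ω) u w := by
  have key : ∀ k, (lam G σ (Function.update ω κ b))^[k] u = (lam G σ ω)^[k] u := by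
    intro k
    induction k with
    | zero => rfl
    | succ k ih =>
      rw [Function.iterate_succ_apply', ih, Function.iterate_succ_apply']
      set x := (lam G σ ω)^[k] u with hx
      by_cases hS : x ∈ σ.S
      · rw [lam_S _ _ _ hS, lam_S _ _ _ hS]
      · rcases lam_cases G σ hS with h | ⟨h, h'⟩ | h
        · rw [lam_Dec _ _ _ h, lam_Dec _ _ _ h]
        · rw [lam_Fr _ _ _ hS h h', lam_Fr _ _ _ hS h h']
        · have hxi := inn_of hI hS
          have h1 : G.t u ≤ G.t x := orb_t (ch_lam hI ω) ⟨k, rfl⟩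
          have h2 : G.t x < G.t (G.zz x) := by
            rcases zz_cases G hxi with ⟨h2, _⟩ | ⟨h2, _⟩
            · rw [h2]
              exact t_up G hxi
            · rw [h2]
              exact t_lo G hxi
          have h3 : Function.update ω κ b (G.coin x) = ω (G.coin x) := by
            refine Function.update_of_ne (fun e => ?_) _ _
            have h4 : (G.coin x).1 = G.zz x := rfl
            rw [e] at h4
            rw [← h4] at h2
            omega
          cases hc : ω (G.coin x)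
          · rw [lam_false _ _ h hc, lam_false _ _ h (by rw [h3, hc])]
          · rw [lam_true _ _ h hc, lam_true _ _ h (by rw [h3, hc])]
  constructor
  · rintro ⟨k, hk⟩
    exact ⟨k, by rw [← key]; exact hk⟩
  · rintro ⟨k, hk⟩
    exact ⟨k, by rw [key]; exact hk⟩

end Pool.Agent.W_a4f561_E.D70

namespace Pool.Agent.W_a4f561_E

open Pool.Agent.W_a4f561_h26 D70

variable {V : Type} {G : Bars V} {σ : St V}

/-- (D1): when the coin of `v` rejects `x = lo v`, the other branch comes to `x` only from the exposure of the first long head,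
and then this vertex is declared or the first long head is rejected. -/
theorem det1 (hI : Inv G σ)
    (hDD : ∀ u ∈ σ.Dec, u ∉ σ.S → σ.pi u = G.lo u → G.lo u ∉ σ.S → G.t (G.lo u) < G.t (G.up u))
    {v : V} (hq : ask G σ v) (hz : G.zz v = G.lo v) (hx : G.lo v ∉ σ.S)
    {ω : V × Bool → Bool} (hc : ω (G.coin v) = false) (ho : Orb (lam G σ ω) (G.up v) (G.lo v)) :
    ∃ u, Orb (lam G σ ω) (G.up v) u ∧ u ∉ σ.S ∧ G.lo u = G.lo v ∧ G.up u = G.flh v ∧ G.t u + 1 = G.tau1 v ∧
      lam G σ ω u = G.lo v ∧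
      ((u ∈ σ.Dec ∧ fb G σ v) ∨ (ask G σ u ∧ G.zz u = G.flh v ∧ ω (G.blw (G.flh v)) = false)) := by
  have hv : G.inn v := inn_of hI hq.1
  have hxi : G.inn (G.lo v) := inn_of hI hx
  have hch := ch_lam hI ω
  obtain ⟨hlt, htau1, hft, hfal, hshort, _⟩ := tau1_spec G hv hxi
  obtain ⟨u, hu1, hu2, hu3⟩ := orb_pred ho (lo_ne_up G hv).symm
  have huS : u ∉ σ.S := fun h => hx (hu3 ▸ lam_cl hI ω u h)
  have hui : G.inn u := inn_of hI huS
  have htx : G.t u < G.t (G.lo v) := by
    have := t_lt hch hui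
    rwa [hu3] at this
  have htu : G.t (G.up v) ≤ G.t u := orb_t hch hu1
  have htv : G.t v < G.t (G.up v) := t_up G hv
  have hN : G.t u ≤ G.N := (tN hui).le
  have hbu : G.b (G.up v) ≤ G.t v + 1 := (al_up G hv).2.1
  have hbx : G.b (G.lo v) ≤ G.t v + 1 := (al_lo G hv).2.1
  have hru : host G (lam G σ ω) (G.up v) (G.t u) = u := host_t hch hu1 hui
  have h0 : host G (lam G σ ω) (G.up v) (G.t v + 1) = G.up v := host_self hch (by omega)
  have hxup : G.r (G.lo v) < G.r (G.up v) := (r_lo G hv).trans (r_up G hv)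
  have hkeep : ∀ τ, G.t v + 1 ≤ τ → τ ≤ G.t u → G.r (G.lo v) < G.r (host G (lam G σ ω) (G.up v) τ) := by
    intro τ h1 h2
    have h3 := (order_bar hch (u := G.up v) (y := G.lo v) (τ1 := G.t v + 1) (τ2 := τ) hbu hbx h1 (by omega)
      (by omega)).2.1 (by rw [h0]; exact hxup)
    refine lt_of_le_of_ne h3 fun e => ?_
    have h4 := (order_bar hch (u := G.up v) (y := G.lo v) (τ1 := τ) (τ2 := G.t u) (by omega) (by omega) h2 (by omega)
      (by omega)).2.2 (G.r_inj e).symm
    rw [hru] at h4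
    exact hu2 h4
  have hxu : G.r (G.lo v) < G.r u := by
    have := hkeep (G.t u) (by omega) le_rfl
    rwa [hru] at this
  have hlo : G.lo u = G.lo v := by
    rcases hch.2.2 u hui with h1 | h1
    · rw [← h1, hu3]
    · have h2 := r_up G hui
      rw [← h1, hu3] at h2
      omega
  have hπ : lam G σ ω u = G.lo u := by rw [hu3, hlo]
  have hub : G.ub (G.lo v) (G.t u) = u := by
    have := ub_lo_t G hui
    rwa [hlo] at this
  have hub1 : G.ub (G.lo v) (G.t u + 1) = G.up u := by
    have := ub_lo G hui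
    rwa [hlo] at this
  rcases lt_trichotomy (G.t u + 1) (G.tau1 v) with hA | hC | hB
  · -- before the first long head
    exfalso
    have h1 := hshort (G.t u + 1) (by omega) hA
    rw [hub1, ← hlo] at h1
    rcases zz_cases G hui with ⟨_, _, h2⟩ | ⟨hzu, hou, _⟩
    · omega
    rcases lam_cases G σ huS with h2 | ⟨h2, h3⟩ | h2
    · have h3 := hDD u h2 huS (by rw [← lam_Dec G σ ω h2]; exact hπ) (by rw [hlo]; exact hx)
      omega
    · rw [hzu, hlo] at h3
      exact hx h3.1
    · have h3 : G.coin u = G.coin v := by rw [coin_lo G hui hzu, coin_lo G hv hz, hlo]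
      have h4 := lam_false G σ h2 (ω := ω) (by rw [h3]; exact hc)
      rw [hπ, hou] at h4
      exact lo_ne_up G hui h4
  · -- the exposure
    have hup : G.up u = G.flh v := by
      rw [← hub1, hC]
      rfl
    have hlt2 : G.t (G.lo u) < G.t (G.up u) := by
      rw [hup, hlo]
      exact hft
    refine ⟨u, hu1, huS, hlo, hup, hC, hu3, ?_⟩
    rcases zz_cases G hui with ⟨hzu, hou, _⟩ | ⟨_, _, h2⟩
    swap
    · omega
    rcases lam_cases G σ huS with h2 | ⟨h2, h3⟩ | h2
    · left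
      exact ⟨h2, u, h2, huS, by rw [← lam_Dec G σ ω h2]; exact hπ, hlo, hC, hup⟩
    · exfalso
      rw [lam_Fr G σ ω huS h2 h3, hzu] at hπ
      exact lo_ne_up G hui hπ.symm
    · right
      refine ⟨h2, by rw [hzu, hup], ?_⟩
      rw [← hup, ← coin_up G hui hzu]
      cases hcu : ω (G.coin u)
      · rfl
      · exfalso
        rw [lam_true G σ h2 hcu, hzu] at hπ
        exact lo_ne_up G hui hπ.symm
  · -- after the first long head
    exfalso
    have htau : G.tau1 v ≤ G.t u := by omega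
    have h1 : G.r (G.flh v) ≤ G.r (host G (lam G σ ω) (G.up v) (G.tau1 v)) :=
      ub_le G (host_al hch (by omega) (by omega)) (hkeep _ (by omega) htau) (by omega)
    have h2 : G.r u ≤ G.r (G.flh v) := by
      have h3 : G.r (G.lo v) < G.r (G.flh v) := by
        refine (ub_spec G (x := G.lo v) (τ := G.tau1 v) (by omega) fun e => ?_).2.1
        have h4 := r_lo G hv
        rw [e] at h4
        have h5 := G.r_top v hv.2
        omega
      have := ub_le G (x := G.lo v) (u := G.flh v) (τ := G.t u) ⟨hfal.1.trans htau, by omega⟩ h3 (by omega)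
      rwa [hub] at this
    have h6 : u = G.flh v := by
      rcases h1.lt_or_eq with h3 | h3
      · have h4 := (order_bar hch (u := G.up v) (y := G.flh v) (τ1 := G.tau1 v) (τ2 := G.t u) (by omega) hfal.1 htau
          (by omega) (by omega)).2.1 h3
        rw [hru] at h4
        exact G.r_inj (le_antisymm h2 h4)
      · have h4 := (order_bar hch (u := G.up v) (y := G.flh v) (τ1 := G.tau1 v) (τ2 := G.t u) (by omega) hfal.1 htau
          (by omega) (by omega)).2.2 (G.r_inj h3).symm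
        rw [hru] at h4
        exact h4
    rw [h6] at htx
    omega

/-- (D2): if the first long head is in `S`, a vertex which is reached by `lo v` and by the other branch without `lo v` is in
`S`. -/
theorem det2 (hI : Inv G σ) {v : V} (hS : v ∉ σ.S) (hx : G.lo v ∉ σ.S) (hf : G.flh v ∈ σ.S)
    {ω ω1 : V × Bool → Bool} {w : V} (h1 : Orb (lam G σ ω) (G.up v) w) (h2 : ¬ Orb (lam G σ ω) (G.up v) (G.lo v))
    (h3 : Orb (lam G σ ω1) (G.lo v) w) : w ∈ σ.S := by
  by_contra hw
  have hv : G.inn v := inn_of hI hS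
  have hxi : G.inn (G.lo v) := inn_of hI hx
  have hwi : G.inn w := inn_of hI hw
  have hch := ch_lam hI ω
  have hch1 := ch_lam hI ω1
  obtain ⟨hlt, htau, hft, hfal, _, _⟩ := tau1_spec G hv hxi
  have hne : w ≠ G.lo v := fun e => h2 (e ▸ h1)
  have htw : G.t (G.lo v) < G.t w := lt_of_le_of_ne (orb_t hch1 h3) fun e => hne (G.t_inj e.symm)
  have hN : G.t w ≤ G.N := (tN hwi).le
  have htv : G.t v < G.t (G.up v) := t_up G hv
  have hbu : G.b (G.up v) ≤ G.t v + 1 := (al_up G hv).2.1
  have hbx : G.b (G.lo v) ≤ G.t v + 1 := (al_lo G hv).2.1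
  have h0 : host G (lam G σ ω) (G.up v) (G.t v + 1) = G.up v := host_self hch (by omega)
  have hxup : G.r (G.lo v) < G.r (G.up v) := (r_lo G hv).trans (r_up G hv)
  have hkeep : G.r (G.lo v) < G.r (host G (lam G σ ω) (G.up v) (G.tau1 v)) := by
    have h4 := (order_bar hch (u := G.up v) (y := G.lo v) (τ1 := G.t v + 1) (τ2 := G.tau1 v) hbu hbx (by omega)
      (by omega) (by omega)).2.1 (by rw [h0]; exact hxup)
    refine lt_of_le_of_ne h4 fun e => h2 ?_
    have h5 := host_orb G (lam G σ ω) (G.up v) (G.tau1 v)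
    rwa [← G.r_inj e] at h5
  have hfl : G.r (G.flh v) ≤ G.r (host G (lam G σ ω) (G.up v) (G.tau1 v)) :=
    ub_le G (host_al hch (by omega) (by omega)) hkeep (by omega)
  have hxf : G.r (G.lo v) < G.r (G.flh v) := by
    refine (ub_spec G (x := G.lo v) (τ := G.tau1 v) (by omega) fun e => ?_).2.1
    have h4 := r_lo G hv
    rw [e] at h4
    have h5 := G.r_top v hv.2
    omega
  have hX0 : host G (lam G σ ω1) (G.lo v) (G.tau1 v) = G.lo v := host_self hch1 htau
  have hE0 : host G σ.pi (G.flh v) (G.tau1 v) = G.flh v := host_self hI.ch hfal.2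
  have hXw : host G (lam G σ ω1) (G.lo v) (G.t w) = w := host_t hch1 h3 hwi
  have hRw : host G (lam G σ ω) (G.up v) (G.t w) = w := host_t hch h1 hwi
  have hES : ∀ τ, host G σ.pi (G.flh v) τ ∈ σ.S := fun τ => orb_cl hI.cl (host_orb G _ _ _) hf
  rcases le_total (G.r (host G σ.pi (G.flh v) (G.t w))) (G.r w) with h4 | h4
  · obtain ⟨τ, h5, h6, h7⟩ := order hch1 hI.ch (u := G.lo v) (v := G.flh v) (τ1 := G.tau1 v) (τ2 := G.t w)
      (by omega) hfal.1 (by omega) hN (by rw [hX0, hE0]; exact hxf) (by rw [hXw]; exact h4)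
    have h8 : host G (lam G σ ω1) (G.lo v) τ ∈ σ.S := h7 ▸ hES τ
    have h9 : host G (lam G σ ω1) (host G (lam G σ ω1) (G.lo v) τ) (G.t w) ∈ σ.S :=
      orb_cl (lam_cl hI ω1) (host_orb G _ _ _) h8
    rw [host_add hch1 (by omega) h6 hN, hXw] at h9
    exact hw h9
  · have hmeet : ∃ τ, G.tau1 v ≤ τ ∧ τ ≤ G.t w ∧ host G (lam G σ ω) (G.up v) τ ∈ σ.S := by
      rcases hfl.lt_or_eq with h5 | h5
      · obtain ⟨τ, h6, h7, h8⟩ := order hI.ch hch (u := G.flh v) (v := G.up v) (τ1 := G.tau1 v) (τ2 := G.t w)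
          hfal.1 (by omega) (by omega) hN (by rw [hE0]; exact h5) (by rw [hRw]; exact h4)
        exact ⟨τ, h6.le, h7, h8 ▸ hES τ⟩
      · exact ⟨G.tau1 v, le_rfl, by omega, (G.r_inj h5) ▸ hf⟩
    obtain ⟨τ, h5, h6, h7⟩ := hmeet
    have h9 : host G (lam G σ ω) (host G (lam G σ ω) (G.up v) τ) (G.t w) ∈ σ.S :=
      orb_cl (lam_cl hI ω) (host_orb G _ _ _) h7
    rw [host_add hch (by omega) h6 hN, hRw] at h9
    exact hw h9

end Pool.Agent.W_a4f561_E
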