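import Pool.Agent.W_a4f561_E.Ad8

/-!
MP_a4f561_co: from a twist bound for bars with at most `M` vertices to drawings with `M - 4` vertices.
-/

set_option autoImplicit false

namespace Pool.Agent.W_a4f561_E

open Sum Pool.Agent.W_a4f561_h25 Pool.Agent.W_a4f561_h26 Pool.Agent.W_a4f561_h73

/-- Every bars structure with at most `M` vertices has an order `σ` that agrees with the bars on visible pairs, all of
whose twists have at most `K` edges. -/
def BT (M K : ℕ) : Prop :=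
  ∀ (V : Type) [Fintype V] [DecidableEq V] (G : Bars V), G.N + 7 = 4 * Fintype.card V → Fintype.card V ≤ M →
    ∃ σ : V → ℕ, Function.Injective σ ∧ (∀ x y, G.vis x y → σ x < σ y) ∧
      ∀ T : Finset (V × V), (∀ e ∈ T, G.vis e.1 e.2) →
        (∀ e ∈ T, ∀ e' ∈ T, e ≠ e' →
          (σ e.1 < σ e'.1 ∧ σ e'.1 < σ e.2 ∧ σ e.2 < σ e'.2) ∨
          (σ e'.1 < σ e.1 ∧ σ e.1 < σ e'.2 ∧ σ e'.2 < σ e.2)) → T.card ≤ K

/-- From bars to planar st-structures. -/
theorem pl_of_BT {M K : ℕ} (hK : BT M K) {V E : Type} [Fintype V] [Fintype E] (P : Pl V E)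
    (hM : Fintype.card V + 2 ≤ M) :
    ∃ ρ : V → V → Prop, (∀ x, ¬ ρ x x) ∧ (∀ x y z, ρ x y → ρ y z → ρ x z) ∧ (∀ x y, x ≠ y → ρ x y ∨ ρ y x) ∧
      (∀ e, ρ (P.tl e) (P.hd e)) ∧
      ∀ F : Finset (V × V), (∀ e ∈ F, ∃ f, e = (P.tl f, P.hd f)) →
        IsTwist Prod.fst Prod.snd ρ F → F.card ≤ K := by
  classical
  obtain ⟨b, t, T, h1, h2, h3, h4, h5, h6, h7, h8⟩ := exists_bars P
  have : IsStrictTotalOrder V (fun x y => P.lo (inl x) (inl y)) :=
    { trichotomous := by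
        intro x y hxy hyx
        by_contra hne
        rcases P.lo_tot (inl x) (inl y) (fun h => hne (Sum.inl_injective h)) with h | h
        · exact hxy h
        · exact hyx h
      irrefl := fun x => P.lo_irr _
      trans := fun x y z => P.lo_tr _ _ _ }
  let _ : LinearOrder V := linearOrderOfSTO (fun x y => P.lo (inl x) (inl y))
  have hlt : ∀ x y : V, x < y ↔ P.lo (inl x) (inl y) := fun x y => Iff.rfl
  have hcard : Fintype.card (V ⊕ Bool) = Fintype.card V + 2 := by simp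
  obtain ⟨σ, r1, r2, r3⟩ := hK (V ⊕ Bool) (mkBars b t h1 h2 h3 h4) (by
    rw [hcard]
    show 4 * Fintype.card V + 1 + 7 = _
    ring) (by rw [hcard]; exact hM)
  have hc : ∀ e, (mkBars b t h1 h2 h3 h4).vis (inl (P.tl e)) (inl (P.hd e)) := by
    intro e
    refine mkBars_vis h1 h2 h3 h4 (h5 e)
      ⟨(hlt _ _).2 (P.lo_tr _ _ _ (P.tl_lo e) (P.hd_lo e)), h6 e, h7 e, ?_⟩
    intro z hz1 hz2 hz3 hz4
    exact h8 e z ((hlt _ _).1 hz1) ((hlt _ _).1 hz2) hz3 hz4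
  refine ⟨fun x y => σ (inl x) < σ (inl y), fun x => lt_irrefl _, fun x y z => lt_trans,
    fun x y hxy => lt_or_gt_of_ne fun h => hxy (Sum.inl_injective (r1 h)), fun e => r2 _ _ (hc e), ?_⟩
  intro F hF hT
  have hinj : Function.Injective (fun e : V × V => ((inl e.1 : V ⊕ Bool), (inl e.2 : V ⊕ Bool))) := by
    intro e e' hh
    simp only [Prod.mk.injEq] at hh
    exact Prod.ext (Sum.inl_injective hh.1) (Sum.inl_injective hh.2)
  have h9 := r3 (F.map ⟨_, hinj⟩) (by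
    intro e he
    obtain ⟨g, hg, rfl⟩ := Finset.mem_map.1 he
    obtain ⟨f, rfl⟩ := hF g hg
    exact hc f) (by
    intro e he e' he' hne
    obtain ⟨g, hg, rfl⟩ := Finset.mem_map.1 he
    obtain ⟨g', hg', rfl⟩ := Finset.mem_map.1 he'
    exact hT g hg g' hg' (fun hh => hne (by rw [hh])))
  rwa [Finset.card_map] at h9

/-- From planar st-structures to drawings and pages. -/
theorem pages_of_BT {M K : ℕ} (hK0 : 0 < K) (hK : BT M K) (n : ℕ) (hM : n + 4 ≤ M) (G : Digraph (Fin n))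
    (f : Fin n → ℝ × ℝ)
    (hf : Function.Injective f) (γ : Fin n → Fin n → ℝ → ℝ × ℝ)
    (h1 : ∀ u v, G.Adj u v →
      ContinuousOn (γ u v) (Set.Icc (0:ℝ) 1) ∧
      γ u v 0 = f u ∧ γ u v 1 = f v ∧
      StrictMonoOn (fun t => (γ u v t).2) (Set.Icc (0:ℝ) 1) ∧
      (∀ w, ∀ s ∈ Set.Ioo (0:ℝ) 1, γ u v s ≠ f w))
    (h2 : ∀ u v u' v', G.Adj u v → G.Adj u' v' → (u, v) ≠ (u', v') →
      ∀ s ∈ Set.Ioo (0:ℝ) 1, ∀ t ∈ Set.Icc (0:ℝ) 1, γ u v s ≠ γ u' v' t) :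
    ∃ (σ : Fin n ≃ Fin n) (p : Fin n → Fin n → Fin ((Nat.log 2 n + 1) * K)),
      (∀ u v, G.Adj u v → σ u < σ v) ∧
      (∀ a b c d, G.Adj a b → G.Adj c d → p a b = p c d → ¬ (σ a < σ c ∧ σ c < σ b ∧ σ b < σ d)) := by
  classical
  obtain ⟨D, _⟩ := exists_drw_y f hf γ h1 h2
  obtain ⟨V2, E, iV, iE, P, i, j, hi, hj, hc⟩ := goalB (Fin n) G.Adj D
  rw [Fintype.card_fin] at hc
  obtain ⟨ρ, r1, r2, r3, r4, r5⟩ := pl_of_BT hK P (by omega)
  obtain ⟨σ, hσ⟩ := exists_perm (fun a b => ρ (i a) (i b)) (fun a => r1 _)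
    (fun a b c => r2 _ _ _) (fun a b hab => r3 _ _ (fun h => hab (hi h)))
  have s1 : ∀ u v, G.Adj u v → σ u < σ v := by
    intro u v huv
    rw [hσ]
    have h3 := r4 (j ⟨(u, v), huv⟩)
    rw [(hj ⟨(u, v), huv⟩).1, (hj ⟨(u, v), huv⟩).2] at h3
    exact h3
  have s2 : ∀ F : Finset (Fin n × Fin n), (∀ e ∈ F, G.Adj e.1 e.2) →
        IsTwist Prod.fst Prod.snd (fun x y => σ x < σ y) F → F.card ≤ K := by
    intro F hF hT
    have hinj : Function.Injective (fun e : Fin n × Fin n => (i e.1, i e.2)) := by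
      intro e e' h
      simp only [Prod.mk.injEq] at h
      exact Prod.ext (hi h.1) (hi h.2)
    have h3 := r5 (F.map ⟨_, hinj⟩) (by
      intro e he
      obtain ⟨g, hg, rfl⟩ := Finset.mem_map.1 he
      refine ⟨j ⟨g, hF g hg⟩, ?_⟩
      rw [(hj ⟨g, hF g hg⟩).1, (hj ⟨g, hF g hg⟩).2]
      rfl) (by
      intro e he e' he' hne
      obtain ⟨g, hg, rfl⟩ := Finset.mem_map.1 he
      obtain ⟨g', hg', rfl⟩ := Finset.mem_map.1 he'
      have hgg : g ≠ g' := fun h => hne (by rw [h])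
      have h4 := hT g hg g' hg' hgg
      simp only [hσ] at h4
      exact h4)
    rwa [Finset.card_map] at h3
  obtain ⟨p, hp⟩ := pages_of_twist hK0 σ G.Adj s1 s2
  exact ⟨σ, p, s1, hp⟩

end Pool.Agent.W_a4f561_E
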