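import Pool.Agent.W_a4f561_E.Pk25

/-!
MP_a4f561_co, the n^eps theorem, pockets: (P0), (P2), (P3), (P6) in the vocabulary of Pk25 (helper33).
-/

set_option autoImplicit false

namespace Pool.Agent.W_a4f561_E.Pk25

variable {V : Type} [LinearOrder V] {b t : V → ℕ}

/-- Two host paths which cross meet. -/
theorem meet33 (ht : Function.Injective t) {Q R : ℕ → V} {a c : ℕ} (hQ : Hp b t Q a c) (hR : Hp b t R a c)
    (hac : a ≤ c) (h : R a ≤ Q a) (h' : Q c ≤ R c) : ∃ τ, a ≤ τ ∧ τ ≤ c ∧ R τ = Q τ := by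
  by_contra hc
  push Not at hc
  have h1 : R a < Q a := lt_of_le_of_ne h (hc a le_rfl hac)
  exact absurd (keep_lt ht hQ hR hc h1 c hac le_rfl) (not_lt.2 h')

/-- The dual order. -/
theorem Up.dual33 {τ : ℕ} {x y : V} (h : Up b t τ x y) : Up (V := Vᵒᵈ) b t τ y x :=
  ⟨h.lt, h.ay, h.ax, fun z h1 h2 h3 => h.no z h1 h3 h2⟩

theorem Hp.dual33 {Q : ℕ → V} {a c : ℕ} (h : Hp b t Q a c) : Hp (V := Vᵒᵈ) b t Q a c :=
  ⟨h.al, fun τ h1 h2 => (h.st τ h1 h2).imp id fun h3 =>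
    ⟨h3.1, h3.2.elim (fun h4 => Or.inr h4.dual33) (fun h4 => Or.inl h4.dual33)⟩⟩

/-- (P3), one side: the barrier outlives the lower neighbour of a pocket vertex. -/
theorem lo_lt33 (ht : Function.Injective t) {Q : ℕ → V} {y u x : V} {θ c : ℕ} (hQ : Hp b t Q θ c)
    (h2 : Up b t c (Q c) y) (hl : t (Q c) < t y) (hθ : θ ≤ c) (hu : Q θ < u) (huy : u < y)
    (hx : Up b t θ x u) : t x < t y := by
  have hQx : Q θ ≤ x := by
    by_contra hc
    exact hx.no (Q θ) (hQ.al θ le_rfl hθ) (not_le.1 hc) hu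
  rcases Nat.lt_or_ge (t x) c with h3 | h3
  · exact h3.trans_le h2.ay.2
  · have hxc : Al b t c x := ⟨hx.ax.1.trans hθ, h3⟩
    have h6 : x ≤ Q c := by
      by_contra hd
      exact h2.no x hxc (not_le.1 hd) (hx.lt.trans huy)
    obtain ⟨σ, h7, h8, h9⟩ := meet33 ht (Hp.const (y := x) hx.ax hxc) hQ hθ hQx h6
    have h9' : Q σ = x := h9
    have h10 := hQ.sit h7 h8 le_rfl (by rw [h9']; exact h3)
    have h11 : Q c = x := h10.trans h9'
    rw [← h11]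
    exact hl

/-- (P3), the mirror. -/
theorem up_lt33 (ht : Function.Injective t) {Q : ℕ → V} {y u x : V} {θ c : ℕ} (hQ : Hp b t Q θ c)
    (h2 : Up b t c y (Q c)) (hl : t (Q c) < t y) (hθ : θ ≤ c) (hu : u < Q θ) (huy : y < u)
    (hx : Up b t θ u x) : t x < t y :=
  lo_lt33 (V := Vᵒᵈ) ht hQ.dual33 h2.dual33 hl hθ hu huy hx.dual33

/-- (P3): no vertex is declared down by a pocket under `y` and up by a pocket over `x`. -/
theorem no_conflict33 (ht : Function.Injective t) {Q Q' : ℕ → V} {x y u : V} {θ c c' : ℕ}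
    (hQ : Hp b t Q θ c) (hQ' : Hp b t Q' θ c') (hθ : θ ≤ c) (hθ' : θ ≤ c')
    (h2 : Up b t c (Q c) y) (hl : t (Q c) < t y)
    (h2' : Up b t c' x (Q' c')) (hl' : t (Q' c') < t x)
    (hu : Q θ < u) (hu' : u < Q' θ) (hxu : Up b t θ x u) (huy : Up b t θ u y) : False :=
  lt_asymm (lo_lt33 ht hQ h2 hl hθ hu huy.lt hxu) (up_lt33 ht hQ' h2' hl' hθ' hu' hxu.lt huy)

/-- (P0): a vertex between `Q` and `y` which is not on `Q` is born and dead inside. -/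
theorem p0_33 (ht : Function.Injective t) {Q : ℕ → V} {y u : V} {τ₁ τ₂ θ : ℕ} (hr : Rec b t Q y τ₁ τ₂)
    (h1 : τ₁ ≤ θ) (h2 : θ ≤ τ₂) (hu : Al b t θ u) (hi : Q θ < u ∧ u < y)
    (hne : ∀ σ, τ₁ ≤ σ → σ ≤ τ₂ → Q σ ≠ u) : τ₁ < b u ∧ t u < τ₂ := by
  constructor
  · by_contra hc
    rw [not_lt] at hc
    have hb : Hp b t (fun _ => u) τ₁ θ := Hp.const ⟨hc, h1.trans hu.2⟩ hu
    have h3 := back ht (hr.hp.mono le_rfl h2) hb h1 hr.u1.ay
      ⟨hr.u1.ay.1.trans h1, h2.trans hr.u2.ay.2⟩ (fun σ h4 h5 => (hne σ h4 (h5.trans h2)).symm) hi τ₁ le_rfl h1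
    exact hr.u1.no u (hb.al τ₁ le_rfl h1) h3.1 h3.2
  · by_contra hc
    rw [not_lt] at hc
    have hb : Hp b t (fun _ => u) θ τ₂ := Hp.const hu ⟨hu.1.trans h2, hc⟩
    have h3 := keep_lt ht hb (hr.hp.mono h1 le_rfl) (fun σ h4 h5 => hne σ (h1.trans h4) h5) hi.1 τ₂ h2 le_rfl
    exact hr.u2.no u (hb.al τ₂ h2 le_rfl) h3 hi.2

/-- (P2): a host path in the region which does not step on the barrier from a region vertex whose
upper neighbour is the barrier meets `Q`. -/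
theorem p2_33 (ht : Function.Injective t) {Q R : ℕ → V} {y : V} {τ₁ τ₂ τ : ℕ} (hr : Rec b t Q y τ₁ τ₂)
    (h1 : τ₁ ≤ τ) (h2 : τ ≤ τ₂) (hR : Hp b t R τ τ₂) (h : Ins Q y R τ)
    (hd : ∀ σ, τ ≤ σ → σ < τ₂ → σ = t (R σ) → Ins Q y R σ → Up b t σ (R σ) y → R (σ + 1) ≠ y) :
    ∃ σ, τ < σ ∧ σ ≤ τ₂ ∧ R σ = Q σ := by
  obtain ⟨σ, h3, h4, h5, h6⟩ := leaves ht hr h1 h2 hR h
  rcases h6 with h6 | h6
  · exact ⟨σ, h3, h4, h6⟩
  · exfalso
    have e : σ - 1 + 1 = σ := by omega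
    have h7 := h5 (σ - 1) (by omega) (by omega)
    have h8 := step_bar hR (σ := σ - 1) (by omega) (by omega) h7 (by rw [e]; exact h6)
    exact hd (σ - 1) (by omega) (by omega) h8.1 h7 h8.2 (by rw [e]; exact h6)

/-- (P6): the lower neighbour of a region vertex is the host or in the region. -/
theorem p6_33 {Q : ℕ → V} {h x y : V} {τ : ℕ} (hQ : Al b t τ (Q τ)) (hi : Q τ < h ∧ h < y)
    (hx : Up b t τ x h) : x = Q τ ∨ (Q τ < x ∧ x < y) := by
  have hQx : Q τ ≤ x := by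
    by_contra hc
    exact hx.no (Q τ) hQ (not_le.1 hc) hi.1
  rcases hQx.lt_or_eq with h6 | h6
  · exact Or.inr ⟨h6, hx.lt.trans hi.2⟩
  · exact Or.inl h6.symm

/-- (P6) for a pocket over the barrier `y`: the lower neighbour is the barrier or in the region. -/
theorem p6'_33 {Q : ℕ → V} {h x y : V} {τ : ℕ} (hy : Al b t τ y) (hi : y < h ∧ h < Q τ)
    (hx : Up b t τ x h) : x = y ∨ (y < x ∧ x < Q τ) := by
  have hQx : y ≤ x := by
    by_contra hc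
    exact hx.no y hy (not_le.1 hc) hi.1
  rcases hQx.lt_or_eq with h6 | h6
  · exact Or.inr ⟨h6, hx.lt.trans hi.2⟩
  · exact Or.inl h6.symm

end Pool.Agent.W_a4f561_E.Pk25
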