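import Pool.Agent.W_a4f561_E.Hst25
import Pool.Agent.W_a4f561_E.Nc33

/-!
MP_a4f561_co, the n^eps theorem: drawing a path. The state after the path is drawn and its pockets are declared.
-/

set_option autoImplicit false

namespace Pool.Agent.W_a4f561_h26

open Pool.Agent.W_a4f561_E.Pk25

variable {V : Type} {G : Bars V} {σ : St V}

/-! ### The forest -/

theorem zz_cases25 (G : Bars V) (v : V) : (G.zz v = G.lo v ∧ G.oo v = G.up v) ∨ (G.zz v = G.up v ∧ G.oo v = G.lo v) := by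
  unfold Bars.zz Bars.oo
  split_ifs
  · exact Or.inr ⟨rfl, rfl⟩
  · exact Or.inl ⟨rfl, rfl⟩

theorem lam_of_mem (G : Bars V) (σ : St V) (ω : V × Bool → Bool) {v : V} (h : v ∈ σ.S ∪ σ.Dec) :
    lam G σ ω v = σ.pi v := by
  unfold lam
  rw [if_pos h]

theorem lam_ch (hI : Inv G σ) (ω : V × Bool → Bool) : Ch G (lam G σ ω) := by
  refine ⟨?_, ?_, fun v hv => ?_⟩
  · rw [lam_of_mem G σ ω (Or.inl hI.bot_mem)]
    exact hI.ch.1
  · rw [lam_of_mem G σ ω (Or.inl hI.top_mem)]
    exact hI.ch.2.1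
  · by_cases h1 : v ∈ σ.S ∪ σ.Dec
    · rw [lam_of_mem G σ ω h1]
      exact hI.ch.2.2 v hv
    · unfold lam
      rw [if_neg h1]
      split_ifs
      · rcases zz_cases25 G v with h | h
        · exact Or.inl h.1
        · exact Or.inr h.1
      · rcases zz_cases25 G v with h | h
        · exact Or.inl h.1
        · exact Or.inr h.1
      · rcases zz_cases25 G v with h | h
        · exact Or.inr h.2
        · exact Or.inl h.2

theorem lo_ne_up' {v : V} (hv : G.inn v) : G.lo v ≠ G.up v := by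
  let _ := G.ord
  intro h
  have h1 := (G.up_lo hv).lt
  have h2 := (G.up_up hv).lt
  rw [h] at h1
  exact lt_irrefl _ (h2.trans h1)

theorem zz_mir25 {v : V} (hv : G.inn v) : G.mir.zz v = G.zz v := by
  have h : G.t (G.lo v) ≠ G.t (G.up v) := fun h => lo_ne_up' hv (G.t_inj h)
  unfold Bars.zz
  rw [G.mir_lo, G.mir_up]
  show (if G.t (G.up v) < G.t (G.lo v) then G.lo v else G.up v) = _
  split_ifs <;> first | rfl | omega

theorem oo_mir {v : V} (hv : G.inn v) : G.mir.oo v = G.oo v := by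
  have h : G.t (G.lo v) ≠ G.t (G.up v) := fun h => lo_ne_up' hv (G.t_inj h)
  unfold Bars.oo
  rw [G.mir_lo, G.mir_up]
  show (if G.t (G.up v) < G.t (G.lo v) then G.up v else G.lo v) = _
  split_ifs <;> first | rfl | omega

theorem r_zz_ne {v : V} (hv : G.inn v) : G.r (G.zz v) ≠ G.r v := by
  let _ := G.ord
  rcases zz_cases25 G v with h | h
  · rw [h.1]
    exact (show G.r (G.lo v) < G.r v from (G.up_lo hv).lt).ne
  · rw [h.1]
    exact (show G.r v < G.r (G.up v) from (G.up_up hv).lt).ne'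

theorem coin_mir25 {v : V} (hv : G.inn v) : G.mir.coin v = G.coin v := by
  unfold Bars.coin
  rw [zz_mir25 hv]
  have h1 : decide (G.mir.r (G.zz v) < G.mir.r v) = !decide (G.r (G.zz v) < G.r v) := by
    have h2 := r_zz_ne hv
    by_cases h3 : G.r (G.zz v) < G.r v
    · have h4 : ¬ G.mir.r (G.zz v) < G.mir.r v := by
        rw [G.mir_lt]
        omega
      simp [h3, h4]
    · have h4 : G.mir.r (G.zz v) < G.mir.r v := by
        rw [G.mir_lt]
        omega
      simp [h3, h4]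
  rw [h1]
  show (G.zz v, xor (!G.fl) (!decide (G.r (G.zz v) < G.r v))) = _
  cases G.fl <;> cases decide (G.r (G.zz v) < G.r v) <;> rfl

theorem lam_mir25 (hI : Inv G σ) (ω : V × Bool → Bool) : lam G.mir σ.mir ω = lam G σ ω := by
  funext v
  by_cases h1 : v ∈ σ.S ∪ σ.Dec
  · rw [lam_of_mem G σ ω h1, lam_of_mem G.mir σ.mir ω (v := v) h1]
    rfl
  · have hv : G.inn v := by
      constructor
      · rintro rfl
        exact h1 (Or.inl hI.bot_mem)
      · rintro rfl
        exact h1 (Or.inl hI.top_mem)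
    unfold lam
    rw [if_neg h1, if_neg (show ¬ v ∈ σ.mir.S ∪ σ.mir.Dec from h1), zz_mir25 hv, oo_mir hv, coin_mir25 hv]
    rfl

theorem IsRec.mirst {R : Rec V} (h : IsRec G σ R) : IsRec G σ.mir R :=
  ⟨h.q_mem, h.q_new, h.S_sub, h.S_cl, h.b_le, h.ac, h.cN, h.y_b, h.y_t, h.hostS, h.ta, h.tc, h.ya, h.yc, h.reg, h.dec,
    h.att⟩

theorem Inv.mir (h : Inv G σ) : Inv G.mir σ.mir where
  bot_mem := h.top_mem
  top_mem := h.bot_mem
  ch := h.ch.mir25
  cl := h.cl
  lat_sub := h.lat_sub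
  lat_bot := h.lat_top
  lat_top := h.lat_bot
  recD := fun R hR => (h.recU R hR).mirst
  recU := fun R hR => by
    rw [G.mir_mir]
    exact (h.recD R hR).mirst
  latD := h.latU
  latU := h.latD
  decl := fun u h1 h2 => by
    rw [G.mir_mir]
    exact (h.decl u h1 h2).symm

theorem St.mir_mir (σ : St V) : σ.mir.mir = σ := rfl

theorem Lt.mir {Tm : ℕ} (h : Lt G σ Tm) : Lt G.mir σ.mir Tm := h

/-! ### Records of a larger state -/

/-- Hosts of vertices of a closed set. -/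
theorem host_congr_cl {π π' : V → V} (h : Ch G π) (h' : Ch G π') {S : Set V} (hS : ∀ v ∈ S, π v ∈ S)
    (he : ∀ v ∈ S, π' v = π v) {u : V} (hu : u ∈ S) {τ : ℕ} (hτ : τ ≤ G.N) : host G π' u τ = host G π u τ := by
  refine host_congr25 h h' hτ fun v hv _ => he v ?_
  obtain ⟨k, rfl⟩ := hv
  have : ∀ j, π^[j] u ∈ S := by
    intro j
    induction j with
    | zero => exact hu
    | succ j ih =>
      rw [Function.iterate_succ_apply']
      exact hS _ ih
  exact this k

/-- A record stays a record in a larger state. -/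
theorem IsRec.mono {σ' : St V} {R : Rec V} (h : IsRec G σ R) (hch : Ch G σ.pi) (hch' : Ch G σ'.pi)
    (hcl : ∀ v ∈ σ.S, σ.pi v ∈ σ.S) (hS : σ.S ⊆ σ'.S) (hD : σ.Dec ⊆ σ'.Dec)
    (hpi : ∀ v ∈ σ.S ∪ σ.Dec, σ'.pi v = σ.pi v) : IsRec G σ' R := by
  have hh : ∀ τ, τ ≤ G.N → host G σ'.pi R.q τ = host G σ.pi R.q τ := fun τ hτ =>
    host_congr_cl hch hch' hcl (fun v hv => hpi v (Or.inl hv)) h.q_mem hτ
  exact
  { q_mem := hS h.q_mem
    q_new := h.q_new
    S_sub := h.S_sub.trans hS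
    S_cl := fun v hv => by
      rw [hpi v (Or.inl (h.S_sub hv))]
      exact h.S_cl v hv
    b_le := h.b_le
    ac := h.ac
    cN := h.cN
    y_b := h.y_b
    y_t := h.y_t
    hostS := fun τ h1 h2 => by
      rw [hh τ (h2.trans h.cN)]
      exact h.hostS τ h1 h2
    ta := by
      rw [hh _ (h.ac.trans h.cN)]
      exact h.ta
    tc := by
      rw [hh _ h.cN]
      exact h.tc
    ya := by
      rw [hh _ (h.ac.trans h.cN)]
      exact h.ya
    yc := by
      rw [hh _ h.cN]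
      exact h.yc
    reg := fun u hu τ h1 h2 h3 h4 => by
      rw [hh τ (h2.trans h.cN)] at h4
      exact h.reg u hu τ h1 h2 h3 h4
    dec := fun u h0 h1 h2 h3 h4 => by
      rw [hh _ (h2.le.trans h.cN)] at h3
      obtain ⟨h5, h6⟩ := h.dec u h0 h1 h2 h3 h4
      refine ⟨?_, by rw [hpi u h5]; exact h6⟩
      rcases h5 with h5 | h5
      · exact Or.inl (hS h5)
      · exact Or.inr (hD h5)
    att := fun h1 v hv h2 => by
      rw [hpi v (Or.inl (h.S_sub hv))] at h2
      exact h.att h1 v hv h2 }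

theorem DecBy.mono {σ' : St V} {R : Rec V} {u : V} (h : DecBy G σ R u) (hR : IsRec G σ R) (hch : Ch G σ.pi)
    (hch' : Ch G σ'.pi) (hcl : ∀ v ∈ σ.S, σ.pi v ∈ σ.S) (hpi : ∀ v ∈ σ.S, σ'.pi v = σ.pi v)
    (hu : σ'.pi u = σ.pi u) : DecBy G σ' R u := by
  refine ⟨h.1, h.2.1, ?_, h.2.2.2.1, by rw [hu]; exact h.2.2.2.2⟩
  rw [host_congr_cl hch hch' hcl hpi hR.q_mem (h.2.1.le.trans hR.cN)]
  exact h.2.2.1

/-! ### The new path -/

/-- What is used of the context. -/
structure Cx (G : Bars V) (σ : St V) (ω : V × Bool → Bool) (z : V) (Tm : ℕ) : Prop where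
  inv : Inv G σ
  lt : Lt G σ Tm
  zS : z ∉ σ.S
  tm : ∀ v, OnB G σ ω z v → G.t v < Tm

variable {ω : V × Bool → Bool} {z : V} {Tm : ℕ}

theorem Cx.mir (h : Cx G σ ω z Tm) : Cx G.mir σ.mir ω z Tm where
  inv := h.inv.mir
  lt := h.lt
  zS := h.zS
  tm := fun v hv => h.tm v (by
    have := hv
    unfold OnB at this
    rw [lam_mir25 h.inv] at this
    exact this)

theorem Cx.ch (h : Cx G σ ω z Tm) : Ch G (lam G σ ω) := lam_ch h.inv ω

theorem Cx.cl (h : Cx G σ ω z Tm) {v : V} (hv : v ∈ σ.S) : lam G σ ω v ∈ σ.S := by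
  rw [lam_of_mem G σ ω (Or.inl hv)]
  exact h.inv.cl v hv

/-- Before a touch the hosts are outside `S`. -/
theorem Tch.hostS (h : Cx G σ ω z Tm) {y : V} {c τ : ℕ} (hc : Tch G σ ω z y c) (hτ : τ ≤ c) :
    host G (lam G σ ω) z τ ∉ σ.S := by
  intro h1
  have h2 := host_mem h.ch (fun v hv => h.cl hv) h1 (τ := c) hc.2.1
  rw [host_host h.ch hτ hc.2.1] at h2
  exact hc.2.2.1 h2

theorem Tch.lt_Tm (h : Cx G σ ω z Tm) {y : V} {c : ℕ} (hc : Tch G σ ω z y c) : c < Tm := by
  have h1 := h.tm _ ⟨host_orb25 h.ch z hc.2.1, hc.2.2.1⟩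
  exact (host_al25 h.ch hc.2.1 hc.1).2.trans_lt h1

theorem Tch.up (h : Cx G σ ω z Tm) {y : V} {c : ℕ} (hc : Tch G σ ω z y c) :
    @Up V G.ord G.b G.t c (host G (lam G σ ω) z c) y := by
  refine G.up_of_ub ?_ hc.2.1 (host_al25 h.ch hc.2.1 hc.1) hc.2.2.2.1
  intro e
  have := hc.2.2.1
  rw [e] at this
  exact this h.inv.top_mem

/-- (P1) for the new path. -/
theorem reg_new (h : Cx G σ ω z Tm) {y : V} {a c τ : ℕ} (hy : y ∉ σ.S \ σ.Lat) (ha : Tch G σ ω z y a)
    (hc : Tch G σ ω z y c) (h1 : a ≤ τ) (h2 : τ ≤ c) {u : V} (hu : u ∈ σ.S) (hal : G.al u τ)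
    (hr : G.r (host G (lam G σ ω) z τ) < G.r u) : G.r y ≤ G.r u := by
  let _ := G.ord
  by_contra hcon
  rw [not_le] at hcon
  rcases (h1.trans h2).eq_or_lt with h3 | h3
  · have e : τ = a := by omega
    subst e
    exact (ha.up h).no u hal hr hcon
  · have hrec : Pool.Agent.W_a4f561_E.Pk25.Rec G.b G.t (host G (lam G σ ω) z) y a c :=
      ⟨h3, host_hp h.ch ha.1 hc.2.1, ha.up h, hc.up h⟩
    have hus : host G σ.pi u τ = u := host_self25 h.inv.ch (h2.trans hc.2.1) hal.2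
    refine p1 G.t_inj (R := host G σ.pi u) hrec h1 h2 (host_hp h.inv.ch hal.1 hc.2.1) ?_ ?_ ?_
    · exact ⟨by rw [hus]; exact hr, by rw [hus]; exact hcon⟩
    · intro s h4 h5 h6
      have h7 := host_mem h.inv.ch (fun v hv => h.inv.cl v hv) hu (h5.trans hc.2.1)
      rw [h6] at h7
      exact hc.hostS h h5 h7
    · intro s h4 h5 h6 h7
      have hsN : s < G.N := lt_of_lt_of_le h5 hc.2.1
      have h8 := host_mem h.inv.ch (fun v hv => h.inv.cl v hv) hu (τ := s + 1) (by omega)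
      rw [h7] at h8
      have hyL : y ∈ σ.Lat := by
        by_contra h9
        exact hy ⟨h8, h9⟩
      rcases host_succ h.inv.ch (u := u) hsN with h9 | ⟨h9, h10, h11⟩
      · rw [h9.2] at h7
        exact absurd h7 h6.2.ne
      · rw [h7] at h10
        have h12 := h.lt (host G σ.pi u s) (host_mem h.inv.ch (fun v hv => h.inv.cl v hv) hu hsN.le)
          (by rw [← h10]; exact hyL)
        have h13 := hc.lt_Tm h
        omega

/-- (P3): declared vertices in the region of the new path are declared down. -/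
theorem dec_new (h : Cx G σ ω z Tm) {y : V} {c : ℕ} (hc : Tch G σ ω z y c) {u : V} (hin : G.inn u)
    (hu : u ∈ σ.Dec) (huS : u ∉ σ.S) (hb : G.b z ≤ G.t u) (h1 : G.t u < c)
    (hr : G.r (host G (lam G σ ω) z (G.t u)) < G.r u) (hup : G.up u = y) : σ.pi u = G.lo u := by
  let _ := G.ord
  rcases h.inv.decl u hu huS with ⟨R, hR, hd⟩ | ⟨R, hR, hd⟩
  · exact hd.2.2.2.2
  · exfalso
    have hI := h.inv.recU R hR
    have hch' : Ch G σ.pi := h.inv.ch
    have hN : R.c ≤ G.N := hI.cN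
    have hb' : G.b R.q ≤ G.t u := le_trans hI.b_le hd.1.le
    have hlast : host G σ.pi R.q R.c ≠ G.bot := by
      intro e
      have h5 : G.bot ∈ R.S ∨ G.bot ∉ R.S := Classical.em _
      have h6 := hI.yc
      rw [mir_host, e] at h6
      have h7 : G.t G.bot < G.t R.y := h6
      have h8 := hI.tc
      rw [mir_host, e] at h8
      -- `R.y` is above `bot` in the mirror: impossible
      have h9 : G.t R.y ≤ G.N + 2 := by
        by_cases k1 : R.y = G.bot
        · rw [k1]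
          exact G.t_bot'
        · by_cases k2 : R.y = G.top
          · rw [k2]
            exact G.t_top'
          · have := G.t_in R.y k1 k2
            omega
      have hya : G.al R.y R.c := ⟨le_trans hI.y_b hI.ac, le_of_lt hI.y_t⟩
      -- at the death of `u`: `R.y = lo u` is below `u` and `u` is below the host
      have k3 : G.lo u = R.y := hd.2.2.2.1
      have k4 := G.up_lo hin
      rw [k3] at k4
      -- host path from `t u` to `R.c` is above `R.y`, as it never is on `R.y`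
      have k5 : G.r u < G.r (host G σ.pi R.q (G.t u)) := (G.mir_lt).1 hd.2.2.1
      have k6 : @Hp V G.ord G.b G.t (host G σ.pi R.q) (G.t u) R.c := host_hp hch' hb' hN
      have k7 : ∀ τ, G.t u ≤ τ → τ ≤ R.c → host G σ.pi R.q τ ≠ R.y := by
        intro τ l1 l2 l3
        have l4 := k6.sit l1 l2 le_rfl (by rw [l3]; exact hya.2)
        rw [l3] at l4
        have l5 := hI.yc
        rw [mir_host, l4] at l5
        exact lt_irrefl _ l5
      have k8 := (side_iff G.t_inj k6 k4.ax hya k7 le_rfl hd.2.1.le hd.2.1.le le_rfl).not.1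
        (not_lt.2 (k4.lt.trans k5).le)
      rw [e] at k8
      have k9 : G.r G.bot < G.r R.y := by
        refine G.r_bot _ ?_
        rintro e'
        exact k7 R.c hd.2.1.le le_rfl (by rw [e, e'])
      exact k8 k9
    have hQ' : @Hp V G.ord G.b G.t (host G σ.pi R.q) (G.t u) R.c := host_hp hch' hb' hN
    have hQ : @Hp V G.ord G.b G.t (host G (lam G σ ω) z) (G.t u) c := host_hp h.ch hb hc.2.1
    have h2' : @Up V G.ord G.b G.t R.c R.y (host G σ.pi R.q R.c) := by
      have h5 := hI.tc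
      rw [mir_host] at h5
      exact G.up_of_lb hlast hN (hQ'.al _ hd.2.1.le le_rfl) h5
    have hxu := G.up_lo hin
    have huy := G.up_up hin
    rw [hup] at huy
    have k3 : G.lo u = R.y := hd.2.2.2.1
    rw [k3] at hxu
    exact no_conflict33 G.t_inj hQ hQ' h1.le hd.2.1.le (hc.up h) hc.2.2.2.2 h2' hI.yc hr
      ((G.mir_lt).1 hd.2.2.1) hxu huy

/-- Newly declared vertices (pockets above the path). -/
def NewD (G : Bars V) (σ : St V) (ω : V × Bool → Bool) (z : V) (u : V) : Prop :=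
  G.inn u ∧ u ∉ σ.S ∧ u ∉ σ.Dec ∧ ¬ OnB G σ ω z u ∧ ∃ a c, G.up u ∉ σ.S \ σ.Lat ∧ Tch G σ ω z (G.up u) a ∧
    Tch G σ ω z (G.up u) c ∧ a ≤ G.t u ∧ G.t u < c ∧ G.r (host G (lam G σ ω) z (G.t u)) < G.r u

/-- A new record is a record of every state with these properties. -/
theorem rec_new (h : Cx G σ ω z Tm) {σ' : St V} (hch : Ch G σ'.pi) (hS : σ'.S = σ.S ∪ {v | OnB G σ ω z v})
    (hD : σ.Dec ⊆ σ'.Dec) (hpi : ∀ v ∈ σ.S ∪ σ.Dec, σ'.pi v = σ.pi v)
    (hB : ∀ v, OnB G σ ω z v → σ'.pi v = lam G σ ω v) (hN : ∀ u, NewD G σ ω z u → u ∈ σ'.Dec ∧ σ'.pi u = G.lo u)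
    {y : V} {a c : ℕ} (hac : a ≤ c) (hy : y ∉ σ.S \ σ.Lat) (ha : Tch G σ ω z y a) (hc : Tch G σ ω z y c) :
    IsRec G σ' ⟨z, y, a, c, σ.S⟩ := by
  have hor : ∀ v, Orb (lam G σ ω) z v → σ'.pi v = lam G σ ω v := by
    intro v hv
    by_cases h1 : v ∈ σ.S
    · rw [hpi v (Or.inl h1), lam_of_mem G σ ω (Or.inl h1)]
    · exact hB v ⟨hv, h1⟩
  have hh : ∀ τ, τ ≤ G.N → host G σ'.pi z τ = host G (lam G σ ω) z τ := fun τ hτ =>
    host_congr25 h.ch hch hτ fun v hv _ => hor v hv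
  have hcN : c ≤ G.N := hc.2.1
  have haN : a ≤ G.N := ha.2.1
  exact
  { q_mem := by
      rw [hS]
      exact Or.inr ⟨Orb.refl _ _, h.zS⟩
    q_new := h.zS
    S_sub := by
      rw [hS]
      exact Set.subset_union_left
    S_cl := fun v hv => by
      rw [hpi v (Or.inl hv)]
      exact h.inv.cl v hv
    b_le := ha.1
    ac := hac
    cN := hcN
    y_b := (@Up.ay V G.ord G.b G.t _ _ _ (ha.up h)).1
    y_t := lt_of_le_of_lt (host_al25 h.ch hcN hc.1).2 hc.2.2.2.2
    hostS := fun τ _ h2 => by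
      show host G σ'.pi z τ ∉ σ.S
      rw [hh τ (h2.trans hcN)]
      exact hc.hostS h h2
    ta := by
      show G.ub (host G σ'.pi z a) a = y
      rw [hh a haN]
      exact ha.2.2.2.1
    tc := by
      show G.ub (host G σ'.pi z c) c = y
      rw [hh c hcN]
      exact hc.2.2.2.1
    ya := by
      show G.t (host G σ'.pi z a) < G.t y
      rw [hh a haN]
      exact ha.2.2.2.2
    yc := by
      show G.t (host G σ'.pi z c) < G.t y
      rw [hh c hcN]
      exact hc.2.2.2.2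
    reg := fun u hu τ h1 h2 h3 h4 => by
      have h4' : G.r (host G σ'.pi z τ) < G.r u := h4
      rw [hh τ (h2.trans hcN)] at h4'
      exact reg_new h hy ha hc h1 h2 hu h3 h4'
    dec := fun u h0 h1 h2 h3 h4 => by
      have h3' : G.r (host G σ'.pi z (G.t u)) < G.r u := h3
      have h1' : a ≤ G.t u := h1
      have h2' : G.t u < c := h2
      have h4' : G.up u = y := h4
      rw [hh _ (h2'.le.trans hcN)] at h3'
      have huS : u ∉ σ.S := by
        intro h5
        have h6 := reg_new h hy ha hc h1' h2'.le h5 (G.al_t u) h3'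
        have h7 : G.r u < G.r (G.up u) := (@Up.lt V G.ord G.b G.t _ _ _ (G.up_up h0))
        rw [h4'] at h7
        omega
      by_cases h5 : u ∈ σ.Dec
      · refine ⟨Or.inr (hD h5), ?_⟩
        rw [hpi u (Or.inr h5)]
        exact dec_new h hc h0 h5 huS (ha.1.trans h1') h2' h3' h4'
      · have h6 : ¬ OnB G σ ω z u := by
          intro h7
          rw [host_of_orb h.ch h7.1 rfl (h2'.le.trans hcN)] at h3'
          exact lt_irrefl _ h3'
        have h7 := hN u ⟨h0, huS, h5, h6, a, c, by rw [h4']; exact hy, by rw [h4']; exact ha, by rw [h4']; exact hc, h1',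
          h2', h3'⟩
        exact ⟨Or.inr h7.1, h7.2⟩
    att := fun h1 v hv h2 => by
      have h1' : y ∈ σ.S := h1
      have hv' : v ∈ σ.S := hv
      have h2' : σ'.pi v = y := h2
      rw [hpi v (Or.inl hv')] at h2'
      have hyL : y ∈ σ.Lat := by
        by_contra h9
        exact hy ⟨h1', h9⟩
      exact ((hc.lt_Tm h).le).trans (h.lt v hv' (by rw [h2']; exact hyL)) }

/-- A newly declared vertex is declared by a new record. -/
theorem decBy_new (h : Cx G σ ω z Tm) {σ' : St V} (hch : Ch G σ'.pi)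
    (hpi : ∀ v ∈ σ.S ∪ σ.Dec, σ'.pi v = σ.pi v) (hB : ∀ v, OnB G σ ω z v → σ'.pi v = lam G σ ω v)
    (hN : ∀ u, NewD G σ ω z u → u ∈ σ'.Dec ∧ σ'.pi u = G.lo u) {u : V} (hu : NewD G σ ω z u) :
    ∃ y a c, a ≤ c ∧ y ∉ σ.S \ σ.Lat ∧ Tch G σ ω z y a ∧ Tch G σ ω z y c ∧ DecBy G σ' ⟨z, y, a, c, σ.S⟩ u := by
  obtain ⟨h0, h1, h2, h3, a, c, h4, h5, h6, h7, h8, h9⟩ := id hu
  have hor : ∀ v, Orb (lam G σ ω) z v → σ'.pi v = lam G σ ω v := by
    intro v hv
    by_cases h1 : v ∈ σ.S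
    · rw [hpi v (Or.inl h1), lam_of_mem G σ ω (Or.inl h1)]
    · exact hB v ⟨hv, h1⟩
  have hh : ∀ τ, τ ≤ G.N → host G σ'.pi z τ = host G (lam G σ ω) z τ := fun τ hτ =>
    host_congr25 h.ch hch hτ fun v hv _ => hor v hv
  refine ⟨G.up u, a, c, h7.trans h8.le, h4, h5, h6, ?_, h8, ?_, rfl, (hN u hu).2⟩
  · rcases h7.eq_or_lt with h10 | h10
    · exfalso
      let _ := G.ord
      have h11 := h5.up h
      rw [← h10] at h9
      have hal := G.al_t u
      rw [← h10] at hal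
      exact h11.no u hal h9 (G.up_up h0).lt
    · exact h10
  · show G.r (host G σ'.pi z (G.t u)) < G.r u
    rw [hh _ (h8.le.trans h6.2.1)]
    exact h9

/-! ### The state after drawing -/

theorem onB_mir (hI : Inv G σ) (ω : V × Bool → Bool) (z v : V) : OnB G.mir σ.mir ω z v ↔ OnB G σ ω z v := by
  unfold OnB
  rw [lam_mir25 hI]
  exact Iff.rfl

/-- The new records (pockets above the path). -/
def newR (G : Bars V) (σ : St V) (ω : V × Bool → Bool) (z : V) : Set (Rec V) :=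
  {R | R.q = z ∧ R.S = σ.S ∧ R.y ∉ σ.S \ σ.Lat ∧ Tch G σ ω z R.y R.a ∧ Tch G σ ω z R.y R.c ∧ R.a ≤ R.c}

open Classical in
/-- The new choice function. -/
noncomputable def pi1 (G : Bars V) (σ : St V) (ω : V × Bool → Bool) (z : V) (v : V) : V :=
  if v ∈ σ.S ∪ σ.Dec then σ.pi v else if OnB G σ ω z v then lam G σ ω v
    else if NewD G σ ω z v then G.lo v else if NewD G.mir σ.mir ω z v then G.up v else σ.pi v

/-- The new state. -/
noncomputable def sig1 (G : Bars V) (σ : St V) (ω : V × Bool → Bool) (z : V) : St V where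
  S := σ.S ∪ {v | OnB G σ ω z v}
  Dec := σ.Dec ∪ ({u | NewD G σ ω z u} ∪ {u | NewD G.mir σ.mir ω z u})
  Lat := σ.Lat
  pi := pi1 G σ ω z
  RD := σ.RD ∪ newR G σ ω z
  RU := σ.RU ∪ newR G.mir σ.mir ω z

theorem pi1_old {v : V} (h : v ∈ σ.S ∪ σ.Dec) : pi1 G σ ω z v = σ.pi v := by
  unfold pi1
  rw [if_pos h]

theorem pi1_onB {v : V} (h : OnB G σ ω z v) : pi1 G σ ω z v = lam G σ ω v := by
  unfold pi1
  split_ifs with h1
  · rw [lam_of_mem G σ ω h1]
  · rfl

theorem pi1_newD {u : V} (h : NewD G σ ω z u) : pi1 G σ ω z u = G.lo u := by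
  unfold pi1
  rw [if_neg (by rintro (h1 | h1); exact h.2.1 h1; exact h.2.2.1 h1), if_neg h.2.2.2.1, if_pos h]

theorem newD_excl (h : Cx G σ ω z Tm) {u : V} (h1 : NewD G σ ω z u) (h2 : NewD G.mir σ.mir ω z u) : False := by
  obtain ⟨_, _, _, _, a, c, _, _, _, _, _, h3⟩ := h1
  obtain ⟨_, _, _, _, a', c', _, _, _, _, _, h4⟩ := h2
  rw [lam_mir25 h.inv, mir_host] at h4
  have h5 := (G.mir_lt).1 h4
  have h6 : G.r u < G.r (host G (lam G σ ω) z (G.t u)) := h5
  omega

theorem pi1_newU (h : Cx G σ ω z Tm) {u : V} (hu : NewD G.mir σ.mir ω z u) : pi1 G σ ω z u = G.up u := by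
  unfold pi1
  have h1 : ¬ OnB G σ ω z u := fun h3 => hu.2.2.2.1 ((onB_mir h.inv ω z u).2 h3)
  rw [if_neg (by rintro (h3 | h3); exact hu.2.1 h3; exact hu.2.2.1 h3), if_neg h1,
    if_neg (fun h3 => newD_excl h h3 hu), if_pos hu]

theorem pi1_ch (h : Cx G σ ω z Tm) : Ch G (pi1 G σ ω z) := by
  refine ⟨?_, ?_, fun v hv => ?_⟩
  · rw [pi1_old (Or.inl h.inv.bot_mem)]
    exact h.inv.ch.1
  · rw [pi1_old (Or.inl h.inv.top_mem)]
    exact h.inv.ch.2.1
  · unfold pi1
    split_ifs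
    · exact h.inv.ch.2.2 v hv
    · exact h.ch.2.2 v hv
    · exact Or.inl rfl
    · exact Or.inr rfl
    · exact h.inv.ch.2.2 v hv

theorem sig1_le : Le σ (sig1 G σ ω z) where
  S := Set.subset_union_left
  Dec := Set.subset_union_left
  pi := fun v hv => pi1_old hv
  RD := Set.subset_union_left
  RU := Set.subset_union_left

theorem sig1_recD (h : Cx G σ ω z Tm) {R : Rec V} (hR : R ∈ newR G σ ω z) : IsRec G (sig1 G σ ω z) R := by
  obtain ⟨q, y, a, c, S⟩ := R
  obtain ⟨h1, h2, h3, h4, h5, h6⟩ := hR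
  have h1' : q = z := h1
  have h2' : S = σ.S := h2
  subst h1' h2'
  exact rec_new h (σ' := sig1 G σ ω q) (pi1_ch h) rfl Set.subset_union_left (fun _ hv => pi1_old hv)
    (fun _ hv => pi1_onB hv) (fun _ hu => ⟨Or.inr (Or.inl hu), pi1_newD hu⟩) h6 h3 h4 h5

theorem sig1_recU (h : Cx G σ ω z Tm) {R : Rec V} (hR : R ∈ newR G.mir σ.mir ω z) :
    IsRec G.mir (sig1 G σ ω z) R := by
  obtain ⟨q, y, a, c, S⟩ := R
  obtain ⟨h1, h2, h3, h4, h5, h6⟩ := hR
  have h1' : q = z := h1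
  have h2' : S = σ.S := h2
  subst h1' h2'
  refine rec_new h.mir (σ' := sig1 G σ ω q) (pi1_ch h).mir25 ?_ Set.subset_union_left
    (fun v hv => pi1_old (σ := σ) hv) (fun v hv => ?_) (fun u hu => ⟨Or.inr (Or.inr hu), ?_⟩) h6 h3 h4 h5
  · show σ.S ∪ {v | OnB G σ ω q v} = σ.S ∪ {v | OnB G.mir σ.mir ω q v}
    congr 1
    ext v
    exact (onB_mir h.inv ω q v).symm
  · rw [lam_mir25 h.inv]
    exact pi1_onB ((onB_mir h.inv ω q v).1 hv)
  · show pi1 G σ ω q u = G.mir.lo u
    rw [G.mir_lo]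
    exact pi1_newU h hu

theorem sig1_inv (h : Cx G σ ω z Tm) : Inv G (sig1 G σ ω z) where
  bot_mem := Or.inl h.inv.bot_mem
  top_mem := Or.inl h.inv.top_mem
  ch := pi1_ch h
  cl := fun v hv => by
    show pi1 G σ ω z v ∈ σ.S ∪ {v | OnB G σ ω z v}
    by_cases h1 : v ∈ σ.S
    · rw [pi1_old (Or.inl h1)]
      exact Or.inl (h.inv.cl v h1)
    · have h2 : OnB G σ ω z v := by
        rcases hv with h2 | h2
        · exact absurd h2 h1
        · exact h2
      rw [pi1_onB h2]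
      by_cases h3 : lam G σ ω v ∈ σ.S
      · exact Or.inl h3
      · exact Or.inr ⟨h2.1.step, h3⟩
  lat_sub := h.inv.lat_sub.trans Set.subset_union_left
  lat_bot := h.inv.lat_bot
  lat_top := h.inv.lat_top
  recD := fun R hR => by
    rcases hR with h1 | h1
    · exact (h.inv.recD R h1).mono h.inv.ch (pi1_ch h) h.inv.cl Set.subset_union_left Set.subset_union_left
        fun v hv => pi1_old hv
    · exact sig1_recD h h1
  recU := fun R hR => by
    rcases hR with h1 | h1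
    · exact (h.inv.recU R h1).mono h.inv.ch.mir25 (pi1_ch h).mir25 h.inv.cl Set.subset_union_left Set.subset_union_left
        fun v hv => pi1_old hv
    · exact sig1_recU h h1
  latD := fun R hR => by
    rcases hR with h1 | h1
    · exact h.inv.latD R h1
    · rw [h1.1]
      exact fun h2 => h.zS (h.inv.lat_sub h2)
  latU := fun R hR => by
    rcases hR with h1 | h1
    · exact h.inv.latU R h1
    · rw [h1.1]
      exact fun h2 => h.zS (h.inv.lat_sub h2)
  decl := fun u h1 h2 => by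
    have huS : u ∉ σ.S := fun h3 => h2 (Or.inl h3)
    rcases h1 with h1 | h1 | h1
    · rcases h.inv.decl u h1 huS with ⟨R, hR, hd⟩ | ⟨R, hR, hd⟩
      · exact Or.inl ⟨R, Or.inl hR, hd.mono (h.inv.recD R hR) h.inv.ch (pi1_ch h) h.inv.cl
          (fun v hv => pi1_old (Or.inl hv)) (pi1_old (Or.inr h1))⟩
      · exact Or.inr ⟨R, Or.inl hR, hd.mono (h.inv.recU R hR) h.inv.ch.mir25 (pi1_ch h).mir25 h.inv.cl
          (fun v hv => pi1_old (Or.inl hv)) (pi1_old (Or.inr h1))⟩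
    · obtain ⟨y, a, c, k1, k2, k3, k4, k5⟩ := decBy_new h (σ' := sig1 G σ ω z) (pi1_ch h)
        (fun v hv => pi1_old hv) (fun v hv => pi1_onB hv)
        (fun u hu => ⟨Or.inr (Or.inl hu), pi1_newD hu⟩) h1
      exact Or.inl ⟨_, Or.inr ⟨rfl, rfl, k2, k3, k4, k1⟩, k5⟩
    · obtain ⟨y, a, c, k1, k2, k3, k4, k5⟩ := decBy_new h.mir (σ' := sig1 G σ ω z) (pi1_ch h).mir25
        (fun v hv => pi1_old (σ := σ) hv) (fun v hv => by
          rw [lam_mir25 h.inv]
          exact pi1_onB ((onB_mir h.inv ω z v).1 hv))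
        (fun u hu => ⟨Or.inr (Or.inr hu), by
          rw [G.mir_lo]
          exact pi1_newU h hu⟩) h1
      exact Or.inr ⟨_, Or.inr ⟨rfl, rfl, k2, k3, k4, k1⟩, k5⟩

theorem Ctx.cx [Fintype V] [DecidableEq V] {m0 : V × Bool → Option Bool} {K : ℕ} {E : Set V}
    (h : Ctx G σ m0 ω z K Tm E) : Cx G σ ω z Tm where
  inv := h.inv
  lt := h.lt
  zS := h.zS
  tm := fun v hv => by
    obtain ⟨e, he, heS, hoe, _⟩ := h.suc
    have hch := lam_ch h.inv ω
    have hcl : ∀ j, (lam G σ ω)^[j] e ∈ σ.S := by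
      intro j
      induction j with
      | zero => exact heS
      | succ j ih =>
        rw [Function.iterate_succ_apply', lam_of_mem G σ ω (Or.inl ih)]
        exact h.inv.cl _ ih
    rcases hv.1.cmp hoe with h1 | h1
    · obtain ⟨k, hk⟩ := h1
      have hk0 : k ≠ 0 := by
        rintro rfl
        exact hv.2 (by rw [show v = e from hk]; exact heS)
      have hin : G.inn v := by
        constructor
        · rintro rfl
          exact hv.2 h.inv.bot_mem
        · rintro rfl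
          exact hv.2 h.inv.top_mem
      have h2 := hch.t_lt hin
      have h3 := hch.iter_mono v (show 1 ≤ k by omega)
      rw [hk] at h3
      exact (h2.trans_le h3).trans_le (h.tE e he)
    · obtain ⟨k, hk⟩ := h1
      exact absurd (hk ▸ hcl k) hv.2

/-- Drawing a path: the state with the path and its pockets. -/
theorem drw_of_cx (h : Cx G σ ω z Tm) : Dr G σ ω z (sig1 G σ ω z) where
  le := sig1_le
  inv := sig1_inv h
  lat := rfl
  S := rfl
  pi := fun v hv => pi1_onB hv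
  newD := fun R hR hn => by
    rcases hR with h1 | h1
    · exact absurd h1 hn
    · exact ⟨h1.1, h1.2.1, h1.2.2.1, h1.2.2.2.1, h1.2.2.2.2.1⟩
  newU := fun R hR hn => by
    rcases hR with h1 | h1
    · exact absurd h1 hn
    · exact ⟨h1.1, h1.2.1, h1.2.2.1, h1.2.2.2.1, h1.2.2.2.2.1⟩
  exD := fun y hy a c hac ha hc =>
    ⟨⟨z, y, a, c, σ.S⟩, Or.inr ⟨rfl, rfl, hy, ha, hc, hac⟩, rfl, rfl, le_rfl, le_rfl⟩
  exU := fun y hy a c hac ha hc =>
    ⟨⟨z, y, a, c, σ.S⟩, Or.inr ⟨rfl, rfl, hy, ha, hc, hac⟩, rfl, rfl, le_rfl, le_rfl⟩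

theorem drw [Fintype V] [DecidableEq V] {m0 : V × Bool → Option Bool} {K : ℕ} {E : Set V}
    (h : Ctx G σ m0 ω z K Tm E) : ∃ σ1, Dr G σ ω z σ1 := ⟨_, drw_of_cx h.cx⟩

end Pool.Agent.W_a4f561_h26
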