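import Pool.Agent.W_a4f561_h26.Bas
import Pool.Agent.W_a4f561_h33.Rnd33

/-!
MP_a4f561_co, the n^eps theorem: the root assembly. One call of EXTEND for every vertex which is not drawn yet, in the order
of the rounds; a route meets at most one tree of every round.
-/

set_option autoImplicit false

namespace Pool.Agent.W_a4f561_E.R8

open Pool.Agent.W_a4f561_h26

variable {V : Type} {G : Bars V}

/-! ### Orders of hosts -/

/-- Routes which start in a set which is closed for both choice functions. -/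
theorem orb_congr8 {π π' : V → V} {S : Set V} (hS : ∀ v ∈ S, π v ∈ S) (he : ∀ v ∈ S, π' v = π v) {u w : V} (hu : u ∈ S)
    (h : Orb π u w) : Orb π' u w ∧ w ∈ S := by
  obtain ⟨k, rfl⟩ := h
  have key : ∀ j, π'^[j] u = π^[j] u ∧ π^[j] u ∈ S := by
    intro j
    induction j with
    | zero => exact ⟨rfl, hu⟩
    | succ j ih =>
      rw [Function.iterate_succ_apply', Function.iterate_succ_apply', ih.1]
      exact ⟨he _ ih.2, hS _ ih.2⟩
  exact ⟨⟨k, (key k).1⟩, (key k).2⟩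

theorem orb_mem8 {π : V → V} {S : Set V} (hS : ∀ w ∈ S, π w ∈ S) {u w : V} (hu : u ∈ S) (h : Orb π u w) : w ∈ S :=
  (orb_congr8 (π' := π) hS (fun _ _ => rfl) hu h).2

/-- A vertex of the route which is not dead at `τ` is on the route of the host. -/
theorem orb_host8 {π : V → V} (h : Ch G π) {u w : V} {τ : ℕ} (hu : G.b u ≤ τ) (hi : G.inn w) (hw : Orb π u w)
    (hw' : τ ≤ G.t w) : Orb π (host G π u τ) w := by
  have h1 := host_orb G π (host G π u τ) (G.t w)
  rwa [host_add h hu hw' (G.t_in w hi.1 hi.2).le, host_t h hw hi] at h1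

theorem host_mem8 {π : V → V} {S : Set V} (hS : ∀ v ∈ S, π v ∈ S) {u : V} (hu : u ∈ S) (τ : ℕ) :
    host G π u τ ∈ S := orb_mem8 hS hu (host_orb G π u τ)

/-! ### Probability one and the success of a root call -/

theorem pr_one8 [Fintype V] [DecidableEq V] (m : V × Bool → Option Bool) {A : (V × Bool → Bool) → Prop}
    (hA : ∀ ω, A ω) : pr m A = 1 := by
  classical
  unfold pr
  have h1 : (Finset.univ.filter (fun ω : V × Bool → Bool => A (ov m ω))) = Finset.univ := by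
    ext ω
    simp [hA]
  rw [h1, Finset.card_univ, Fintype.card_fun, Fintype.card_bool]
  push_cast
  exact div_self (by positivity)

/-- Every route comes to `bot` or `top`. -/
theorem orb_end8 {π : V → V} (h : Ch G π) (u : V) : ∃ w, Orb π u w ∧ (w = G.bot ∨ w = G.top) := by
  have hb : G.b u ≤ G.N := by
    by_cases h1 : u = G.bot
    · rw [h1, G.b_bot]
      exact Nat.zero_le _
    · by_cases h2 : u = G.top
      · rw [h2, G.b_top]
        exact Nat.zero_le _
      · exact (G.bt u).trans (G.t_in u h1 h2).le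
  refine ⟨host G π u G.N, host_orb G π u G.N, ?_⟩
  by_contra hc
  rw [not_or] at hc
  have h1 := (host_al h hb le_rfl).2
  have h2 := G.t_in _ hc.1 hc.2
  omega

theorem suc_root8 [Fintype V] {σ : St V} (hσ : Inv G σ) (ω : V × Bool → Bool) (z : V) : Suc G σ ω z σ.S := by
  classical
  have hch := ch_lam hσ ω
  obtain ⟨w, h1, h2⟩ := orb_end8 hch z
  have hw : w ∈ Finset.univ.filter (fun e => Orb (lam G σ ω) z e ∧ e ∈ σ.S) := by
    rw [Finset.mem_filter]
    refine ⟨Finset.mem_univ _, h1, ?_⟩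
    rcases h2 with h2 | h2
    · rw [h2]
      exact hσ.bot_mem
    · rw [h2]
      exact hσ.top_mem
  obtain ⟨e, he, he'⟩ := Finset.exists_min_image _ G.t ⟨w, hw⟩
  rw [Finset.mem_filter] at he
  refine ⟨e, he.2.2, he.2.2, he.2.1, fun u hu hu' => he' u ?_⟩
  rw [Finset.mem_filter]
  exact ⟨Finset.mem_univ _, hu, hu'⟩

theorem cb_anti8 {π : V → V} {A A' : Set V} {C : ℕ} (h : CB G π A' C) (hA : A ⊆ A') : CB G π A C := by
  intro p T P hT h1 h2 h3
  refine h p T P hT (fun q hq => ?_) h2 h3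
  obtain ⟨v, k1, k2, k3⟩ := h1 q hq
  exact ⟨v, k1, hA k2, k3⟩

theorem fin_anti8 {σ σ' : St V} (hle : Le σ σ') {π : V → V} (h : Fin' G σ' π) : Fin' G σ π := by
  refine ⟨h.1, fun v hv => ?_⟩
  rw [h.2 v ?_, hle.pi v hv]
  rcases hv with hv | hv
  · exact Or.inl (hle.S hv)
  · exact Or.inr (hle.Dec hv)

/-! ### The forest of root trees -/

/-- The state after the roots in `P`: `own u` is the root of the tree of `u`, `ex ρ` its exit, `Sb ρ` the set drawn
before. -/
structure Good8 (G : Bars V) (r : V → ℕ) (C : ℕ) (P : Finset V) (σ : St V) (own ex : V → V) (Sb : V → Set V) : Prop where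
  inv : Inv G σ
  lat : σ.Lat = ∅
  sub : ∀ u ∈ P, u ∈ σ.S
  ownS : ∀ u ∈ σ.S, G.inn u → own u ∈ σ.S ∧ G.inn (own u)
  e1 : ∀ u ∈ σ.S, G.inn u → Orb σ.pi u (ex (own u))
  e2 : ∀ u ∈ σ.S, G.inn u → Orb σ.pi (own u) (ex (own u))
  e3 : ∀ u ∈ σ.S, G.inn u → ex (own u) ∉ Sb (own u)
  e4 : ∀ u ∈ σ.S, G.inn u → G.inn (ex (own u))
  e5 : ∀ u ∈ σ.S, G.inn u → ∀ w ∈ Sb (own u), w ∈ σ.S ∧ σ.pi w ∈ Sb (own u)
  e6 : ∀ u ∈ σ.S, G.inn u → ∀ w, r w < r (own u) → w ∈ Sb (own u)
  cD : ∀ ρ, ∀ π, Fin' G σ π → CB G π {u | u ∈ σ.S ∧ G.inn u ∧ own u = ρ} C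
  cU : ∀ ρ, ∀ π, Fin' G σ π → CB G.mir π {u | u ∈ σ.S ∧ G.inn u ∧ own u = ρ} C

/-- The initial state. -/
noncomputable def st0 (G : Bars V) : St V := by
  classical
  exact { S := {G.bot, G.top}
          Dec := ∅
          Lat := ∅
          pi := fun v => if v = G.bot then G.bot else if v = G.top then G.top else G.lo v
          RD := ∅
          RU := ∅ }

theorem inv_st0 (G : Bars V) : Inv G (st0 G) where
  bot_mem := Or.inl rfl
  top_mem := Or.inr rfl
  ch := by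
    classical
    refine ⟨?_, ?_, ?_⟩
    · simp [st0]
    · have := G.ne
      simp [st0, G.ne.symm]
    · intro v hv
      left
      simp [st0, hv.1, hv.2]
  cl := by
    classical
    rintro v (rfl | rfl)
    · simp [st0]
    · simp [st0, G.ne.symm]
  lat_sub := fun _ h => absurd h (Set.notMem_empty _)
  lat_bot := fun h => absurd h (Set.notMem_empty _)
  lat_top := fun h => absurd h (Set.notMem_empty _)
  recD := fun _ h => absurd h (Set.notMem_empty _)
  recU := fun _ h => absurd h (Set.notMem_empty _)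
  latD := fun _ h => absurd h (Set.notMem_empty _)
  latU := fun _ h => absurd h (Set.notMem_empty _)
  decl := fun _ h => absurd h (Set.notMem_empty _)

theorem good0 (r : V → ℕ) (C : ℕ) : ∃ σ own ex Sb, Good8 G r C ∅ σ own ex Sb := by
  have hno : ∀ u ∈ (st0 G).S, G.inn u → False := by
    rintro u (rfl | rfl) h
    · exact h.1 rfl
    · exact h.2 rfl
  refine ⟨st0 G, id, id, fun _ => ∅, inv_st0 G, rfl, fun u h => absurd h (Finset.notMem_empty _), ?_, ?_, ?_, ?_, ?_, ?_, ?_,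
    ?_, ?_⟩
  · exact fun u h h' => (hno u h h').elim
  · exact fun u h h' => (hno u h h').elim
  · exact fun u h h' => (hno u h h').elim
  · exact fun u h h' => (hno u h h').elim
  · exact fun u h h' => (hno u h h').elim
  · exact fun u h h' => (hno u h h').elim
  · exact fun u h h' => (hno u h h').elim
  · intro ρ π _ p T P _ h1 _ _
    have : P = ∅ := by
      rw [Finset.eq_empty_iff_forall_notMem]
      intro q hq
      obtain ⟨v, _, k2, _⟩ := h1 q hq
      exact hno v k2.1 k2.2.1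
    rw [this]
    exact Nat.zero_le _
  · intro ρ π _ p T P _ h1 _ _
    have : P = ∅ := by
      rw [Finset.eq_empty_iff_forall_notMem]
      intro q hq
      obtain ⟨v, _, k2, _⟩ := h1 q hq
      exact hno v k2.1 k2.2.1
    rw [this]
    exact Nat.zero_le _

/-- The next root. -/
theorem good_step [Fintype V] [DecidableEq V] {B C : ℕ} (hB : G.N + 2 ≤ B) (hE : EXT G B 1 0 C) {r : V → ℕ} {P : Finset V}
    {σ : St V} {own ex : V → V} {Sb : V → Set V} (hg : Good8 G r C P σ own ex Sb) (z : V)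
    (hz : ∀ w, r w < r z → w ∈ P) : ∃ σ own ex Sb, Good8 G r C (insert z P) σ own ex Sb := by
  classical
  by_cases hzS : z ∈ σ.S
  · refine ⟨σ, own, ex, Sb, hg.inv, hg.lat, ?_, hg.ownS, hg.e1, hg.e2, hg.e3, hg.e4, hg.e5, hg.e6, hg.cD, hg.cU⟩
    intro u hu
    rcases Finset.mem_insert.1 hu with rfl | hu
    · exact hzS
    · exact hg.sub u hu
  have hzi : G.inn z := ⟨fun h => hzS (h ▸ hg.inv.bot_mem), fun h => hzS (h ▸ hg.inv.top_mem)⟩
  obtain ⟨σ', R⟩ := hE σ 0 (G.N + 2) z (fun _ => none) σ.S hg.inv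
    (fun v hv h => by rw [hg.lat] at h; exact absurd h (Set.notMem_empty _)) hzS
    (lt_of_lt_of_le (Nat.succ_le_iff.1 (G.b_in z hzi.1 hzi.2)) (G.bt z))
    ⟨0, by simp, by simpa using hB⟩
    (fun e he => ⟨he, by rw [hg.lat]; exact Set.notMem_empty _⟩)
    (fun e _ => by
      by_cases h1 : e = G.bot
      · rw [h1]; exact G.t_bot'
      · by_cases h2 : e = G.top
        · rw [h2]; exact G.t_top'
        · exact (G.t_in e h1 h2).le.trans (by omega))
    (fun _ => by simp)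
    (by simp)
    (by rw [pr_one8 _ (fun ω => suc_root8 hg.inv ω z)])
  obtain ⟨a, ⟨ha1, ha2⟩, ha3, ha4⟩ := R.exit
  have hai : G.inn a := ⟨fun h => ha2 (h ▸ hg.inv.bot_mem), fun h => ha2 (h ▸ hg.inv.top_mem)⟩
  have hpi : ∀ v ∈ σ.S, σ'.pi v = σ.pi v := fun v hv => R.le.pi v (Or.inl hv)
  have horb : ∀ u ∈ σ.S, ∀ w, Orb σ.pi u w → Orb σ'.pi u w := fun u hu w h => (orb_congr8 hg.inv.cl hpi hu h).1
  have hown : ∀ u ∈ σ.S, G.inn u → own u ≠ z := fun u hu hi h => hzS (h ▸ (hg.ownS u hu hi).1)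
  refine ⟨σ', fun u => if u ∈ σ.S then own u else z, fun ρ => if ρ = z then a else ex ρ,
    fun ρ => if ρ = z then σ.S else Sb ρ, R.inv, by rw [R.lat, hg.lat], ?_, ?_, ?_, ?_, ?_, ?_, ?_, ?_, ?_, ?_⟩
  · intro u hu
    rcases Finset.mem_insert.1 hu with rfl | hu
    · exact R.start
    · exact R.le.S (hg.sub u hu)
  · intro u hu hi
    by_cases h : u ∈ σ.S
    · simp only [if_pos h]
      exact ⟨R.le.S (hg.ownS u h hi).1, (hg.ownS u h hi).2⟩
    · simp only [if_neg h]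
      exact ⟨R.start, hzi⟩
  · intro u hu hi
    by_cases h : u ∈ σ.S
    · simp only [if_pos h, if_neg (hown u h hi)]
      exact horb u h _ (hg.e1 u h hi)
    · simp only [if_neg h, if_true]
      exact ha4 u ⟨hu, h⟩
  · intro u hu hi
    by_cases h : u ∈ σ.S
    · simp only [if_pos h, if_neg (hown u h hi)]
      exact horb _ (hg.ownS u h hi).1 _ (hg.e2 u h hi)
    · simp only [if_neg h, if_true]
      exact ha4 z ⟨R.start, hzS⟩
  · intro u hu hi
    by_cases h : u ∈ σ.S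
    · simp only [if_pos h, if_neg (hown u h hi)]
      exact hg.e3 u h hi
    · simp only [if_neg h, if_true]
      exact ha2
  · intro u hu hi
    by_cases h : u ∈ σ.S
    · simp only [if_pos h, if_neg (hown u h hi)]
      exact hg.e4 u h hi
    · simp only [if_neg h, if_true]
      exact hai
  · intro u hu hi w hw
    by_cases h : u ∈ σ.S
    · simp only [if_pos h, if_neg (hown u h hi)] at hw ⊢
      have h1 := hg.e5 u h hi w hw
      rw [hpi w h1.1]
      exact ⟨R.le.S h1.1, h1.2⟩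
    · simp only [if_neg h, if_true] at hw ⊢
      rw [hpi w hw]
      exact ⟨R.le.S hw, hg.inv.cl w hw⟩
  · intro u hu hi w hw
    by_cases h : u ∈ σ.S
    · simp only [if_pos h, if_neg (hown u h hi)] at hw ⊢
      exact hg.e6 u h hi w hw
    · simp only [if_neg h, if_true] at hw ⊢
      exact hg.sub w (hz w hw)
  · intro ρ π hπ
    by_cases h : ρ = z
    · refine cb_anti8 (R.cD π hπ) ?_
      rintro u ⟨h1, h2, h3⟩
      refine ⟨h1, fun h4 => ?_⟩
      simp only [if_pos h4] at h3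
      exact hown u h4 h2 (h3.trans h)
    · refine cb_anti8 (hg.cD ρ π (fin_anti8 R.le hπ)) ?_
      rintro u ⟨h1, h2, h3⟩
      by_cases h4 : u ∈ σ.S
      · simp only [if_pos h4] at h3
        exact ⟨h4, h2, h3⟩
      · simp only [if_neg h4] at h3
        exact absurd h3.symm h
  · intro ρ π hπ
    by_cases h : ρ = z
    · refine cb_anti8 (R.cU π hπ) ?_
      rintro u ⟨h1, h2, h3⟩
      refine ⟨h1, fun h4 => ?_⟩
      simp only [if_pos h4] at h3
      exact hown u h4 h2 (h3.trans h)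
    · refine cb_anti8 (hg.cU ρ π (fin_anti8 R.le hπ)) ?_
      rintro u ⟨h1, h2, h3⟩
      by_cases h4 : u ∈ σ.S
      · simp only [if_pos h4] at h3
        exact ⟨h4, h2, h3⟩
      · simp only [if_neg h4] at h3
        exact absurd h3.symm h

theorem good_all [Fintype V] [DecidableEq V] {B C : ℕ} (hB : G.N + 2 ≤ B) (hE : EXT G B 1 0 C) (r : V → ℕ) :
    ∀ (k : ℕ) (P : Finset V), P.card = k → (∀ u ∈ P, ∀ w, r w < r u → w ∈ P) →
      ∃ σ own ex Sb, Good8 G r C P σ own ex Sb := by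
  intro k
  induction k with
  | zero =>
    intro P hP _
    rw [Finset.card_eq_zero.1 hP]
    exact good0 r C
  | succ k ih =>
    intro P hP hd
    have hne : P.Nonempty := by
      rw [← Finset.card_pos]
      omega
    obtain ⟨z, hz, hmax⟩ := P.exists_max_image r hne
    have hP' : (P.erase z).card = k := by
      rw [Finset.card_erase_of_mem hz]
      omega
    obtain ⟨σ, own, ex, Sb, hg⟩ := ih (P.erase z) hP' (by
      intro u hu w hw
      rw [Finset.mem_erase] at hu ⊢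
      refine ⟨?_, hd u hu.2 w hw⟩
      rintro rfl
      have := hmax u hu.2
      omega)
    have h1 := good_step hB hE hg z (by
      intro w hw
      rw [Finset.mem_erase]
      refine ⟨?_, hd z hz w hw⟩
      rintro rfl
      exact lt_irrefl _ hw)
    rwa [Finset.insert_erase hz] at h1

/-! ### Separation -/

/-- Separation by a time. -/
theorem sep_time8 {π : V → V} (h : Ch G π) {p ρ ρ' a a' : V} {S S' : Set V} (hS : ∀ w ∈ S, π w ∈ S)
    (hS' : ∀ w ∈ S', π w ∈ S') {τ : ℕ} (h1 : G.t ρ < τ) (h2 : τ < G.b ρ') (hi' : G.inn ρ')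
    (hal : ∀ u, G.b u ≤ τ → τ ≤ G.t u → u ∈ S ∧ u ∈ S') (hia : G.inn a) (hia' : G.inn a') (ha : Orb π ρ a)
    (ha' : Orb π ρ' a') (hpa : Orb π p a) (hpa' : Orb π p a') (haS : a ∉ S) (haS' : a' ∉ S') : False := by
  have hτ : τ ≤ G.N := by
    have := G.t_in ρ' hi'.1 hi'.2
    have := G.bt ρ'
    omega
  have h3 : G.t a < τ := by
    by_contra hc
    have h4 := host_al h (u := ρ) ((G.bt ρ).trans h1.le) hτ
    have h5 := orb_host8 h ((G.bt ρ).trans h1.le) hia ha (not_lt.1 hc)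
    exact haS (orb_mem8 hS (hal _ h4.1 h4.2).1 h5)
  have hbp : G.b p ≤ τ := (G.bt p).trans ((orb_t h hpa).trans h3.le)
  have h4 := host_al h (u := p) hbp hτ
  have h5 := orb_host8 h hbp hia' hpa' (by
    have := orb_t h ha'
    have := G.bt ρ'
    omega)
  exact haS' (orb_mem8 hS' (hal _ h4.1 h4.2).2 h5)

/-- Separation by an older vertex. -/
theorem sep_ht8 {π : V → V} (h : Ch G π) {p ρ ρ' u a a' : V} {S S' : Set V} (hS : ∀ w ∈ S, π w ∈ S)
    (hS' : ∀ w ∈ S', π w ∈ S') {τ : ℕ} (b1 : G.b ρ ≤ τ) (t1 : τ ≤ G.t ρ) (b2 : G.b ρ' ≤ τ) (t2 : τ ≤ G.t ρ')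
    (b3 : G.b u ≤ τ) (t3 : τ ≤ G.t u) (k1 : G.r ρ < G.r u) (k2 : G.r u < G.r ρ') (hu : u ∈ S) (hu' : u ∈ S')
    (hi : G.inn a) (hi' : G.inn a') (ha : Orb π ρ a) (ha' : Orb π ρ' a') (hpa : Orb π p a)
    (hpa' : Orb π p a') (haS : a ∉ S) (haS' : a' ∉ S') : False := by
  have hN := (G.t_in a hi.1 hi.2).le
  have hN' := (G.t_in a' hi'.1 hi'.2).le
  have l1 := orb_t h ha
  have l2 := orb_t h ha'
  have x1 : G.r a < G.r (host G π u (G.t a)) := by
    have m := order_one h b1 b3 (t1.trans l1) hN (by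
      rw [host_self h t1, host_self h t3]
      exact k1.le)
    rw [host_t h ha hi] at m
    refine lt_of_le_of_ne m fun e => haS ?_
    rw [G.r_inj e]
    exact host_mem8 hS hu _
  have x2 : G.r (host G π u (G.t a')) < G.r a' := by
    have m := order_one h b3 b2 (t2.trans l2) hN' (by
      rw [host_self h t2, host_self h t3]
      exact k2.le)
    rw [host_t h ha' hi'] at m
    refine lt_of_le_of_ne m fun e => haS' ?_
    rw [← G.r_inj e]
    exact host_mem8 hS' hu' _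
  have q1 := host_t h hpa hi
  have q2 := host_t h hpa' hi'
  have bp1 : G.b p ≤ G.t a := (G.bt p).trans (orb_t h hpa)
  have bp2 : G.b p ≤ G.t a' := (G.bt p).trans (orb_t h hpa')
  rcases le_total (G.t a) (G.t a') with h5 | h5
  · have m := order_one h bp1 (b3.trans (t1.trans l1)) h5 hN' (by
      rw [q1]
      exact x1.le)
    rw [q2] at m
    omega
  · have m := order_one h (b3.trans (t2.trans l2)) bp2 h5 hN (by
      rw [q2]
      exact x2.le)
    rw [q1] at m
    omega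

/-- The property of the rounds. -/
def Rnd8 (G : Bars V) (r : V → ℕ) : Prop :=
  ∀ v w, G.inn v → G.inn w → v ≠ w → r v = r w →
    (∃ τ, (G.t v < τ ∧ τ < G.b w ∨ G.t w < τ ∧ τ < G.b v) ∧ ∀ u, G.b u ≤ τ → τ ≤ G.t u → r u < r v) ∨
    (∃ τ u, G.b v ≤ τ ∧ τ ≤ G.t v ∧ G.b w ≤ τ ∧ τ ≤ G.t w ∧ G.b u ≤ τ ∧ τ ≤ G.t u ∧
      (G.r v < G.r u ∧ G.r u < G.r w ∨ G.r w < G.r u ∧ G.r u < G.r v) ∧ r u < r v)

theorem sep8 {r : V → ℕ} {C : ℕ} {P : Finset V} {σ : St V} {own ex : V → V} {Sb : V → Set V}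
    (hg : Good8 G r C P σ own ex Sb) (hr : Rnd8 G r) {p u u' : V} (hu : Orb σ.pi p u) (hu' : Orb σ.pi p u')
    (hS : u ∈ σ.S) (hS' : u' ∈ σ.S) (hi : G.inn u) (hi' : G.inn u') (hrr : r (own u) = r (own u')) :
    own u = own u' := by
  by_contra hne
  have h := hg.inv.ch
  have A1 := orb_trans hu (hg.e1 u hS hi)
  have A2 := orb_trans hu' (hg.e1 u' hS' hi')
  have o1 := hg.e2 u hS hi
  have o2 := hg.e2 u' hS' hi'
  have n1 := hg.e3 u hS hi
  have n2 := hg.e3 u' hS' hi'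
  have i1 := hg.e4 u hS hi
  have i2 := hg.e4 u' hS' hi'
  have j1 := (hg.ownS u hS hi).2
  have j2 := (hg.ownS u' hS' hi').2
  have c1 : ∀ w ∈ Sb (own u), σ.pi w ∈ Sb (own u) := fun w hw => (hg.e5 u hS hi w hw).2
  have c2 : ∀ w ∈ Sb (own u'), σ.pi w ∈ Sb (own u') := fun w hw => (hg.e5 u' hS' hi' w hw).2
  have m1 := hg.e6 u hS hi
  have m2 := hg.e6 u' hS' hi'
  rcases hr _ _ j1 j2 hne hrr with ⟨τ, k1 | k1, k2⟩ | ⟨τ, x, k1, k2, k3, k4, k5, k6, k7 | k7, k8⟩
  · exact sep_time8 h c1 c2 k1.1 k1.2 j2 (fun y y1 y2 => ⟨m1 y (k2 y y1 y2), m2 y (hrr ▸ k2 y y1 y2)⟩) i1 i2 o1 o2 A1 A2 n1 n2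
  · exact sep_time8 h c2 c1 k1.1 k1.2 j1 (fun y y1 y2 => ⟨m2 y (hrr ▸ k2 y y1 y2), m1 y (k2 y y1 y2)⟩) i2 i1 o2 o1 A2 A1 n2 n1
  · exact sep_ht8 h c1 c2 k1 k2 k3 k4 k5 k6 k7.1 k7.2 (m1 x k8) (m2 x (hrr ▸ k8)) i1 i2 o1 o2 A1 A2 n1 n2
  · exact sep_ht8 h c2 c1 k3 k4 k1 k2 k5 k6 k7.1 k7.2 (m2 x (hrr ▸ k8)) (m1 x k8) i2 i1 o2 o1 A2 A1 n2 n1

/-- The number of rounds. -/
noncomputable def nrd [Fintype V] (G : Bars V) : ℕ :=
  (Nat.log 2 (G.N + 1) + 1) * (Nat.log 2 (Fintype.card V) + 1)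

theorem exists_rounds8 [Fintype V] (G : Bars V) : ∃ r : V → ℕ, (∀ v, r v < nrd G) ∧ Rnd8 G r := by
  let _ : LinearOrder V := LinearOrder.lift' G.r G.r_inj
  obtain ⟨r, h1, h2⟩ := Pool.Agent.W_a4f561_h33.rounds G.b (fun v => min (G.t v) G.N) (fun v => by
    refine le_min (G.bt v) ?_
    by_cases k1 : v = G.bot
    · rw [k1, G.b_bot]; exact Nat.zero_le _
    · by_cases k2 : v = G.top
      · rw [k2, G.b_top]; exact Nat.zero_le _
      · exact (G.bt v).trans (G.t_in v k1 k2).le) G.N (fun v => min_le_right _ _)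
  refine ⟨r, h1, fun v w hv hw hne he => ?_⟩
  have e1 : min (G.t v) G.N = G.t v := min_eq_left (G.t_in v hv.1 hv.2).le
  have e2 : min (G.t w) G.N = G.t w := min_eq_left (G.t_in w hw.1 hw.2).le
  rcases h2 v w hne he with ⟨τ, k1, k2⟩ | ⟨τ, x, k1, k2, k3, k4, k5, k6, k7, k8⟩
  · simp only [e1, e2] at k1
    refine Or.inl ⟨τ, k1, fun u u1 u2 => k2 u u1 (le_min u2 ?_)⟩
    rcases k1 with k1 | k1
    · have := G.t_in w hw.1 hw.2
      have := G.bt w
      omega
    · have := G.t_in v hv.1 hv.2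
      have := G.bt v
      omega
  · simp only [e1, e2] at k2 k4
    exact Or.inr ⟨τ, x, k1, k2, k3, k4, k5, k6.trans (min_le_left _ _), k7, k8⟩

/-- Summation over the rounds, for `G` or its mirror image. -/
theorem sum8 [Fintype V] {H : Bars V} {r : V → ℕ} {C : ℕ} {P : Finset V} {σ : St V} {own ex : V → V}
    {Sb : V → Set V} (hg : Good8 G r C P σ own ex Sb) (hr : Rnd8 G r) (hr' : ∀ v, r v < nrd G) (hall : ∀ v, v ∈ σ.S)
    (hin : ∀ v, H.inn v → G.inn v)
    (hc : ∀ ρ, CB H σ.pi {u | u ∈ σ.S ∧ G.inn u ∧ own u = ρ} C) : CB H σ.pi Set.univ (nrd G * C) := by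
  classical
  intro p T Q hT h1 h2 h3
  have : Nonempty V := ⟨p⟩
  choose! v hv using h1
  have hmap : ∀ q ∈ Q, r (own (v q)) ∈ Finset.range (nrd G) := fun q _ => Finset.mem_range.2 (hr' _)
  have key : ∀ k ∈ Finset.range (nrd G), (Q.filter (fun q => r (own (v q)) = k)).card ≤ C := by
    intro k _
    rcases (Q.filter (fun q => r (own (v q)) = k)).eq_empty_or_nonempty with h0 | ⟨q0, h0⟩
    · rw [h0]
      exact Nat.zero_le _
    rw [Finset.mem_filter] at h0
    refine hc (own (v q0)) p T _ hT (fun q hq => ?_) ?_ ?_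
    · rw [Finset.mem_filter] at hq
      obtain ⟨k1, _, k3, k4⟩ := hv q hq.1
      obtain ⟨l1, _, l3, l4⟩ := hv q0 h0.1
      refine ⟨v q, k1, ⟨hall _, hin _ k3, ?_⟩, k3, k4⟩
      exact sep8 hg hr k1 l1 (hall _) (hall _) (hin _ k3) (hin _ l3) (hq.2.trans h0.2.symm)
    · intro q hq q' hq' he
      exact h2 q (Finset.mem_filter.1 hq).1 q' (Finset.mem_filter.1 hq').1 he
    · intro q hq q' hq' he
      exact h3 q (Finset.mem_filter.1 hq).1 q' (Finset.mem_filter.1 hq').1 he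
  have := Finset.card_eq_sum_card_fiberwise hmap
  rw [this]
  refine (Finset.sum_le_sum key).trans ?_
  rw [Finset.sum_const, Finset.card_range, smul_eq_mul]

/-- The root assembly. -/
theorem root_assembly [Fintype V] [DecidableEq V] {B C : ℕ} (hB : G.N + 2 ≤ B) (hE : EXT G B 1 0 C) :
    ∃ π, Ch G π ∧ CB G π Set.univ (nrd G * C) ∧ CB G.mir π Set.univ (nrd G * C) := by
  obtain ⟨r, h1, h2⟩ := exists_rounds8 G
  obtain ⟨σ, own, ex, Sb, hg⟩ := good_all hB hE r _ Finset.univ rfl (fun _ _ w _ => Finset.mem_univ w)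
  have hall : ∀ v, v ∈ σ.S := fun v => hg.sub v (Finset.mem_univ v)
  have hfin : Fin' G σ σ.pi := ⟨hg.inv.ch, fun _ _ => rfl⟩
  exact ⟨σ.pi, hg.inv.ch, sum8 (G := G) (H := G) hg h2 h1 hall (fun _ h => h) (fun ρ => hg.cD ρ _ hfin),
    sum8 (G := G) (H := G.mir) hg h2 h1 hall (fun _ h => ⟨h.2, h.1⟩) (fun ρ => hg.cU ρ _ hfin)⟩

/-- The stub `roots` of the skeleton. -/
theorem roots8 [Fintype V] [DecidableEq V] (G : Bars V) {B C : ℕ} (hB : G.N + 2 ≤ B) (hE : EXT G B 1 0 C) :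
    ∃ π, Ch G π ∧
      CB G π Set.univ ((Nat.log 2 (G.N + 1) + 1) * (Nat.log 2 (Fintype.card V) + 1) * C) ∧
      CB G.mir π Set.univ ((Nat.log 2 (G.N + 1) + 1) * (Nat.log 2 (Fintype.card V) + 1) * C) :=
  root_assembly hB hE

end Pool.Agent.W_a4f561_E.R8
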