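import Mathlib

/-!
MP_a4f561_co (pages at most `n ^ ε`), Lemma 1: the order of the vertices which belongs to a choice function, and the
bound of its twists by the numbers of unmerged heads (`D`-pairs and, mirrored, `U`-pairs).

Bars: a finite linear order `V` of vertices, the vertex `v` is alive in the times `[b v, t v]`; edges are pairs which are
consecutive among the vertices alive at some time. A choice function `π` sends every vertex to one of its two neighbours
at the time of its death; `hs t π u τ` is the host of the route of `u` at the time `τ`.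
-/

set_option autoImplicit false

namespace Pool.Agent.W_a4f561_E.L1

/-- The host of the route of `u` at the time `τ`: `u` itself up to the time `t u`, then `π u`, and so on. -/
def hs {V : Type*} (t : V → ℕ) (π : V → V) (u : V) : ℕ → V
  | 0 => u
  | τ + 1 => if t (hs t π u τ) ≤ τ then π (hs t π u τ) else hs t π u τ

/-- `h` is the upper neighbour of `x` among the vertices which are alive at the time `τ`. -/
def Ub {V : Type*} [LinearOrder V] (b t : V → ℕ) (x h : V) (τ : ℕ) : Prop :=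
  x < h ∧ b x ≤ τ ∧ τ ≤ t x ∧ b h ≤ τ ∧ τ ≤ t h ∧ ∀ z, x < z → z < h → ¬ (b z ≤ τ ∧ τ ≤ t z)

/-- Bars with a choice function `π`: `π v` is a neighbour of `v` at the time `t v` of its death, for the vertices with
`t v < N` (the others are `bot` and `top`). -/
structure Ch {V : Type*} [LinearOrder V] (b t : V → ℕ) (N : ℕ) (π : V → V) : Prop where
  bt : ∀ v, b v ≤ t v
  tN : ∀ v, t v ≤ N
  inj : ∀ u v, t u < N → t u = t v → u = v
  lt : ∀ v, t v < N → t v < t (π v)
  al : ∀ v, t v < N → b (π v) ≤ t v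
  adj : ∀ v, t v < N → ∀ z, b z ≤ t v → t v ≤ t z → ¬ (v < z ∧ z < π v) ∧ ¬ (π v < z ∧ z < v)

/-- The order of the choice function: compare the hosts at the first time at which both are born. -/
def sl {V : Type*} [LinearOrder V] (b t : V → ℕ) (π : V → V) (u v : V) : Prop :=
  hs t π u (max (b u) (b v)) < hs t π v (max (b u) (b v))

/-- A `D`-pair `(x, h)` of `p` before `T`: the route of `p` enters `x` from above, from `v`; `h` is the upper neighbour of
`x` at some time after `t v`; `x` is dead before `T`; and the routes of `p` and `h` do not meet in a vertex which is dead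
before `T`. -/
def DPair {V : Type*} [LinearOrder V] (b t : V → ℕ) (π : V → V) (p : V) (T : ℕ) (x h : V) : Prop :=
  (∃ v, hs t π p (t v) = v ∧ π v = x ∧ x < v ∧ ∃ τ, t v < τ ∧ Ub b t x h τ) ∧ t x < T ∧
    ∀ z, hs t π p (t z) = z → hs t π h (t z) = z → T ≤ t z

/-- Every set of `D`-pairs of one `p` before one `T` with distinct first and distinct second members has at most `k`
elements. -/
def Dbd {V : Type*} [LinearOrder V] (b t : V → ℕ) (N : ℕ) (π : V → V) (k : ℕ) : Prop :=
  ∀ (p : V) (T : ℕ) (P : Finset (V × V)), T ≤ N → (∀ q ∈ P, DPair b t π p T q.1 q.2) →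
    (∀ q ∈ P, ∀ q' ∈ P, q.1 = q'.1 → q = q') → (∀ q ∈ P, ∀ q' ∈ P, q.2 = q'.2 → q = q') → P.card ≤ k

section Basic

variable {V : Type*} {t : V → ℕ} {π : V → V}

theorem hs_le {u : V} {τ : ℕ} (h : τ ≤ t u) : hs t π u τ = u := by
  induction τ with
  | zero => rfl
  | succ τ ih =>
    have h1 := ih (by omega)
    show (if t (hs t π u τ) ≤ τ then π (hs t π u τ) else hs t π u τ) = u
    rw [h1, if_neg (by omega)]

theorem hs_succ (u : V) (τ : ℕ) :
    hs t π u (τ + 1) = if t (hs t π u τ) ≤ τ then π (hs t π u τ) else hs t π u τ := rfl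

/-- The host of the host. -/
theorem hs_hs {u : V} {τ τ' : ℕ} (h0 : τ ≤ t (hs t π u τ)) (h : τ ≤ τ') :
    hs t π (hs t π u τ) τ' = hs t π u τ' := by
  induction τ', h using Nat.le_induction with
  | base => exact hs_le h0
  | succ σ _ ih => rw [hs_succ, hs_succ, ih]

end Basic

section Main

variable {V : Type*} [LinearOrder V] {b t : V → ℕ} {N : ℕ} {π : V → V}

theorem Ch.hs_t (h : Ch b t N π) (u : V) {τ : ℕ} (hτ : τ ≤ N) : τ ≤ t (hs t π u τ) := by
  induction τ with
  | zero => exact Nat.zero_le _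
  | succ τ ih =>
    have h1 := ih (by omega)
    rw [hs_succ]
    split_ifs with h2
    · have h3 := h.lt (hs t π u τ) (by omega)
      omega
    · omega

theorem Ch.hs_b (h : Ch b t N π) {u : V} {τ : ℕ} (hb : b u ≤ τ) (hτ : τ ≤ N) : b (hs t π u τ) ≤ τ := by
  induction τ, hb using Nat.le_induction with
  | base => rw [hs_le (h.bt u)]
  | succ τ h0 ih =>
    have h1 := ih (by omega)
    have h2 := h.hs_t u (show τ ≤ N by omega)
    rw [hs_succ]
    split_ifs with h3
    · have h4 := h.al (hs t π u τ) (by omega)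
      omega
    · omega

/-- A host which is not the vertex itself is born before. -/
theorem Ch.hs_born (h : Ch b t N π) {u : V} {τ : ℕ} (hu : t u < τ) (hτ : τ ≤ N) : b (hs t π u τ) < τ := by
  obtain ⟨σ, rfl⟩ : ∃ σ, τ = σ + 1 := ⟨τ - 1, by omega⟩
  have h0 := h.bt u
  have h1 := h.hs_b (u := u) (τ := σ) (by omega) (by omega)
  have h2 := h.hs_t u (show σ ≤ N by omega)
  rw [hs_succ]
  split_ifs with h3
  · have h4 := h.al (hs t π u σ) (by omega)
    omega
  · omega

/-- The order of the hosts is kept weakly. -/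
theorem Ch.hs_mono (h : Ch b t N π) {u v : V} {τ τ' : ℕ} (hu : b u ≤ τ) (hv : b v ≤ τ)
    (hle : hs t π u τ ≤ hs t π v τ) (h1 : τ ≤ τ') (h2 : τ' ≤ N) : hs t π u τ' ≤ hs t π v τ' := by
  induction τ', h1 using Nat.le_induction with
  | base => exact hle
  | succ σ h3 ih =>
    have h4 := ih (by omega)
    have u1 := h.hs_t u (show σ ≤ N by omega)
    have v1 := h.hs_t v (show σ ≤ N by omega)
    have u2 := h.hs_b (u := u) (τ := σ) (by omega) (by omega)
    have v2 := h.hs_b (u := v) (τ := σ) (by omega) (by omega)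
    rw [hs_succ, hs_succ]
    rcases h4.eq_or_lt with h5 | h5
    · rw [h5]
    · split_ifs with h6 h7 h7
      · exfalso
        have h8 := h.inj (hs t π u σ) (hs t π v σ) (by omega) (by omega)
        rw [h8] at h5
        exact lt_irrefl _ h5
      · by_contra h8
        exact (h.adj (hs t π u σ) (by omega) (hs t π v σ) (by omega) (by omega)).1 ⟨h5, not_le.1 h8⟩
      · by_contra h8
        exact (h.adj (hs t π v σ) (by omega) (hs t π u σ) (by omega) (by omega)).2 ⟨not_le.1 h8, h5⟩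
      · exact h4

theorem Ch.hs_ne (h : Ch b t N π) {u v : V} (huv : u ≠ v) :
    hs t π u (max (b u) (b v)) ≠ hs t π v (max (b u) (b v)) := by
  have key : ∀ u v : V, u ≠ v → b u ≤ b v → hs t π u (b v) ≠ hs t π v (b v) := by
    intro u v huv hb
    rw [hs_le (h.bt v)]
    rcases le_or_gt (b v) (t u) with h1 | h1
    · rw [hs_le h1]
      exact huv
    · intro h2
      have h3 := h.hs_born h1 ((h.bt v).trans (h.tN v))
      rw [h2] at h3
      exact lt_irrefl _ h3
  rcases le_total (b u) (b v) with h1 | h1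
  · rw [max_eq_right h1]
    exact key u v huv h1
  · rw [max_eq_left h1]
    exact (key v u huv.symm h1).symm

theorem sl_irr (u : V) : ¬ sl b t π u u := lt_irrefl _

theorem Ch.sl_tot (h : Ch b t N π) {u v : V} (huv : u ≠ v) : sl b t π u v ∨ sl b t π v u := by
  unfold sl
  rw [max_comm (b v) (b u)]
  exact lt_or_gt_of_ne (h.hs_ne huv)

theorem Ch.sl_at (h : Ch b t N π) {u v : V} {τ : ℕ} (hu : b u ≤ τ) (hv : b v ≤ τ) (hτ : τ ≤ N) (hs' : sl b t π u v) :
    hs t π u τ ≤ hs t π v τ :=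
  h.hs_mono (le_max_left _ _) (le_max_right _ _) (le_of_lt hs') (max_le hu hv) hτ

theorem sl_ne {u v : V} (hs' : sl b t π u v) : u ≠ v := by
  rintro rfl
  exact sl_irr _ hs'

theorem Ch.sl_of_at (h : Ch b t N π) {u v : V} {τ : ℕ} (hu : b u ≤ τ) (hv : b v ≤ τ) (hτ : τ ≤ N)
    (hlt : hs t π u τ < hs t π v τ) : sl b t π u v := by
  have huv : u ≠ v := by
    rintro rfl
    exact lt_irrefl _ hlt
  rcases h.sl_tot huv with h1 | h1
  · exact h1
  · exact absurd (h.sl_at hv hu hτ h1) (not_le.2 hlt)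

theorem sl_as {u v : V} (h1 : sl b t π u v) : ¬ sl b t π v u := by
  intro h2
  unfold sl at h1 h2
  rw [max_comm (b v) (b u)] at h2
  exact lt_irrefl _ (h1.trans h2)

theorem Ch.sl_tr (h : Ch b t N π) {u v w : V} (h1 : sl b t π u v) (h2 : sl b t π v w) : sl b t π u w := by
  obtain ⟨T, hT⟩ : ∃ T, T = max (b u) (max (b v) (b w)) := ⟨_, rfl⟩
  have hu : b u ≤ T := by rw [hT]; exact le_max_left _ _
  have hv : b v ≤ T := by rw [hT]; exact (le_max_left _ _).trans (le_max_right _ _)
  have hw : b w ≤ T := by rw [hT]; exact (le_max_right _ _).trans (le_max_right _ _)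
  have hN : T ≤ N := by
    rw [hT]
    exact max_le ((h.bt u).trans (h.tN u)) (max_le ((h.bt v).trans (h.tN v)) ((h.bt w).trans (h.tN w)))
  have k1 := h.sl_at hu hv hN h1
  have k2 := h.sl_at hv hw hN h2
  refine h.sl_of_at hu hw hN (lt_of_le_of_ne (k1.trans k2) ?_)
  intro h3
  have h4 : hs t π u T = hs t π v T := le_antisymm k1 (by rw [h3]; exact k2)
  have h5 : hs t π v T = hs t π w T := by rw [← h4, h3]
  have n1 := h.hs_ne (sl_ne h1)
  have n2 := h.hs_ne (sl_ne h2)
  have hc : T = b u ∨ T = b v ∨ T = b w := by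
    rcases max_choice (b u) (max (b v) (b w)) with h6 | h6
    · exact Or.inl (hT.trans h6)
    · rcases max_choice (b v) (b w) with h7 | h7
      · exact Or.inr (Or.inl ((hT.trans h6).trans h7))
      · exact Or.inr (Or.inr ((hT.trans h6).trans h7))
  rcases hc with h6 | h6 | h6
  · have h7 : max (b u) (b v) = T := by
      rw [← h6]
      exact max_eq_left hv
    rw [h7] at n1
    exact n1 h4
  · have h7 : max (b u) (b v) = T := by
      rw [← h6]
      exact max_eq_right hu
    rw [h7] at n1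
    exact n1 h4
  · have h7 : max (b v) (b w) = T := by
      rw [← h6]
      exact max_eq_right hv
    rw [h7] at n2
    exact n2 h5

/-- The new order restricted to the vertices alive at one time is the old one. -/
theorem Ch.sl_alive (h : Ch b t N π) {u v : V} {τ : ℕ} (u1 : b u ≤ τ) (u2 : τ ≤ t u) (v1 : b v ≤ τ) (v2 : τ ≤ t v) :
    sl b t π u v ↔ u < v := by
  have hN : τ ≤ N := u2.trans (h.tN u)
  constructor
  · intro h1
    have h2 := h.sl_at u1 v1 hN h1
    rw [hs_le u2, hs_le v2] at h2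
    exact lt_of_le_of_ne h2 (sl_ne h1)
  · intro h1
    refine h.sl_of_at u1 v1 hN ?_
    rw [hs_le u2, hs_le v2]
    exact h1

/-- (*): a vertex which is alive or not yet born when `z` is the host of `v` is not between `v` and `z`. -/
theorem Ch.star (h : Ch b t N π) {v z u : V} {τ : ℕ} (hb : b v ≤ τ) (hN : τ ≤ N) (hz : hs t π v τ = z)
    (hu : τ ≤ t u) (hne : u ≠ z) : (sl b t π u v ↔ sl b t π u z) ∧ (sl b t π v u ↔ sl b t π z u) := by
  have z1 : b z ≤ τ := by
    rw [← hz]
    exact h.hs_b hb hN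
  have z2 : τ ≤ t z := by
    rw [← hz]
    exact h.hs_t v hN
  rcases le_or_gt (b u) τ with h1 | h1
  · have e1 := hs_le (π := π) hu
    have e2 := hs_le (π := π) z2
    rw [h.sl_alive h1 hu z1 z2, h.sl_alive z1 z2 h1 hu]
    refine ⟨⟨fun h2 => ?_, fun h2 => ?_⟩, ⟨fun h2 => ?_, fun h2 => ?_⟩⟩
    · have h3 := h.sl_at h1 hb hN h2
      rw [e1, hz] at h3
      exact lt_of_le_of_ne h3 hne
    · refine h.sl_of_at h1 hb hN ?_
      rw [e1, hz]
      exact h2
    · have h3 := h.sl_at hb h1 hN h2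
      rw [e1, hz] at h3
      exact lt_of_le_of_ne h3 hne.symm
    · refine h.sl_of_at hb h1 hN ?_
      rw [e1, hz]
      exact h2
  · have e1 : hs t π z (b u) = hs t π v (b u) := by
      rw [← hz]
      exact hs_hs (h.hs_t v hN) h1.le
    unfold sl
    rw [max_eq_left (show b v ≤ b u by omega), max_eq_left (show b z ≤ b u by omega),
      max_eq_right (show b v ≤ b u by omega), max_eq_right (show b z ≤ b u by omega), e1]
    exact ⟨Iff.rfl, Iff.rfl⟩

theorem Ch.on_b (h : Ch b t N π) {p z : V} (hz : hs t π p (t z) = z) : b p ≤ t z := by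
  by_contra h1
  have h2 := h.bt p
  rw [hs_le (by omega)] at hz
  rw [← hz] at h1
  exact h1 h2

/-- The step of a route into its host. -/
theorem Ch.step_into (h : Ch b t N π) {p x : V} {τ : ℕ} (hx : hs t π p τ = x) (hne : x ≠ p) (hN : τ ≤ N) :
    ∃ v, hs t π p (t v) = v ∧ π v = x ∧ t v < τ := by
  induction τ with
  | zero => exact absurd hx.symm hne
  | succ τ ih =>
    have h1 := h.hs_t p (show τ ≤ N by omega)
    rw [hs_succ] at hx
    split_ifs at hx with h2
    · have h3 : t (hs t π p τ) = τ := by omega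
      exact ⟨hs t π p τ, by rw [h3], hx, by omega⟩
    · obtain ⟨v, k1, k2, k3⟩ := ih hx (by omega)
      exact ⟨v, k1, k2, by omega⟩

/-- Crossing edges. -/
def Cr (b t : V → ℕ) (π : V → V) (e f : V × V) : Prop :=
  (sl b t π e.1 f.1 ∧ sl b t π f.1 e.2 ∧ sl b t π e.2 f.2) ∨ (sl b t π f.1 e.1 ∧ sl b t π e.1 f.2 ∧ sl b t π f.2 e.2)

theorem Cr.symm {e f : V × V} (h : Cr b t π e f) : Cr b t π f e := Or.symm h

theorem Cr.ne1 {e f : V × V} (h : Cr b t π e f) : e.1 ≠ f.1 := by
  rcases h with h | h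
  · exact sl_ne h.1
  · exact (sl_ne h.1).symm

theorem Cr.ne2 {e f : V × V} (h : Cr b t π e f) : e.2 ≠ f.2 := by
  rcases h with h | h
  · exact sl_ne h.2.2
  · exact (sl_ne h.2.2).symm

/-- One class and one side. -/
theorem side (h : Ch b t N π) {k : ℕ} (hD : Dbd b t N π k) {p : V} {G : Finset (V × V)} {L : V × V} {TL : ℕ}
    (hL : Ub b t L.1 L.2 TL) (p1 : sl b t π L.1 p) (p2 : sl b t π p L.2)
    (hG : ∀ e ∈ G, ∃ T, T < TL ∧ t p < T ∧ Ub b t e.1 e.2 T ∧ hs t π p T = e.1 ∧ sl b t π e.1 p ∧ Cr b t π e L)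
    (hc : ∀ e ∈ G, ∀ f ∈ G, e ≠ f → Cr b t π e f) : G.card ≤ k := by
  obtain ⟨_, L1, L2, L3, L4, L5⟩ := hL
  refine hD p TL G (L2.trans (h.tN _)) ?_ ?_ ?_
  · intro e he
    obtain ⟨T, hT, hp, hU, hh, ex, hcr⟩ := hG e he
    have hU' := hU
    obtain ⟨_, U1, U2, U3, U4, _⟩ := hU
    have hTN : T ≤ N := U2.trans (h.tN _)
    have hbp := h.bt p
    have hpe : e.1 ≠ p := by
      intro h1
      rw [h1] at U2
      omega
    obtain ⟨v, v1, v2, v3⟩ := h.step_into hh hpe hTN
    have hvN : t v < N := by omega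
    -- the lower end of the last edge is below
    have x1 : sl b t π L.1 e.1 :=
      (h.star (v := p) (z := e.1) (u := L.1) (by omega) hTN hh (by omega) hcr.ne1.symm).1.1 p1
    have hcr2 : sl b t π e.1 L.2 ∧ sl b t π L.2 e.2 := by
      rcases hcr with h1 | h1
      · exact absurd x1 (sl_as h1.1)
      · exact h1.2
    refine ⟨⟨v, v1, v2, ?_, T, v3, hU'⟩, ?_, ?_⟩
    · -- the last step is a `D`-step
      have h1 := h.al v hvN
      rw [v2] at h1
      have h2 := h.lt v hvN
      rw [v2] at h2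
      have hbv := h.on_b v1
      have h3 := h.sl_at (τ := t v) h1 hbv hvN.le ex
      rw [v1, hs_le h2.le] at h3
      refine lt_of_le_of_ne h3 ?_
      intro h4
      rw [h4] at h2
      exact lt_irrefl _ h2
    · -- the tail is dead before the last edge
      by_contra h1
      have h2 : TL ≤ t e.1 := by omega
      have h3 : b e.1 ≤ TL := by omega
      refine L5 e.1 ((h.sl_alive L1 L2 h3 h2).1 x1) ((h.sl_alive h3 h2 L3 L4).1 hcr2.1) ⟨h3, h2⟩
    · intro z z1 z2
      by_contra h1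
      have hz : t z < TL := by omega
      have hzN : t z ≤ N := h.tN z
      have hne : L.2 ≠ z := by
        intro h2
        rw [← h2] at hz
        omega
      have s1 := (h.star (h.on_b z1) hzN z1 (show t z ≤ t L.2 by omega) hne).2.1 p2
      have s2 := (h.star (h.on_b z2) hzN z2 (show t z ≤ t L.2 by omega) hne).1.1 hcr2.2
      exact sl_as s1 s2
  · intro e he f hf h1
    by_contra h2
    exact (hc e he f hf h2).ne1 h1
  · intro e he f hf h1
    by_contra h2
    exact (hc e he f hf h2).ne2 h1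

/-! ### Duality -/

theorem Ch.dual (h : Ch b t N π) : Ch (V := Vᵒᵈ) b t N π where
  bt := h.bt
  tN := h.tN
  inj := h.inj
  lt := h.lt
  al := h.al
  adj := fun v hv z z1 z2 => ⟨fun h1 => (h.adj v hv z z1 z2).2 ⟨h1.2, h1.1⟩, fun h1 => (h.adj v hv z z1 z2).1 ⟨h1.2, h1.1⟩⟩

theorem sl_dual (u v : V) : sl (V := Vᵒᵈ) b t π u v ↔ sl b t π v u := by
  unfold sl
  rw [max_comm (b v) (b u)]
  exact Iff.rfl

theorem ub_dual {x h : V} {τ : ℕ} (hU : Ub b t x h τ) : Ub (V := Vᵒᵈ) b t h x τ :=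
  ⟨hU.1, hU.2.2.2.1, hU.2.2.2.2.1, hU.2.1, hU.2.2.1, fun z h1 h2 => hU.2.2.2.2.2 z h2 h1⟩

theorem cr_dual {e f : V × V} (hc : Cr b t π e f) : Cr (V := Vᵒᵈ) b t π e.swap f.swap := by
  unfold Cr
  rcases hc with ⟨h1, h2, h3⟩ | ⟨h1, h2, h3⟩
  · right
    exact ⟨(sl_dual _ _).2 h3, (sl_dual _ _).2 h2, (sl_dual _ _).2 h1⟩
  · left
    exact ⟨(sl_dual _ _).2 h3, (sl_dual _ _).2 h2, (sl_dual _ _).2 h1⟩

/-- Crossing edges have different times. -/
theorem Cr.time (h : Ch b t N π) {e f : V × V} {T : ℕ} (he : Ub b t e.1 e.2 T) (hf : Ub b t f.1 f.2 T)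
    (hc : Cr b t π e f) : False := by
  have key : ∀ e f : V × V, Ub b t e.1 e.2 T → Ub b t f.1 f.2 T → sl b t π e.1 f.1 → sl b t π f.1 e.2 → False := by
    intro e f he hf h1 h2
    obtain ⟨_, a1, a2, a3, a4, a5⟩ := he
    obtain ⟨_, c1, c2, _, _, _⟩ := hf
    exact a5 f.1 ((h.sl_alive a1 a2 c1 c2).1 h1) ((h.sl_alive c1 c2 a3 a4).1 h2) ⟨c1, c2⟩
  rcases hc with h1 | h1
  · exact key e f he hf h1.1 h1.2.1
  · exact key f e hf he h1.1 h1.2.1

/-- One class: the edges which have the vertex `p` strictly between their ends. -/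
theorem cls (h : Ch b t N π) {k l : ℕ} (hD : Dbd b t N π k) (hU : Dbd (V := Vᵒᵈ) b t N π l) {p : V} {T0 : ℕ}
    (hp : b p ≤ T0) (G : Finset (V × V)) (Te : V × V → ℕ)
    (hG : ∀ e ∈ G, T0 < Te e ∧ Ub b t e.1 e.2 (Te e) ∧ sl b t π e.1 p ∧ sl b t π p e.2)
    (hc : ∀ e ∈ G, ∀ f ∈ G, e ≠ f → Cr b t π e f) : G.card ≤ 1 + k + l := by
  classical
  rcases G.eq_empty_or_nonempty with rfl | hne
  · simp
  obtain ⟨L, hL, hmax⟩ := G.exists_max_image Te hne
  obtain ⟨L1, L2, L3, L4⟩ := hG L hL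
  -- the facts for the other edges
  have hfact : ∀ e ∈ G.erase L, Te e < Te L ∧ t p < Te e ∧ Ub b t e.1 e.2 (Te e) ∧
      (hs t π p (Te e) = e.1 ∨ hs t π p (Te e) = e.2) ∧ sl b t π e.1 p ∧ sl b t π p e.2 ∧ Cr b t π e L := by
    intro e he
    obtain ⟨hne', he'⟩ := Finset.mem_erase.1 he
    obtain ⟨e1, e2, e3, e4⟩ := hG e he'
    have hcr := hc e he' L hL hne'
    have e2' := e2
    obtain ⟨_, u1, u2, u3, u4, u5⟩ := e2
    have hN : Te e ≤ N := u2.trans (h.tN _)
    have h1 : Te e ≠ Te L := by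
      intro h2
      rw [← h2] at L2
      exact hcr.time h e2' L2
    have hpb : b p ≤ Te e := by omega
    have h3 : t p < Te e := by
      by_contra h4
      have h5 : Te e ≤ t p := by omega
      exact u5 p ((h.sl_alive u1 u2 hpb h5).1 e3) ((h.sl_alive hpb h5 u3 u4).1 e4) ⟨hpb, h5⟩
    have k1 := h.sl_at u1 hpb hN e3
    have k2 := h.sl_at hpb u3 hN e4
    rw [hs_le u2] at k1
    rw [hs_le u4] at k2
    have k3 := h.hs_b hpb hN
    have k4 := h.hs_t p hN
    refine ⟨lt_of_le_of_ne (hmax e he') h1, h3, e2', ?_, e3, e4, hcr⟩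
    rcases k1.eq_or_lt with h6 | h6
    · exact Or.inl h6.symm
    · rcases k2.eq_or_lt with h7 | h7
      · exact Or.inr h7
      · exact absurd ⟨k3, k4⟩ (u5 _ h6 h7)
  have c1 : ((G.erase L).filter fun e => hs t π p (Te e) = e.1).card ≤ k := by
    refine side h hD L2 L3 L4 ?_ ?_
    · intro e he
      obtain ⟨he1, he2⟩ := Finset.mem_filter.1 he
      obtain ⟨f1, f2, f3, _, f5, _, f7⟩ := hfact e he1
      exact ⟨Te e, f1, f2, f3, he2, f5, f7⟩
    · intro e he f hf hef
      exact hc e (Finset.mem_of_mem_erase (Finset.mem_filter.1 he).1) f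
        (Finset.mem_of_mem_erase (Finset.mem_filter.1 hf).1) hef
  have c2 : ((G.erase L).filter fun e => ¬ hs t π p (Te e) = e.1).card ≤ l := by
    have hinj : Function.Injective (Prod.swap : V × V → Vᵒᵈ × Vᵒᵈ) := fun _ _ h => Prod.swap_injective h
    rw [← Finset.card_map ⟨_, hinj⟩]
    refine side (V := Vᵒᵈ) h.dual hU (p := p) (L := (L.2, L.1)) (TL := Te L) (ub_dual L2) ((sl_dual _ _).2 L4)
      ((sl_dual _ _).2 L3) ?_ ?_
    · intro e he
      obtain ⟨g, hg, rfl⟩ := Finset.mem_map.1 he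
      obtain ⟨he1, he2⟩ := Finset.mem_filter.1 hg
      obtain ⟨f1, f2, f3, f4, f5, f6, f7⟩ := hfact g he1
      exact ⟨Te g, f1, f2, ub_dual f3, f4.resolve_left he2, (sl_dual _ _).2 f6, cr_dual f7⟩
    · intro e he f hf hef
      obtain ⟨g, hg, rfl⟩ := Finset.mem_map.1 he
      obtain ⟨g', hg', rfl⟩ := Finset.mem_map.1 hf
      refine cr_dual (hc g (Finset.mem_of_mem_erase (Finset.mem_filter.1 hg).1) g'
        (Finset.mem_of_mem_erase (Finset.mem_filter.1 hg').1) ?_)
      intro h1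
      exact hef (by rw [h1])
  have c3 := Finset.card_filter_add_card_filter_not (s := G.erase L) fun e => hs t π p (Te e) = e.1
  have c4 := Finset.card_erase_of_mem hL
  have c5 := Finset.card_pos.2 hne
  omega

/-- LEMMA 1: a set of pairwise crossing edges has at most `3 + 2 D + 2 U` elements. -/
theorem lemma1 (h : Ch b t N π) {k l : ℕ} (hD : Dbd b t N π k) (hU : Dbd (V := Vᵒᵈ) b t N π l) (F : Finset (V × V))
    (hF : ∀ e ∈ F, ∃ T, Ub b t e.1 e.2 T) (hc : ∀ e ∈ F, ∀ f ∈ F, e ≠ f → Cr b t π e f) :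
    F.card ≤ 3 + 2 * k + 2 * l := by
  classical
  have hT : ∀ e : V × V, ∃ T, e ∈ F → Ub b t e.1 e.2 T := by
    intro e
    by_cases he : e ∈ F
    · obtain ⟨T, h1⟩ := hF e he
      exact ⟨T, fun _ => h1⟩
    · exact ⟨0, fun h1 => absurd h1 he⟩
  choose Te hTe using hT
  rcases F.eq_empty_or_nonempty with rfl | hne
  · simp
  obtain ⟨o, ho, hmin⟩ := F.exists_min_image Te hne
  have ho' := hTe o ho
  obtain ⟨_, o1, o2, o3, o4, _⟩ := ho'
  have htime : ∀ e ∈ F, e ≠ o → Te o < Te e := by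
    intro e he hne'
    refine lt_of_le_of_ne (hmin e he) ?_
    intro h1
    have h2 := hTe o ho
    rw [h1] at h2
    exact (hc e he o ho hne').time h (hTe e he) h2
  have c1 : ((F.erase o).filter fun e => sl b t π e.1 o.2 ∧ sl b t π o.2 e.2).card ≤ 1 + k + l := by
    refine cls h hD hU (p := o.2) (T0 := Te o) o3 _ Te ?_ ?_
    · intro e he
      obtain ⟨he1, he2⟩ := Finset.mem_filter.1 he
      obtain ⟨he3, he4⟩ := Finset.mem_erase.1 he1
      exact ⟨htime e he4 he3, hTe e he4, he2.1, he2.2⟩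
    · intro e he f hf hef
      exact hc e (Finset.mem_of_mem_erase (Finset.mem_filter.1 he).1) f
        (Finset.mem_of_mem_erase (Finset.mem_filter.1 hf).1) hef
  have c2 : ((F.erase o).filter fun e => ¬ (sl b t π e.1 o.2 ∧ sl b t π o.2 e.2)).card ≤ 1 + k + l := by
    refine cls h hD hU (p := o.1) (T0 := Te o) o1 _ Te ?_ ?_
    · intro e he
      obtain ⟨he1, he2⟩ := Finset.mem_filter.1 he
      obtain ⟨he3, he4⟩ := Finset.mem_erase.1 he1
      refine ⟨htime e he4 he3, hTe e he4, ?_⟩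
      rcases hc e he4 o ho he3 with h1 | h1
      · exact ⟨h1.1, h1.2.1⟩
      · exact absurd ⟨h1.2.1, h1.2.2⟩ he2
    · intro e he f hf hef
      exact hc e (Finset.mem_of_mem_erase (Finset.mem_filter.1 he).1) f
        (Finset.mem_of_mem_erase (Finset.mem_filter.1 hf).1) hef
  have c3 := Finset.card_filter_add_card_filter_not (s := F.erase o) fun e => sl b t π e.1 o.2 ∧ sl b t π o.2 e.2
  have c4 := Finset.card_erase_of_mem ho
  have c5 := Finset.card_pos.2 hne
  omega

/-- LEMMA 1 for a set of edges with the notion of a twist of the earlier files. -/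
theorem lemma1_edges {E : Type} {tl hd : E → V} (h : Ch b t N π) {k l : ℕ} (hD : Dbd b t N π k)
    (hU : Dbd (V := Vᵒᵈ) b t N π l) (F : Finset E) (hF : ∀ e ∈ F, ∃ T, Ub b t (tl e) (hd e) T)
    (hc : ∀ e ∈ F, ∀ f ∈ F, e ≠ f →
      (sl b t π (tl e) (tl f) ∧ sl b t π (tl f) (hd e) ∧ sl b t π (hd e) (hd f)) ∨
      (sl b t π (tl f) (tl e) ∧ sl b t π (tl e) (hd f) ∧ sl b t π (hd f) (hd e))) :
    F.card ≤ 3 + 2 * k + 2 * l := by
  classical
  have hinj : Set.InjOn (fun e => (tl e, hd e)) (F : Set E) := by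
    intro e he f hf h1
    by_contra h2
    have h3 := Prod.ext_iff.1 h1
    simp only at h3
    rcases hc e he f hf h2 with h4 | h4
    · exact sl_ne h4.1 h3.1
    · exact sl_ne h4.1 h3.1.symm
  rw [← Finset.card_image_of_injOn hinj]
  refine lemma1 h hD hU _ ?_ ?_
  · intro e he
    obtain ⟨g, hg, rfl⟩ := Finset.mem_image.1 he
    exact hF g hg
  · intro e he f hf hef
    obtain ⟨g, hg, rfl⟩ := Finset.mem_image.1 he
    obtain ⟨g', hg', rfl⟩ := Finset.mem_image.1 hf
    refine hc g hg g' hg' ?_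
    intro h1
    exact hef (by rw [h1])

end Main

end Pool.Agent.W_a4f561_E.L1
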