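import Pool.Agent.W_a4f561_h26.Bas
import Pool.Agent.W_a4f561_E.Lem1

/-!
MP_a4f561_co (EpsPages), Lemma 1 for the structure `Bars`: a choice function in which both numbers of unmerged pairs are
bounded gives an order of the vertices with small twists.
-/

set_option autoImplicit false

namespace Pool.Agent.W_a4f561_E.Red16

open Pool.Agent.W_a4f561_h26

variable {V : Type} {G : Bars V} {π : V → V}

/-- The times of death, cut at `N`. -/
def tc (G : Bars V) (v : V) : ℕ := min (G.t v) G.N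

theorem inn_lt {v : V} (h : G.inn v) : G.t v < G.N := G.t_in v h.1 h.2

theorem tc_inn {v : V} (h : G.inn v) : tc G v = G.t v := min_eq_left (inn_lt h).le

theorem inn_of_tc {v : V} (h : tc G v < G.N) : G.inn v := by
  unfold tc at h
  refine ⟨fun e => ?_, fun e => ?_⟩
  · have := G.t_bot
    rw [e] at h
    omega
  · have := G.t_top
    rw [e] at h
    omega

theorem le_tc {v : V} {τ : ℕ} (hτ : τ ≤ G.N) : τ ≤ tc G v ↔ τ ≤ G.t v := by
  unfold tc
  omega

theorem mir_lt (G : Bars V) (u v : V) : G.mir.r u < G.mir.r v ↔ G.r v < G.r u := by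
  have h1 := G.r_le u
  have h2 := G.r_le v
  show G.M - G.r u < G.M - G.r v ↔ _
  omega

theorem t_lt {v : V} (h : Ch G π) (hi : G.inn v) : G.t v < G.t (π v) := by
  rcases h.2.2 v hi with h2 | h2
  · rw [h2]; exact t_lo G hi
  · rw [h2]; exact t_up G hi

/-- The neighbours as a choice function in the sense of `L1.Ch`. -/
theorem toL1 (inst : LinearOrder V) (hlt : ∀ x y : V, x < y ↔ G.r x < G.r y) (h : Ch G π) :
    L1.Ch G.b (tc G) G.N π where
  bt := by
    intro v
    unfold tc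
    by_cases h1 : v = G.bot
    · rw [h1, G.b_bot]; exact Nat.zero_le _
    by_cases h2 : v = G.top
    · rw [h2, G.b_top]; exact Nat.zero_le _
    have h3 := G.t_in v h1 h2
    have h4 := G.bt v
    omega
  tN := fun v => min_le_right _ _
  inj := by
    intro u v hu huv
    have h1 := tc_inn (inn_of_tc hu)
    rw [huv] at hu
    have h2 := tc_inn (inn_of_tc hu)
    exact G.t_inj (by omega)
  lt := by
    intro v hv
    have hi := inn_of_tc hv
    have h1 := t_lt h hi
    rw [tc_inn hi] at hv ⊢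
    unfold tc
    omega
  al := by
    intro v hv
    have hi := inn_of_tc hv
    rw [tc_inn hi]
    rcases h.2.2 v hi with h2 | h2
    · rw [h2]; exact (al_lo G hi).1.1
    · rw [h2]; exact (al_up G hi).1.1
  adj := by
    intro v hv z z1 z2
    have hi := inn_of_tc hv
    rw [tc_inn hi] at z1 z2
    have hz : G.al z (G.t v) := ⟨z1, (le_tc (inn_lt hi).le).1 z2⟩
    rw [hlt, hlt, hlt, hlt]
    rcases h.2.2 v hi with h2 | h2
    · rw [h2]
      refine ⟨?_, ?_⟩
      · rintro ⟨h3, h4⟩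
        have := r_lo G hi
        omega
      · rintro ⟨h3, h4⟩
        have := (lb_spec G (inn_lt hi).le hi.1).2.2 z hz h4
        change G.r z ≤ G.r (G.lo v) at this
        omega
    · rw [h2]
      refine ⟨?_, ?_⟩
      · rintro ⟨h3, h4⟩
        have := (ub_spec G (inn_lt hi).le hi.2).2.2 z hz h3
        change G.r (G.up v) ≤ G.r z at this
        omega
      · rintro ⟨h3, h4⟩
        have := r_up G hi
        omega

/-- The hosts are on the route. -/
theorem orb_hs (t : V → ℕ) (u : V) (τ : ℕ) : Orb π u (L1.hs t π u τ) := by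
  induction τ with
  | zero => exact ⟨0, rfl⟩
  | succ τ ih =>
    rw [L1.hs_succ]
    split_ifs with h
    · obtain ⟨k, hk⟩ := ih
      exact ⟨k + 1, by rw [Function.iterate_succ_apply', hk]⟩
    · exact ih

/-- A vertex of the route is a host. -/
theorem hs_of_orb (h : Ch G π) {u z : V} (hz : Orb π u z) : L1.hs (tc G) π u (tc G z) = z := by
  obtain ⟨k, rfl⟩ := hz
  induction k with
  | zero => exact L1.hs_le le_rfl
  | succ k ih =>
    rw [Function.iterate_succ_apply']
    obtain ⟨y, hy⟩ : ∃ y, y = π^[k] u := ⟨_, rfl⟩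
    rw [← hy] at ih ⊢
    by_cases hi : G.inn y
    · have h1 := t_lt h hi
      have hN := inn_lt hi
      have h2 : tc G y + 1 ≤ tc G (π y) := by
        rw [tc_inn hi, le_tc (by omega)]
        exact h1
      have h3 : L1.hs (tc G) π u (tc G y + 1) = π y := by
        rw [L1.hs_succ, ih, if_pos le_rfl]
      have h4 := L1.hs_hs (t := tc G) (π := π) (u := u) (τ := tc G y + 1) (τ' := tc G (π y)) (by rw [h3]; exact h2) h2
      rw [← h4, h3]
      exact L1.hs_le le_rfl
    · have h1 : π y = y := by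
        by_cases h2 : y = G.bot
        · rw [h2]; exact h.1
        · by_cases h3 : y = G.top
          · rw [h3]; exact h.2.1
          · exact absurd ⟨h2, h3⟩ hi
      rw [h1]
      exact ih

/-- The bounds on the unmerged pairs. -/
theorem dbd_of_CB (inst : LinearOrder V) (hlt : ∀ x y : V, x < y ↔ G.r x < G.r y) (h : Ch G π) {C : ℕ}
    (hC : CB G π Set.univ C) : L1.Dbd G.b (tc G) G.N π C := by
  intro p T P hT hP h1 h2
  refine hC p T P hT (fun q hq => ?_) h1 h2
  obtain ⟨⟨v, v1, v2, v3, τ, v4, v5, v6, v7, v8, v9, v10⟩, x1, x2⟩ := hP q hq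
  have hτN : τ ≤ G.N := v7.trans (min_le_right _ _)
  have hi : G.inn v := inn_of_tc (lt_of_lt_of_le v4 hτN)
  have e1 : π v = G.lo v := by
    rcases h.2.2 v hi with h3 | h3
    · exact h3
    · have h4 := r_up G hi
      rw [← h3, v2] at h4
      rw [hlt] at v3
      omega
  have hτx : τ ≤ G.t q.1 := (le_tc hτN).1 v7
  refine ⟨v, ?_, Set.mem_univ _, hi, e1, by rw [← e1, v2], ?_, ⟨τ, ?_, hτx, ?_⟩, ?_⟩
  · rw [← v1]
    exact orb_hs _ _ _
  · by_contra h3
    have h4 : T ≤ tc G q.1 := (le_tc hT).2 (by omega)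
    omega
  · rw [← tc_inn hi]
    exact v4
  · symm
    refine ub_eq G ⟨v8, (le_tc hτN).1 v9⟩ ((hlt _ _).1 v5) ?_
    intro u hu h3
    by_contra h4
    exact v10 u ((hlt _ _).2 h3) ((hlt _ _).2 (not_le.1 h4)) ⟨hu.1, (le_tc hτN).2 hu.2⟩
  · intro z z1 z2
    exact (le_tc hT).1 (x2 z (hs_of_orb h z1) (hs_of_orb h z2))

/-- LEMMA 1 for bars: the order of a choice function, and its twists. -/
theorem lemma1_bars (G : Bars V) {π : V → V} (h : Ch G π) {C C' : ℕ} (hD : CB G π Set.univ C)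
    (hU : CB G.mir π Set.univ C') :
    ∃ ρ : V → V → Prop, (∀ x, ¬ ρ x x) ∧ (∀ x y z, ρ x y → ρ y z → ρ x z) ∧ (∀ x y, x ≠ y → ρ x y ∨ ρ y x) ∧
      (∀ x y, G.vis x y → ρ x y) ∧
      ∀ F : Finset (V × V), (∀ e ∈ F, G.vis e.1 e.2) →
        (∀ e ∈ F, ∀ e' ∈ F, e ≠ e' →
          (ρ e.1 e'.1 ∧ ρ e'.1 e.2 ∧ ρ e.2 e'.2) ∨ (ρ e'.1 e.1 ∧ ρ e.1 e'.2 ∧ ρ e'.2 e.2)) →
        F.card ≤ 3 + 2 * C + 2 * C' := by
  classical
  let inst : LinearOrder V := LinearOrder.lift' G.r G.r_inj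
  have hlt : ∀ x y : V, x < y ↔ G.r x < G.r y := fun x y => Iff.rfl
  have hc : L1.Ch G.b (tc G) G.N π := toL1 inst hlt h
  have hd : L1.Dbd G.b (tc G) G.N π C := dbd_of_CB inst hlt h hD
  have hu : L1.Dbd (V := Vᵒᵈ) G.b (tc G) G.N π C' :=
    dbd_of_CB (V := V) (G := G.mir) (inferInstanceAs (LinearOrder Vᵒᵈ)) (fun x y => (mir_lt G x y).symm)
      (ch_mir.2 h) hU
  have hvis : ∀ x y, G.vis x y → ∃ τ, L1.Ub G.b (tc G) x y τ := by
    rintro x y ⟨τ, h1, h2, h3, h4, h5⟩
    refine ⟨τ, (hlt _ _).2 h4, h2.1, (le_tc h1).2 h2.2, h3.1, (le_tc h1).2 h3.2, ?_⟩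
    rintro z z1 z2 ⟨z3, z4⟩
    exact h5 z ⟨z3, (le_tc h1).1 z4⟩ ⟨(hlt _ _).1 z1, (hlt _ _).1 z2⟩
  refine ⟨L1.sl G.b (tc G) π, fun x => L1.sl_irr x, fun x y z => hc.sl_tr, fun x y => hc.sl_tot, ?_, ?_⟩
  · intro x y hxy
    obtain ⟨τ, h1, h2, h3, h4, h5, _⟩ := hvis x y hxy
    exact (hc.sl_alive h2 h3 h4 h5).2 h1
  · intro F hF hT
    exact L1.lemma1 hc hd hu F (fun e he => hvis _ _ (hF e he)) hT

/-- LEMMA 1: the order `σ` of a choice function; twists have at most `3 + 4 C` edges. -/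
theorem red [Fintype V] (G : Bars V) {π : V → V} (hπ : Ch G π) {C : ℕ} (h1 : CB G π Set.univ C)
    (h2 : CB G.mir π Set.univ C) :
    ∃ σ : V → ℕ, Function.Injective σ ∧ (∀ x y, G.vis x y → σ x < σ y) ∧
      ∀ T : Finset (V × V), (∀ e ∈ T, G.vis e.1 e.2) →
        (∀ e ∈ T, ∀ e' ∈ T, e ≠ e' →
          (σ e.1 < σ e'.1 ∧ σ e'.1 < σ e.2 ∧ σ e.2 < σ e'.2) ∨
          (σ e'.1 < σ e.1 ∧ σ e.1 < σ e'.2 ∧ σ e'.2 < σ e.2)) → T.card ≤ 3 + 4 * C := by
  classical
  obtain ⟨ρ, r1, r2, r3, r4, r5⟩ := lemma1_bars G hπ h1 h2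
  let σ : V → ℕ := fun v => (Finset.univ.filter fun u => ρ u v).card
  have hmono : ∀ x y, ρ x y → σ x < σ y := by
    intro x y hxy
    refine Finset.card_lt_card ?_
    rw [Finset.ssubset_iff_of_subset]
    · exact ⟨x, by simpa using hxy, by simpa using r1 x⟩
    · intro u hu
      simp only [Finset.mem_filter, Finset.mem_univ, true_and] at hu ⊢
      exact r2 _ _ _ hu hxy
  have hiff : ∀ x y, σ x < σ y ↔ ρ x y := by
    intro x y
    refine ⟨fun h => ?_, hmono x y⟩
    by_cases hxy : x = y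
    · rw [hxy] at h
      exact absurd h (lt_irrefl _)
    · rcases r3 x y hxy with h3 | h3
      · exact h3
      · exact absurd (hmono _ _ h3) (by omega)
  refine ⟨σ, ?_, fun x y hxy => hmono _ _ (r4 x y hxy), ?_⟩
  · intro x y hxy
    by_contra hne
    rcases r3 x y hne with h3 | h3
    · have := hmono _ _ h3
      omega
    · have := hmono _ _ h3
      omega
  · intro T hT hc
    simp only [hiff] at hc
    have h3 := r5 T hT hc
    omega

end Pool.Agent.W_a4f561_E.Red16
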