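import Pool.Agent.W_a4f561_h26.Num
import Pool.Agent.W_a4f561_h26.Red
import Pool.Agent.W_a4f561_E.Root8

/-!
MP_a4f561_co: the main theorem for bars from Lemma 1, the roots, all levels and the arithmetic.
-/

set_option autoImplicit false

namespace Pool.Agent.W_a4f561_E.M8

open Pool.Agent.W_a4f561_h26

theorem bars_main : ∃ a : ℕ, ∀ (V : Type) [Fintype V] [DecidableEq V] (G : Bars V) (R Λ : ℕ), 1 ≤ R →
    G.N + 2 ≤ Λ ^ R → G.N ≤ 8 * Fintype.card V →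
    ∃ σ : V → ℕ, Function.Injective σ ∧ (∀ x y, G.vis x y → σ x < σ y) ∧
      ∀ T : Finset (V × V), (∀ e ∈ T, G.vis e.1 e.2) →
        (∀ e ∈ T, ∀ e' ∈ T, e ≠ e' →
          (σ e.1 < σ e'.1 ∧ σ e'.1 < σ e.2 ∧ σ e.2 < σ e'.2) ∨
          (σ e'.1 < σ e.1 ∧ σ e.1 < σ e'.2 ∧ σ e'.2 < σ e.2)) →
        T.card ≤ 2 ^ (a * R ^ 2) * (Nat.log 2 (Fintype.card V) + 1) ^ (R + 3) * Λ := by
  obtain ⟨a, ha⟩ := cst_le
  refine ⟨a + 5, ?_⟩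
  intro V _ _ G R Λ hR hΛ hN
  have hV : 2 ≤ Fintype.card V := by
    rw [← Nat.lt_iff_add_one_le]
    exact Fintype.one_lt_card_iff.2 ⟨_, _, G.ne⟩
  have hΛ1 : 1 ≤ Λ := by
    rcases Nat.eq_zero_or_pos Λ with h | h
    · rw [h, zero_pow (by omega)] at hΛ
      omega
    · exact h
  set L := Nat.log 2 (Fintype.card V) + 1 with hL
  have hE := ext_all G Λ hΛ1 R 0 0
  rw [pow_zero, ← hL] at hE
  obtain ⟨π, h1, h2, h3⟩ := R8.roots8 G hΛ hE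
  obtain ⟨σ, s1, s2, s3⟩ := red G h1 h2 h3
  refine ⟨σ, s1, s2, fun T hT hc => (s3 T hT hc).trans ?_⟩
  have hlog : Nat.log 2 (G.N + 1) + 1 ≤ 5 * L := by
    have h4 : Nat.log 2 (G.N + 1) ≤ Nat.log 2 (2 ^ 4 * Fintype.card V) := Nat.log_mono_right (by omega)
    have h5 : Nat.log 2 (2 ^ 4 * Fintype.card V) < L + 4 := by
      refine Nat.log_lt_of_lt_pow (by omega) ?_
      rw [pow_add, mul_comm]
      refine Nat.mul_lt_mul_of_pos_right ?_ (by positivity)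
      exact Nat.lt_pow_succ_log_self (by norm_num) _
    have hL1 : 1 ≤ L := by omega
    omega
  have hL1 : 1 ≤ L := by omega
  have h6 := ha L Λ R hL1 hΛ1 hR
  have h7 : (Nat.log 2 (G.N + 1) + 1) * L * cst L Λ R 0 0 ≤ 5 * (2 ^ (a * R ^ 2) * L ^ (R + 3) * Λ) := by
    calc (Nat.log 2 (G.N + 1) + 1) * L * cst L Λ R 0 0 ≤ (5 * L) * L * (2 ^ (a * R ^ 2) * L ^ (R + 1) * Λ) :=
          Nat.mul_le_mul (Nat.mul_le_mul_right _ hlog) h6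
      _ = 5 * (2 ^ (a * R ^ 2) * L ^ (R + 3) * Λ) := by ring
  have h8 : 1 ≤ 2 ^ (a * R ^ 2) * L ^ (R + 3) * Λ := by
    exact Nat.one_le_iff_ne_zero.2 (by positivity)
  have h9 : (2:ℕ) ^ 5 * 2 ^ (a * R ^ 2) ≤ 2 ^ ((a + 5) * R ^ 2) := by
    rw [← pow_add]
    refine Nat.pow_le_pow_right (by norm_num) ?_
    have : 1 ≤ R ^ 2 := Nat.one_le_pow _ _ hR
    nlinarith
  calc 3 + 4 * ((Nat.log 2 (G.N + 1) + 1) * L * cst L Λ R 0 0) ≤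
        3 + 4 * (5 * (2 ^ (a * R ^ 2) * L ^ (R + 3) * Λ)) := by
        exact Nat.add_le_add_left (Nat.mul_le_mul_left 4 h7) 3
    _ ≤ 2 ^ 5 * (2 ^ (a * R ^ 2) * L ^ (R + 3) * Λ) := by omega
    _ = (2 ^ 5 * 2 ^ (a * R ^ 2)) * (L ^ (R + 3) * Λ) := by ring
    _ ≤ 2 ^ ((a + 5) * R ^ 2) * (L ^ (R + 3) * Λ) := Nat.mul_le_mul_right _ h9
    _ = _ := by ring

end Pool.Agent.W_a4f561_E.M8
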