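import Mathlib

/-!
MP_a4f561_co: the choice of `R` and `Λ` for `n` vertices.
-/

set_option autoImplicit false

namespace Pool.Agent.W_a4f561_E.N8

theorem log2_le {n m : ℕ} {x : ℝ} (hx : 1 / 2 ≤ x) (hn : 1 ≤ m) (hm : Real.log m ≤ 3 * x ^ 3) (h : m = n) :
    (Nat.log 2 n : ℝ) + 1 ≤ Real.exp (5 * x) := by
  subst h
  have hl2 : (0.6 : ℝ) ≤ Real.log 2 := by
    have := Real.log_two_gt_d9
    linarith
  have h3 : (Nat.log 2 m : ℝ) * Real.log 2 ≤ Real.log m := by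
    rw [← Real.log_pow]
    refine Real.log_le_log (by positivity) ?_
    exact_mod_cast Nat.pow_log_le_self 2 (by omega)
  have h0 : (0:ℝ) ≤ (Nat.log 2 m : ℝ) := by positivity
  have h4 : (Nat.log 2 m : ℝ) ≤ 5 * x ^ 3 := by nlinarith
  have h5 : (1:ℝ) ≤ 8 * x ^ 3 := by
    have : (1 / 2 : ℝ) ^ 3 ≤ x ^ 3 := by gcongr
    linarith
  have h6 := Real.pow_div_factorial_le_exp (5 * x) (by linarith) 3
  have h7 : (5 * x) ^ 3 / ((Nat.factorial 3 : ℕ) : ℝ) = 125 / 6 * x ^ 3 := by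
    rw [show Nat.factorial 3 = 6 by rfl]
    push_cast
    ring
  rw [h7] at h6
  have h8 : (0:ℝ) ≤ x ^ 3 := by positivity
  linarith

theorem num8 (a n : ℕ) (hn : 2 ≤ n) : ∃ R Λ : ℕ, 1 ≤ R ∧ 4 * n + 11 ≤ Λ ^ R ∧
    (((Nat.log 2 n + 1) * (2 ^ (a * R ^ 2) * (Nat.log 2 (n + 4) + 1) ^ (R + 3) * Λ) : ℕ) : ℝ) ≤
      Real.exp ((9 * a + 64) * Real.log n ^ (2 / 3 : ℝ)) := by
  have hn' : (2:ℝ) ≤ n := by exact_mod_cast hn
  have hn0 : (0:ℝ) < n := by linarith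
  have hl : (1 / 8 : ℝ) ≤ Real.log n := by
    have h1 := Real.log_two_gt_d9
    have h2 := Real.log_le_log (by norm_num : (0:ℝ) < 2) hn'
    linarith
  obtain ⟨x, hxd⟩ : ∃ x, x = Real.log n ^ (1 / 3 : ℝ) := ⟨_, rfl⟩
  have hx3 : x ^ 3 = Real.log n := by
    rw [hxd, ← Real.rpow_natCast, ← Real.rpow_mul (by linarith)]
    norm_num
  have hx2 : Real.log n ^ (2 / 3 : ℝ) = x ^ 2 := by
    rw [hxd, ← Real.rpow_natCast, ← Real.rpow_mul (by linarith)]
    norm_num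
  have hx : 1 / 2 ≤ x := by
    have hx0 : 0 ≤ x := by
      rw [hxd]
      exact Real.rpow_nonneg (by linarith) _
    by_contra hc
    rw [not_le] at hc
    have : x ^ 3 < (1 / 2 : ℝ) ^ 3 := by gcongr
    rw [hx3] at this
    norm_num at this
    linarith
  rw [hx2]
  obtain ⟨R, hR⟩ : ∃ R, R = ⌈x⌉₊ := ⟨_, rfl⟩
  have hR1 : x ≤ R := by
    rw [hR]
    exact Nat.le_ceil x
  have hR2 : (R:ℝ) < x + 1 := by
    rw [hR]
    exact Nat.ceil_lt_add_one (by linarith)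
  have hR3 : 1 ≤ R := by
    rw [hR]
    exact Nat.one_le_iff_ne_zero.2 (by
      intro h
      rw [Nat.ceil_eq_zero] at h
      linarith)
  have hR0 : (0:ℝ) < R := by linarith
  obtain ⟨y, hyd⟩ : ∃ y, y = ((4 * n + 11 : ℕ) : ℝ) ^ (1 / (R:ℝ)) := ⟨_, rfl⟩
  have hm1 : (1:ℝ) ≤ ((4 * n + 11 : ℕ) : ℝ) := by
    push_cast
    linarith
  have hy1 : 1 ≤ y := by
    rw [hyd]
    exact Real.one_le_rpow hm1 (by positivity)
  have hyR : y ^ R = ((4 * n + 11 : ℕ) : ℝ) := by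
    rw [hyd, ← Real.rpow_natCast, ← Real.rpow_mul (by positivity), one_div, inv_mul_cancel₀ hR0.ne', Real.rpow_one]
  have hlm : Real.log ((4 * n + 11 : ℕ) : ℝ) ≤ 5 * x ^ 3 := by
    rw [hx3]
    have : Real.log ((4 * n + 11 : ℕ) : ℝ) ≤ Real.log ((n:ℝ) ^ 5) := by
      refine Real.log_le_log (by linarith) ?_
      push_cast
      have h2 : (4:ℝ) ≤ (n:ℝ) ^ 2 := by nlinarith
      have h4 : (16:ℝ) ≤ (n:ℝ) ^ 4 := by nlinarith
      nlinarith
    rw [Real.log_pow] at this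
    exact_mod_cast this
  have hye : y ≤ Real.exp (5 * x ^ 2) := by
    rw [hyd, Real.rpow_def_of_pos (by linarith)]
    refine Real.exp_le_exp.2 ?_
    rw [mul_one_div, div_le_iff₀ hR0]
    have h1 : x ^ 2 * x ≤ x ^ 2 * R := mul_le_mul_of_nonneg_left hR1 (by positivity)
    nlinarith
  obtain ⟨Λ, hΛ⟩ : ∃ Λ, Λ = ⌈y⌉₊ := ⟨_, rfl⟩
  have hΛ1 : y ≤ Λ := by
    rw [hΛ]
    exact Nat.le_ceil y
  have hΛ2 : (Λ:ℝ) ≤ 2 * y := by
    have : (Λ:ℝ) < y + 1 := by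
      rw [hΛ]
      exact Nat.ceil_lt_add_one (by linarith)
    linarith
  have hx2' : (1:ℝ) ≤ 4 * x ^ 2 := by nlinarith
  have e2 : (2:ℝ) ≤ Real.exp 1 := by
    have := Real.add_one_le_exp (1:ℝ)
    linarith
  refine ⟨R, Λ, hR3, ?_, ?_⟩
  · have h1 : ((4 * n + 11 : ℕ) : ℝ) ≤ ((Λ ^ R : ℕ) : ℝ) := by
      rw [← hyR]
      push_cast
      gcongr
    exact_mod_cast h1
  · have A : (2:ℝ) ^ (a * R ^ 2) ≤ Real.exp (9 * a * x ^ 2) := by
      calc (2:ℝ) ^ (a * R ^ 2) ≤ (Real.exp 1) ^ (a * R ^ 2) := by gcongr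
        _ = Real.exp ((a * R ^ 2 : ℕ) : ℝ) := by
            rw [← Real.exp_nat_mul, mul_one]
        _ ≤ _ := by
            refine Real.exp_le_exp.2 ?_
            push_cast
            have h1 : (R:ℝ) ≤ 3 * x := by linarith
            have h2 : (R:ℝ) ^ 2 ≤ 9 * x ^ 2 := by nlinarith
            have h3 : (0:ℝ) ≤ a := by positivity
            nlinarith
    have hl4 : Real.log ((n + 4 : ℕ) : ℝ) ≤ 3 * x ^ 3 := by
      rw [hx3]
      have : Real.log ((n + 4 : ℕ) : ℝ) ≤ Real.log ((n:ℝ) ^ 3) := by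
        refine Real.log_le_log (by push_cast; linarith) ?_
        push_cast
        have h2 : (4:ℝ) ≤ (n:ℝ) ^ 2 := by nlinarith
        nlinarith
      rw [Real.log_pow] at this
      exact_mod_cast this
    have hl0 : Real.log (n : ℝ) ≤ 3 * x ^ 3 := by
      rw [hx3]
      linarith
    have B1 := log2_le (n := n + 4) hx (by omega) hl4 rfl
    have B0 := log2_le (n := n) hx (by omega) hl0 rfl
    have B : ((Nat.log 2 (n + 4) : ℝ) + 1) ^ (R + 3) ≤ Real.exp (45 * x ^ 2) := by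
      calc ((Nat.log 2 (n + 4) : ℝ) + 1) ^ (R + 3) ≤ (Real.exp (5 * x)) ^ (R + 3) := by gcongr
        _ = Real.exp (((R + 3 : ℕ) : ℝ) * (5 * x)) := by rw [← Real.exp_nat_mul]
        _ ≤ _ := by
            refine Real.exp_le_exp.2 ?_
            push_cast
            have h1 : (R:ℝ) + 3 ≤ 9 * x := by linarith
            nlinarith
    have B0' : (Nat.log 2 n : ℝ) + 1 ≤ Real.exp (10 * x ^ 2) := by
      refine B0.trans (Real.exp_le_exp.2 ?_)
      nlinarith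
    have C : (Λ:ℝ) ≤ Real.exp (9 * x ^ 2) := by
      calc (Λ:ℝ) ≤ 2 * y := hΛ2
        _ ≤ Real.exp (4 * x ^ 2) * Real.exp (5 * x ^ 2) := by
            have h1 : (2:ℝ) ≤ Real.exp (4 * x ^ 2) := e2.trans (Real.exp_le_exp.2 hx2')
            gcongr
        _ = _ := by
            rw [← Real.exp_add]
            congr 1
            ring
    push_cast
    calc ((Nat.log 2 n : ℝ) + 1) * (2 ^ (a * R ^ 2) * ((Nat.log 2 (n + 4) : ℝ) + 1) ^ (R + 3) * Λ) ≤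
          Real.exp (10 * x ^ 2) * (Real.exp (9 * a * x ^ 2) * Real.exp (45 * x ^ 2) * Real.exp (9 * x ^ 2)) := by
          gcongr
      _ = _ := by
          rw [← Real.exp_add, ← Real.exp_add, ← Real.exp_add]
          congr 1
          ring

end Pool.Agent.W_a4f561_E.N8
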