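import Pool.Agent.W_a4f561_E.Dr8
import Pool.Agent.W_a4f561_E.NumF8
import Pool.Agent.W_a4f561_E.Main8

/-!
MP_a4f561_co: the final theorem, `exp (C (log n) ^ (2/3))` pages for every upward planar digraph.
-/

set_option autoImplicit false

namespace Pool.Agent.W_a4f561_E.E8

open Pool.Agent.W_a4f561_h26

theorem final : ∃ C : ℝ, ∀ (n : ℕ) (G : Digraph (Fin n)) (f : Fin n → ℝ × ℝ) (_ : Function.Injective f)
    (γ : Fin n → Fin n → ℝ → ℝ × ℝ)
    (_ : ∀ u v, G.Adj u v →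
      ContinuousOn (γ u v) (Set.Icc (0:ℝ) 1) ∧
      γ u v 0 = f u ∧ γ u v 1 = f v ∧
      StrictMonoOn (fun t => (γ u v t).2) (Set.Icc (0:ℝ) 1) ∧
      (∀ w, ∀ s ∈ Set.Ioo (0:ℝ) 1, γ u v s ≠ f w))
    (_ : ∀ u v u' v', G.Adj u v → G.Adj u' v' → (u, v) ≠ (u', v') →
      ∀ s ∈ Set.Ioo (0:ℝ) 1, ∀ t ∈ Set.Icc (0:ℝ) 1, γ u v s ≠ γ u' v' t),
    ∃ (σ : Fin n ≃ Fin n) (k : ℕ) (p : Fin n → Fin n → Fin k),
      (k:ℝ) ≤ Real.exp (C * Real.log n ^ (2 / 3 : ℝ)) ∧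
      (∀ u v, G.Adj u v → σ u < σ v) ∧
      (∀ a b c d, G.Adj a b → G.Adj c d → p a b = p c d → ¬ (σ a < σ c ∧ σ c < σ b ∧ σ b < σ d)) := by
  classical
  obtain ⟨a, ha⟩ := M8.bars_main
  refine ⟨9 * a + 64, ?_⟩
  intro n G f hf γ h1 h2
  rcases Nat.lt_or_ge n 2 with hn | hn
  · have hs : ∀ u v : Fin n, u = v := by
      intro u v
      ext
      omega
    have hno : ∀ u v, ¬ G.Adj u v := by
      intro u v huv
      obtain ⟨_, k2, k3, k4, _⟩ := h1 u v huv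
      have k5 := k4 (Set.left_mem_Icc.2 zero_le_one) (Set.right_mem_Icc.2 zero_le_one) zero_lt_one
      simp only at k5
      rw [k2, k3, hs u v] at k5
      exact lt_irrefl _ k5
    refine ⟨Equiv.refl _, 1, fun _ _ => 0, ?_, fun u v h => absurd h (hno u v), fun x y _ _ h => absurd h (hno x y)⟩
    have h0 : Real.log n = 0 := by
      rcases Nat.lt_or_ge n 1 with h3 | h3
      · have : n = 0 := by omega
        rw [this]
        simp
      · have : n = 1 := by omega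
        rw [this]
        simp
    rw [h0, Real.zero_rpow (by norm_num), mul_zero, Real.exp_zero]
    norm_num
  · obtain ⟨R, Λ, hR, hΛ, hb⟩ := N8.num8 a n hn
    have hΛ0 : 0 < Λ := by
      rcases Nat.eq_zero_or_pos Λ with h | h
      · rw [h, zero_pow (by omega)] at hΛ
        omega
      · exact h
    have hBT : BT (n + 4) (2 ^ (a * R ^ 2) * (Nat.log 2 (n + 4) + 1) ^ (R + 3) * Λ) := by
      intro V _ _ B hB hM
      obtain ⟨σ, s1, s2, s3⟩ := ha V B R Λ hR (le_trans (by omega) hΛ) (by omega)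
      refine ⟨σ, s1, s2, fun T hT hc => (s3 T hT hc).trans ?_⟩
      gcongr
    obtain ⟨σ, p, s1, s2⟩ := pages_of_BT (by positivity) hBT n le_rfl G f hf γ h1 h2
    exact ⟨σ, _, p, hb, s1, s2⟩

end Pool.Agent.W_a4f561_E.E8
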