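import Pool.Agent.W_a4f561_h26.Cpl

/-!
MP_a4f561_co (EpsPages): adding one tree, the mirror image of EXTEND and of the trees. (helper2)
-/

set_option autoImplicit false

namespace Pool.Agent.W_a4f561_E.Tr2

open Pool.Agent.W_a4f561_h26

variable {V : Type} [Fintype V] [DecidableEq V] {G : Bars V}
  {σ σ1 σk : St V} {m0 : V × Bool → Option Bool} {ω : V × Bool → Bool} {z : V} {K Tm T C m B : ℕ} {E : Set V}

theorem fin_mir' {τ : St V} {π : V → V} : Fin' G.mir τ.mir π ↔ Fin' G τ π := by
  unfold Fin'
  rw [ch_mir]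
  rfl

theorem le_mir {τ τ' : St V} (h : Le τ τ') : Le τ.mir τ'.mir where
  S := h.S
  Dec := h.Dec
  pi := h.pi
  RD := h.RU
  RU := h.RD

theorem onB_mir (h : Inv G σ) {v : V} : OnB G.mir σ.mir ω z v ↔ OnB G σ ω z v := by
  unfold OnB
  rw [lam_mir h.bot_mem h.top_mem]
  rfl

theorem stg_mir (h : Inv G σ) (hs : Stg G σ ω z σ1 σk T) : Stg G.mir σ.mir ω z σ1.mir σk.mir T where
  le := le_mir hs.le
  inv := inv_mir hs.inv
  lat := hs.lat
  recD := hs.recU
  recU := hs.recD
  hit := by
    intro u hu
    obtain ⟨v, h1, h2, h3⟩ := hs.hit u hu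
    exact ⟨v, (onB_mir h).2 h1, h2, h3⟩

theorem ext_mir {κ : ℝ} {m C : ℕ} (h : EXT G B κ m C) : EXT G.mir B κ m C := by
  intro σ tl Tm z m0 E hinv hlt hz htl hblk hE htE hm0 hcard hκ
  have hinv' : Inv G σ.mir := by
    have h1 := inv_mir hinv
    rwa [mir_mir] at h1
  have hlam : ∀ ω, lam G.mir σ ω = lam G σ.mir ω := by
    intro ω
    have h1 := lam_mir (G := G) (σ := σ.mir) hinv'.bot_mem hinv'.top_mem ω
    exact h1
  have hsuc : ∀ ω, Suc G.mir σ ω z E ↔ Suc G σ.mir ω z E := by
    intro ω
    unfold Suc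
    rw [hlam ω]
    rfl
  have hκ' : κ ≤ pr m0 (fun ω => Suc G σ.mir ω z E) := by
    have h1 : (fun ω => Suc G.mir σ ω z E) = fun ω => Suc G σ.mir ω z E := by
      funext ω
      exact propext (hsuc ω)
    rwa [h1] at hκ
  obtain ⟨σ', hr⟩ := h σ.mir tl Tm z m0 E hinv' hlt hz htl hblk hE htE hm0 hcard hκ'
  refine ⟨σ'.mir, ?_⟩
  exact
    { le := le_mir hr.le
      inv := inv_mir hr.inv
      lat := hr.lat
      start := hr.start
      exit := hr.exit
      time := hr.time
      recD := hr.recU
      recU := hr.recD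
      cD := fun π hπ => hr.cU π (fin_mir'.1 hπ)
      cU := fun π hπ => by
        rw [mir_mir]
        exact hr.cD π (fin_mir'.1 hπ) }

/-- The mirror image of the trees. -/
theorem tr_mir (h : Ctx G σ m0 ω z K Tm E) {idx : V → ℕ} {q : ℕ}
    {ev : ℕ → Bool × Bool × V} {dt : ℕ → V} (hT : Tr G σ m0 ω z (dl K) σ1 σk C T idx q ev dt) :
    Tr G.mir σ.mir m0 ω z (dl K) σ1.mir σk.mir C T idx q (fun i => (!(ev i).1, (ev i).2)) dt where
  stg := stg_mir h.inv hT.stg
  lt := hT.lt
  nxt := hT.nxt
  tm := hT.tm
  mono := hT.mono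
  dT := hT.dT
  same := by
    intro i j hij hj hev
    refine hT.same i j hij hj ?_
    simp only [Prod.mk.injEq, Bool.not_inj_iff] at hev
    exact Prod.ext hev.1 hev.2
  cost := by
    intro i hi π hπ
    have h1 := hT.cost i hi π (fin_mir'.1 hπ)
    refine ⟨h1.2, ?_⟩
    rw [mir_mir]
    exact h1.1
  isev := by
    intro i hi
    have h1 := hT.isev i hi
    revert h1
    rcases ev i with ⟨b1, b2, v⟩
    rcases b1 with _ | _ <;> rcases b2 with _ | _
    · intro h1
      show dlA G.mir.mir σ.mir.mir m0 ω z (dl K) v (dt i)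
      rw [mir_mir]
      exact h1
    · intro h1
      show dlB G.mir.mir σ.mir.mir m0 ω z (dl K) v (dt i)
      rw [mir_mir]
      exact h1
    · intro h1
      exact h1
    · intro h1
      exact h1

theorem ev_onB (h : Inv G σ) {δ : ℝ} {e : Bool × Bool × V} {w : V} (he : Ev G σ m0 ω z δ e w) : OnB G σ ω z w := by
  rcases e with ⟨b1, b2, v⟩
  rcases b1 with _ | _ <;> rcases b2 with _ | _
  · exact (show dlA G σ m0 ω z δ v w from he).2.1
  · exact (show dlB G σ m0 ω z δ v w from he).2.1
  · exact (onB_mir h).1 (show dlA G.mir σ.mir m0 ω z δ v w from he).2.1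
  · exact (onB_mir h).1 (show dlB G.mir σ.mir m0 ω z δ v w from he).2.1

theorem fin_anti {τ τ' : St V} (h : Le τ τ') {π : V → V} (hπ : Fin' G τ' π) : Fin' G τ π := by
  refine ⟨hπ.1, fun v hv => ?_⟩
  rw [hπ.2 v ?_, h.pi v hv]
  rcases hv with hv | hv
  · exact Or.inl (h.S hv)
  · exact Or.inr (h.Dec hv)

/-- Adding one tree. -/
theorem tr_add (h : Ctx G σ m0 ω z K Tm E) (hd : Dr G σ ω z σ1) {idx : V → ℕ} {q : ℕ}
    {ev : ℕ → Bool × Bool × V} {dt : ℕ → V} (hT : Tr G σ m0 ω z (dl K) σ1 σk C T idx q ev dt)
    {e : Bool × Bool × V} {w : V} (he : Ev G σ m0 ω z (dl K) e w) (hTw : T ≤ G.t w) {σ' : St V} {y : V}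
    (hr : Res G (call G σ ω z σk w) σ' (G.t e.2.2) (G.t w) y (tgt G σ ω z σ1 σk w) C)
    (hsame : ∀ i, i < q → ev i = e → ∀ u ∈ σk.S \ σ1.S, idx u = i → G.t u < G.t y ∧
      ∀ u' ∈ σ'.S \ σk.S, G.t u < G.t u') :
    ∃ idx' ev', ∃ dt' : ℕ → V, Tr G σ m0 ω z (dl K) σ1 (σ'.setLat σ.Lat) C (G.t w) idx' (q + 1) ev' dt' ∧
      (∀ u ∈ σk.S \ σ1.S, idx' u = idx u) ∧ (∀ i, i < q → ev' i = ev i) ∧ ev' q = e ∧
      (∀ u ∈ σ'.S \ σk.S, idx' u = q) := by
  classical
  have hw : OnB G σ ω z w := ev_onB h.inv he
  obtain ⟨hst, hle⟩ := stg_next h hd hw (stg_mono hT.stg hTw) hr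
  have hSk : (call G σ ω z σk w).S = σk.S := rfl
  have hS' : (σ'.setLat σ.Lat).S = σ'.S := rfl
  have h1k : σ1.S ⊆ σk.S := hT.stg.le.S
  have hold : ∀ u, u ∈ σ'.S \ σ1.S → u ∉ σ'.S \ σk.S → u ∈ σk.S \ σ1.S := by
    intro u hu hn
    by_contra hc
    refine hn ⟨hu.1, fun h2 => hc ⟨h2, hu.2⟩⟩
  set idx' : V → ℕ := fun u => if u ∈ σ'.S \ σk.S then q else idx u with hidx
  have hi1 : ∀ u ∈ σ'.S \ σk.S, idx' u = q := fun u hu => if_pos hu
  have hi2 : ∀ u ∈ σk.S \ σ1.S, idx' u = idx u := fun u hu => if_neg (fun hc => hc.2 hu.1)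
  set ev' : ℕ → Bool × Bool × V := fun i => if i = q then e else ev i with hev
  have he1 : ev' q = e := if_pos rfl
  have he2 : ∀ i, i < q → ev' i = ev i := fun i hi => if_neg hi.ne
  set dt' : ℕ → V := fun i => if i = q then w else dt i with hdt
  have hd1 : dt' q = w := if_pos rfl
  have hd2 : ∀ i, i < q → dt' i = dt i := fun i hi => if_neg hi.ne
  refine ⟨idx', ev', dt', ?_, hi2, he2, he1, hi1⟩
  exact
    { stg := hst
      lt := by
        intro u hu
        by_cases hn : u ∈ σ'.S \ σk.S
        · rw [hi1 u hn]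
          omega
        · have h2 := hold u hu hn
          rw [hi2 u h2]
          have := hT.lt u h2
          omega
      nxt := by
        intro u hu hpu
        by_cases hn : u ∈ σ'.S \ σk.S
        · rw [hi1 u hn]
          by_cases hn' : (σ'.setLat σ.Lat).pi u ∈ σ'.S \ σk.S
          · rw [hi1 _ hn']
          · have h2 := hold _ hpu hn'
            rw [hi2 _ h2]
            exact (hT.lt _ h2).le
        · have h2 := hold u hu hn
          have h3 : (σ'.setLat σ.Lat).pi u = σk.pi u := hle.pi u (Or.inl h2.1)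
          rw [h3] at hpu ⊢
          have h4 : σk.pi u ∈ σk.S := hT.stg.inv.cl u h2.1
          have h5 : σk.pi u ∈ σk.S \ σ1.S := ⟨h4, hpu.2⟩
          rw [hi2 _ h5, hi2 _ h2]
          exact hT.nxt u h2 h5
      tm := by
        intro u hu
        by_cases hn : u ∈ σ'.S \ σk.S
        · rw [hi1 u hn, he1, hd1]
          exact hr.time u hn
        · have h2 := hold u hu hn
          rw [hi2 u h2, he2 _ (hT.lt u h2), hd2 _ (hT.lt u h2)]
          exact hT.tm u h2
      mono := by
        intro i j hij hj
        rcases Nat.lt_or_ge j q with h2 | h2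
        · rw [hd2 i (by omega), hd2 j h2]
          exact hT.mono i j hij h2
        · have h3 : j = q := by omega
          subst h3
          rw [hd1]
          rcases Nat.lt_or_ge i j with h4 | h4
          · rw [hd2 i h4]
            exact (hT.dT i h4).trans hTw
          · have h5 : i = j := by omega
            subst h5
            rw [hd1]
      dT := by
        intro i hi
        rcases Nat.lt_or_ge i q with h4 | h4
        · rw [hd2 i h4]
          exact (hT.dT i h4).trans hTw
        · have h5 : i = q := by omega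
          subst h5
          rw [hd1]
      same := by
        intro i j hij hj heq u hu u' hu' h2 h3
        have hiq : i < q := by omega
        have hun : u ∉ σ'.S \ σk.S := by
          intro hc
          rw [hi1 u hc] at h2
          omega
        have huo := hold u hu hun
        rw [hi2 u huo] at h2
        rcases Nat.lt_or_ge j q with h4 | h4
        · have hun' : u' ∉ σ'.S \ σk.S := by
            intro hc
            rw [hi1 u' hc] at h3
            omega
          have huo' := hold u' hu' hun'
          rw [hi2 u' huo'] at h3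
          rw [he2 i hiq, he2 j h4] at heq
          exact hT.same i j hij h4 heq u huo u' huo' h2 h3
        · have h5 : j = q := by omega
          subst h5
          rw [he2 i hiq, he1] at heq
          have hn' : u' ∈ σ'.S \ σk.S := by
            by_contra hc
            have huo' := hold u' hu' hc
            rw [hi2 u' huo'] at h3
            have := hT.lt u' huo'
            omega
          exact (hsame i hiq heq u huo h2).2 u' hn'
      cost := by
        intro i hi π hπ
        rcases Nat.lt_or_ge i q with h4 | h4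
        · have hset : {u | u ∈ (σ'.setLat σ.Lat).S \ σ1.S ∧ idx' u = i} = {u | u ∈ σk.S \ σ1.S ∧ idx u = i} := by
            ext u
            constructor
            · rintro ⟨h5, h6⟩
              have hn : u ∉ σ'.S \ σk.S := by
                intro hc
                rw [hi1 u hc] at h6
                omega
              have h7 := hold u h5 hn
              rw [hi2 u h7] at h6
              exact ⟨h7, h6⟩
            · rintro ⟨h5, h6⟩
              refine ⟨⟨hle.S h5.1, h5.2⟩, ?_⟩
              rw [hi2 u h5]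
              exact h6
          rw [hset]
          exact hT.cost i h4 π (fin_anti hle hπ)
        · have h5 : i = q := by omega
          subst h5
          have hset : {u | u ∈ (σ'.setLat σ.Lat).S \ σ1.S ∧ idx' u = i} = σ'.S \ (call G σ ω z σk w).S := by
            ext u
            constructor
            · rintro ⟨h5, h6⟩
              by_contra hn
              have h7 := hold u h5 hn
              rw [hi2 u h7] at h6
              have := hT.lt u h7
              omega
            · intro h5
              exact ⟨⟨h5.1, fun hc => h5.2 (h1k hc)⟩, hi1 u h5⟩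
          rw [hset]
          exact ⟨hr.cD π hπ, hr.cU π hπ⟩
      isev := by
        intro i hi
        rcases Nat.lt_or_ge i q with h4 | h4
        · rw [he2 i h4, hd2 i h4]
          exact hT.isev i h4
        · have h5 : i = q := by omega
          subst h5
          rw [he1, hd1]
          exact he }

end Pool.Agent.W_a4f561_E.Tr2
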