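import Pool.Agent.W_a4f561_h26.Trk
import Pool.Agent.W_a4f561_E.Tr2

/-!
MP_a4f561_co (EpsPages): processing an alpha-event. (helper2)
-/

set_option autoImplicit false

namespace Pool.Agent.W_a4f561_E.EvA2

open Pool.Agent.W_a4f561_h26

variable {V : Type} [Fintype V] [DecidableEq V] {G : Bars V}
  {σ σ1 σk : St V} {m0 : V × Bool → Option Bool} {ω : V × Bool → Bool} {z : V} {K Tm T C m B : ℕ} {E : Set V}

theorem pr_exists {m : V × Bool → Option Bool} {A : (V × Bool → Bool) → Prop} (h : 0 < pr m A) : ∃ ω, A ω := by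
  classical
  by_contra hc
  push Not at hc
  have h1 : pr m A = 0 := by
    unfold pr
    have h2 : (Finset.univ.filter (fun ω : V × Bool → Bool => A (ov m ω))) = ∅ := by
      rw [Finset.filter_eq_empty_iff]
      intro ω _
      exact hc (ov m ω)
    simp [h2]
  rw [h1] at h
  exact lt_irrefl _ h

omit [Fintype V] [DecidableEq V] in
theorem orb_closed {π : V → V} {S : Set V} (hS : ∀ v ∈ S, π v ∈ S) {u v : V} (hu : u ∈ S) (h : Orb π u v) : v ∈ S := by
  obtain ⟨k, rfl⟩ := h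
  induction k with
  | zero => exact hu
  | succ k ih =>
    rw [Function.iterate_succ_apply']
    exact hS _ ih

omit [Fintype V] [DecidableEq V] in
theorem inn_of_notMem (hI : Inv G σ) {v : V} (hv : v ∉ σ.S) : G.inn v :=
  ⟨fun h => hv (h ▸ hI.bot_mem), fun h => hv (h ▸ hI.top_mem)⟩

omit [Fintype V] [DecidableEq V] in
theorem lam_closed (hI : Inv G σ) (ω' : V × Bool → Bool) : ∀ v ∈ σ.S, lam G σ ω' v ∈ σ.S := by
  intro v hv
  unfold lam
  rw [if_pos (show v ∈ σ.S ∪ σ.Dec from Or.inl hv)]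
  exact hI.cl v hv

/-- Waiting: a later deadline. -/
theorem tr_wait {idx : V → ℕ} {q : ℕ} {ev : ℕ → Bool × Bool × V} {dt : ℕ → V}
    (hT : Tr G σ m0 ω z (dl K) σ1 σk C T idx q ev dt) {T' : ℕ} (h : T ≤ T') :
    Tr G σ m0 ω z (dl K) σ1 σk C T' idx q ev dt where
  stg := stg_mono hT.stg h
  lt := hT.lt
  nxt := hT.nxt
  tm := hT.tm
  mono := hT.mono
  dT := fun i hi => (hT.dT i hi).trans h
  same := hT.same
  cost := hT.cost
  isev := hT.isev

/-- Processing an alpha-event. -/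
theorem evA (hE : EXT G B (dl K) (m + 2 * (K + 1)) C) (h : Ctx G σ m0 ω z K Tm E)
    (hm : Set.ncard {c | m0 c ≠ none} ≤ m) (hd : Dr G σ ω z σ1) {idx : V → ℕ} {q : ℕ}
    {ev : ℕ → Bool × Bool × V} {dt : ℕ → V} (hT : Tr G σ m0 ω z (dl K) σ1 σk C T idx q ev dt)
    {v w : V} (hv : dlA G σ m0 ω z (dl K) v w) (hb : blk B (G.t v) (G.t w)) (hTw : T ≤ G.t w)
    (hn : ∀ i, i < q → ev i ≠ (false, false, v)) :
    ∃ σk' idx' q' ev', ∃ dt' : ℕ → V, Le σk σk' ∧ Tr G σ m0 ω z (dl K) σ1 σk' C (G.t w) idx' q' ev' dt' ∧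
      (∀ i, i < q' → (∃ j, j < q ∧ ev' i = ev j) ∨ ev' i = (false, false, v)) ∧ SatA G σ ω z σk' v w := by
  classical
  have hv' := hv
  obtain ⟨hobA, hw, hvw, hpra, _⟩ := hv
  have hDst : Dst G σ ω z v := hobA.1
  have hvB : OnB G σ ω z v := hDst.1
  have hinv : G.inn v := inn_of_notMem h.inv hvB.2
  have hinx : G.inn (G.lo v) := inn_of_notMem h.inv hDst.2.2
  have hdl : 0 < dl K := by
    unfold dl
    positivity
  have hp : 0 < pra G σ m0 ω z v w := hdl.trans_le hpra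
  have hclA := clA h hobA hw hvw hp
  have hst := stg_mono hT.stg hTw
  obtain ⟨ts1, ts2, ts3, _⟩ := tau1_spec G hinv hinx
  have htv : G.t v < G.t (G.flh v) := by omega
  by_cases hy : G.flh v ∈ σk.S
  · -- the head is drawn already
    refine ⟨σk, idx, q, ev, dt, ⟨subset_rfl, subset_rfl, fun _ _ => rfl, subset_rfl, subset_rfl⟩, tr_wait hT hTw,
      fun i hi => Or.inl ⟨i, hi, rfl⟩, hy, ?_⟩
    by_cases hy1 : G.flh v ∈ σ1.S
    · rw [hd.S] at hy1
      obtain ⟨ω', u, hu1, hu2, hu3⟩ := pr_exists (hp.trans_le hclA)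
      rcases hy1 with hy1 | hy1
      · exact absurd (orb_closed (lam_closed h.inv ω') hy1 hu3) hu1.2
      · exact ⟨G.flh v, hy1, (orb_t (ch_lam h.inv ω') hu3).trans hu2, orb_refl _ _⟩
    · obtain ⟨u, hu1, hu2, hu3⟩ := hst.hit _ ⟨hy, hy1⟩
      exact ⟨u, hu1, hu2, hu3⟩
  · -- one call
    have hκ : dl K ≤ pr (mr G σ m0 ω z v)
        (fun ω' => Suc G (call G σ ω z σk w) ω' (G.flh v) (tgt G σ ω z σ1 σk w)) :=
      hpra.trans (hclA.trans (cplA h hd hw hst hDst hinx hy))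
    obtain ⟨hts, htt⟩ := tgt_sub h hd hw hst
    obtain ⟨σ', hr⟩ := hE (call G σ ω z σk w) (G.t v) (G.t w) (G.flh v) (mr G σ m0 ω z v) (tgt G σ ω z σ1 σk w)
      (call_inv h hd hw hst) (call_lt h hd hw hst) hy htv hb hts htt (mr_true h v) (mr_card h hvB hm) hκ
    obtain ⟨idx', ev', dt', hT', _, he2, he1, _⟩ := Tr2.tr_add h hd hT (e := (false, false, v)) (w := w)
      (show Ev G σ m0 ω z (dl K) (false, false, v) w from hv') hTw hr
      (fun i hi hev => absurd hev (hn i hi))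
    obtain ⟨hst', hle⟩ := stg_next h hd hw hst hr
    refine ⟨σ'.setLat σ.Lat, idx', q + 1, ev', dt', hle, hT', ?_, hr.start, ?_⟩
    · intro i hi
      rcases Nat.lt_or_ge i q with h1 | h1
      · exact Or.inl ⟨i, h1, he2 i h1⟩
      · have h2 : i = q := by omega
        subst h2
        exact Or.inr he1
    · have h1 : G.flh v ∈ (σ'.setLat σ.Lat).S \ σ1.S := ⟨hr.start, fun hc => hy (hT.stg.le.S hc)⟩
      obtain ⟨u, hu1, hu2, hu3⟩ := hst'.hit _ h1
      exact ⟨u, hu1, hu2, hu3⟩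

end Pool.Agent.W_a4f561_E.EvA2
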