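import Pool.Agent.W_a4f561_h26.Bas

/-!
MP_a4f561_co (EpsPages): legality of the calls (the second half of `W_a4f561_h26/Cpl.lean`). helper66.
-/

set_option autoImplicit false
set_option linter.unusedSectionVars false

namespace Pool.Agent.W_a4f561_h26

section Pure66

variable {V : Type}

theorem orb_head66 {π : V → V} {u v : V} (h : Orb π u v) : u = v ∨ Orb π (π u) v := by
  obtain ⟨k, hk⟩ := h
  cases k with
  | zero => exact Or.inl hk
  | succ k => exact Or.inr ⟨k, by rwa [Function.iterate_succ_apply] at hk⟩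

theorem orb_cl66 {π : V → V} {S : Set V} (hS : ∀ v ∈ S, π v ∈ S) {u v : V} (hu : u ∈ S) (h : Orb π u v) : v ∈ S := by
  obtain ⟨k, hk⟩ := h
  rw [← hk]
  clear hk
  induction k with
  | zero => exact hu
  | succ k ih =>
    rw [Function.iterate_succ_apply']
    exact hS _ ih

theorem orb_congr66 {π ρ : V → V} {S : Set V} (hS : ∀ v ∈ S, π v ∈ S) (hρ : ∀ v ∈ S, ρ v = π v) {u v : V} (hu : u ∈ S)
    (h : Orb π u v) : Orb ρ u v := by
  obtain ⟨k, hk⟩ := h
  refine ⟨k, ?_⟩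
  rw [← hk]
  clear hk
  induction k with
  | zero => rfl
  | succ k ih =>
    rw [Function.iterate_succ_apply', Function.iterate_succ_apply', ih]
    exact hρ _ (orb_cl66 hS hu ⟨k, rfl⟩)

variable {G : Bars V} {σ : St V}

theorem lam_mem66 (ω : V × Bool → Bool) {v : V} (hv : v ∈ σ.S) : lam G σ ω v = σ.pi v := by
  unfold lam
  rw [if_pos (show v ∈ σ.S ∪ σ.Dec from Or.inl hv)]

theorem lam_cl66 (hI : Inv G σ) (ω : V × Bool → Bool) : ∀ v ∈ σ.S, lam G σ ω v ∈ σ.S := by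
  intro v hv
  rw [lam_mem66 ω hv]
  exact hI.cl v hv

theorem isRec_setLat66 {L : Set V} {R : Rec V} (h : IsRec G σ R) : IsRec G (σ.setLat L) R :=
  ⟨h.q_mem, h.q_new, h.S_sub, h.S_cl, h.b_le, h.ac, h.cN, h.y_b, h.y_t, h.hostS, h.ta, h.tc, h.ya, h.yc, h.reg, h.dec, h.att⟩

theorem isRec_setLat66' {L : Set V} {R : Rec V} (h : IsRec G (σ.setLat L) R) : IsRec G σ R :=
  ⟨h.q_mem, h.q_new, h.S_sub, h.S_cl, h.b_le, h.ac, h.cN, h.y_b, h.y_t, h.hostS, h.ta, h.tc, h.ya, h.yc, h.reg, h.dec, h.att⟩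

/-- Changing the later part of a state. -/
theorem Inv.setLat66 (h : Inv G σ) {L : Set V} (hL : L ⊆ σ.S) (hb : G.bot ∉ L) (ht : G.top ∉ L)
    (hD : ∀ R ∈ σ.RD, R.q ∉ L) (hU : ∀ R ∈ σ.RU, R.q ∉ L) : Inv G (σ.setLat L) where
  bot_mem := h.bot_mem
  top_mem := h.top_mem
  ch := h.ch
  cl := h.cl
  lat_sub := hL
  lat_bot := hb
  lat_top := ht
  recD := fun R hR => isRec_setLat66 (h.recD R hR)
  recU := fun R hR => isRec_setLat66 (h.recU R hR)
  latD := hD
  latU := hU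
  decl := h.decl

theorem Le.trans66 {σ σ' σ'' : St V} (h : Le σ σ') (h' : Le σ' σ'') : Le σ σ'' where
  S := h.S.trans h'.S
  Dec := h.Dec.trans h'.Dec
  pi := by
    intro v hv
    rw [← h.pi v hv]
    exact h'.pi v (hv.imp (fun a => h.S a) fun a => h.Dec a)
  RD := h.RD.trans h'.RD
  RU := h.RU.trans h'.RU

/-- The route before `S` in time order: a vertex of the route outside of `S` is before the entrance `e`. -/
theorem suc_lt66 (hI : Inv G σ) {ω : V × Bool → Bool} {z v e : V} (hv : OnB G σ ω z v) (heS : e ∈ σ.S)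
    (he : Orb (lam G σ ω) z e) : G.t v < G.t e ∧ Orb (lam G σ ω) (lam G σ ω v) e := by
  have hch := ch_lam hI ω
  have h1 : G.t v < G.t e := by
    by_contra hcon
    rw [not_lt] at hcon
    exact hv.2 (orb_cl66 (lam_cl66 hI ω) heS (orb_comp hch he hv.1 hcon))
  refine ⟨h1, ?_⟩
  rcases orb_head66 (orb_comp hch hv.1 he h1.le) with h2 | h2
  · rw [h2] at h1
    exact absurd h1 (lt_irrefl _)
  · exact h2

/-- The step of the route into `S` is the entrance. -/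
theorem suc_step66 (hI : Inv G σ) {ω : V × Bool → Bool} {z v e : V} (hv : OnB G σ ω z v) (heS : e ∈ σ.S)
    (he : Orb (lam G σ ω) z e) (hmin : ∀ u, Orb (lam G σ ω) z u → u ∈ σ.S → G.t e ≤ G.t u)
    (hs : lam G σ ω v ∈ σ.S) : lam G σ ω v = e := by
  have hch := ch_lam hI ω
  have h1 := (suc_lt66 hI hv heS he).2
  have h2 := hmin _ (orb_step hv.1) hs
  have h3 := orb_t hch h1
  exact G.t_inj (le_antisymm h3 h2)

/-- Order of two vertices on the new part. -/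
theorem onB_next66 (hI : Inv G σ) {ω : V × Bool → Bool} {z v w : V} (hv : OnB G σ ω z v) (hw : OnB G σ ω z w)
    (h : G.t v < G.t w) : G.t (lam G σ ω v) ≤ G.t w := by
  have hch := ch_lam hI ω
  rcases orb_head66 (orb_comp hch hv.1 hw.1 h.le) with h2 | h2
  · rw [h2] at h
    exact absurd h (lt_irrefl _)
  · exact orb_t hch h2

end Pure66

variable {V : Type} [Fintype V] [DecidableEq V] {G : Bars V}
  {σ σ1 σk : St V} {m0 : V × Bool → Option Bool} {ω : V × Bool → Bool} {z : V} {K Tm T : ℕ} {E : Set V}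

theorem onB_t66 (h : Ctx G σ m0 ω z K Tm E) {w : V} (hw : OnB G σ ω z w) : G.t w < Tm := by
  obtain ⟨e, heE, heS, he, _⟩ := h.suc
  exact (suc_lt66 h.inv hw heS he).1.trans_le (h.tE e heE)

theorem onB_mem66 (hd : Dr G σ ω z σ1) {v : V} (hv : OnB G σ ω z v) : v ∈ σ1.S := by
  rw [hd.S]
  exact Or.inr hv

theorem mem_cases66 (hd : Dr G σ ω z σ1) (v : V) (hv : v ∈ σk.S) :
    v ∈ σ.S ∨ OnB G σ ω z v ∨ v ∈ σk.S \ σ1.S := by
  by_cases h1 : v ∈ σ1.S
  · rw [hd.S] at h1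
    rcases h1 with h1 | h1
    · exact Or.inl h1
    · exact Or.inr (Or.inl h1)
  · exact Or.inr (Or.inr ⟨hv, h1⟩)

theorem lat_sub66 (hI : Inv G σ) (hd : Dr G σ ω z σ1) (hs : Stg G σ ω z σ1 σk T) : σ.Lat ⊆ σk.S :=
  hI.lat_sub.trans (hd.le.S.trans hs.le.S)

theorem call_inv66 (h : Ctx G σ m0 ω z K Tm E) (hd : Dr G σ ω z σ1) {w : V} (hw : OnB G σ ω z w)
    (hs : Stg G σ ω z σ1 σk T) : Inv G (call G σ ω z σk w) := by
  have key : ∀ q : V, q ∉ σk.Lat → (q ∈ σ.S ∨ q = z ∨ q ∉ σ1.S) →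
      q ∉ σ.Lat ∪ {u | OnB G σ ω z u ∧ G.t w < G.t u} := by
    rintro q h1 h2 (h3 | ⟨h3, h4⟩)
    · rw [hs.lat] at h1
      exact h1 h3
    · rcases h2 with h2 | h2 | h2
      · exact h3.2 h2
      · rw [h2] at h4
        have := orb_t (ch_lam h.inv ω) hw.1
        omega
      · exact h2 (onB_mem66 hd h3)
  refine Inv.setLat66 hs.inv ?_ ?_ ?_ (fun R hR => ?_) (fun R hR => ?_)
  · rintro u (hu | hu)
    · exact lat_sub66 h.inv hd hs hu
    · exact hs.le.S (onB_mem66 hd hu.1)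
  · rintro (hu | hu)
    · exact h.inv.lat_bot hu
    · exact hu.1.2 h.inv.bot_mem
  · rintro (hu | hu)
    · exact h.inv.lat_top hu
    · exact hu.1.2 h.inv.top_mem
  · refine key R.q (hs.inv.latD R hR) ?_
    by_cases h1 : R ∈ σ1.RD
    · by_cases h2 : R ∈ σ.RD
      · exact Or.inl (h.inv.recD R h2).q_mem
      · exact Or.inr (Or.inl (hd.newD R h1 h2).1)
    · exact Or.inr (Or.inr fun h3 => (hs.inv.recD R hR).q_new (hs.recD R hR h1 h3))
  · refine key R.q (hs.inv.latU R hR) ?_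
    by_cases h1 : R ∈ σ1.RU
    · by_cases h2 : R ∈ σ.RU
      · exact Or.inl (h.inv.recU R h2).q_mem
      · exact Or.inr (Or.inl (hd.newU R h1 h2).1)
    · exact Or.inr (Or.inr fun h3 => (hs.inv.recU R hR).q_new (hs.recU R hR h1 h3))

theorem call_lt66 (h : Ctx G σ m0 ω z K Tm E) (hd : Dr G σ ω z σ1) {w : V} (hw : OnB G σ ω z w)
    (hs : Stg G σ ω z σ1 σk (G.t w)) : Lt G (call G σ ω z σk w) (G.t w) := by
  have hle : Le σ σk := hd.le.trans66 hs.le
  have hch := ch_lam h.inv ω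
  intro v hv hpi
  have hv' : v ∈ σk.S := hv
  have hpi' : σk.pi v ∈ σ.Lat ∪ {u | OnB G σ ω z u ∧ G.t w < G.t u} := hpi
  rcases mem_cases66 hd v hv' with h1 | h1 | h1
  · -- `v` in `S`
    have e : σk.pi v = σ.pi v := hle.pi v (Or.inl h1)
    rw [e] at hpi'
    rcases hpi' with h2 | h2
    · exact (onB_t66 h hw).le.trans (h.lt v h1 h2)
    · exact absurd (h.inv.cl v h1) h2.1.2
  · -- `v` on the path
    have e : σk.pi v = lam G σ ω v := by
      rw [hs.le.pi v (Or.inl (onB_mem66 hd h1))]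
      exact hd.pi v h1
    rw [e] at hpi'
    rcases hpi' with h2 | h2
    · obtain ⟨e0, heE, heS, he, hmin⟩ := h.suc
      have h3 := suc_step66 h.inv h1 heS he hmin (h.inv.lat_sub h2)
      rw [h3] at h2
      exact absurd h2 (h.ES heE).2
    · by_contra hcon
      rw [not_le] at hcon
      have := onB_next66 h.inv h1 hw hcon
      have := h2.2
      omega
  · -- `v` in an antenna
    obtain ⟨v', hv1, hv2, hv3⟩ := hs.hit v h1
    have h3 : Orb σk.pi (σk.pi v) v' := by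
      rcases orb_head66 hv3 with h4 | h4
      · exact absurd (onB_mem66 hd hv1) (by rw [← h4]; exact h1.2)
      · exact h4
    rcases hpi' with h2 | h2
    · have h4 : v' ∈ σ.S := by
        refine orb_cl66 (π := σk.pi) (fun u hu => ?_) (h.inv.lat_sub h2) h3
        rw [hle.pi u (Or.inl hu)]
        exact h.inv.cl u hu
      exact absurd h4 hv1.2
    · have h4 := orb_t hs.inv.ch h3
      have := h2.2
      omega

theorem tgt_sub66 (h : Ctx G σ m0 ω z K Tm E) (hd : Dr G σ ω z σ1) {w : V}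
    (hs : Stg G σ ω z σ1 σk (G.t w)) :
    tgt G σ ω z σ1 σk w ⊆ (call G σ ω z σk w).S \ (call G σ ω z σk w).Lat ∧
    ∀ e ∈ tgt G σ ω z σ1 σk w, G.t e ≤ G.t w := by
  constructor
  · rintro u (hu | hu)
    · refine ⟨hs.le.S (onB_mem66 hd hu.1), ?_⟩
      rintro (h1 | h1)
      · exact hu.1.2 (h.inv.lat_sub h1)
      · have := hu.2
        have := h1.2
        omega
    · refine ⟨hu.1, ?_⟩
      rintro (h1 | h1)
      · exact hu.2 (hd.le.S (h.inv.lat_sub h1))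
      · exact hu.2 (onB_mem66 hd h1.1)
  · rintro u (hu | hu)
    · exact hu.2
    · obtain ⟨v', _, hv2, hv3⟩ := hs.hit u hu
      exact (orb_t hs.inv.ch hv3).trans hv2

theorem mr_true66 (v : V) : ∀ c, mr G σ m0 ω z v c ≠ some true := by
  intro c
  unfold mr
  split_ifs
  · simp
  · simp

/-- The stage after a call. -/
theorem stg_next66 (h : Ctx G σ m0 ω z K Tm E) (hd : Dr G σ ω z σ1) {w : V}
    (hs : Stg G σ ω z σ1 σk (G.t w)) {σ' : St V} {tl : ℕ} {y : V} {C : ℕ}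
    (hr : Res G (call G σ ω z σk w) σ' tl (G.t w) y (tgt G σ ω z σ1 σk w) C) :
    Stg G σ ω z σ1 (σ'.setLat σ.Lat) (G.t w) ∧ Le σk (σ'.setLat σ.Lat) := by
  have hle : Le σk (σ'.setLat σ.Lat) := ⟨hr.le.S, hr.le.Dec, hr.le.pi, hr.le.RD, hr.le.RU⟩
  have hlat : σ.Lat ⊆ σ'.Lat := by
    rw [hr.lat]
    exact Set.subset_union_left
  refine ⟨?_, hle⟩
  refine ⟨hs.le.trans66 hle, ?_, rfl, fun R hR h1 => ?_, fun R hR h1 => ?_, fun u hu => ?_⟩
  · refine Inv.setLat66 hr.inv ((lat_sub66 h.inv hd hs).trans hle.S) h.inv.lat_bot h.inv.lat_top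
      (fun R hR h1 => hr.inv.latD R hR (hlat h1)) (fun R hR h1 => hr.inv.latU R hR (hlat h1))
  · by_cases h2 : R ∈ σk.RD
    · exact hs.recD R h2 h1
    · exact hs.le.S.trans (hr.recD R hR h2)
  · by_cases h2 : R ∈ σk.RU
    · exact hs.recU R h2 h1
    · exact hs.le.S.trans (hr.recU R hR h2)
  · have old : ∀ u ∈ σk.S \ σ1.S, ∃ v, OnB G σ ω z v ∧ G.t v ≤ G.t w ∧ Orb σ'.pi u v := by
      intro u hu
      obtain ⟨v, hv1, hv2, hv3⟩ := hs.hit u hu
      exact ⟨v, hv1, hv2, orb_congr66 hs.inv.cl (fun v hv => hr.le.pi v (Or.inl hv)) hu.1 hv3⟩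
    by_cases h1 : u ∈ σk.S
    · exact old u ⟨h1, hu.2⟩
    · obtain ⟨a, _, ha2, ha3⟩ := hr.exit
      have h2 : Orb σ'.pi u (σ'.pi a) := orb_step (ha3 u ⟨hu.1, h1⟩)
      rcases ha2 with h3 | h3
      · exact ⟨_, h3.1, h3.2, h2⟩
      · obtain ⟨v, hv1, hv2, hv3⟩ := old _ h3
        exact ⟨v, hv1, hv2, orb_trans h2 hv3⟩

theorem stg_mono66 {T' : ℕ} (hs : Stg G σ ω z σ1 σk T) (h : T ≤ T') : Stg G σ ω z σ1 σk T' :=
  ⟨hs.le, hs.inv, hs.lat, hs.recD, hs.recU, fun u hu => by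
    obtain ⟨v, h1, h2, h3⟩ := hs.hit u hu
    exact ⟨v, h1, h2.trans h, h3⟩⟩

end Pool.Agent.W_a4f561_h26
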