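import Pool.Agent.W_a4f561_E.Drw25

/-!
MP_a4f561_co, the n^eps theorem: records (pockets). The stubs `rec_back`, `rec_start`, `rec_stay`, `fb_in`, `fb_one` of
`W_a4f561_h26.Drw`.
-/

set_option autoImplicit false

namespace Pool.Agent.W_a4f561_R25

open Pool.Agent.W_a4f561_h26
open Pool.Agent.W_a4f561_E.Pk25 hiding Rec

variable {V : Type} {G : Bars V}

theorem ub_top (G : Bars V) (τ : ℕ) : G.ub G.top τ = G.top := by
  unfold Bars.ub
  rw [dif_neg]
  rintro ⟨u, _, h, _⟩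
  by_cases h1 : u = G.top
  · rw [h1] at h
    exact lt_irrefl _ h
  · exact lt_asymm h (G.r_top u h1)

/-- The host path of a record. -/
theorem q_hp {σ : St V} (hI : Inv G σ) {R : Rec V} (hR : IsRec G σ R) :
    @Hp V G.ord G.b G.t (host G σ.pi R.q) R.a R.c := host_hp hI.ch hR.b_le hR.cN

theorem q_mem {σ : St V} (hI : Inv G σ) {R : Rec V} (hR : IsRec G σ R) {τ : ℕ} (hτ : τ ≤ G.N) :
    host G σ.pi R.q τ ∈ σ.S := host_mem hI.ch (fun v hv => hI.cl v hv) hR.q_mem hτ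

theorem q_upa {σ : St V} (hI : Inv G σ) {R : Rec V} (hR : IsRec G σ R) :
    @Up V G.ord G.b G.t R.a (host G σ.pi R.q R.a) R.y := by
  refine G.up_of_ub ?_ (hR.ac.trans hR.cN) (host_al25 hI.ch (hR.ac.trans hR.cN) hR.b_le) hR.ta
  intro e
  have h1 := hR.ta
  have h2 := hR.ya
  rw [e, ub_top] at h1
  rw [e, ← h1] at h2
  exact lt_irrefl _ h2

theorem q_upc {σ : St V} (hI : Inv G σ) {R : Rec V} (hR : IsRec G σ R) :
    @Up V G.ord G.b G.t R.c (host G σ.pi R.q R.c) R.y := by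
  refine G.up_of_ub ?_ hR.cN (host_al25 hI.ch hR.cN (hR.b_le.trans hR.ac)) hR.tc
  intro e
  have h1 := hR.tc
  have h2 := hR.yc
  rw [e, ub_top] at h1
  rw [e, ← h1] at h2
  exact lt_irrefl _ h2

theorem q_rec {σ : St V} (hI : Inv G σ) {R : Rec V} (hR : IsRec G σ R) (h : R.a < R.c) :
    @Pool.Agent.W_a4f561_E.Pk25.Rec V G.ord G.b G.t (host G σ.pi R.q) R.y R.a R.c :=
  let _ := G.ord
  ⟨h, q_hp hI hR, q_upa hI hR, q_upc hI hR⟩

/-- The host of a record is below the barrier. -/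
theorem q_lt {σ : St V} (hI : Inv G σ) {R : Rec V} (hR : IsRec G σ R) {τ : ℕ} (ha : R.a ≤ τ) (hc : τ ≤ R.c) :
    G.r (host G σ.pi R.q τ) < G.r R.y := by
  let _ := G.ord
  have hy : ∀ s, R.a ≤ s → s ≤ R.c → host G σ.pi R.q s ≠ R.y := by
    intro s h1 h2 h3
    have h4 := (q_hp hI hR).sit h1 h2 le_rfl (by rw [h3]; exact hR.y_t.le)
    rw [h3] at h4
    exact (q_upc hI hR).lt.ne h4
  exact (side_iff G.t_inj (q_hp hI hR) (q_upa hI hR).ay (q_upc hI hR).ay hy ha hc le_rfl hR.ac).2 (q_upa hI hR).lt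

/-- P4, never enter: a route which avoids `S` and is in the region at `τ` is in the region at all earlier times of
the interval at which it is defined. -/
theorem rec_back {σ : St V} (hI : Inv G σ) {R : Rec V} (hR : IsRec G σ R) {ρ : V → V} (hρ : Ch G ρ) {u : V}
    {τ' τ : ℕ} (hu : G.b u ≤ τ') (ha : R.a ≤ τ') (h : τ' ≤ τ) (hc : τ ≤ R.c)
    (hav : ∀ s, τ' ≤ s → s ≤ τ → host G ρ u s ∉ σ.S)
    (h1 : G.r (host G σ.pi R.q τ) < G.r (host G ρ u τ)) (h2 : G.r (host G ρ u τ) < G.r R.y) :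
    G.r (host G σ.pi R.q τ') < G.r (host G ρ u τ') ∧ G.r (host G ρ u τ') < G.r R.y := by
  let _ := G.ord
  have hy : ∀ s, R.a ≤ s → s ≤ R.c → Al G.b G.t s R.y := fun s h1 h2 => ⟨hR.y_b.trans h1, h2.trans hR.y_t.le⟩
  refine back G.t_inj ((q_hp hI hR).mono ha hc) (host_hp hρ hu (hc.trans hR.cN)) h (hy _ ha (h.trans hc))
    (hy _ (ha.trans h) hc) (fun s h3 h4 h5 => ?_) ⟨h1, h2⟩ τ' le_rfl h
  refine hav s h3 h4 ?_
  rw [h5]
  exact q_mem hI hR ((h4.trans hc).trans hR.cN)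

/-- P4: at its first and last time the region is empty, and a route which starts before `R.a` is never inside. -/
theorem rec_start {σ : St V} (hI : Inv G σ) {R : Rec V} (hR : IsRec G σ R) {ρ : V → V} (hρ : Ch G ρ) {u : V}
    {τ : ℕ} (hu : G.b u ≤ τ) (ha : R.a ≤ τ) (hc : τ ≤ R.c)
    (hav : ∀ s, G.b u ≤ s → s ≤ τ → host G ρ u s ∉ σ.S)
    (h1 : G.r (host G σ.pi R.q τ) < G.r (host G ρ u τ)) (h2 : G.r (host G ρ u τ) < G.r R.y) :
    R.a < G.b u ∧ τ < R.c := by
  let _ := G.ord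
  have hal := host_al25 hρ (hc.trans hR.cN) hu
  have k1 : τ ≠ R.a := by
    rintro rfl
    exact (q_upa hI hR).no _ hal h1 h2
  have k2 : τ ≠ R.c := by
    rintro rfl
    exact (q_upc hI hR).no _ hal h1 h2
  refine ⟨?_, by omega⟩
  refine (started G.t_inj (q_rec hI hR (by omega)) (host_hp hρ le_rfl (hc.trans hR.cN)) hu ha hc
    (fun s h3 _ h4 h5 => ?_) ⟨h1, h2⟩).1
  refine hav s h3 h4 ?_
  rw [h5]
  exact q_mem hI hR ((h4.trans hc).trans hR.cN)

/-- P4: a route of a choice function which respects `σ` on `S ∪ Dec` and is inside at `τ` enters `S` before or at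
`R.c`, and stays inside till then; the first vertex in `S` is the host of `R.q` at some time or is in the region. -/
theorem rec_stay {σ : St V} (hI : Inv G σ) {R : Rec V} (hR : IsRec G σ R) {ρ : V → V} (hρ : Ch G ρ)
    (hd : ∀ v ∈ σ.Dec, v ∉ σ.S → ρ v = σ.pi v) {u : V} {τ : ℕ} (hu : G.b u ≤ τ) (ha : R.a ≤ τ) (hc : τ ≤ R.c)
    (h1 : G.r (host G σ.pi R.q τ) < G.r (host G ρ u τ)) (h2 : G.r (host G ρ u τ) < G.r R.y) :
    ∃ s, τ ≤ s ∧ s ≤ R.c ∧ host G ρ u s ∈ σ.S ∧ (∀ s', τ ≤ s' → s' < s → host G ρ u s' ∉ σ.S) ∧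
      ∀ s', τ ≤ s' → s' ≤ s → G.r (host G σ.pi R.q s') ≤ G.r (host G ρ u s') ∧ G.r (host G ρ u s') < G.r R.y := by
  classical
  let _ := G.ord
  have hal := host_al25 hρ (hc.trans hR.cN) hu
  have k1 : τ ≠ R.a := by
    rintro rfl
    exact (q_upa hI hR).no _ hal h1 h2
  have hHp : Hp G.b G.t (host G ρ u) τ R.c := host_hp hρ hu hR.cN
  obtain ⟨e, e1, e2, e3, e4⟩ := leaves G.t_inj (q_rec hI hR (by omega)) ha hc hHp ⟨h1, h2⟩
  -- the step at `e` is not on the barrier if the route avoids `S` before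
  have key : ∃ s, τ ≤ s ∧ s ≤ e ∧ host G ρ u s ∈ σ.S ∧ (s = e → host G ρ u e = host G σ.pi R.q e) := by
    rcases e4 with e4 | e4
    · exact ⟨e, e1.le, le_rfl, by rw [e4]; exact q_mem hI hR (e2.trans hR.cN), fun _ => e4⟩
    · by_cases hS : host G ρ u (e - 1) ∈ σ.S
      · exact ⟨e - 1, by omega, by omega, hS, fun h => by omega⟩
      · exfalso
        have e5 : e - 1 + 1 = e := by omega
        have k3 := e3 (e - 1) (by omega) (by omega)
        obtain ⟨k4, k5⟩ := step_bar hHp (σ := e - 1) (by omega) (by omega) k3 (by rw [e5]; exact e4)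
        set v := host G ρ u (e - 1) with hv
        have hin : G.inn v := G.inn_of_t (τ := e) (by omega) (e2.trans hR.cN)
        have hupv : G.up v = R.y := by
          have := G.ub_of_up k5
          rw [k4] at this
          exact this
        have k6 := hR.dec v hin (by omega) (by omega) (by rw [← k4]; exact k3.1) hupv
        have k7 : v ∈ σ.Dec := k6.1.resolve_left hS
        have k8 := hd v k7 hS
        rw [k6.2] at k8
        rcases host_succ hρ (u := u) (τ := e - 1) (by have := hR.cN; omega) with k9 | ⟨_, k9, _⟩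
        · rw [← hv] at k9
          omega
        · rw [e5, e4, ← hv, k8] at k9
          exact lo_ne_up' hin (by rw [hupv, k9])
  have hex : ∃ s, τ ≤ s ∧ host G ρ u s ∈ σ.S := by
    obtain ⟨s, s1, _, s3, _⟩ := key
    exact ⟨s, s1, s3⟩
  obtain ⟨f1, f2⟩ := Nat.find_spec hex
  set s := Nat.find hex with hs
  have hmin : ∀ s', τ ≤ s' → s' < s → host G ρ u s' ∉ σ.S := fun s' l1 l2 l3 => Nat.find_min hex l2 ⟨l1, l3⟩
  obtain ⟨s0, s1, s2, s3, s4⟩ := key
  have hss : s ≤ s0 := Nat.find_min' hex ⟨s1, s3⟩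
  refine ⟨s, f1, (hss.trans s2).trans e2, f2, hmin, fun s' l1 l2 => ?_⟩
  rcases Nat.lt_or_ge s' e with l3 | l3
  · exact ⟨(e3 s' l1 l3).1.le, (e3 s' l1 l3).2⟩
  · have l4 : s' = e := by omega
    have l5 : s0 = e := by omega
    rw [l4, s4 l5]
    exact ⟨le_rfl, q_lt hI hR (ha.trans e1.le) e2⟩

/-- The host between the deaths of `v` and `π v`. -/
theorem host_btw {π : V → V} (h : Ch G π) {u v : V} {τ : ℕ} (hv : Orb π u v) (h1 : G.t v < τ)
    (h2 : τ ≤ G.t (π v)) (h3 : τ ≤ G.N) : host G π u τ = π v := by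
  obtain ⟨k, rfl⟩ := hv
  rw [← Function.iterate_succ_apply' π k u] at h2 ⊢
  exact host_eq h h3 (fun j hj => (h.iter_mono u (by omega)).trans_lt h1) h2

/-- A route inside the region of a record at one time before it enters `S` is inside all the time before `S`. -/
theorem in_all {σ : St V} (hI : Inv G σ) {R : Rec V} (hR : IsRec G σ R) {ρ : V → V} (hρ : Ch G ρ)
    (hS : ∀ v ∈ σ.S, ρ v ∈ σ.S)
    (hd : ∀ v ∈ σ.Dec, v ∉ σ.S → ρ v = σ.pi v) {z : V} {θ : ℕ} (hz : G.b z ≤ θ) (ha : R.a ≤ θ) (hc : θ ≤ R.c)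
    (hθ : host G ρ z θ ∉ σ.S)
    (h1 : G.r (host G σ.pi R.q θ) < G.r (host G ρ z θ)) (h2 : G.r (host G ρ z θ) < G.r R.y) {τ : ℕ}
    (k1 : G.b z ≤ τ) (k2 : τ ≤ G.N) (k3 : host G ρ z τ ∉ σ.S) :
    R.a < τ ∧ τ < R.c ∧ G.r (host G σ.pi R.q τ) < G.r (host G ρ z τ) ∧ G.r (host G ρ z τ) < G.r R.y := by
  let _ := G.ord
  have hal := host_al25 hρ (hc.trans hR.cN) hz
  have k4 : θ ≠ R.a := by
    rintro rfl
    exact (q_upa hI hR).no _ hal h1 h2
  have hav : ∀ s, s ≤ max θ τ → host G ρ z s ∉ σ.S := by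
    intro s l1 l2
    rcases le_total θ τ with l3 | l3
    · rw [max_eq_right l3] at l1
      have := host_mem hρ hS l2 k2
      rw [host_host hρ l1 k2] at this
      exact k3 this
    · rw [max_eq_left l3] at l1
      have := host_mem hρ hS l2 (hc.trans hR.cN)
      rw [host_host hρ l1 (hc.trans hR.cN)] at this
      exact hθ this
  have hmN : max θ τ ≤ G.N := max_le (hc.trans hR.cN) k2
  have hHp : Hp G.b G.t (host G ρ z) (G.b z) (max θ τ) := host_hp hρ le_rfl hmN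
  obtain ⟨m1, m2, m3⟩ := inside_of G.t_inj (q_rec hI hR (by omega)) hHp hz (le_max_left _ _) ha hc
    (fun s l1 l2 _ l3 l4 => hav s l2 (by rw [l4]; exact q_mem hI hR (l3.trans hR.cN)))
    (fun s l1 l2 l3 l4 l5 l6 => by
      obtain ⟨n1, n2⟩ := step_bar hHp l1 l2 l5 l6
      set v := host G ρ z s with hv
      have hin : G.inn v := G.inn_of_t (τ := s + 1) (by omega) (by omega)
      have hupv : G.up v = R.y := by
        have := G.ub_of_up n2
        rw [n1] at this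
        exact this
      have n3 := hR.dec v hin (by omega) (by omega) (by rw [← n1]; exact l5.1) hupv
      have n4 := hav s l2.le
      rw [← hv] at n4
      have n5 := hd v (n3.1.resolve_left n4) n4
      rw [n3.2] at n5
      rcases host_succ hρ (u := z) (τ := s) (by omega) with n6 | ⟨_, n6, _⟩
      · rw [← hv] at n6
        omega
      · rw [l6, ← hv, n5] at n6
        exact lo_ne_up' hin (by rw [hupv, n6]))
    ⟨h1, h2⟩
  have m4 := m3 τ k1 (le_max_right _ _)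
  have m5 : τ ≤ max θ τ := le_max_right _ _
  exact ⟨by omega, by omega, m4.1, m4.2⟩

/-- The time of the first long head: facts from `fb`. -/
theorem fb_time {σ : St V} {v u : V} (hin : G.inn u) (hlo : G.lo u = G.lo v) (ht : G.t u + 1 = G.tau1 v) :
    G.t v ≤ G.t u ∧ G.tau1 v ≤ G.t (G.lo v) := by
  have hne : {τ | G.t v < τ ∧ G.t (G.lo v) < G.t (G.ub (G.lo v) τ)}.Nonempty := by
    by_contra hcon
    rw [Set.not_nonempty_iff_eq_empty] at hcon
    have h1 : G.tau1 v = 0 := by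
      unfold Bars.tau1
      rw [hcon]
      exact Nat.sInf_empty
    omega
  have h2 := Nat.sInf_mem hne
  have h3 : G.t v < G.tau1 v := h2.1
  have h4 := G.t_lo hin
  rw [hlo] at h4
  omega

variable [Fintype V] [DecidableEq V]

/-- Forced barriers: the whole route is in the region of an old record with that barrier. -/
theorem fb_in {σ : St V} {m0 : V × Bool → Option Bool} {ω : V × Bool → Bool} {z : V} {K Tm : ℕ} {E : Set V}
    (h : Ctx G σ m0 ω z K Tm E) {v : V} (hv : Dst G σ ω z v) (hf : fb G σ v) :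
    ∃ R ∈ σ.RD, R.y = G.flh v ∧ ∀ τ, G.b z ≤ τ → τ ≤ G.N → host G (lam G σ ω) z τ ∉ σ.S →
      R.a ≤ τ ∧ τ ≤ R.c ∧ G.r (host G σ.pi R.q τ) < G.r (host G (lam G σ ω) z τ) ∧
      G.r (host G (lam G σ ω) z τ) < G.r R.y := by
  let _ := G.ord
  obtain ⟨u, f1, f2, f3, f4, f5, f6⟩ := hf
  have hI := h.inv
  have hch := lam_ch hI ω
  have hdec : ∃ R ∈ σ.RD, DecBy G σ R u := by
    rcases hI.decl u f1 f2 with hd | ⟨R, hR, hd⟩
    · exact hd
    · exfalso
      have hin : G.inn u := G.inn_of_t hd.2.1 (hI.recU R hR).cN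
      have h1 : σ.pi u = G.mir.lo u := hd.2.2.2.2
      rw [G.mir_lo, f3] at h1
      exact lo_ne_up' hin h1
  obtain ⟨R, hR, hd⟩ := hdec
  have hRr := hI.recD R hR
  have hin : G.inn u := G.inn_of_t hd.2.1 hRr.cN
  obtain ⟨t1, t2⟩ := fb_time (σ := σ) hin f4 f5
  have huN : G.t u ≤ G.N := hd.2.1.le.trans hRr.cN
  have hzv : G.b z ≤ G.t u := ((G.bt z).trans (Orb.t_le hch hv.1.1)).trans t1
  -- the host at the death of `u`
  have hcl : ∀ v ∈ σ.S, lam G σ ω v ∈ σ.S := fun v hv => by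
    rw [lam_of_mem G σ ω (Or.inl hv)]
    exact hI.cl v hv
  have hhost : host G (lam G σ ω) z (G.t u) ∉ σ.S ∧
      G.r (host G σ.pi R.q (G.t u)) < G.r (host G (lam G σ ω) z (G.t u)) ∧
      G.r (host G (lam G σ ω) z (G.t u)) < G.r R.y := by
    have huy : G.r u < G.r R.y := by
      rw [← hd.2.2.2.1]
      exact (G.up_up hin).lt
    rcases t1.eq_or_lt with t3 | t3
    · have e : v = u := G.t_inj t3
      rw [host_of_orb hch hv.1.1 t3.symm huN, e]
      exact ⟨f2, hd.2.2.1, huy⟩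
    · have e : host G (lam G σ ω) z (G.t u) = G.lo v := by
        rw [← hv.2.1]
        refine host_btw hch hv.1.1 t3 ?_ huN
        rw [hv.2.1]
        omega
      rw [e]
      have k1 := G.up_lo hin
      rw [f4] at k1
      refine ⟨hv.2.2, ?_, k1.lt.trans huy⟩
      have k2 : host G σ.pi R.q (G.t u) ≠ G.lo v := by
        intro k3
        have := q_mem hI hRr huN
        rw [k3] at this
        exact hv.2.2 this
      refine lt_of_le_of_ne (not_lt.1 fun k3 => ?_) (fun k3 => k2 (G.r_inj k3))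
      exact k1.no _ (host_al25 hI.ch huN (hRr.b_le.trans hd.1.le)) k3 hd.2.2.1
  refine ⟨R, hR, by rw [← f6]; exact hd.2.2.2.1.symm, fun τ k1 k2 k3 => ?_⟩
  obtain ⟨m1, m2, m3, m4⟩ := in_all hI hRr hch hcl
    (fun v hv _ => lam_of_mem G σ ω (Or.inr hv)) hzv hd.1.le hd.2.1.le hhost.1 hhost.2.1 hhost.2.2 k1 k2 k3
  exact ⟨m1.le, m2.le, m3, m4⟩

/-- P5: one forced barrier. -/
theorem fb_one {σ : St V} {m0 : V × Bool → Option Bool} {ω : V × Bool → Bool} {z : V} {K Tm : ℕ} {E : Set V}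
    (h : Ctx G σ m0 ω z K Tm E) {v v' : V} (hv : Dst G σ ω z v) (hf : fb G σ v) (hv' : Dst G σ ω z v')
    (hf' : fb G σ v') : G.flh v = G.flh v' := by
  have key : ∀ v v', Dst G σ ω z v → fb G σ v → Dst G σ ω z v' → fb G σ v' → G.r (G.flh v) ≤ G.r (G.flh v') := by
    intro v v' hv hf hv' hf'
    let _ := G.ord
    obtain ⟨R, _, _, hin⟩ := fb_in h hv hf
    obtain ⟨R', hR', hy', hin'⟩ := fb_in h hv' hf'
    have hI := h.inv
    have hch := lam_ch hI ω
    obtain ⟨u, f1, f2, f3, f4, f5, f6⟩ := hf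
    have hinu : G.inn u ∧ G.t u + 1 ≤ G.N := by
      rcases hI.decl u f1 f2 with ⟨R, hR, hd⟩ | ⟨R, hR, hd⟩
      · have := (hI.recD R hR).cN
        exact ⟨G.inn_of_t hd.2.1 this, hd.2.1.trans_le this⟩
      · have := (hI.recU R hR).cN
        exact ⟨G.inn_of_t hd.2.1 this, hd.2.1.trans_le this⟩
    obtain ⟨t1, t2⟩ := fb_time (σ := σ) hinu.1 f4 f5
    have hN : G.tau1 v ≤ G.N := by rw [← f5]; exact hinu.2
    have e : host G (lam G σ ω) z (G.tau1 v) = G.lo v := by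
      rw [← hv.2.1]
      refine host_btw hch hv.1.1 (by omega) ?_ hN
      rw [hv.2.1]
      exact t2
    have hzv : G.b z ≤ G.tau1 v := ((G.bt z).trans (Orb.t_le hch hv.1.1)).trans (by omega)
    obtain ⟨m1, m2, m3, m4⟩ := hin' (G.tau1 v) hzv hN (by rw [e]; exact hv.2.2)
    rw [e] at m4
    have hne : G.lo v ≠ G.top := by
      intro h1
      have := hv.2.2
      rw [h1] at this
      exact this hI.top_mem
    have hR'r := hI.recD R' hR'
    have h5 := (G.ub_spec hne hN).2.2 R'.y ⟨hR'r.y_b.trans m1, m2.trans hR'r.y_t.le⟩ m4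
    rw [← hy']
    exact h5
  exact G.r_inj (le_antisymm (key v v' hv hf hv' hf') (key v' v hv' hf' hv hf))

end Pool.Agent.W_a4f561_R25
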