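import Pool.Agent.W_a4f561_h26.Bas
import Pool.Agent.W_a4f561_E.Rec25

/-!
MP_a4f561_co, the n^eps theorem: satisfied events close the heads (for `own_bound`).
-/

set_option autoImplicit false

namespace Pool.Agent.W_a4f561_O25

open Pool.Agent.W_a4f561_h26

variable {V : Type} {G : Bars V} {σ σ1 σk : St V} {ω : V × Bool → Bool} {z : V} {π : V → V}

/-- A final choice function follows the path. -/
theorem pi_onB (hd : Dr G σ ω z σ1) (hle : Le σ1 σk) (hπ : Fin' G σk π) {v : V} (hv : OnB G σ ω z v) :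
    π v = lam G σ ω v := by
  have h1 : v ∈ σ1.S := by
    rw [hd.S]
    exact Or.inr hv
  rw [hπ.2 v (Or.inl (hle.S h1)), hle.pi v (Or.inl h1), hd.pi v hv]

/-- Two vertices of the path are on one route of the final choice function. -/
theorem orb_onB (hI : Inv G σ) (hd : Dr G σ ω z σ1) (hle : Le σ1 σk) (hπ : Fin' G σk π) {a u : V}
    (ha : OnB G σ ω z a) (hu : OnB G σ ω z u) (ht : G.t a ≤ G.t u) : Orb π a u := by
  have hch := lam_ch hI ω
  have h1 : Orb (lam G σ ω) a u := by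
    rcases Orb.cmp ha.1 hu.1 with h2 | h2
    · exact h2
    · have h3 : a = u := G.t_inj (le_antisymm ht (Orb.t_le hch h2))
      rw [h3]
      exact ⟨0, rfl⟩
  obtain ⟨k, hk⟩ := h1
  have hcl : ∀ j, ∀ v ∈ σ.S, (lam G σ ω)^[j] v ∈ σ.S := by
    intro j
    induction j with
    | zero => exact fun v hv => hv
    | succ j ih =>
      intro v hv
      rw [Function.iterate_succ_apply]
      refine ih _ ?_
      rw [lam_of_mem G σ ω (Or.inl hv)]
      exact hI.cl v hv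
  have hon : ∀ j, j ≤ k → OnB G σ ω z ((lam G σ ω)^[j] a) := by
    intro j hj
    refine ⟨Orb.trans ha.1 ⟨j, rfl⟩, fun h2 => hu.2 ?_⟩
    have h3 := hcl (k - j) _ h2
    rw [← Function.iterate_add_apply] at h3
    have e : k - j + j = k := by omega
    rw [e, hk] at h3
    exact h3
  have key : ∀ j, j ≤ k → π^[j] a = (lam G σ ω)^[j] a := by
    intro j
    induction j with
    | zero => intro _; rfl
    | succ j ih =>
      intro hj
      rw [Function.iterate_succ_apply', Function.iterate_succ_apply', ih (by omega)]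
      exact pi_onB hd hle hπ (hon j (by omega))
  exact ⟨k, by rw [key k le_rfl, hk]⟩

/-- A vertex of the path which dies after a D-step `v → lo v` is on the route of `lo v`. -/
theorem orb_lo (hI : Inv G σ) (hd : Dr G σ ω z σ1) (hle : Le σ1 σk) (hπ : Fin' G σk π) {v u : V}
    (hv : Dst G σ ω z v) (hu : OnB G σ ω z u) (ht : G.t v < G.t u) : Orb π (G.lo v) u ∧ G.t (G.lo v) ≤ G.t u := by
  have hch := lam_ch hI ω
  have hx : OnB G σ ω z (G.lo v) := by
    refine ⟨?_, hv.2.2⟩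
    rw [← hv.2.1]
    exact Orb.step hv.1.1
  have h1 : G.t (G.lo v) ≤ G.t u := by
    rcases Orb.cmp hv.1.1 hu.1 with h2 | h2
    · obtain ⟨k, hk⟩ := h2
      rcases Nat.eq_zero_or_pos k with h3 | h3
      · rw [h3] at hk
        have : v = u := hk
        rw [this] at ht
        exact absurd ht (lt_irrefl _)
      · have h4 : Orb (lam G σ ω) (G.lo v) u := by
          refine ⟨k - 1, ?_⟩
          rw [← hv.2.1, ← Function.iterate_succ_apply]
          have e : (k - 1).succ = k := by omega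
          rw [e]
          exact hk
        exact Orb.t_le hch h4
    · exact absurd (Orb.t_le hch h2) (not_le.2 ht)
  exact ⟨orb_onB hI hd hle hπ hx hu h1, h1⟩

/-- Squeezing. -/
theorem squeeze (hπ : Ch G π) {x h y u : V} {τ : ℕ} (hx : G.al x τ) (hh : G.al h τ) (hy : G.al y τ)
    (h1 : G.r x ≤ G.r h) (h2 : G.r h ≤ G.r y) (hxu : Orb π x u) (hyu : Orb π y u) (h3 : τ ≤ G.t u)
    (h4 : G.t u ≤ G.N) : Orb π h u := by
  have hN : τ ≤ G.N := h3.trans h4
  have ex := host_self25 hπ hN hx.2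
  have eh := host_self25 hπ hN hh.2
  have ey := host_self25 hπ hN hy.2
  have k1 := order_one hπ hx.1 hh.1 h3 h4 (by rw [ex, eh]; exact h1)
  have k2 := order_one hπ hh.1 hy.1 h3 h4 (by rw [ey, eh]; exact h2)
  rw [host_of_orb hπ hxu rfl h4] at k1
  rw [host_of_orb hπ hyu rfl h4] at k2
  have k3 : host G π h (G.t u) = u := G.r_inj (le_antisymm k2 k1)
  have k4 := host_orb25 hπ h h4
  rw [k3] at k4
  exact k4

/-- A final choice function follows the drawn routes. -/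
theorem orb_fin {y u : V} (hk : Inv G σk) (hπ : Fin' G σk π) (hy : y ∈ σk.S) (h : Orb σk.pi y u) : Orb π y u := by
  obtain ⟨k, rfl⟩ := h
  have hm : ∀ j, σk.pi^[j] y ∈ σk.S := by
    intro j
    induction j with
    | zero => exact hy
    | succ j ih =>
      rw [Function.iterate_succ_apply']
      exact hk.cl _ ih
  have key : ∀ j, π^[j] y = σk.pi^[j] y := by
    intro j
    induction j with
    | zero => rfl
    | succ j ih =>
      rw [Function.iterate_succ_apply', Function.iterate_succ_apply', ih]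
      exact hπ.2 _ (Or.inl (hm j))
  exact ⟨k, key k⟩

theorem onB_inn (hI : Inv G σ) {u : V} (hu : OnB G σ ω z u) : G.inn u := by
  constructor
  · rintro rfl
    exact hu.2 hI.bot_mem
  · rintro rfl
    exact hu.2 hI.top_mem

/-- (A) A drawn first long head closes all its long heads. -/
theorem closA (hI : Inv G σ) (hd : Dr G σ ω z σ1) (hle : Le σ1 σk) (hk : Inv G σk) (hπ : Fin' G σk π) {y w : V}
    (hy : y ∈ σk.S) (hu : ∃ u, OnB G σ ω z u ∧ G.t u ≤ G.t w ∧ Orb σk.pi y u) {v : V} (hv : Dst G σ ω z v)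
    (hfl : G.flh v = y) {τ : ℕ} (h1 : G.tau1 v ≤ τ) (h2 : τ ≤ G.t (G.lo v)) :
    ∃ u, OnB G σ ω z u ∧ G.t u ≤ G.t w ∧ Orb π (G.lo v) u ∧ Orb π (G.ub (G.lo v) τ) u := by
  obtain ⟨u, hu1, hu2, hu3⟩ := hu
  have hin := onB_inn hI hv.1
  have hx : OnB G σ ω z (G.lo v) := ⟨by rw [← hv.2.1]; exact Orb.step hv.1.1, hv.2.2⟩
  have hxi := onB_inn hI hx
  obtain ⟨s1, s2, s3, s4, s5, s6⟩ := tau1_spec G hin hxi
  have hxN : G.t (G.lo v) < G.N := G.t_in _ hxi.1 hxi.2
  have hyu := orb_fin hk hπ hy hu3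
  have hty : G.t y ≤ G.t u := Orb.t_le hπ.1 hyu
  rw [← hfl] at hty
  obtain ⟨k1, k2⟩ := orb_lo hI hd hle hπ hv hu1 (by omega)
  have hub := G.ub_spec hxi.2 (h2.trans hxN.le)
  refine ⟨u, hu1, hu2, k1, squeeze hπ.1 (x := G.lo v) (y := y) (τ := τ) ?_ hub.1 ?_ hub.2.1.le ?_ k1 hyu (by omega)
    (G.t_in _ (onB_inn hI hu1).1 (onB_inn hI hu1).2).le⟩
  · exact ⟨(al_lo G hin).1.1.trans (by omega), h2⟩
  · rw [← hfl]
    exact ⟨s4.1.trans h1, by omega⟩
  · rw [← hfl]
    exact s6 τ h1 h2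

/-- (B) A satisfied beta-event closes all short heads. -/
theorem closB (hI : Inv G σ) (hd : Dr G σ ω z σ1) (hle : Le σ1 σk) (hπ : Fin' G σk π) {v w : V}
    (hs : SatB G σ ω z σk v w) (hv : Dst G σ ω z v) {τ : ℕ} (h1 : G.t v < τ) (h2 : τ < G.tau1 v) :
    ∃ u, OnB G σ ω z u ∧ G.t u ≤ G.t w ∧ Orb π (G.lo v) u ∧ Orb π (G.ub (G.lo v) τ) u := by
  obtain ⟨u, hu1, hu2, hu3⟩ := hs π hπ τ h1 h2
  have hin := onB_inn hI hv.1
  have hx : OnB G σ ω z (G.lo v) := ⟨by rw [← hv.2.1]; exact Orb.step hv.1.1, hv.2.2⟩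
  have hxi := onB_inn hI hx
  obtain ⟨s1, s2, s3, s4, s5, s6⟩ := tau1_spec G hin hxi
  have hxN : G.t (G.lo v) < G.N := G.t_in _ hxi.1 hxi.2
  have hub := G.ub_spec hxi.2 (τ := τ) (by omega)
  have htu : G.t (G.ub (G.lo v) τ) ≤ G.t u := Orb.t_le hπ.1 hu3
  have := hub.1.2
  exact ⟨u, hu1, hu2, (orb_lo hI hd hle hπ hv hu1 (by omega)).1, hu3⟩

/-- An unmerged pair of a step `v` is not closed before `T`. -/
theorem open_of {p : V} {T : ℕ} {v h u : V} (hp : Orb π p v) (hpv : π v = G.lo v)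
    (hun : ∀ z, Orb π p z → Orb π h z → T ≤ G.t z) (hu : Orb π (G.lo v) u) (hh : Orb π h u) : T ≤ G.t u := by
  refine hun u (Orb.trans (Orb.step hp) ?_) hh
  rw [hpv]
  exact hu

/-- (A) for unmerged pairs. -/
theorem openA (hI : Inv G σ) (hd : Dr G σ ω z σ1) (hle : Le σ1 σk) (hk : Inv G σk) (hπ : Fin' G σk π) {v w : V}
    {v0 : V} (hs : SatA G σ ω z σk v0 w) (hv : Dst G σ ω z v) (hfl : G.flh v = G.flh v0) {p : V} {T τ : ℕ}
    (hp : Orb π p v) (hun : ∀ z, Orb π p z → Orb π (G.ub (G.lo v) τ) z → T ≤ G.t z) (h1 : G.tau1 v ≤ τ)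
    (h2 : τ ≤ G.t (G.lo v)) : T ≤ G.t w := by
  obtain ⟨u, u1, u2, u3, u4⟩ := closA hI hd hle hk hπ hs.1 hs.2 hv hfl h1 h2
  exact (open_of hp (by rw [pi_onB hd hle hπ hv.1]; exact hv.2.1) hun u3 u4).trans u2

/-- (B) for unmerged pairs. -/
theorem openB (hI : Inv G σ) (hd : Dr G σ ω z σ1) (hle : Le σ1 σk) (hπ : Fin' G σk π) {v w : V}
    (hs : SatB G σ ω z σk v w) (hv : Dst G σ ω z v) {p : V} {T τ : ℕ} (hp : Orb π p v)
    (hun : ∀ z, Orb π p z → Orb π (G.ub (G.lo v) τ) z → T ≤ G.t z) (h1 : G.t v < τ) (h2 : τ < G.tau1 v) :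
    T ≤ G.t w := by
  obtain ⟨u, u1, u2, u3, u4⟩ := closB hI hd hle hπ hs hv h1 h2
  exact (open_of hp (by rw [pi_onB hd hle hπ hv.1]; exact hv.2.1) hun u3 u4).trans u2

end Pool.Agent.W_a4f561_O25
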