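import Pool.Agent.W_a4f561_h26.Cpl
import Pool.Agent.W_a4f561_h26.Trk
import Pool.Agent.W_a4f561_E.Own25
import Pool.Agent.W_a4f561_E.Tr2
import Pool.Agent.W_a4f561_E.Leg66

/-!
MP_a4f561_co, the n^eps theorem: processing a beta-event.
-/

set_option autoImplicit false

namespace Pool.Agent.W_a4f561_E.Evb25

open Pool.Agent.W_a4f561_h26 Pool.Agent.W_a4f561_O25
open Pool.Agent.W_a4f561_E.Tr2 (fin_anti tr_add)

variable {V : Type} {G : Bars V} {π : V → V}

theorem orb_host (hπ : Ch G π) {y u : V} {τ : ℕ} (h : Orb π y u) (h1 : τ ≤ G.t u) (h2 : G.t u ≤ G.N) :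
    Orb π (host G π y τ) u := by
  have h3 := host_orb25 hπ (host G π y τ) h2
  rw [host_host hπ h1 h2, host_of_orb hπ h rfl h2] at h3
  exact h3

/-- Orbits of a closed set are kept in a larger state. -/
theorem orb_le {σ σ' : St V} (hI : Inv G σ) (hle : Le σ σ') {u a : V} (hu : u ∈ σ.S) (h : Orb σ.pi u a) :
    Orb σ'.pi u a := by
  obtain ⟨k, rfl⟩ := h
  have hm : ∀ j, σ.pi^[j] u ∈ σ.S := by
    intro j
    induction j with
    | zero => exact hu
    | succ j ih =>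
      rw [Function.iterate_succ_apply']
      exact hI.cl _ ih
  have key : ∀ j, σ'.pi^[j] u = σ.pi^[j] u := by
    intro j
    induction j with
    | zero => rfl
    | succ j ih =>
      rw [Function.iterate_succ_apply', Function.iterate_succ_apply', ih]
      exact hle.pi _ (Or.inl (hm j))
  exact ⟨k, key k⟩

theorem pr_pos_ex [Fintype V] [DecidableEq V] {m : V × Bool → Option Bool} {A : (V × Bool → Bool) → Prop}
    (h : 0 < pr m A) : ∃ ω', A ω' := by
  classical
  by_contra hcon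
  push Not at hcon
  unfold pr at h
  rw [Finset.filter_false_of_mem fun ω' _ => hcon _] at h
  simp at h

variable [Fintype V] [DecidableEq V]
  {σ σ1 σk : St V} {m0 : V × Bool → Option Bool} {ω : V × Bool → Bool} {z : V} {K Tm T C m B : ℕ} {E : Set V}

/-- The short heads are below the route of the last exposed head. -/
theorem sat_of_exposed (h : Ctx G σ m0 ω z K Tm E) (hd : Dr G σ ω z σ1) (hle : Le σ1 σk) {v w : V}
    (hv : Dst G σ ω z v)
    (ha : ∀ v', G.inn v' → G.lo v' = G.lo v → G.t v ≤ G.t v' → G.t v' + 1 < G.tau1 v → ∀ π, Fin' G σk π →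
      ∃ u, OnB G σ ω z u ∧ G.t u ≤ G.t w ∧ Orb π (G.up v') u) : SatB G σ ω z σk v w := by
  classical
  intro π hπ τ h1 h2
  have hI := h.inv
  have hin := onB_inn hI hv.1
  have hx : OnB G σ ω z (G.lo v) := ⟨by rw [← hv.2.1]; exact Orb.step hv.1.1, hv.2.2⟩
  have hxi := onB_inn hI hx
  obtain ⟨s1, s2, s3, s4, s5, s6⟩ := tau1_spec G hin hxi
  have hxN : G.t (G.lo v) < G.N := G.t_in _ hxi.1 hxi.2
  -- the last exposed head
  obtain ⟨v', hv', hmax⟩ := Finset.exists_max_image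
    (Finset.univ.filter fun v' => G.inn v' ∧ G.lo v' = G.lo v ∧ G.t v ≤ G.t v' ∧ G.t v' < τ) G.t
    ⟨v, by simp [hin, h1]⟩
  simp only [Finset.mem_filter, Finset.mem_univ, true_and] at hv' hmax
  obtain ⟨k1, k2, k3, k4⟩ := hv'
  obtain ⟨u, u1, u2, u3⟩ := ha v' k1 k2 k3 (by omega) π hπ
  have hty : G.t v' < G.t (G.up v') := G.t_up k1
  have htu : G.t (G.up v') ≤ G.t u := Orb.t_le hπ.1 u3
  obtain ⟨l1, l2⟩ := orb_lo hI hd hle hπ hv u1 (by omega)
  have hui := onB_inn hI u1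
  have huN : G.t u < G.N := G.t_in _ hui.1 hui.2
  have hby : G.b (G.up v') ≤ G.t v' := (al_up G k1).1.1
  have hbx : G.b (G.lo v) ≤ G.t v := (al_lo G hin).1.1
  have key : ∀ s, G.t v' + 1 ≤ s → s ≤ τ → G.r (G.lo v) < G.r (host G π (G.up v') s) := by
    intro s
    induction s with
    | zero => intro h3 _; omega
    | succ s ih =>
      intro h3 h4
      rcases Nat.lt_or_ge (G.t v') s with h5 | h5
      · have h6 := ih (by omega) (by omega)
        rcases host_succ hπ.1 (u := G.up v') (τ := s) (by omega) with ⟨_, h7⟩ | ⟨h7, h8, h9⟩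
        · rw [h7]
          exact h6
        · set g := host G π (G.up v') s with hg
          rw [h8]
          rcases hπ.1.2.2 g h9 with h10 | h10
          · rw [h10]
            have h11 := (G.lb_spec h9.1 (τ := G.t g) (by omega)).2.2 (G.lo v) ⟨by omega, by omega⟩ h6
            have h11' : G.r (G.lo v) ≤ G.r (G.lo g) := h11
            refine lt_of_le_of_ne h11' fun h12 => ?_
            have h13 := hmax g ⟨h9, (G.r_inj h12).symm, by omega, by omega⟩
            omega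
          · rw [h10]
            exact h6.trans (r_up G h9)
      · have e : s = G.t v' := by omega
        rw [e, host_self25 hπ.1 (by omega) (by omega)]
        rw [← k2]
        exact (r_lo G k1).trans (r_up G k1)
  have h3 := key τ (by omega) le_rfl
  have hgal := host_al25 hπ.1 (u := G.up v') (τ := τ) (by omega) (by omega)
  have hub := G.ub_spec hxi.2 (τ := τ) (by omega)
  exact ⟨u, u1, u2, squeeze hπ.1 (x := G.lo v) (y := host G π (G.up v') τ) (τ := τ) ⟨by omega, by omega⟩ hub.1 hgal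
    hub.2.1.le (hub.2.2 _ hgal h3) l1 (orb_host hπ.1 u3 (by omega) huN.le) (by omega) huN.le⟩

/-- The invariant of the loop. -/
def LI (G : Bars V) (σ σ1 σk : St V) (m0 : V × Bool → Option Bool) (ω : V × Bool → Bool) (z : V) (K C : ℕ) (q : ℕ)
    (ev : ℕ → Bool × Bool × V) (v w : V) (θ : ℕ) : Prop :=
  ∃ σk' idx' q' ev', ∃ dt' : ℕ → V, Le σk σk' ∧ Tr G σ m0 ω z (dl K) σ1 σk' C (G.t w) idx' q' ev' dt' ∧
    (∀ i, i < q' → (∃ j, j < q ∧ ev' i = ev j) ∨ ev' i = (false, true, v)) ∧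
    (∀ v', G.inn v' → G.lo v' = G.lo v → G.t v ≤ G.t v' → G.t v' < θ → G.t v' + 1 < G.tau1 v → ∀ π, Fin' G σk' π →
      ∃ u, OnB G σ ω z u ∧ G.t u ≤ G.t w ∧ Orb π (G.up v') u) ∧
    (∀ u ∈ σk'.S \ σ1.S, ev' (idx' u) = (false, true, v) → ∃ v0 a, G.inn v0 ∧ G.lo v0 = G.lo v ∧ G.t v ≤ G.t v0 ∧
      G.t v0 < θ ∧ G.up v0 ∈ σk'.S ∧ a ∈ σk'.S \ σ1.S ∧ Orb σk'.pi (G.up v0) a ∧ Orb σk'.pi u a)

theorem loop_step (hE : EXT G B (dl K) (m + 2 * (K + 1)) C) (h : Ctx G σ m0 ω z K Tm E)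
    (hm : Set.ncard {c | m0 c ≠ none} ≤ m) (hd : Dr G σ ω z σ1) {q : ℕ}
    {ev : ℕ → Bool × Bool × V}
    {v w : V} (hv : dlB G σ m0 ω z (dl K) v w) (hb : blk B (G.t v) (G.t w)) {θ : ℕ}
    (hL : LI G σ σ1 σk m0 ω z K C q ev v w θ) : LI G σ σ1 σk m0 ω z K C q ev v w (θ + 1) := by
  classical
  obtain ⟨σk', idx', q', ev', dt', hle, hT, hev, ha, hbb⟩ := hL
  have hI := h.inv
  have hst := hT.stg
  have hk := hst.inv
  have hD : Dst G σ ω z v := hv.1.1
  have hw : OnB G σ ω z w := hv.2.1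
  have hvw : G.t v < G.t w := hv.2.2.1
  have hin := onB_inn hI hD.1
  have hx : OnB G σ ω z (G.lo v) := ⟨by rw [← hD.2.1]; exact Orb.step hD.1.1, hD.2.2⟩
  have hxi := onB_inn hI hx
  obtain ⟨s1, s2, s3, s4, s5, s6⟩ := tau1_spec G hin hxi
  have hxN : G.t (G.lo v) < G.N := G.t_in _ hxi.1 hxi.2
  have hdl : 0 < dl K := by
    unfold dl
    positivity
  by_cases hex : ∃ v', G.inn v' ∧ G.lo v' = G.lo v ∧ G.t v ≤ G.t v' ∧ G.t v' = θ ∧ G.t v' + 1 < G.tau1 v
  swap
  · refine ⟨σk', idx', q', ev', dt', hle, hT, hev, fun v' k1 k2 k3 k4 k5 => ?_, fun u hu he => ?_⟩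
    · rcases Nat.lt_or_ge (G.t v') θ with k6 | k6
      · exact ha v' k1 k2 k3 k6 k5
      · exact absurd ⟨v', k1, k2, k3, by omega, k5⟩ hex
    · obtain ⟨v0, a, k1, k2, k3, k4, k5⟩ := hbb u hu he
      exact ⟨v0, a, k1, k2, k3, by omega, k5⟩
  obtain ⟨v', k1, k2, k3, k4, k5⟩ := hex
  have hty := G.t_up k1
  -- the probability of the head
  have hcl := clB h hv.1 hw hvw k1 k2 k3 k5 (hdl.trans_le hv.2.2.2.1)
  have hpos : 0 < pr (memc G σ m0 ω z v true)
      (fun ω' => ∃ u, OnB G σ ω z u ∧ G.t u ≤ G.t w ∧ Orb (lam G σ ω') (G.up v') u) :=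
    (hdl.trans_le hv.2.2.2.1).trans_le hcl
  have hhit : ∃ ω' : V × Bool → Bool, ∃ u, OnB G σ ω z u ∧ G.t u ≤ G.t w ∧ Orb (lam G σ ω') (G.up v') u :=
    pr_pos_ex hpos
  -- the transfer for the old exposed heads
  have old : ∀ (θ' : ℕ), θ ≤ θ' → ∀ u ∈ σk'.S \ σ1.S, ev' (idx' u) = (false, true, v) → ∃ v0 a, G.inn v0 ∧
      G.lo v0 = G.lo v ∧ G.t v ≤ G.t v0 ∧ G.t v0 < θ' ∧ G.up v0 ∈ σk'.S ∧ a ∈ σk'.S \ σ1.S ∧
      Orb σk'.pi (G.up v0) a ∧ Orb σk'.pi u a := by
    intro θ' hθ u hu he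
    obtain ⟨v0, a, l1, l2, l3, l4, l5⟩ := hbb u hu he
    exact ⟨v0, a, l1, l2, l3, by omega, l5⟩
  by_cases hyS : G.up v' ∈ σk'.S
  · -- the head is drawn already
    refine ⟨σk', idx', q', ev', dt', hle, hT, hev, fun v2 l1 l2 l3 l4 l5 π hπ => ?_, old _ (Nat.le_succ θ)⟩
    rcases Nat.lt_or_ge (G.t v2) θ with l6 | l6
    · exact ha v2 l1 l2 l3 l6 l5 π hπ
    · have e : v2 = v' := G.t_inj (by omega)
      rw [e]
      by_cases hyT : G.up v' ∈ σ1.S
      · obtain ⟨ω', u, u1, u2, u3⟩ := hhit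
        have hch' := lam_ch hI ω'
        have hnS : G.up v' ∉ σ.S := by
          intro hS
          obtain ⟨j, hj⟩ := u3
          have hcl : ∀ j, (lam G σ ω')^[j] (G.up v') ∈ σ.S := by
            intro j
            induction j with
            | zero => exact hS
            | succ j ih =>
              rw [Function.iterate_succ_apply', lam_of_mem G σ ω' (Or.inl ih)]
              exact hI.cl _ ih
          exact u1.2 (hj ▸ hcl j)
        have hon : OnB G σ ω z (G.up v') := by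
          have := hyT
          rw [hd.S] at this
          exact this.resolve_left hnS
        exact ⟨G.up v', hon, (Orb.t_le hch' u3).trans u2, ⟨0, rfl⟩⟩
      · obtain ⟨v3, m1, m2, m3⟩ := hst.hit _ ⟨hyS, hyT⟩
        exact ⟨v3, m1, m2, orb_fin hk hπ hyS m3⟩
  by_cases hop : ∃ u ∈ σk'.S \ σ1.S, ev' (idx' u) = (false, true, v) ∧ θ < G.t u
  · -- squeezed under an open tree
    refine ⟨σk', idx', q', ev', dt', hle, hT, hev, fun v2 l1 l2 l3 l4 l5 π hπ => ?_, old _ (Nat.le_succ θ)⟩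
    rcases Nat.lt_or_ge (G.t v2) θ with l6 | l6
    · exact ha v2 l1 l2 l3 l6 l5 π hπ
    · have e : v2 = v' := G.t_inj (by omega)
      rw [e]
      obtain ⟨u, hu, he, htu⟩ := hop
      obtain ⟨v0, a, n1, n2, n3, n4, n5, n6, n7, n8⟩ := hbb u hu he
      obtain ⟨v3, m1, m2, m3⟩ := hst.hit a n6
      have hya : Orb π (G.up v0) a := orb_fin hk hπ n5 n7
      have hav : Orb π a v3 := orb_fin hk hπ n6.1 m3
      have hta : G.t u ≤ G.t a := Orb.t_le hk.ch n8
      have htv : G.t a ≤ G.t v3 := Orb.t_le hπ.1 hav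
      have h3i := onB_inn hI m1
      have h3N : G.t v3 < G.N := G.t_in _ h3i.1 h3i.2
      have hby0 : G.b (G.up v0) ≤ G.t v0 := (al_up G n1).1.1
      have hbx : G.b (G.lo v) ≤ G.t v := (al_lo G hin).1.1
      set g := host G π (G.up v0) (θ + 1) with hg
      have hgal : G.al g (θ + 1) := host_al25 hπ.1 (by omega) (by omega)
      have hga : Orb π g a := orb_host hπ.1 hya (by omega) (by omega)
      -- the host is above `lo v`
      have hxg : G.r (G.lo v) ≤ G.r g := by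
        have h5 : host G π (G.up v0) (G.t v0) = G.up v0 := host_self25 hπ.1 (by omega) (by have := G.t_up n1; omega)
        refine (order_bar hπ.1 (τ1 := G.t v0) (τ2 := θ + 1) hby0 (by omega) (by omega) (by omega) (by omega)).2.1 ?_
        rw [h5, ← n2]
        exact (r_lo G n1).trans (r_up G n1)
      have hne : G.lo v ≠ g := by
        intro e2
        rw [← e2] at hga
        -- `a` is on the route of a vertex of `σ1.S`
        have h6 : ∀ j, π^[j] (G.lo v) ∈ σ1.S := by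
          intro j
          induction j with
          | zero =>
            show G.lo v ∈ σ1.S
            rw [hd.S]
            exact Or.inr hx
          | succ j ih =>
            rw [Function.iterate_succ_apply', hπ.2 _ (Or.inl (hst.le.S ih)), hst.le.pi _ (Or.inl ih)]
            exact hd.inv.cl _ ih
        obtain ⟨j, hj⟩ := hga
        exact n6.2 (hj ▸ h6 j)
      have hxg' : G.r (G.lo v) < G.r g := lt_of_le_of_ne hxg fun e2 => hne (G.r_inj e2)
      have hub := G.ub_spec hxi.2 (τ := θ + 1) (by omega)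
      have hyub : G.ub (G.lo v) (θ + 1) = G.up v' := by
        have := ub_lo G k1
        rw [k2, k4] at this
        exact this
      rw [hyub] at hub
      exact ⟨v3, m1, m2, squeeze hπ.1 (x := G.lo v) (y := g) (τ := θ + 1) ⟨by omega, by omega⟩ hub.1 hgal
        hub.2.1.le (hub.2.2 _ hgal hxg') (orb_lo hI hd hst.le hπ hD m1 (by omega)).1 (Orb.trans hga hav) (by omega)
        h3N.le⟩
  · -- a new tree
    push Not at hop
    have hblk : blk B θ (G.t w) := by
      obtain ⟨c, c1, c2⟩ := hb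
      exact ⟨c, by omega, c2⟩
    have hpr := (hv.2.2.2.1.trans hcl).trans (cplB h hd hw hst hv.1 hvw k1 k2 k3 k5 hyS)
    have htg := tgt_sub h hd hw hst
    obtain ⟨σ', hr⟩ := hE (call G σ ω z σk' w) θ (G.t w) (G.up v') (mr G σ m0 ω z v) (tgt G σ ω z σ1 σk' w)
      (call_inv h hd hw hst) (call_lt h hd hw hst) hyS (by omega) hblk htg.1 htg.2 (mr_true h v)
      (mr_card h hD.1 hm) hpr
    have hr' : Res G (call G σ ω z σk' w) σ' (G.t v) (G.t w) (G.up v') (tgt G σ ω z σ1 σk' w) C :=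
      { le := hr.le
        inv := hr.inv
        lat := hr.lat
        start := hr.start
        exit := hr.exit
        time := fun u hu => ⟨lt_of_le_of_lt (by omega) (hr.time u hu).1, (hr.time u hu).2⟩
        recD := hr.recD
        recU := hr.recU
        cD := hr.cD
        cU := hr.cU }
    obtain ⟨idx2, ev2, dt2, hT2, p1, p2, p3, p4⟩ := tr_add h hd hT (e := (false, true, v)) (w := w) hv le_rfl hr'
      (fun i hi hei u hu hiu => by
        have h7 := hop u hu (by rw [hiu]; exact hei)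
        exact ⟨by omega, fun u' hu' => lt_of_le_of_lt h7 (hr.time u' hu').1⟩)
    obtain ⟨_, hle2⟩ := stg_next h hd hw hst hr'
    have hS1 : σ1.S ⊆ σk'.S := hst.le.S
    refine ⟨σ'.setLat σ.Lat, idx2, q' + 1, ev2, dt2, Le.trans66 hle hle2, hT2, fun i hi => ?_,
      fun v2 l1 l2 l3 l4 l5 π hπ => ?_, fun u hu he => ?_⟩
    · rcases Nat.lt_or_ge i q' with h7 | h7
      · rw [p2 i h7]
        exact hev i h7
      · have : i = q' := by omega
        rw [this]
        exact Or.inr p3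
    · rcases Nat.lt_or_ge (G.t v2) θ with l6 | l6
      · exact ha v2 l1 l2 l3 l6 l5 π (fin_anti hle2 hπ)
      · have e : v2 = v' := G.t_inj (by omega)
        rw [e]
        have hyn : G.up v' ∈ (σ'.setLat σ.Lat).S := hr.start
        obtain ⟨v3, m1, m2, m3⟩ := hT2.stg.hit _ ⟨hyn, fun h8 => hyS (hS1 h8)⟩
        exact ⟨v3, m1, m2, orb_fin hT2.stg.inv hπ hyn m3⟩
    · by_cases huk : u ∈ σk'.S
      · have hu' : u ∈ σk'.S \ σ1.S := ⟨huk, hu.2⟩
        rw [p1 u hu', p2 _ (hT.lt u hu')] at he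
        obtain ⟨v0, a, n1, n2, n3, n4, n5, n6, n7, n8⟩ := hbb u hu' he
        exact ⟨v0, a, n1, n2, n3, by omega, hle2.S n5, ⟨hle2.S n6.1, n6.2⟩, orb_le hk hle2 n5 n7, orb_le hk hle2 huk n8⟩
      · obtain ⟨a, a1, _, a3⟩ := hr.exit
        have hyn : G.up v' ∈ σ'.S \ σk'.S := ⟨hr.start, hyS⟩
        exact ⟨v', a, k1, k2, k3, by omega, hr.start, ⟨a1.1, fun h8 => a1.2 (hS1 h8)⟩, a3 _ hyn, a3 _ ⟨hu.1, huk⟩⟩

/-- Processing a beta-event (the loop over the exposed heads). -/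
theorem evB (hE : EXT G B (dl K) (m + 2 * (K + 1)) C) (h : Ctx G σ m0 ω z K Tm E)
    (hm : Set.ncard {c | m0 c ≠ none} ≤ m) (hd : Dr G σ ω z σ1) {idx : V → ℕ} {q : ℕ}
    {ev : ℕ → Bool × Bool × V} {dt : ℕ → V} (hT : Tr G σ m0 ω z (dl K) σ1 σk C T idx q ev dt)
    {v w : V} (hv : dlB G σ m0 ω z (dl K) v w) (hb : blk B (G.t v) (G.t w)) (hTw : T ≤ G.t w)
    (hn : ∀ i, i < q → ev i ≠ (false, true, v)) :
    ∃ σk' idx' q' ev', ∃ dt' : ℕ → V, Le σk σk' ∧ Tr G σ m0 ω z (dl K) σ1 σk' C (G.t w) idx' q' ev' dt' ∧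
      (∀ i, i < q' → (∃ j, j < q ∧ ev' i = ev j) ∨ ev' i = (false, true, v)) ∧ SatB G σ ω z σk' v w := by
  have hTw' : Tr G σ m0 ω z (dl K) σ1 σk C (G.t w) idx q ev dt :=
    { hT with
      stg := stg_mono hT.stg hTw
      dT := fun i hi => (hT.dT i hi).trans hTw }
  have key : ∀ θ, LI G σ σ1 σk m0 ω z K C q ev v w θ := by
    intro θ
    induction θ with
    | zero =>
      refine ⟨σk, idx, q, ev, dt, ⟨subset_rfl, subset_rfl, fun _ _ => rfl, subset_rfl, subset_rfl⟩, hTw',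
        fun i hi => Or.inl ⟨i, hi, rfl⟩, fun v' _ _ _ h4 => absurd h4 (Nat.not_lt_zero _), fun u hu he => ?_⟩
      exact absurd he (hn _ (hT.lt u hu))
    | succ θ ih => exact loop_step hE h hm hd hv hb ih
  obtain ⟨σk', idx', q', ev', dt', h1, h2, h3, h4, _⟩ := key (G.tau1 v)
  exact ⟨σk', idx', q', ev', dt', h1, h2, h3, sat_of_exposed h hd h2.stg.le hv.1.1
    fun v' k1 k2 k3 k4 => h4 v' k1 k2 k3 (by omega) k4⟩

end Pool.Agent.W_a4f561_E.Evb25
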