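import Pool.Agent.W_a4f561_E.Asm8

/-!
MP_a4f561_co: from twists of size `C n^ε` for bars to `C n^ε` pages for upward planar digraphs.
-/

set_option autoImplicit false

namespace Pool.Agent.W_a4f561_E

open Sum Pool.Agent.W_a4f561_h25 Pool.Agent.W_a4f561_h73

/-- The numbers: `(log₂ n + 1) (C (n+2)^(ε/2) + 1) ≤ C' n^ε`. -/
theorem num_le {ε C : ℝ} (hε : 0 < ε) (hC : 0 ≤ C) {n : ℕ} (hn : 1 ≤ n) :
    ((Nat.log 2 n : ℝ) + 1) * (C * ((n:ℝ) + 2) ^ (ε / 2) + 1) ≤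
      (2 / (ε * Real.log 2) + 1) * (C * 3 ^ (ε / 2) + 1) * (n:ℝ) ^ ε := by
  have hn' : (1:ℝ) ≤ n := by exact_mod_cast hn
  have hn0 : (0:ℝ) ≤ n := by linarith
  have hl2 : 0 < Real.log 2 := Real.log_pos (by norm_num)
  have h1 : (1:ℝ) ≤ (n:ℝ) ^ (ε / 2) := Real.one_le_rpow hn' (by positivity)
  have h2 : (Nat.log 2 n : ℝ) ≤ 2 / (ε * Real.log 2) * (n:ℝ) ^ (ε / 2) := by
    have h3 : (Nat.log 2 n : ℝ) * Real.log 2 ≤ Real.log n := by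
      rw [← Real.log_pow]
      refine Real.log_le_log (by positivity) ?_
      exact_mod_cast Nat.pow_log_le_self 2 (by omega)
    have h4 := Real.log_le_rpow_div hn0 (show 0 < ε / 2 by positivity)
    have h5 : (Nat.log 2 n : ℝ) ≤ Real.log n / Real.log 2 := by
      rw [le_div_iff₀ hl2]
      exact h3
    refine h5.trans ?_
    rw [div_le_iff₀ hl2]
    refine h4.trans (le_of_eq ?_)
    field_simp
  have h3 : (Nat.log 2 n : ℝ) + 1 ≤ (2 / (ε * Real.log 2) + 1) * (n:ℝ) ^ (ε / 2) := by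
    rw [add_mul, one_mul]
    exact add_le_add h2 h1
  have h4 : ((n:ℝ) + 2) ^ (ε / 2) ≤ 3 ^ (ε / 2) * (n:ℝ) ^ (ε / 2) := by
    rw [← Real.mul_rpow (by norm_num) hn0]
    exact Real.rpow_le_rpow (by positivity) (by linarith) (by positivity)
  have h5 : C * ((n:ℝ) + 2) ^ (ε / 2) + 1 ≤ (C * 3 ^ (ε / 2) + 1) * (n:ℝ) ^ (ε / 2) := by
    rw [add_mul, one_mul, mul_assoc]
    exact add_le_add (mul_le_mul_of_nonneg_left h4 hC) h1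
  have h6 : (n:ℝ) ^ ε = (n:ℝ) ^ (ε / 2) * (n:ℝ) ^ (ε / 2) := by
    rw [← Real.rpow_add (by linarith)]
    congr 1
    ring
  calc _ ≤ ((2 / (ε * Real.log 2) + 1) * (n:ℝ) ^ (ε / 2)) * ((C * 3 ^ (ε / 2) + 1) * (n:ℝ) ^ (ε / 2)) := by
        refine mul_le_mul h3 h5 (by positivity) (by positivity)
    _ = _ := by rw [h6]; ring

/-- Pages for upward planar digraphs from twists of bars. -/
theorem final (H : ∀ ε : ℝ, 0 < ε → ∃ C : ℝ, BarsTwist (fun m => C * (m:ℝ) ^ ε)) (ε : ℝ) (hε : 0 < ε) :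
    ∃ C : ℝ, ∀ (n : ℕ) (G : Digraph (Fin n)) (f : Fin n → ℝ × ℝ) (_ : Function.Injective f)
    (γ : Fin n → Fin n → ℝ → ℝ × ℝ)
    (_ : ∀ u v, G.Adj u v →
      ContinuousOn (γ u v) (Set.Icc (0:ℝ) 1) ∧
      γ u v 0 = f u ∧ γ u v 1 = f v ∧
      StrictMonoOn (fun t => (γ u v t).2) (Set.Icc (0:ℝ) 1) ∧
      (∀ w, ∀ s ∈ Set.Ioo (0:ℝ) 1, γ u v s ≠ f w))
    (_ : ∀ u v u' v', G.Adj u v → G.Adj u' v' → (u, v) ≠ (u', v') →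
      ∀ s ∈ Set.Ioo (0:ℝ) 1, ∀ t ∈ Set.Icc (0:ℝ) 1, γ u v s ≠ γ u' v' t),
    ∃ (σ : Fin n ≃ Fin n) (k : ℕ) (p : Fin n → Fin n → Fin k), (k:ℝ) ≤ C * (n:ℝ) ^ ε ∧
      (∀ u v, G.Adj u v → σ u < σ v) ∧
      (∀ a b c d, G.Adj a b → G.Adj c d → p a b = p c d → ¬ (σ a < σ c ∧ σ c < σ b ∧ σ b < σ d)) := by
  obtain ⟨C, hC⟩ := H (ε / 2) (by positivity)
  refine ⟨(2 / (ε * Real.log 2) + 1) * (|C| * 3 ^ (ε / 2) + 1), ?_⟩
  intro n G f hf γ h1 h2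
  rcases Nat.eq_zero_or_pos n with rfl | hn
  · refine ⟨Equiv.refl _, 0, fun a => a.elim0, ?_, fun u => u.elim0, fun a => a.elim0⟩
    rw [Nat.cast_zero, Real.zero_rpow hε.ne', mul_zero]
  obtain ⟨c, hc, σ, s1, s2⟩ := drw_of_bars hC n G f hf γ h1 h2
  have hb : C * (c:ℝ) ^ (ε / 2) ≤ |C| * ((n:ℝ) + 2) ^ (ε / 2) := by
    have h3 : (c:ℝ) ^ (ε / 2) ≤ ((n:ℝ) + 2) ^ (ε / 2) :=
      Real.rpow_le_rpow (by positivity) (by exact_mod_cast hc) (by positivity)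
    calc C * (c:ℝ) ^ (ε / 2) ≤ |C| * (c:ℝ) ^ (ε / 2) :=
          mul_le_mul_of_nonneg_right (le_abs_self C) (by positivity)
      _ ≤ _ := mul_le_mul_of_nonneg_left h3 (abs_nonneg C)
  obtain ⟨p, hp⟩ := pages_of_twist (K := ⌊|C| * ((n:ℝ) + 2) ^ (ε / 2)⌋₊ + 1) (Nat.succ_pos _) σ G.Adj s1 (by
    intro F hF hT
    have h3 := (s2 F hF hT).trans hb
    have h4 : F.card ≤ ⌊|C| * ((n:ℝ) + 2) ^ (ε / 2)⌋₊ := Nat.le_floor h3
    omega)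
  refine ⟨σ, _, p, ?_, s1, hp⟩
  have h3 : ((⌊|C| * ((n:ℝ) + 2) ^ (ε / 2)⌋₊ : ℕ) : ℝ) ≤ |C| * ((n:ℝ) + 2) ^ (ε / 2) :=
    Nat.floor_le (by positivity)
  push_cast
  refine le_trans ?_ (num_le hε (abs_nonneg C) hn)
  refine mul_le_mul_of_nonneg_left ?_ (by positivity)
  linarith

end Pool.Agent.W_a4f561_E
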