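import Pool.Agent.W_a4f561_E.Law73
import Pool.Agent.W_a4f561_E.Det70

/-!
MP_a4f561_co, n^eps: the harm lemma (helper73).
-/

set_option autoImplicit false

namespace Pool.Agent.W_a4f561_E73

open Pool.Agent.W_a4f561_h26 Pool.Agent.W_a4f561_E

variable {V : Type} [Fintype V] [DecidableEq V] {G : Bars V} {σ : St V}
  {m : V × Bool → Option Bool} {z w : V} {δ : ℝ}

omit [Fintype V] in
theorem memc_eq (ω : V × Bool → Bool) (z v : V) (c : Bool) :
    memc G σ m ω z v c = asg (mem G σ m ω z v) (G.coin v) c := by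
  classical
  funext κ
  unfold memc asg
  by_cases h : κ = G.coin v
  · rw [if_pos h, if_pos h]
  · rw [if_neg h, if_neg h]

/-- The inequality at a harmful step. -/
theorem harm_law (inv : Inv G σ) (hD : HD G σ) (hw : w ∉ σ.S) {K : ℕ}
    {ω : V × Bool → Bool} {v : V} {g : V × Bool → Option Bool} {d : Bool}
    (hI : MInv G σ m z (ω, v) g) (hS : v ∉ σ.S) (ha : ask G σ v)
    (hu : uni (mem G σ m ω z v) g (G.coin v) = none)
    (hh : hrm G σ m (Function.update ω (G.coin v) d) z (dl K) w v) (hg : gc g ≤ K)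
    {f : ℝ} (hf : (100 / 101 : ℝ) ^ (2 * (K + 1)) < f) :
    (if d = true then G.zz v else G.oo v) = G.lo v ∧
    (Pr (asg (uni (mem G σ m ω z v) g) (G.coin v) d) (fun ω => Orb (lam G σ ω) (G.lo v) w) = 0 ∨
      Pr (asg (uni (mem G σ m ω z v) g) (G.coin v) (!d)) (fun ω => Orb (lam G σ ω) (G.up v) w) ≤ 1 / 1000 * f ∨
      ∃ r, r ≠ G.coin v ∧ uni (mem G σ m ω z v) g r = none ∧ r = G.blw (G.flh v) ∧
        Pr (asg (uni (mem G σ m ω z v) g) (G.coin v) (!d)) (fun ω => Orb (lam G σ ω) (G.up v) w) ≤
          Pr (asg (asg (uni (mem G σ m ω z v) g) (G.coin v) d) r false) (fun ω => Orb (lam G σ ω) (G.lo v) w) / 2 +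
            1 / 1000 * f) := by
  have hv := inn_of_notS inv hS
  obtain ⟨hag, hex, hor, hlam, _, _⟩ := upd_facts (b := d) inv hI hS ha (Or.inl hu)
  have hd := dst_of_hrm hh
  have hx := hd.2.2
  have hxi := inn_of_notS inv hx
  have hlo : (if d = true then G.zz v else G.oo v) = G.lo v := by rw [← hlam]; exact hd.2.1
  have hmem := hag.mem_imp inv m (u := v) le_rfl
  have hf0 : (0 : ℝ) ≤ f := le_trans (by positivity) hf.le
  set U := uni (mem G σ m ω z v) g with hU
  refine ⟨hlo, ?_⟩
  have hdl : dl K = 1 / 1000 * (1 / 2 : ℝ) ^ K * (100 / 101 : ℝ) ^ (2 * (K + 1)) := rfl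
  rcases zz_oo G v with ⟨h1, h2, h3⟩ | ⟨h1, h2, h3⟩
  · -- the longer-lived neighbour is the first long head
    have hfl := (tau1_up hv hxi h1).2
    have hdf : d = false := by
      cases d with
      | false => rfl
      | true =>
        exfalso
        simp only [if_true] at hlo
        rw [h2] at hlo
        exact lo_ne_up hv hlo.symm
    right
    left
    rcases hh with hh | hh | hh
    · exfalso
      have h4 := hh.1.2.2
      rw [h2] at h4
      exact lo_ne_up hv h4.symm
    · exfalso
      have h4 := hh.2.1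
      rw [hfl, ← h2] at h4
      exact ha.2.2 h4
    · have h4 := hh.2
      unfold pra at h4
      rw [if_pos h2, pr_eq, ← hmem] at h4
      rw [Pr_ind U (ind_orb inv (w := w) (y := G.up v) (q := G.coin v) (by
        show G.t (G.zz v) ≤ _
        rw [h2]))]
      exact small_of_dl hg (by rw [← hdl]; exact h4.le) hf
  · -- the longer-lived neighbour is `lo v`
    have hdt : d = true := by
      cases d with
      | true => rfl
      | false =>
        exfalso
        simp only [Bool.false_eq_true, if_false] at hlo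
        rw [h3] at hlo
        exact lo_ne_up hv hlo.symm
    subst hdt
    have hindx : IndP (G.coin v) (fun ω => Orb (lam G σ ω) (G.lo v) w) := ind_orb inv (by
      show G.t (G.zz v) ≤ _
      rw [h2])
    have hUa : ∀ b, asg U (G.coin v) b = uni (asg (mem G σ m ω z v) (G.coin v) b) g := fun b => by
      rw [uni_asg_left]
    rcases hh with hh | hh | hh
    · -- the beta-object
      right
      left
      have h4 := hh.2
      unfold prb at h4
      rw [memc_eq, pr_eq, ← hmem] at h4
      rw [Bool.not_true, hUa]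
      exact small_of_dl hg (by rw [← hdl]; exact h4.le) hf
    · -- the step-object
      obtain ⟨_, h4, h5⟩ := hh
      by_cases h6 : ∃ ω1, Orb (lam G σ ω1) (G.lo v) w
      · right
        left
        obtain ⟨ω1, h6⟩ := h6
        rw [Bool.not_true, Pr_false]
        · positivity
        · intro ω' ho h7
          have hc : ω' (G.coin v) = false := ho _ _ (asg_same _ _ _)
          by_cases h8 : Orb (lam G σ ω') (G.up v) (G.lo v)
          · obtain ⟨u, _, _, _, _, _, _, h9⟩ := det1 inv hD ha h2 hx hc h8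
            rcases h9 with h9 | h9
            · exact h5 h9.2
            · rw [← h9.2.1] at h4
              exact h9.1.2.2 h4
          · exact hw (det2 inv hS hx h4.1 h7 h8 h6)
      · left
        rw [Pr_false]
        intro ω' _ h7
        exact h6 ⟨ω', h7⟩
    · -- the alpha-object
      obtain ⟨⟨_, _, hnw, hm0, hfb⟩, h4⟩ := hh
      unfold pra at h4
      rw [if_neg (by rw [h2]; exact lo_ne_up hv), memc_eq, pr_eq, ← hmem] at h4
      by_cases htw : G.t w < G.t (G.lo v)
      · left
        rw [Pr_false]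
        intro ω' _ h7
        have := orb_t (lam_ch inv ω') h7
        omega
      · right
        right
        have hty : G.t v < G.t (G.flh v) := by
          have h5 := (tau1_spec G hv hxi).2.2.1
          have h6 := t_lo G hv
          omega
        have hrm : mem G σ m ω z v (G.blw (G.flh v)) = none := by
          rw [hmem]
          exact unknown_blw inv hd.1 hnw hm0 hty
        have hrg : g (G.blw (G.flh v)) = none := by
          cases hc : g (G.blw (G.flh v)) with
          | none => rfl
          | some b =>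
            exfalso
            obtain ⟨v', h5, h6, h7⟩ := hI.2.2 _ (by rw [hc]; exact Option.some_ne_none _)
            exact hnw v' ((hag.dst inv h6).1 h5) h6 (congrArg Prod.fst h7).symm
        have hUr : U (G.blw (G.flh v)) = none := uni_eq_none.2 ⟨hrm, hrg⟩
        have hrq : G.blw (G.flh v) ≠ G.coin v := (coin_lo_ne_blw hv h2 _).symm
        refine ⟨G.blw (G.flh v), hrq, hUr, rfl, ?_⟩
        rw [Bool.not_true]
        set r := G.blw (G.flh v) with hr
        have e1 : Pr (asg U (G.coin v) false) (fun ω => Orb (lam G σ ω) (G.up v) w) ≤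
            Pr (asg U (G.coin v) false) (fun ω => (Orb (lam G σ ω) (G.up v) w ∧ ¬ Orb (lam G σ ω) (G.up v) (G.lo v)) ∨
              (ω r = false ∧ Orb (lam G σ ω) (G.lo v) w)) := by
          refine Pr_mono _ fun ω' ho h5 => ?_
          by_cases h6 : Orb (lam G σ ω') (G.up v) (G.lo v)
          · right
            have hc : ω' (G.coin v) = false := ho _ _ (asg_same _ _ _)
            obtain ⟨u, _, _, _, _, _, _, h9⟩ := det1 inv hD ha h2 hx hc h6
            rcases h9 with h9 | h9
            · exact absurd h9.2 hfb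
            · exact ⟨h9.2.2, orb_comp (lam_ch inv ω') h6 h5 (by omega)⟩
          · exact Or.inl ⟨h5, h6⟩
        have e2 := Pr_or_le (asg U (G.coin v) false)
          (fun ω => Orb (lam G σ ω) (G.up v) w ∧ ¬ Orb (lam G σ ω) (G.up v) (G.lo v))
          (fun ω => ω r = false ∧ Orb (lam G σ ω) (G.lo v) w)
        have e3 : Pr (asg U (G.coin v) false)
            (fun ω => Orb (lam G σ ω) (G.up v) w ∧ ¬ Orb (lam G σ ω) (G.up v) (G.lo v)) ≤ 1 / 1000 * f := by
          rw [hUa]
          exact small_of_dl hg (by rw [← hdl]; exact h4.le) hf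
        have hind2 : IndP (G.coin v) (fun ω => ω r = false ∧ Orb (lam G σ ω) (G.lo v) w) := by
          intro ω' b
          show (Function.update ω' (G.coin v) b r = false ∧
            Orb (lam G σ (Function.update ω' (G.coin v) b)) (G.lo v) w) ↔ (ω' r = false ∧ Orb (lam G σ ω') (G.lo v) w)
          rw [Function.update_of_ne hrq]
          exact and_congr_right fun _ => hindx ω' b
        have e4 : Pr (asg U (G.coin v) false) (fun ω => ω r = false ∧ Orb (lam G σ ω) (G.lo v) w) =
            Pr (asg U (G.coin v) true) (fun ω => ω r = false ∧ Orb (lam G σ ω) (G.lo v) w) := by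
          rw [Pr_ind U hind2, Pr_ind U hind2]
        have e5 : asg U (G.coin v) true r = none := by rw [asg_ne _ _ hrq, hUr]
        have e6 := Pr_split e5 (fun ω => ω r = false ∧ Orb (lam G σ ω) (G.lo v) w)
        have e7 : Pr (asg (asg U (G.coin v) true) r true) (fun ω => ω r = false ∧ Orb (lam G σ ω) (G.lo v) w) = 0 := by
          refine Pr_false _ fun ω' ho h5 => ?_
          have h6 : ω' r = true := ho _ _ (asg_same _ _ _)
          rw [h5.1] at h6
          exact Bool.false_ne_true h6
        have e8 : Pr (asg (asg U (G.coin v) true) r false) (fun ω => ω r = false ∧ Orb (lam G σ ω) (G.lo v) w) =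
            Pr (asg (asg U (G.coin v) true) r false) (fun ω => Orb (lam G σ ω) (G.lo v) w) := by
          refine Pr_congr _ fun ω' ho => ?_
          exact ⟨fun h5 => h5.2, fun h5 => ⟨ho _ _ (asg_same _ _ _), h5⟩⟩
        rw [e7, e8] at e6
        rw [e4, e6] at e2
        linarith

/-- The laws of the machine. -/
theorem mch_law (inv : Inv G σ) (hD : HD G σ) (hm : ∀ c, m c ≠ some true) (hw : w ∉ σ.S) (K : ℕ) :
    (mch G σ m z w (dl K)).Law (MInv G σ m z) K := by
  have hstop : ∀ {h : (V × Bool → Bool) × V}, ¬ (mch G σ m z w (dl K)).stop h → h.2 ∉ σ.S ∧ G.t h.2 < G.t w := by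
    intro h hs
    constructor
    · intro h1
      exact hs (Or.inl h1)
    · by_contra h1
      exact hs (Or.inr (not_lt.1 h1))
  have hask : ∀ {h : (V × Bool → Bool) × V} {q : V × Bool}, (mch G σ m z w (dl K)).ask h = some q →
      ask G σ h.2 ∧ q = G.coin h.2 := by
    intro h q hq
    by_cases ha : ask G σ h.2
    · have := mch_ask_some (m := m) (z := z) (w := w) (δ := dl K) (ω := h.1) ha
      rw [Prod.mk.eta] at this
      rw [this] at hq
      exact ⟨ha, (Option.some.inj hq).symm⟩
    · have := mch_ask_none (m := m) (z := z) (w := w) (δ := dl K) (ω := h.1) ha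
      rw [Prod.mk.eta] at this
      rw [this] at hq
      exact absurd hq.symm (Option.some_ne_none _)
  have hnask : ∀ {h : (V × Bool → Bool) × V}, (mch G σ m z w (dl K)).ask h = none → ¬ ask G σ h.2 := by
    intro h hq ha
    have := mch_ask_some (m := m) (z := z) (w := w) (δ := dl K) (ω := h.1) ha
    rw [Prod.mk.eta] at this
    rw [this] at hq
    exact Option.some_ne_none _ hq
  refine
    { rk_det := ?_
      rk_ask := ?_
      cnt_stop := ?_
      mem_det := ?_
      mem_ask := ?_
      vis_step := ?_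
      cnt_yes := ?_
      cnt_no := ?_
      det := ?_
      known := ?_
      new := ?_
      harm := ?_ }
  · -- rk_det
    rintro ⟨ω, v⟩ g hI hs hq
    obtain ⟨h1, h2⟩ := hstop hs
    have ha := hnask hq
    rw [mch_nxt_nask ha]
    show G.N + 3 - G.t (lam G σ ω v) < G.N + 3 - G.t v
    have h3 := t_lt_lam inv ω h1
    have h4 := inn_of_notS inv h1
    have h5 := G.t_in v h4.1 h4.2
    simp only at h3
    omega
  · -- rk_ask
    rintro ⟨ω, v⟩ g q b hI hs hq hb
    obtain ⟨h1, h2⟩ := hstop hs
    obtain ⟨ha, rfl⟩ := hask hq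
    have hf := upd_facts (b := b) inv hI h1 ha hb
    rw [mch_nxt_ask ha]
    show G.N + 3 - G.t (if b = true then G.zz v else G.oo v) < G.N + 3 - G.t v
    have h3 := t_lt_lam inv (Function.update ω (G.coin v) b) h1
    simp only at h3
    rw [hf.2.2.2.1] at h3
    have h4 := inn_of_notS inv h1
    have h5 := G.t_in v h4.1 h4.2
    omega
  · -- cnt_stop
    rintro ⟨ω, v⟩ g ω' hI hs ho
    by_cases hS : v ∈ σ.S
    · exact mcnt_S hS
    · rw [mcnt_eq hS, Set.ncard_eq_zero (Set.toFinite _), Set.eq_empty_iff_forall_notMem]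
      rintro u ⟨h1, h2, _⟩
      rcases hs with hs | hs
      · exact hS hs
      · simp only at hs
        omega
  · -- mem_det
    rintro ⟨ω, v⟩ g hI hs hq
    obtain ⟨h1, h2⟩ := hstop hs
    have ha := hnask hq
    rw [mch_nxt_nask ha]
    show mem G σ m ω z (lam G σ ω v) = mem G σ m ω z v
    funext κ
    rcases mem_next (m := m) inv (⟨hI.1, h1⟩ : OnB G σ ω z v) κ with h3 | h3
    · exact absurd h3.1 ha
    · exact h3.2
  · -- mem_ask
    rintro ⟨ω, v⟩ g q b hI hs hq hb
    obtain ⟨h1, h2⟩ := hstop hs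
    obtain ⟨ha, rfl⟩ := hask hq
    have hf := upd_facts (b := b) inv hI h1 ha hb
    rw [mch_nxt_ask ha]
    exact hf.2.2.2.2.1
  · -- vis_step
    rintro ⟨ω, v⟩ g ω' hI hs ho
    obtain ⟨h1, h2⟩ := hstop hs
    show Orb (lam G σ ω') v w ↔ Orb (lam G σ ω') ((mch G σ m z w (dl K)).stp ω' (ω, v)).2 w
    rw [stp_snd]
    constructor
    · intro h3
      refine orb_next h3 fun e => ?_
      rw [e] at h2
      exact lt_irrefl _ h2
    · exact orb_of_next
  · -- cnt_yes
    rintro ⟨ω, v⟩ g ω' hI hs ho hh
    obtain ⟨h1, h2⟩ := hstop hs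
    obtain ⟨_, _, h3⟩ := cons_facts inv hI h1 ho
    rw [hm_iff inv hD hI h1 ho] at hh
    rw [mcnt_eq h1, mcnt_next inv h3 stp_snd]
    exact (cnt_step inv h3 h2).1 hh
  · -- cnt_no
    rintro ⟨ω, v⟩ g ω' hI hs ho hh
    obtain ⟨h1, h2⟩ := hstop hs
    obtain ⟨_, _, h3⟩ := cons_facts inv hI h1 ho
    rw [hm_iff inv hD hI h1 ho] at hh
    rw [mcnt_eq h1, mcnt_next inv h3 stp_snd]
    exact (cnt_step inv h3 h2).2 hh
  · -- det
    rintro ⟨ω, v⟩ g hI hs hq
    obtain ⟨h1, h2⟩ := hstop hs
    have ha := hnask hq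
    refine ⟨fun h3 => ha h3.1, ?_⟩
    rw [mch_nxt_nask ha]
    refine ⟨orb_step hI.1, hI.2.1, fun κ hκ => ?_⟩
    obtain ⟨v', h3, h4, h5⟩ := hI.2.2 κ hκ
    exact ⟨v', h3, h4.trans (t_lt_lam inv ω h1), h5⟩
  · -- known
    rintro ⟨ω, v⟩ g q b hI hs hq hb
    obtain ⟨h1, h2⟩ := hstop hs
    obtain ⟨ha, rfl⟩ := hask hq
    have hf := upd_facts (b := b) inv hI h1 ha (Or.inr hb)
    constructor
    · rintro ⟨_, h3⟩
      simp only at h3
      obtain ⟨h4, h5⟩ := hrm_unknown inv hD hm hf.2.1 h3
      rw [← hf.1.mem_imp inv m le_rfl] at h4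
      have h6 : g (G.coin v) = some b := by
        have h7 := uni_of_none g h4
        rw [← h7]
        exact hb
      obtain ⟨v', h7, h8, h9⟩ := hI.2.2 (G.coin v) (by rw [h6]; exact Option.some_ne_none _)
      exact h5 v' ((hf.1.dst inv h8).1 h7) h8 h9
    · rw [mch_nxt_ask ha]
      exact hf.2.2.2.2.2
  · -- new
    rintro ⟨ω, v⟩ g q b hI hs hq hb
    obtain ⟨h1, h2⟩ := hstop hs
    obtain ⟨ha, rfl⟩ := hask hq
    have hf := upd_facts (b := b) inv hI h1 ha (Or.inl hb)
    rw [mch_nxt_ask ha]
    exact hf.2.2.2.2.2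
  · -- harm
    rintro ⟨ω, v⟩ g q d hI hs hq hb hh hg hf
    obtain ⟨h1, h2⟩ := hstop hs
    obtain ⟨ha, rfl⟩ := hask hq
    have hv := inn_of_notS inv h1
    have hu := fun b => upd_facts (b := b) inv hI h1 ha (Or.inl hb)
    obtain ⟨h3, h4⟩ := harm_law inv hD hw hI h1 ha hb hh.2 hg hf
    have hnd : (if (!d) = true then G.zz v else G.oo v) = G.up v := by
      rcases zz_oo G v with ⟨_, h5, h6⟩ | ⟨_, h5, h6⟩
      · cases d
        · simp only [Bool.not_false, if_true]
          exact h5
        · simp only [if_true] at h3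
          rw [h5] at h3
          exact absurd h3.symm (lo_ne_up hv)
      · cases d
        · simp only [Bool.false_eq_true, if_false] at h3
          rw [h6] at h3
          exact absurd h3.symm (lo_ne_up hv)
        · simp only [Bool.not_true, Bool.false_eq_true, if_false]
          exact h6
    have hmem : ∀ b, uni (mem G σ m (Function.update ω (G.coin v) b) z (if b = true then G.zz v else G.oo v)) g =
        asg (uni (mem G σ m ω z v) g) (G.coin v) b := fun b => by
      rw [(hu b).2.2.2.2.1, uni_asg_left]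
    constructor
    · rintro ⟨_, h5⟩
      have h6 := (dst_of_hrm h5).2.1
      simp only at h6
      rw [(hu (!d)).2.2.2.1, hnd] at h6
      exact lo_ne_up hv h6.symm
    · rw [mch_nxt_ask ha, mch_nxt_ask ha]
      show (Pr (uni (mem G σ m (Function.update ω (G.coin v) d) z (if d = true then G.zz v else G.oo v)) g)
            (fun ω => Orb (lam G σ ω) (if d = true then G.zz v else G.oo v) w) = 0 ∨
          Pr (uni (mem G σ m (Function.update ω (G.coin v) (!d)) z (if (!d) = true then G.zz v else G.oo v)) g)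
            (fun ω => Orb (lam G σ ω) (if (!d) = true then G.zz v else G.oo v) w) ≤
              1 / 1000 * Pr (uni (mem G σ m ω z v) g) (fun ω => Orb (lam G σ ω) v w) ∨
          ∃ r, r ≠ G.coin v ∧ uni (mem G σ m ω z v) g r = none ∧
            Pr (uni (mem G σ m (Function.update ω (G.coin v) (!d)) z (if (!d) = true then G.zz v else G.oo v)) g)
              (fun ω => Orb (lam G σ ω) (if (!d) = true then G.zz v else G.oo v) w) ≤
            Pr (uni (mem G σ m (Function.update ω (G.coin v) d) z (if d = true then G.zz v else G.oo v)) (asg g r false))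
              (fun ω => Orb (lam G σ ω) (if d = true then G.zz v else G.oo v) w) / 2 +
                1 / 1000 * Pr (uni (mem G σ m ω z v) g) (fun ω => Orb (lam G σ ω) v w) ∧
            ∀ b, MInv G σ m z (Function.update ω (G.coin v) d, if d = true then G.zz v else G.oo v) (asg g r b))
      rw [hmem d, hmem (!d)]
      rcases h4 with h4 | h4 | ⟨r, h5, h6, h7, h8⟩
      · left
        rw [h3]
        exact h4
      · right
        left
        rw [hnd]
        exact h4
      · right
        right
        refine ⟨r, h5, h6, ?_, fun b => ?_⟩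
        · rw [hnd, uni_asg_right g false (by
            rw [(hu d).2.2.2.2.1, asg_ne _ _ h5]
            exact (uni_eq_none.1 h6).1), hmem d, h3]
          exact h8
        · obtain ⟨h9, h10, h11⟩ := (hu d).2.2.2.2.2
          refine ⟨h9, h10, fun κ hκ => ?_⟩
          by_cases h12 : κ = r
          · refine ⟨v, dst_of_hrm hh.2, ?_, h12.trans h7⟩
            simp only
            rw [← (hu d).2.2.2.1]
            exact t_lt_lam inv _ h1
          · rw [asg_ne _ _ h12] at hκ
            exact h11 κ hκ

/-- HARM LEMMA. -/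
theorem harm (G : Bars V) (σ : St V) (hI : Inv G σ)
    (hD : ∀ u ∈ σ.Dec, u ∉ σ.S → σ.pi u = G.lo u → G.lo u ∉ σ.S → G.t (G.lo u) < G.t (G.up u))
    (m0 : V × Bool → Option Bool) (hm : ∀ c, m0 c ≠ some true) {z w : V} (hz : z ∉ σ.S) (hw : w ∉ σ.S) (K : ℕ) :
    pr m0 (fun ω => Orb (lam G σ ω) z w ∧ K + 1 ≤ cnt G σ m0 ω z (dl K) w) ≤ (100 / 101 : ℝ) ^ (K + 1) := by
  classical
  have L := mch_law (G := G) (σ := σ) (m := m0) (z := z) (w := w) hI hD hm hw K
  have h0 : Ext m0 (ov m0 fun _ => false) := fun κ b h => by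
    unfold ov
    rw [h]
    rfl
  have hI0 : MInv G σ m0 z (ov m0 fun _ => false, z) (fun _ => none) :=
    ⟨orb_refl _ _, h0, fun κ h => absurd rfl h⟩
  have h1 := Mach.harm_le L hI0
  have h2 : (mch G σ m0 z w (dl K)).mem (ov m0 fun _ => false, z) = m0 := by
    show mem G σ m0 (ov m0 fun _ => false) z z = m0
    funext κ
    rcases mem_cases (G := G) (σ := σ) m0 (ov m0 fun _ => false) z z κ with ⟨v, h3, h4, _⟩ | ⟨_, h3⟩
    · have := orb_t (lam_ch hI _) h3.1
      omega
    · exact h3
  rw [h2] at h1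
  rw [pr_eq]
  refine le_trans (Pr_mono _ fun ω ho h3 => ?_) h1
  refine ⟨h3.1, ?_⟩
  rw [mcnt_eq hz]
  refine le_trans h3.2 ?_
  unfold cnt
  refine Set.ncard_le_ncard (fun u hu => ?_) (Set.toFinite _)
  exact ⟨orb_t (lam_ch hI ω) (dst_of_hrm hu.2).1.1, hu.1, hu.2⟩

end Pool.Agent.W_a4f561_E73
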