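import Mathlib

/-!
MP_a4f561_co, the n^eps theorem, pockets: (O) for host paths, (P1), (P4), (P5). Self-contained: bars are a linear order with
life times `b`, `t`; a host path is a function of the time.
-/

set_option autoImplicit false

namespace Pool.Agent.W_a4f561_E.Pk25

variable {V : Type} [LinearOrder V] {b t : V → ℕ}

/-- `v` is alive at the time `τ`. -/
def Al (b t : V → ℕ) (τ : ℕ) (v : V) : Prop := b v ≤ τ ∧ τ ≤ t v

/-- `y` is the upper neighbour of `x` at the time `τ`. -/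
structure Up (b t : V → ℕ) (τ : ℕ) (x y : V) : Prop where
  lt : x < y
  ax : Al b t τ x
  ay : Al b t τ y
  no : ∀ z, Al b t τ z → x < z → ¬ z < y

/-- `Q` is a host path on the times `[a, c]`. -/
structure Hp (b t : V → ℕ) (Q : ℕ → V) (a c : ℕ) : Prop where
  al : ∀ τ, a ≤ τ → τ ≤ c → Al b t τ (Q τ)
  st : ∀ τ, a ≤ τ → τ < c → Q (τ + 1) = Q τ ∨ (τ = t (Q τ) ∧ (Up b t τ (Q τ) (Q (τ + 1)) ∨ Up b t τ (Q (τ + 1)) (Q τ)))

theorem Up.unique {τ : ℕ} {x y y' : V} (h : Up b t τ x y) (h' : Up b t τ x y') : y = y' := by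
  rcases lt_trichotomy y y' with h1 | h1 | h1
  · exact absurd h1 (h'.no y h.ay h.lt)
  · exact h1
  · exact absurd h1 (h.no y' h'.ay h'.lt)

theorem Up.unique' {τ : ℕ} {x x' y : V} (h : Up b t τ x y) (h' : Up b t τ x' y) : x = x' := by
  rcases lt_trichotomy x x' with h1 | h1 | h1
  · exact absurd h'.lt (h.no x' h'.ax h1)
  · exact h1
  · exact absurd h.lt (h'.no x h.ax h1)

theorem Hp.mono {Q : ℕ → V} {a c a' c' : ℕ} (h : Hp b t Q a c) (h1 : a ≤ a') (h2 : c' ≤ c) : Hp b t Q a' c' :=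
  ⟨fun τ h3 h4 => h.al τ (h1.trans h3) (h4.trans h2), fun τ h3 h4 => h.st τ (h1.trans h3) (lt_of_lt_of_le h4 h2)⟩

/-- A vertex which is alive during `[a, c]` is a host path. -/
theorem Hp.const {y : V} {a c : ℕ} (h1 : Al b t a y) (h2 : Al b t c y) : Hp b t (fun _ => y) a c :=
  ⟨fun _ h3 h4 => ⟨h1.1.trans h3, h4.trans h2.2⟩, fun _ _ _ => Or.inl rfl⟩

/-- A host does not move as long as it is alive. -/
theorem Hp.stay {Q : ℕ → V} {a c τ : ℕ} (h : Hp b t Q a c) (h1 : a ≤ τ) (h2 : τ < c) (h3 : τ < t (Q τ)) :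
    Q (τ + 1) = Q τ := by
  rcases h.st τ h1 h2 with h4 | ⟨h4, _⟩
  · exact h4
  · omega

theorem Hp.dead {Q : ℕ → V} {a c τ : ℕ} (h : Hp b t Q a c) (h1 : a ≤ τ) (h2 : τ < c) (h3 : τ = t (Q τ)) :
    Up b t τ (Q τ) (Q (τ + 1)) ∨ Up b t τ (Q (τ + 1)) (Q τ) := by
  rcases h.st τ h1 h2 with h4 | ⟨_, h4⟩
  · have := (h.al (τ + 1) (by omega) (by omega)).2
    rw [h4] at this
    omega
  · exact h4

/-- A host path sits on a vertex until its death. -/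
theorem Hp.sit {Q : ℕ → V} {a c τ τ' : ℕ} (h : Hp b t Q a c) (h1 : a ≤ τ) (h2 : τ ≤ τ') (h2' : τ' ≤ c) (h3 : τ' ≤ t (Q τ)) :
    Q τ' = Q τ := by
  induction τ' with
  | zero =>
    have : τ = 0 := by omega
    rw [this]
  | succ k ih =>
    rcases Nat.lt_or_ge k τ with h4 | h4
    · have : τ = k + 1 := by omega
      rw [this]
    · have h5 := ih h4 (by omega) (by omega)
      have h6 : k < t (Q k) := by rw [h5]; omega
      rw [h.stay (by omega) (by omega) h6, h5]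

/-- (O), one step. -/
theorem step_le (ht : Function.Injective t) {Q R : ℕ → V} {a c τ : ℕ} (hQ : Hp b t Q a c) (hR : Hp b t R a c)
    (h1 : a ≤ τ) (h2 : τ < c) (h3 : R τ < Q τ) : R (τ + 1) ≤ Q (τ + 1) := by
  have aQ := hQ.al τ h1 h2.le
  have aR := hR.al τ h1 h2.le
  have hne : t (R τ) ≠ t (Q τ) := fun h => h3.ne (ht h)
  rcases Nat.lt_or_ge τ (t (R τ)) with h4 | h4
  · rw [hR.stay h1 h2 h4]
    rcases Nat.lt_or_ge τ (t (Q τ)) with h5 | h5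
    · rw [hQ.stay h1 h2 h5]
      exact h3.le
    · rcases hQ.dead h1 h2 (le_antisymm aQ.2 h5) with h6 | h6
      · exact h3.le.trans h6.lt.le
      · by_contra h7
        exact h6.no _ aR (not_le.1 h7) h3
  · have h5 : τ = t (R τ) := le_antisymm aR.2 h4
    have h6 : τ < t (Q τ) := lt_of_le_of_ne aQ.2 fun h => hne (by omega)
    rw [hQ.stay h1 h2 h6]
    rcases hR.dead h1 h2 h5 with h7 | h7
    · by_contra h8
      exact h7.no _ aQ h3 (not_le.1 h8)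
    · exact h7.lt.le.trans h3.le

/-- (O): two host paths which do not meet keep their order. -/
theorem keep_lt (ht : Function.Injective t) {Q R : ℕ → V} {a c : ℕ} (hQ : Hp b t Q a c) (hR : Hp b t R a c)
    (hne : ∀ τ, a ≤ τ → τ ≤ c → R τ ≠ Q τ) (h0 : R a < Q a) : ∀ τ, a ≤ τ → τ ≤ c → R τ < Q τ := by
  intro τ h1 h2
  induction τ with
  | zero =>
    have : a = 0 := by omega
    rw [this] at h0
    exact h0
  | succ k ih =>
    rcases Nat.lt_or_ge k a with h3 | h3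
    · have : a = k + 1 := by omega
      rw [this] at h0
      exact h0
    · exact lt_of_le_of_ne (step_le ht hQ hR h3 (by omega) (ih h3 (by omega))) (hne _ h1 h2)

/-- (O): two host paths which do not meet have the same order at any two times. -/
theorem keep_iff (ht : Function.Injective t) {Q R : ℕ → V} {a c : ℕ} (hQ : Hp b t Q a c) (hR : Hp b t R a c)
    (hne : ∀ τ, a ≤ τ → τ ≤ c → R τ ≠ Q τ) {τ τ' : ℕ} (h1 : a ≤ τ) (h2 : τ ≤ c) (h3 : a ≤ τ') (h4 : τ' ≤ c) :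
    R τ < Q τ ↔ R τ' < Q τ' := by
  have hac : a ≤ c := h1.trans h2
  have key : ∀ σ, a ≤ σ → σ ≤ c → (R σ < Q σ ↔ R a < Q a) := by
    intro σ h5 h6
    constructor
    · intro h7
      by_contra h8
      have h9 : Q a < R a := lt_of_le_of_ne (not_lt.1 h8) (hne a le_rfl hac).symm
      have := keep_lt ht hR hQ (fun τ h h' => (hne τ h h').symm) h9 σ h5 h6
      exact lt_irrefl _ (h7.trans this)
    · intro h7
      exact keep_lt ht hQ hR hne h7 σ h5 h6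
  rw [key τ h1 h2, key τ' h3 h4]

/-- A host path which is not on `y` stays on its side of `y` while `y` is alive. -/
theorem side_iff (ht : Function.Injective t) {R : ℕ → V} {a c : ℕ} {y : V} (hR : Hp b t R a c) (ha : Al b t a y)
    (hc : Al b t c y) (hne : ∀ τ, a ≤ τ → τ ≤ c → R τ ≠ y) {τ τ' : ℕ} (h1 : a ≤ τ) (h2 : τ ≤ c) (h3 : a ≤ τ')
    (h4 : τ' ≤ c) : R τ < y ↔ R τ' < y :=
  keep_iff ht (Hp.const ha hc) hR hne h1 h2 h3 h4

/-- `R` is strictly between `Q` and `y`. -/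
def Ins (Q : ℕ → V) (y : V) (R : ℕ → V) (τ : ℕ) : Prop := Q τ < R τ ∧ R τ < y

/-- Backwards: a host path which is between `Q` and `y` was there at all earlier times (it does not meet `Q`). -/
theorem back (ht : Function.Injective t) {Q R : ℕ → V} {a c : ℕ} {y : V} (hQ : Hp b t Q a c) (hR : Hp b t R a c)
    (hac : a ≤ c) (ha : Al b t a y) (hc : Al b t c y) (hne : ∀ τ, a ≤ τ → τ ≤ c → R τ ≠ Q τ) (h : Ins Q y R c) :
    ∀ τ, a ≤ τ → τ ≤ c → Ins Q y R τ := by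
  intro τ h1 h2
  have hy : ∀ σ, a ≤ σ → σ ≤ c → R σ ≠ y := by
    intro σ h3 h4 h5
    have := hR.sit h3 h4 le_rfl (by rw [h5]; exact hc.2)
    rw [h5] at this
    exact h.2.ne this
  refine ⟨?_, (side_iff ht hR ha hc hy h1 h2 hac le_rfl).2 h.2⟩
  exact (keep_iff ht hR hQ (fun τ h h' => (hne τ h h').symm) h1 h2 hac le_rfl).2 h.1

/-- Forwards: it stays there as long as it neither meets `Q` nor steps on `y`. -/
theorem forw (ht : Function.Injective t) {Q R : ℕ → V} {a c : ℕ} {y : V} (hQ : Hp b t Q a c) (hR : Hp b t R a c)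
    (hac : a ≤ c) (ha : Al b t a y) (hc : Al b t c y) (hne : ∀ τ, a ≤ τ → τ ≤ c → R τ ≠ Q τ)
    (hy : ∀ τ, a ≤ τ → τ ≤ c → R τ ≠ y) (h : Ins Q y R a) : ∀ τ, a ≤ τ → τ ≤ c → Ins Q y R τ := by
  intro τ h1 h2
  refine ⟨?_, (side_iff ht hR ha hc hy h1 h2 le_rfl hac).2 h.2⟩
  exact (keep_iff ht hR hQ (fun τ h h' => (hne τ h h').symm) h1 h2 le_rfl hac).2 h.1

/-- A record: the host path `Q` touches the barrier `y` at the times `τ₁ < τ₂`. -/
structure Rec (b t : V → ℕ) (Q : ℕ → V) (y : V) (τ₁ τ₂ : ℕ) : Prop where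
  lt : τ₁ < τ₂
  hp : Hp b t Q τ₁ τ₂
  u1 : Up b t τ₁ (Q τ₁) y
  u2 : Up b t τ₂ (Q τ₂) y

/-- The region of a record at the time `τ`. -/
def InR (b t : V → ℕ) (Q : ℕ → V) (y : V) (τ₁ τ₂ : ℕ) (u : V) (τ : ℕ) : Prop :=
  τ₁ ≤ τ ∧ τ ≤ τ₂ ∧ Al b t τ u ∧ Q τ < u ∧ u < y

/-- A host path in the region does not exist at the first touch: it has started inside. -/
theorem started (ht : Function.Injective t) {Q R : ℕ → V} {y : V} {τ₁ τ₂ a c : ℕ} (hr : Rec b t Q y τ₁ τ₂)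
    (hR : Hp b t R a c) (h1 : a ≤ c) (h2 : τ₁ ≤ c) (h3 : c ≤ τ₂)
    (hne : ∀ τ, a ≤ τ → τ₁ ≤ τ → τ ≤ c → R τ ≠ Q τ) (h : Ins Q y R c) :
    τ₁ < a ∧ ∀ τ, a ≤ τ → τ ≤ c → Ins Q y R τ := by
  have hyc : Al b t c y := ⟨hr.u1.ay.1.trans h2, h3.trans hr.u2.ay.2⟩
  by_cases hat : a ≤ τ₁
  · exfalso
    have h4 := back ht (hr.hp.mono le_rfl h3) (hR.mono hat le_rfl) h2 hr.u1.ay hyc
      (fun τ h5 h6 => hne τ (hat.trans h5) h5 h6) h τ₁ le_rfl h2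
    exact hr.u1.no _ (hR.al τ₁ hat h2) h4.1 h4.2
  · rw [not_le] at hat
    exact ⟨hat, back ht (hr.hp.mono hat.le h3) hR h1 ⟨hr.u1.ay.1.trans hat.le, (h1.trans h3).trans hr.u2.ay.2⟩ hyc
      (fun τ h5 h6 => hne τ h5 (hat.le.trans h5) h6) h⟩

/-- (P1), (P2), (P4): a host path in the region meets `Q` or steps on the barrier at or before the last touch. -/
theorem leaves (ht : Function.Injective t) {Q R : ℕ → V} {y : V} {τ₁ τ₂ τ : ℕ} (hr : Rec b t Q y τ₁ τ₂)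
    (h1 : τ₁ ≤ τ) (h2 : τ ≤ τ₂) (hR : Hp b t R τ τ₂) (h : Ins Q y R τ) :
    ∃ σ, τ < σ ∧ σ ≤ τ₂ ∧ (∀ ρ, τ ≤ ρ → ρ < σ → Ins Q y R ρ) ∧ (R σ = Q σ ∨ R σ = y) := by
  classical
  have hex : ∃ σ, τ ≤ σ ∧ σ ≤ τ₂ ∧ ¬ Ins Q y R σ := by
    by_contra hcon
    push Not at hcon
    have h3 := hcon τ₂ h2 le_rfl
    exact hr.u2.no _ (hR.al τ₂ h2 le_rfl) h3.1 h3.2
  obtain ⟨h3, h4, h5⟩ := Nat.find_spec hex
  set σ := Nat.find hex with hσ
  have hmin : ∀ ρ, τ ≤ ρ → ρ < σ → Ins Q y R ρ := by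
    intro ρ h6 h7
    by_contra h8
    exact Nat.find_min hex h7 ⟨h6, h7.le.trans h4, h8⟩
  have hlt : τ < σ := by
    rcases h3.eq_or_lt with h6 | h6
    · rw [← h6] at h5
      exact absurd h h5
    · exact h6
  refine ⟨σ, hlt, h4, hmin, ?_⟩
  by_contra hcon
  push Not at hcon
  have h6 := hmin (σ - 1) (by omega) (by omega)
  have e : σ - 1 + 1 = σ := by omega
  have h7 := step_le ht (hR.mono (a' := τ) (c' := τ₂) le_rfl le_rfl) (hr.hp.mono h1 le_rfl) (τ := σ - 1) (by omega)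
    (by omega) h6.1
  have h8 := step_le ht (Q := fun _ => y) (R := R) (a := τ) (c := τ₂) (b := b)
    (Hp.const ⟨hr.u1.ay.1.trans h1, h2.trans hr.u2.ay.2⟩ hr.u2.ay) hR (τ := σ - 1) (by omega) (by omega) h6.2
  rw [e] at h7 h8
  exact h5 ⟨lt_of_le_of_ne h7 (fun h => hcon.1 h.symm), lt_of_le_of_ne h8 hcon.2⟩

/-- Forwards, with the barrier only seen from inside: a host path in the region which neither meets `Q` nor steps on the barrier
from inside ends before the last touch, and it is inside at all its times. -/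
theorem inside_of (ht : Function.Injective t) {Q R : ℕ → V} {y : V} {τ₁ τ₂ a c θ : ℕ} (hr : Rec b t Q y τ₁ τ₂)
    (hR : Hp b t R a c) (h1 : a ≤ θ) (h2 : θ ≤ c) (h3 : τ₁ ≤ θ) (h4 : θ ≤ τ₂)
    (hne : ∀ τ, a ≤ τ → τ ≤ c → τ₁ ≤ τ → τ ≤ τ₂ → R τ ≠ Q τ)
    (hst : ∀ σ, a ≤ σ → σ < c → τ₁ ≤ σ → σ < τ₂ → Ins Q y R σ → R (σ + 1) ≠ y) (h : Ins Q y R θ) :
    τ₁ < a ∧ c < τ₂ ∧ ∀ τ, a ≤ τ → τ ≤ c → Ins Q y R τ := by
  obtain ⟨k6, k7⟩ := started ht hr (hR.mono le_rfl h2) h1 h3 h4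
    (fun τ l1 l2 l3 => hne τ l1 (l3.trans h2) l2 (l3.trans h4)) h
  have key : ∀ τ, θ ≤ τ → τ ≤ c → τ ≤ τ₂ → Ins Q y R τ := by
    intro τ
    induction τ with
    | zero =>
      intro l1 _ _
      have : θ = 0 := by omega
      rw [this] at h
      exact h
    | succ k ih =>
      intro l1 l2 l3
      rcases Nat.lt_or_ge k θ with l4 | l4
      · have : θ = k + 1 := by omega
        rw [this] at h
        exact h
      · have l5 := ih l4 (by omega) (by omega)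
        have l7 := step_le ht (hR.mono (a' := θ) (c' := k + 1) h1 l2) (hr.hp.mono (a' := θ) (c' := k + 1) h3 l3) (τ := k)
          l4 (by omega) l5.1
        have l8 := step_le ht (Q := fun _ => y) (R := R) (a := θ) (c := k + 1) (b := b)
          (Hp.const ⟨hr.u1.ay.1.trans h3, h4.trans hr.u2.ay.2⟩ ⟨hr.u1.ay.1.trans (h3.trans l1), l3.trans hr.u2.ay.2⟩)
          (hR.mono h1 l2) (τ := k) l4 (by omega) l5.2
        exact ⟨lt_of_le_of_ne l7 (fun e => hne (k + 1) (by omega) l2 (by omega) l3 e.symm),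
          lt_of_le_of_ne l8 (hst k (by omega) (by omega) (by omega) (by omega) l5)⟩
  have k8 : c < τ₂ := by
    by_contra hcon
    rw [not_lt] at hcon
    have l1 := key τ₂ h4 hcon le_rfl
    exact hr.u2.no _ (hR.al τ₂ (h1.trans h4) hcon) l1.1 l1.2
  refine ⟨k6, k8, fun τ l1 l2 => ?_⟩
  rcases Nat.lt_or_ge τ θ with l3 | l3
  · exact k7 τ l1 l3.le
  · exact key τ l3 l2 (l2.trans k8.le)

/-- (P1): a closed set does not reach into a region whose path avoids it, if nobody of the set steps on the barrier there. -/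
theorem p1 (ht : Function.Injective t) {Q R : ℕ → V} {y : V} {τ₁ τ₂ τ : ℕ} (hr : Rec b t Q y τ₁ τ₂)
    (h1 : τ₁ ≤ τ) (h2 : τ ≤ τ₂) (hR : Hp b t R τ τ₂) (h : Ins Q y R τ) (hQ : ∀ σ, τ ≤ σ → σ ≤ τ₂ → R σ ≠ Q σ)
    (hy : ∀ σ, τ ≤ σ → σ < τ₂ → Ins Q y R σ → R (σ + 1) ≠ y) : False := by
  have := (inside_of ht hr hR le_rfl h2 h1 h2 (fun σ l1 l2 _ _ => hQ σ l1 l2) (fun σ l1 l2 _ _ => hy σ l1 l2) h).2.1
  exact lt_irrefl _ this

/-- A step on the barrier from inside is the step of a vertex whose upper neighbour at its death is the barrier. -/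
theorem step_bar {Q R : ℕ → V} {y : V} {a c σ : ℕ} (hR : Hp b t R a c) (h1 : a ≤ σ) (h2 : σ < c) (h : Ins Q y R σ)
    (hy : R (σ + 1) = y) : σ = t (R σ) ∧ Up b t σ (R σ) y := by
  have h8 := hR.st σ h1 h2
  rw [hy] at h8
  rcases h8 with h8 | ⟨h8, h9⟩
  · exact absurd h8.symm h.2.ne
  · rcases h9 with h9 | h9
    · exact ⟨h8, h9⟩
    · exact absurd h9.lt (not_lt.2 h.2.le)

/-- (P5): two records which contain the same host path have the same barrier, if no other barrier is between the path and the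
barrier at the time in question. -/
theorem p5 (ht : Function.Injective t) {Q₁ Q₂ R : ℕ → V} {y₁ y₂ : V} {α₁ β₁ α₂ β₂ a c θ₁ θ₂ : ℕ}
    (hr₁ : Rec b t Q₁ y₁ α₁ β₁) (hr₂ : Rec b t Q₂ y₂ α₂ β₂) (hR : Hp b t R a c)
    (hne₁ : ∀ τ, a ≤ τ → τ ≤ c → α₁ ≤ τ → τ ≤ β₁ → R τ ≠ Q₁ τ)
    (hne₂ : ∀ τ, a ≤ τ → τ ≤ c → α₂ ≤ τ → τ ≤ β₂ → R τ ≠ Q₂ τ)
    (hst₁ : ∀ σ, a ≤ σ → σ < c → α₁ ≤ σ → σ < β₁ → Ins Q₁ y₁ R σ → R (σ + 1) ≠ y₁)
    (hst₂ : ∀ σ, a ≤ σ → σ < c → α₂ ≤ σ → σ < β₂ → Ins Q₂ y₂ R σ → R (σ + 1) ≠ y₂)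
    (h1 : a ≤ θ₁) (h1' : θ₁ ≤ c) (h2 : a ≤ θ₂) (h2' : θ₂ ≤ c) (h3 : α₁ ≤ θ₁) (h3' : θ₁ ≤ β₁) (h4 : α₂ ≤ θ₂)
    (h4' : θ₂ ≤ β₂) (hi₁ : Ins Q₁ y₁ R θ₁) (hi₂ : Ins Q₂ y₂ R θ₂)
    (hu₁ : b y₂ ≤ θ₁ → θ₁ < t y₂ → R θ₁ < y₂ → ¬ y₂ < y₁)
    (hu₂ : b y₁ ≤ θ₂ → θ₂ < t y₁ → R θ₂ < y₁ → ¬ y₁ < y₂) : y₁ = y₂ := by
  obtain ⟨m1, m2, m3⟩ := inside_of ht hr₁ hR h1 h1' h3 h3' hne₁ hst₁ hi₁
  obtain ⟨n1, n2, n3⟩ := inside_of ht hr₂ hR h2 h2' h4 h4' hne₂ hst₂ hi₂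
  rcases lt_trichotomy y₁ y₂ with h5 | h5 | h5
  · exact absurd h5 (hu₂ (hr₁.u1.ay.1.trans (m1.le.trans h2)) (lt_of_le_of_lt h2' (m2.trans_le hr₁.u2.ay.2)) (m3 θ₂ h2 h2').2)
  · exact h5
  · exact absurd h5 (hu₁ (hr₂.u1.ay.1.trans (n1.le.trans h1)) (lt_of_le_of_lt h1' (n2.trans_le hr₂.u2.ay.2)) (n3 θ₁ h1 h1').2)

end Pool.Agent.W_a4f561_E.Pk25
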