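import Pool.Agent.W_a4f561_h26.Def
import Pool.Agent.W_a4f561_E.Pk25

/-!
MP_a4f561_co, the n^eps theorem: base facts of bars. Neighbours, hosts; a route of a choice function is a host path in the sense
of `Pk25`.
-/

set_option autoImplicit false

namespace Pool.Agent.W_a4f561_h26

open Pool.Agent.W_a4f561_E.Pk25

variable {V : Type}

/-- The order by heights. -/
@[reducible] def Bars.ord (G : Bars V) : LinearOrder V := LinearOrder.lift' G.r G.r_inj

variable (G : Bars V)

/-! ### Neighbours -/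

theorem Bars.al_top {τ : ℕ} (h : τ ≤ G.N) : G.al G.top τ := ⟨by rw [G.b_top]; exact Nat.zero_le _, h.trans G.t_top.le⟩

theorem Bars.al_bot {τ : ℕ} (h : τ ≤ G.N) : G.al G.bot τ := ⟨by rw [G.b_bot]; exact Nat.zero_le _, h.trans G.t_bot.le⟩

theorem Bars.r_lt_top {v : V} (h : v ≠ G.top) : G.r v < G.r G.top := G.r_top v h

theorem Bars.ub_exists {x : V} {τ : ℕ} (hx : x ≠ G.top) (h : τ ≤ G.N) :
    ∃ u, G.al u τ ∧ G.r x < G.r u ∧ ∀ u', G.al u' τ → G.r x < G.r u' → G.r u ≤ G.r u' := by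
  classical
  have hex : ∃ k, ∃ u, G.al u τ ∧ G.r x < G.r u ∧ G.r u = k := ⟨_, G.top, G.al_top h, G.r_top x hx, rfl⟩
  obtain ⟨u, h1, h2, h3⟩ := Nat.find_spec hex
  refine ⟨u, h1, h2, fun u' h4 h5 => ?_⟩
  rw [h3]
  exact Nat.find_min' hex ⟨u', h4, h5, rfl⟩

theorem Bars.ub_spec {x : V} {τ : ℕ} (hx : x ≠ G.top) (h : τ ≤ G.N) :
    G.al (G.ub x τ) τ ∧ G.r x < G.r (G.ub x τ) ∧ ∀ u', G.al u' τ → G.r x < G.r u' → G.r (G.ub x τ) ≤ G.r u' := by
  have h1 := G.ub_exists hx h
  unfold Bars.ub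
  rw [dif_pos h1]
  exact h1.choose_spec

theorem Bars.ub_unique {x u : V} {τ : ℕ} (h1 : G.al u τ) (h2 : G.r x < G.r u)
    (h3 : ∀ u', G.al u' τ → G.r x < G.r u' → G.r u ≤ G.r u') : G.ub x τ = u := by
  have h : ∃ u, G.al u τ ∧ G.r x < G.r u ∧ ∀ u', G.al u' τ → G.r x < G.r u' → G.r u ≤ G.r u' := ⟨u, h1, h2, h3⟩
  unfold Bars.ub
  rw [dif_pos h]
  have h4 := h.choose_spec
  exact G.r_inj (le_antisymm (h4.2.2 u h1 h2) (h3 _ h4.1 h4.2.1))

@[simp] theorem Bars.mir_al (v : V) (τ : ℕ) : G.mir.al v τ ↔ G.al v τ := Iff.rfl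

theorem Bars.mir_lt {u v : V} : G.mir.r u < G.mir.r v ↔ G.r v < G.r u := by
  have h1 := G.r_le u
  have h2 := G.r_le v
  show G.M - G.r u < G.M - G.r v ↔ _
  omega

theorem Bars.mir_le {u v : V} : G.mir.r u ≤ G.mir.r v ↔ G.r v ≤ G.r u := by
  have h1 := G.r_le u
  have h2 := G.r_le v
  show G.M - G.r u ≤ G.M - G.r v ↔ _
  omega

theorem Bars.lb_spec {x : V} {τ : ℕ} (hx : x ≠ G.bot) (h : τ ≤ G.N) :
    G.al (G.lb x τ) τ ∧ G.r (G.lb x τ) < G.r x ∧ ∀ u', G.al u' τ → G.r u' < G.r x → G.r u' ≤ G.r (G.lb x τ) := by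
  have h1 := G.mir.ub_spec (x := x) (τ := τ) hx h
  refine ⟨h1.1, (G.mir_lt).1 h1.2.1, fun u' h2 h3 => ?_⟩
  exact (G.mir_le).1 (h1.2.2 u' h2 ((G.mir_lt).2 h3))

theorem Bars.lb_unique {x u : V} {τ : ℕ} (h1 : G.al u τ) (h2 : G.r u < G.r x)
    (h3 : ∀ u', G.al u' τ → G.r u' < G.r x → G.r u' ≤ G.r u) : G.lb x τ = u := by
  refine G.mir.ub_unique h1 ((G.mir_lt).2 h2) fun u' h4 h5 => ?_
  exact (G.mir_le).2 (h3 u' h4 ((G.mir_lt).1 h5))

theorem Bars.al_t (v : V) : G.al v (G.t v) := ⟨G.bt v, le_rfl⟩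

/-- `y` is the upper neighbour of `x`. -/
theorem Bars.up_of_ub {x y : V} {τ : ℕ} (hx : x ≠ G.top) (h : τ ≤ G.N) (ha : G.al x τ) (hy : G.ub x τ = y) :
    @Up V G.ord G.b G.t τ x y := by
  have h1 := G.ub_spec hx h
  rw [hy] at h1
  let _ := G.ord
  exact { lt := h1.2.1, ax := ha, ay := h1.1, no := fun z h2 h3 h4 => absurd (h1.2.2 z h2 h3) (not_le.2 h4) }

theorem Bars.ub_of_up {x y : V} {τ : ℕ} (h : @Up V G.ord G.b G.t τ x y) : G.ub x τ = y := by
  let _ := G.ord
  exact G.ub_unique h.ay h.lt fun u' h1 h2 => not_lt.1 (h.no u' h1 h2)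

theorem Bars.up_of_lb {x y : V} {τ : ℕ} (hx : x ≠ G.bot) (h : τ ≤ G.N) (ha : G.al x τ) (hy : G.lb x τ = y) :
    @Up V G.ord G.b G.t τ y x := by
  have h1 := G.lb_spec hx h
  rw [hy] at h1
  let _ := G.ord
  exact { lt := h1.2.1, ax := h1.1, ay := ha, no := fun z h2 h3 h4 => absurd (h1.2.2 z h2 h4) (not_le.2 h3) }

theorem Bars.lb_of_up {x y : V} {τ : ℕ} (h : @Up V G.ord G.b G.t τ y x) : G.lb x τ = y := by
  let _ := G.ord
  exact G.lb_unique h.ax h.lt fun u' h1 h2 => not_lt.1 fun h3 => h.no u' h1 h3 h2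

/-- The neighbours at the death. -/
theorem Bars.up_up {v : V} (hv : G.inn v) : @Up V G.ord G.b G.t (G.t v) v (G.up v) :=
  G.up_of_ub hv.2 (G.t_in v hv.1 hv.2).le (G.al_t v) rfl

theorem Bars.up_lo {v : V} (hv : G.inn v) : @Up V G.ord G.b G.t (G.t v) (G.lo v) v :=
  G.up_of_lb hv.1 (G.t_in v hv.1 hv.2).le (G.al_t v) rfl

theorem Bars.t_up {v : V} (hv : G.inn v) : G.t v < G.t (G.up v) := by
  let _ := G.ord
  have h := G.up_up hv
  exact lt_of_le_of_ne h.ay.2 fun h1 => h.lt.ne (G.t_inj h1)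

theorem Bars.t_lo {v : V} (hv : G.inn v) : G.t v < G.t (G.lo v) := by
  let _ := G.ord
  have h := G.up_lo hv
  exact lt_of_le_of_ne h.ax.2 fun h1 => h.lt.ne' (G.t_inj h1)

/-- The mirror. -/
theorem Bars.mir_mir : G.mir.mir = G := by
  cases G with
  | mk r b t M N bot top fl r_inj t_inj r_le =>
    simp only [Bars.mir, Bool.not_not, Bars.mk.injEq, and_true]
    funext v
    have := r_le v
    omega

@[simp] theorem Bars.mir_up (v : V) : G.mir.up v = G.lo v := rfl

@[simp] theorem Bars.mir_lo (v : V) : G.mir.lo v = G.up v := by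
  show G.mir.mir.ub v (G.t v) = G.ub v (G.t v)
  rw [G.mir_mir]

theorem Ch.mir25 {G : Bars V} {π : V → V} (h : Ch G π) : Ch G.mir π :=
  ⟨h.2.1, h.1, fun v hv => by
    rw [G.mir_lo, G.mir_up]
    exact (h.2.2 v ⟨hv.2, hv.1⟩).symm⟩

theorem Bars.mir_inn {v : V} : G.mir.inn v ↔ G.inn v := ⟨fun h => ⟨h.2, h.1⟩, fun h => ⟨h.2, h.1⟩⟩

theorem mir_host (π : V → V) (u : V) (τ : ℕ) : host G.mir π u τ = host G π u τ := rfl

theorem Bars.inn_of_t {v : V} {τ : ℕ} (h : G.t v < τ) (hN : τ ≤ G.N) : G.inn v := by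
  constructor
  · rintro rfl
    exact absurd G.t_bot (by omega)
  · rintro rfl
    exact absurd G.t_top (by omega)

/-! ### Hosts -/

variable {G}

theorem Ch.t_lt {π : V → V} (h : Ch G π) {v : V} (hv : G.inn v) : G.t v < G.t (π v) := by
  rcases h.2.2 v hv with h1 | h1
  · rw [h1]
    exact G.t_lo hv
  · rw [h1]
    exact G.t_up hv

theorem Ch.t_le {π : V → V} (h : Ch G π) (v : V) : G.t v ≤ G.t (π v) := by
  by_cases h1 : v = G.bot
  · rw [h1, h.1]
  · by_cases h2 : v = G.top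
    · rw [h2, h.2.1]
    · exact (h.t_lt ⟨h1, h2⟩).le

theorem Ch.b_le {π : V → V} (h : Ch G π) {v : V} (hv : G.inn v) : G.b (π v) ≤ G.t v := by
  let _ := G.ord
  rcases h.2.2 v hv with h1 | h1
  · rw [h1]
    exact (G.up_lo hv).ax.1
  · rw [h1]
    exact (G.up_up hv).ay.1

theorem Ch.iter_mono {π : V → V} (h : Ch G π) (u : V) {j k : ℕ} (hjk : j ≤ k) : G.t (π^[j] u) ≤ G.t (π^[k] u) := by
  induction k with
  | zero =>
    have : j = 0 := by omega
    rw [this]
  | succ k ih =>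
    rcases Nat.lt_or_ge k j with h1 | h1
    · have : j = k + 1 := by omega
      rw [this]
    · rw [Function.iterate_succ_apply']
      exact (ih h1).trans (h.t_le _)

theorem Ch.iter_ge {π : V → V} (h : Ch G π) (u : V) {τ : ℕ} (hτ : τ ≤ G.N) (k : ℕ) : min τ k ≤ G.t (π^[k] u) := by
  induction k with
  | zero => simp
  | succ k ih =>
    rw [Function.iterate_succ_apply']
    by_cases h1 : G.t (π^[k] u) < τ
    · have h2 := h.t_lt (G.inn_of_t h1 hτ)
      omega
    · have h2 := h.t_le (π^[k] u)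
      omega

/-- The host is the first vertex of the route which is not dead. -/
theorem host_eq {π : V → V} (h : Ch G π) {u : V} {τ k : ℕ} (hτ : τ ≤ G.N) (h1 : ∀ j, j < k → G.t (π^[j] u) < τ)
    (h2 : τ ≤ G.t (π^[k] u)) : host G π u τ = π^[k] u := by
  classical
  unfold host
  set s : V → V := fun w => if G.t w < τ then π w else w with hs
  have h3 : ∀ j, j ≤ k → s^[j] u = π^[j] u := by
    intro j
    induction j with
    | zero => intro _; rfl
    | succ j ih =>
      intro hj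
      rw [Function.iterate_succ_apply', ih (by omega), Function.iterate_succ_apply', hs]
      simp only
      rw [if_pos (h1 j (by omega))]
  have hk : k ≤ τ := by
    rcases Nat.eq_zero_or_pos k with h4 | h4
    · omega
    · have h5 := h1 (k - 1) (by omega)
      have h6 := h.iter_ge u hτ (k - 1)
      omega
  have h4 : ∀ j, s^[j] (π^[k] u) = π^[k] u := by
    intro j
    induction j with
    | zero => rfl
    | succ j ih =>
      rw [Function.iterate_succ_apply', ih, hs]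
      simp only
      rw [if_neg (by omega)]
  have e : τ = (τ - k) + k := by omega
  conv_lhs => rw [e, Function.iterate_add_apply, h3 k le_rfl]
  exact h4 _

theorem host_exists {π : V → V} (h : Ch G π) (u : V) {τ : ℕ} (hτ : τ ≤ G.N) :
    ∃ k, host G π u τ = π^[k] u ∧ (∀ j, j < k → G.t (π^[j] u) < τ) ∧ τ ≤ G.t (π^[k] u) := by
  classical
  have hex : ∃ k, τ ≤ G.t (π^[k] u) := ⟨τ, by have := h.iter_ge u hτ τ; omega⟩
  refine ⟨Nat.find hex, ?_, fun j hj => not_le.1 (Nat.find_min hex hj), Nat.find_spec hex⟩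
  exact host_eq h hτ (fun j hj => not_le.1 (Nat.find_min hex hj)) (Nat.find_spec hex)

theorem host_orb25 {π : V → V} (h : Ch G π) (u : V) {τ : ℕ} (hτ : τ ≤ G.N) : Orb π u (host G π u τ) := by
  obtain ⟨k, h1, _⟩ := host_exists h u hτ
  exact ⟨k, h1.symm⟩

theorem host_self25 {π : V → V} (h : Ch G π) {u : V} {τ : ℕ} (hτ : τ ≤ G.N) (hu : τ ≤ G.t u) : host G π u τ = u :=
  host_eq h (k := 0) hτ (fun j hj => by omega) hu

theorem host_al25 {π : V → V} (h : Ch G π) {u : V} {τ : ℕ} (hτ : τ ≤ G.N) (hu : G.b u ≤ τ) :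
    G.al (host G π u τ) τ := by
  obtain ⟨k, h1, h2, h3⟩ := host_exists h u hτ
  rw [h1]
  refine ⟨?_, h3⟩
  rcases Nat.eq_zero_or_pos k with h4 | h4
  · rw [h4]
    exact hu
  · have h5 := h2 (k - 1) (by omega)
    have h6 := h.b_le (G.inn_of_t h5 hτ)
    have e : k = (k - 1) + 1 := by omega
    rw [e, Function.iterate_succ_apply']
    omega

theorem host_succ {π : V → V} (h : Ch G π) {u : V} {τ : ℕ} (hτ : τ < G.N) :
    (τ < G.t (host G π u τ) ∧ host G π u (τ + 1) = host G π u τ) ∨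
    (τ = G.t (host G π u τ) ∧ host G π u (τ + 1) = π (host G π u τ) ∧ G.inn (host G π u τ)) := by
  obtain ⟨k, h1, h2, h3⟩ := host_exists h u hτ.le
  rcases h3.lt_or_eq with h4 | h4
  · left
    rw [h1]
    exact ⟨h4, host_eq h (by omega) (fun j hj => by have := h2 j hj; omega) (by omega)⟩
  · right
    have hin : G.inn (π^[k] u) := G.inn_of_t (τ := τ + 1) (by omega) (by omega)
    rw [h1]
    refine ⟨h4, ?_, hin⟩
    have h5 := h.t_lt hin
    rw [show π (π^[k] u) = π^[k + 1] u from (Function.iterate_succ_apply' π k u).symm]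
    refine host_eq h (by omega) (fun j hj => ?_) ?_
    · rcases Nat.lt_or_ge j k with h6 | h6
      · have := h2 j h6
        omega
      · have : j = k := by omega
        rw [this]
        omega
    · rw [Function.iterate_succ_apply']
      omega

/-- A route is a host path. -/
theorem host_hp {π : V → V} (h : Ch G π) {u : V} {a c : ℕ} (ha : G.b u ≤ a) (hc : c ≤ G.N) :
    @Hp V G.ord G.b G.t (host G π u) a c := by
  let _ := G.ord
  refine ⟨fun τ h1 h2 => host_al25 h (h2.trans hc) (ha.trans h1), fun τ h1 h2 => ?_⟩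
  rcases host_succ h (u := u) (τ := τ) (by omega) with h3 | ⟨h3, h4, h5⟩
  · exact Or.inl h3.2
  · right
    refine ⟨h3, ?_⟩
    rw [h4]
    have hu := G.up_up h5
    have hl := G.up_lo h5
    rw [← h3] at hu hl
    rcases h.2.2 _ h5 with h6 | h6
    · rw [h6]
      exact Or.inr hl
    · rw [h6]
      exact Or.inl hu

/-- Hosts of two choice functions which agree on the beginning of the route. -/
theorem host_congr25 {π π' : V → V} (h : Ch G π) (h' : Ch G π') {u : V} {τ : ℕ} (hτ : τ ≤ G.N)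
    (he : ∀ v, Orb π u v → G.t v < τ → π' v = π v) : host G π' u τ = host G π u τ := by
  obtain ⟨k, h1, h2, h3⟩ := host_exists h u hτ
  have h4 : ∀ j, j ≤ k → π'^[j] u = π^[j] u := by
    intro j
    induction j with
    | zero => intro _; rfl
    | succ j ih =>
      intro hj
      rw [Function.iterate_succ_apply', ih (by omega), Function.iterate_succ_apply']
      exact he _ ⟨j, rfl⟩ (h2 j (by omega))
  rw [h1, ← h4 k le_rfl]
  refine host_eq h' hτ (fun j hj => ?_) ?_
  · rw [h4 j hj.le]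
    exact h2 j hj
  · rw [h4 k le_rfl]
    exact h3

/-- A closed set keeps the hosts. -/
theorem host_mem {π : V → V} (h : Ch G π) {S : Set V} (hS : ∀ v ∈ S, π v ∈ S) {u : V} (hu : u ∈ S) {τ : ℕ}
    (hτ : τ ≤ G.N) : host G π u τ ∈ S := by
  obtain ⟨k, h1, _⟩ := host_exists h u hτ
  rw [h1]
  have : ∀ j, π^[j] u ∈ S := by
    intro j
    induction j with
    | zero => exact hu
    | succ j ih =>
      rw [Function.iterate_succ_apply']
      exact hS _ ih
  exact this k

/-- Hosts of hosts. -/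
theorem host_host {π : V → V} (h : Ch G π) {u : V} {τ τ' : ℕ} (h1 : τ ≤ τ') (hτ : τ' ≤ G.N) :
    host G π (host G π u τ) τ' = host G π u τ' := by
  obtain ⟨k, k1, k2, k3⟩ := host_exists h u (h1.trans hτ)
  obtain ⟨l, l1, l2, l3⟩ := host_exists h (host G π u τ) hτ
  rw [l1, k1, ← Function.iterate_add_apply]
  symm
  rw [k1, ← Function.iterate_add_apply] at l3
  refine host_eq h hτ (fun j hj => ?_) l3
  rcases Nat.lt_or_ge j k with h5 | h5
  · exact (k2 j h5).trans_le h1
  · have h6 := l2 (j - k) (by omega)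
    rw [k1, ← Function.iterate_add_apply] at h6
    have e : j - k + k = j := by omega
    rw [e] at h6
    exact h6

/-- The host at the death of a vertex of the route. -/
theorem host_of_orb {π : V → V} (h : Ch G π) {u v : V} (hv : Orb π u v) {τ : ℕ} (h1 : τ = G.t v) (hτ : τ ≤ G.N) :
    host G π u τ = v := by
  obtain ⟨k, rfl⟩ := hv
  subst h1
  have hin : G.inn (π^[k] u) := by
    constructor
    · intro e
      rw [e] at hτ
      exact absurd G.t_bot (by omega)
    · intro e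
      rw [e] at hτ
      exact absurd G.t_top (by omega)
  refine host_eq h hτ (fun j hj => ?_) le_rfl
  have h2 : G.t (π^[j] u) < G.t (π^[j + 1] u) := by
    rw [Function.iterate_succ_apply']
    refine h.t_lt ?_
    have h3 := h.iter_mono u hj.le
    constructor
    · intro e
      rw [e] at h3
      exact absurd G.t_bot (by omega)
    · intro e
      rw [e] at h3
      exact absurd G.t_top (by omega)
  exact h2.trans_le (h.iter_mono u hj)

theorem Orb.refl (π : V → V) (u : V) : Orb π u u := ⟨0, rfl⟩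

theorem Orb.step {π : V → V} {u v : V} (h : Orb π u v) : Orb π u (π v) := by
  obtain ⟨k, rfl⟩ := h
  exact ⟨k + 1, Function.iterate_succ_apply' π k u⟩

theorem Orb.trans {π : V → V} {u v w : V} (h : Orb π u v) (h' : Orb π v w) : Orb π u w := by
  obtain ⟨k, rfl⟩ := h
  obtain ⟨l, rfl⟩ := h'
  exact ⟨l + k, Function.iterate_add_apply π l k u⟩

/-- Two vertices of one route are ordered. -/
theorem Orb.cmp {π : V → V} {u v w : V} (h : Orb π u v) (h' : Orb π u w) : Orb π v w ∨ Orb π w v := by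
  obtain ⟨k, rfl⟩ := h
  obtain ⟨l, rfl⟩ := h'
  rcases le_total k l with h1 | h1
  · left
    refine ⟨l - k, ?_⟩
    rw [← Function.iterate_add_apply]
    congr 2
    omega
  · right
    refine ⟨k - l, ?_⟩
    rw [← Function.iterate_add_apply]
    congr 2
    omega

theorem Orb.t_le {π : V → V} (h : Ch G π) {u v : V} (h' : Orb π u v) : G.t u ≤ G.t v := by
  obtain ⟨k, rfl⟩ := h'
  exact h.iter_mono u (Nat.zero_le k)

end Pool.Agent.W_a4f561_h26
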