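import Pool.Agent.W_a4f561_E.Loc73

/-!
MP_a4f561_co, n^eps: the machine of the route of a token, and its laws except for the harm inequality (helper73).
-/

set_option autoImplicit false

namespace Pool.Agent.W_a4f561_E73

open Pool.Agent.W_a4f561_h26 Pool.Agent.W_a4f561_E

section known

variable {V : Type} {G : Bars V} {σ : St V}

/-- The hypothesis on declared vertices. -/
def HD (G : Bars V) (σ : St V) : Prop :=
  ∀ u ∈ σ.Dec, u ∉ σ.S → σ.pi u = G.lo u → G.lo u ∉ σ.S → G.t (G.lo u) < G.t (G.up u)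

theorem tau1_up {v : V} (hv : G.inn v) (hx : G.inn (G.lo v)) (h : G.t (G.lo v) < G.t (G.up v)) :
    G.tau1 v = G.t v + 1 ∧ G.flh v = G.up v := by
  have h1 := (tau1_spec G hv hx).1
  have h2 : G.tau1 v ≤ G.t v + 1 := by
    unfold Bars.tau1
    refine Nat.sInf_le ⟨Nat.lt_succ_self _, ?_⟩
    rw [ub_lo G hv]
    exact h
  have h3 : G.tau1 v = G.t v + 1 := by omega
  refine ⟨h3, ?_⟩
  unfold Bars.flh
  rw [h3, ub_lo G hv]

/-- A D-step without a forced barrier asks its coin. -/
theorem ask_of_dst (inv : Inv G σ) (hD : HD G σ) {ω : V × Bool → Bool} {z v : V} (h : Dst G σ ω z v)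
    (hf : ¬ fb G σ v) : ask G σ v := by
  obtain ⟨⟨h1, h2⟩, h3, h4⟩ := h
  have hv := inn_of_notS inv h2
  refine ⟨h2, fun h5 => hf ?_, fun h5 => ?_⟩
  · rw [lam_SD ω (Or.inr h5)] at h3
    have h6 := hD v h5 h2 h3 h4
    obtain ⟨h7, h8⟩ := tau1_up hv (inn_of_notS inv h4) h6
    exact ⟨v, h5, h2, h3, rfl, h7.symm, h8.symm⟩
  · by_cases h6 : v ∈ σ.S ∪ σ.Dec
    · rcases h6 with h6 | h6
      · exact h2 h6
      · apply hf
        rw [lam_SD ω (Or.inr h6)] at h3
        have h7 := hD v h6 h2 h3 h4
        obtain ⟨h8, h9⟩ := tau1_up hv (inn_of_notS inv h4) h7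
        exact ⟨v, h6, h2, h3, rfl, h8.symm, h9.symm⟩
    · rw [lam_stick ω h6 h5] at h3
      rw [h3] at h5
      exact h4 h5.1

/-- An accepted coin was not known before. -/
theorem acc_unknown (inv : Inv G σ) {m : V × Bool → Option Bool} (hm : ∀ c, m c ≠ some true) {ω : V × Bool → Bool}
    (hext : Ext m ω) {z v : V} (h : OnB G σ ω z v) (hc : ω (G.coin v) = true) :
    mem G σ m ω z v (G.coin v) = none := by
  have hv := inn_of_notS inv h.2
  rcases mem_cases (G := G) (σ := σ) m ω z v (G.coin v) with ⟨v', h1, h2, h3, h4, _⟩ | ⟨_, h1⟩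
  · exfalso
    rw [← h4] at hc
    have h5 := lam_true h3 hc
    have h6 : G.zz v' = G.zz v := congrArg Prod.fst h4
    have h7 := orb_lt (lam_ch inv ω) h1.1 h.1 h2
    rw [h5, h6] at h7
    have h8 := orb_t (lam_ch inv ω) h7
    have h9 := t_lt_zz hv
    omega
  · rw [h1]
    cases h2 : m (G.coin v) with
    | none => rfl
    | some b =>
      exfalso
      have h3 := hext _ _ h2
      rw [hc] at h3
      exact hm _ (by rw [h2, ← h3])

/-- A rejected coin of the tokens from below belongs to a seen first long head. -/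
theorem rej_seen (inv : Inv G σ) {ω : V × Bool → Bool} {z v v' y : V} (h : OnB G σ ω z v) (h' : OnB G σ ω z v')
    (ht : G.t v' < G.t v) (ha : ask G σ v') (hc : G.coin v' = G.blw y) (hω : ω (G.blw y) = false) :
    Dst G σ ω z v' ∧ G.flh v' = y := by
  have hv' := inn_of_notS inv h'.2
  obtain ⟨h1, h2⟩ := coin_eq_blw hv' hc
  rcases zz_oo G v' with ⟨h3, h4, h5⟩ | ⟨_, h4, _⟩
  · have h6 : lam G σ ω v' = G.lo v' := by rw [lam_false ha (by rw [hc]; exact hω), h5]
    have h7 := orb_lt (lam_ch inv ω) h'.1 h.1 ht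
    rw [h6] at h7
    have h8 : G.lo v' ∉ σ.S := orb_notS inv ω h7 h.2
    refine ⟨⟨h', h6, h8⟩, ?_⟩
    rw [(tau1_up hv' (inn_of_notS inv h8) h3).2, h2]
  · exfalso
    rw [h4] at h1
    exact lo_ne_up hv' (h1.trans h2.symm)

/-- The coin of a new first long head is not known. -/
theorem unknown_blw (inv : Inv G σ) {m : V × Bool → Option Bool} {ω : V × Bool → Bool} {z v y : V}
    (h : OnB G σ ω z v) (hn : ∀ v', Dst G σ ω z v' → G.t v' < G.t v → G.flh v' ≠ y) (hm : m (G.blw y) = none)
    (hy : G.t v < G.t y) : mem G σ m ω z v (G.blw y) = none := by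
  rcases mem_cases (G := G) (σ := σ) m ω z v (G.blw y) with ⟨v', h1, h2, h3, h4, _⟩ | ⟨_, h1⟩
  · exfalso
    cases hc : ω (G.blw y) with
    | false =>
      obtain ⟨h5, h6⟩ := rej_seen inv h h1 h2 h3 h4 hc
      exact hn v' h5 h2 h6
    | true =>
      have h5 := lam_true h3 (by rw [h4]; exact hc)
      have h6 : G.zz v' = y := congrArg Prod.fst h4
      have h7 := orb_lt (lam_ch inv ω) h1.1 h.1 h2
      rw [h5, h6] at h7
      have h8 := orb_t (lam_ch inv ω) h7
      omega
  · rw [h1, hm]

end known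

section machine

variable {V : Type} [Fintype V] [DecidableEq V] {G : Bars V} {σ : St V}

theorem dst_of_hrm {m : V × Bool → Option Bool} {ω : V × Bool → Bool} {z v w : V} {δ : ℝ}
    (h : hrm G σ m ω z δ w v) : Dst G σ ω z v := by
  rcases h with h | h | h
  · exact h.1.1
  · exact h.1
  · exact h.1.1

theorem ask_of_hrm (inv : Inv G σ) (hD : HD G σ) {m : V × Bool → Option Bool} {ω : V × Bool → Bool} {z v w : V} {δ : ℝ}
    (h : hrm G σ m ω z δ w v) : ask G σ v := by
  rcases h with h | h | h
  · exact h.1.2.1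
  · exact ask_of_dst inv hD h.1 h.2.2
  · exact ask_of_dst inv hD h.1.1 h.1.2.2.2.2

omit [Fintype V] [DecidableEq V] in
/-- The value of the coin at a D-step. -/
theorem dst_coin {ω : V × Bool → Bool} {z v : V} (inv : Inv G σ) (h : Dst G σ ω z v) (ha : ask G σ v) :
    (G.zz v = G.lo v → ω (G.coin v) = true) ∧ (G.zz v = G.up v → ω (G.coin v) = false) := by
  have hv := inn_of_notS inv h.1.2
  have hne := zz_ne_oo (G := G) hv
  constructor
  · intro hz
    cases hc : ω (G.coin v) with
    | true => rfl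
    | false =>
      exfalso
      have h1 := lam_false ha hc
      rw [h.2.1, ← hz] at h1
      exact hne h1
  · intro hz
    cases hc : ω (G.coin v) with
    | false => rfl
    | true =>
      exfalso
      have h1 := lam_true ha hc
      rw [h.2.1, hz] at h1
      exact lo_ne_up hv h1

/-- The coin of a harmful step is not known, and it does not belong to a seen first long head. -/
theorem hrm_unknown (inv : Inv G σ) (hD : HD G σ) {m : V × Bool → Option Bool} (hm : ∀ c, m c ≠ some true)
    {ω : V × Bool → Bool} (hext : Ext m ω) {z v w : V} {δ : ℝ} (h : hrm G σ m ω z δ w v) :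
    mem G σ m ω z v (G.coin v) = none ∧
      ∀ v', Dst G σ ω z v' → G.t v' < G.t v → G.coin v ≠ G.blw (G.flh v') := by
  have ha := ask_of_hrm inv hD h
  have hd := dst_of_hrm h
  have hv := inn_of_notS inv hd.1.2
  rcases zz_oo G v with ⟨h1, h2, _⟩ | ⟨_, h2, _⟩
  · have hx := inn_of_notS inv hd.2.2
    have hf := (tau1_up hv hx h1).2
    rcases h with h | h | h
    · exfalso
      have h3 := h.1.2.2
      rw [h2] at h3
      exact lo_ne_up hv h3.symm
    · exfalso
      have h3 := h.2.1
      rw [hf, ← h2] at h3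
      exact ha.2.2 h3
    · have hnw := h.1.2.2.1
      rw [coin_up hv h2, ← hf]
      refine ⟨unknown_blw inv hd.1 hnw h.1.2.2.2.1 ?_, fun v' h3 h4 h5 => ?_⟩
      · rw [hf]
        exact t_up G hv
      · exact hnw v' h3 h4 (congrArg Prod.fst h5).symm
  · exact ⟨acc_unknown inv hm hext hd.1 ((dst_coin inv hd ha).1 h2), fun v' _ _ => coin_lo_ne_blw hv h2 _⟩

open Classical in
/-- The machine of the route of `z` with target `w`. -/
noncomputable def mch (G : Bars V) (σ : St V) (m : V × Bool → Option Bool) (z w : V) (δ : ℝ) : Mach (V × Bool) where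
  H := (V × Bool → Bool) × V
  mem h := mem G σ m h.1 z h.2
  rk h := G.N + 3 - G.t h.2
  stop h := h.2 ∈ σ.S ∨ G.t w ≤ G.t h.2
  ask h := if ask G σ h.2 then some (G.coin h.2) else none
  nxt h b := if ask G σ h.2 then (Function.update h.1 (G.coin h.2) b, if b = true then G.zz h.2 else G.oo h.2)
    else (h.1, lam G σ h.1 h.2)
  hm h b := ask G σ h.2 ∧ hrm G σ m (Function.update h.1 (G.coin h.2) b) z δ w h.2
  vis h ω := Orb (lam G σ ω) h.2 w
  cnt h ω := if h.2 ∈ σ.S then 0 else Set.ncard {v | G.t h.2 ≤ G.t v ∧ G.t v < G.t w ∧ hrm G σ m ω z δ w v}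

/-- The invariant of the machine. -/
def MInv (G : Bars V) (σ : St V) (m : V × Bool → Option Bool) (z : V) (h : (V × Bool → Bool) × V)
    (g : V × Bool → Option Bool) : Prop :=
  Orb (lam G σ h.1) z h.2 ∧ Ext m h.1 ∧
    ∀ κ, g κ ≠ none → ∃ v', Dst G σ h.1 z v' ∧ G.t v' < G.t h.2 ∧ κ = G.blw (G.flh v')

variable {m : V × Bool → Option Bool} {z w : V} {δ : ℝ}

theorem mch_ask_some {ω : V × Bool → Bool} {v : V} (ha : ask G σ v) :
    (mch G σ m z w δ).ask (ω, v) = some (G.coin v) := by
  classical
  show (if ask G σ v then some (G.coin v) else none) = _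
  rw [if_pos ha]

theorem mch_ask_none {ω : V × Bool → Bool} {v : V} (ha : ¬ ask G σ v) :
    (mch G σ m z w δ).ask (ω, v) = none := by
  classical
  show (if ask G σ v then some (G.coin v) else none) = _
  rw [if_neg ha]

theorem mch_nxt_ask {ω : V × Bool → Bool} {v : V} (ha : ask G σ v) (b : Bool) :
    (mch G σ m z w δ).nxt (ω, v) b = (Function.update ω (G.coin v) b, if b = true then G.zz v else G.oo v) := by
  classical
  show (if ask G σ v then (Function.update ω (G.coin v) b, if b = true then G.zz v else G.oo v)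
    else (ω, lam G σ ω v)) = _
  rw [if_pos ha]

theorem mch_nxt_nask {ω : V × Bool → Bool} {v : V} (ha : ¬ ask G σ v) (b : Bool) :
    (mch G σ m z w δ).nxt (ω, v) b = (ω, lam G σ ω v) := by
  classical
  show (if ask G σ v then (Function.update ω (G.coin v) b, if b = true then G.zz v else G.oo v)
    else (ω, lam G σ ω v)) = _
  rw [if_neg ha]

omit [Fintype V] [DecidableEq V] in
/-- The memory after one more vertex. -/
theorem mem_next (inv : Inv G σ) {ω : V × Bool → Bool} {v : V} (hv : OnB G σ ω z v) (κ : V × Bool) :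
    (ask G σ v ∧ κ = G.coin v ∧ mem G σ m ω z (lam G σ ω v) κ = some (ω κ)) ∨
    (¬ (ask G σ v ∧ κ = G.coin v) ∧ mem G σ m ω z (lam G σ ω v) κ = mem G σ m ω z v κ) := by
  classical
  have hi := inn_of_notS inv hv.2
  have ht : G.t v < G.t (lam G σ ω v) := by
    rcases (lam_ch inv ω).2.2 v hi with h | h
    · rw [h]
      exact t_lo G hi
    · rw [h]
      exact t_up G hi
  by_cases h : ask G σ v ∧ κ = G.coin v
  · left
    refine ⟨h.1, h.2, ?_⟩
    rw [h.2]
    exact mem_some_asked hv ht h.1
  · right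
    refine ⟨h, ?_⟩
    unfold mem
    have e : (∃ v', OnB G σ ω z v' ∧ G.t v' < G.t (lam G σ ω v) ∧ ask G σ v' ∧ G.coin v' = κ) ↔
        (∃ v', OnB G σ ω z v' ∧ G.t v' < G.t v ∧ ask G σ v' ∧ G.coin v' = κ) := by
      constructor
      · rintro ⟨v', h1, h2, h3, h4⟩
        refine ⟨v', h1, ?_, h3, h4⟩
        rcases lt_trichotomy (G.t v') (G.t v) with h5 | h5 | h5
        · exact h5
        · exfalso
          have h6 := G.t_inj h5
          rw [h6] at h3 h4
          exact h ⟨h3, h4.symm⟩
        · exfalso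
          have h6 := orb_t (lam_ch inv ω) (orb_lt (lam_ch inv ω) hv.1 h1.1 h5)
          omega
      · rintro ⟨v', h1, h2, h3⟩
        exact ⟨v', h1, by omega, h3⟩
    by_cases h1 : ∃ v', OnB G σ ω z v' ∧ G.t v' < G.t v ∧ ask G σ v' ∧ G.coin v' = κ
    · rw [if_pos h1, if_pos (e.2 h1)]
    · rw [if_neg h1, if_neg fun h2 => h1 (e.1 h2)]

omit [Fintype V] [DecidableEq V] in
theorem t_lt_lam (inv : Inv G σ) (ω : V × Bool → Bool) {v : V} (hv : v ∉ σ.S) : G.t v < G.t (lam G σ ω v) := by
  have hi := inn_of_notS inv hv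
  rcases (lam_ch inv ω).2.2 v hi with h | h
  · rw [h]
    exact t_lo G hi
  · rw [h]
    exact t_up G hi

omit [Fintype V] in
/-- The facts after a question with the answer `b`. -/
theorem upd_facts (inv : Inv G σ) {ω : V × Bool → Bool} {v : V} {g : V × Bool → Option Bool} {b : Bool}
    (hI : MInv G σ m z (ω, v) g) (hS : v ∉ σ.S) (ha : ask G σ v)
    (hb : uni (mem G σ m ω z v) g (G.coin v) = none ∨ uni (mem G σ m ω z v) g (G.coin v) = some b) :
    Ag G σ z (G.t v) ω (Function.update ω (G.coin v) b) ∧ Ext m (Function.update ω (G.coin v) b) ∧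
      Orb (lam G σ (Function.update ω (G.coin v) b)) z v ∧
      lam G σ (Function.update ω (G.coin v) b) v = (if b = true then G.zz v else G.oo v) ∧
      mem G σ m (Function.update ω (G.coin v) b) z (if b = true then G.zz v else G.oo v) =
        asg (mem G σ m ω z v) (G.coin v) b ∧
      MInv G σ m z (Function.update ω (G.coin v) b, if b = true then G.zz v else G.oo v) g := by
  obtain ⟨h1, h2, h3⟩ := hI
  simp only at h1 h2 h3
  have hb' : mem G σ m ω z v (G.coin v) = none ∨ mem G σ m ω z v (G.coin v) = some b := by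
    cases hc : mem G σ m ω z v (G.coin v) with
    | none => exact Or.inl rfl
    | some b' =>
      right
      rw [uni_of_some g hc] at hb
      rcases hb with hb | hb
      · exact absurd hb (Option.some_ne_none _)
      · exact hb
  have hag : Ag G σ z (G.t v) ω (Function.update ω (G.coin v) b) := by
    intro v' h4 h5 h6
    by_cases h7 : G.coin v' = G.coin v
    · rw [h7, Function.update_self]
      have h8 := mem_some_asked (m := m) h4 h5 h6
      rw [h7] at h8
      rw [h8] at hb'
      rcases hb' with h9 | h9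
      · exact absurd h9 (Option.some_ne_none _)
      · exact Option.some.inj h9
    · rw [Function.update_of_ne h7]
  have hex : Ext m (Function.update ω (G.coin v) b) := by
    intro κ b' h4
    by_cases h5 : κ = G.coin v
    · rw [h5, Function.update_self]
      rw [h5] at h4
      rw [mem_of_m (G := G) (σ := σ) h2 z v h4] at hb'
      rcases hb' with h9 | h9
      · exact absurd h9 (Option.some_ne_none _)
      · exact (Option.some.inj h9).symm
    · rw [Function.update_of_ne h5]
      exact h2 κ b' h4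
  have hor : Orb (lam G σ (Function.update ω (G.coin v) b)) z v := (hag.orb inv le_rfl).1 h1
  have hlam : lam G σ (Function.update ω (G.coin v) b) v = (if b = true then G.zz v else G.oo v) := by
    rw [lam_ask _ ha, Function.update_self]
  have hon : OnB G σ (Function.update ω (G.coin v) b) z v := ⟨hor, hS⟩
  have ht := t_lt_lam inv (Function.update ω (G.coin v) b) hS
  refine ⟨hag, hex, hor, hlam, ?_, ?_, hex, ?_⟩
  · funext κ
    have h4 := mem_next (m := m) inv hon κ
    rw [hlam] at h4
    rcases h4 with ⟨_, h5, h6⟩ | ⟨h5, h6⟩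
    · rw [h6, h5, Function.update_self, asg_same]
    · have h7 : κ ≠ G.coin v := fun h8 => h5 ⟨ha, h8⟩
      rw [h6, asg_ne _ _ h7, hag.mem_imp inv m le_rfl]
  · simp only
    rw [← hlam]
    exact orb_step hor
  · intro κ h4
    obtain ⟨v', h5, h6, h7⟩ := h3 κ h4
    refine ⟨v', (hag.dst inv h6).1 h5, ?_, h7⟩
    simp only
    rw [← hlam]
    omega

end machine

end Pool.Agent.W_a4f561_E73
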