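import Pool.Agent.W_a4f561_E.Inst73

/-!
MP_a4f561_co, n^eps: the laws of the machine of a token (helper73).
-/

set_option autoImplicit false

namespace Pool.Agent.W_a4f561_E73

open Pool.Agent.W_a4f561_h26 Pool.Agent.W_a4f561_E

variable {V : Type} [Fintype V] [DecidableEq V] {G : Bars V} {σ : St V}
  {m : V × Bool → Option Bool} {z w : V} {δ : ℝ}

omit [Fintype V] [DecidableEq V] in
/-- The route from `y` does not ask the coins of hosts which are dead before `y`, or of `y`. -/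
theorem ind_orb (inv : Inv G σ) {y w : V} {q : V × Bool} [DecidableEq V] (h : G.t q.1 ≤ G.t y) :
    IndP q (fun ω => Orb (lam G σ ω) y w) := by
  intro ω b
  have key : ∀ k, (lam G σ (Function.update ω q b))^[k] y = (lam G σ ω)^[k] y := by
    intro k
    induction k with
    | zero => rfl
    | succ k ih =>
      rw [Function.iterate_succ_apply', Function.iterate_succ_apply', ih]
      refine lam_congr fun ha => ?_
      rw [Function.update_of_ne]
      intro he
      have h1 : G.zz ((lam G σ ω)^[k] y) = q.1 := congrArg Prod.fst he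
      have h2 := t_lt_zz (inn_of_notS inv ha.1)
      have h3 : G.t y ≤ G.t ((lam G σ ω)^[k] y) := orb_t (lam_ch inv ω) ⟨k, rfl⟩
      rw [h1] at h2
      omega
  constructor
  · rintro ⟨k, hk⟩
    exact ⟨k, by rw [← key k]; exact hk⟩
  · rintro ⟨k, hk⟩
    exact ⟨k, by rw [key k]; exact hk⟩

omit [Fintype V] [DecidableEq V] in
/-- An outcome consistent with the memory has the token at `v` too, and then the same next step. -/
theorem cons_facts (inv : Inv G σ) {ω ω' : V × Bool → Bool} {v : V} {g : V × Bool → Option Bool}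
    (hI : MInv G σ m z (ω, v) g) (hS : v ∉ σ.S)
    (ho : ∀ q b, uni (mem G σ m ω z v) g q = some b → ω' q = b) :
    Ext (mem G σ m ω z v) ω' ∧ Ag G σ z (G.t v) ω ω' ∧ OnB G σ ω' z v := by
  have h1 : Ext (mem G σ m ω z v) ω' := fun κ b hb => ho κ b (uni_of_some g hb)
  have h2 := ag_of_ext h1
  exact ⟨h1, h2, (h2.orb inv le_rfl).1 hI.1, hS⟩

theorem bit_ask {ω ω' : V × Bool → Bool} {v : V} (ha : ask G σ v) :
    (mch G σ m z w δ).bit ω' (ω, v) = ω' (G.coin v) := by
  unfold Mach.bit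
  rw [mch_ask_some ha]
  rfl

theorem bit_nask {ω ω' : V × Bool → Bool} {v : V} (ha : ¬ ask G σ v) :
    (mch G σ m z w δ).bit ω' (ω, v) = true := by
  unfold Mach.bit
  rw [mch_ask_none ha]
  rfl

/-- The machine goes to the next vertex of the route. -/
theorem stp_snd {ω ω' : V × Bool → Bool} {v : V} :
    ((mch G σ m z w δ).stp ω' (ω, v)).2 = lam G σ ω' v := by
  unfold Mach.stp
  by_cases ha : ask G σ v
  · rw [mch_nxt_ask ha, bit_ask ha, lam_ask ω' ha]
  · rw [mch_nxt_nask ha]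
    exact lam_nask ω ω' ha

/-- The harmful direction. -/
theorem hm_iff (inv : Inv G σ) (hD : HD G σ) {ω ω' : V × Bool → Bool} {v : V} {g : V × Bool → Option Bool}
    (hI : MInv G σ m z (ω, v) g) (hS : v ∉ σ.S)
    (ho : ∀ q b, uni (mem G σ m ω z v) g q = some b → ω' q = b) :
    (mch G σ m z w δ).hm (ω, v) ((mch G σ m z w δ).bit ω' (ω, v)) ↔ hrm G σ m ω' z δ w v := by
  obtain ⟨h1, h2, h3⟩ := cons_facts inv hI hS ho
  by_cases ha : ask G σ v
  · rw [bit_ask ha]
    show ask G σ v ∧ hrm G σ m (Function.update ω (G.coin v) (ω' (G.coin v))) z δ w v ↔ _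
    have h4 : Ag G σ z (G.t v + 1) ω' (Function.update ω (G.coin v) (ω' (G.coin v))) := by
      intro v' h5 h6 h7
      by_cases h8 : G.coin v' = G.coin v
      · rw [h8, Function.update_self]
      · rw [Function.update_of_ne h8]
        have h9 : G.t v' ≠ G.t v := fun h10 => h8 (by rw [G.t_inj h10])
        have h10 : G.t v' < G.t v := by omega
        exact (h2 v' ((h2.onB inv h10.le).2 h5) h10 h7).symm
    rw [h4.hrm inv m (Nat.lt_succ_self _) δ w]
    exact ⟨fun h5 => h5.2, fun h5 => ⟨ha, h5⟩⟩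
  · constructor
    · intro h4
      exact absurd h4.1 ha
    · intro h4
      exact absurd (ask_of_hrm inv hD h4) ha

/-- The count of the machine. -/
theorem cnt_step (inv : Inv G σ) {ω' : V × Bool → Bool} {v : V} (hv : OnB G σ ω' z v) (hw : G.t v < G.t w) :
    (hrm G σ m ω' z δ w v → Set.ncard {u | G.t v ≤ G.t u ∧ G.t u < G.t w ∧ hrm G σ m ω' z δ w u} =
      Set.ncard {u | G.t (lam G σ ω' v) ≤ G.t u ∧ G.t u < G.t w ∧ hrm G σ m ω' z δ w u} + 1) ∧
    (¬ hrm G σ m ω' z δ w v → Set.ncard {u | G.t v ≤ G.t u ∧ G.t u < G.t w ∧ hrm G σ m ω' z δ w u} =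
      Set.ncard {u | G.t (lam G σ ω' v) ≤ G.t u ∧ G.t u < G.t w ∧ hrm G σ m ω' z δ w u}) := by
  have ht := t_lt_lam inv ω' hv.2
  have key : ∀ u, (G.t v ≤ G.t u ∧ G.t u < G.t w ∧ hrm G σ m ω' z δ w u) ↔
      ((u = v ∧ hrm G σ m ω' z δ w v) ∨
        (G.t (lam G σ ω' v) ≤ G.t u ∧ G.t u < G.t w ∧ hrm G σ m ω' z δ w u)) := by
    intro u
    constructor
    · rintro ⟨h1, h2, h3⟩
      rcases h1.lt_or_eq with h4 | h4
      · right
        have h5 := (dst_of_hrm h3).1
        exact ⟨orb_t (lam_ch inv ω') (orb_lt (lam_ch inv ω') hv.1 h5.1 h4), h2, h3⟩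
      · left
        have h5 := G.t_inj h4
        exact ⟨h5.symm, by rw [h5]; exact h3⟩
    · rintro (⟨h1, h2⟩ | ⟨h1, h2, h3⟩)
      · rw [h1]
        exact ⟨le_rfl, hw, h2⟩
      · exact ⟨by omega, h2, h3⟩
  constructor
  · intro h
    have e : {u | G.t v ≤ G.t u ∧ G.t u < G.t w ∧ hrm G σ m ω' z δ w u} =
        insert v {u | G.t (lam G σ ω' v) ≤ G.t u ∧ G.t u < G.t w ∧ hrm G σ m ω' z δ w u} := by
      ext u
      rw [Set.mem_insert_iff, Set.mem_ofPred_eq, Set.mem_ofPred_eq, key u]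
      constructor
      · rintro (h1 | h1)
        · exact Or.inl h1.1
        · exact Or.inr h1
      · rintro (h1 | h1)
        · exact Or.inl ⟨h1, h⟩
        · exact Or.inr h1
    rw [e, Set.ncard_insert_of_notMem _ (Set.toFinite _)]
    intro h1
    have h2 := h1.1
    omega
  · intro h
    congr 1
    ext u
    rw [Set.mem_ofPred_eq, Set.mem_ofPred_eq, key u]
    constructor
    · rintro (h1 | h1)
      · exact absurd h1.2 h
      · exact h1
    · intro h1
      exact Or.inr h1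

theorem cnt_zero_of_S (inv : Inv G σ) {ω' : V × Bool → Bool} {v : V} (hv : OnB G σ ω' z v)
    (hS : lam G σ ω' v ∈ σ.S) :
    Set.ncard {u | G.t (lam G σ ω' v) ≤ G.t u ∧ G.t u < G.t w ∧ hrm G σ m ω' z δ w u} = 0 := by
  rw [Set.ncard_eq_zero (Set.toFinite _), Set.eq_empty_iff_forall_notMem]
  rintro u ⟨h1, _, h3⟩
  have h4 := (dst_of_hrm h3).1
  have h5 := t_lt_lam inv ω' hv.2
  exact h4.2 (orb_S inv ω' (orb_lt (lam_ch inv ω') hv.1 h4.1 (by omega)) hS)

theorem mcnt_eq {ω ω' : V × Bool → Bool} {v : V} (hv : v ∉ σ.S) :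
    (mch G σ m z w δ).cnt (ω, v) ω' = Set.ncard {u | G.t v ≤ G.t u ∧ G.t u < G.t w ∧ hrm G σ m ω' z δ w u} := by
  classical
  show (if v ∈ σ.S then 0 else _) = _
  rw [if_neg hv]

theorem mcnt_S {ω ω' : V × Bool → Bool} {v : V} (hv : v ∈ σ.S) :
    (mch G σ m z w δ).cnt (ω, v) ω' = 0 := by
  classical
  show (if v ∈ σ.S then 0 else _) = _
  rw [if_pos hv]

theorem mcnt_next (inv : Inv G σ) {h : (V × Bool → Bool) × V} {ω' : V × Bool → Bool} {v : V} (hv : OnB G σ ω' z v)
    (he : h.2 = lam G σ ω' v) :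
    (mch G σ m z w δ).cnt h ω' =
      Set.ncard {u | G.t (lam G σ ω' v) ≤ G.t u ∧ G.t u < G.t w ∧ hrm G σ m ω' z δ w u} := by
  classical
  show (if h.2 ∈ σ.S then 0 else Set.ncard {u | G.t h.2 ≤ G.t u ∧ G.t u < G.t w ∧ hrm G σ m ω' z δ w u}) = _
  rw [he]
  by_cases hS : lam G σ ω' v ∈ σ.S
  · rw [if_pos hS, cnt_zero_of_S inv hv hS]
  · rw [if_neg hS]

end Pool.Agent.W_a4f561_E73
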