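import Pool.Agent.W_a4f561_E.Harm70
import Pool.Agent.W_a4f561_h26.Def

/-!
MP_a4f561_co, n^eps: the probability of helper26's definitions is the one of Coin70 (helper70).
-/

set_option autoImplicit false

namespace Pool.Agent.W_a4f561_E

open Pool.Agent.W_a4f561_h26

variable {V : Type} [Fintype V] [DecidableEq V]

omit [Fintype V] [DecidableEq V] in
theorem ov_eq (m : V × Bool → Option Bool) (ω : V × Bool → Bool) : ov m ω = ovr m ω := rfl

theorem pr_eq (m : V × Bool → Option Bool) (A : (V × Bool → Bool) → Prop) : pr m A = Pr m A := by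
  classical
  unfold pr Pr Ex
  congr 1
  rw [Finset.card_filter]
  push_cast
  refine Finset.sum_congr rfl fun om _ => ?_
  rw [ov_eq]

end Pool.Agent.W_a4f561_E
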