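import Pool.Agent.W_a4f561_h26.Bas
import Pool.Agent.W_a4f561_E.Link70

/-!
MP_a4f561_co, n^eps: locality of the route of a token (helper73).

Everything which happens at the vertex `v` of the route depends only on the coins asked before `v`.
-/

set_option autoImplicit false

namespace Pool.Agent.W_a4f561_E73

open Pool.Agent.W_a4f561_h26 Pool.Agent.W_a4f561_E

variable {V : Type} {G : Bars V} {σ : St V}

/-! ### the neighbours `zz`, `oo` -/

theorem zz_oo (G : Bars V) (v : V) :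
    (G.t (G.lo v) < G.t (G.up v) ∧ G.zz v = G.up v ∧ G.oo v = G.lo v) ∨
    (¬ G.t (G.lo v) < G.t (G.up v) ∧ G.zz v = G.lo v ∧ G.oo v = G.up v) := by
  classical
  unfold Bars.zz Bars.oo
  by_cases h : G.t (G.lo v) < G.t (G.up v)
  · left
    exact ⟨h, by rw [if_pos h], by rw [if_pos h]⟩
  · right
    exact ⟨h, by rw [if_neg h], by rw [if_neg h]⟩

theorem lo_ne_up {v : V} (hv : G.inn v) : G.lo v ≠ G.up v := by
  intro e
  have h1 := r_lo G hv
  have h2 := r_up G hv
  rw [e] at h1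
  omega

theorem zz_ne_oo {v : V} (hv : G.inn v) : G.zz v ≠ G.oo v := by
  rcases zz_oo G v with ⟨_, h1, h2⟩ | ⟨_, h1, h2⟩
  · rw [h1, h2]
    exact (lo_ne_up hv).symm
  · rw [h1, h2]
    exact lo_ne_up hv

theorem t_lt_zz {v : V} (hv : G.inn v) : G.t v < G.t (G.zz v) := by
  rcases zz_oo G v with ⟨_, h1, _⟩ | ⟨_, h1, _⟩
  · rw [h1]
    exact t_up G hv
  · rw [h1]
    exact t_lo G hv

theorem t_lt_oo {v : V} (hv : G.inn v) : G.t v < G.t (G.oo v) := by
  rcases zz_oo G v with ⟨_, _, h1⟩ | ⟨_, _, h1⟩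
  · rw [h1]
    exact t_lo G hv
  · rw [h1]
    exact t_up G hv

theorem coin_up {v : V} (hv : G.inn v) (h : G.zz v = G.up v) : G.coin v = G.blw (G.up v) := by
  unfold Bars.coin Bars.blw
  rw [h]
  have h1 := r_up G hv
  have h2 : decide (G.r (G.up v) < G.r v) = false := by
    rw [decide_eq_false_iff_not]
    omega
  rw [h2, Bool.xor_false]

theorem coin_lo {v : V} (hv : G.inn v) (h : G.zz v = G.lo v) : G.coin v = (G.lo v, !G.fl) := by
  unfold Bars.coin
  rw [h]
  have h1 := r_lo G hv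
  have h2 : decide (G.r (G.lo v) < G.r v) = true := by
    rw [decide_eq_true_iff]
    exact h1
  rw [h2, Bool.xor_true]

theorem coin_lo_ne_blw {v : V} (hv : G.inn v) (h : G.zz v = G.lo v) (y : V) : G.coin v ≠ G.blw y := by
  rw [coin_lo hv h]
  unfold Bars.blw
  intro e
  have := (Prod.mk.injEq _ _ _ _).mp e
  cases hf : G.fl <;> simp [hf] at this

/-- If the coin of `v` is the coin of the tokens from below of `y`, then `y = up v = zz v`. -/
theorem coin_eq_blw {v y : V} (hv : G.inn v) (h : G.coin v = G.blw y) : G.zz v = y ∧ G.up v = y := by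
  rcases zz_oo G v with ⟨_, h1, _⟩ | ⟨_, h1, _⟩
  · rw [coin_up hv h1] at h
    unfold Bars.blw at h
    have := (Prod.mk.injEq _ _ _ _).mp h
    exact ⟨by rw [h1]; exact this.1, this.1⟩
  · exact absurd h (coin_lo_ne_blw hv h1 y)

/-! ### the law is a choice function -/

theorem inn_of_notS (inv : Inv G σ) {v : V} (hv : v ∉ σ.S) : G.inn v :=
  ⟨fun h => hv (h ▸ inv.bot_mem), fun h => hv (h ▸ inv.top_mem)⟩

theorem lam_SD (ω : V × Bool → Bool) {v : V} (h : v ∈ σ.S ∪ σ.Dec) : lam G σ ω v = σ.pi v := by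
  classical
  unfold lam
  rw [if_pos h]

theorem lam_S (ω : V × Bool → Bool) {v : V} (h : v ∈ σ.S) : lam G σ ω v = σ.pi v := lam_SD ω (Or.inl h)

theorem lam_stick (ω : V × Bool → Bool) {v : V} (h : v ∉ σ.S ∪ σ.Dec) (h' : G.zz v ∈ σ.S \ σ.Lat) :
    lam G σ ω v = G.zz v := by
  classical
  unfold lam
  rw [if_neg h, if_pos h']

theorem lam_ask (ω : V × Bool → Bool) {v : V} (h : ask G σ v) :
    lam G σ ω v = if ω (G.coin v) = true then G.zz v else G.oo v := by
  classical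
  unfold lam
  rw [if_neg (fun h' => h'.elim h.1 h.2.1), if_neg h.2.2]

theorem lam_true {ω : V × Bool → Bool} {v : V} (h : ask G σ v) (hω : ω (G.coin v) = true) :
    lam G σ ω v = G.zz v := by
  rw [lam_ask ω h, if_pos hω]

theorem lam_false {ω : V × Bool → Bool} {v : V} (h : ask G σ v) (hω : ω (G.coin v) = false) :
    lam G σ ω v = G.oo v := by
  rw [lam_ask ω h, if_neg (by rw [hω]; exact Bool.false_ne_true)]

/-- Without a question the step does not depend on the coins. -/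
theorem lam_nask (ω ω' : V × Bool → Bool) {v : V} (h : ¬ ask G σ v) : lam G σ ω v = lam G σ ω' v := by
  classical
  unfold ask at h
  by_cases h1 : v ∈ σ.S ∪ σ.Dec
  · rw [lam_SD ω h1, lam_SD ω' h1]
  · by_cases h2 : G.zz v ∈ σ.S \ σ.Lat
    · rw [lam_stick ω h1 h2, lam_stick ω' h1 h2]
    · exact absurd ⟨fun h3 => h1 (Or.inl h3), fun h3 => h1 (Or.inr h3), h2⟩ h

theorem lam_congr {ω ω' : V × Bool → Bool} {v : V} (h : ask G σ v → ω (G.coin v) = ω' (G.coin v)) :
    lam G σ ω v = lam G σ ω' v := by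
  by_cases h1 : ask G σ v
  · rw [lam_ask ω h1, lam_ask ω' h1, h h1]
  · exact lam_nask ω ω' h1

theorem lam_ch (inv : Inv G σ) (ω : V × Bool → Bool) : Ch G (lam G σ ω) := by
  refine ⟨?_, ?_, fun v hv => ?_⟩
  · rw [lam_S ω inv.bot_mem, inv.ch.1]
  · rw [lam_S ω inv.top_mem, inv.ch.2.1]
  · by_cases h1 : v ∈ σ.S ∪ σ.Dec
    · rw [lam_SD ω h1]
      exact inv.ch.2.2 v hv
    · have hz : G.zz v = G.lo v ∨ G.zz v = G.up v := by
        rcases zz_oo G v with ⟨_, h3, _⟩ | ⟨_, h3, _⟩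
        · exact Or.inr h3
        · exact Or.inl h3
      have ho : G.oo v = G.lo v ∨ G.oo v = G.up v := by
        rcases zz_oo G v with ⟨_, _, h3⟩ | ⟨_, _, h3⟩
        · exact Or.inl h3
        · exact Or.inr h3
      by_cases h2 : G.zz v ∈ σ.S \ σ.Lat
      · rw [lam_stick ω h1 h2]
        exact hz
      · have ha : ask G σ v := ⟨fun h3 => h1 (Or.inl h3), fun h3 => h1 (Or.inr h3), h2⟩
        rw [lam_ask ω ha]
        split_ifs
        · exact hz
        · exact ho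

theorem lam_cl (inv : Inv G σ) (ω : V × Bool → Bool) {v : V} (hv : v ∈ σ.S) : lam G σ ω v ∈ σ.S := by
  rw [lam_S ω hv]
  exact inv.cl v hv

/-- The route stays in `S`. -/
theorem orb_S (inv : Inv G σ) (ω : V × Bool → Bool) {u v : V} (h : Orb (lam G σ ω) u v) (hu : u ∈ σ.S) : v ∈ σ.S := by
  obtain ⟨k, rfl⟩ := h
  induction k with
  | zero => exact hu
  | succ k ih =>
    rw [Function.iterate_succ_apply']
    exact lam_cl inv ω ih

theorem orb_notS (inv : Inv G σ) (ω : V × Bool → Bool) {u v : V} (h : Orb (lam G σ ω) u v) (hv : v ∉ σ.S) : u ∉ σ.S :=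
  fun hu => hv (orb_S inv ω h hu)

/-! ### routes of choice functions -/

/-- The next vertex. -/
theorem orb_next {π : V → V} {u w : V} (h : Orb π u w) (hne : u ≠ w) : Orb π (π u) w := by
  obtain ⟨k, hk⟩ := h
  rcases k with _ | k
  · exact absurd hk hne
  · exact ⟨k, by rw [← hk]; rfl⟩

theorem orb_of_next {π : V → V} {u w : V} (h : Orb π (π u) w) : Orb π u w := by
  obtain ⟨k, hk⟩ := h
  exact ⟨k + 1, hk⟩

/-- On a route the later of two vertices comes from the earlier one. -/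
theorem orb_lt {π : V → V} (hπ : Ch G π) {z u v : V} (hu : Orb π z u) (hv : Orb π z v) (h : G.t u < G.t v) :
    Orb π (π u) v := by
  exact orb_next (orb_comp hπ hu hv h.le) fun e => by rw [e] at h; exact lt_irrefl _ h

theorem iter_mono {π : V → V} (hπ : Ch G π) (u : V) {j k : ℕ} (hjk : j ≤ k) : G.t (π^[j] u) ≤ G.t (π^[k] u) := by
  refine orb_t hπ ⟨k - j, ?_⟩
  rw [← Function.iterate_add_apply]
  congr 2
  omega

/-- The first index of a vertex of the route. -/
theorem orb_first {π : V → V} (hπ : Ch G π) {z u : V} (hu : Orb π z u) :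
    ∃ k, π^[k] z = u ∧ ∀ j, j < k → G.t (π^[j] z) < G.t u := by
  classical
  have hex : ∃ k, π^[k] z = u := hu
  refine ⟨Nat.find hex, Nat.find_spec hex, fun j hj => ?_⟩
  have h1 := iter_mono hπ z hj.le
  rw [Nat.find_spec hex] at h1
  refine lt_of_le_of_ne h1 fun h2 => ?_
  exact Nat.find_min hex hj (G.t_inj h2)

/-- `ω` and `ω'` agree on the coins asked by the route of `z` before time `T`. -/
def Ag (G : Bars V) (σ : St V) (z : V) (T : ℕ) (ω ω' : V × Bool → Bool) : Prop :=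
  ∀ v, OnB G σ ω z v → G.t v < T → ask G σ v → ω (G.coin v) = ω' (G.coin v)

theorem Ag.mono {z : V} {T T' : ℕ} {ω ω' : V × Bool → Bool} (h : Ag G σ z T ω ω') (hT : T' ≤ T) :
    Ag G σ z T' ω ω' := fun v h1 h2 h3 => h v h1 (h2.trans_le hT) h3

theorem Ag.iter {z : V} {T : ℕ} {ω ω' : V × Bool → Bool} (h : Ag G σ z T ω ω') (k : ℕ)
    (hk : ∀ j, j < k → G.t ((lam G σ ω)^[j] z) < T) : (lam G σ ω')^[k] z = (lam G σ ω)^[k] z := by
  induction k with
  | zero => rfl
  | succ k ih =>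
    rw [Function.iterate_succ_apply', Function.iterate_succ_apply', ih fun j hj => hk j (by omega)]
    refine (lam_congr fun h1 => ?_).symm
    exact h _ ⟨⟨k, rfl⟩, h1.1⟩ (hk k (by omega)) h1

theorem Ag.iter' {z : V} {T : ℕ} {ω ω' : V × Bool → Bool} (h : Ag G σ z T ω ω') (k : ℕ)
    (hk : ∀ j, j < k → G.t ((lam G σ ω')^[j] z) < T) : (lam G σ ω')^[k] z = (lam G σ ω)^[k] z := by
  induction k with
  | zero => rfl
  | succ k ih =>
    have h0 := ih fun j hj => hk j (by omega)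
    rw [Function.iterate_succ_apply', Function.iterate_succ_apply', h0]
    refine (lam_congr fun h1 => ?_).symm
    refine h _ ⟨⟨k, rfl⟩, h1.1⟩ ?_ h1
    rw [← h0]
    exact hk k (by omega)

theorem Ag.orb (inv : Inv G σ) {z : V} {T : ℕ} {ω ω' : V × Bool → Bool} (h : Ag G σ z T ω ω') {u : V}
    (hu : G.t u ≤ T) : Orb (lam G σ ω) z u ↔ Orb (lam G σ ω') z u := by
  constructor
  · intro h1
    obtain ⟨k, h2, h3⟩ := orb_first (lam_ch inv ω) h1
    refine ⟨k, ?_⟩
    rw [h.iter k fun j hj => (h3 j hj).trans_le hu, h2]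
  · intro h1
    obtain ⟨k, h2, h3⟩ := orb_first (lam_ch inv ω') h1
    refine ⟨k, ?_⟩
    rw [← h.iter' k fun j hj => (h3 j hj).trans_le hu, h2]

theorem Ag.onB (inv : Inv G σ) {z : V} {T : ℕ} {ω ω' : V × Bool → Bool} (h : Ag G σ z T ω ω') {u : V}
    (hu : G.t u ≤ T) : OnB G σ ω z u ↔ OnB G σ ω' z u := by
  unfold OnB
  rw [h.orb inv hu]

theorem Ag.symm (inv : Inv G σ) {z : V} {T : ℕ} {ω ω' : V × Bool → Bool} (h : Ag G σ z T ω ω') :
    Ag G σ z T ω' ω := fun v h1 h2 h3 => (h v ((h.onB inv h2.le).2 h1) h2 h3).symm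

theorem Ag.lam {z : V} {T : ℕ} {ω ω' : V × Bool → Bool} (h : Ag G σ z T ω ω') {u : V}
    (hu : G.t u < T) (hz : Orb (lam G σ ω) z u) : lam G σ ω u = lam G σ ω' u :=
  lam_congr fun h1 => h u ⟨hz, h1.1⟩ hu h1

theorem Ag.dst (inv : Inv G σ) {z : V} {T : ℕ} {ω ω' : V × Bool → Bool} (h : Ag G σ z T ω ω') {u : V}
    (hu : G.t u < T) : Dst G σ ω z u ↔ Dst G σ ω' z u := by
  unfold Dst
  rw [h.onB inv hu.le]
  constructor
  · rintro ⟨h1, h2, h3⟩
    exact ⟨h1, by rw [← h.lam hu ((h.orb inv hu.le).2 h1.1)]; exact h2, h3⟩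
  · rintro ⟨h1, h2, h3⟩
    exact ⟨h1, by rw [h.lam hu ((h.orb inv hu.le).2 h1.1)]; exact h2, h3⟩

theorem Ag.mem_imp (inv : Inv G σ) (m : V × Bool → Option Bool) {z : V} {T : ℕ} {ω ω' : V × Bool → Bool}
    (h : Ag G σ z T ω ω') {u : V} (hu : G.t u ≤ T) : mem G σ m ω z u = mem G σ m ω' z u := by
  classical
  funext κ
  unfold mem
  have e : (∃ v', OnB G σ ω z v' ∧ G.t v' < G.t u ∧ ask G σ v' ∧ G.coin v' = κ) ↔
      (∃ v', OnB G σ ω' z v' ∧ G.t v' < G.t u ∧ ask G σ v' ∧ G.coin v' = κ) := by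
    constructor
    · rintro ⟨v, h1, h2, h3⟩
      exact ⟨v, (h.onB inv (by omega)).1 h1, h2, h3⟩
    · rintro ⟨v, h1, h2, h3⟩
      exact ⟨v, (h.onB inv (by omega)).2 h1, h2, h3⟩
  by_cases h1 : ∃ v', OnB G σ ω z v' ∧ G.t v' < G.t u ∧ ask G σ v' ∧ G.coin v' = κ
  · rw [if_pos h1, if_pos (e.1 h1)]
    obtain ⟨v, h2, h3, h4, h5⟩ := h1
    rw [← h5, h v h2 (by omega) h4]
  · rw [if_neg h1, if_neg fun h2 => h1 (e.2 h2)]

theorem Ag.memc (inv : Inv G σ) (m : V × Bool → Option Bool) {z : V} {T : ℕ} {ω ω' : V × Bool → Bool}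
    (h : Ag G σ z T ω ω') {u : V} (hu : G.t u ≤ T) (c : Bool) : memc G σ m ω z u c = memc G σ m ω' z u c := by
  classical
  funext κ
  unfold Pool.Agent.W_a4f561_h26.memc
  rw [h.mem_imp inv m hu]

theorem Ag.nw (inv : Inv G σ) {z : V} {T : ℕ} {ω ω' : V × Bool → Bool}
    (h : Ag G σ z T ω ω') {u : V} (hu : G.t u ≤ T) : nw G σ ω z u ↔ nw G σ ω' z u := by
  unfold Pool.Agent.W_a4f561_h26.nw
  constructor
  · intro h1 v h2 h3
    exact h1 v ((h.dst inv (by omega)).2 h2) h3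
  · intro h1 v h2 h3
    exact h1 v ((h.dst inv (by omega)).1 h2) h3

section pr

variable [Fintype V] [DecidableEq V]

theorem Ag.prb (inv : Inv G σ) (m : V × Bool → Option Bool) {z : V} {T : ℕ} {ω ω' : V × Bool → Bool}
    (h : Ag G σ z T ω ω') {u : V} (hu : G.t u ≤ T) (w : V) : prb G σ m ω z u w = prb G σ m ω' z u w := by
  unfold Pool.Agent.W_a4f561_h26.prb
  rw [h.memc inv m hu]

theorem Ag.pra (inv : Inv G σ) (m : V × Bool → Option Bool) {z : V} {T : ℕ} {ω ω' : V × Bool → Bool}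
    (h : Ag G σ z T ω ω') {u : V} (hu : G.t u ≤ T) (w : V) : pra G σ m ω z u w = pra G σ m ω' z u w := by
  unfold Pool.Agent.W_a4f561_h26.pra
  rw [h.memc inv m hu, h.mem_imp inv m hu]

/-- Harm depends only on the coins asked up to `u`. -/
theorem Ag.hrm (inv : Inv G σ) (m : V × Bool → Option Bool) {z : V} {T : ℕ} {ω ω' : V × Bool → Bool}
    (h : Ag G σ z T ω ω') {u : V} (hu : G.t u < T) (δ : ℝ) (w : V) : hrm G σ m ω z δ w u ↔ hrm G σ m ω' z δ w u := by
  unfold Pool.Agent.W_a4f561_h26.hrm obB obS obA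
  rw [h.dst inv hu, h.nw inv hu.le, h.prb inv m hu.le, h.pra inv m hu.le]

end pr

/-! ### memory -/

/-- `ω` extends the partial assignment `m`. -/
def Ext (m : V × Bool → Option Bool) (ω : V × Bool → Bool) : Prop := ∀ κ b, m κ = some b → ω κ = b

theorem mem_some_asked {m : V × Bool → Option Bool} {ω : V × Bool → Bool} {z u v : V} (h1 : OnB G σ ω z v)
    (h2 : G.t v < G.t u) (h3 : ask G σ v) : mem G σ m ω z u (G.coin v) = some (ω (G.coin v)) := by
  classical
  unfold mem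
  rw [if_pos ⟨v, h1, h2, h3, rfl⟩]

theorem mem_cases (m : V × Bool → Option Bool) (ω : V × Bool → Bool) (z u : V) (κ : V × Bool) :
    (∃ v, OnB G σ ω z v ∧ G.t v < G.t u ∧ ask G σ v ∧ G.coin v = κ ∧ mem G σ m ω z u κ = some (ω κ)) ∨
    ((¬ ∃ v, OnB G σ ω z v ∧ G.t v < G.t u ∧ ask G σ v ∧ G.coin v = κ) ∧ mem G σ m ω z u κ = m κ) := by
  classical
  by_cases h : ∃ v, OnB G σ ω z v ∧ G.t v < G.t u ∧ ask G σ v ∧ G.coin v = κ
  · obtain ⟨v, h1, h2, h3, h4⟩ := h
    left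
    refine ⟨v, h1, h2, h3, h4, ?_⟩
    rw [← h4]
    exact mem_some_asked h1 h2 h3
  · right
    refine ⟨h, ?_⟩
    unfold mem
    rw [if_neg h]

/-- The memory is true. -/
theorem ext_mem {m : V × Bool → Option Bool} {ω : V × Bool → Bool} (hm : Ext m ω) (z u : V) :
    Ext (mem G σ m ω z u) ω := by
  intro κ b h
  rcases mem_cases (G := G) (σ := σ) m ω z u κ with ⟨_, _, _, _, _, h1⟩ | ⟨_, h1⟩
  · rw [h1] at h
    exact Option.some.inj h
  · rw [h1] at h
    exact hm κ b h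

/-- The memory knows the initial memory. -/
theorem mem_of_m {m : V × Bool → Option Bool} {ω : V × Bool → Bool} (hm : Ext m ω) (z u : V) {κ : V × Bool} {b : Bool}
    (h : m κ = some b) : mem G σ m ω z u κ = some b := by
  rcases mem_cases (G := G) (σ := σ) m ω z u κ with ⟨_, _, _, _, _, h1⟩ | ⟨_, h1⟩
  · rw [h1, hm κ b h]
  · rw [h1, h]

/-- An outcome which extends the memory at `u` agrees before `u`. -/
theorem ag_of_ext {m : V × Bool → Option Bool} {ω ω' : V × Bool → Bool} {z u : V}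
    (h : Ext (mem G σ m ω z u) ω') : Ag G σ z (G.t u) ω ω' := by
  intro v h1 h2 h3
  exact (h _ _ (mem_some_asked h1 h2 h3)).symm

end Pool.Agent.W_a4f561_E73
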