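import Pool.Agent.W_a4f561_h26.Drw
import Pool.Agent.W_a4f561_h26.Trk
import Pool.Agent.W_a4f561_E.Cnt28

/-!
MP_a4f561_co (EpsPages): the own cost of a path (helper28).
-/

set_option autoImplicit false

namespace Pool.Agent.W_a4f561_E.Own28

open Pool.Agent.W_a4f561_h26

section Pure

variable {V : Type} {G : Bars V} {σ σ1 σk : St V} {ω : V × Bool → Bool} {z : V}

theorem inn_of (hI : Inv G σ) {v : V} (hv : v ∉ σ.S) : G.inn v :=
  ⟨fun e => hv (e ▸ hI.bot_mem), fun e => hv (e ▸ hI.top_mem)⟩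

theorem lam_mem {v : V} (hv : v ∈ σ.S ∪ σ.Dec) : lam G σ ω v = σ.pi v := by
  unfold lam
  rw [if_pos hv]

theorem lam_cl (hI : Inv G σ) {v : V} (hv : v ∈ σ.S) : lam G σ ω v ∈ σ.S := by
  rw [lam_mem (Or.inl hv)]
  exact hI.cl v hv

theorem iter_cl {f : V → V} {S : Set V} (h : ∀ v ∈ S, f v ∈ S) {u : V} (hu : u ∈ S) (k : ℕ) :
    f^[k] u ∈ S := by
  induction k with
  | zero => exact hu
  | succ k ih => rw [Function.iterate_succ_apply']; exact h _ ih

theorem orb_cl {f : V → V} {S : Set V} (h : ∀ v ∈ S, f v ∈ S) {u v : V} (hu : u ∈ S) (ho : Orb f u v) :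
    v ∈ S := by
  obtain ⟨k, rfl⟩ := ho
  exact iter_cl h hu k

/-- If two functions agree on the orbit of `z`, orbits from points of this orbit are the same. -/
theorem orb_tr {f g : V → V} {z a b : V} (h : ∀ v, Orb f z v → g v = f v) (ha : Orb f z a) (hb : Orb f a b) :
    Orb g a b := by
  obtain ⟨k, rfl⟩ := hb
  refine ⟨k, ?_⟩
  induction k with
  | zero => rfl
  | succ k ih =>
    rw [Function.iterate_succ_apply', Function.iterate_succ_apply', ih]
    exact h _ (orb_trans ha ⟨k, rfl⟩)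

/-- The rest of an orbit. -/
theorem orb_tail {f : V → V} {u v : V} (h : Orb f u v) (hne : v ≠ u) : Orb f (f u) v := by
  obtain ⟨k, rfl⟩ := h
  cases k with
  | zero => exact absurd rfl hne
  | succ k => exact ⟨k, by rw [← Function.iterate_succ_apply]⟩

/-- A final choice function is the random forest on the route of `z`. -/
theorem agree (hd : Dr G σ ω z σ1) (hle : Le σ1 σk) {π : V → V} (hπ : Fin' G σk π) :
    ∀ v, Orb (lam G σ ω) z v → π v = lam G σ ω v := by
  intro v hv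
  by_cases hS : v ∈ σ.S
  · have h1 : v ∈ σ1.S := hd.le.S hS
    rw [hπ.2 v (Or.inl (hle.S h1)), hle.pi v (Or.inl h1), hd.le.pi v (Or.inl hS), lam_mem (Or.inl hS)]
  · have hB : OnB G σ ω z v := ⟨hv, hS⟩
    have h1 : v ∈ σ1.S := by
      rw [hd.S]
      exact Or.inr hB
    rw [hπ.2 v (Or.inl (hle.S h1)), hle.pi v (Or.inl h1), hd.pi v hB]

theorem fin_S (hd : Dr G σ ω z σ1) (hle : Le σ1 σk) {π : V → V} (hπ : Fin' G σk π) {v : V} (hv : v ∈ σ.S) :
    π v = σ.pi v := by
  have h1 : v ∈ σ1.S := hd.le.S hv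
  rw [hπ.2 v (Or.inl (hle.S h1)), hle.pi v (Or.inl h1), hd.le.pi v (Or.inl hv)]

/-- A time which is not inside of a block crosses a multiple of `B`. -/
theorem cross {B i j : ℕ} (hB : 1 ≤ B) (h : ¬ blk B i j) : ∃ c, i < c * B ∧ c * B < j := by
  refine ⟨i / B + 1, ?_, ?_⟩
  · have h1 := Nat.div_add_mod i B
    have h2 := Nat.mod_lt i hB
    have h3 : (i / B + 1) * B = B * (i / B) + B := by ring
    omega
  · by_contra hj
    push Not at hj
    exact h ⟨i / B, Nat.div_mul_le_self i B, hj⟩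

end Pure

variable {V : Type} [Fintype V] [DecidableEq V] {G : Bars V}
  {σ σ1 σk : St V} {m0 : V × Bool → Option Bool} {ω : V × Bool → Bool} {z : V} {K Tm T : ℕ} {E : Set V}

theorem zB (h : Ctx G σ m0 ω z K Tm E) : OnB G σ ω z z := ⟨orb_refl _ _, h.zS⟩

theorem ch' (h : Ctx G σ m0 ω z K Tm E) : Ch G (lam G σ ω) := ch_lam h.inv ω

theorem onB_lt (h : Ctx G σ m0 ω z K Tm E) {w : V} (hw : OnB G σ ω z w) : G.t w < Tm := by
  obtain ⟨e, heE, heS, heo, hmin⟩ := h.suc
  have hc := ch' h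
  by_contra hlt
  have h1 : G.t e ≤ G.t w := le_trans (h.tE e heE) (not_lt.1 hlt)
  have h2 := orb_comp hc heo hw.1 h1
  exact hw.2 (orb_cl (fun v hv => lam_cl h.inv hv) heS h2)

theorem onB_inn (h : Ctx G σ m0 ω z K Tm E) {w : V} (hw : OnB G σ ω z w) : G.inn w := inn_of h.inv hw.2

theorem t_lt_N (h : Ctx G σ m0 ω z K Tm E) {w : V} (hw : OnB G σ ω z w) : G.t w < G.N :=
  G.t_in w (onB_inn h hw).1 (onB_inn h hw).2

/-- The last vertex of the path. -/
theorem last_ex (h : Ctx G σ m0 ω z K Tm E) : ∃ ul, OnB G σ ω z ul ∧ ∀ v, OnB G σ ω z v → G.t v ≤ G.t ul := by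
  classical
  let W : Finset V := (Set.toFinite {v : V | OnB G σ ω z v}).toFinset
  have hW : ∀ v, v ∈ W ↔ OnB G σ ω z v := by
    intro v
    simp [W]
  obtain ⟨u, hu, hmax⟩ := Finset.exists_max_image W G.t ⟨z, (hW z).2 (zB h)⟩
  exact ⟨u, (hW u).1 hu, fun v hv => hmax v ((hW v).2 hv)⟩

/-- The order on the path. -/
theorem orb_B (h : Ctx G σ m0 ω z K Tm E) {v u : V} (hv : OnB G σ ω z v) (hu : OnB G σ ω z u)
    (ht : G.t v ≤ G.t u) : Orb (lam G σ ω) v u := orb_comp (ch' h) hv.1 hu.1 ht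

/-- The next vertex comes before the later ones. -/
theorem t_next (h : Ctx G σ m0 ω z K Tm E) {v u : V} (hv : OnB G σ ω z v) (hu : OnB G σ ω z u)
    (ht : G.t v < G.t u) : Orb (lam G σ ω) (lam G σ ω v) u ∧ G.t (lam G σ ω v) ≤ G.t u := by
  have h1 := orb_tail (orb_B h hv hu (le_of_lt ht)) (fun e => absurd (e ▸ ht) (lt_irrefl _))
  exact ⟨h1, orb_t (ch' h) h1⟩

/-- A D-step is followed by a vertex of the path. -/
theorem lo_B {v : V} (hv : Dst G σ ω z v) : OnB G σ ω z (G.lo v) := by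
  refine ⟨?_, hv.2.2⟩
  have := orb_step hv.1.1
  rw [hv.2.1] at this
  exact this

/-- The host on a D-step. -/
theorem host_D (h : Ctx G σ m0 ω z K Tm E) {v : V} (hv : Dst G σ ω z v) {τ : ℕ} (h1 : G.t v < τ)
    (h2 : τ ≤ G.t (G.lo v)) : host G (lam G σ ω) z τ = G.lo v := by
  have hN := t_lt_N h (lo_B hv)
  have := host_btw (ch' h) hv.1.1 h1 (by rw [hv.2.1]; exact h2) (by omega)
  rw [hv.2.1] at this
  exact this

theorem bz_le (h : Ctx G σ m0 ω z K Tm E) {v : V} (hv : OnB G σ ω z v) : G.b z ≤ G.t v :=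
  le_trans (G.bt z) (orb_t (ch' h) hv.1)

/-- The first long head of a D-step is a touch. -/
theorem tch_D (h : Ctx G σ m0 ω z K Tm E) {v : V} (hv : Dst G σ ω z v) :
    Tch G σ ω z (G.flh v) (G.tau1 v) := by
  have hx := lo_B hv
  obtain ⟨s1, s2, s3, s4, s5, s6⟩ := tau1_spec G (onB_inn h hv.1) (onB_inn h hx)
  have hN := t_lt_N h hx
  have hh := host_D h hv s1 s2
  have hb := bz_le h hv.1
  refine ⟨by omega, by omega, ?_, ?_, ?_⟩
  · rw [hh]; exact hv.2.2
  · rw [hh]; rfl
  · rw [hh]; exact s3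

/-- A head `h ≠ flh` seen after `tau1 v` has merged with the path before the next D-step with the same barrier. -/
theorem close_pair (h : Ctx G σ m0 ω z K Tm E) (hd : Dr G σ ω z σ1) (hle : Le σ1 σk) (hk : Inv G σk)
    {π : V → V} (hπ : Fin' G σk π) {v1 v2 : V} (hv1 : Dst G σ ω z v1) (hv2 : Dst G σ ω z v2)
    (ht : G.t v1 < G.t v2) (hy : G.flh v1 = G.flh v2) (hfr : G.flh v1 ∉ σ.S \ σ.Lat ∨ fb G σ v1) {τ : ℕ}
    (h1 : G.tau1 v1 ≤ τ) (h2 : τ ≤ G.t (G.lo v1)) (hne : G.ub (G.lo v1) τ ≠ G.flh v1) :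
    Orb π (G.ub (G.lo v1) τ) (G.lo v2) := by
  have hx1 := lo_B hv1
  have hx2 := lo_B hv2
  have i1 := onB_inn h hx1
  have i2 := onB_inn h hx2
  obtain ⟨s1, s2, s3, s4, s5, s6⟩ := tau1_spec G (onB_inn h hv1.1) i1
  obtain ⟨r1, r2, r3, r4, r5, r6⟩ := tau1_spec G (onB_inn h hv2.1) i2
  have hN1 := t_lt_N h hx1
  have hN2 := t_lt_N h hx2
  have hn := (t_next h hv1.1 hv2.1 ht).2
  rw [hv1.2.1] at hn
  have hb1 := bz_le h hv1.1
  have hag := agree hd hle hπ
  have hhost : ∀ s, host G π z s = host G (lam G σ ω) z s := fun s => host_congr hag s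
  have e1 : host G (lam G σ ω) z τ = G.lo v1 := host_D h hv1 (by omega) h2
  have e2 : host G (lam G σ ω) z (G.tau1 v2) = G.lo v2 := host_D h hv2 r1 r2
  obtain ⟨R, hR, hRy, hRa, hRc, hRq⟩ : ∃ R ∈ σk.RD, R.y = G.flh v1 ∧ R.a ≤ τ ∧ G.tau1 v2 ≤ R.c ∧
      G.r (host G π R.q τ) ≤ G.r (host G π z τ) := by
    rcases hfr with hfr | hfb
    · obtain ⟨R, hR, hRq, hRy, hRa, hRc⟩ := hd.exD (G.flh v1) hfr (G.tau1 v1) (G.tau1 v2) (by omega)
        (tch_D h hv1) (by rw [hy]; exact tch_D h hv2)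
      exact ⟨R, hle.RD hR, hRy, by omega, hRc, by rw [hRq]⟩
    · obtain ⟨R, hR, hRy, hall⟩ := fb_in h hv1 hfb
      have hRk : R ∈ σk.RD := hle.RD (hd.le.RD hR)
      have a1 := hall τ (by omega) (by omega) (by rw [e1]; exact hv1.2.2)
      have a2 := hall (G.tau1 v2) (by omega) (by omega) (by rw [e2]; exact hv2.2.2)
      refine ⟨R, hRk, hRy, a1.1, a2.2.1, ?_⟩
      have hq := (h.inv.recD R hR).q_mem
      have e3 : host G π R.q τ = host G σ.pi R.q τ := by
        apply host_congr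
        intro v hv
        exact fin_S hd hle hπ (orb_cl h.inv.cl hq hv)
      rw [e3, hhost]
      exact le_of_lt a1.2.2.1
  have hub := ub_spec G (x := G.lo v1) (τ := τ) (by omega) i1.2
  have hlt : G.r (G.ub (G.lo v1) τ) < G.r (G.flh v1) :=
    lt_of_le_of_ne (s6 τ h1 h2) (fun e => hne (G.r_inj e))
  have key := rec_close hk (hk.recD R hR) hπ (u := z) (h := G.ub (G.lo v1) τ) (τ := τ) (τ2 := G.tau1 v2)
    hRa (by omega) hRc (by omega) hRq (by rw [hhost, e2, hRy, hy]; rfl) hub.1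
    (by rw [hhost, e1]; exact hub.2.1) (by rw [hRy]; exact hlt)
  rw [hhost, e2] at key
  rw [← key]
  exact host_orb G π _ _

/-- If the first long head of a D-step meets the path at `u`, so does every long head (squeezing). -/
theorem squeeze (h : Ctx G σ m0 ω z K Tm E) (hd : Dr G σ ω z σ1) (hle : Le σ1 σk)
    {π : V → V} (hπ : Fin' G σk π) {v u : V} (hv : Dst G σ ω z v) (hu : OnB G σ ω z u)
    (hy : Orb π (G.flh v) u) {τ : ℕ} (h1 : G.tau1 v ≤ τ) (h2 : τ ≤ G.t (G.lo v)) :
    Orb π (G.ub (G.lo v) τ) u ∧ G.t (G.lo v) < G.t u := by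
  have hx := lo_B hv
  have i1 := onB_inn h hx
  have iu := onB_inn h hu
  obtain ⟨s1, s2, s3, s4, s5, s6⟩ := tau1_spec G (onB_inn h hv.1) i1
  have hN := t_lt_N h hx
  have hNu := t_lt_N h hu
  have hag := agree hd hle hπ
  have t1 := orb_t hπ.1 hy
  have hxu : G.t (G.lo v) < G.t u := by omega
  have hox : Orb π (G.lo v) u := orb_tr hag hx.1 (orb_B h hx hu (le_of_lt hxu))
  have hub := ub_spec G (x := G.lo v) (τ := τ) (by omega) i1.2
  have a1 := al_lo G (onB_inn h hv.1)
  have k1 := host_t hπ.1 hox iu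
  have k2 := host_t hπ.1 hy iu
  have m1 := order_one hπ.1 (u := G.lo v) (v := G.ub (G.lo v) τ) (τ1 := τ) (τ2 := G.t u)
    (le_trans a1.1.1 (by omega)) hub.1.1 (by omega) (by omega)
    (by rw [host_self hπ.1 h2, host_self hπ.1 hub.1.2]; exact le_of_lt hub.2.1)
  have m2 := order_one hπ.1 (u := G.ub (G.lo v) τ) (v := G.flh v) (τ1 := τ) (τ2 := G.t u)
    hub.1.1 (le_trans s4.1 h1) (by omega) (by omega)
    (by rw [host_self hπ.1 hub.1.2, host_self hπ.1 (by omega)]; exact s6 τ h1 h2)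
  rw [k1] at m1
  rw [k2] at m2
  have e : host G π (G.ub (G.lo v) τ) (G.t u) = u := G.r_inj (le_antisymm m2 m1)
  refine ⟨?_, hxu⟩
  have := host_orb G π (G.ub (G.lo v) τ) (G.t u)
  rw [e] at this
  exact this

/-- Either there is a deadline or the value is small for ever. -/
theorem dead_or (f : V → ℝ) (δ : ℝ) (v : V) :
    (∃ w, OnB G σ ω z w ∧ G.t v < G.t w ∧ δ ≤ f w ∧
      ∀ w', OnB G σ ω z w' → G.t v < G.t w' → G.t w' < G.t w → f w' < δ) ∨
    (∀ w, OnB G σ ω z w → G.t v < G.t w → f w < δ) := by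
  classical
  by_cases hex : ∃ w, OnB G σ ω z w ∧ G.t v < G.t w ∧ δ ≤ f w
  · left
    let W : Finset V := (Set.toFinite {w : V | OnB G σ ω z w ∧ G.t v < G.t w ∧ δ ≤ f w}).toFinset
    have hW : ∀ w, w ∈ W ↔ OnB G σ ω z w ∧ G.t v < G.t w ∧ δ ≤ f w := by
      intro w
      simp [W]
    obtain ⟨w0, hw0⟩ := hex
    obtain ⟨w, hw, hmin⟩ := Finset.exists_min_image W G.t ⟨w0, (hW w0).2 hw0⟩
    obtain ⟨k1, k2, k3⟩ := (hW w).1 hw
    refine ⟨w, k1, k2, k3, ?_⟩
    intro w' hw' h1 h2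
    by_contra hc
    have := hmin w' ((hW w').2 ⟨hw', h1, not_lt.1 hc⟩)
    omega
  · right
    intro w hw h1
    by_contra hc
    exact hex ⟨w, hw, h1, not_lt.1 hc⟩

/-- The good D-steps: last or harmful for the last vertex, or with an event which is open at `T - 1` or at one of
the times of `J`. -/
theorem good_set (h : Ctx G σ m0 ω z K Tm E) {ul : V} (hul : OnB G σ ω z ul) (T B : ℕ) (J : Finset ℕ) :
    ∃ Gd : Finset V, Gd.card ≤ (K + 1) * (2 + J.card) ∧ ul ∈ Gd ∧
      (∀ v, G.t v < G.t ul → hrm G σ m0 ω z (dl K) ul v → v ∈ Gd) ∧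
      (∀ v w, (dlA G σ m0 ω z (dl K) v w ∨ dlB G σ m0 ω z (dl K) v w) → G.t v < T - 1 → T - 1 < G.t w → v ∈ Gd) ∧
      (∀ j ∈ J, ∀ v w, (dlA G σ m0 ω z (dl K) v w ∨ dlB G σ m0 ω z (dl K) v w) → G.t v < j * B → j * B < G.t w →
        v ∈ Gd) := by
  classical
  let Op : ℕ → Set V := fun τ =>
    {v | ∃ w, (dlA G σ m0 ω z (dl K) v w ∨ dlB G σ m0 ω z (dl K) v w) ∧ G.t v < τ ∧ τ < G.t w}
  let H : Set V := {v | G.t v < G.t ul ∧ hrm G σ m0 ω z (dl K) ul v}
  have hOp : ∀ τ, ((Set.toFinite (Op τ)).toFinset).card ≤ K + 1 := by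
    intro τ
    rw [← Set.ncard_eq_toFinset_card]
    exact Cnt28.open_card h τ
  have hH : ((Set.toFinite H).toFinset).card ≤ K := by
    rw [← Set.ncard_eq_toFinset_card]
    exact h.nD ul hul
  refine ⟨insert ul (Set.toFinite H).toFinset ∪ ((Set.toFinite (Op (T - 1))).toFinset ∪
    J.biUnion (fun j => (Set.toFinite (Op (j * B))).toFinset)), ?_, ?_, ?_, ?_, ?_⟩
  · have c1 := Finset.card_union_le (insert ul (Set.toFinite H).toFinset) ((Set.toFinite (Op (T - 1))).toFinset ∪
      J.biUnion (fun j => (Set.toFinite (Op (j * B))).toFinset))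
    have c2 := Finset.card_union_le ((Set.toFinite (Op (T - 1))).toFinset)
      (J.biUnion (fun j => (Set.toFinite (Op (j * B))).toFinset))
    have c3 := Finset.card_biUnion_le_card_mul J (fun j => (Set.toFinite (Op (j * B))).toFinset) (K + 1)
      (fun j _ => hOp (j * B))
    have c4 := Finset.card_insert_le ul (Set.toFinite H).toFinset
    have c5 := hOp (T - 1)
    have c6 : (K + 1) * (2 + J.card) = 2 * (K + 1) + J.card * (K + 1) := by ring
    omega
  · exact Finset.mem_union_left _ (Finset.mem_insert_self _ _)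
  · intro v h1 h2
    refine Finset.mem_union_left _ (Finset.mem_insert_of_mem ?_)
    rw [Set.Finite.mem_toFinset]
    exact ⟨h1, h2⟩
  · intro v w h1 h2 h3
    refine Finset.mem_union_right _ (Finset.mem_union_left _ ?_)
    rw [Set.Finite.mem_toFinset]
    exact ⟨w, h1, h2, h3⟩
  · intro j hj v w h1 h2 h3
    refine Finset.mem_union_right _ (Finset.mem_union_right _ ?_)
    rw [Finset.mem_biUnion]
    refine ⟨j, hj, ?_⟩
    rw [Set.Finite.mem_toFinset]
    exact ⟨w, h1, h2, h3⟩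

/-- OWN COST of the path, if all events inside blocks of length `B` are satisfied. -/
theorem own_bound (h : Ctx G σ m0 ω z K Tm E) (hd : Dr G σ ω z σ1) (hle : Le σ1 σk) (hk : Inv G σk)
    {m : ℕ} (hm : Set.ncard {c | m0 c ≠ none} ≤ m) {tl B Λ : ℕ} (htl : tl < G.t z) (hB : 1 ≤ B)
    (hblk : blk (Λ * B) tl Tm)
    (hA : ∀ v w, dlA G σ m0 ω z (dl K) v w → blk B (G.t v) (G.t w) → SatA G σ ω z σk v w)
    (hBt : ∀ v w, dlB G σ m0 ω z (dl K) v w → blk B (G.t v) (G.t w) → SatB G σ ω z σk v w) :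
    ∀ π, Fin' G σk π → CB G π {v | OnB G σ ω z v} (own K m Λ) := by
  classical
  intro π hπ p T P hT hP hi1 hi2
  obtain ⟨ul, hul, hmax⟩ := last_ex h
  obtain ⟨c0, hc1, hc2⟩ := hblk
  have hzT := onB_lt h (zB h)
  have hΛ : 1 ≤ Λ := by
    rcases Nat.eq_zero_or_pos Λ with e | e
    · subst e
      simp at hc2
      omega
    · exact e
  obtain ⟨Gd, hGd, g1, g2, g3, g4⟩ := good_set h hul T B (Finset.Ioo (c0 * Λ) ((c0 + 1) * Λ))
  have hJ : (Finset.Ioo (c0 * Λ) ((c0 + 1) * Λ)).card = Λ - 1 := by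
    rw [Nat.card_Ioo]
    have : (c0 + 1) * Λ = c0 * Λ + Λ := by ring
    omega
  have hGd' : Gd.card ≤ (K + 1) * (Λ + 1) := by
    rw [hJ] at hGd
    have e : 2 + (Λ - 1) = Λ + 1 := by omega
    rw [e] at hGd
    exact hGd
  have hag := agree hd hle hπ
  -- crossing events are good
  have cr : ∀ v w, OnB G σ ω z v → OnB G σ ω z w →
      (dlA G σ m0 ω z (dl K) v w ∨ dlB G σ m0 ω z (dl K) v w) → ¬ blk B (G.t v) (G.t w) → v ∈ Gd := by
    intro v w hv hw he hb
    obtain ⟨j, hj1, hj2⟩ := cross hB hb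
    have hzv := orb_t (ch' h) hv.1
    have hwT := onB_lt h hw
    refine g4 j ?_ v w he hj1 hj2
    rw [Finset.mem_Ioo]
    constructor
    · have : c0 * Λ * B < j * B := by
        have e : c0 * Λ * B = c0 * (Λ * B) := by ring
        omega
      exact lt_of_mul_lt_mul_right this (Nat.zero_le _)
    · have : j * B < (c0 + 1) * Λ * B := by
        have e : (c0 + 1) * Λ * B = (c0 + 1) * (Λ * B) := by ring
        omega
      exact lt_of_mul_lt_mul_right this (Nat.zero_le _)
  have gB : ∀ v, obB G σ ω z v → v ∈ Gd ∨ ∃ w, dlB G σ m0 ω z (dl K) v w ∧ blk B (G.t v) (G.t w) := by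
    intro v hob
    have hvB := hob.1.1
    by_cases hvul : v = ul
    · left; rw [hvul]; exact g1
    have hvlt : G.t v < G.t ul := lt_of_le_of_ne (hmax v hvB) (fun e => hvul (G.t_inj e))
    rcases dead_or (G := G) (σ := σ) (ω := ω) (z := z) (prb G σ m0 ω z v) (dl K) v with
      ⟨w, hw1, hw2, hw3, hw4⟩ | hall
    · have hdl : dlB G σ m0 ω z (dl K) v w := ⟨hob, hw1, hw2, hw3, hw4⟩
      by_cases hb : blk B (G.t v) (G.t w)
      · exact Or.inr ⟨w, hdl, hb⟩
      · exact Or.inl (cr v w hvB hw1 (Or.inr hdl) hb)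
    · exact Or.inl (g2 v hvlt (Or.inl ⟨hob, hall ul hul hvlt⟩))
  have gA : ∀ v, obA G σ m0 ω z v → v ∈ Gd ∨ ∃ w, dlA G σ m0 ω z (dl K) v w ∧ blk B (G.t v) (G.t w) := by
    intro v hob
    have hvB := hob.1.1
    by_cases hvul : v = ul
    · left; rw [hvul]; exact g1
    have hvlt : G.t v < G.t ul := lt_of_le_of_ne (hmax v hvB) (fun e => hvul (G.t_inj e))
    rcases dead_or (G := G) (σ := σ) (ω := ω) (z := z) (pra G σ m0 ω z v) (dl K) v with
      ⟨w, hw1, hw2, hw3, hw4⟩ | hall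
    · have hdl : dlA G σ m0 ω z (dl K) v w := ⟨hob, hw1, hw2, hw3, hw4⟩
      by_cases hb : blk B (G.t v) (G.t w)
      · exact Or.inr ⟨w, hdl, hb⟩
      · exact Or.inl (cr v w hvB hw1 (Or.inl hdl) hb)
    · exact Or.inl (g2 v hvlt (Or.inr (Or.inr ⟨hob, hall ul hul hvlt⟩)))
  -- the barriers
  let YF : Finset V := (Set.toFinite {y : V | ∃ v, Dst G σ ω z v ∧ fb G σ v ∧ G.flh v = y}).toFinset
  let YM : Finset V := (Set.toFinite {y : V | m0 (G.blw y) ≠ none}).toFinset
  have hYF : YF.card ≤ 1 := by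
    rw [Finset.card_le_one]
    intro a ha b hb
    rw [Set.Finite.mem_toFinset] at ha hb
    obtain ⟨v, hv1, hv2, rfl⟩ := ha
    obtain ⟨v', hv1', hv2', rfl⟩ := hb
    exact fb_one h hv1 hv2 hv1' hv2'
  have hYM : YM.card ≤ m := by
    rw [← Set.ncard_eq_toFinset_card]
    refine le_trans (Set.ncard_le_ncard_of_injOn G.blw ?_ ?_ (Set.toFinite _)) hm
    · intro y hy
      exact hy
    · intro y _ y' _ e
      exact congrArg Prod.fst e
  let Y : Finset V := YF ∪ (YM ∪ Gd.image G.flh)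
  have hY : Y.card ≤ 1 + m + (K + 1) * (Λ + 1) := by
    have d1 := Finset.card_union_le YF (YM ∪ Gd.image G.flh)
    have d2 := Finset.card_union_le YM (Gd.image G.flh)
    have d3 : (Gd.image G.flh).card ≤ Gd.card := Finset.card_image_le
    show (YF ∪ (YM ∪ Gd.image G.flh)).card ≤ _
    omega
  haveI : Nonempty V := ⟨z⟩
  choose! vv hv using hP
  have hinj : ∀ q ∈ P, ∀ q' ∈ P, vv q = vv q' → q = q' := by
    intro q hq q' hq' e
    refine hi1 q hq q' hq' ?_
    rw [(hv q hq).2.2.2.2.1, (hv q' hq').2.2.2.2.1, e]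
  have fact : ∀ q ∈ P, vv q ∉ Gd → Dst G σ ω z (vv q) ∧
      (∃ τ, G.tau1 (vv q) ≤ τ ∧ τ ≤ G.t (G.lo (vv q)) ∧ q.2 = G.ub (G.lo (vv q)) τ) ∧
      (G.flh (vv q) ∉ σ.S \ σ.Lat ∨ fb G σ (vv q)) ∧ G.flh (vv q) ∈ Y := by
    intro q hq hnG
    obtain ⟨ho, hvB, hinn, hpi, hq1, hqT, ⟨τ, hτ1, hτ2, hq2⟩, hun⟩ := hv q hq
    set v := vv q with hvdef
    have hvB' : OnB G σ ω z v := hvB
    rw [hq1] at hqT hτ2 hq2
    have hlam : lam G σ ω v = G.lo v := by rw [← hag v hvB'.1]; exact hpi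
    have hvul : v ≠ ul := fun e => hnG (by rw [e]; exact g1)
    have hvlt : G.t v < G.t ul := lt_of_le_of_ne (hmax v hvB') (fun e => hvul (G.t_inj e))
    have hloS : G.lo v ∉ σ.S := by
      intro hS
      have := (t_next h hvB' hul hvlt).1
      rw [hlam] at this
      exact hul.2 (orb_cl (fun v hv => lam_cl h.inv hv) hS this)
    have hD : Dst G σ ω z v := ⟨hvB', hlam, hloS⟩
    have hxB := lo_B hD
    have hxi := onB_inn h hxB
    have hxN := t_lt_N h hxB
    have hub := ub_spec G (x := G.lo v) (τ := τ) (by omega) hxi.2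
    -- a vertex of the path on the route of `q.2` is late
    have late : ∀ u, OnB G σ ω z u → G.t v ≤ G.t u → Orb π q.2 u → T ≤ G.t u := by
      intro u hu htu huo
      exact hun u (orb_trans ho (orb_tr hag hvB'.1 (orb_B h hvB' hu htu))) huo
    have htv := t_lo G hinn
    by_cases hτt : τ < G.tau1 v
    · exfalso
      rcases zz_cases G hinn with ⟨_, _, hz3⟩ | ⟨hz1, _, hz3⟩
      · have : G.tau1 v ≤ G.t v + 1 := by
          apply Nat.sInf_le
          refine ⟨Nat.lt_succ_self _, ?_⟩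
          rw [ub_lo G hinn]
          exact hz3
        omega
      · have hob : obB G σ ω z v := by
          refine ⟨hD, ⟨hvB'.2, ?_, ?_⟩, hz1⟩
          · intro hDec
            have := inv_hD h.inv v hDec hvB'.2 (by rw [← hlam]; exact (lam_mem (Or.inr hDec)).symm) hloS
            omega
          · rw [hz1]
            intro hc
            exact hloS hc.1
        rcases gB v hob with hG | ⟨w, hw, hb⟩
        · exact hnG hG
        · obtain ⟨u, huB, huw, huo⟩ := hBt v w hw hb π hπ τ hτ1 hτt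
          have k1 := orb_t hπ.1 huo
          have k2 := hub.1.2
          have k3 := late u huB (by omega) (by rw [hq2]; exact huo)
          exact hnG (g3 v w (Or.inr hw) (by omega) (by omega))
    · have hτ3 := not_lt.1 hτt
      have hfr : G.flh v ∉ σ.S \ σ.Lat ∨ fb G σ v := by
        by_contra hcon
        push Not at hcon
        exact hnG (g2 v hvlt (Or.inr (Or.inl ⟨hD, hcon.1, hcon.2⟩)))
      refine ⟨hD, ⟨τ, hτ3, hτ2, hq2⟩, hfr, ?_⟩
      by_cases hfb : fb G σ v
      · refine Finset.mem_union_left _ ?_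
        rw [Set.Finite.mem_toFinset]
        exact ⟨v, hD, hfb, rfl⟩
      · have hfr' := hfr.resolve_right hfb
        let W : Finset V := (Set.toFinite {v' : V | Dst G σ ω z v' ∧ G.flh v' = G.flh v}).toFinset
        have hW : ∀ v', v' ∈ W ↔ Dst G σ ω z v' ∧ G.flh v' = G.flh v := by
          intro v'
          simp [W]
        obtain ⟨v0, hv0, hmin⟩ := Finset.exists_min_image W G.t ⟨v, (hW v).2 ⟨hD, rfl⟩⟩
        obtain ⟨hD0, hf0⟩ := (hW v0).1 hv0
        have h0v := hmin v ((hW v).2 ⟨hD, rfl⟩)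
        by_cases hm0 : m0 (G.blw (G.flh v)) = none
        · by_cases hfb0 : fb G σ v0
          · refine Finset.mem_union_left _ ?_
            rw [Set.Finite.mem_toFinset]
            exact ⟨v0, hD0, hfb0, hf0⟩
          · have hob : obA G σ m0 ω z v0 := by
              refine ⟨hD0, by rw [hf0]; exact hfr', ?_, by rw [hf0]; exact hm0, hfb0⟩
              intro v' hv' hlt' he
              have := hmin v' ((hW v').2 ⟨hv', by rw [he, hf0]⟩)
              omega
            refine Finset.mem_union_right _ (Finset.mem_union_right _ ?_)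
            rw [Finset.mem_image]
            refine ⟨v0, ?_, hf0⟩
            rcases gA v0 hob with hG | ⟨w, hw, hb⟩
            · exact hG
            · obtain ⟨hyS, u, huB, huw, huo⟩ := hA v0 w hw hb
              have hyo : Orb π (G.flh v) u := by
                rw [← hf0]
                refine orb_tr (f := σk.pi) ?_ (orb_refl _ _) huo
                intro v' hv'
                exact hπ.2 v' (Or.inl (orb_cl hk.cl hyS hv'))
              obtain ⟨k1, k2⟩ := squeeze h hd hle hπ hD huB hyo hτ3 hτ2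
              have k3 := late u huB (by omega) (by rw [hq2]; exact k1)
              exact g3 v0 w (Or.inl hw) (by omega) (by omega)
        · refine Finset.mem_union_right _ (Finset.mem_union_left _ ?_)
          rw [Set.Finite.mem_toFinset]
          exact hm0
  have hP1 : (P.filter (fun q => vv q ∈ Gd)).card ≤ Gd.card := by
    apply Finset.card_le_card_of_injOn vv
    · intro q hq
      exact (Finset.mem_filter.1 (Finset.mem_coe.1 hq)).2
    · intro q hq q' hq' e
      exact hinj q (Finset.mem_filter.1 (Finset.mem_coe.1 hq)).1 q' (Finset.mem_filter.1 (Finset.mem_coe.1 hq')).1 e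
  have hP2 : (P.filter (fun q => ¬ vv q ∈ Gd)).card ≤ 2 * Y.card := by
    apply Finset.card_le_mul_card_image_of_maps_to (f := fun q => G.flh (vv q))
    · intro q hq
      obtain ⟨hqP, hqG⟩ := Finset.mem_filter.1 hq
      exact (fact q hqP hqG).2.2.2
    · intro y _
      set F := (P.filter (fun q => ¬ vv q ∈ Gd)).filter (fun q => G.flh (vv q) = y) with hF
      have hmem : ∀ q ∈ F, q ∈ P ∧ vv q ∉ Gd ∧ G.flh (vv q) = y := by
        intro q hq
        obtain ⟨a1, a2⟩ := Finset.mem_filter.1 hq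
        obtain ⟨a3, a4⟩ := Finset.mem_filter.1 a1
        exact ⟨a3, a4, a2⟩
      by_cases hne : F.Nonempty
      · obtain ⟨qm, hqm, hqmax⟩ := Finset.exists_max_image F (fun q => G.t (vv q)) hne
        have hsub : F ⊆ insert qm (F.filter (fun q => q.2 = y)) := by
          intro q hq
          by_cases hqq : q = qm
          · rw [hqq]; exact Finset.mem_insert_self _ _
          · refine Finset.mem_insert_of_mem (Finset.mem_filter.2 ⟨hq, ?_⟩)
            obtain ⟨b1, b2, b3⟩ := hmem q hq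
            obtain ⟨b1', b2', b3'⟩ := hmem qm hqm
            have hne' : vv q ≠ vv qm := fun e => hqq (hinj q b1 qm b1' e)
            have hlt : G.t (vv q) < G.t (vv qm) :=
              lt_of_le_of_ne (hqmax q hq) (fun e => hne' (G.t_inj e))
            obtain ⟨f1, ⟨τ, f2, f3, f4⟩, f5, _⟩ := fact q b1 b2
            obtain ⟨f1', _, _, _⟩ := fact qm b1' b2'
            by_contra hcon
            have hcp := close_pair h hd hle hk hπ f1 f1' hlt (by rw [b3, b3']) f5 f2 f3
              (by rw [← f4, b3]; exact hcon)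
            rw [← f4] at hcp
            obtain ⟨ho, hvB, hinn, hpi, hq1, hqT, _, _⟩ := hv qm b1'
            obtain ⟨_, _, _, _, _, _, _, hun⟩ := hv q b1
            have hlo : Orb π p (G.lo (vv qm)) := by
              have := orb_step ho
              rw [hpi] at this
              exact this
            have := hun _ hlo hcp
            rw [hq1] at hqT
            omega
        refine le_trans (Finset.card_le_card hsub) (le_trans (Finset.card_insert_le _ _) ?_)
        have : (F.filter (fun q => q.2 = y)).card ≤ 1 := by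
          rw [Finset.card_le_one]
          intro a ha b hb
          obtain ⟨a1, a2⟩ := Finset.mem_filter.1 ha
          obtain ⟨b1, b2⟩ := Finset.mem_filter.1 hb
          exact hi2 a (hmem a a1).1 b (hmem b b1).1 (by rw [a2, b2])
        omega
      · rw [Finset.not_nonempty_iff_eq_empty] at hne
        rw [hne]
        simp
  have hsplit : P.card = (P.filter (fun q => vv q ∈ Gd)).card + (P.filter (fun q => ¬ vv q ∈ Gd)).card :=
    (Finset.card_filter_add_card_filter_not _).symm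
  unfold own
  have e : 3 * ((K + 1) * (Λ + 1)) = (K + 1) * (Λ + 1) + 2 * ((K + 1) * (Λ + 1)) := by ring
  omega

end Pool.Agent.W_a4f561_E.Own28
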