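import Pool.Agent.W_a4f561_h26.Bas

/-!
MP_a4f561_co (EpsPages): records (pockets), the lemmas P2, P4, P5, P6 (helper33).
-/

set_option autoImplicit false

namespace Pool.Agent.W_a4f561_R33

open Pool.Agent.W_a4f561_h26

variable {V : Type} {G : Bars V}

theorem orb_mem {π : V → V} {S : Set V} (hS : ∀ v ∈ S, π v ∈ S) {u w : V} (hu : u ∈ S)
    (h : Orb π u w) : w ∈ S := by
  obtain ⟨k, rfl⟩ := h
  induction k with
  | zero => exact hu
  | succ k ih =>
    rw [Function.iterate_succ_apply']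
    exact hS _ ih

theorem host_mem {π : V → V} {S : Set V} (hS : ∀ v ∈ S, π v ∈ S) {u : V} (hu : u ∈ S) (τ : ℕ) :
    host G π u τ ∈ S := orb_mem hS hu (host_orb G π u τ)

/-- Once in a closed set, for ever in it. -/
theorem host_mem_le {π : V → V} (hπ : Ch G π) {S : Set V} (hS : ∀ v ∈ S, π v ∈ S) {u : V}
    {τ τ' : ℕ} (h1 : G.b u ≤ τ) (h : τ ≤ τ') (h2 : τ' ≤ G.N) (hu : host G π u τ ∈ S) :
    host G π u τ' ∈ S := by
  rw [← host_add hπ h1 h h2]
  exact host_mem hS hu τ'

theorem ne_top_of_lt {x y : V} (h : G.r x < G.r y) : x ≠ G.top := by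
  rintro rfl
  by_cases hy : y = G.top
  · rw [hy] at h
    exact lt_irrefl _ h
  · exact lt_asymm h (G.r_top y hy)

theorem ne_bot_of_lt {x y : V} (h : G.r x < G.r y) : y ≠ G.bot := by
  rintro rfl
  by_cases hx : x = G.bot
  · rw [hx] at h
    exact lt_irrefl _ h
  · exact lt_asymm h (G.r_bot x hx)

theorem inn_of_notin {σ : St V} (hI : Inv G σ) {v : V} (hv : v ∉ σ.S) : G.inn v :=
  ⟨fun h => hv (h ▸ hI.bot_mem), fun h => hv (h ▸ hI.top_mem)⟩

section rec

variable {σ : St V} {R : Rec V}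

theorem rec_Q (hI : Inv G σ) (hR : IsRec G σ R) (τ : ℕ) : host G σ.pi R.q τ ∈ σ.S :=
  host_mem hI.cl hR.q_mem τ

theorem rec_al (hI : Inv G σ) (hR : IsRec G σ R) {τ : ℕ} (ha : R.a ≤ τ) (hc : τ ≤ R.c) :
    G.al (host G σ.pi R.q τ) τ := host_al hI.ch (hR.b_le.trans ha) (hc.trans hR.cN)

/-- At a touch nobody is between. -/
theorem touch_no {x y u : V} {τ : ℕ} (hτ : τ ≤ G.N) (hxy : G.ub x τ = y) (hu : G.al u τ)
    (h1 : G.r x < G.r u) : G.r y ≤ G.r u := by
  rw [← hxy]
  exact (ub_spec G hτ (ne_top_of_lt h1)).2.2 u hu h1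

/-- P4, never enter. -/
theorem rec_back (hI : Inv G σ) (hR : IsRec G σ R) {ρ : V → V} (hρ : Ch G ρ) {u : V}
    {τ' τ : ℕ} (hu : G.b u ≤ τ') (ha : R.a ≤ τ') (h : τ' ≤ τ) (hc : τ ≤ R.c)
    (hav : ∀ s, τ' ≤ s → s ≤ τ → host G ρ u s ∉ σ.S)
    (h1 : G.r (host G σ.pi R.q τ) < G.r (host G ρ u τ)) (h2 : G.r (host G ρ u τ) < G.r R.y) :
    G.r (host G σ.pi R.q τ') < G.r (host G ρ u τ') ∧ G.r (host G ρ u τ') < G.r R.y := by
  have hN : τ ≤ G.N := hc.trans hR.cN
  constructor
  · rcases lt_trichotomy (G.r (host G ρ u τ')) (G.r (host G σ.pi R.q τ')) with h3 | h3 | h3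
    · obtain ⟨s, h4, h5, h6⟩ := order hρ hI.ch hu (hR.b_le.trans ha) h hN h3 h1.le
      exact (hav s h4.le h5 (h6 ▸ rec_Q hI hR s)).elim
    · exact (hav τ' le_rfl h (G.r_inj h3 ▸ rec_Q hI hR τ')).elim
    · exact h3
  · obtain ⟨b1, b2, b3⟩ := order_bar hρ hu (hR.y_b.trans ha) h hN (hc.trans hR.y_t.le)
    rcases lt_trichotomy (G.r (host G ρ u τ')) (G.r R.y) with h3 | h3 | h3
    · exact h3
    · have := b3 (G.r_inj h3)
      rw [this] at h2
      exact (lt_irrefl _ h2).elim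
    · exact absurd (b2 h3) (not_le.2 h2)

/-- P4: a route which starts before `R.a` is never inside. -/
theorem rec_start (hI : Inv G σ) (hR : IsRec G σ R) {ρ : V → V} (hρ : Ch G ρ) {u : V}
    {τ : ℕ} (hu : G.b u ≤ τ) (ha : R.a ≤ τ) (hc : τ ≤ R.c)
    (hav : ∀ s, G.b u ≤ s → s ≤ τ → host G ρ u s ∉ σ.S)
    (h1 : G.r (host G σ.pi R.q τ) < G.r (host G ρ u τ)) (h2 : G.r (host G ρ u τ) < G.r R.y) :
    R.a < G.b u ∧ τ < R.c := by
  constructor
  · by_contra hc'
    rw [not_lt] at hc'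
    have h3 := rec_back hI hR hρ (τ' := R.a) hc' le_rfl ha hc
      (fun s h4 h5 => hav s (hc'.trans h4) h5) h1 h2
    have h4 := touch_no (hR.ac.trans hR.cN) hR.ta (host_al hρ hc' (hR.ac.trans hR.cN)) h3.1
    exact absurd h3.2 (not_lt.2 h4)
  · rcases hc.lt_or_eq with h3 | h3
    · exact h3
    · exfalso
      subst h3
      have h4 := touch_no hR.cN hR.tc (host_al hρ hu hR.cN) h1
      exact absurd h2 (not_lt.2 h4)

/-- The path of a record stays below the barrier. -/
theorem rec_lt_y (hI : Inv G σ) (hR : IsRec G σ R) {τ : ℕ} (ha : R.a ≤ τ) (hc : τ ≤ R.c) :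
    G.r (host G σ.pi R.q τ) < G.r R.y := by
  obtain ⟨b1, b2, b3⟩ := order_bar hI.ch (u := R.q) (y := R.y) (hR.b_le.trans ha)
    (hR.y_b.trans ha) hc hR.cN hR.y_t.le
  have h0 : host G σ.pi R.q R.c ≠ G.top := by
    intro h
    have := hR.yc
    rw [h] at this
    have h1 := hR.y_t
    have h2 := G.t_top
    have h3 := G.t_top'
    have h4 := G.t_bot'
    have h5 := G.t_bot
    by_cases hy : R.y = G.top
    · rw [hy] at this
      exact lt_irrefl _ this
    · by_cases hy' : R.y = G.bot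
      · have h7 := hR.tc
        rw [h, hy'] at h7
        -- `ub top` is `top`
        have h8 : G.ub G.top R.c = G.top := by
          unfold Bars.ub
          rw [dif_neg]
          rintro ⟨u, h9, h10, -⟩
          exact ne_top_of_lt h10 rfl
        rw [h8] at h7
        exact G.ne h7.symm
      · have := G.t_in R.y hy' hy
        omega
  have hlt : G.r (host G σ.pi R.q R.c) < G.r R.y := by
    have := (ub_spec G hR.cN h0).2.1
    rwa [hR.tc] at this
  rcases lt_trichotomy (G.r (host G σ.pi R.q τ)) (G.r R.y) with h3 | h3 | h3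
  · exact h3
  · have := b3 (G.r_inj h3)
    rw [this] at hlt
    exact (lt_irrefl _ hlt).elim
  · exact absurd (b2 h3) (not_le.2 hlt)

/-- One step inside the region. -/
theorem rec_step (hI : Inv G σ) (hR : IsRec G σ R) {ρ : V → V} (hρ : Ch G ρ) {u : V} {s : ℕ}
    (hd : host G ρ u s ∉ σ.S → host G ρ u s ∈ σ.Dec → ρ (host G ρ u s) = σ.pi (host G ρ u s))
    (hS : host G ρ u s ∉ σ.S) (hu : G.b u ≤ s) (ha : R.a ≤ s) (hc : s + 1 ≤ R.c)
    (h1 : G.r (host G σ.pi R.q s) < G.r (host G ρ u s)) (h2 : G.r (host G ρ u s) < G.r R.y) :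
    G.r (host G σ.pi R.q (s + 1)) ≤ G.r (host G ρ u (s + 1)) ∧
      G.r (host G ρ u (s + 1)) < G.r R.y := by
  have hN : s + 1 ≤ G.N := hc.trans hR.cN
  constructor
  · by_contra hcon
    rw [not_le] at hcon
    obtain ⟨x, h3, h4, h5⟩ := order hI.ch hρ (hR.b_le.trans ha) hu (Nat.le_succ s) hN h1 hcon.le
    have hx : x = s + 1 := by omega
    rw [hx] at h5
    rw [h5] at hcon
    exact lt_irrefl _ hcon
  · have b1 := (order_bar hρ hu (hR.y_b.trans ha) (Nat.le_succ s) hN
      (hc.trans hR.y_t.le)).1 h2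
    rcases b1.lt_or_eq with h3 | h3
    · exact h3
    · exfalso
      have h4 : host G ρ u (s + 1) = R.y := G.r_inj h3
      rcases host_step hρ hu hN with ⟨h5, h6⟩ | ⟨h5, h6⟩
      · rw [h5] at h4
        rw [h4] at h2
        exact lt_irrefl _ h2
      · rw [h4] at h5
        have hin := inn_of_notin hI hS
        have hup : ρ (host G ρ u s) = G.up (host G ρ u s) := by
          rcases hρ.2.2 _ hin with h7 | h7
          · exfalso
            have h8 := r_lo G hin
            rw [← h7, ← h5] at h8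
            exact lt_asymm h2 h8
          · exact h7
        obtain ⟨h7, h8⟩ := hR.dec _ hin (by rw [h6]; exact ha) (by rw [h6]; omega)
          (by rw [h6]; exact h1) (by rw [← hup, ← h5])
        have h9 : host G ρ u s ∈ σ.Dec := h7.resolve_left hS
        have h10 := hd hS h9
        rw [h8, hup] at h10
        have h11 := r_up G hin
        have h12 := r_lo G hin
        rw [h10] at h11
        exact lt_asymm h11 h12

/-- P4: a route of a choice function which respects `σ` on `S ∪ Dec` and is inside at `τ` enters `S`. -/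
theorem rec_stay (hI : Inv G σ) (hR : IsRec G σ R) {ρ : V → V} (hρ : Ch G ρ)
    (hd : ∀ v ∈ σ.Dec, v ∉ σ.S → ρ v = σ.pi v) {u : V} {τ : ℕ} (hu : G.b u ≤ τ) (ha : R.a ≤ τ) (hc : τ ≤ R.c)
    (h1 : G.r (host G σ.pi R.q τ) < G.r (host G ρ u τ)) (h2 : G.r (host G ρ u τ) < G.r R.y) :
    ∃ s, τ ≤ s ∧ s ≤ R.c ∧ host G ρ u s ∈ σ.S ∧ (∀ s', τ ≤ s' → s' < s → host G ρ u s' ∉ σ.S) ∧
      ∀ s', τ ≤ s' → s' ≤ s → G.r (host G σ.pi R.q s') ≤ G.r (host G ρ u s') ∧ G.r (host G ρ u s') < G.r R.y := by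
  classical
  have key : ∀ s, τ ≤ s → s ≤ R.c → (∀ s', τ ≤ s' → s' < s → host G ρ u s' ∉ σ.S) →
      G.r (host G σ.pi R.q s) ≤ G.r (host G ρ u s) ∧ G.r (host G ρ u s) < G.r R.y := by
    intro s hs
    induction s, hs using Nat.le_induction with
    | base => exact fun _ _ => ⟨h1.le, h2⟩
    | succ s hs ih =>
      intro h3 h4
      have h5 := ih (by omega) (fun s' h6 h7 => h4 s' h6 (by omega))
      have h6 := h4 s hs (by omega)
      have h7 : G.r (host G σ.pi R.q s) < G.r (host G ρ u s) :=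
        lt_of_le_of_ne h5.1 fun h8 => h6 (G.r_inj h8 ▸ rec_Q hI hR s)
      exact rec_step hI hR hρ (fun h8 h9 => hd _ h9 h8) h6 (hu.trans hs) (ha.trans hs) h3 h7 h5.2
  have hex : ∃ s, τ ≤ s ∧ s ≤ R.c ∧ host G ρ u s ∈ σ.S := by
    by_contra hcon
    push Not at hcon
    have h3 := key R.c hc le_rfl (fun s' h4 h5 => hcon s' h4 h5.le)
    have h4 : G.r (host G σ.pi R.q R.c) < G.r (host G ρ u R.c) :=
      lt_of_le_of_ne h3.1 fun h8 => hcon R.c hc le_rfl (G.r_inj h8 ▸ rec_Q hI hR R.c)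
    have h5 := touch_no hR.cN hR.tc (host_al hρ (hu.trans hc) hR.cN) h4
    exact absurd h3.2 (not_lt.2 h5)
  obtain ⟨h3, h4, h5⟩ := Nat.find_spec hex
  refine ⟨Nat.find hex, h3, h4, h5, ?_, ?_⟩
  · intro s' h6 h7 h8
    exact Nat.find_min hex h7 ⟨h6, by omega, h8⟩
  · intro s' h6 h7
    exact key s' h6 (by omega) fun s'' h8 h9 h10 =>
      Nat.find_min hex (by omega : s'' < Nat.find hex) ⟨h8, by omega, h10⟩

/-- P2 (general form). -/
theorem rec_close (hI : Inv G σ) (hR : IsRec G σ R) {π : V → V} (hπ : Fin' G σ π)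
    {u h : V} {τ τ2 : ℕ} (ha : R.a ≤ τ) (h12 : τ ≤ τ2) (hc : τ2 ≤ R.c) (hu : G.b u ≤ τ)
    (hq : G.r (host G π R.q τ) ≤ G.r (host G π u τ)) (ht : G.ub (host G π u τ2) τ2 = R.y)
    (hh : G.al h τ) (h1 : G.r (host G π u τ) < G.r h) (h2 : G.r h < G.r R.y) :
    host G π h τ2 = host G π u τ2 := by
  have hN : τ2 ≤ G.N := hc.trans hR.cN
  have hcongr : ∀ s, host G π R.q s = host G σ.pi R.q s := fun s =>
    host_congr (fun v hv => hπ.2 v (Or.inl (orb_mem hI.cl hR.q_mem hv))) s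
  have hh0 : host G π h τ = h := host_self hπ.1 hh.2
  have hle : ∀ s, τ ≤ s → s ≤ τ2 → G.r (host G σ.pi R.q s) ≤ G.r (host G π u s) ∧
      G.r (host G π u s) ≤ G.r (host G π h s) := by
    intro s h3 h4
    constructor
    · rw [← hcongr]
      exact order_one hπ.1 (hR.b_le.trans ha) hu h3 (h4.trans hN) hq
    · exact order_one hπ.1 hu hh.1 h3 (h4.trans hN) (by rw [hh0]; exact h1.le)
  have key : ∀ s, τ ≤ s → s ≤ τ2 → G.r (host G π h s) < G.r R.y := by
    intro s hs
    induction s, hs using Nat.le_induction with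
    | base => intro _; rw [hh0]; exact h2
    | succ s hs ih =>
      intro h3
      have h4 := ih (by omega)
      have h5 := hle s hs (by omega)
      have b1 := (order_bar hπ.1 (u := h) (hh.1.trans hs) (hR.y_b.trans (ha.trans hs)) (Nat.le_succ s)
        (h3.trans hN) ((h3.trans hc).trans hR.y_t.le)).1 h4
      rcases b1.lt_or_eq with h6 | h6
      · exact h6
      · exfalso
        have h7 : host G π h (s + 1) = R.y := G.r_inj h6
        rcases host_step hπ.1 (u := h) (hh.1.trans hs) (h3.trans hN) with ⟨h8, -⟩ | ⟨h8, h9⟩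
        · rw [h8] at h7
          rw [h7] at h4
          exact lt_irrefl _ h4
        · rw [h7] at h8
          by_cases hQ : host G π h s = host G π R.q s
          · -- the path itself would step on the barrier
            have h10 : host G π R.q (s + 1) = R.y := by
              rcases host_step hπ.1 (u := R.q) (hR.b_le.trans (ha.trans hs)) (h3.trans hN) with
                ⟨h11, h12'⟩ | ⟨h11, -⟩
              · rw [← hQ] at h12'
                omega
              · rw [h11, ← hQ, ← h8]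
            have h11 := rec_lt_y hI hR (τ := s + 1) (by omega) (h3.trans hc)
            rw [← hcongr, h10] at h11
            exact lt_irrefl _ h11
          · have hlt : G.r (host G σ.pi R.q s) < G.r (host G π h s) := by
              refine lt_of_le_of_ne (h5.1.trans h5.2) fun h10 => hQ ?_
              rw [hcongr]
              exact (G.r_inj h10).symm
            have hin : G.inn (host G π h s) := by
              refine ⟨ne_bot_of_lt hlt, ne_top_of_lt h4⟩
            have hup : π (host G π h s) = G.up (host G π h s) := by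
              rcases hπ.1.2.2 _ hin with h10 | h10
              · exfalso
                have h11 := r_lo G hin
                rw [← h10, ← h8] at h11
                exact lt_asymm h4 h11
              · exact h10
            obtain ⟨h10, h11⟩ := hR.dec _ hin (by rw [h9]; omega) (by rw [h9]; omega)
              (by rw [h9]; exact hlt) (by rw [← hup, ← h8])
            have h12' := hπ.2 _ h10
            rw [h11, hup] at h12'
            have h13 := r_up G hin
            have h14 := r_lo G hin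
            rw [h12'] at h13
            exact lt_asymm h13 h14
  have h3 := hle τ2 h12 le_rfl
  rcases h3.2.lt_or_eq with h4 | h4
  · have h5 := touch_no hN ht (host_al hπ.1 (u := h) (hh.1.trans h12) hN) h4
    exact absurd (key τ2 h12 le_rfl) (not_lt.2 h5)
  · exact (G.r_inj h4).symm

/-- P6: the upper neighbour of a host `x ∈ R.S` (entered by a D-step from `v ∈ R.S`) is not in the region of `R`. -/
theorem rec_freshD (hI : Inv G σ) (hR : IsRec G σ R) {v : V} (hv : v ∈ R.S) (hvi : G.inn v)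
    (hx : σ.pi v = G.lo v) {τ : ℕ} (h1 : G.t v < τ) (h2 : τ ≤ G.t (G.lo v)) (ha : R.a ≤ τ) (hc : τ ≤ R.c) :
    ¬ (G.r (host G σ.pi R.q τ) < G.r (G.ub (G.lo v) τ) ∧ G.r (G.ub (G.lo v) τ) < G.r R.y) := by
  rintro ⟨h3, h4⟩
  have hN : τ ≤ G.N := hc.trans hR.cN
  have hxS : G.lo v ∈ R.S := hx ▸ hR.S_cl v hv
  have hxt : G.lo v ≠ G.top := ne_top_of_lt (r_lo G hvi)
  obtain ⟨u1, u2, u3⟩ := ub_spec G hN hxt
  have hxal : G.al (G.lo v) τ := ⟨(al_lo G hvi).1.1.trans h1.le, h2⟩
  have hQx : G.r (host G σ.pi R.q τ) ≤ G.r (G.lo v) := by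
    by_contra hcon
    rw [not_le] at hcon
    exact absurd h3 (not_lt.2 (u3 _ (rec_al hI hR ha hc) hcon))
  rcases hQx.lt_or_eq with h5 | h5
  · have h6 := hR.reg _ hxS τ ha hc hxal h5
    exact absurd (u2.trans h4) (not_lt.2 h6)
  · exact hR.hostS τ ha hc (G.r_inj h5 ▸ hxS)

/-- P6 for a record below a path (`IsRec G.mir`). -/
theorem rec_freshU (_hI : Inv G σ) (hR : IsRec G.mir σ R) {v : V} (hv : v ∈ R.S)
    (hvi : G.inn v) (hx : σ.pi v = G.lo v) {τ : ℕ} (h1 : G.t v < τ) (h2 : τ ≤ G.t (G.lo v)) (ha : R.a ≤ τ)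
    (hc : τ ≤ R.c) :
    ¬ (G.r R.y < G.r (G.ub (G.lo v) τ) ∧ G.r (G.ub (G.lo v) τ) < G.r (host G σ.pi R.q τ)) := by
  rintro ⟨h3, h4⟩
  have hN : τ ≤ G.N := hc.trans hR.cN
  have hxS : G.lo v ∈ R.S := hx ▸ hR.S_cl v hv
  have hxt : G.lo v ≠ G.top := ne_top_of_lt (r_lo G hvi)
  obtain ⟨u1, u2, u3⟩ := ub_spec G hN hxt
  have hxal : G.al (G.lo v) τ := ⟨(al_lo G hvi).1.1.trans h1.le, h2⟩
  have hyal : G.al R.y τ := ⟨hR.y_b.trans ha, hc.trans hR.y_t.le⟩
  have hyx : G.r R.y ≤ G.r (G.lo v) := by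
    by_contra hcon
    rw [not_le] at hcon
    exact absurd h3 (not_lt.2 (u3 _ hyal hcon))
  rcases hyx.lt_or_eq with h5 | h5
  · have hm1 : G.mir.r (host G.mir σ.pi R.q τ) < G.mir.r (G.lo v) := by
      show G.M - G.r (host G σ.pi R.q τ) < G.M - G.r (G.lo v)
      have := G.r_le (host G σ.pi R.q τ)
      have := u2.trans h4
      omega
    have h6 := hR.reg _ hxS τ ha hc hxal hm1
    have h7 : G.M - G.r R.y ≤ G.M - G.r (G.lo v) := h6
    have := G.r_le R.y
    have := G.r_le (G.lo v)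
    omega
  · have h6 : R.y = G.lo v := G.r_inj h5
    have h7 : R.c ≤ G.t v := hR.att (h6 ▸ hxS) v hv (hx.trans h6.symm)
    omega

end rec

section forced

variable {σ : St V}

theorem lam_S {ω : V × Bool → Bool} {v : V} (hv : v ∈ σ.S ∪ σ.Dec) : lam G σ ω v = σ.pi v := by
  unfold lam
  rw [if_pos hv]

/-- Forced barriers, with all data. -/
theorem fb_data (hI : Inv G σ) {ω : V × Bool → Bool} {z : V} {v : V}
    (hv : Dst G σ ω z v) (hf : fb G σ v) :
    ∃ R ∈ σ.RD, ∃ u, G.inn u ∧ R.y = G.flh v ∧ G.up u = R.y ∧ G.b z ≤ G.t u ∧ G.t u ≤ G.N ∧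
      host G (lam G σ ω) z (G.t u) ∉ σ.S ∧
      (host G (lam G σ ω) z (G.t u) = u ∨ host G (lam G σ ω) z (G.t u) = G.lo u) ∧
      ∀ τ, G.b z ≤ τ → τ ≤ G.N → host G (lam G σ ω) z τ ∉ σ.S →
      R.a ≤ τ ∧ τ ≤ R.c ∧ G.r (host G σ.pi R.q τ) < G.r (host G (lam G σ ω) z τ) ∧
      G.r (host G (lam G σ ω) z τ) < G.r R.y := by
  have hch := ch_lam hI ω
  have hcl : ∀ w ∈ σ.S, lam G σ ω w ∈ σ.S := fun w hw => by
    rw [lam_S (Or.inl hw)]; exact hI.cl w hw
  obtain ⟨u, huD, huS, hpu, hlo, htu, hup⟩ := hf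
  obtain ⟨⟨hzv, hvS⟩, hlv, hxS⟩ := hv
  have hvi := inn_of_notin hI hvS
  have hui := inn_of_notin hI huS
  have hxi := inn_of_notin hI hxS
  have hRD : ∃ R ∈ σ.RD, DecBy G σ R u := by
    rcases hI.decl u huD huS with h | ⟨R, -, h⟩
    · exact h
    · exfalso
      have h1 : σ.pi u = G.mir.lo u := h.2.2.2.2
      have h2 : G.mir.lo u = G.up u := by
        show G.mir.mir.ub u (G.mir.t u) = G.ub u (G.t u)
        rw [mir_mir]
        rfl
      rw [h2, hpu] at h1
      have h3 := r_up G hui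
      have h4 := r_lo G hui
      rw [← h1] at h3
      exact lt_asymm h3 h4
  obtain ⟨R, hR0, hRa, hRc, hRq, hRy, -⟩ := hRD
  have hR := hI.recD R hR0
  have htv : G.t v ≤ G.t u := by
    have := (tau1_spec G hvi hxi).1
    omega
  have hbz : G.b z ≤ G.t u := (G.bt z).trans ((orb_t hch hzv).trans htv)
  have htN : G.t u ≤ G.N := (hRc.le).trans hR.cN
  -- the host at the death of u
  have hhost : host G (lam G σ ω) z (G.t u) = u ∨ host G (lam G σ ω) z (G.t u) = G.lo u := by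
    rcases htv.lt_or_eq with h | h
    · right
      have h1 : G.t u ≤ G.t (lam G σ ω v) := by rw [hlv, ← hlo]; exact (t_lo G hui).le
      rw [host_btw hch hzv h h1 htN, hlv, hlo]
    · left
      have h1 : v = u := G.t_inj h
      rw [← h1]
      exact host_t hch hzv hvi
  have hnS : host G (lam G σ ω) z (G.t u) ∉ σ.S := by
    rcases hhost with h | h
    · rw [h]; exact huS
    · rw [h, hlo]; exact hxS
  -- inside at the death of u
  have hQal := rec_al hI hR hRa.le hRc.le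
  have hin1 : G.r (host G σ.pi R.q (G.t u)) < G.r (host G (lam G σ ω) z (G.t u)) := by
    rcases hhost with h | h
    · rw [h]; exact hRq
    · rw [h]
      have h1 : G.r (host G σ.pi R.q (G.t u)) ≤ G.r (G.lo u) :=
        (lb_spec G htN hui.1).2.2 _ hQal hRq
      refine lt_of_le_of_ne h1 fun h2 => ?_
      have h3 := rec_Q hI hR (G.t u)
      rw [G.r_inj h2, hlo] at h3
      exact hxS h3
  have hin2 : G.r (host G (lam G σ ω) z (G.t u)) < G.r R.y := by
    rw [← hRy]
    rcases hhost with h | h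
    · rw [h]; exact r_up G hui
    · rw [h]; exact (r_lo G hui).trans (r_up G hui)
  refine ⟨R, hR0, u, hui, hRy.symm.trans hup, hRy, hbz, htN, hnS, hhost, ?_⟩
  intro τ h1 h2 h3
  rcases le_total τ (G.t u) with h4 | h4
  · have hav : ∀ s, G.b z ≤ s → s ≤ G.t u → host G (lam G σ ω) z s ∉ σ.S := fun s h5 h6 h7 =>
      hnS (host_mem_le hch hcl h5 h6 htN h7)
    have h5 := rec_start hI hR hch hbz hRa.le hRc.le hav hin1 hin2
    have h6 := rec_back hI hR hch h1 (by omega) h4 hRc.le (fun s h7 h8 => hav s (by omega) h8)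
      hin1 hin2
    exact ⟨by omega, by omega, h6.1, h6.2⟩
  · obtain ⟨s, h5, h6, h7, h8, h9⟩ := rec_stay hI hR hch
      (fun w hw _ => lam_S (Or.inr hw)) hbz hRa.le hRc.le hin1 hin2
    have h10 : τ ≤ s := by
      by_contra hcon
      rw [not_le] at hcon
      exact h3 (host_mem_le hch hcl (hbz.trans h5) hcon.le h2 h7)
    have h11 := h9 τ h4 h10
    exact ⟨by omega, by omega, lt_of_le_of_ne h11.1 fun h12 =>
      h3 (G.r_inj h12 ▸ rec_Q hI hR τ), h11.2⟩

variable [Fintype V] [DecidableEq V]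

/-- Forced barriers: the whole route is in the region of an old record with that barrier. -/
theorem fb_in {m0 : V × Bool → Option Bool} {ω : V × Bool → Bool} {z : V} {K Tm : ℕ} {E : Set V}
    (h : Ctx G σ m0 ω z K Tm E) {v : V} (hv : Dst G σ ω z v) (hf : fb G σ v) :
    ∃ R ∈ σ.RD, R.y = G.flh v ∧ ∀ τ, G.b z ≤ τ → τ ≤ G.N → host G (lam G σ ω) z τ ∉ σ.S →
      R.a ≤ τ ∧ τ ≤ R.c ∧ G.r (host G σ.pi R.q τ) < G.r (host G (lam G σ ω) z τ) ∧
      G.r (host G (lam G σ ω) z τ) < G.r R.y := by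
  obtain ⟨R, h1, u, -, h2, -, -, -, -, -, h3⟩ := fb_data h.inv hv hf
  exact ⟨R, h1, h2, h3⟩

omit [Fintype V] [DecidableEq V] in
theorem fb_le (hI : Inv G σ) {ω : V × Bool → Bool} {z : V} {v v' : V}
    (hv : Dst G σ ω z v) (hf : fb G σ v) (hv' : Dst G σ ω z v') (hf' : fb G σ v') :
    G.r (G.flh v) ≤ G.r (G.flh v') := by
  obtain ⟨R, h1, u, hui, h2, h3, h4, h5, h6, h7, -⟩ := fb_data hI hv hf
  obtain ⟨R', h1', u', -, h2', -, -, -, -, -, h8'⟩ := fb_data hI hv' hf'
  have hR' := hI.recD R' h1'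
  obtain ⟨a1, a2, a3, a4⟩ := h8' (G.t u) h4 h5 h6
  have hyal : G.al R'.y (G.t u) := ⟨hR'.y_b.trans a1, a2.trans hR'.y_t.le⟩
  have hu : G.r u < G.r R'.y := by
    rcases h7 with h7 | h7
    · rwa [h7] at a4
    · rw [h7] at a4
      by_contra hcon
      rw [not_lt] at hcon
      rcases hcon.lt_or_eq with h9 | h9
      · exact absurd a4 (not_lt.2 ((lb_spec G h5 hui.1).2.2 _ hyal h9))
      · have h10 : R'.y = u := G.r_inj h9
        have h11 := hR'.y_t
        rw [h10] at h11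
        omega
  rw [← h2, ← h2', ← h3]
  exact (ub_spec G h5 hui.2).2.2 _ hyal hu

/-- P5: one forced barrier. -/
theorem fb_one {m0 : V × Bool → Option Bool} {ω : V × Bool → Bool} {z : V} {K Tm : ℕ} {E : Set V}
    (h : Ctx G σ m0 ω z K Tm E) {v v' : V} (hv : Dst G σ ω z v) (hf : fb G σ v) (hv' : Dst G σ ω z v')
    (hf' : fb G σ v') : G.flh v = G.flh v' :=
  G.r_inj (le_antisymm (fb_le h.inv hv hf hv' hf') (fb_le h.inv hv' hf' hv hf))

end forced

end Pool.Agent.W_a4f561_R33
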