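import Pool.Agent.W_a4f561_E.Cnt28
import Pool.Agent.W_a4f561_h26.Drw
import Pool.Agent.W_a4f561_h26.Trk

/-!
MP_a4f561_co (EpsPages): the own cost of a path (helper58).
-/

set_option autoImplicit false

namespace Pool.Agent.W_a4f561_E.Own58

open Pool.Agent.W_a4f561_h26

section Gen

variable {V : Type} {G : Bars V}

theorem orb_cl {π : V → V} {S : Set V} (hS : ∀ v ∈ S, π v ∈ S) {u v : V} (h : Orb π u v) (hu : u ∈ S) :
    v ∈ S := by
  obtain ⟨k, rfl⟩ := h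
  induction k with
  | zero => exact hu
  | succ k ih =>
    rw [Function.iterate_succ_apply']
    exact hS _ ih

theorem orb_congr {π ρ : V → V} {a : V} {u : V} (h : Orb π u a)
    (he : ∀ v, Orb π u v → Orb π v a → v ≠ a → ρ v = π v) : Orb ρ u a := by
  obtain ⟨k, hk⟩ := h
  induction k generalizing u with
  | zero => exact ⟨0, hk⟩
  | succ k ih =>
    by_cases hua : u = a
    · exact ⟨0, hua⟩
    · have h1 : ρ u = π u := he u ⟨0, rfl⟩ ⟨k + 1, hk⟩ hua
      rw [Function.iterate_succ_apply] at hk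
      have h2 : Orb ρ (π u) a := by
        apply ih _ hk
        intro v hv hva hne
        apply he v _ hva hne
        obtain ⟨j, hj⟩ := hv
        refine ⟨j + 1, ?_⟩
        rw [Function.iterate_succ_apply]
        exact hj
      obtain ⟨j, hj⟩ := h2
      refine ⟨j + 1, ?_⟩
      rw [Function.iterate_succ_apply, h1]
      exact hj

theorem lam_S {σ : St V} {ω : V × Bool → Bool} {v : V} (hv : v ∈ σ.S) : lam G σ ω v = σ.pi v := by
  have h : v ∈ σ.S ∪ σ.Dec := Or.inl hv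
  unfold lam
  rw [if_pos h]

theorem lam_D {σ : St V} {ω : V × Bool → Bool} {v : V} (hv : v ∈ σ.Dec) : lam G σ ω v = σ.pi v := by
  have h : v ∈ σ.S ∪ σ.Dec := Or.inr hv
  unfold lam
  rw [if_pos h]

theorem lam_cl {σ : St V} (hI : Inv G σ) (ω : V × Bool → Bool) : ∀ v ∈ σ.S, lam G σ ω v ∈ σ.S := by
  intro v hv
  rw [lam_S hv]
  exact hI.cl v hv

theorem inn_of {σ : St V} (hI : Inv G σ) {v : V} (hv : v ∉ σ.S) : G.inn v :=
  ⟨fun h => hv (h ▸ hI.bot_mem), fun h => hv (h ▸ hI.top_mem)⟩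

theorem t_pi {π : V → V} (hπ : Ch G π) {v : V} (hv : G.inn v) : G.t v < G.t (π v) := by
  rcases hπ.2.2 v hv with h | h
  · rw [h]; exact t_lo G hv
  · rw [h]; exact t_up G hv

/-- The orbit inside the new part. -/
theorem onB_btw {σ : St V} (hI : Inv G σ) {ω : V × Bool → Bool} {z u v w : V} (hu : OnB G σ ω z u)
    (hv : OnB G σ ω z v) (h1 : Orb (lam G σ ω) u w) (h2 : Orb (lam G σ ω) w v) : OnB G σ ω z w :=
  ⟨orb_trans hu.1 h1, fun hw => hv.2 (orb_cl (lam_cl hI ω) h2 hw)⟩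

/-- A later path vertex: at or after the next one. -/
theorem onB_next {σ : St V} (hI : Inv G σ) {ω : V × Bool → Bool} {z u v : V} (hu : OnB G σ ω z u)
    (hv : OnB G σ ω z v) (h : G.t u < G.t v) : OnB G σ ω z (lam G σ ω u) ∧ G.t (lam G σ ω u) ≤ G.t v := by
  have hch := ch_lam hI ω
  have h1 := orb_comp hch hu.1 hv.1 h.le
  obtain ⟨k, hk⟩ := h1
  cases k with
  | zero =>
    have : u = v := hk
    rw [this] at h
    exact absurd h (lt_irrefl _)
  | succ k =>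
    rw [Function.iterate_succ_apply] at hk
    have h2 : Orb (lam G σ ω) (lam G σ ω u) v := ⟨k, hk⟩
    exact ⟨onB_btw hI hu hv ⟨1, rfl⟩ h2, orb_t hch h2⟩

theorem leT {σ σ' σ'' : St V} (h : Le σ σ') (h' : Le σ' σ'') : Le σ σ'' where
  S := h.S.trans h'.S
  Dec := h.Dec.trans h'.Dec
  pi := by
    intro v hv
    rw [h'.pi v, h.pi v hv]
    rcases hv with hv | hv
    · exact Or.inl (h.S hv)
    · exact Or.inr (h.Dec hv)
  RD := h.RD.trans h'.RD
  RU := h.RU.trans h'.RU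

/-- The facts of a D-pair with D-step `v` and head `hh`. -/
structure PF (G : Bars V) (σ : St V) (ω : V × Bool → Bool) (z : V) (π : V → V) (p : V) (T : ℕ)
    (v hh : V) : Prop where
  pv : Orb π p v
  B : OnB G σ ω z v
  lo : π v = G.lo v
  tT : G.t (G.lo v) < T
  hd : ∃ τ, G.t v < τ ∧ τ ≤ G.t (G.lo v) ∧ hh = G.ub (G.lo v) τ
  um : ∀ u, Orb π p u → Orb π hh u → T ≤ G.t u

/-- `π` follows the path. -/
def Fol (G : Bars V) (σ : St V) (ω : V × Bool → Bool) (z : V) (π : V → V) : Prop :=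
  Ch G π ∧ (∀ v, OnB G σ ω z v → π v = lam G σ ω v)

theorem fol_orb {σ : St V} (hI : Inv G σ) {ω : V × Bool → Bool} {z : V} {π : V → V} (hf : Fol G σ ω z π)
    {u v : V} (hu : OnB G σ ω z u) (hv : OnB G σ ω z v) (h : G.t u ≤ G.t v) : Orb π u v := by
  have hch := ch_lam hI ω
  apply orb_congr (orb_comp hch hu.1 hv.1 h)
  intro w h1 h2 _
  exact hf.2 w (onB_btw hI hu hv h1 h2)

/-- The head does not meet the path before `T`. -/
theorem PF.unm {σ : St V} (hI : Inv G σ) {ω : V × Bool → Bool} {z : V} {π : V → V} (hf : Fol G σ ω z π)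
    {p : V} {T : ℕ} {v hh : V} (hp : PF G σ ω z π p T v hh) {u : V} (hu : OnB G σ ω z u) (h : G.t v ≤ G.t u)
    (ho : Orb π hh u) : T ≤ G.t u :=
  hp.um u (orb_trans hp.pv (fol_orb hI hf hp.B hu h)) ho

/-- The head at its time. -/
theorem PF.al {σ : St V} (hI : Inv G σ) {ω : V × Bool → Bool} {z : V} {π : V → V}
    {p : V} {T : ℕ} {v hh : V} (hp : PF G σ ω z π p T v hh) (hx : G.lo v ∉ σ.S) (hT : T ≤ G.N) {τ : ℕ}
    (h2 : τ ≤ G.t (G.lo v)) (h3 : hh = G.ub (G.lo v) τ) :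
    G.al hh τ ∧ G.r (G.lo v) < G.r hh := by
  have hxi := inn_of hI hx
  have h4 : τ ≤ G.N := by
    have := hp.tT
    omega
  obtain ⟨h5, h6, -⟩ := ub_spec G h4 hxi.2
  rw [h3]
  exact ⟨h5, h6⟩

/-- Squeezing: if the route of `y` meets the path at `u`, then so does the route of a head `hh ≤ y`. -/
theorem PF.sq {σ : St V} (hI : Inv G σ) {ω : V × Bool → Bool} {z : V} {π : V → V} (hf : Fol G σ ω z π)
    {p : V} {T : ℕ} {v hh : V} (hp : PF G σ ω z π p T v hh) (hx : G.lo v ∉ σ.S) (hT : T ≤ G.N) {τ : ℕ}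
    (h1 : G.t v < τ) (h2 : τ ≤ G.t (G.lo v)) (h3 : hh = G.ub (G.lo v) τ) {y u : V} (hy : G.al y τ)
    (hyr : G.r hh ≤ G.r y) (hty : G.t (G.lo v) < G.t y) (hu : OnB G σ ω z u) (ho : Orb π y u) :
    T ≤ G.t u := by
  obtain ⟨hch, hfo⟩ := hf
  obtain ⟨hal, hr⟩ := hp.al hI hx hT h2 h3
  have hvi := inn_of hI hp.B.2
  have hui := inn_of hI hu.2
  have hxi := inn_of hI hx
  have hyu : G.t y ≤ G.t u := orb_t hch ho
  have huN : G.t u < G.N := G.t_in u hui.1 hui.2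
  -- `u` is on the route of `x`
  have hxB : OnB G σ ω z (G.lo v) := by
    refine ⟨?_, hx⟩
    have h5 : lam G σ ω v = G.lo v := by
      rw [← hfo v hp.B, hp.lo]
    rw [← h5]
    exact orb_trans hp.B.1 ⟨1, rfl⟩
  have hxu : Orb π (G.lo v) u := fol_orb hI ⟨hch, hfo⟩ hxB hu (by omega)
  have hxal : G.b (G.lo v) ≤ τ := by
    have := (al_lo G hvi).1.1
    omega
  have e1 : host G π (G.lo v) τ = G.lo v := host_self hch h2
  have e2 : host G π hh τ = hh := host_self hch hal.2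
  have e3 : host G π y τ = y := host_self hch hy.2
  have e4 : host G π (G.lo v) (G.t u) = u := host_t hch hxu hui
  have e5 : host G π y (G.t u) = u := host_t hch ho hui
  have hτu : τ ≤ G.t u := by omega
  have i1 : G.r (host G π (G.lo v) (G.t u)) ≤ G.r (host G π hh (G.t u)) := by
    apply order_one hch hxal hal.1 hτu huN.le
    rw [e1, e2]
    exact hr.le
  have i2 : G.r (host G π hh (G.t u)) ≤ G.r (host G π y (G.t u)) := by
    apply order_one hch hal.1 hy.1 hτu huN.le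
    rw [e2, e3]
    exact hyr
  rw [e4] at i1
  rw [e5] at i2
  have e6 : host G π hh (G.t u) = u := G.r_inj (le_antisymm i2 i1)
  have h6 : Orb π hh u := by
    have := host_orb G π hh (G.t u)
    rw [e6] at this
    exact this
  exact hp.unm hI ⟨hch, hfo⟩ hu (by omega) h6

end Gen

section Dl

variable {V : Type} [Fintype V] [DecidableEq V] {G : Bars V}
  {σ : St V} {m0 : V × Bool → Option Bool} {ω : V × Bool → Bool} {z : V}

theorem first_ex (G : Bars V) {Q : V → Prop} {W : V} (hW : Q W) :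
    ∃ w, Q w ∧ G.t w ≤ G.t W ∧ ∀ w', Q w' → G.t w ≤ G.t w' := by
  classical
  obtain ⟨w, hw, hmin⟩ := Finset.exists_min_image (Finset.univ.filter Q) G.t ⟨W, by simp [hW]⟩
  refine ⟨w, (Finset.mem_filter.1 hw).2, hmin W (by simp [hW]), ?_⟩
  intro w' hw'
  exact hmin w' (by simp [hw'])

theorem dlB_ex {δ : ℝ} {v W : V} (hv : obB G σ ω z v) (hW : OnB G σ ω z W) (hvW : G.t v < G.t W)
    (hp : δ ≤ prb G σ m0 ω z v W) : ∃ w, dlB G σ m0 ω z δ v w ∧ G.t w ≤ G.t W := by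
  obtain ⟨w, ⟨h1, h2, h3⟩, h4, h5⟩ := first_ex G
    (Q := fun w => OnB G σ ω z w ∧ G.t v < G.t w ∧ δ ≤ prb G σ m0 ω z v w) ⟨hW, hvW, hp⟩
  refine ⟨w, ⟨hv, h1, h2, h3, ?_⟩, h4⟩
  intro w' hw' hv' hlt
  by_contra hcon
  have := h5 w' ⟨hw', hv', not_lt.1 hcon⟩
  omega

theorem dlA_ex {δ : ℝ} {v W : V} (hv : obA G σ m0 ω z v) (hW : OnB G σ ω z W) (hvW : G.t v < G.t W)
    (hp : δ ≤ pra G σ m0 ω z v W) : ∃ w, dlA G σ m0 ω z δ v w ∧ G.t w ≤ G.t W := by
  obtain ⟨w, ⟨h1, h2, h3⟩, h4, h5⟩ := first_ex G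
    (Q := fun w => OnB G σ ω z w ∧ G.t v < G.t w ∧ δ ≤ pra G σ m0 ω z v w) ⟨hW, hvW, hp⟩
  refine ⟨w, ⟨hv, h1, h2, h3, ?_⟩, h4⟩
  intro w' hw' hv' hlt
  by_contra hcon
  have := h5 w' ⟨hw', hv', not_lt.1 hcon⟩
  omega

end Dl

variable {V : Type} [Fintype V] [DecidableEq V] {G : Bars V}
  {σ σ1 σk : St V} {m0 : V × Bool → Option Bool} {ω : V × Bool → Bool} {z : V} {K Tm T : ℕ} {E : Set V}

theorem onB_tm (h : Ctx G σ m0 ω z K Tm E) {v : V} (hv : OnB G σ ω z v) : G.t z ≤ G.t v ∧ G.t v < Tm := by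
  have hch := ch_lam h.inv ω
  refine ⟨orb_t hch hv.1, ?_⟩
  obtain ⟨e, heE, heS, hze, -⟩ := h.suc
  refine lt_of_lt_of_le ?_ (h.tE e heE)
  by_contra hcon
  have := orb_comp hch hze hv.1 (not_lt.1 hcon)
  exact hv.2 (orb_cl (lam_cl h.inv ω) this heS)

theorem fol_of (_ : Ctx G σ m0 ω z K Tm E) (hd : Dr G σ ω z σ1) (hle : Le σ1 σk) {π : V → V}
    (hπ : Fin' G σk π) : Fol G σ ω z π := by
  refine ⟨hπ.1, ?_⟩
  intro v hv
  have h1 : v ∈ σ1.S := by
    rw [hd.S]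
    exact Or.inr hv
  rw [hπ.2 v (Or.inl (hle.S h1)), hle.pi v (Or.inl h1), hd.pi v hv]

theorem fin_anti {τ τ' : St V} (hle : Le τ τ') {π : V → V} (hπ : Fin' G τ' π) : Fin' G τ π := by
  refine ⟨hπ.1, ?_⟩
  intro v hv
  rw [hπ.2 v, hle.pi v hv]
  rcases hv with hv | hv
  · exact Or.inl (hle.S hv)
  · exact Or.inr (hle.Dec hv)

/-- A D-step of the path. -/
theorem PF.dst {π : V → V} (hf : Fol G σ ω z π) {p v hh : V} (hp : PF G σ ω z π p T v hh)
    (hx : G.lo v ∉ σ.S) : Dst G σ ω z v := by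
  refine ⟨hp.B, ?_, hx⟩
  rw [← hf.2 v hp.B]
  exact hp.lo

/-- The crossing steps. -/
def Crs (G : Bars V) (σ : St V) (m0 : V × Bool → Option Bool) (ω : V × Bool → Bool) (z : V) (K B : ℕ)
    (v : V) : Prop :=
  ∃ w, (dlA G σ m0 ω z (dl K) v w ∨ dlB G σ m0 ω z (dl K) v w) ∧ ¬ blk B (G.t v) (G.t w)

/-- SHORT heads: harmful or crossing. -/
theorem short (h : Ctx G σ m0 ω z K Tm E) {B : ℕ} {π : V → V} (hf : Fol G σ ω z π) (hπ : Fin' G σk π)
    (hBt : ∀ v w, dlB G σ m0 ω z (dl K) v w → blk B (G.t v) (G.t w) → SatB G σ ω z σk v w)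
    {p v hh : V} (hp : PF G σ ω z π p T v hh) (hx : G.lo v ∉ σ.S) (hT : T ≤ G.N) {W : V}
    (hW : OnB G σ ω z W) (hWT : G.t W < T) (hvW : G.t v < G.t W) (hnH : ¬ hrm G σ m0 ω z (dl K) W v)
    (hnN : ¬ Crs G σ m0 ω z K B v) {τ : ℕ} (h1 : G.t v < τ) (h2 : τ ≤ G.t (G.lo v))
    (h3 : hh = G.ub (G.lo v) τ) : G.tau1 v ≤ τ := by
  by_contra hcon
  have hI := h.inv
  have hvi := inn_of hI hp.B.2
  have hxi := inn_of hI hx
  have hD := hp.dst hf hx
  obtain ⟨a1, a2, a3, a4, a5, a6⟩ := tau1_spec G hvi hxi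
  have hup : G.t (G.up v) < G.t (G.lo v) := by
    have := a5 (G.t v + 1) (by omega) (by omega)
    rw [ub_lo G hvi] at this
    exact this
  have hzz : G.zz v = G.lo v := by
    rcases zz_cases G hvi with h4 | h4
    · have := h4.2.2
      omega
    · exact h4.1
  have hDec : v ∉ σ.Dec := by
    intro hv
    have h4 : σ.pi v = G.lo v := by
      rw [← lam_D (ω := ω) (G := G) hv]
      exact hD.2.1
    have := inv_hD hI v hv hp.B.2 h4 hx
    omega
  have hob : obB G σ ω z v := by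
    refine ⟨hD, ⟨hp.B.2, hDec, ?_⟩, hzz⟩
    rw [hzz]
    exact fun h5 => hx h5.1
  have hpr : dl K ≤ prb G σ m0 ω z v W := by
    by_contra hlt
    exact hnH (Or.inl ⟨hob, not_le.1 hlt⟩)
  obtain ⟨w, hw, hwW⟩ := dlB_ex hob hW hvW hpr
  have hblk : blk B (G.t v) (G.t w) := by
    by_contra hb
    exact hnN ⟨w, Or.inr hw, hb⟩
  obtain ⟨u, hu, huw, huo⟩ := hBt v w hw hblk π hπ τ h1 (by omega)
  rw [← h3] at huo
  obtain ⟨hal, -⟩ := hp.al hI hx hT h2 h3
  have h5 : G.t hh ≤ G.t u := orb_t hπ.1 huo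
  have h6 := hal.2
  have := hp.unm hI hf hu (by omega) huo
  omega

/-- LONG heads: the first long head is forced, in the memory, or the first long head of a harmful or crossing step. -/
theorem long (h : Ctx G σ m0 ω z K Tm E) (hk : Inv G σk) {B : ℕ} {π : V → V} (hf : Fol G σ ω z π)
    (hπ : Fin' G σk π)
    (hA : ∀ v w, dlA G σ m0 ω z (dl K) v w → blk B (G.t v) (G.t w) → SatA G σ ω z σk v w)
    {p v hh : V} (hp : PF G σ ω z π p T v hh) (hx : G.lo v ∉ σ.S) (hT : T ≤ G.N) {W : V}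
    (hW : OnB G σ ω z W) (hWT : G.t W < T) (hvW : G.t v < G.t W) (hnH : ¬ hrm G σ m0 ω z (dl K) W v)
    {τ : ℕ} (h1 : G.tau1 v ≤ τ) (h2 : τ ≤ G.t (G.lo v))
    (h3 : hh = G.ub (G.lo v) τ) :
    (∃ v', Dst G σ ω z v' ∧ fb G σ v' ∧ G.flh v' = G.flh v) ∨ m0 (G.blw (G.flh v)) ≠ none ∨
    ∃ v', G.t v' < G.t W ∧ G.flh v' = G.flh v ∧ (hrm G σ m0 ω z (dl K) W v' ∨ Crs G σ m0 ω z K B v') := by
  classical
  have hI := h.inv
  have hvi := inn_of hI hp.B.2
  have hxi := inn_of hI hx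
  have hD := hp.dst hf hx
  obtain ⟨a1, a2, a3, a4, a5, a6⟩ := tau1_spec G hvi hxi
  by_cases hfb : ∃ v', Dst G σ ω z v' ∧ fb G σ v' ∧ G.flh v' = G.flh v
  · exact Or.inl hfb
  by_cases hm : m0 (G.blw (G.flh v)) ≠ none
  · exact Or.inr (Or.inl hm)
  have hm : m0 (G.blw (G.flh v)) = none := by
    by_contra hc
    exact hm hc
  refine Or.inr (Or.inr ?_)
  have hfv : ∀ v', Dst G σ ω z v' → G.flh v' = G.flh v → ¬ fb G σ v' :=
    fun v' h4 h5 h6 => hfb ⟨v', h4, h6, h5⟩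
  have hFr : G.flh v ∉ σ.S \ σ.Lat := by
    intro hc
    exact hnH (Or.inr (Or.inl ⟨hD, hc, hfv v hD rfl⟩))
  obtain ⟨v1, ⟨b1, b2⟩, b3, b4⟩ := first_ex G (Q := fun w => Dst G σ ω z w ∧ G.flh w = G.flh v) ⟨hD, rfl⟩
  have hv1W : G.t v1 < G.t W := by omega
  refine ⟨v1, hv1W, b2, ?_⟩
  by_cases hH : hrm G σ m0 ω z (dl K) W v1
  · exact Or.inl hH
  refine Or.inr ?_
  by_contra hN
  have hob : obA G σ m0 ω z v1 := by
    refine ⟨b1, ?_, ?_, ?_, hfv v1 b1 b2⟩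
    · rw [b2]; exact hFr
    · intro v' hv' hlt he
      have := b4 v' ⟨hv', by rw [he, b2]⟩
      omega
    · rw [b2]; exact hm
  have hpr : dl K ≤ pra G σ m0 ω z v1 W := by
    by_contra hlt
    exact hH (Or.inr (Or.inr ⟨hob, not_le.1 hlt⟩))
  obtain ⟨w, hw, hwW⟩ := dlA_ex hob hW hv1W hpr
  have hblk : blk B (G.t v1) (G.t w) := by
    by_contra hb
    exact hN ⟨w, Or.inl hw, hb⟩
  obtain ⟨hyS, u, hu, huw, huo⟩ := hA v1 w hw hblk
  rw [b2] at hyS huo
  have huo' : Orb π (G.flh v) u := by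
    apply orb_congr huo
    intro w' h4 _ _
    exact hπ.2 w' (Or.inl (orb_cl hk.cl h4 hyS))
  have hal : G.al (G.flh v) τ := ⟨le_trans a4.1 h1, by omega⟩
  have hr : G.r hh ≤ G.r (G.flh v) := by
    rw [h3]
    exact a6 τ h1 h2
  have := hp.sq hI hf hx hT (by omega) h2 h3 hal hr a3 hu huo'
  omega

/-- POCKETS: of two pairs with the same first long head, the earlier one has it as head. -/
theorem pocket (h : Ctx G σ m0 ω z K Tm E) (hd : Dr G σ ω z σ1) (hle : Le σ1 σk) {π : V → V}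
    (hf : Fol G σ ω z π) (hπ : Fin' G σk π)
    {p v hh : V} (hp : PF G σ ω z π p T v hh) (hx : G.lo v ∉ σ.S) (hT : T ≤ G.N)
    {v' : V} (hv' : Dst G σ ω z v') (hv'T : G.t (G.lo v') < T)
    (hlt : G.t v < G.t v') (he : G.flh v = G.flh v') {W : V} (hnH : ¬ hrm G σ m0 ω z (dl K) W v)
    {τ : ℕ} (h1 : G.tau1 v ≤ τ) (h2 : τ ≤ G.t (G.lo v))
    (h3 : hh = G.ub (G.lo v) τ) : hh = G.flh v := by
  classical
  by_contra hne
  have hI := h.inv
  have hvi := inn_of hI hp.B.2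
  have hxi := inn_of hI hx
  have hD := hp.dst hf hx
  have hv'i := inn_of hI hv'.1.2
  have hx'i := inn_of hI hv'.2.2
  obtain ⟨a1, a2, a3, a4, a5, a6⟩ := tau1_spec G hvi hxi
  obtain ⟨c1, c2, c3, c4, c5, c6⟩ := tau1_spec G hv'i hx'i
  have hch := ch_lam hI ω
  have hr : G.r hh < G.r (G.flh v) := by
    refine lt_of_le_of_ne ?_ (fun e => hne (G.r_inj e))
    rw [h3]
    exact a6 τ h1 h2
  obtain ⟨hal, hxr⟩ := hp.al hI hx hT h2 h3
  have hxN := G.t_in _ hxi.1 hxi.2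
  have hx'N := G.t_in _ hx'i.1 hx'i.2
  have hxv' : G.t (G.lo v) ≤ G.t v' := by
    have := (onB_next hI hp.B hv'.1 hlt).2
    rw [hD.2.1] at this
    exact this
  have hxB : OnB G σ ω z (G.lo v) := by
    have := (onB_next hI hp.B hv'.1 hlt).1
    rw [hD.2.1] at this
    exact this
  have hx'B : OnB G σ ω z (G.lo v') := by
    refine ⟨?_, hv'.2.2⟩
    rw [← hv'.2.1]
    exact orb_trans hv'.1.1 ⟨1, rfl⟩
  have hzt : G.b z ≤ G.t v := le_trans (G.bt z) (orb_t hch hp.B.1)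
  -- hosts of the path
  have hz1 : ∀ s, G.t v < s → s ≤ G.t (G.lo v) → host G (lam G σ ω) z s = G.lo v := by
    intro s h4 h5
    have := host_btw hch (u := z) (v := v) (τ := s) hp.B.1 h4 (by rw [hD.2.1]; exact h5) (by omega)
    rw [this, hD.2.1]
  have hz2 : ∀ s, G.t v' < s → s ≤ G.t (G.lo v') → host G (lam G σ ω) z s = G.lo v' := by
    intro s h4 h5
    have := host_btw hch (u := z) (v := v') (τ := s) hv'.1.1 h4 (by rw [hv'.2.1]; exact h5) (by omega)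
    rw [this, hv'.2.1]
  -- the record
  have hrec : ∃ (τ0 : St V) (R : Rec V), Inv G τ0 ∧ IsRec G τ0 R ∧ Fin' G τ0 π ∧ R.y = G.flh v ∧ R.a ≤ τ ∧
      G.tau1 v' ≤ R.c ∧ G.r (host G π R.q τ) ≤ G.r (G.lo v) := by
    by_cases hFr : G.flh v ∈ σ.S \ σ.Lat
    · have hfb : fb G σ v := by
        by_contra hc
        exact hnH (Or.inr (Or.inl ⟨hD, hFr, hc⟩))
      obtain ⟨R, hR, hRy, hall⟩ := fb_in h hD hfb
      have hRr := hI.recD R hR
      have q1 := hall τ (by omega) (by omega) (by rw [hz1 τ (by omega) h2]; exact hx)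
      have q2 := hall (G.tau1 v') (by omega) (by omega) (by rw [hz2 _ c1 c2]; exact hv'.2.2)
      refine ⟨σ, R, hI, hRr, fin_anti (leT hd.le hle) hπ, hRy, q1.1, q2.2.1, ?_⟩
      have e1 : host G π R.q τ = host G σ.pi R.q τ := by
        apply host_congr
        intro w hw
        rw [hπ.2 w, (leT hd.le hle).pi w]
        · exact Or.inl (orb_cl hI.cl hw hRr.q_mem)
        · exact Or.inl ((leT hd.le hle).S (orb_cl hI.cl hw hRr.q_mem))
      rw [e1]
      have := q1.2.2.1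
      rw [hz1 τ (by omega) h2] at this
      exact this.le
    · have t1 : Tch G σ ω z (G.flh v) (G.tau1 v) := by
        refine ⟨by omega, by omega, ?_, ?_, ?_⟩
        · rw [hz1 _ a1 a2]; exact hx
        · rw [hz1 _ a1 a2]; rfl
        · rw [hz1 _ a1 a2]; exact a3
      have t2 : Tch G σ ω z (G.flh v) (G.tau1 v') := by
        refine ⟨by omega, by omega, ?_, ?_, ?_⟩
        · rw [hz2 _ c1 c2]; exact hv'.2.2
        · rw [hz2 _ c1 c2, he]; rfl
        · rw [hz2 _ c1 c2, he]; exact c3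
      obtain ⟨R, hR, hRq, hRy, hRa, hRc⟩ := hd.exD (G.flh v) hFr (G.tau1 v) (G.tau1 v') (by omega) t1 t2
      refine ⟨σ1, R, hd.inv, hd.inv.recD R hR, fin_anti hle hπ, hRy, by omega, hRc, ?_⟩
      have hzv : Orb π z v := fol_orb hI hf ⟨orb_refl _ _, h.zS⟩ hp.B (orb_t hch hp.B.1)
      rw [hRq, host_btw hπ.1 hzv (by omega) (by rw [hp.lo]; exact h2) (by omega), hp.lo]
  obtain ⟨τ0, R, hI0, hR, hπ0, hRy, hRa, hRc, hRq⟩ := hrec
  have hxx' : Orb π (G.lo v) v' := fol_orb hI hf hxB hv'.1 hxv'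
  have hlo' : π v' = G.lo v' := by
    rw [hf.2 v' hv'.1]
    exact hv'.2.1
  have e1 : host G π (G.lo v) τ = G.lo v := host_self hπ.1 h2
  have e2 : host G π (G.lo v) (G.tau1 v') = G.lo v' := by
    rw [host_btw hπ.1 hxx' c1 (by rw [hlo']; exact c2) (by omega), hlo']
  have hcl := rec_close hI0 hR hπ0 (u := G.lo v) (h := hh) (τ := τ) (τ2 := G.tau1 v') hRa (by omega) hRc
    (by
      have := (al_lo G hvi).1.1
      omega)
    (by rw [e1]; exact hRq)
    (by rw [e2, hRy, he]; rfl)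
    hal (by rw [e1]; exact hxr) (by rw [hRy]; exact hr)
  rw [e2] at hcl
  have ho : Orb π hh (G.lo v') := by
    have := host_orb G π hh (G.tau1 v')
    rw [hcl] at this
    exact this
  have h5 := t_lo G hv'i
  have := hp.unm hI hf hx'B (by omega) ho
  omega

/-- The crossing steps are few. -/
theorem crs_card (h : Ctx G σ m0 ω z K Tm E) {tl B Λ : ℕ} (htl : tl < G.t z) (hB : 1 ≤ B)
    (hblk : blk (Λ * B) tl Tm) : Set.ncard {v | Crs G σ m0 ω z K B v} ≤ (K + 1) * Λ := by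
  classical
  obtain ⟨c0, hc1, hc2⟩ := hblk
  set O : ℕ → Set V := fun c => {v | ∃ w, (dlA G σ m0 ω z (dl K) v w ∨ dlB G σ m0 ω z (dl K) v w) ∧
    G.t v < c * B ∧ c * B < G.t w} with hO
  have hsub : {v | Crs G σ m0 ω z K B v} ⊆
      (↑((Finset.Ico (c0 * Λ + 1) (c0 * Λ + Λ + 1)).biUnion (fun c => (Set.toFinite (O c)).toFinset)) : Set V) := by
    intro v hv
    obtain ⟨w, hw, hb⟩ := hv
    have hvB : OnB G σ ω z v ∧ OnB G σ ω z w := by
      rcases hw with hw | hw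
      · exact ⟨hw.1.1.1, hw.2.1⟩
      · exact ⟨hw.1.1.1, hw.2.1⟩
    have e1 := onB_tm h hvB.1
    have e2 := onB_tm h hvB.2
    have hd := Nat.div_add_mod (G.t v) B
    have hm := Nat.mod_lt (G.t v) (show B > 0 by omega)
    have hc : G.t v / B * B ≤ G.t v := Nat.div_mul_le_self _ _
    have hlt : G.t v < (G.t v / B + 1) * B := by
      have : (G.t v / B + 1) * B = B * (G.t v / B) + B := by ring
      omega
    have hgt : (G.t v / B + 1) * B < G.t w := by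
      by_contra hcon
      exact hb ⟨G.t v / B, hc, not_lt.1 hcon⟩
    have hlow : c0 * Λ < G.t v / B + 1 := by
      by_contra hcon
      have h5 : (G.t v / B + 1) * B ≤ c0 * Λ * B := Nat.mul_le_mul_right B (not_lt.1 hcon)
      have h6 : c0 * Λ * B = c0 * (Λ * B) := by ring
      omega
    have hhigh : G.t v / B + 1 < c0 * Λ + Λ := by
      by_contra hcon
      have h5 : (c0 * Λ + Λ) * B ≤ (G.t v / B + 1) * B := Nat.mul_le_mul_right B (not_lt.1 hcon)
      have h6 : (c0 * Λ + Λ) * B = (c0 + 1) * (Λ * B) := by ring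
      omega
    rw [Finset.mem_coe, Finset.mem_biUnion]
    refine ⟨G.t v / B + 1, Finset.mem_Ico.2 ⟨by omega, by omega⟩, ?_⟩
    rw [Set.Finite.mem_toFinset]
    exact ⟨w, hw, hlt, hgt⟩
  refine le_trans (Set.ncard_le_ncard hsub (Finset.finite_toSet _)) ?_
  rw [Set.ncard_coe_finset]
  refine le_trans Finset.card_biUnion_le ?_
  refine le_trans (Finset.sum_le_card_nsmul _ _ (K + 1) ?_) ?_
  · intro c _
    rw [← Set.ncard_eq_toFinset_card _ (Set.toFinite (O c))]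
    exact W_a4f561_E.Cnt28.open_card h (c * B)
  · rw [Nat.card_Ico, smul_eq_mul]
    have : c0 * Λ + Λ + 1 - (c0 * Λ + 1) = Λ := by omega
    rw [this, Nat.mul_comm]

/-- OWN COST of the path, if all events inside blocks of length `B` are satisfied. -/
theorem own_bound (h : Ctx G σ m0 ω z K Tm E) (hd : Dr G σ ω z σ1) (hle : Le σ1 σk) (hk : Inv G σk)
    {m : ℕ} (hm : Set.ncard {c | m0 c ≠ none} ≤ m) {tl B Λ : ℕ} (htl : tl < G.t z) (hB : 1 ≤ B)
    (hblk : blk (Λ * B) tl Tm)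
    (hA : ∀ v w, dlA G σ m0 ω z (dl K) v w → blk B (G.t v) (G.t w) → SatA G σ ω z σk v w)
    (hBt : ∀ v w, dlB G σ m0 ω z (dl K) v w → blk B (G.t v) (G.t w) → SatB G σ ω z σk v w) :
    ∀ π, Fin' G σk π → CB G π {v | OnB G σ ω z v} (own K m Λ) := by
  classical
  intro π hπ p T P hT hP hP1 hP2
  have hI := h.inv
  have hf := fol_of h hd hle hπ
  have hch := ch_lam hI ω
  have : Nonempty V := ⟨G.bot⟩
  have hP' : ∀ q, q ∈ P → ∃ v, q.1 = G.lo v ∧ PF G σ ω z π p T v q.2 := by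
    intro q hq
    obtain ⟨v, hv1, hv2, hv3, hv4, hv5, hv6, hv7, hv8⟩ := hP q hq
    rw [hv5] at hv6 hv7
    exact ⟨v, hv5, hv1, hv2, hv4, hv6, hv7, hv8⟩
  choose! vq hq1 hq2 using hP'
  -- pairs whose host is in `S`
  have hc1 : (P.filter (fun q => q.1 ∈ σ.S)).card ≤ 1 := by
    rw [Finset.card_le_one]
    intro q hq q' hq'
    obtain ⟨hq, hqS⟩ := Finset.mem_filter.1 hq
    obtain ⟨hq', hqS'⟩ := Finset.mem_filter.1 hq'
    apply hP1 q hq q' hq'
    rw [hq1 q hq] at hqS ⊢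
    rw [hq1 q' hq'] at hqS' ⊢
    have hB1 := (hq2 q hq).B
    have hB2 := (hq2 q' hq').B
    have l1 : lam G σ ω (vq q) = G.lo (vq q) := by
      rw [← hf.2 _ hB1]; exact (hq2 q hq).lo
    have l2 : lam G σ ω (vq q') = G.lo (vq q') := by
      rw [← hf.2 _ hB2]; exact (hq2 q' hq').lo
    rcases lt_trichotomy (G.t (vq q)) (G.t (vq q')) with h4 | h4 | h4
    · have := (onB_next hI hB1 hB2 h4).1.2
      rw [l1] at this
      exact absurd hqS this
    · rw [G.t_inj h4]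
    · have := (onB_next hI hB2 hB1 h4).1.2
      rw [l2] at this
      exact absurd hqS' this
  by_cases hne : ∃ w, OnB G σ ω z w ∧ G.t w < T
  swap
  · have : P = P.filter (fun q => q.1 ∈ σ.S) := by
      ext q
      rw [Finset.mem_filter]
      refine ⟨fun hq => ⟨hq, ?_⟩, fun hq => hq.1⟩
      by_contra hqS
      apply hne
      have hp := hq2 q hq
      rw [hq1 q hq] at hqS
      refine ⟨G.lo (vq q), ⟨?_, hqS⟩, hp.tT⟩
      have l1 : lam G σ ω (vq q) = G.lo (vq q) := by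
        rw [← hf.2 _ hp.B]; exact hp.lo
      rw [← l1]
      exact orb_trans hp.B.1 ⟨1, rfl⟩
    rw [this]
    refine le_trans hc1 ?_
    unfold own
    omega
  obtain ⟨W, hWm, hWmax⟩ := Finset.exists_max_image
    (Finset.univ.filter (fun w => OnB G σ ω z w ∧ G.t w < T)) G.t (by
      obtain ⟨w, hw⟩ := hne
      exact ⟨w, by simp [hw]⟩)
  obtain ⟨hW, hWT⟩ := (Finset.mem_filter.1 hWm).2
  have hWmax : ∀ w, OnB G σ ω z w → G.t w < T → G.t w ≤ G.t W := by
    intro w h4 h5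
    exact hWmax w (by simp [h4, h5])
  -- the two sets of bad steps
  set HN : Set V := {v | G.t v < G.t W ∧ hrm G σ m0 ω z (dl K) W v} ∪ {v | Crs G σ m0 ω z K B v} with hHN
  have hHNc : HN.ncard ≤ (K + 1) * (Λ + 1) := by
    refine le_trans (Set.ncard_union_le _ _) ?_
    have e1 : Set.ncard {v | G.t v < G.t W ∧ hrm G σ m0 ω z (dl K) W v} ≤ K := h.nD W hW
    have e2 := crs_card h htl hB hblk
    have e3 : (K + 1) * (Λ + 1) = (K + 1) * Λ + K + 1 := by ring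
    omega
  -- the set of first long heads
  set Y : Set V := {y | ∃ v, Dst G σ ω z v ∧ fb G σ v ∧ G.flh v = y} ∪
    ({y | m0 (G.blw y) ≠ none} ∪ G.flh '' HN) with hY
  have hYc : Y.ncard ≤ 1 + (m + (K + 1) * (Λ + 1)) := by
    refine le_trans (Set.ncard_union_le _ _) (Nat.add_le_add ?_ ?_)
    · rw [Set.ncard_le_one (Set.toFinite _)]
      rintro y ⟨v, h4, h5, h6⟩ y' ⟨v', h4', h5', h6'⟩
      rw [← h6, ← h6']
      exact fb_one h h4 h5 h4' h5'
    · refine le_trans (Set.ncard_union_le _ _) (Nat.add_le_add ?_ ?_)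
      · refine le_trans ?_ hm
        apply Set.ncard_le_ncard_of_injOn (fun y => G.blw y)
        · intro y hy
          exact hy
        · intro y _ y' _ he
          exact congrArg Prod.fst he
      · exact le_trans (Set.ncard_image_le (Set.toFinite _)) hHNc
  -- the remaining pairs
  have hrest : ∀ q ∈ P, q.1 ∉ σ.S → vq q ∉ HN →
      (∃ τ, G.tau1 (vq q) ≤ τ ∧ τ ≤ G.t (G.lo (vq q)) ∧ q.2 = G.ub (G.lo (vq q)) τ) ∧ G.flh (vq q) ∈ Y ∧
      G.lo (vq q) ∉ σ.S ∧ ¬ hrm G σ m0 ω z (dl K) W (vq q) := by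
    intro q hq hqS hqH
    have hp := hq2 q hq
    rw [hq1 q hq] at hqS
    have hvi := inn_of hI hp.B.2
    have l1 : lam G σ ω (vq q) = G.lo (vq q) := by
      rw [← hf.2 _ hp.B]; exact hp.lo
    have hxB : OnB G σ ω z (G.lo (vq q)) := by
      refine ⟨?_, hqS⟩
      rw [← l1]
      exact orb_trans hp.B.1 ⟨1, rfl⟩
    have hxW := hWmax _ hxB hp.tT
    have hvx := t_lo G hvi
    have hvW : G.t (vq q) < G.t W := by omega
    have hnH : ¬ hrm G σ m0 ω z (dl K) W (vq q) := fun h4 => hqH (Or.inl ⟨hvW, h4⟩)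
    have hnN : ¬ Crs G σ m0 ω z K B (vq q) := fun h4 => hqH (Or.inr h4)
    obtain ⟨τ, h5, h6, h7⟩ := hp.hd
    have h8 := short h hf hπ hBt hp hqS hT hW hWT hvW hnH hnN h5 h6 h7
    refine ⟨⟨τ, h8, h6, h7⟩, ?_, hqS, hnH⟩
    rcases long h hk hf hπ hA hp hqS hT hW hWT hvW hnH h8 h6 h7 with h9 | h9 | ⟨v', h9, h10, h11⟩
    · exact Or.inl h9
    · exact Or.inr (Or.inl h9)
    · refine Or.inr (Or.inr ⟨v', ?_, h10⟩)
      rcases h11 with h11 | h11
      · exact Or.inl ⟨h9, h11⟩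
      · exact Or.inr h11
  -- the four classes
  have hc2 : (P.filter (fun q => vq q ∈ HN)).card ≤ (K + 1) * (Λ + 1) := by
    refine le_trans ?_ hHNc
    rw [Set.ncard_eq_toFinset_card _ (Set.toFinite HN)]
    apply Finset.card_le_card_of_injOn vq
    · intro q hq
      have := (Finset.mem_filter.1 hq).2
      exact (Set.Finite.mem_toFinset (Set.toFinite _)).2 this
    · intro q hq q' hq' he
      have m1 := (Finset.mem_filter.1 hq).1
      have m2 := (Finset.mem_filter.1 hq').1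
      apply hP1 q m1 q' m2
      rw [hq1 q m1, hq1 q' m2, he]
  have hc3 : (P.filter (fun q => q.1 ∉ σ.S ∧ vq q ∉ HN ∧ q.2 = G.flh (vq q))).card ≤
      1 + (m + (K + 1) * (Λ + 1)) := by
    refine le_trans ?_ hYc
    rw [Set.ncard_eq_toFinset_card _ (Set.toFinite Y)]
    apply Finset.card_le_card_of_injOn (fun q => q.2)
    · intro q hq
      obtain ⟨m1, m2, m3, m4⟩ := Finset.mem_filter.1 hq
      have := (hrest q m1 m2 m3).2.1
      rw [← m4] at this
      exact (Set.Finite.mem_toFinset (Set.toFinite _)).2 this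
    · intro q hq q' hq' he
      have m1 := (Finset.mem_filter.1 hq).1
      have m2 := (Finset.mem_filter.1 hq').1
      exact hP2 q m1 q' m2 he
  have hc4 : (P.filter (fun q => q.1 ∉ σ.S ∧ vq q ∉ HN ∧ q.2 ≠ G.flh (vq q))).card ≤
      1 + (m + (K + 1) * (Λ + 1)) := by
    refine le_trans ?_ hYc
    rw [Set.ncard_eq_toFinset_card _ (Set.toFinite Y)]
    apply Finset.card_le_card_of_injOn (fun q => G.flh (vq q))
    · intro q hq
      obtain ⟨m1, m2, m3, m4⟩ := Finset.mem_filter.1 hq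
      have := (hrest q m1 m2 m3).2.1
      exact (Set.Finite.mem_toFinset (Set.toFinite _)).2 this
    · intro q hq q' hq' he
      obtain ⟨m1, m2, m3, m4⟩ := Finset.mem_filter.1 hq
      obtain ⟨n1, n2, n3, n4⟩ := Finset.mem_filter.1 hq'
      have he : G.flh (vq q) = G.flh (vq q') := he
      obtain ⟨⟨τ, r1, r2, r3⟩, -, r4, r5⟩ := hrest q m1 m2 m3
      obtain ⟨⟨τ', s1, s2, s3⟩, -, s4, s5⟩ := hrest q' n1 n2 n3
      apply hP1 q m1 q' n1
      rw [hq1 q m1, hq1 q' n1]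
      rcases lt_trichotomy (G.t (vq q)) (G.t (vq q')) with h4 | h4 | h4
      · exact absurd (pocket h hd hle hf hπ (hq2 q m1) r4 hT ((hq2 q' n1).dst hf s4) (hq2 q' n1).tT h4 he
          r5 r1 r2 r3) m4
      · rw [G.t_inj h4]
      · exact absurd (pocket h hd hle hf hπ (hq2 q' n1) s4 hT ((hq2 q m1).dst hf r4) (hq2 q m1).tT h4 he.symm
          s5 s1 s2 s3) n4
  have hcov : P ⊆ P.filter (fun q => q.1 ∈ σ.S) ∪ (P.filter (fun q => vq q ∈ HN) ∪
      (P.filter (fun q => q.1 ∉ σ.S ∧ vq q ∉ HN ∧ q.2 = G.flh (vq q)) ∪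
       P.filter (fun q => q.1 ∉ σ.S ∧ vq q ∉ HN ∧ q.2 ≠ G.flh (vq q)))) := by
    intro q hq
    simp only [Finset.mem_union, Finset.mem_filter]
    by_cases c1 : q.1 ∈ σ.S
    · exact Or.inl ⟨hq, c1⟩
    by_cases c2 : vq q ∈ HN
    · exact Or.inr (Or.inl ⟨hq, c2⟩)
    by_cases c3 : q.2 = G.flh (vq q)
    · exact Or.inr (Or.inr (Or.inl ⟨hq, c1, c2, c3⟩))
    · exact Or.inr (Or.inr (Or.inr ⟨hq, c1, c2, c3⟩))
  have hfin := Finset.card_le_card hcov
  have g1 := Finset.card_union_le (P.filter (fun q => q.1 ∈ σ.S)) (P.filter (fun q => vq q ∈ HN) ∪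
      (P.filter (fun q => q.1 ∉ σ.S ∧ vq q ∉ HN ∧ q.2 = G.flh (vq q)) ∪
       P.filter (fun q => q.1 ∉ σ.S ∧ vq q ∉ HN ∧ q.2 ≠ G.flh (vq q))))
  have g2 := Finset.card_union_le (P.filter (fun q => vq q ∈ HN))
      (P.filter (fun q => q.1 ∉ σ.S ∧ vq q ∉ HN ∧ q.2 = G.flh (vq q)) ∪
       P.filter (fun q => q.1 ∉ σ.S ∧ vq q ∉ HN ∧ q.2 ≠ G.flh (vq q)))
  have g3 := Finset.card_union_le (P.filter (fun q => q.1 ∉ σ.S ∧ vq q ∉ HN ∧ q.2 = G.flh (vq q)))
      (P.filter (fun q => q.1 ∉ σ.S ∧ vq q ∉ HN ∧ q.2 ≠ G.flh (vq q)))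
  unfold own
  omega

end Pool.Agent.W_a4f561_E.Own58
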