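import Mathlib

/-!
MP_a4f561_co, helper26's proof, section 4 (pockets): the pure order part (helper33).
Every vertex `v` is a bar: it is alive on `[b v, t v]`; `V` is linearly ordered.
`HP33` = a host path; `Nx33 x y τ` = `x`, `y` are consecutive at time `τ`.
-/

set_option autoImplicit false

namespace Pool.Agent.W_a4f561_E

variable {V : Type} [LinearOrder V]

/-- `v` is alive at time `τ`. -/
def Al33 (b t : V → ℕ) (v : V) (τ : ℕ) : Prop := b v ≤ τ ∧ τ ≤ t v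

/-- `x < y` are consecutive at time `τ`. -/
def Nx33 (b t : V → ℕ) (x y : V) (τ : ℕ) : Prop :=
  Al33 b t x τ ∧ Al33 b t y τ ∧ x < y ∧ ∀ z, Al33 b t z τ → x < z → z < y → False

/-- Two bars which end at the same time end at the end of the world. -/
def Inj33 (t : V → ℕ) (N : ℕ) : Prop := ∀ u v, u ≠ v → t u = t v → N ≤ t u

/-- A host path on the times `a .. e`. -/
structure HP33 (b t : V → ℕ) (Q : ℕ → V) (a e : ℕ) : Prop where
  al : ∀ τ, a ≤ τ → τ ≤ e → Al33 b t (Q τ) τ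
  stay : ∀ τ, a ≤ τ → τ < e → τ < t (Q τ) → Q (τ + 1) = Q τ
  step : ∀ τ, a ≤ τ → τ < e → t (Q τ) = τ →
    Nx33 b t (Q (τ + 1)) (Q τ) τ ∨ Nx33 b t (Q τ) (Q (τ + 1)) τ

variable {b t : V → ℕ} {N : ℕ} {P Q : ℕ → V} {a e : ℕ}

theorem HP33.mono {a' e' : ℕ} (h : HP33 b t Q a e) (ha : a ≤ a')
    (he : e' ≤ e) : HP33 b t Q a' e' where
  al := fun τ h1 h2 => h.al τ (ha.trans h1) (h2.trans he)
  stay := fun τ h1 h2 => h.stay τ (ha.trans h1) (h2.trans_le he)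
  step := fun τ h1 h2 => h.step τ (ha.trans h1) (h2.trans_le he)

/-- A bar is a host path. -/
theorem HP33.const (y : V) (ha : b y ≤ a) (he : e ≤ t y) :
    HP33 b t (fun _ => y) a e where
  al := fun _ h1 h2 => ⟨ha.trans h1, h2.trans he⟩
  stay := fun _ _ _ _ => rfl
  step := fun τ _ h2 h3 => by
    have h4 : t y = τ := h3
    omega

/-- One step of two host paths. -/
theorem HP33.step_le (hinj : Inj33 t N) (hP : HP33 b t P a e) (hQ : HP33 b t Q a e) (he : e ≤ N)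
    {τ : ℕ} (h1 : a ≤ τ) (h2 : τ < e) (h : P τ < Q τ) : P (τ + 1) ≤ Q (τ + 1) := by
  have aP := hP.al τ h1 h2.le
  have aQ := hQ.al τ h1 h2.le
  rcases aP.2.lt_or_eq with h3 | h3
  · rw [hP.stay τ h1 h2 h3]
    rcases aQ.2.lt_or_eq with h4 | h4
    · rw [hQ.stay τ h1 h2 h4]
      exact h.le
    · rcases hQ.step τ h1 h2 h4.symm with h5 | h5
      · by_contra hc
        exact h5.2.2.2 (P τ) aP (not_le.1 hc) h
      · exact h.le.trans h5.2.2.1.le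
  · rcases aQ.2.lt_or_eq with h4 | h4
    · rw [hQ.stay τ h1 h2 h4]
      rcases hP.step τ h1 h2 h3.symm with h5 | h5
      · exact h5.2.2.1.le.trans h.le
      · by_contra hc
        exact h5.2.2.2 (Q τ) aQ h (not_le.1 hc)
    · have := hinj _ _ h.ne (h3.symm.trans h4)
      omega

/-- Order principle: host paths which never meet keep their order. -/
theorem HP33.lt_of_ne (hinj : Inj33 t N) (hP : HP33 b t P a e) (hQ : HP33 b t Q a e) (he : e ≤ N)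
    (h : P a < Q a) (hne : ∀ τ, a ≤ τ → τ ≤ e → P τ ≠ Q τ) :
    ∀ τ, a ≤ τ → τ ≤ e → P τ < Q τ := by
  intro τ h1
  induction τ, h1 using Nat.le_induction with
  | base => exact fun _ => h
  | succ τ h1 ih =>
    intro h2
    exact lt_of_le_of_ne (HP33.step_le hinj hP hQ he h1 (by omega) (ih (by omega)))
      (hne _ (by omega) h2)

/-- Order principle, backward. -/
theorem HP33.lt_of_ne' (hinj : Inj33 t N) (hP : HP33 b t P a e) (hQ : HP33 b t Q a e) (he : e ≤ N)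
    {τ : ℕ} (_h1 : a ≤ τ) (h2 : τ ≤ e) (h : P τ < Q τ)
    (hne : ∀ σ, a ≤ σ → σ ≤ τ → P σ ≠ Q σ) : ∀ σ, a ≤ σ → σ ≤ τ → P σ < Q σ := by
  intro σ h3 h4
  rcases lt_trichotomy (P σ) (Q σ) with h5 | h5 | h5
  · exact h5
  · exact (hne σ h3 h4 h5).elim
  · have h6 := HP33.lt_of_ne hinj (hQ.mono (a' := σ) (e' := τ) h3 h2)
      (hP.mono (a' := σ) (e' := τ) h3 h2) (by omega) h5
      (fun ρ h7 h8 => (hne ρ (h3.trans h7) h8).symm) τ h4 le_rfl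
    exact (lt_asymm h h6).elim

/-- Order principle: two host paths which cross meet. -/
theorem HP33.meet (hinj : Inj33 t N) (hP : HP33 b t P a e) (hQ : HP33 b t Q a e) (he : e ≤ N)
    (hae : a ≤ e) (h : P a ≤ Q a) (h' : Q e ≤ P e) : ∃ τ, a ≤ τ ∧ τ ≤ e ∧ P τ = Q τ := by
  by_contra hc
  push Not at hc
  have h1 : P a < Q a := lt_of_le_of_ne h (hc a le_rfl hae)
  exact absurd (HP33.lt_of_ne hinj hP hQ he h1 hc e hae le_rfl) (not_lt.2 h')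

/-- A host path which stands on `y` stays there while `y` is alive. -/
theorem HP33.stay_on (hQ : HP33 b t Q a e) {τ σ : ℕ} (h1 : a ≤ τ) (h2 : τ ≤ σ) (h3 : σ ≤ e)
    (h4 : σ ≤ t (Q τ)) : Q σ = Q τ := by
  induction σ, h2 using Nat.le_induction with
  | base => rfl
  | succ σ h2 ih =>
    have h5 := ih (by omega) (by omega)
    rw [← h5]
    exact hQ.stay σ (by omega) (by omega) (by rw [h5]; omega)

/-- A pocket of the path `Q` under the barrier `y` between two touches. -/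
structure Pk33 (b t : V → ℕ) (Q : ℕ → V) (y : V) (τ₁ τ₂ : ℕ) : Prop where
  hp : HP33 b t Q τ₁ τ₂
  lt : τ₁ < τ₂
  ne : Q τ₂ < y
  n1 : Nx33 b t (Q τ₁) y τ₁
  n2 : Nx33 b t (Q τ₂) y τ₂
  l2 : t (Q τ₂) < t y

/-- `u` is in the pocket at time `τ`. -/
def InPk33 (b t : V → ℕ) (Q : ℕ → V) (y : V) (τ₁ τ₂ : ℕ) (u : V) (τ : ℕ) : Prop :=
  τ₁ < τ ∧ τ < τ₂ ∧ Al33 b t u τ ∧ Q τ < u ∧ u < y

/-- The mirror: a pocket of the path `Q` over the barrier `y`. -/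
structure Pk33' (b t : V → ℕ) (Q : ℕ → V) (y : V) (τ₁ τ₂ : ℕ) : Prop where
  hp : HP33 b t Q τ₁ τ₂
  lt : τ₁ < τ₂
  ne : y < Q τ₂
  n1 : Nx33 b t y (Q τ₁) τ₁
  n2 : Nx33 b t y (Q τ₂) τ₂
  l2 : t (Q τ₂) < t y

def InPk33' (b t : V → ℕ) (Q : ℕ → V) (y : V) (τ₁ τ₂ : ℕ) (u : V) (τ : ℕ) : Prop :=
  τ₁ < τ ∧ τ < τ₂ ∧ Al33 b t u τ ∧ y < u ∧ u < Q τ

theorem nx_dual33 {x y : V} {τ : ℕ} :
    Nx33 (V := Vᵒᵈ) b t y x τ ↔ Nx33 b t x y τ := by
  constructor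
  · rintro ⟨h1, h2, h3, h4⟩
    exact ⟨h2, h1, h3, fun z hz h5 h6 => h4 z hz h6 h5⟩
  · rintro ⟨h1, h2, h3, h4⟩
    exact ⟨h2, h1, h3, fun z hz h5 h6 => h4 z hz h6 h5⟩

theorem hp_dual33 (h : HP33 b t Q a e) : HP33 (V := Vᵒᵈ) b t Q a e where
  al := h.al
  stay := h.stay
  step := fun τ h1 h2 h3 => (h.step τ h1 h2 h3).symm.imp nx_dual33.2 nx_dual33.2

theorem pk_dual33 {y : V} {τ₁ τ₂ : ℕ} (h : Pk33' b t Q y τ₁ τ₂) :
    Pk33 (V := Vᵒᵈ) b t Q y τ₁ τ₂ where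
  hp := hp_dual33 h.hp
  lt := h.lt
  ne := h.ne
  n1 := nx_dual33.2 h.n1
  n2 := nx_dual33.2 h.n2
  l2 := h.l2

section pocket

variable {y : V} {τ₁ τ₂ : ℕ}

theorem Pk33.y_al (k : Pk33 b t Q y τ₁ τ₂) {τ : ℕ} (h1 : τ₁ ≤ τ) (h2 : τ ≤ τ₂) :
    Al33 b t y τ := ⟨k.n1.2.1.1.trans h1, h2.trans k.n2.2.1.2⟩

theorem Pk33.y_hp (k : Pk33 b t Q y τ₁ τ₂) : HP33 b t (fun _ => y) τ₁ τ₂ :=
  HP33.const y k.n1.2.1.1 k.n2.2.1.2

/-- The path stays below the barrier. -/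
theorem Pk33.q_lt (hinj : Inj33 t N) (k : Pk33 b t Q y τ₁ τ₂) (hN : τ₂ ≤ N) {τ : ℕ}
    (h1 : τ₁ ≤ τ) (h2 : τ ≤ τ₂) : Q τ < y := by
  refine HP33.lt_of_ne hinj k.hp k.y_hp hN k.n1.2.2.1 ?_ τ h1 h2
  intro σ h3 h4 h5
  have h5' : Q σ = y := h5
  have h6 := k.hp.stay_on h3 h4 le_rfl (by rw [h5']; exact k.n2.2.1.2)
  exact k.ne.ne (h6.trans h5')

/-- (P0) a vertex of the pocket which is not on the path is born and dead inside. -/
theorem Pk33.born_dead (hinj : Inj33 t N) (k : Pk33 b t Q y τ₁ τ₂) (hN : τ₂ ≤ N) {u : V} {τ : ℕ}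
    (hu : InPk33 b t Q y τ₁ τ₂ u τ) (hQ : ∀ σ, τ₁ ≤ σ → σ ≤ τ₂ → Q σ ≠ u) :
    τ₁ < b u ∧ t u < τ₂ := by
  obtain ⟨h1, h2, h3, h4, h5⟩ := hu
  constructor
  · by_contra hc
    push Not at hc
    have hb : HP33 b t (fun _ => u) τ₁ τ := HP33.const u hc h3.2
    have h6 := HP33.lt_of_ne' hinj (k.hp.mono le_rfl h2.le) hb (by omega) h1.le le_rfl h4
      (fun σ h7 h8 => hQ σ h7 (by omega)) τ₁ le_rfl h1.le
    exact k.n1.2.2.2 u ⟨hc, h1.le.trans h3.2⟩ h6 h5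
  · by_contra hc
    push Not at hc
    have hb : HP33 b t (fun _ => u) τ τ₂ := HP33.const u h3.1 hc
    have h6 := HP33.lt_of_ne hinj (k.hp.mono h1.le le_rfl) hb (by omega) h4
      (fun σ h7 h8 => hQ σ (by omega) h8) τ₂ h2.le le_rfl
    exact k.n2.2.2.2 u ⟨h3.1.trans h2.le, hc⟩ h6 h5

/-- The barrier outlives the lower neighbour of a pocket vertex. -/
theorem Pk33.lo_lt (hinj : Inj33 t N) (k : Pk33 b t Q y τ₁ τ₂) (hN : τ₂ ≤ N) {u x : V} {τ : ℕ}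
    (hu : InPk33 b t Q y τ₁ τ₂ u τ) (hx : Nx33 b t x u τ) : t x < t y := by
  obtain ⟨h1, h2, h3, h4, h5⟩ := hu
  have hQx : Q τ ≤ x := by
    by_contra hc
    exact hx.2.2.2 (Q τ) (k.hp.al τ h1.le h2.le) (not_le.1 hc) h4
  by_cases hc : t x < τ₂
  · exact hc.trans_le k.n2.2.1.2
  · push Not at hc
    have hb : HP33 b t (fun _ => x) τ τ₂ := HP33.const x hx.1.1 hc
    have hxy : x < y := hx.2.2.1.trans h5
    have h6 : x ≤ Q τ₂ := by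
      by_contra hd
      exact k.n2.2.2.2 x ⟨hx.1.1.trans h2.le, hc⟩ (not_le.1 hd) hxy
    obtain ⟨σ, h7, h8, h9⟩ := HP33.meet hinj (k.hp.mono h1.le le_rfl) hb hN h2.le hQx h6
    have h9' : Q σ = x := h9
    have h10 := k.hp.stay_on (by omega) h8 le_rfl (by rw [h9']; exact hc)
    have h11 : Q τ₂ = x := h10.trans h9'
    rw [← h11]
    exact k.l2

/-- Mirror of `lo_lt`. -/
theorem Pk33'.up_lt (hinj : Inj33 t N) (k : Pk33' b t Q y τ₁ τ₂) (hN : τ₂ ≤ N) {u x : V} {τ : ℕ}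
    (hu : InPk33' b t Q y τ₁ τ₂ u τ) (hx : Nx33 b t u x τ) : t x < t y :=
  Pk33.lo_lt (V := Vᵒᵈ) hinj (pk_dual33 k) hN
    ⟨hu.1, hu.2.1, hu.2.2.1, hu.2.2.2.2, hu.2.2.2.1⟩ (nx_dual33.2 hx)

/-- (P3) a vertex is never declared down by one pocket and up by another one. -/
theorem pk_noconf33 (hinj : Inj33 t N) {Q' : ℕ → V} {y' : V} {σ₁ σ₂ : ℕ}
    (k : Pk33 b t Q y τ₁ τ₂) (hN : τ₂ ≤ N) (k' : Pk33' b t Q' y' σ₁ σ₂) (hN' : σ₂ ≤ N) {u : V}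
    {τ : ℕ} (hu : InPk33 b t Q y τ₁ τ₂ u τ) (hu' : InPk33' b t Q' y' σ₁ σ₂ u τ)
    (hup : Nx33 b t u y τ) (hlo : Nx33 b t y' u τ) : False :=
  lt_asymm (k.lo_lt hinj hN hu hlo) (k'.up_lt hinj hN' hu' hup)

/-- (P2), (P4): a host path `R` which is in the pocket at time `τ` and never steps from a pocket
vertex onto the barrier meets the path of the pocket before the pocket ends. -/
theorem Pk33.meets (hinj : Inj33 t N) (k : Pk33 b t Q y τ₁ τ₂) (hN : τ₂ ≤ N) {R : ℕ → V} {τ : ℕ}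
    (hR : HP33 b t R τ τ₂) (hu : InPk33 b t Q y τ₁ τ₂ (R τ) τ)
    (hd : ∀ σ, τ ≤ σ → σ < τ₂ → t (R σ) = σ → InPk33 b t Q y τ₁ τ₂ (R σ) σ →
      Nx33 b t (R σ) y σ → R (σ + 1) ≠ y) :
    ∃ σ, τ ≤ σ ∧ σ ≤ τ₂ ∧ R σ = Q σ := by
  by_contra hc
  push Not at hc
  have h1 : ∀ σ, τ ≤ σ → σ ≤ τ₂ → Q σ < R σ :=
    HP33.lt_of_ne hinj (k.hp.mono hu.1.le le_rfl) hR hN hu.2.2.2.1
      (fun σ h3 h4 => (hc σ h3 h4).symm)
  have h2 : ∀ σ, τ ≤ σ → σ ≤ τ₂ → R σ < y := by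
    intro σ h3
    induction σ, h3 using Nat.le_induction with
    | base => exact fun _ => hu.2.2.2.2
    | succ σ h3 ih =>
      intro h4
      have h5 := ih (by omega)
      have h6 := HP33.step_le hinj hR (HP33.const (b := b) (t := t) y (a := τ) (e := τ₂)
        (k.n1.2.1.1.trans hu.1.le) k.n2.2.1.2) hN h3 (by omega) h5
      refine lt_of_le_of_ne h6 fun h7 => ?_
      have h7' : R (σ + 1) = y := h7
      have haR := hR.al σ h3 (by omega)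
      rcases haR.2.lt_or_eq with h8 | h8
      · rw [hR.stay σ h3 (by omega) h8] at h7'
        exact h5.ne h7'
      · have hin : InPk33 b t Q y τ₁ τ₂ (R σ) σ :=
          ⟨by have := hu.1; omega, by omega, haR, h1 σ h3 (by omega), h5⟩
        refine hd σ h3 (by omega) h8.symm hin ?_ h7'
        rcases hR.step σ h3 (by omega) h8.symm with h9 | h9
        · rw [h7'] at h9
          exact (lt_asymm h5 h9.2.2.1).elim
        · rw [h7'] at h9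
          exact h9
  exact k.n2.2.2.2 (R τ₂) (hR.al τ₂ (by have := hu.2.1; omega) le_rfl)
    (h1 τ₂ hu.2.1.le le_rfl) (h2 τ₂ hu.2.1.le le_rfl)

/-- (P4) a host path which avoids `Q` and is in the pocket at time `τ` was in the pocket at all
earlier times at which it is defined, and it started after the first touch. -/
theorem Pk33.always (hinj : Inj33 t N) (k : Pk33 b t Q y τ₁ τ₂) (hN : τ₂ ≤ N) {R : ℕ → V}
    {τ a : ℕ} (hR : HP33 b t R a τ) (hu : InPk33 b t Q y τ₁ τ₂ (R τ) τ)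
    (hne : ∀ σ, a ≤ σ → σ ≤ τ → τ₁ ≤ σ → R σ ≠ Q σ) :
    τ₁ < a ∧ ∀ σ, a ≤ σ → σ ≤ τ → InPk33 b t Q y τ₁ τ₂ (R σ) σ := by
  have hτ1 := hu.1
  have hτ2 := hu.2.1
  -- the statement on times after the first touch
  have key : ∀ σ, a ≤ σ → σ ≤ τ → τ₁ ≤ σ → Q σ < R σ ∧ R σ < y := by
    intro σ h1 h2 h3
    constructor
    · exact HP33.lt_of_ne' hinj (k.hp.mono (a' := σ) (e' := τ) h3 hτ2.le)
        (hR.mono (a' := σ) (e' := τ) h1 le_rfl) (by omega) h2 le_rfl hu.2.2.2.1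
        (fun ρ h4 h5 => (hne ρ (by omega) h5 (by omega)).symm) σ le_rfl h2
    · refine HP33.lt_of_ne' hinj (hR.mono (a' := σ) (e' := τ) h1 le_rfl)
        (HP33.const (b := b) (t := t) y (a := σ) (e := τ) (k.n1.2.1.1.trans h3)
          (hτ2.le.trans k.n2.2.1.2)) (by omega) h2 le_rfl hu.2.2.2.2 ?_ σ le_rfl h2
      intro ρ h4 h5 h6
      have h6' : R ρ = y := h6
      have h7 := hR.stay_on (by omega) h5 le_rfl
        (by rw [h6']; exact hτ2.le.trans k.n2.2.1.2)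
      exact hu.2.2.2.2.ne (h7.trans h6')
  have ha : τ₁ < a := by
    by_contra hc
    push Not at hc
    have h1 := key τ₁ hc hτ1.le le_rfl
    exact k.n1.2.2.2 (R τ₁) (hR.al τ₁ hc hτ1.le) h1.1 h1.2
  refine ⟨ha, fun σ h1 h2 => ?_⟩
  have h3 := key σ h1 h2 (by omega)
  exact ⟨by omega, by omega, hR.al σ h1 h2, h3.1, h3.2⟩

/-- (P1) a host path `R` which is in the pocket at time `τ` and never meets the path of the pocket
steps from a vertex of the pocket onto the barrier before the pocket ends. -/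
theorem Pk33.steps (hinj : Inj33 t N) (k : Pk33 b t Q y τ₁ τ₂) (hN : τ₂ ≤ N) {R : ℕ → V} {τ : ℕ}
    (hR : HP33 b t R τ τ₂) (hu : InPk33 b t Q y τ₁ τ₂ (R τ) τ)
    (hne : ∀ σ, τ ≤ σ → σ ≤ τ₂ → R σ ≠ Q σ) :
    ∃ σ, τ ≤ σ ∧ σ < τ₂ ∧ t (R σ) = σ ∧ InPk33 b t Q y τ₁ τ₂ (R σ) σ ∧
      Nx33 b t (R σ) y σ ∧ R (σ + 1) = y := by
  by_contra hc
  push Not at hc
  obtain ⟨σ, h1, h2, h3⟩ := k.meets hinj hN hR hu hc
  exact hne σ h1 h2 h3

/-- A path which is in the pocket stays in it as long as it avoids `Q` and does not step onto the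
barrier, and it is over before the pocket ends. -/
theorem Pk33.after (hinj : Inj33 t N) (k : Pk33 b t Q y τ₁ τ₂) (hN : τ₂ ≤ N) {R : ℕ → V}
    {τ e : ℕ} (hR : HP33 b t R τ e) (hu : InPk33 b t Q y τ₁ τ₂ (R τ) τ)
    (hne : ∀ σ, τ ≤ σ → σ ≤ e → σ ≤ τ₂ → R σ ≠ Q σ)
    (hd : ∀ σ, τ ≤ σ → σ < e → t (R σ) = σ → InPk33 b t Q y τ₁ τ₂ (R σ) σ →
      Nx33 b t (R σ) y σ → R (σ + 1) ≠ y) :
    e < τ₂ ∧ ∀ σ, τ ≤ σ → σ ≤ e → InPk33 b t Q y τ₁ τ₂ (R σ) σ := by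
  have he : e < τ₂ := by
    by_contra hc
    push Not at hc
    obtain ⟨σ, h1, h2, h3⟩ := k.meets hinj hN (hR.mono le_rfl hc) hu
      (fun σ h1 h2 => hd σ h1 (by omega))
    exact hne σ h1 (by omega) h2 h3
  refine ⟨he, ?_⟩
  intro σ h3
  induction σ, h3 using Nat.le_induction with
  | base => exact fun _ => hu
  | succ σ h3 ih =>
    intro h4
    have h5 := ih (by omega)
    have h6 := HP33.step_le hinj hR (HP33.const (b := b) (t := t) y (a := τ) (e := e)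
      (k.n1.2.1.1.trans hu.1.le) (he.le.trans k.n2.2.1.2)) (by omega) h3 (by omega) h5.2.2.2.2
    have h7 := HP33.step_le hinj (k.hp.mono (a' := τ) (e' := e) hu.1.le he.le) hR (by omega) h3
      (by omega) h5.2.2.2.1
    refine ⟨by have := hu.1; omega, by omega, hR.al _ (by omega) h4,
      lt_of_le_of_ne h7 (hne _ (by omega) h4 (by omega)).symm, lt_of_le_of_ne h6 fun h8 => ?_⟩
    have h8' : R (σ + 1) = y := h8
    rcases h5.2.2.1.2.lt_or_eq with h9 | h9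
    · rw [hR.stay σ h3 (by omega) h9] at h8'
      exact h5.2.2.2.2.ne h8'
    · refine hd σ h3 (by omega) h9.symm h5 ?_ h8'
      rcases hR.step σ h3 (by omega) h9.symm with h10 | h10
      · rw [h8'] at h10
        exact (lt_asymm h5.2.2.2.2 h10.2.2.1).elim
      · rw [h8'] at h10
        exact h10

/-- (P5) two pockets which force the same host path have the same barrier.  `w` is the host of
the path or its upper neighbour. -/
theorem pk_forced33 (hinj : Inj33 t N) {Q₁ Q₂ : ℕ → V} {y₁ y₂ : V} {α₁ β₁ α₂ β₂ : ℕ}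
    (k₁ : Pk33 b t Q₁ y₁ α₁ β₁) (hN₁ : β₁ ≤ N) (k₂ : Pk33 b t Q₂ y₂ α₂ β₂) (hN₂ : β₂ ≤ N)
    {R : ℕ → V} {s₁ s₂ : ℕ} (hs : s₁ ≤ s₂) (hR : HP33 b t R s₁ s₂)
    (hne₁ : ∀ σ, s₁ ≤ σ → σ ≤ s₂ → σ ≤ β₁ → R σ ≠ Q₁ σ)
    (hne₂ : ∀ σ, s₁ ≤ σ → σ ≤ s₂ → α₂ ≤ σ → R σ ≠ Q₂ σ)
    (hd : ∀ σ, s₁ ≤ σ → σ < s₂ → t (R σ) = σ → InPk33 b t Q₁ y₁ α₁ β₁ (R σ) σ →
      Nx33 b t (R σ) y₁ σ → R (σ + 1) ≠ y₁)
    {w₁ w₂ : V} (hR₁ : InPk33 b t Q₁ y₁ α₁ β₁ (R s₁) s₁) (hR₂ : InPk33 b t Q₂ y₂ α₂ β₂ (R s₂) s₂)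
    (hw₁ : w₁ = R s₁ ∨ Nx33 b t (R s₁) w₁ s₁) (hw₂ : w₂ = R s₂ ∨ Nx33 b t (R s₂) w₂ s₂)
    (ht₁ : t w₁ = s₁) (ht₂ : t w₂ = s₂) (hy₁ : Nx33 b t w₁ y₁ s₁) (hy₂ : Nx33 b t w₂ y₂ s₂) :
    y₁ = y₂ := by
  have h1 := (k₁.after hinj hN₁ hR hR₁ hne₁ hd).2 s₂ hs le_rfl
  have h2 := (k₂.always hinj hN₂ hR hR₂ hne₂).2 s₁ le_rfl hs
  have key : ∀ {s : ℕ} {w y z : V} {γ : ℕ}, (w = R s ∨ Nx33 b t (R s) w s) → t w = s →
      Nx33 b t w y s → Al33 b t z s → R s < z → s < γ → γ ≤ t z → y ≤ z := by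
    intro s w y z γ h3 h4 h5 h6 h7 h8 h9
    by_contra hc
    push Not at hc
    rcases lt_trichotomy w z with h10 | h10 | h10
    · exact h5.2.2.2 z h6 h10 hc
    · rw [h10] at h4; omega
    · rcases h3 with h3 | h3
      · rw [h3] at h10; exact lt_asymm h7 h10
      · exact h3.2.2.2 z h6 h7 h10
  apply le_antisymm
  · exact key hw₁ ht₁ hy₁ ⟨k₂.n1.2.1.1.trans h2.1.le, h2.2.1.le.trans k₂.n2.2.1.2⟩ h2.2.2.2.2
      h2.2.1 k₂.n2.2.1.2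
  · exact key hw₂ ht₂ hy₂ ⟨k₁.n1.2.1.1.trans h1.1.le, h1.2.1.le.trans k₁.n2.2.1.2⟩ h1.2.2.2.2
      h1.2.1 k₁.n2.2.1.2

/-- (P6) the lower neighbour `x` of a pocket vertex `h` is the host of the path or in the
pocket. -/
theorem Pk33.lo_mem (k : Pk33 b t Q y τ₁ τ₂) {h x : V} {τ : ℕ}
    (hh : InPk33 b t Q y τ₁ τ₂ h τ) (hx : Nx33 b t x h τ) :
    x = Q τ ∨ InPk33 b t Q y τ₁ τ₂ x τ := by
  obtain ⟨h1, h2, h3, h4, h5⟩ := hh
  have hQx : Q τ ≤ x := by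
    by_contra hc
    exact hx.2.2.2 (Q τ) (k.hp.al τ h1.le h2.le) (not_le.1 hc) h4
  rcases hQx.lt_or_eq with h6 | h6
  · exact Or.inr ⟨h1, h2, hx.1, h6, hx.2.2.1.trans h5⟩
  · exact Or.inl h6.symm

/-- (P6) for the mirror pocket: the lower neighbour is the barrier or in the pocket. -/
theorem Pk33'.lo_mem (k : Pk33' b t Q y τ₁ τ₂) {h x : V} {τ : ℕ}
    (hh : InPk33' b t Q y τ₁ τ₂ h τ) (hx : Nx33 b t x h τ) :
    x = y ∨ InPk33' b t Q y τ₁ τ₂ x τ := by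
  obtain ⟨h1, h2, h3, h4, h5⟩ := hh
  have hy : Al33 b t y τ := ⟨k.n1.1.1.trans h1.le, h2.le.trans k.n2.1.2⟩
  have hQx : y ≤ x := by
    by_contra hc
    exact hx.2.2.2 y hy (not_le.1 hc) h4
  rcases hQx.lt_or_eq with h6 | h6
  · exact Or.inr ⟨h1, h2, hx.1, h6, hx.2.2.1.trans h5⟩
  · exact Or.inl h6.symm

end pocket

end Pool.Agent.W_a4f561_E
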