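import Pool.Agent.W_a4f561_h26.Evt
import Pool.Agent.W_a4f561_h26.Chn

/-!
MP_a4f561_co (EpsPages): one level of the recursion (helper58).
-/

set_option autoImplicit false

namespace Pool.Agent.W_a4f561_E.Stp58

open Pool.Agent.W_a4f561_h26

section Gen

variable {V : Type} {G : Bars V}

theorem orb_cl {π : V → V} {S : Set V} (hS : ∀ v ∈ S, π v ∈ S) {u v : V} (h : Orb π u v) (hu : u ∈ S) :
    v ∈ S := by
  obtain ⟨k, rfl⟩ := h
  induction k with
  | zero => exact hu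
  | succ k ih =>
    rw [Function.iterate_succ_apply']
    exact hS _ ih

theorem orb_congr {π ρ : V → V} {a : V} {u : V} (h : Orb π u a)
    (he : ∀ v, Orb π u v → Orb π v a → v ≠ a → ρ v = π v) : Orb ρ u a := by
  obtain ⟨k, hk⟩ := h
  induction k generalizing u with
  | zero => exact ⟨0, hk⟩
  | succ k ih =>
    by_cases hua : u = a
    · exact ⟨0, hua⟩
    · have h1 : ρ u = π u := he u ⟨0, rfl⟩ ⟨k + 1, hk⟩ hua
      rw [Function.iterate_succ_apply] at hk
      have h2 : Orb ρ (π u) a := by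
        apply ih _ hk
        intro v hv hva hne
        apply he v _ hva hne
        obtain ⟨j, hj⟩ := hv
        refine ⟨j + 1, ?_⟩
        rw [Function.iterate_succ_apply]
        exact hj
      obtain ⟨j, hj⟩ := h2
      refine ⟨j + 1, ?_⟩
      rw [Function.iterate_succ_apply, h1]
      exact hj

theorem lam_S {σ : St V} {ω : V × Bool → Bool} {v : V} (hv : v ∈ σ.S) : lam G σ ω v = σ.pi v := by
  have h : v ∈ σ.S ∪ σ.Dec := Or.inl hv
  unfold lam
  rw [if_pos h]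

theorem inn_of {σ : St V} (hI : Inv G σ) {v : V} (hv : v ∉ σ.S) : G.inn v :=
  ⟨fun h => hv (h ▸ hI.bot_mem), fun h => hv (h ▸ hI.top_mem)⟩

theorem t_pi {π : V → V} (hπ : Ch G π) {v : V} (hv : G.inn v) : G.t v < G.t (π v) := by
  rcases hπ.2.2 v hv with h | h
  · rw [h]; exact t_lo G hv
  · rw [h]; exact t_up G hv

/-- The exit of a successful route. -/
theorem suc_exit {σ : St V} (hI : Inv G σ) {ω : V × Bool → Bool} {z : V} (hz : z ∉ σ.S) {E : Set V}
    (hs : Suc G σ ω z E) :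
    ∃ a, OnB G σ ω z a ∧ lam G σ ω a ∈ E ∧ ∀ u, OnB G σ ω z u → Orb (lam G σ ω) u a := by
  classical
  have hcl : ∀ v ∈ σ.S, lam G σ ω v ∈ σ.S := by
    intro v hv
    rw [lam_S hv]
    exact hI.cl v hv
  obtain ⟨e, heE, heS, ⟨k, hk⟩, hmin⟩ := hs
  have hex : ∃ k, (lam G σ ω)^[k] z ∈ σ.S := ⟨k, by rw [hk]; exact heS⟩
  obtain ⟨k0, hk0, hlt⟩ : ∃ k0, (lam G σ ω)^[k0] z ∈ σ.S ∧ ∀ j, j < k0 → (lam G σ ω)^[j] z ∉ σ.S :=
    ⟨Nat.find hex, Nat.find_spec hex, fun j hj => Nat.find_min hex hj⟩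
  have hpos : k0 ≠ 0 := by
    rintro rfl
    exact hz hk0
  obtain ⟨j0, rfl⟩ := Nat.exists_eq_succ_of_ne_zero hpos
  have hle : j0 + 1 ≤ k := by
    by_contra hcon
    exact hlt k (by omega) (by rw [hk]; exact heS)
  have hch := ch_lam hI ω
  have e0 : (lam G σ ω)^[j0 + 1] z = e := by
    apply G.t_inj
    apply le_antisymm
    · apply orb_t hch
      refine ⟨k - (j0 + 1), ?_⟩
      rw [← Function.iterate_add_apply, Nat.sub_add_cancel hle]
      exact hk
    · exact hmin _ ⟨j0 + 1, rfl⟩ hk0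
  refine ⟨(lam G σ ω)^[j0] z, ⟨⟨j0, rfl⟩, hlt j0 (Nat.lt_succ_self _)⟩, ?_, ?_⟩
  · rw [Function.iterate_succ_apply'] at e0
    rw [e0]
    exact heE
  · rintro u ⟨⟨j, rfl⟩, huS⟩
    by_cases hj : j ≤ j0
    · refine ⟨j0 - j, ?_⟩
      rw [← Function.iterate_add_apply, Nat.sub_add_cancel hj]
    · exfalso
      apply huS
      have h1 : Orb (lam G σ ω) ((lam G σ ω)^[j0 + 1] z) ((lam G σ ω)^[j] z) := by
        refine ⟨j - (j0 + 1), ?_⟩
        rw [← Function.iterate_add_apply, Nat.sub_add_cancel (by omega)]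
      exact orb_cl hcl h1 hk0

theorem onB_mir {σ : St V} (hI : Inv G σ) {ω : V × Bool → Bool} {z v : V} :
    OnB G.mir σ.mir ω z v ↔ OnB G σ ω z v := by
  unfold OnB
  rw [lam_mir hI.bot_mem hI.top_mem]
  exact Iff.rfl

theorem le_trans' {σ σ' σ'' : St V} (h : Le σ σ') (h' : Le σ' σ'') : Le σ σ'' where
  S := h.S.trans h'.S
  Dec := h.Dec.trans h'.Dec
  pi := by
    intro v hv
    rw [h'.pi v, h.pi v hv]
    rcases hv with hv | hv
    · exact Or.inl (h.S hv)
    · exact Or.inr (h.Dec hv)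
  RD := h.RD.trans h'.RD
  RU := h.RU.trans h'.RU

theorem le_mir {σ σ' : St V} (h : Le σ σ') : Le σ.mir σ'.mir where
  S := h.S
  Dec := h.Dec
  pi := h.pi
  RD := h.RU
  RU := h.RD

theorem cb_le {π : V → V} {A : Set V} {C C' : ℕ} (h : CB G π A C) (hC : C ≤ C') : CB G π A C' :=
  fun p T P hT h1 h2 h3 => (h p T P hT h1 h2 h3).trans hC

theorem res_mono {σ σ' : St V} {tl Tm : ℕ} {z : V} {E : Set V} {C C' : ℕ} (h : Res G σ σ' tl Tm z E C)
    (hC : C ≤ C') : Res G σ σ' tl Tm z E C' where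
  le := h.le
  inv := h.inv
  lat := h.lat
  start := h.start
  exit := h.exit
  time := h.time
  recD := h.recD
  recU := h.recU
  cD := fun π hπ => cb_le (h.cD π hπ) hC
  cU := fun π hπ => cb_le (h.cU π hπ) hC

end Gen

variable {V : Type} [Fintype V] [DecidableEq V] {G : Bars V}

theorem pr_pos_ex {m : V × Bool → Option Bool} {A : (V × Bool → Bool) → Prop} (h : 0 < pr m A) :
    ∃ ω, A (ov m ω) := by
  classical
  by_contra hcon
  have hcon := not_exists.1 hcon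
  have : pr m A = 0 := by
    unfold pr
    rw [Finset.filter_false_of_mem (fun ω _ => hcon ω)]
    simp
  rw [this] at h
  exact lt_irrefl _ h

/-- Level 0 is empty: a block of length 1 contains no time strictly between its ends. -/
theorem ext_zero (G : Bars V) (κ : ℝ) (m C : ℕ) (hκ : 0 < κ) : EXT G 1 κ m C := by
  intro σ tl Tm z m0 E hI hL hz htl hb hE htE hm0 hm hk
  exfalso
  obtain ⟨ω, hω⟩ := pr_pos_ex (lt_of_lt_of_le hκ hk)
  obtain ⟨a, ha, haE, hall⟩ := suc_exit hI hz hω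
  have hch := ch_lam hI (ov m0 ω)
  have h1 : G.t z ≤ G.t a := orb_t hch ha.1
  have h2 : G.t a < G.t (lam G σ (ov m0 ω) a) := t_pi hch (inn_of hI ha.2)
  have h3 := htE _ haE
  obtain ⟨c, hc1, hc2⟩ := hb
  omega

theorem ext_anti {B : ℕ} {κ κ' : ℝ} {m m' C C' : ℕ} (h : EXT G B κ m C) (hκ : κ ≤ κ') (hm : m' ≤ m)
    (hC : C ≤ C') : EXT G B κ' m' C' := by
  intro σ tl Tm z m0 E hI hL hz htl hb hE htE hm0 hm1 hk
  obtain ⟨σ', hr⟩ := h σ tl Tm z m0 E hI hL hz htl hb hE htE hm0 (hm1.trans hm) (hκ.trans hk)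
  exact ⟨σ', res_mono hr hC⟩

/-- An event and its deadline are on the path. -/
theorem ev_onB {σ : St V} (hI : Inv G σ) {m0 : V × Bool → Option Bool} {ω : V × Bool → Bool} {z : V} {δ : ℝ}
    {e : Bool × Bool × V} {w : V} (h : Ev G σ m0 ω z δ e w) :
    OnB G σ ω z e.2.2 ∧ OnB G σ ω z w := by
  obtain ⟨b1, b2, v⟩ := e
  cases b1 <;> cases b2
  · have h' : dlA G σ m0 ω z δ v w := h
    exact ⟨h'.1.1.1, h'.2.1⟩
  · have h' : dlB G σ m0 ω z δ v w := h
    exact ⟨h'.1.1.1, h'.2.1⟩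
  · have h' : dlA G.mir σ.mir m0 ω z δ v w := h
    exact ⟨(onB_mir hI).1 h'.1.1.1, (onB_mir hI).1 h'.2.1⟩
  · have h' : dlB G.mir σ.mir m0 ω z δ v w := h
    exact ⟨(onB_mir hI).1 h'.1.1.1, (onB_mir hI).1 h'.2.1⟩

/-- ONE LEVEL. -/
theorem ext_step {B Λ K m C : ℕ} {κ : ℝ} (hB : 1 ≤ B)
    (hK : 2 * (Fintype.card V : ℝ) * (100 / 101 : ℝ) ^ (K + 1) < κ)
    (hE : EXT G B (dl K) (m + 2 * (K + 1)) C) : EXT G (Λ * B) κ m ((4 * K + 5) * C + own K m Λ) := by
  intro σ tl Tm z m0 E hI hL hz htl hb hEs htE hm0 hm1 hk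
  obtain ⟨ω, h⟩ := trunk G σ hI hL hz m0 hm0 hEs htE hK hk
  obtain ⟨σ1, hd⟩ := draw h
  obtain ⟨σk, idx, q, ev, dt, hT, hS⟩ := all_events hE h hm1 hd
  have hle : Le σ σk := le_trans' hd.le hT.stg.le
  have hch := ch_lam hI ω
  obtain ⟨a, ha, haE, hall⟩ := suc_exit hI hz h.suc
  have hcl : ∀ v ∈ σ.S, lam G σ ω v ∈ σ.S := by
    intro v hv
    rw [lam_S hv]
    exact hI.cl v hv
  have hB1 : ∀ u, OnB G σ ω z u → u ∈ σ1.S := by
    intro u hu
    rw [hd.S]
    exact Or.inr hu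
  have hpi : ∀ u, OnB G σ ω z u → σk.pi u = lam G σ ω u := by
    intro u hu
    rw [hT.stg.le.pi u (Or.inl (hB1 u hu)), hd.pi u hu]
  have horb : ∀ u, OnB G σ ω z u → Orb σk.pi u a := by
    intro u hu
    apply orb_congr (hall u hu)
    intro v hv hva _
    apply hpi
    refine ⟨orb_trans hu.1 hv, ?_⟩
    intro hvS
    exact ha.2 (orb_cl hcl hva hvS)
  have hcase : ∀ u ∈ σk.S \ σ.S, OnB G σ ω z u ∨ u ∈ σk.S \ σ1.S := by
    intro u hu
    by_cases h1 : u ∈ σ1.S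
    · rw [hd.S] at h1
      rcases h1 with h1 | h1
      · exact absurd h1 hu.2
      · exact Or.inl h1
    · exact Or.inr ⟨hu.1, h1⟩
  have hset : σk.S \ σ.S = (σk.S \ σ1.S) ∪ {v | OnB G σ ω z v} := by
    ext u
    constructor
    · intro hu
      rcases hcase u hu with h1 | h1
      · exact Or.inr h1
      · exact Or.inl h1
    · rintro (hu | hu)
      · exact ⟨hu.1, fun h1 => hu.2 (hd.le.S h1)⟩
      · exact ⟨hT.stg.le.S (hB1 u hu), hu.2⟩
  have htime : ∀ u, OnB G σ ω z u → tl < G.t u ∧ G.t u < Tm := by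
    intro u hu
    have h1 : G.t z ≤ G.t u := orb_t hch hu.1
    have h2 : G.t u ≤ G.t a := orb_t hch (hall u hu)
    have h3 : G.t a < G.t (lam G σ ω a) := t_pi hch (inn_of hI ha.2)
    have h4 := htE _ haE
    omega
  have hmi : ∀ v, OnB G.mir σ.mir ω z v ↔ OnB G σ ω z v := fun v => onB_mir hI
  refine ⟨σk, ?_⟩
  constructor
  · exact hle
  · exact hT.stg.inv
  · exact hT.stg.lat
  · exact hT.stg.le.S (hB1 z ⟨orb_refl _ _, hz⟩)
  · refine ⟨a, ⟨hT.stg.le.S (hB1 a ha), ha.2⟩, ?_, ?_⟩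
    · rw [hpi a ha]
      exact haE
    · intro u hu
      rcases hcase u hu with h1 | h1
      · exact horb u h1
      · obtain ⟨v, hv, -, hv2⟩ := hT.stg.hit u h1
        exact orb_trans hv2 (horb v hv)
  · intro u hu
    rcases hcase u hu with h1 | h1
    · exact htime u h1
    · have h2 := hT.tm u h1
      have h3 := ev_onB hI (hT.isev (idx u) (hT.lt u h1))
      have h4 := htime _ h3.1
      have h5 := htime _ h3.2
      omega
  · intro R hR hR2
    by_cases h1 : R ∈ σ1.RD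
    · rw [(hd.newD R h1 hR2).2.1]
    · exact hd.le.S.trans (hT.stg.recD R hR h1)
  · intro R hR hR2
    by_cases h1 : R ∈ σ1.RU
    · rw [(hd.newU R h1 hR2).2.1]
    · exact hd.le.S.trans (hT.stg.recU R hR h1)
  · intro π hπ
    rw [hset]
    apply cb_union
    · exact (chain h hd hT π hπ).1
    · exact own_bound h hd hT.stg.le hT.stg.inv hm1 (lt_of_lt_of_le htl le_rfl) hB hb
        (fun v w hv hvb => hS (false, false, v) w hv hvb)
        (fun v w hv hvb => hS (false, true, v) w hv hvb) π hπ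
  · intro π hπ
    rw [hset]
    apply cb_union
    · exact (chain h hd hT π hπ).2
    · have h1 := own_bound (ctx_mir h) (dr_mir hI hd) (le_mir hT.stg.le) (inv_mir hT.stg.inv) hm1
        (tl := tl) htl hB hb
        (fun v w hv hvb => hS (true, false, v) w hv hvb)
        (fun v w hv hvb => hS (true, true, v) w hv hvb) π (fin_mir hπ)
      have h2 : {v | OnB G.mir σ.mir ω z v} = {v | OnB G σ ω z v} := by
        ext v
        exact hmi v
      rw [h2] at h1
      exact h1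

end Pool.Agent.W_a4f561_E.Stp58
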