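import Pool.Agent.W_a4f561_h26.Bas

/-!
MP_a4f561_co, the n^eps theorem, trunk corollary (helper34): the deterministic part. Routes of two choice functions, squeezing,
closability of heads (pointwise in the coins), forced barriers.
-/

set_option autoImplicit false

namespace Pool.Agent.W_a4f561_h26

namespace T34

variable {V : Type} {G : Bars V}

/-! ### neighbours -/

theorem t_lt_of_inn (G : Bars V) {v : V} (h : G.inn v) : G.t v < G.N := G.t_in v h.1 h.2

theorem ne_top_of_lt (G : Bars V) {u v : V} (h : G.r u < G.r v) : u ≠ G.top := by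
  rintro rfl
  by_cases h1 : v = G.top
  · rw [h1] at h; exact lt_irrefl _ h
  · exact absurd (G.r_top v h1) (by omega)

theorem ub_al (G : Bars V) {x : V} {τ : ℕ} (hτ : τ ≤ G.N) (hx : x ≠ G.top) : G.al (G.ub x τ) τ := (ub_spec G hτ hx).1

theorem lt_ub (G : Bars V) {x : V} {τ : ℕ} (hτ : τ ≤ G.N) (hx : x ≠ G.top) : G.r x < G.r (G.ub x τ) := (ub_spec G hτ hx).2.1

theorem ub_le (G : Bars V) {x u : V} {τ : ℕ} (hτ : τ ≤ G.N) (hu : G.al u τ) (hxu : G.r x < G.r u) :
    G.r (G.ub x τ) ≤ G.r u :=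
  (ub_spec G hτ (ne_top_of_lt G hxu)).2.2 u hu hxu

theorem lo_max (G : Bars V) {v : V} (hv : G.inn v) {u : V} (hu : G.al u (G.t v)) (h : G.r u < G.r v) :
    G.r u ≤ G.r (G.lo v) := (lb_spec G (t_lt_of_inn G hv).le hv.1).2.2 u hu h

theorem lo_lt_up (G : Bars V) {v : V} (hv : G.inn v) : G.r (G.lo v) < G.r (G.up v) := (r_lo G hv).trans (r_up G hv)

theorem lo_ne_up (G : Bars V) {v : V} (h : G.inn v) : G.lo v ≠ G.up v := by
  intro e
  have := lo_lt_up G h
  rw [e] at this
  exact lt_irrefl _ this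

/-! ### hosts -/

theorem orb_closed {π : V → V} {S : Set V} (hS : ∀ v ∈ S, π v ∈ S) {u v : V} (hu : u ∈ S) (hv : Orb π u v) : v ∈ S := by
  obtain ⟨k, rfl⟩ := hv
  induction k with
  | zero => exact hu
  | succ k ih => rw [Function.iterate_succ_apply']; exact hS _ ih

/-- the host is the first vertex of the route which is not dead -/
theorem host_min {π : V → V} (h : Ch G π) {u v : V} {τ : ℕ} (hu : G.b u ≤ τ) (hvi : G.inn v) (hv : Orb π u v)
    (ht : τ ≤ G.t v) : G.t (host G π u τ) ≤ G.t v := by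
  by_contra hc
  have hN := t_lt_of_inn G hvi
  have h1 := host_add h (u := u) hu ht hN.le
  rw [host_t h hv hvi, host_self h (le_of_lt (not_le.1 hc))] at h1
  rw [h1] at hc
  exact hc le_rfl

/-- two choice functions: host paths which change sides meet -/
theorem cross {π ρ : V → V} (hπ : Ch G π) (hρ : Ch G ρ) {u v : V} {a c : ℕ} (hu : G.b u ≤ a) (hv : G.b v ≤ a)
    (hac : a ≤ c) (hc : c ≤ G.N) (h1 : G.r (host G π u a) < G.r (host G ρ v a))
    (h2 : G.r (host G ρ v c) ≤ G.r (host G π u c)) : ∃ τ, a < τ ∧ τ ≤ c ∧ host G π u τ = host G ρ v τ :=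
  order hπ hρ hu hv hac hc h1 h2

/-- a route which is above `x` and does not stand on `x` stays above `x` -/
theorem above {π : V → V} (hπ : Ch G π) {u x : V} {a c : ℕ} (hu : G.b u ≤ a) (hx : G.b x ≤ a) (hac : a ≤ c) (hc : c ≤ G.N)
    (hxc : c ≤ G.t x) (h1 : G.r x < G.r (host G π u a)) (hne : host G π u c ≠ x) : G.r x < G.r (host G π u c) :=
  lt_of_le_of_ne ((order_bar hπ hu hx hac hc hxc).2.1 h1) fun h => hne (G.r_inj h).symm

/-- a route which is below `y` and does not stand on `y` stays below `y` -/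
theorem below {π : V → V} (hπ : Ch G π) {u y : V} {a c : ℕ} (hu : G.b u ≤ a) (hy : G.b y ≤ a) (hac : a ≤ c) (hc : c ≤ G.N)
    (hyc : c ≤ G.t y) (h1 : G.r (host G π u a) < G.r y) (hne : host G π u c ≠ y) : G.r (host G π u c) < G.r y :=
  lt_of_le_of_ne ((order_bar hπ hu hy hac hc hyc).1 h1) fun h => hne (G.r_inj h)

/-! ### the first long head -/

section head

variable {v : V}

theorem tau1_le (hv : G.inn v) (hx : G.inn (G.lo v)) : G.tau1 v ≤ G.t (G.lo v) := (tau1_spec G hv hx).2.1

theorem lt_tau1 (hv : G.inn v) (hx : G.inn (G.lo v)) : G.t v < G.tau1 v := (tau1_spec G hv hx).1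

theorem t_flh (hv : G.inn v) (hx : G.inn (G.lo v)) : G.t (G.lo v) < G.t (G.flh v) := (tau1_spec G hv hx).2.2.1

theorem short (hv : G.inn v) (hx : G.inn (G.lo v)) {τ : ℕ} (h1 : G.t v < τ) (h2 : τ < G.tau1 v) :
    G.t (G.ub (G.lo v) τ) < G.t (G.lo v) := (tau1_spec G hv hx).2.2.2.2.1 τ h1 h2

theorem tau1_eq (hv : G.inn v) (h : G.t (G.lo v) < G.t (G.up v)) : G.tau1 v = G.t v + 1 := by
  apply le_antisymm
  · apply Nat.sInf_le
    refine ⟨Nat.lt_succ_self _, ?_⟩
    rw [ub_lo G hv]
    exact h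
  · by_contra hc
    have h1 : G.tau1 v ∈ {τ | G.t v < τ ∧ G.t (G.lo v) < G.t (G.ub (G.lo v) τ)} :=
      Nat.sInf_mem ⟨G.t v + 1, Nat.lt_succ_self _, by rw [ub_lo G hv]; exact h⟩
    have := h1.1
    omega

theorem flh_eq (hv : G.inn v) (h : G.t (G.lo v) < G.t (G.up v)) : G.flh v = G.up v := by
  unfold Bars.flh
  rw [tau1_eq hv h, ub_lo G hv]

end head

/-! ### the law -/

theorem zz_or (v : V) : G.zz v = G.lo v ∨ G.zz v = G.up v := by
  unfold Bars.zz
  split_ifs
  · exact Or.inr rfl
  · exact Or.inl rfl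

theorem zz_up {v : V} (hv : G.inn v) : G.zz v = G.up v ↔ G.t (G.lo v) < G.t (G.up v) := by
  unfold Bars.zz
  split_ifs with h
  · simp [h]
  · simp only [h, iff_false]
    exact lo_ne_up G hv

theorem zz_lo {v : V} (hv : G.inn v) : G.zz v = G.lo v ↔ ¬ G.t (G.lo v) < G.t (G.up v) := by
  unfold Bars.zz
  split_ifs with h
  · simp only [h, not_true_eq_false, iff_false]
    exact (lo_ne_up G hv).symm
  · simp [h]

theorem oo_up {v : V} (hv : G.inn v) (h : G.zz v = G.lo v) : G.oo v = G.up v := by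
  unfold Bars.oo
  rw [if_neg ((zz_lo hv).1 h)]

theorem oo_lo {v : V} (hv : G.inn v) (h : G.zz v = G.up v) : G.oo v = G.lo v := by
  unfold Bars.oo
  rw [if_pos ((zz_up hv).1 h)]

theorem t_zz {v : V} (hv : G.inn v) : G.t v < G.t (G.zz v) := by
  rcases zz_or (G := G) v with h | h
  · rw [h]; exact t_lo G hv
  · rw [h]; exact t_up G hv

section law

variable {σ : St V} {ω : V × Bool → Bool}

theorem lam_dec {v : V} (h : v ∈ σ.S ∪ σ.Dec) : lam G σ ω v = σ.pi v := by
  unfold lam; rw [if_pos h]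

theorem lam_fresh {v : V} (h : v ∉ σ.S ∪ σ.Dec) (h' : G.zz v ∈ σ.S \ σ.Lat) : lam G σ ω v = G.zz v := by
  unfold lam; rw [if_neg h, if_pos h']

theorem lam_acc {v : V} (h : ask G σ v) (h' : ω (G.coin v) = true) : lam G σ ω v = G.zz v := by
  unfold lam
  rw [if_neg (by simp only [Set.mem_union, not_or]; exact ⟨h.1, h.2.1⟩), if_neg h.2.2, if_pos h']

theorem lam_rej {v : V} (h : ask G σ v) (h' : ω (G.coin v) = false) : lam G σ ω v = G.oo v := by
  unfold lam
  rw [if_neg (by simp only [Set.mem_union, not_or]; exact ⟨h.1, h.2.1⟩), if_neg h.2.2, if_neg (by simp [h'])]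

/-- either the coin is asked or the value does not depend on the coins -/
theorem ask_or {v : V} (h : ¬ ask G σ v) : v ∈ σ.S ∪ σ.Dec ∨ (v ∉ σ.S ∪ σ.Dec ∧ G.zz v ∈ σ.S \ σ.Lat) := by
  unfold ask at h
  by_cases h1 : v ∈ σ.S ∪ σ.Dec
  · exact Or.inl h1
  · refine Or.inr ⟨h1, ?_⟩
    simp only [Set.mem_union, not_or] at h1
    by_contra h2
    exact h ⟨h1.1, h1.2, h2⟩

/-- the law depends only on the coin which is asked -/
theorem lam_congr {ω' : V × Bool → Bool} {v : V} (h : ask G σ v → ω (G.coin v) = ω' (G.coin v)) :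
    lam G σ ω v = lam G σ ω' v := by
  by_cases h1 : ask G σ v
  · have h2 := h h1
    cases h3 : ω (G.coin v) with
    | true => rw [lam_acc h1 h3, lam_acc h1 (by rw [← h2, h3])]
    | false => rw [lam_rej h1 h3, lam_rej h1 (by rw [← h2, h3])]
  · rcases ask_or h1 with h2 | ⟨h2, h3⟩
    · rw [lam_dec h2, lam_dec h2]
    · rw [lam_fresh h2 h3, lam_fresh h2 h3]

theorem lam_cl (hI : Inv G σ) : ∀ v ∈ σ.S, lam G σ ω v ∈ σ.S := fun v hv => by
  rw [lam_dec (Or.inl hv)]; exact hI.cl v hv

theorem inn_of_notMem (hI : Inv G σ) {v : V} (hv : v ∉ σ.S) : G.inn v :=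
  ⟨fun h => hv (h ▸ hI.bot_mem), fun h => hv (h ▸ hI.top_mem)⟩

/-! ### squeezing -/

/-- The next vertex of a D-step. -/
theorem dst_next {z v : V} (hv : Dst G σ ω z v) : OnB G σ ω z (G.lo v) :=
  ⟨by rw [← hv.2.1]; exact orb_step hv.1.1, hv.2.2⟩

/-- after a D-step `v → x` the next vertex of the path is `x` -/
theorem t_lo_le (hI : Inv G σ) {z v w : V} (hv : Dst G σ ω z v) (hw : OnB G σ ω z w) (hvw : G.t v < G.t w) :
    G.t (G.lo v) ≤ G.t w := by
  by_contra hc
  have hπ := ch_lam hI ω
  have hwi := inn_of_notMem hI hw.2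
  have hN := t_lt_of_inn G hwi
  have h1 : host G (lam G σ ω) z (G.t w) = w := host_t hπ hw.1 hwi
  have h2 := host_btw hπ hv.1.1 hvw (by rw [hv.2.1]; omega) hN.le
  rw [h1, hv.2.1] at h2
  rw [h2] at hc
  exact hc le_rfl

theorem dst_host (hI : Inv G σ) {z v : V} (hv : Dst G σ ω z v) {τ : ℕ} (h1 : G.t v < τ) (h2 : τ ≤ G.t (G.lo v)) :
    host G (lam G σ ω) z τ = G.lo v := by
  have hxi := inn_of_notMem hI hv.2.2
  have hN := t_lt_of_inn G hxi
  rw [host_btw (ch_lam hI ω) hv.1.1 h1 (by rw [hv.2.1]; exact h2) (by omega), hv.2.1]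

theorem b_le_of_onB (hI : Inv G σ) {z v : V} (hv : OnB G σ ω z v) : G.b z ≤ G.t v :=
  (G.bt z).trans (orb_t (ch_lam hI ω) hv.1)

/-- the host of the route before a vertex outside of `S` is outside of `S` -/
theorem onB_of_host (hI : Inv G σ) {z w u : V} (hw : OnB G σ ω z w) {τ : ℕ} (h1 : G.b z ≤ τ) (h2 : τ ≤ G.t w)
    (hu : host G (lam G σ ω) z τ = u) : OnB G σ ω z u ∧ G.t u ≤ G.t w := by
  have hπ := ch_lam hI ω
  have hwi := inn_of_notMem hI hw.2
  have h3 : Orb (lam G σ ω) z u := by rw [← hu]; exact host_orb G _ z _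
  have h4 : G.t u ≤ G.t w := by rw [← hu]; exact host_min hπ h1 hwi hw.1 h2
  exact ⟨⟨h3, fun h5 => hw.2 (orb_closed (lam_cl hI) h5 (orb_comp hπ h3 hw.1 h4))⟩, h4⟩

/-- (iii), the common part: the route of the upper neighbour `y` of `x = lo v` at time `τ` is squeezed between the path and the
route `rho` of `up v`. -/
theorem hit_gen (hI : Inv G σ) {ω' : V × Bool → Bool} {z v w : V} (hv : Dst G σ ω z v) (hw : OnB G σ ω z w)
    (hvw : G.t v < G.t w) {τ : ℕ} (h1 : G.t v < τ) (h2 : τ ≤ G.t (G.lo v))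
    (hne : host G (lam G σ ω') (G.up v) τ ≠ G.lo v)
    (ho : Orb (lam G σ ω') (G.up v) w) :
    ∃ u, OnB G σ ω z u ∧ G.t u ≤ G.t w ∧ Orb (lam G σ ω') (G.ub (G.lo v) τ) u := by
  have hπ := ch_lam hI ω
  have hρ := ch_lam hI ω'
  have hvi := inn_of_notMem hI hv.1.2
  have hxi := inn_of_notMem hI hv.2.2
  have hwi := inn_of_notMem hI hw.2
  have hN := t_lt_of_inn G hwi
  have hxN := t_lt_of_inn G hxi
  have hxw := t_lo_le hI hv hw hvw
  have hhx := dst_host hI hv h1 h2
  have hus := (al_up G hvi).1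
  have hls := (al_lo G hvi).1
  have h3 : host G (lam G σ ω') (G.up v) (G.t v + 1) = G.up v := host_self hρ (t_up G hvi)
  have h4 : G.r (G.lo v) < G.r (host G (lam G σ ω') (G.up v) τ) := by
    refine above hρ (a := G.t v + 1) ?_ ?_ h1 (by omega) h2 ?_ hne
    · have := hus.1; omega
    · have := hls.1; omega
    · rw [h3]; exact lo_lt_up G hvi
  have hal : G.al (host G (lam G σ ω') (G.up v) τ) τ := host_al hρ (by have := hus.1; omega) (by omega)
  have h5 := ub_le G (x := G.lo v) (τ := τ) (by omega) hal h4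
  have h6 := ub_al G (x := G.lo v) (τ := τ) (by omega) hxi.2
  have h7 := lt_ub G (x := G.lo v) (τ := τ) (by omega) hxi.2
  set y := G.ub (G.lo v) τ with hy
  have h8 : host G (lam G σ ω') y τ = y := host_self hρ h6.2
  have h9 := order_one hρ (u := y) (v := G.up v) (τ1 := τ) (τ2 := G.t w) h6.1 (by have := hus.1; omega) (by omega) (by omega)
    (by rw [h8]; exact h5)
  have h10 : host G (lam G σ ω') (G.up v) (G.t w) = w := host_t hρ ho hwi
  have h11 : host G (lam G σ ω) z (G.t w) = w := host_t hπ hw.1 hwi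
  have hbz := b_le_of_onB hI hv.1
  obtain ⟨τ', k1, k2, k3⟩ := cross hπ hρ (u := z) (v := y) (a := τ) (c := G.t w)
    (by omega) h6.1 (by omega) (by omega)
    (by rw [hhx, h8]; exact h7) (by rw [h11]; rw [h10] at h9; exact h9)
  obtain ⟨k4, k5⟩ := onB_of_host hI hw (by omega) k2 rfl
  exact ⟨_, k4, k5, by rw [k3]; exact host_orb G _ y _⟩

/-- (iii)(a), pointwise. -/
theorem hitA (hI : Inv G σ) {ω' : V × Bool → Bool} {z v w : V} (hv : Dst G σ ω z v) (hw : OnB G σ ω z w)
    (hvw : G.t v < G.t w) (ho : Orb (lam G σ ω') (G.up v) w) (hno : ¬ Orb (lam G σ ω') (G.up v) (G.lo v)) :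
    ∃ u, OnB G σ ω z u ∧ G.t u ≤ G.t w ∧ Orb (lam G σ ω') (G.flh v) u := by
  have hvi := inn_of_notMem hI hv.1.2
  have hxi := inn_of_notMem hI hv.2.2
  refine hit_gen hI hv hw hvw (lt_tau1 hvi hxi) (tau1_le hvi hxi) (fun h5 => hno ?_) ho
  rw [← h5]
  exact host_orb G _ _ _

/-- H1: a declared D-step is made under a barrier which outlives the lower neighbour. -/
def HD1 (G : Bars V) (σ : St V) : Prop :=
  ∀ u ∈ σ.Dec, u ∉ σ.S → σ.pi u = G.lo u → G.lo u ∉ σ.S → G.t (G.lo u) < G.t (G.up u)

theorem coin_side {u v : V} (h : G.zz u = G.zz v) (hu : G.r (G.zz u) < G.r u) (hv : G.r (G.zz v) < G.r v) :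
    G.coin u = G.coin v := by
  unfold Bars.coin
  rw [h] at hu
  rw [h, decide_eq_true hu, decide_eq_true hv]

/-- After a rejection of `(x,+)` the route of `up v` does not come to `x` before the first long head. -/
theorem rho_above (hI : Inv G σ) (hD : HD1 G σ) {ω' : V × Bool → Bool} {z v : V} (hv : Dst G σ ω z v)
    (hz : G.zz v = G.lo v) (hrej : ω' (G.coin v) = false) {τ : ℕ} (h1 : G.t v < τ) (h2 : τ < G.tau1 v) :
    G.r (G.lo v) < G.r (host G (lam G σ ω') (G.up v) τ) := by
  have hρ := ch_lam hI ω'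
  have hvi := inn_of_notMem hI hv.1.2
  have hxi := inn_of_notMem hI hv.2.2
  have hxN := t_lt_of_inn G hxi
  have hT := tau1_le hvi hxi
  have hus := (al_up G hvi).1
  have hls := (al_lo G hvi).1
  obtain ⟨n, rfl⟩ : ∃ n, τ = G.t v + 1 + n := ⟨τ - (G.t v + 1), by omega⟩
  induction n with
  | zero =>
    have h3 : host G (lam G σ ω') (G.up v) (G.t v + 1 + 0) = G.up v := host_self hρ (t_up G hvi)
    rw [h3]; exact lo_lt_up G hvi
  | succ n ih =>
    have ih' := ih (by omega) (by omega)
    set τ := G.t v + 1 + n with hτ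
    set q := host G (lam G σ ω') (G.up v) τ with hq
    have e : G.t v + 1 + (n + 1) = τ + 1 := by omega
    rw [e]
    rcases host_step hρ (u := G.up v) (τ := τ) (by have := hus.1; omega) (by omega) with ⟨h5, h4⟩ | ⟨h5, h4⟩
    · rw [h5]; exact ih'
    · rw [h5]
      rw [← hq] at h4 h5 ⊢
      have h6 : G.inn q := by
        refine ⟨fun h => ?_, fun h => ?_⟩
        · have := G.t_bot; rw [h] at h4; omega
        · have := G.t_top; rw [h] at h4; omega
      rcases hρ.2.2 q h6 with h7 | h7
      · rw [h7]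
        have hxal : G.al (G.lo v) (G.t q) := ⟨by have := hls.1; omega, by omega⟩
        rcases (lo_max G h6 hxal ih').lt_or_eq with h8 | h8
        · exact h8
        · exfalso
          have h9 := G.r_inj h8
          have h10 : G.t (G.up q) < G.t (G.lo v) := by
            have := short hvi hxi (τ := τ + 1) (by omega) (by omega)
            rw [h9, ← h4, ub_lo G h6, ← h9] at this
            exact this
          have h11 : G.zz q = G.lo q := (zz_lo h6).2 (by rw [← h9]; omega)
          by_cases hqS : q ∈ σ.S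
          · have := lam_cl hI (ω := ω') q hqS
            rw [h7, ← h9] at this
            exact hv.2.2 this
          · by_cases hqD : q ∈ σ.Dec
            · rw [lam_dec (Or.inr hqD)] at h7
              have := hD q hqD hqS h7 (by rw [← h9]; exact hv.2.2)
              rw [← h9] at this
              omega
            · have hask : ask G σ q := ⟨hqS, hqD, fun h => by
                rw [h11, ← h9] at h; exact hv.2.2 h.1⟩
              have hc : G.coin q = G.coin v := by
                refine coin_side (by rw [h11, ← h9, hz]) ?_ ?_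
                · rw [h11]; exact r_lo G h6
                · rw [hz]; exact r_lo G hvi
              rw [lam_rej hask (by rw [hc]; exact hrej), oo_up h6 h11] at h7
              exact lo_ne_up G h6 h7.symm
      · rw [h7]
        exact ih'.trans (r_up G h6)

/-- Switching one coin to `accept` can only create an earlier hit of its host. -/
theorem switch {ω' ω'' : V × Bool → Bool} {κ : V × Bool} (hk : ∀ κ', κ' ≠ κ → ω'' κ' = ω' κ') (ht : ω'' κ = true)
    {y u : V} (h : Orb (lam G σ ω') y u) : Orb (lam G σ ω'') y u ∨ Orb (lam G σ ω'') y κ.1 := by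
  obtain ⟨k, rfl⟩ := h
  induction k with
  | zero => exact Or.inl (orb_refl _ _)
  | succ k ih =>
    rcases ih with h1 | h1
    · rw [Function.iterate_succ_apply']
      set p := (lam G σ ω')^[k] y
      by_cases h2 : ask G σ p ∧ G.coin p = κ
      · right
        have h3 := orb_step h1
        rw [lam_acc h2.1 (by rw [h2.2]; exact ht)] at h3
        rw [← h2.2]
        exact h3
      · left
        have h3 : lam G σ ω'' p = lam G σ ω' p := lam_congr fun h4 => hk _ fun h5 => h2 ⟨h4, h5⟩
        rw [← h3]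
        exact orb_step h1
    · exact Or.inr h1

/-- (iii)(b), pointwise. -/
theorem hitB (hI : Inv G σ) (hD : HD1 G σ) {ω' ω'' : V × Bool → Bool} {z v w : V} (hv : Dst G σ ω z v)
    (hz : G.zz v = G.lo v) (hrej : ω' (G.coin v) = false) (hk : ∀ κ', κ' ≠ G.coin v → ω'' κ' = ω' κ')
    (hacc : ω'' (G.coin v) = true) (hw : OnB G σ ω z w) (hvw : G.t v < G.t w) {τ : ℕ} (h1 : G.t v < τ)
    (h2 : τ < G.tau1 v) (ho : Orb (lam G σ ω') (G.up v) w) :
    ∃ u, OnB G σ ω z u ∧ G.t u ≤ G.t w ∧ Orb (lam G σ ω'') (G.ub (G.lo v) τ) u := by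
  have hvi := inn_of_notMem hI hv.1.2
  have hxi := inn_of_notMem hI hv.2.2
  have hT := tau1_le hvi hxi
  obtain ⟨u, k1, k2, k3⟩ := hit_gen hI hv hw hvw h1 (by omega) (fun h5 => by
    have := rho_above hI hD hv hz hrej h1 h2
    rw [h5] at this
    exact lt_irrefl _ this) ho
  rcases switch hk hacc k3 with h6 | h6
  · exact ⟨u, k1, k2, h6⟩
  · refine ⟨G.lo v, dst_next hv, t_lo_le hI hv hw hvw, ?_⟩
    have : (G.coin v).1 = G.lo v := hz
    rw [this] at h6
    exact h6

/-! ### records -/

theorem mir_lo (G : Bars V) (v : V) : G.mir.lo v = G.up v := by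
  unfold Bars.lo Bars.lb Bars.up
  rw [mir_mir]
  rfl

/-- A vertex declared D is declared by a record above a path. -/
theorem decD (hI : Inv G σ) {u : V} (h1 : u ∈ σ.Dec) (h2 : u ∉ σ.S) (h3 : σ.pi u = G.lo u) :
    ∃ R ∈ σ.RD, DecBy G σ R u := by
  rcases hI.decl u h1 h2 with h4 | ⟨R, _, h5⟩
  · exact h4
  · exfalso
    have h6 := h5.2.2.2.2
    rw [mir_lo, h3] at h6
    exact lo_ne_up G (inn_of_notMem hI h2) h6

/-- The path of a record stays in `S`. -/
theorem rec_mem (hI : Inv G σ) {R : Rec V} (hR : IsRec G σ R) (τ : ℕ) : host G σ.pi R.q τ ∈ σ.S :=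
  orb_closed hI.cl hR.q_mem (host_orb G _ _ _)

/-- nobody is strictly between the path of a record and its barrier at the last touch -/
theorem rec_c {R : Rec V} (hR : IsRec G σ R) {u : V} (hu : G.al u R.c)
    (h1 : G.r (host G σ.pi R.q R.c) < G.r u) : G.r R.y ≤ G.r u := by
  have := ub_le G hR.cN hu h1
  rw [hR.tc] at this
  exact this

theorem rec_a {R : Rec V} (hR : IsRec G σ R) {u : V} (hu : G.al u R.a)
    (h1 : G.r (host G σ.pi R.q R.a) < G.r u) : G.r R.y ≤ G.r u := by
  have := ub_le G (hR.ac.trans hR.cN) hu h1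
  rw [hR.ta] at this
  exact this

/-- The lower neighbour of a vertex of the region is in the region, if it is not in `S`. -/
theorem rec_lo (hI : Inv G σ) {R : Rec V} (hR : IsRec G σ R) {u : V} (hu : DecBy G σ R u) (hui : G.inn u)
    (hx : G.lo u ∉ σ.S) : G.r (host G σ.pi R.q (G.t u)) < G.r (G.lo u) := by
  have h1 : G.al (host G σ.pi R.q (G.t u)) (G.t u) :=
    host_al hI.ch (by have := hR.b_le; have := hu.1; omega) (t_lt_of_inn G hui).le
  have h2 := lo_max G hui h1 hu.2.2.1
  refine lt_of_le_of_ne h2 fun h3 => hx ?_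
  rw [← G.r_inj h3]
  exact rec_mem hI hR _

theorem inv_hD' (hI : Inv G σ) : HD1 G σ := by
  intro u h1 h2 h3 h4
  have hui := inn_of_notMem hI h2
  have hxi := inn_of_notMem hI h4
  obtain ⟨R, hRm, hu⟩ := decD hI h1 h2 h3
  have hR := hI.recD R hRm
  by_contra hc
  rw [hu.2.2.2.1] at hc
  have h5 := hR.y_t
  have h6 := rec_lo hI hR hu hui h4
  have hxa := (al_lo G hui).1
  have hxc : G.al (G.lo u) R.c := ⟨hxa.1.trans hu.2.1.le, by omega⟩
  have h7 : G.r (G.lo u) < G.r R.y := by
    rw [← hu.2.2.2.1]; exact lo_lt_up G hui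
  have h8 : G.r (G.lo u) ≤ G.r (host G σ.pi R.q R.c) := by
    by_contra h9
    have := rec_c hR hxc (not_le.1 h9)
    omega
  have e : ∀ τ, τ ≤ R.c → host G σ.pi (G.lo u) τ = G.lo u := fun τ h => host_self hI.ch (by omega)
  obtain ⟨τ, _, k2, k3⟩ := cross hI.ch hI.ch (u := R.q) (v := G.lo u) (a := G.t u) (c := R.c)
    (by have := hR.b_le; have := hu.1; omega) hxa.1 hu.2.1.le hR.cN
    (by rw [e _ hu.2.1.le]; exact h6) (by rw [e _ le_rfl]; exact h8)
  rw [e _ k2] at k3
  exact h4 (k3 ▸ rec_mem hI hR τ)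

/-- P5: a forced barrier is never asked: every vertex of the route with this upper neighbour is declared. -/
theorem fbx (hI : Inv G σ) {z v v' : V} (hv' : OnB G σ ω z v') (hask : ask G σ v') (hv : Dst G σ ω z v)
    (hf : G.flh v = G.up v') (hfb : fb G σ v) : False := by
  obtain ⟨u, h1, h2, h3, h4, h5, h6⟩ := hfb
  have hπ := ch_lam hI ω
  have hui := inn_of_notMem hI h2
  have hvi := inn_of_notMem hI hv.1.2
  have hxi := inn_of_notMem hI hv.2.2
  have hv'i := inn_of_notMem hI hv'.2
  obtain ⟨R, hRm, hu⟩ := decD hI h1 h2 h3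
  have hR := hI.recD R hRm
  have hy : G.up v' = R.y := by rw [← hf, ← h6, hu.2.2.2.1]
  have huN := t_lt_of_inn G hui
  have hv'N := t_lt_of_inn G hv'i
  have hyt := hR.y_t
  have hyb := hR.y_b
  have hcN := hR.cN
  have hbq := hR.b_le
  have hua := hu.1
  have huc := hu.2.1
  have hbz := b_le_of_onB hI hv.1
  have hbz' := b_le_of_onB hI hv'
  have hvu : G.t v ≤ G.t u := by have := lt_tau1 hvi hxi; omega
  have huy : G.r u < G.r R.y := by rw [← hu.2.2.2.1]; exact r_up G hui
  -- the route is inside at the death of `u`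
  have hB : OnB G σ ω z (host G (lam G σ ω) z (G.t u)) ∧
      G.r (host G σ.pi R.q (G.t u)) < G.r (host G (lam G σ ω) z (G.t u)) ∧
      G.r (host G (lam G σ ω) z (G.t u)) < G.r R.y := by
    rcases hvu.lt_or_eq with h7 | h7
    · have h8 : host G (lam G σ ω) z (G.t u) = G.lo u := by
        rw [dst_host hI hv h7 (by rw [← h4]; exact (t_lo G hui).le), h4]
      rw [h8]
      refine ⟨by rw [h4]; exact dst_next hv, rec_lo hI hR hu hui (by rw [h4]; exact hv.2.2), ?_⟩
      exact (r_lo G hui).trans huy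
    · have h8 := G.t_inj h7
      subst h8
      rw [host_t hπ hv.1.1 hvi]
      exact ⟨hv.1, hu.2.2.1, huy⟩
  -- the route never meets the path of the record
  have hnm : ∀ {τ : ℕ}, OnB G σ ω z (host G (lam G σ ω) z τ) → host G (lam G σ ω) z τ ≠ host G σ.pi R.q τ :=
    fun h h' => h.2 (h' ▸ rec_mem hI hR _)
  have hvv : host G (lam G σ ω) z (G.t v') = v' := host_t hπ hv'.1 hv'i
  have key : R.a ≤ G.t v' ∧ G.t v' < R.c ∧ G.r (host G σ.pi R.q (G.t v')) < G.r v' := by
    rcases Nat.lt_or_ge (G.t u) (G.t v') with h7 | h7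
    · -- forward
      have hon : ∀ τ, G.b z ≤ τ → τ ≤ G.t v' → OnB G σ ω z (host G (lam G σ ω) z τ) := fun τ k1 k2 =>
        (onB_of_host hI hv' k1 k2 rfl).1
      have above' : ∀ τ, G.t u ≤ τ → τ ≤ G.t v' → G.r (host G σ.pi R.q τ) < G.r (host G (lam G σ ω) z τ) := by
        intro τ k1 k2
        by_contra hc
        obtain ⟨τ', k3, k4, k5⟩ := cross hI.ch hπ (u := R.q) (v := z) (a := G.t u) (c := τ) (by omega) (by omega) k1
          (by omega) hB.2.1 (not_lt.1 hc)
        exact hnm (hon τ' (by omega) (by omega)) k5.symm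
      have below' : ∀ τ, G.t u ≤ τ → τ ≤ G.t v' → τ ≤ R.c → G.r (host G (lam G σ ω) z τ) < G.r R.y := by
        intro τ k1
        induction τ, k1 using Nat.le_induction with
        | base => exact fun _ _ => hB.2.2
        | succ τ k1 ih =>
          intro k2 k3
          have ih' := ih (by omega) (by omega)
          rcases host_step hπ (u := z) (τ := τ) (by omega) (by omega) with ⟨k5, k4⟩ | ⟨k5, k4⟩
          · rw [k5]; exact ih'
          · have hq := hon τ (by omega) (by omega)
            have hqa := above' τ k1 (by omega)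
            rw [k5]
            set q := host G (lam G σ ω) z τ
            have hqi := inn_of_notMem hI hq.2
            rcases hπ.2.2 q hqi with k6 | k6
            · rw [k6]; exact (r_lo G hqi).trans ih'
            · rw [k6]
              have k7 : G.r (G.up q) ≤ G.r R.y := by
                refine (ub_le G (t_lt_of_inn G hqi).le (x := q) (τ := G.t q) (u := R.y) ⟨by omega, by omega⟩ ih')
              refine lt_of_le_of_ne k7 fun k8 => ?_
              have k9 := G.r_inj k8
              have k10 := hR.dec q hqi (by omega) (by omega) (by rw [k4]; exact hqa) k9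
              rw [lam_dec k10.1, k10.2] at k6
              exact lo_ne_up G hqi k6
      have hc : G.t v' < R.c := by
        by_contra hc
        have k1 := above' R.c (by omega) (by omega)
        have k2 := below' R.c (by omega) (by omega) le_rfl
        have k3 := rec_c hR (host_al hπ (by omega) hcN) k1
        omega
      refine ⟨by omega, hc, ?_⟩
      have := above' (G.t v') h7.le le_rfl
      rw [hvv] at this
      exact this
    · -- backward
      have hon : ∀ τ, G.b z ≤ τ → τ ≤ G.t u → OnB G σ ω z (host G (lam G σ ω) z τ) := by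
        intro τ k1 k2
        have k3 : host G (lam G σ ω) z (G.t u) = host G (lam G σ ω) z (G.t u) := rfl
        have hwi := inn_of_notMem hI hB.1.2
        have k4 := host_al hπ (u := z) (τ := G.t u) (by omega) (by omega)
        exact (onB_of_host hI hB.1 k1 (k2.trans k4.2) rfl).1
      have back : ∀ τ, G.b z ≤ τ → G.b R.q ≤ τ → τ ≤ G.t u → G.r (host G σ.pi R.q τ) < G.r (host G (lam G σ ω) z τ) := by
        intro τ k1 k2 k3
        by_contra hc
        have k4 : G.r (host G (lam G σ ω) z τ) < G.r (host G σ.pi R.q τ) :=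
          lt_of_le_of_ne (not_lt.1 hc) fun k5 => hnm (hon τ k1 k3) (G.r_inj k5)
        obtain ⟨τ', k5, k6, k7⟩ := cross hπ hI.ch (u := z) (v := R.q) (a := τ) (c := G.t u) k1 k2 k3
          (by omega) k4 hB.2.1.le
        exact hnm (hon τ' (by omega) (by omega)) k7
      have ha : R.a ≤ G.t v' := by
        by_contra hc
        have k1 := back R.a (by omega) (by omega) (by omega)
        have k2 := rec_a hR (host_al hπ (by omega) (by omega)) k1
        have k3 := order_bar hπ (u := z) (y := R.y) (τ1 := R.a) (τ2 := G.t u) (by omega) hyb hua.le (by omega) (by omega)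
        have k4 := hB.2.2
        rcases k2.lt_or_eq with k5 | k5
        · have := k3.2.1 k5
          omega
        · have := k3.2.2 (G.r_inj k5).symm
          rw [this] at k4
          exact lt_irrefl _ k4
      refine ⟨ha, by omega, ?_⟩
      have := back (G.t v') (by omega) (by omega) h7
      rw [hvv] at this
      exact this
  have k10 := hR.dec v' hv'i key.1 key.2.1 key.2.2 hy
  rcases k10.1 with k11 | k11
  · exact hask.1 k11
  · exact hask.2.1 k11

end law

end T34

end Pool.Agent.W_a4f561_h26
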