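import Pool.Agent.W_a4f561_h26.Hrm
import Pool.Agent.W_a4f561_E.Trk34

/-!
MP_a4f561_co (EpsPages): trunk corollary, closability, memory bound (helper34). Own namespace `T34b`; the stub file h26/Trk
uses these theorems.
-/

set_option autoImplicit false

namespace Pool.Agent.W_a4f561_h26

namespace T34b

open T34

variable {V : Type} [Fintype V] [DecidableEq V] {G : Bars V}

omit [Fintype V] [DecidableEq V] in
/-- A declared vertex: see `harm`. Proof: `Inv.decl` and the record: `lo u` is in the region or on the route of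
`R.q` (which is in `S`), and a vertex in the region dies before `R.c < t R.y`. -/
theorem inv_hD {σ : St V} (hI : Inv G σ) :
    ∀ u ∈ σ.Dec, u ∉ σ.S → σ.pi u = G.lo u → G.lo u ∉ σ.S → G.t (G.lo u) < G.t (G.up u) := inv_hD' hI

/-! ### probabilities -/

theorem pr_le {m m' : V × Bool → Option Bool} {A B : (V × Bool → Bool) → Prop}
    (h : ∀ ω, A (ov m ω) → B (ov m' ω)) : pr m A ≤ pr m' B := by
  unfold pr
  refine div_le_div_of_nonneg_right ?_ (by positivity)
  norm_cast
  exact Finset.card_le_card fun ω hω => by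
    simp only [Finset.mem_filter, Finset.mem_univ, true_and] at hω ⊢
    exact h ω hω

theorem pr_nonneg (m : V × Bool → Option Bool) (A : (V × Bool → Bool) → Prop) : 0 ≤ pr m A := by
  unfold pr; positivity

theorem pr_zero {m : V × Bool → Option Bool} {A : (V × Bool → Bool) → Prop} (h : ∀ ω, ¬ A (ov m ω)) : pr m A = 0 := by
  classical
  unfold pr
  rw [Finset.filter_false_of_mem (fun ω _ => h ω)]
  simp

/-- union bound -/
theorem pr_union {m : V × Bool → Option Bool} {A : (V × Bool → Bool) → Prop} {ι : Type} (s : Finset ι)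
    {B : ι → (V × Bool → Bool) → Prop} (h : ∀ ω, A (ov m ω) → ∃ i ∈ s, B i (ov m ω)) :
    pr m A ≤ ∑ i ∈ s, pr m (B i) := by
  classical
  unfold pr
  rw [← Finset.sum_div]
  refine div_le_div_of_nonneg_right ?_ (by positivity)
  have h1 : (Finset.univ.filter (fun ω : V × Bool → Bool => A (ov m ω))) ⊆
      s.biUnion fun i => Finset.univ.filter (fun ω : V × Bool → Bool => B i (ov m ω)) := by
    intro ω hω
    simp only [Finset.mem_filter, Finset.mem_univ, true_and, Finset.mem_biUnion] at hω ⊢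
    exact h ω hω
  have h2 := (Finset.card_le_card h1).trans Finset.card_biUnion_le
  exact_mod_cast h2

omit [Fintype V] [DecidableEq V] in
theorem ov_eq {m : V × Bool → Option Bool} {κ : V × Bool} {b : Bool} (h : m κ = some b) (ω : V × Bool → Bool) :
    ov m ω κ = b := by
  unfold ov; rw [h]; rfl

/-- TRUNK COROLLARY: a good successful route. Proof: `harm` for `G` and `G.mir` and all `w ∉ S`, union bound. -/
theorem trunk (G : Bars V) (σ : St V) (hI : Inv G σ) {Tm : ℕ} (hL : Lt G σ Tm) {z : V} (hz : z ∉ σ.S)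
    (m0 : V × Bool → Option Bool) (hm : ∀ c, m0 c ≠ some true) {E : Set V} (hE : E ⊆ σ.S \ σ.Lat)
    (htE : ∀ e ∈ E, G.t e ≤ Tm) {κ : ℝ} {K : ℕ}
    (hK : 2 * (Fintype.card V : ℝ) * (100 / 101 : ℝ) ^ (K + 1) < κ)
    (hκ : κ ≤ pr m0 (fun ω => Suc G σ ω z E)) : ∃ ω, Ctx G σ m0 ω z K Tm E := by
  classical
  by_contra hcon
  push Not at hcon
  -- the bad events
  set B : V × Bool → (V × Bool → Bool) → Prop := fun i ω =>
    if i.2 = true then Orb (lam G σ ω) z i.1 ∧ K + 1 ≤ cnt G σ m0 ω z (dl K) i.1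
    else Orb (lam G.mir σ.mir ω) z i.1 ∧ K + 1 ≤ cnt G.mir σ.mir m0 ω z (dl K) i.1 with hB
  have h1 : ∀ ω, Suc G σ (ov m0 ω) z E → ∃ i ∈ Finset.univ.filter (fun i : V × Bool => i.1 ∉ σ.S), B i (ov m0 ω) := by
    intro ω hs
    by_contra hc
    push Not at hc
    refine hcon (ov m0 ω) ⟨hI, hL, hz, hE, htE, hm, fun c b h => ov_eq h ω, hs, fun w hw => ?_, fun w hw => ?_⟩
    · have := hc (w, true) (by simp [hw.2])
      simp only [hB, if_true, not_and, not_le] at this
      have := this hw.1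
      omega
    · have := hc (w, false) (by simp [hw.2])
      simp only [hB, Bool.false_eq_true, if_false, not_and, not_le] at this
      have := this (by rw [lam_mir hI.bot_mem hI.top_mem]; exact hw.1)
      omega
  have h2 := pr_union (m := m0) (A := fun ω => Suc G σ ω z E) (B := B)
    (Finset.univ.filter (fun i : V × Bool => i.1 ∉ σ.S)) h1
  have h3 : ∀ i ∈ Finset.univ.filter (fun i : V × Bool => i.1 ∉ σ.S), pr m0 (B i) ≤ (100 / 101 : ℝ) ^ (K + 1) := by
    intro i hi
    simp only [Finset.mem_filter, Finset.mem_univ, true_and] at hi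
    rcases i with ⟨w, c⟩
    cases c with
    | true =>
      have h4 := harm G σ hI (inv_hD hI) m0 hm hz (w := w) hi K
      simpa only [hB, if_true] using h4
    | false =>
      have h4 := harm G.mir σ.mir (inv_mir hI) (inv_hD (inv_mir hI)) m0 hm (z := z) (w := w) hz hi K
      simpa only [hB, Bool.false_eq_true, if_false] using h4
  have h4 := Finset.sum_le_card_nsmul _ _ _ h3
  have h5 : ((Finset.univ.filter (fun i : V × Bool => i.1 ∉ σ.S)).card : ℝ) ≤ 2 * (Fintype.card V : ℝ) := by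
    have : (Finset.univ.filter (fun i : V × Bool => i.1 ∉ σ.S)).card ≤ Fintype.card (V × Bool) := Finset.card_le_univ _
    rw [Fintype.card_prod, Fintype.card_bool] at this
    have h6 : ((Finset.univ.filter (fun i : V × Bool => i.1 ∉ σ.S)).card : ℝ) ≤ ((Fintype.card V * 2 : ℕ) : ℝ) := by
      exact_mod_cast this
    push_cast at h6
    linarith
  rw [nsmul_eq_mul] at h4
  have h6 : ((Finset.univ.filter (fun i : V × Bool => i.1 ∉ σ.S)).card : ℝ) * (100 / 101 : ℝ) ^ (K + 1) ≤
      2 * (Fintype.card V : ℝ) * (100 / 101 : ℝ) ^ (K + 1) := mul_le_mul_of_nonneg_right h5 (by positivity)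
  linarith

omit [Fintype V] [DecidableEq V] in
/-- The route of `y` does not depend on coins of hosts which die before `y`. -/
theorem orb_indep {σ : St V} (hI : Inv G σ) {ω ω' : V × Bool → Bool} {y : V}
    (h : ∀ κ : V × Bool, G.t y < G.t κ.1 → ω κ = ω' κ) {u : V} (hu : Orb (lam G σ ω) y u) : Orb (lam G σ ω') y u := by
  obtain ⟨k, rfl⟩ := hu
  induction k with
  | zero => exact orb_refl _ _
  | succ k ih =>
    rw [Function.iterate_succ_apply']
    set p := (lam G σ ω)^[k] y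
    have h1 : lam G σ ω p = lam G σ ω' p := by
      refine lam_congr fun h2 => h _ ?_
      have h3 := inn_of_notMem hI h2.1
      have h4 := orb_t (ch_lam hI ω') ih
      exact h4.trans_lt (t_zz h3)
    rw [h1]
    exact orb_step ih

/-- an event on the route of `y` does not see the coin of `v` if its host dies before `y` -/
theorem pr_memc {σ : St V} (hI : Inv G σ) {m0 : V × Bool → Option Bool} {ω : V × Bool → Bool} {z v y : V} {c : Bool}
    (hy : G.t (G.zz v) ≤ G.t y) {P : V → Prop} :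
    pr (memc G σ m0 ω z v c) (fun ω' => ∃ u, P u ∧ Orb (lam G σ ω') y u) ≤
      pr (mem G σ m0 ω z v) (fun ω' => ∃ u, P u ∧ Orb (lam G σ ω') y u) := by
  refine pr_le fun ω' h => ?_
  obtain ⟨u, h1, h2⟩ := h
  refine ⟨u, h1, orb_indep hI (fun κ hκ => ?_) h2⟩
  unfold ov memc
  have : κ ≠ G.coin v := by
    rintro rfl
    have : (G.coin v).1 = G.zz v := rfl
    rw [this] at hκ
    omega
  simp only [this, if_false]

/-- Closability of the first long head (squeezing between the path and the branch, in the same `ω'`). -/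
theorem clA {σ : St V} {m0 : V × Bool → Option Bool} {ω : V × Bool → Bool} {z : V} {K Tm : ℕ} {E : Set V}
    (h : Ctx G σ m0 ω z K Tm E) {v w : V} (ha : obA G σ m0 ω z v) (hw : OnB G σ ω z w) (hvw : G.t v < G.t w)
    (hp : 0 < pra G σ m0 ω z v w) :
    pra G σ m0 ω z v w ≤ pr (mem G σ m0 ω z v)
      (fun ω' => ∃ u, OnB G σ ω z u ∧ G.t u ≤ G.t w ∧ Orb (lam G σ ω') (G.flh v) u) := by
  have hI := h.inv
  have hvi := inn_of_notMem hI ha.1.1.2
  have hxi := inn_of_notMem hI ha.1.2.2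
  unfold pra
  split_ifs with h1
  · refine pr_le fun ω' h2 => ⟨w, hw, le_rfl, ?_⟩
    rw [flh_eq hvi ((zz_up hvi).1 h1)]
    exact h2
  · have h2 : G.zz v = G.lo v := (zz_or v).resolve_right h1
    have h3 : pr (memc G σ m0 ω z v false) (fun ω' => Orb (lam G σ ω') (G.up v) w ∧ ¬ Orb (lam G σ ω') (G.up v) (G.lo v)) ≤
        pr (memc G σ m0 ω z v false) (fun ω' => ∃ u, (OnB G σ ω z u ∧ G.t u ≤ G.t w) ∧ Orb (lam G σ ω') (G.flh v) u) := by
      refine pr_le fun ω' h4 => ?_
      obtain ⟨u, k1, k2, k3⟩ := hitA hI ha.1 hw hvw h4.1 h4.2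
      exact ⟨u, ⟨k1, k2⟩, k3⟩
    have h4 := pr_memc hI (m0 := m0) (ω := ω) (z := z) (v := v) (y := G.flh v) (c := false)
      (by rw [h2]; exact (t_flh hvi hxi).le) (P := fun u => OnB G σ ω z u ∧ G.t u ≤ G.t w)
    refine h3.trans (h4.trans (pr_le fun ω' h5 => ?_))
    obtain ⟨u, k1, k2⟩ := h5
    exact ⟨u, k1.1, k1.2, k2⟩

/-- Closability of the exposed short heads. -/
theorem clB {σ : St V} {m0 : V × Bool → Option Bool} {ω : V × Bool → Bool} {z : V} {K Tm : ℕ} {E : Set V}
    (h : Ctx G σ m0 ω z K Tm E) {v w v' : V} (hb : obB G σ ω z v) (hw : OnB G σ ω z w) (hvw : G.t v < G.t w)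
    (hv' : G.inn v') (h1 : G.lo v' = G.lo v) (h2 : G.t v ≤ G.t v') (h3 : G.t v' + 1 < G.tau1 v)
    (hp : 0 < prb G σ m0 ω z v w) :
    prb G σ m0 ω z v w ≤ pr (memc G σ m0 ω z v true)
      (fun ω' => ∃ u, OnB G σ ω z u ∧ G.t u ≤ G.t w ∧ Orb (lam G σ ω') (G.up v') u) := by
  have hI := h.inv
  unfold prb
  refine pr_le fun ω' h4 => ?_
  have h5 := hitB (τ := G.t v' + 1) (w := w) hI (inv_hD' hI) hb.1 hb.2.2 (ω' := ov (memc G σ m0 ω z v false) ω')
    (ω'' := ov (memc G σ m0 ω z v true) ω') (ov_eq (by simp [memc]) ω') (fun κ' hκ => ?_)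
    (ov_eq (by simp [memc]) ω') hw hvw (by omega) h3 h4
  · rw [← h1, ub_lo G hv'] at h5
    exact h5
  · unfold ov memc
    simp only [hκ, if_false]

/-- A harm probability is `0` as long as the first long head is alive. -/
theorem pra_zero {σ : St V} (hI : Inv G σ) {m0 : V × Bool → Option Bool} {ω : V × Bool → Bool} {z v w : V}
    (hv : Dst G σ ω z v) (hw : OnB G σ ω z w) (hvw : G.t v < G.t w) (hy : G.t w < G.t (G.flh v)) :
    pra G σ m0 ω z v w = 0 := by
  have hvi := inn_of_notMem hI hv.1.2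
  unfold pra
  split_ifs with h1
  · refine pr_zero fun ω' h2 => ?_
    have h3 := orb_t (ch_lam hI _) h2
    rw [flh_eq hvi ((zz_up hvi).1 h1)] at hy
    omega
  · refine pr_zero fun ω' h2 => ?_
    obtain ⟨u, _, k2, k3⟩ := hitA hI hv hw hvw h2.1 h2.2
    have h3 := orb_t (ch_lam hI _) k3
    omega

omit [Fintype V] [DecidableEq V] in
theorem next_notMem {σ : St V} (hI : Inv G σ) {ω : V × Bool → Bool} {z v v' : V} (hv : OnB G σ ω z v)
    (hv' : OnB G σ ω z v') (h : G.t v' < G.t v) : lam G σ ω v' ∉ σ.S := by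
  intro h1
  obtain ⟨k, hk⟩ := orb_comp (ch_lam hI ω) hv'.1 hv.1 h.le
  cases k with
  | zero =>
    have : v' = v := hk
    rw [this] at h
    exact lt_irrefl _ h
  | succ k =>
    rw [Function.iterate_succ_apply] at hk
    exact hv.2 (orb_closed (lam_cl hI) h1 ⟨k, hk⟩)

theorem dl_pos' (K : ℕ) : 0 < dl K := by unfold dl; positivity

/-- The alive rejected hosts above the route. -/
theorem mr_side {σ : St V} (hI : Inv G σ) {m0 : V × Bool → Option Bool} {ω : V × Bool → Bool} {z v : V} {K : ℕ}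
    (hv : OnB G σ ω z v) (hcnt : cnt G σ m0 ω z (dl K) v ≤ K) :
    Set.ncard {κ : V × Bool | ∃ v', OnB G σ ω z v' ∧ G.t v' < G.t v ∧ ask G σ v' ∧ G.coin v' = κ ∧ ω κ = false ∧
      m0 κ = none ∧ G.t v < G.t κ.1 ∧ G.zz v' = G.up v'} ≤ K := by
  classical
  refine le_trans ?_ hcnt
  unfold cnt
  refine le_trans (Set.ncard_le_ncard (t := (fun v'' => G.blw (G.flh v'')) ''
    {v'' | G.t v'' < G.t v ∧ hrm G σ m0 ω z (dl K) v v''}) ?_ (Set.toFinite _)) (Set.ncard_image_le (Set.toFinite _))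
  rintro κ ⟨v', h1, h2, h3, h4, h5, h6, h7, h8⟩
  have hv'i := inn_of_notMem hI h1.2
  have hfl : G.flh v' = G.up v' := flh_eq hv'i ((zz_up hv'i).1 h8)
  have hcoin : G.coin v' = G.blw (G.up v') := coin_up G hv'i h8
  have hlam : lam G σ ω v' = G.lo v' := by
    rw [lam_rej h3 (by rw [h4]; exact h5), oo_lo hv'i h8]
  have hdst : Dst G σ ω z v' := ⟨h1, hlam, by rw [← hlam]; exact next_notMem hI hv h1 h2⟩
  -- the first step with this first long head
  have hex : ∃ n, ∃ v'', Dst G σ ω z v'' ∧ G.flh v'' = G.up v' ∧ G.t v'' = n := ⟨_, v', hdst, hfl, rfl⟩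
  obtain ⟨v'', k1, k2, k3⟩ := Nat.find_spec hex
  have kmin : ∀ v3, Dst G σ ω z v3 → G.flh v3 = G.up v' → G.t v'' ≤ G.t v3 := by
    intro v3 l1 l2
    rw [k3]
    exact Nat.find_min' hex ⟨v3, l1, l2, rfl⟩
  have hκ : κ = G.blw (G.flh v'') := by rw [k2, ← hcoin, h4]
  refine ⟨v'', ⟨lt_of_le_of_lt (kmin v' hdst hfl) h2, Or.inr (Or.inr ⟨⟨k1, ?_, ?_, ?_, ?_⟩, ?_⟩)⟩, hκ.symm⟩
  · rw [k2, ← h8]; exact h3.2.2
  · intro v3 l1 l2 l3
    have := kmin v3 l1 (l3.trans k2)
    omega
  · rw [← hκ]; exact h6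
  · exact fun hfb => fbx hI h1 h3 k1 k2 hfb
  · rw [pra_zero hI k1 hv (lt_of_le_of_lt (kmin v' hdst hfl) h2) (by rw [hκ] at h7; exact h7)]
    exact dl_pos' K

/-- The restricted memory is small: alive rejected hosts are `v`-harmful. -/
theorem mr_card {σ : St V} {m0 : V × Bool → Option Bool} {ω : V × Bool → Bool} {z : V} {K Tm : ℕ} {E : Set V}
    (h : Ctx G σ m0 ω z K Tm E) {v : V} (hv : OnB G σ ω z v) {m : ℕ} (hm : Set.ncard {c | m0 c ≠ none} ≤ m) :
    Set.ncard {c | mr G σ m0 ω z v c ≠ none} ≤ m + 2 * (K + 1) := by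
  classical
  have hI := h.inv
  have hI' := inv_mir hI
  have hlam := lam_mir (G := G) hI.bot_mem hI.top_mem ω
  have hon : ∀ u, OnB G.mir σ.mir ω z u ↔ OnB G σ ω z u := by
    intro u; unfold OnB; rw [hlam]; exact Iff.rfl
  have hA := mr_side hI (m0 := m0) (K := K) hv (h.nD v hv)
  have hB := mr_side hI' (m0 := m0) (K := K) ((hon v).2 hv) (h.nU v hv)
  set A := {κ : V × Bool | ∃ v', OnB G σ ω z v' ∧ G.t v' < G.t v ∧ ask G σ v' ∧ G.coin v' = κ ∧ ω κ = false ∧
      m0 κ = none ∧ G.t v < G.t κ.1 ∧ G.zz v' = G.up v'} with hAdef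
  set B := {κ : V × Bool | ∃ v', OnB G.mir σ.mir ω z v' ∧ G.mir.t v' < G.mir.t v ∧ ask G.mir σ.mir v' ∧
      G.mir.coin v' = κ ∧ ω κ = false ∧ m0 κ = none ∧ G.mir.t v < G.mir.t κ.1 ∧ G.mir.zz v' = G.mir.up v'} with hBdef
  have hsub : {c | mr G σ m0 ω z v c ≠ none} ⊆ {c | m0 c ≠ none} ∪ (A ∪ B) := by
    intro κ hκ
    by_cases h1 : m0 κ = none
    · right
      have h2 : mem G σ m0 ω z v κ = some false ∧ G.t v < G.t κ.1 := by
        by_contra h3
        apply hκ
        unfold mr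
        rw [if_neg h3]
      obtain ⟨h3, h4⟩ := h2
      unfold mem at h3
      split_ifs at h3 with h5
      · obtain ⟨v', k1, k2, k3, k4⟩ := h5
        have h6 : ω κ = false := by simpa using h3
        have hv'i := inn_of_notMem hI k1.2
        rcases zz_or (G := G) v' with k5 | k5
        · right
          refine ⟨v', (hon v').2 k1, k2, ?_, ?_, h6, h1, h4, ?_⟩
          · refine ⟨k3.1, k3.2.1, ?_⟩
            rw [(zz_mir G hv'i).1]
            exact k3.2.2
          · rw [coin_mir G hv'i]; exact k4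
          · rw [(zz_mir G hv'i).1, k5]; rfl
        · left
          exact ⟨v', k1, k2, k3, k4, h6, h1, h4, k5⟩
      · rw [h1] at h3
        exact absurd h3 (by simp)
    · exact Or.inl h1
  calc Set.ncard {c | mr G σ m0 ω z v c ≠ none} ≤ Set.ncard ({c | m0 c ≠ none} ∪ (A ∪ B)) :=
        Set.ncard_le_ncard hsub (Set.toFinite _)
    _ ≤ Set.ncard {c | m0 c ≠ none} + Set.ncard (A ∪ B) := Set.ncard_union_le _ _
    _ ≤ m + (Set.ncard A + Set.ncard B) := Nat.add_le_add hm (Set.ncard_union_le _ _)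
    _ ≤ m + (K + K) := by
        have := Nat.add_le_add hA hB
        omega
    _ ≤ m + 2 * (K + 1) := by omega

end T34b

end Pool.Agent.W_a4f561_h26
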