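import Pool.Agent.W_a4f561_h26.Hrm
import Pool.Agent.W_a4f561_E.Det70

/-!
MP_a4f561_co (EpsPages): the trunk corollary (helper45). Union bound over all `w ∉ S` for `G` and `G.mir`.
-/

set_option autoImplicit false

namespace Pool.Agent.W_a4f561_E.Trunk45

open Pool.Agent.W_a4f561_h26

variable {V : Type} [Fintype V] [DecidableEq V] {G : Bars V}

omit [Fintype V] [DecidableEq V] in
theorem ov_ext (m0 : V × Bool → Option Bool) (ω : V × Bool → Bool) :
    ∀ κ b, m0 κ = some b → ov m0 ω κ = b := by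
  intro κ b h
  unfold ov
  rw [h]
  rfl

/-- Union bound. -/
theorem union_pr (m : V × Bool → Option Bool) {A : (V × Bool → Bool) → Prop}
    {P Q : V → (V × Bool → Bool) → Prop} {c : ℝ} (_ : 0 ≤ c)
    (hP : ∀ w, pr m (P w) ≤ c) (hQ : ∀ w, pr m (Q w) ≤ c)
    (h : ∀ ω, A (ov m ω) → ∃ w, P w (ov m ω) ∨ Q w (ov m ω)) :
    pr m A ≤ 2 * (Fintype.card V : ℝ) * c := by
  classical
  have h2 : (0 : ℝ) < (2 : ℝ) ^ (Fintype.card (V × Bool)) := by positivity
  have h1 : ((Finset.univ.filter (fun ω : V × Bool → Bool => A (ov m ω))).card : ℝ) ≤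
      ∑ w : V, (((Finset.univ.filter (fun ω : V × Bool → Bool => P w (ov m ω))).card : ℝ) +
        ((Finset.univ.filter (fun ω : V × Bool → Bool => Q w (ov m ω))).card : ℝ)) := by
    have h3 : (Finset.univ.filter (fun ω : V × Bool → Bool => A (ov m ω))) ⊆
        Finset.univ.biUnion (fun w : V => (Finset.univ.filter (fun ω : V × Bool → Bool => P w (ov m ω))) ∪
          (Finset.univ.filter (fun ω : V × Bool → Bool => Q w (ov m ω)))) := by
      intro ω hω
      rw [Finset.mem_filter] at hω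
      obtain ⟨w, hw⟩ := h ω hω.2
      rw [Finset.mem_biUnion]
      refine ⟨w, Finset.mem_univ _, ?_⟩
      rw [Finset.mem_union, Finset.mem_filter, Finset.mem_filter]
      rcases hw with hw | hw
      · exact Or.inl ⟨Finset.mem_univ _, hw⟩
      · exact Or.inr ⟨Finset.mem_univ _, hw⟩
    have h4 := (Finset.card_le_card h3).trans Finset.card_biUnion_le
    have h5 : ∑ w : V, ((Finset.univ.filter (fun ω : V × Bool → Bool => P w (ov m ω))) ∪
          (Finset.univ.filter (fun ω : V × Bool → Bool => Q w (ov m ω)))).card ≤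
        ∑ w : V, ((Finset.univ.filter (fun ω : V × Bool → Bool => P w (ov m ω))).card +
          (Finset.univ.filter (fun ω : V × Bool → Bool => Q w (ov m ω))).card) :=
      Finset.sum_le_sum fun w _ => Finset.card_union_le _ _
    have h6 := h4.trans h5
    have h7 : ((Finset.univ.filter (fun ω : V × Bool → Bool => A (ov m ω))).card : ℝ) ≤
      ((∑ w : V, ((Finset.univ.filter (fun ω : V × Bool → Bool => P w (ov m ω))).card +
          (Finset.univ.filter (fun ω : V × Bool → Bool => Q w (ov m ω))).card) : ℕ) : ℝ) := by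
      exact_mod_cast h6
    refine h7.trans (le_of_eq ?_)
    push_cast
    rfl
  have e1 : pr m A = ((Finset.univ.filter (fun ω : V × Bool → Bool => A (ov m ω))).card : ℝ) /
      (2 : ℝ) ^ (Fintype.card (V × Bool)) := by
    unfold pr
    congr!
  have eP : ∀ w, ((Finset.univ.filter (fun ω : V × Bool → Bool => P w (ov m ω))).card : ℝ) =
      pr m (P w) * (2 : ℝ) ^ (Fintype.card (V × Bool)) := by
    intro w
    have e2 : pr m (P w) = ((Finset.univ.filter (fun ω : V × Bool → Bool => P w (ov m ω))).card : ℝ) /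
        (2 : ℝ) ^ (Fintype.card (V × Bool)) := by
      unfold pr
      congr!
    rw [e2, div_mul_cancel₀ _ h2.ne']
  have eQ : ∀ w, ((Finset.univ.filter (fun ω : V × Bool → Bool => Q w (ov m ω))).card : ℝ) =
      pr m (Q w) * (2 : ℝ) ^ (Fintype.card (V × Bool)) := by
    intro w
    have e2 : pr m (Q w) = ((Finset.univ.filter (fun ω : V × Bool → Bool => Q w (ov m ω))).card : ℝ) /
        (2 : ℝ) ^ (Fintype.card (V × Bool)) := by
      unfold pr
      congr!
    rw [e2, div_mul_cancel₀ _ h2.ne']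
  rw [e1, div_le_iff₀ h2]
  refine h1.trans ?_
  have h8 : ∑ w : V, (((Finset.univ.filter (fun ω : V × Bool → Bool => P w (ov m ω))).card : ℝ) +
        ((Finset.univ.filter (fun ω : V × Bool → Bool => Q w (ov m ω))).card : ℝ)) ≤
      ∑ _w : V, (2 * c * (2 : ℝ) ^ (Fintype.card (V × Bool))) := by
    refine Finset.sum_le_sum fun w _ => ?_
    rw [eP w, eQ w]
    have a1 := mul_le_mul_of_nonneg_right (hP w) h2.le
    have a2 := mul_le_mul_of_nonneg_right (hQ w) h2.le
    nlinarith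
  refine h8.trans (le_of_eq ?_)
  rw [Finset.sum_const, Finset.card_univ, nsmul_eq_mul]
  ring

theorem pr_false (m : V × Bool → Option Bool) {A : (V × Bool → Bool) → Prop} (h : ∀ ω, ¬ A ω) : pr m A = 0 := by
  classical
  unfold pr
  have h1 : (Finset.univ.filter (fun ω : V × Bool → Bool => A (ov m ω))) = ∅ :=
    Finset.filter_eq_empty_iff.2 fun ω _ => h _
  have h3 : ((Finset.univ.filter (fun ω : V × Bool → Bool => A (ov m ω))).card : ℝ) = 0 := by
    rw [h1]
    simp
  have h4 : pr m A = ((Finset.univ.filter (fun ω : V × Bool → Bool => A (ov m ω))).card : ℝ) /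
      (2 : ℝ) ^ (Fintype.card (V × Bool)) := by
    unfold pr
    congr!
  have h5 : pr m A = 0 := by rw [h4, h3, zero_div]
  exact h5

/-- TRUNK COROLLARY: a good successful route. -/
theorem trunk (G : Bars V) (σ : St V) (hI : Inv G σ) {Tm : ℕ} (hL : Lt G σ Tm) {z : V} (hz : z ∉ σ.S)
    (m0 : V × Bool → Option Bool) (hm : ∀ c, m0 c ≠ some true) {E : Set V} (hE : E ⊆ σ.S \ σ.Lat)
    (htE : ∀ e ∈ E, G.t e ≤ Tm) {κ : ℝ} {K : ℕ}
    (hK : 2 * (Fintype.card V : ℝ) * (100 / 101 : ℝ) ^ (K + 1) < κ)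
    (hκ : κ ≤ pr m0 (fun ω => Suc G σ ω z E)) : ∃ ω, Ctx G σ m0 ω z K Tm E := by
  classical
  by_contra hcon
  have hI' := inv_mir hI
  have hlm : ∀ ω, lam G.mir σ.mir ω = lam G σ ω := fun ω => lam_mir hI.bot_mem hI.top_mem ω
  have hb : ∀ ω, (fun ω => Suc G σ ω z E) (ov m0 ω) → ∃ w,
      (fun (w : V) (ω : V × Bool → Bool) => w ∉ σ.S ∧ (Orb (lam G σ ω) z w ∧ K + 1 ≤ cnt G σ m0 ω z (dl K) w)) w
        (ov m0 ω) ∨
      (fun (w : V) (ω : V × Bool → Bool) => w ∉ σ.S ∧ (Orb (lam G.mir σ.mir ω) z w ∧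
        K + 1 ≤ cnt G.mir σ.mir m0 ω z (dl K) w)) w (ov m0 ω) := by
    intro ω hω
    by_contra hno
    apply hcon
    refine ⟨ov m0 ω, ?_⟩
    refine { inv := hI, lt := hL, zS := hz, ES := hE, tE := htE, m0t := hm, ext := ov_ext m0 ω, suc := hω,
             nD := ?_, nU := ?_ }
    · intro w hw
      by_contra h1
      exact hno ⟨w, Or.inl ⟨hw.2, hw.1, by omega⟩⟩
    · intro w hw
      by_contra h1
      refine hno ⟨w, Or.inr ⟨hw.2, ?_, by omega⟩⟩
      rw [hlm]
      exact hw.1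
  have hc : (0 : ℝ) ≤ (100 / 101 : ℝ) ^ (K + 1) := by positivity
  have h1 := union_pr m0 (A := fun ω => Suc G σ ω z E)
    (P := fun (w : V) (ω : V × Bool → Bool) => w ∉ σ.S ∧ (Orb (lam G σ ω) z w ∧ K + 1 ≤ cnt G σ m0 ω z (dl K) w))
    (Q := fun (w : V) (ω : V × Bool → Bool) => w ∉ σ.S ∧ (Orb (lam G.mir σ.mir ω) z w ∧
        K + 1 ≤ cnt G.mir σ.mir m0 ω z (dl K) w)) hc (fun w => ?_) (fun w => ?_) hb
  · linarith
  · by_cases hw : w ∈ σ.S
    · rw [pr_false m0 fun ω h => h.1 hw]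
      exact hc
    · have h2 := harm G σ hI (fun u a b c d => D70.h1_dec hI a b c d) m0 hm hz hw K
      refine le_trans (le_of_eq ?_) h2
      congr 1
      funext ω
      exact propext ⟨fun h => h.2, fun h => ⟨hw, h⟩⟩
  · by_cases hw : w ∈ σ.S
    · rw [pr_false m0 fun ω h => h.1 hw]
      exact hc
    · have h2 := harm G.mir σ.mir hI' (fun u a b c d => D70.h1_dec hI' a b c d) m0 hm hz
        (show w ∉ σ.mir.S from hw) K
      refine le_trans (le_of_eq ?_) h2
      congr 1
      funext ω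
      exact propext ⟨fun h => h.2, fun h => ⟨hw, h⟩⟩

end Pool.Agent.W_a4f561_E.Trunk45
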